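import Pool.Agent.Lib.MP_6e2ba5_an.Stmt

/-! # The number `(iτ)^(2s)`

`Complex.cpow_def_of_ne_zero`, `log (iτ) = log τ + iπ/2`. -/

set_option autoImplicit false

open MeasureTheory Filter Topology Set
open scoped FourierTransform SchwartzMap InnerProductSpace ENNReal ContDiff

noncomputable section

namespace FracScat

/-- The real exponential `exp(-τ θ·x)`. -/
def pe (τ : ℝ) (θ x : E3) : ℝ := Real.exp (-(τ * ⟪θ, x⟫_ℝ))

/-- `(iτ)^(2s)`. -/
def zt (s τ : ℝ) : ℂ := (Complex.I * τ) ^ ((2 * s : ℝ) : ℂ)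

theorem planeWave_I (τ : ℝ) (θ x : E3) : planeWave (Complex.I * τ) θ x = ((pe τ θ x : ℝ) : ℂ) := by
  unfold planeWave pe
  rw [Complex.ofReal_exp]
  congr 1
  rw [← mul_assoc, Complex.I_mul_I]
  push_cast
  ring

private theorem zt_eq {s τ : ℝ} (hτ : 0 < τ) :
    zt s τ = Complex.exp (((Real.log τ * (2 * s) : ℝ) : ℂ) + ((Real.pi * s : ℝ) : ℂ) * Complex.I) := by
  unfold zt
  have h0 : Complex.I * (τ : ℂ) ≠ 0 :=
    mul_ne_zero Complex.I_ne_zero (Complex.ofReal_ne_zero.2 hτ.ne')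
  rw [Complex.cpow_def_of_ne_zero h0, Complex.log_mul_ofReal τ hτ _ Complex.I_ne_zero,
    Complex.log_I]
  congr 1
  push_cast
  ring

theorem zt_im {s τ : ℝ} (hτ : 0 < τ) : (zt s τ).im = τ ^ (2 * s) * Real.sin (Real.pi * s) := by
  rw [zt_eq hτ, Complex.exp_im, Real.rpow_def_of_pos hτ]
  simp

theorem zt_norm {s τ : ℝ} (hτ : 0 < τ) : ‖zt s τ‖ = τ ^ (2 * s) := by
  rw [zt_eq hτ, Complex.norm_exp, Real.rpow_def_of_pos hτ]
  simp

theorem sin_pi_ne {s : ℝ} (h0 : 0 < s) (h2 : s < 2) (h1 : s ≠ 1) : Real.sin (Real.pi * s) ≠ 0 := by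
  intro h
  rw [Real.sin_eq_zero_iff] at h
  obtain ⟨m, hm⟩ := h
  have hs : (m : ℝ) = s := by
    have hpi := Real.pi_pos
    have : ((m : ℝ) - s) * Real.pi = 0 := by linarith
    rcases mul_eq_zero.1 this with h | h
    · linarith
    · exact absurd h hpi.ne'
  have hm0 : 0 < m := by
    have : (0 : ℝ) < m := by rw [hs]; exact h0
    exact_mod_cast this
  have hm2 : m < 2 := by
    have : (m : ℝ) < 2 := by rw [hs]; exact h2
    exact_mod_cast this
  have hm1 : m = 1 := by omega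
  apply h1
  rw [← hs, hm1]
  norm_num

end FracScat

end
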