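import Pool.Agent.Lib.MP_6e2ba5_an.WL2b

/-! # Pairings with `(-Δ)^s φ`, `D^s φ`, `φ` on the Fourier side

For `G ∈ L¹ ∩ L²` (here `G = a^(2s) 𝓕 φ`, or `2πi ξ_j a^(s-1) 𝓕 φ`) the function `𝓕⁻ G` is in `L²`
and `FT` of it is `G` (`FTsymm_coe_of_integrable`); then `parseval`. -/

set_option autoImplicit false

open MeasureTheory Filter Topology Set
open scoped FourierTransform SchwartzMap InnerProductSpace ENNReal

noncomputable section

namespace FracScat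

/-- The `L²` class of a function (zero if it is not in `L²`). -/
def toH (ψ : E3 → ℂ) : HS := by
  classical exact if h : MemLp ψ 2 volume then h.toLp ψ else 0

theorem toH_coe {ψ : E3 → ℂ} (h : MemLp ψ 2 volume) : (toH ψ : E3 → ℂ) =ᵐ[volume] ψ := by
  classical
  have : toH ψ = h.toLp ψ := by simp [toH, h]
  rw [this]
  exact h.coeFn_toLp

private theorem FracPair_fourierInv_congr {f g : E3 → ℂ} (h : f =ᵐ[volume] g) :
    (𝓕⁻ f : E3 → ℂ) = 𝓕⁻ g := by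
  funext x
  rw [Real.fourierInv_eq, Real.fourierInv_eq]
  refine integral_congr_ae ?_
  filter_upwards [h] with y hy
  rw [hy]

private theorem FracPair_fourier_congr {f g : E3 → ℂ} (h : f =ᵐ[volume] g) :
    (𝓕 f : E3 → ℂ) = 𝓕 g := by
  funext x
  rw [Real.fourier_eq, Real.fourier_eq]
  refine integral_congr_ae ?_
  filter_upwards [h] with y hy
  rw [hy]

/-- The general fact. -/
private theorem FracPair_gen {G : E3 → ℂ} (h1 : Integrable G) (h2 : MemLp G 2 volume) :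
    (FT (toH (𝓕⁻ G)) : E3 → ℂ) =ᵐ[volume] G := by
  have hg := h2.coeFn_toLp
  have hgi : Integrable ((h2.toLp G : HS) : E3 → ℂ) := h1.congr hg.symm
  have h3 := FTsymm_coe_of_integrable (h2.toLp G) hgi
  rw [FracPair_fourierInv_congr hg] at h3
  have h4 : MemLp (𝓕⁻ G : E3 → ℂ) 2 volume := (memLp_congr_ae h3).1 (Lp.memLp _)
  have h5 : toH (𝓕⁻ G) = FT.symm (h2.toLp G) := by
    apply Lp.ext
    exact (toH_coe h4).trans h3.symm
  rw [h5, LinearIsometryEquiv.apply_symm_apply]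
  exact hg

private theorem FracPair_bound {m : E3 → ℂ} (hm : AEStronglyMeasurable m volume) {C : ℝ}
    (hC : ∀ ξ, ‖m ξ‖ ≤ C * (1 + ‖ξ‖ ^ 2) ^ (2 : ℝ)) (ψ : 𝓢(E3, ℂ)) :
    Integrable (fun ξ => m ξ * ψ ξ) ∧ MemLp (fun ξ => m ξ * ψ ξ) 2 volume := by
  have hg : Function.HasTemperateGrowth (fun x : E3 => ((((1 + ‖x‖ ^ 2) ^ (2 : ℝ) : ℝ)) : ℂ)) := by
    fun_prop
  set Ψ : 𝓢(E3, ℂ) := SchwartzMap.smulLeftCLM ℂ
    (fun x : E3 => ((((1 + ‖x‖ ^ 2) ^ (2 : ℝ) : ℝ)) : ℂ)) ψ with hΨ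
  have hΨx : ∀ x, Ψ x = ((((1 + ‖x‖ ^ 2) ^ (2 : ℝ) : ℝ)) : ℂ) * ψ x := by
    intro x
    rw [hΨ, SchwartzMap.smulLeftCLM_apply_apply hg, smul_eq_mul]
  have hb : ∀ x, ‖m x * ψ x‖ ≤ C * ‖Ψ x‖ := by
    intro x
    rw [hΨx, norm_mul, norm_mul, Complex.norm_real, Real.norm_of_nonneg (by positivity),
      ← mul_assoc]
    exact mul_le_mul_of_nonneg_right (hC x) (norm_nonneg _)
  have hmeas : AEStronglyMeasurable (fun ξ => m ξ * ψ ξ) volume :=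
    hm.mul ψ.continuous.aestronglyMeasurable
  refine ⟨?_, ?_⟩
  · refine (Ψ.integrable.norm.const_mul C).mono' hmeas (Eventually.of_forall hb)
  · exact MemLp.of_le_mul (Ψ.memLp 2) hmeas (Eventually.of_forall hb)

private theorem FracPair_pow_le {a : ℝ} (ha : 0 ≤ a) {p : ℝ} (hp0 : 0 ≤ p) {N : ℕ}
    (hpN : p ≤ N) : a ^ p ≤ (1 + a) ^ N := by
  have h1 : a ^ p ≤ (1 + a) ^ p := Real.rpow_le_rpow ha (by linarith) hp0
  refine h1.trans ?_
  rw [← Real.rpow_natCast]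
  exact Real.rpow_le_rpow_of_exponent_le (by linarith) hpN

private theorem FracPair_four (r : ℝ) (hr : 0 ≤ r) :
    (1 + 2 * Real.pi * r) ^ 4 ≤ 64 * Real.pi ^ 4 * (1 + r ^ 2) ^ (2 : ℝ) := by
  have h0 := Real.pi_gt_three
  have h1 : (1 + 2 * Real.pi * r) ^ 2 ≤ 8 * Real.pi ^ 2 * (1 + r ^ 2) := by
    nlinarith [sq_nonneg (1 - 2 * Real.pi * r), sq_nonneg r]
  have h2 : ((1 + 2 * Real.pi * r) ^ 2) ^ 2 ≤ (8 * Real.pi ^ 2 * (1 + r ^ 2)) ^ 2 :=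
    pow_le_pow_left₀ (by positivity) h1 2
  have h3 : (1 + r ^ 2) ^ (2 : ℝ) = (1 + r ^ 2) ^ 2 := by
    have := Real.rpow_natCast (1 + r ^ 2) 2
    rw [Nat.cast_ofNat] at this
    exact this
  rw [h3]
  calc (1 + 2 * Real.pi * r) ^ 4 = ((1 + 2 * Real.pi * r) ^ 2) ^ 2 := by ring
    _ ≤ _ := h2
    _ = _ := by ring

private theorem FracPair_lap {s : ℝ} (h0 : 1 / 2 < s) (h2 : s < 2) (φ : 𝓢(E3, ℂ)) :
    Integrable (fun ξ : E3 => (((2 * Real.pi * ‖ξ‖) ^ (2 * s) : ℝ) : ℂ) *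
      𝓕 (φ : E3 → ℂ) ξ) ∧ MemLp (fun ξ : E3 => (((2 * Real.pi * ‖ξ‖) ^ (2 * s) : ℝ) : ℂ) *
      𝓕 (φ : E3 → ℂ) ξ) 2 volume := by
  refine FracPair_bound (C := 64 * Real.pi ^ 4) ?_ ?_ (𝓕 φ)
  · exact (Complex.measurable_ofReal.comp
      ((measurable_norm.const_mul (2 * Real.pi)).pow_const (2 * s))).aestronglyMeasurable
  · intro ξ
    rw [Complex.norm_real, Real.norm_of_nonneg (by positivity)]
    refine le_trans ?_ (FracPair_four ‖ξ‖ (norm_nonneg _))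
    exact FracPair_pow_le (by positivity) (by linarith) (by norm_num; linarith)

private theorem FracPair_grad {s : ℝ} (h0 : 1 / 2 < s) (h2 : s < 2) (j : Fin 3)
    (φ : 𝓢(E3, ℂ)) :
    Integrable (fun ξ : E3 => Complex.I * ((2 * Real.pi * ξ j : ℝ) : ℂ) *
        (((2 * Real.pi * ‖ξ‖) ^ (s - 1) : ℝ) : ℂ) * 𝓕 (φ : E3 → ℂ) ξ) ∧
      MemLp (fun ξ : E3 => Complex.I * ((2 * Real.pi * ξ j : ℝ) : ℂ) *
        (((2 * Real.pi * ‖ξ‖) ^ (s - 1) : ℝ) : ℂ) * 𝓕 (φ : E3 → ℂ) ξ) 2 volume := by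
  refine FracPair_bound (C := 64 * Real.pi ^ 4) ?_ ?_ (𝓕 φ)
  · have hm1 : Measurable (fun ξ : E3 => (2 * Real.pi * ξ j : ℝ)) := by fun_prop
    have hm2 : Measurable (fun ξ : E3 => ((2 * Real.pi * ‖ξ‖) ^ (s - 1) : ℝ)) :=
      (measurable_norm.const_mul (2 * Real.pi)).pow_const (s - 1)
    exact (((Complex.measurable_ofReal.comp hm1).const_mul Complex.I).mul
      (Complex.measurable_ofReal.comp hm2)).aestronglyMeasurable
  · intro ξ
    rw [norm_mul, norm_mul, Complex.norm_I, one_mul, Complex.norm_real, Complex.norm_real,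
      Real.norm_of_nonneg (by positivity : 0 ≤ (2 * Real.pi * ‖ξ‖) ^ (s - 1))]
    refine le_trans ?_ (FracPair_four ‖ξ‖ (norm_nonneg _))
    have h3 : ‖2 * Real.pi * ξ j‖ ≤ 2 * Real.pi * ‖ξ‖ := by
      rw [norm_mul, Real.norm_of_nonneg (by positivity : 0 ≤ 2 * Real.pi)]
      exact mul_le_mul_of_nonneg_left (PiLp.norm_apply_le ξ j) (by positivity)
    refine (mul_le_mul_of_nonneg_right h3 (by positivity)).trans ?_
    rcases eq_or_ne ξ 0 with hξ | hξ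
    · rw [hξ]
      simp
    · have h4 : 0 < 2 * Real.pi * ‖ξ‖ := by
        have := norm_pos_iff.2 hξ
        positivity
      have h5 : 2 * Real.pi * ‖ξ‖ * (2 * Real.pi * ‖ξ‖) ^ (s - 1) = (2 * Real.pi * ‖ξ‖) ^ s := by
        rw [mul_comm, ← Real.rpow_add_one h4.ne']
        congr 1
        ring
      rw [h5]
      exact FracPair_pow_le h4.le (by linarith) (by norm_num; linarith)

theorem FT_fracLap {s : ℝ} (h0 : 1 / 2 < s) (h2 : s < 2) (φ : 𝓢(E3, ℂ)) :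
    (FT (toH (fracLap s φ)) : E3 → ℂ) =ᵐ[volume]
      fun ξ => (((2 * Real.pi * ‖ξ‖) ^ (2 * s) : ℝ) : ℂ) * 𝓕 (φ : E3 → ℂ) ξ :=
  FracPair_gen (FracPair_lap h0 h2 φ).1 (FracPair_lap h0 h2 φ).2

theorem FT_fracGrad {s : ℝ} (h0 : 1 / 2 < s) (h2 : s < 2) (j : Fin 3) (φ : 𝓢(E3, ℂ)) :
    (FT (toH (fracGrad s j φ)) : E3 → ℂ) =ᵐ[volume]
      fun ξ => Complex.I * ((2 * Real.pi * ξ j : ℝ) : ℂ) *
        (((2 * Real.pi * ‖ξ‖) ^ (s - 1) : ℝ) : ℂ) * 𝓕 (φ : E3 → ℂ) ξ :=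
  FracPair_gen (FracPair_grad h0 h2 j φ).1 (FracPair_grad h0 h2 j φ).2

theorem FT_schwartz (φ : 𝓢(E3, ℂ)) :
    (FT (toH (φ : E3 → ℂ)) : E3 → ℂ) =ᵐ[volume] 𝓕 (φ : E3 → ℂ) := by
  have h1 := toH_coe (φ.memLp 2 (μ := volume))
  have h2 := FT_coe_of_integrable (toH (φ : E3 → ℂ)) (φ.integrable.congr h1.symm)
  rw [FracPair_fourier_congr h1] at h2
  exact h2

/-- The partial derivative of a Schwartz function. -/
def dphi (j : Fin 3) (φ : 𝓢(E3, ℂ)) (x : E3) : ℂ :=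
  fderiv ℝ (φ : E3 → ℂ) x (EuclideanSpace.single j (1 : ℝ))

open LineDeriv in
private theorem FracPair_dphi (j : Fin 3) (φ : 𝓢(E3, ℂ)) :
    dphi j φ = ((∂_{(EuclideanSpace.single j (1 : ℝ) : E3)} φ : 𝓢(E3, ℂ)) : E3 → ℂ) := by
  funext x
  rw [SchwartzMap.lineDerivOp_apply_eq_fderiv]
  rfl

theorem dphi_WL (j : Fin 3) (φ : 𝓢(E3, ℂ)) : WL (dphi j φ) := by
  rw [FracPair_dphi]
  exact schwartz_WL _

open LineDeriv in
theorem FT_dphi (j : Fin 3) (φ : 𝓢(E3, ℂ)) :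
    (FT (toH (dphi j φ)) : E3 → ℂ) =ᵐ[volume]
      fun ξ => Complex.I * ((2 * Real.pi * ξ j : ℝ) : ℂ) * 𝓕 (φ : E3 → ℂ) ξ := by
  rw [FracPair_dphi]
  refine (FT_schwartz _).trans (Eventually.of_forall fun ξ => ?_)
  rw [← SchwartzMap.fourier_coe, SchwartzMap.fourier_lineDerivOp_eq]
  have hg : (inner ℝ · (EuclideanSpace.single j (1 : ℝ) : E3)).HasTemperateGrowth := by fun_prop
  rw [smul_apply, SchwartzMap.smulLeftCLM_apply_apply hg]
  simp only [EuclideanSpace.inner_single_right, SchwartzMap.fourier_coe]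
  simp
  ring

end FracScat

end
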