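import Pool.Agent.Lib.MP_6e2ba5_an.UeqA
import Pool.Agent.Lib.MP_6e2ba5_an.FracPair
import Pool.Agent.Lib.MP_6e2ba5_an.AxisZ

/-! # The point `k = iτ`: exact formula for the imaginary part

Let `k = iτ`, `z = k^(2s)`, `p = exp(-τ θ·x)` (real), `u = uk`, `f = mulL (Vc V) u`,
`v = multL (rsE s k) f`. Since `V` vanishes outside the ball, `mulL (indB r) f = f` and
`Kop s r k f = mulL (indB r) v` (`Kop_interior`), so `u = ev + 1_B v` (`uk_eq`) and
`V p = f - V v` almost everywhere (`V 1_B = V`).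
(1) `Ffun = ∫ e V u = ∫ p V (p + v)`.
(2) `FT f = (a^(2s) - z) FT v` a.e. (`rs_denom_ne`). Hence
`∫ (V p) conj v = ∫ f conj v - ∫ V |v|² = ∫ (a^(2s) - z) |FT v|² - ∫ V |v|²`
(`inner` is preserved by `FT`), whose imaginary part is `- Im z ‖v‖²`; `V p` is real, so
`∫ (V p) v` is the complex conjugate, with imaginary part `Im z ‖v‖²`.
(3) `∫ f ψ = ∫ (FT f)(ξ) (FT ψ)(-ξ) = ∫ (FT v)(ξ) (a^(2s) - z) (FT ψ)(-ξ)
= ∫ v ((-Δ)^s ψ - z ψ)` by `parseval`, `FT_fracLap`, `FT_schwartz`. -/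

set_option autoImplicit false

open MeasureTheory Filter Topology Set
open scoped FourierTransform SchwartzMap InnerProductSpace ENNReal ContDiff

noncomputable section

namespace FracScat

/-- Almost everywhere statements are invariant under `ξ ↦ -ξ`. -/
private theorem ae_neg {P : E3 → Prop} (h : ∀ᵐ ξ ∂(volume : Measure E3), P ξ) :
    ∀ᵐ ξ ∂(volume : Measure E3), P (-ξ) :=
  (Measure.measurePreserving_neg (volume : Measure E3)).quasiMeasurePreserving.ae h

private theorem memLp_neg (g : HS) : MemLp (fun ξ => (g : E3 → ℂ) (-ξ)) 2 (volume : Measure E3) :=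
  (Lp.memLp g).comp_measurePreserving (Measure.measurePreserving_neg (volume : Measure E3))

private theorem integrable_mul_neg (f g : HS) :
    Integrable (fun ξ => (f : E3 → ℂ) ξ * (g : E3 → ℂ) (-ξ)) (volume : Measure E3) :=
  (Lp.memLp f).integrable_mul (memLp_neg g)

/-- Pairing of `v` with `(-Δ)^s ψ - z ψ` when `FT f = (a^(2s) - z) FT v`. -/
private theorem pair_id {s : ℝ} (h0 : 1 / 2 < s) (h2 : s < 2) {z : ℂ} {f v : HS}
    (hfv : ∀ᵐ ξ ∂(volume : Measure E3), (FT f : E3 → ℂ) ξ =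
      ((((2 * Real.pi * ‖ξ‖) ^ (2 * s) : ℝ) : ℂ) - z) * (FT v : E3 → ℂ) ξ) (ψ : 𝓢(E3, ℂ)) :
    ∫ x, (f : E3 → ℂ) x * ψ x =
      (∫ x, (v : E3 → ℂ) x * fracLap s ψ x) - z * (∫ x, (v : E3 → ℂ) x * ψ x) := by
  have hψ : (toH (ψ : E3 → ℂ) : E3 → ℂ) =ᵐ[volume] ψ := toH_coe (schwartz_WL ψ).memLp
  have hL : (toH (fracLap s ψ) : E3 → ℂ) =ᵐ[volume] fracLap s ψ :=
    toH_coe (fracLap_WL h0 h2 ψ).memLp
  have e1 : ∫ x, (f : E3 → ℂ) x * ψ x =
      ∫ ξ, (FT f : E3 → ℂ) ξ * (FT (toH (ψ : E3 → ℂ)) : E3 → ℂ) (-ξ) := by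
    rw [← parseval]
    refine integral_congr_ae ?_
    filter_upwards [hψ] with x hx
    rw [hx]
  have e2 : ∫ x, (v : E3 → ℂ) x * ψ x =
      ∫ ξ, (FT v : E3 → ℂ) ξ * (FT (toH (ψ : E3 → ℂ)) : E3 → ℂ) (-ξ) := by
    rw [← parseval]
    refine integral_congr_ae ?_
    filter_upwards [hψ] with x hx
    rw [hx]
  have e3 : ∫ x, (v : E3 → ℂ) x * fracLap s ψ x =
      ∫ ξ, (FT v : E3 → ℂ) ξ * (FT (toH (fracLap s ψ)) : E3 → ℂ) (-ξ) := by
    rw [← parseval]
    refine integral_congr_ae ?_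
    filter_upwards [hL] with x hx
    rw [hx]
  rw [e1, e2, e3, ← integral_const_mul, ← integral_sub (integrable_mul_neg _ _)
    ((integrable_mul_neg _ _).const_mul z)]
  refine integral_congr_ae ?_
  filter_upwards [hfv, ae_neg (FT_schwartz ψ), ae_neg (FT_fracLap h0 h2 ψ)] with ξ a b c
  rw [a, b, c, norm_neg]
  ring

theorem axis {s : ℝ} (h0 : 1 / 2 < s) (h2 : s < 2) {r : ℝ} (hr : 0 < r) {V : E3 → ℝ}
    (hV : PotIn r V) (θ : E3) {τ : ℝ} (hτ : 0 < τ) (hT : ‖Tk s r V (Complex.I * τ)‖ ≤ 1 / 2) :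
    ∃ v : HS,
      Ffun s r V θ (Complex.I * τ) =
        ((∫ x, V x * pe τ θ x ^ 2 : ℝ) : ℂ) + ∫ x, ((V x * pe τ θ x : ℝ) : ℂ) * v x ∧
      (∫ x, ((V x * pe τ θ x : ℝ) : ℂ) * v x).im = (zt s τ).im * ‖v‖ ^ 2 ∧
      ∀ ψ : 𝓢(E3, ℂ), ∫ x, ((V x * pe τ θ x : ℝ) : ℂ) * ψ x =
        (∫ x, v x * fracLap s ψ x) - zt s τ * (∫ x, v x * ψ x) - ∫ x, v x * ((V x : ℂ) * ψ x) := by
  have hs0 : 0 < s := by linarith
  set k : ℂ := Complex.I * τ with hk
  have hkim : 0 < k.im := by simp [hk, hτ]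
  have hkQ : k ∈ Quad := by
    refine ⟨by simp [hk], hkim.le, ?_⟩
    intro h
    rw [h] at hkim
    simp at hkim
  have hz : zt s τ = k ^ ((2 * s : ℝ) : ℂ) := rfl
  set u : HS := uk s r V θ k with hu
  set f : HS := mulL (Vc V) u with hf
  set v : HS := multL (rsE s k) f with hv
  set e : HS := ev r θ k with he
  have hVB : ∀ x, Vc V x * indB r x = Vc V x := by
    intro x
    by_cases hx : ‖x‖ < r
    · simp [indB, hx]
    · simp [indB, hx, Vc, hV.vanish x (not_lt.mp hx)]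
  -- `1_B f = f`
  have hfB : mulL (indB r) f = f := by
    rw [hf, mulL_mulL (indB_BM r) hV.BM]
    congr 2
    funext x
    rw [mul_comm, hVB x]
  have hueq : u = e + mulL (indB r) v := by
    have h1 := uk_eq (θ := θ) hT
    rw [← hu, ← hf, ← he, Kop_interior hs0 h2 hr.le hkQ hkim] at h1
    rw [ContinuousLinearMap.comp_apply, ContinuousLinearMap.comp_apply, hfB, ← hv] at h1
    exact h1
  -- pointwise formulas
  have hupt : ∀ᵐ x ∂(volume : Measure E3),
      (u : E3 → ℂ) x = indB r x * (pe τ θ x : ℂ) + indB r x * (v : E3 → ℂ) x := by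
    have h1 : (u : E3 → ℂ) =ᵐ[volume] (e + mulL (indB r) v : HS) := by rw [← hueq]
    filter_upwards [h1, Lp.coeFn_add e (mulL (indB r) v), ev_coe r θ k,
      mulL_coe (indB_BM r) v] with x a b c d
    rw [a, b, Pi.add_apply, d, he, c, hk, planeWave_I]
  have hfpt : ∀ᵐ x ∂(volume : Measure E3),
      (f : E3 → ℂ) x = ((V x * pe τ θ x : ℝ) : ℂ) + (V x : ℂ) * (v : E3 → ℂ) x := by
    filter_upwards [hupt, mulL_coe hV.BM u] with x a b
    rw [hf, b, a]
    have := hVB x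
    simp only [Vc] at this ⊢
    rw [Complex.ofReal_mul]
    linear_combination ((pe τ θ x : ℂ) + (v : E3 → ℂ) x) * this
  -- the real function `V p` as an element of `L²`
  set g : HS := mulL (Vc V) e with hg
  have hgpt : ∀ᵐ x ∂(volume : Measure E3), (g : E3 → ℂ) x = ((V x * pe τ θ x : ℝ) : ℂ) := by
    filter_upwards [mulL_coe hV.BM e, ev_coe r θ k] with x a b
    rw [hg, a, he, b, hk, planeWave_I]
    have := hVB x
    simp only [Vc] at this ⊢
    rw [Complex.ofReal_mul]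
    linear_combination (pe τ θ x : ℂ) * this
  set w : HS := mulL (Vc V) v with hw
  have hwpt : ∀ᵐ x ∂(volume : Measure E3), (w : E3 → ℂ) x = (V x : ℂ) * (v : E3 → ℂ) x := by
    filter_upwards [mulL_coe hV.BM v] with x a
    rw [hw, a, Vc]
  have hgfw : g = f - w := by
    apply Lp.ext
    filter_upwards [hgpt, hfpt, hwpt, Lp.coeFn_sub f w] with x a b c d
    rw [d, Pi.sub_apply, a, b, c]
    ring
  -- the Fourier transforms
  have hrs : BM (rsE s k) := rsE_BM hs0 h2 hkQ hkim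
  have hFT : ∀ᵐ ξ ∂(volume : Measure E3), (FT f : E3 → ℂ) ξ =
      ((((2 * Real.pi * ‖ξ‖) ^ (2 * s) : ℝ) : ℂ) - zt s τ) * (FT v : E3 → ℂ) ξ := by
    filter_upwards [FT_multL_coe hrs f] with ξ a
    rw [hv, a, hz]
    have hne := rs_denom_ne hs0 h2 hkQ hkim (a := 2 * Real.pi * ‖ξ‖) (by positivity)
    rw [rsE, rs]
    field_simp
  refine ⟨v, ?_, ?_, fun ψ => ?_⟩
  · -- (1)
    have e1 : Ffun s r V θ k = ∫ x, ((e : E3 → ℂ) x * (g : E3 → ℂ) x +
        (e : E3 → ℂ) x * (w : E3 → ℂ) x) := by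
      unfold Ffun
      rw [← he, ← hu, ← hf]
      refine integral_congr_ae ?_
      have hfgw : f = g + w := by rw [hgfw]; abel
      have h1 : (f : E3 → ℂ) =ᵐ[volume] (g + w : HS) := by rw [← hfgw]
      filter_upwards [h1, Lp.coeFn_add g w] with x a b
      rw [a, b, Pi.add_apply]
      ring
    rw [e1, integral_add (integrable_mul e g) (integrable_mul e w)]
    congr 1
    · rw [← integral_complex_ofReal]
      refine integral_congr_ae ?_
      filter_upwards [hgpt, ev_coe r θ k] with x a b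
      rw [a, he, b, hk, planeWave_I]
      have := hVB x
      simp only [Vc] at this
      push_cast
      linear_combination (pe τ θ x : ℂ) ^ 2 * this
    · refine integral_congr_ae ?_
      filter_upwards [hwpt, ev_coe r θ k] with x a b
      rw [a, he, b, hk, planeWave_I]
      have := hVB x
      simp only [Vc] at this
      push_cast
      linear_combination (pe τ θ x : ℂ) * (v : E3 → ℂ) x * this
  · -- (2)
    have e1 : ∫ x, ((V x * pe τ θ x : ℝ) : ℂ) * (v : E3 → ℂ) x = inner ℂ g v := by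
      rw [L2.inner_def]
      refine integral_congr_ae ?_
      filter_upwards [hgpt] with x a
      rw [a, RCLike.inner_apply, Complex.conj_ofReal, mul_comm]
    have e2 : (inner ℂ w v : ℂ).im = 0 := by
      rw [L2.inner_def]
      have h1 : ∫ x, inner ℂ ((w : E3 → ℂ) x) ((v : E3 → ℂ) x) =
          ((∫ x, V x * ‖(v : E3 → ℂ) x‖ ^ 2 : ℝ) : ℂ) := by
        rw [← integral_complex_ofReal]
        refine integral_congr_ae ?_
        filter_upwards [hwpt] with x a
        rw [a, RCLike.inner_apply, map_mul, Complex.conj_ofReal]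
        push_cast
        rw [← Complex.mul_conj']
        ring
      rw [h1, Complex.ofReal_im]
    have e3 : (inner ℂ f v : ℂ).im = (zt s τ).im * ‖v‖ ^ 2 := by
      have h1 : (inner ℂ f v : ℂ) = inner ℂ (FT f) (FT v) := (FT.inner_map_map f v).symm
      rw [h1, L2.inner_def]
      have h2 : Integrable (fun x => inner ℂ ((FT f : E3 → ℂ) x) ((FT v : E3 → ℂ) x)) :=
        L2.integrable_inner (FT f) (FT v)
      have h3 : (∫ x, inner ℂ ((FT f : E3 → ℂ) x) ((FT v : E3 → ℂ) x)).im =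
          ∫ x, (inner ℂ ((FT f : E3 → ℂ) x) ((FT v : E3 → ℂ) x)).im :=
        (Complex.imCLM.integral_comp_comm h2).symm
      rw [h3]
      have h4 : ∫ x, (inner ℂ ((FT f : E3 → ℂ) x) ((FT v : E3 → ℂ) x)).im =
          ∫ x, (zt s τ).im * ‖(FT v : E3 → ℂ) x‖ ^ 2 := by
        refine integral_congr_ae ?_
        filter_upwards [hFT] with ξ a
        rw [a, RCLike.inner_apply, map_mul, map_sub, Complex.conj_ofReal]
        have h5 : (FT v : E3 → ℂ) ξ * (((((2 * Real.pi * ‖ξ‖) ^ (2 * s) : ℝ) : ℂ) -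
            (starRingEnd ℂ) (zt s τ)) * (starRingEnd ℂ) ((FT v : E3 → ℂ) ξ)) =
            ((((2 * Real.pi * ‖ξ‖) ^ (2 * s) : ℝ) : ℂ) - (starRingEnd ℂ) (zt s τ)) *
              ((‖(FT v : E3 → ℂ) ξ‖ ^ 2 : ℝ) : ℂ) := by
          push_cast
          rw [← Complex.mul_conj']
          ring
        rw [h5, Complex.im_mul_ofReal, Complex.sub_im, Complex.ofReal_im, Complex.conj_im]
        ring
      rw [h4, integral_const_mul]
      congr 1
      have h6 : (inner ℂ (FT v) (FT v) : ℂ) = ((‖v‖ ^ 2 : ℝ) : ℂ) := by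
        rw [inner_self_eq_norm_sq_to_K, FT.norm_map]
        norm_cast
      rw [L2.inner_def] at h6
      have h7 : ∫ x, inner ℂ ((FT v : E3 → ℂ) x) ((FT v : E3 → ℂ) x) =
          ((∫ x, ‖(FT v : E3 → ℂ) x‖ ^ 2 : ℝ) : ℂ) := by
        rw [← integral_complex_ofReal]
        refine integral_congr_ae (Eventually.of_forall fun x => ?_)
        simp only
        rw [inner_self_eq_norm_sq_to_K]
        norm_cast
      rw [h7] at h6
      exact_mod_cast h6
    rw [e1, hgfw, inner_sub_left, Complex.sub_im, e2, e3, sub_zero]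
  · -- (3)
    have hψ : (toH (ψ : E3 → ℂ) : E3 → ℂ) =ᵐ[volume] ψ := toH_coe (schwartz_WL ψ).memLp
    have i1 : Integrable (fun x => (f : E3 → ℂ) x * ψ x) := by
      refine (integrable_mul f (toH (ψ : E3 → ℂ))).congr ?_
      filter_upwards [hψ] with x a
      rw [a]
    have i2 : Integrable (fun x => (w : E3 → ℂ) x * ψ x) := by
      refine (integrable_mul w (toH (ψ : E3 → ℂ))).congr ?_
      filter_upwards [hψ] with x a
      rw [a]
    have e1 : ∫ x, ((V x * pe τ θ x : ℝ) : ℂ) * ψ x =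
        (∫ x, (f : E3 → ℂ) x * ψ x) - ∫ x, (w : E3 → ℂ) x * ψ x := by
      rw [← integral_sub i1 i2]
      refine integral_congr_ae ?_
      filter_upwards [hfpt, hwpt] with x a b
      rw [a, b]
      ring
    have e2 : ∫ x, (w : E3 → ℂ) x * ψ x = ∫ x, (v : E3 → ℂ) x * ((V x : ℂ) * ψ x) := by
      refine integral_congr_ae ?_
      filter_upwards [hwpt] with x a
      rw [a]
      ring
    rw [e1, e2, pair_id h0 h2 hFT ψ]

end FracScat

end
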