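import Pool.Agent.Lib.MP_6e2ba5_an.Axis

/-! # Bounds at `k = iτ`

`|Im z| ‖v‖² = |Im ∫ (V p) v| ≤ ‖V p‖ ‖v‖`, so `|Im z| ‖v‖ ≤ ‖V p‖`; and
`|∫ (V p) v| ≤ ‖V p‖ ‖v‖ ≤ ‖V p‖²/|Im z|`. -/

set_option autoImplicit false

open MeasureTheory Filter Topology Set
open scoped FourierTransform SchwartzMap InnerProductSpace ENNReal

noncomputable section

namespace FracScat

/-- `∫ V² exp(-2τ θ·x)`. -/
def nrm2 (V : E3 → ℝ) (τ : ℝ) (θ : E3) : ℝ := ∫ x, V x ^ 2 * pe τ θ x ^ 2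

theorem nrm2_nonneg (V : E3 → ℝ) (τ : ℝ) (θ : E3) : 0 ≤ nrm2 V τ θ :=
  integral_nonneg fun x => by positivity

private theorem AxisB_pe_cont (τ : ℝ) (θ : E3) : Continuous (fun x : E3 => pe τ θ x) := by
  unfold pe
  fun_prop

private theorem AxisB_int {r : ℝ} {V : E3 → ℝ} (hV : PotIn r V) {h : E3 → ℝ} (hh : Continuous h) :
    Integrable (fun x => V x * h x) := by
  obtain ⟨M, hM⟩ := hV.bounded
  have h1 : IntegrableOn (fun x => V x * h x) (Metric.closedBall (0 : E3) r) := by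
    have h2 : IntegrableOn h (Metric.closedBall (0 : E3) r) :=
      hh.continuousOn.integrableOn_compact (isCompact_closedBall (0 : E3) r)
    refine Integrable.mono' (h2.norm.const_mul M)
      ((hV.measurable.aestronglyMeasurable.mul hh.aestronglyMeasurable).restrict) ?_
    refine Eventually.of_forall fun x => ?_
    rw [norm_mul]
    exact mul_le_mul_of_nonneg_right (hM x) (norm_nonneg _)
  refine (integrableOn_iff_integrable_of_support_subset ?_).1 h1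
  intro x hx
  rw [Metric.mem_closedBall, dist_zero_right]
  by_contra hc
  push Not at hc
  apply hx
  show V x * h x = 0
  rw [hV.vanish x hc.le, zero_mul]

private theorem AxisB_sq {r : ℝ} {V : E3 → ℝ} (hV : PotIn r V) : PotIn r (fun x => V x ^ 2) := by
  obtain ⟨M, hM⟩ := hV.bounded
  refine ⟨hV.measurable.pow_const 2, ⟨M ^ 2, fun x => ?_⟩, fun x hx => ?_⟩
  · rw [abs_pow]
    exact pow_le_pow_left₀ (abs_nonneg _) (hM x) 2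
  · show V x ^ 2 = 0
    rw [hV.vanish x hx]
    norm_num

private theorem AxisB_memLp {r : ℝ} {V : E3 → ℝ} (hV : PotIn r V) (τ : ℝ) (θ : E3) :
    MemLp (fun x => ((V x * pe τ θ x : ℝ) : ℂ)) 2 (volume : Measure E3) := by
  have hm : AEStronglyMeasurable (fun x => ((V x * pe τ θ x : ℝ) : ℂ)) (volume : Measure E3) :=
    (Complex.measurable_ofReal.comp
      (hV.measurable.mul (AxisB_pe_cont τ θ).measurable)).aestronglyMeasurable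
  rw [memLp_two_iff_integrable_sq_norm hm]
  refine (AxisB_int (AxisB_sq hV) ((AxisB_pe_cont τ θ).pow 2)).congr ?_
  refine Eventually.of_forall fun x => ?_
  show V x ^ 2 * pe τ θ x ^ 2 = ‖((V x * pe τ θ x : ℝ) : ℂ)‖ ^ 2
  rw [Complex.norm_real, Real.norm_eq_abs, sq_abs, mul_pow]

/-- Cauchy-Schwarz -/
private theorem AxisB_cs {g : E3 → ℝ} (hg : MemLp (fun x => ((g x : ℝ) : ℂ)) 2 (volume : Measure E3)) (v : HS) :
    ‖∫ x, ((g x : ℝ) : ℂ) * v x‖ ≤ Real.sqrt (∫ x, g x ^ 2) * ‖v‖ := by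
  set G : HS := hg.toLp _ with hG
  have hGc : (G : E3 → ℂ) =ᵐ[volume] fun x => ((g x : ℝ) : ℂ) := hg.coeFn_toLp
  have h1 : ∫ x, ((g x : ℝ) : ℂ) * v x = ⟪G, v⟫_ℂ := by
    rw [L2.inner_def]
    refine integral_congr_ae ?_
    filter_upwards [hGc] with x hx
    rw [hx, RCLike.inner_apply]
    simp [mul_comm]
  have h2 : ‖G‖ ^ 2 = ∫ x, g x ^ 2 := by
    have h3 : (⟪G, G⟫_ℂ) = ((∫ x, g x ^ 2 : ℝ) : ℂ) := by
      rw [L2.inner_def, ← integral_complex_ofReal]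
      refine integral_congr_ae ?_
      filter_upwards [hGc] with x hx
      rw [hx, RCLike.inner_apply]
      simp [sq]
    rw [inner_self_eq_norm_sq_to_K] at h3
    apply Complex.ofReal_injective
    rw [← h3]
    push_cast
    rfl
  rw [h1, ← h2, Real.sqrt_sq (norm_nonneg _)]
  exact norm_inner_le_norm G v

theorem axis_bounds {s : ℝ} {r : ℝ} {V : E3 → ℝ} (hV : PotIn r V) (θ : E3) {τ : ℝ}
    (hz : (zt s τ).im ≠ 0) (v : HS)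
    (him : (∫ x, ((V x * pe τ θ x : ℝ) : ℂ) * v x).im = (zt s τ).im * ‖v‖ ^ 2) :
    |(zt s τ).im| * ‖v‖ ≤ Real.sqrt (nrm2 V τ θ) ∧
      |(zt s τ).im| * ‖∫ x, ((V x * pe τ θ x : ℝ) : ℂ) * v x‖ ≤ nrm2 V τ θ := by
  have h1 := AxisB_cs (AxisB_memLp hV τ θ) v
  have h2 : ∫ x, (V x * pe τ θ x) ^ 2 = nrm2 V τ θ := by
    unfold nrm2
    congr 1
    funext x
    rw [mul_pow]
  rw [h2] at h1
  have h3 : |(zt s τ).im| * ‖v‖ ^ 2 ≤ Real.sqrt (nrm2 V τ θ) * ‖v‖ := by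
    calc |(zt s τ).im| * ‖v‖ ^ 2 = |(zt s τ).im * ‖v‖ ^ 2| := by
          rw [abs_mul, abs_of_nonneg (by positivity : (0 : ℝ) ≤ ‖v‖ ^ 2)]
      _ = |(∫ x, ((V x * pe τ θ x : ℝ) : ℂ) * v x).im| := by rw [him]
      _ ≤ ‖∫ x, ((V x * pe τ θ x : ℝ) : ℂ) * v x‖ := Complex.abs_im_le_norm _
      _ ≤ _ := h1
  have h4 : |(zt s τ).im| * ‖v‖ ≤ Real.sqrt (nrm2 V τ θ) := by
    rcases (norm_nonneg v).eq_or_lt with h0 | h0
    · rw [← h0, mul_zero]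
      exact Real.sqrt_nonneg _
    · refine le_of_mul_le_mul_right ?_ h0
      calc |(zt s τ).im| * ‖v‖ * ‖v‖ = |(zt s τ).im| * ‖v‖ ^ 2 := by ring
        _ ≤ _ := h3
  refine ⟨h4, ?_⟩
  calc |(zt s τ).im| * ‖∫ x, ((V x * pe τ θ x : ℝ) : ℂ) * v x‖
      ≤ |(zt s τ).im| * (Real.sqrt (nrm2 V τ θ) * ‖v‖) := mul_le_mul_of_nonneg_left h1 (abs_nonneg _)
    _ = Real.sqrt (nrm2 V τ θ) * (|(zt s τ).im| * ‖v‖) := by ring
    _ ≤ Real.sqrt (nrm2 V τ θ) * Real.sqrt (nrm2 V τ θ) :=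
        mul_le_mul_of_nonneg_left h4 (Real.sqrt_nonneg _)
    _ = nrm2 V τ θ := Real.mul_self_sqrt (nrm2_nonneg V τ θ)

/-- The real parts: the exponential moments of the two potentials are close. -/
theorem real_part {s : ℝ} (h0 : 1 / 2 < s) (h2 : s < 2) (h1 : s ≠ 1) {r : ℝ} (hr : 0 < r)
    {V₁ V₂ : E3 → ℝ} (hV₁ : PotIn r V₁) (hV₂ : PotIn r V₂) (θ : E3) {τ : ℝ} (hτ : 0 < τ)
    (hT₁ : ‖Tk s r V₁ (Complex.I * τ)‖ ≤ 1 / 2) (hT₂ : ‖Tk s r V₂ (Complex.I * τ)‖ ≤ 1 / 2)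
    (hF : Ffun s r V₁ θ (Complex.I * τ) = Ffun s r V₂ θ (Complex.I * τ)) :
    |(zt s τ).im| * |∫ x, (V₁ x - V₂ x) * pe τ θ x ^ 2| ≤ nrm2 V₁ τ θ + nrm2 V₂ τ θ := by
  have hz : (zt s τ).im ≠ 0 := by
    rw [zt_im hτ]
    exact mul_ne_zero (Real.rpow_pos_of_pos hτ _).ne' (sin_pi_ne (by linarith) h2 h1)
  obtain ⟨v₁, e₁, i₁, -⟩ := axis h0 h2 hr hV₁ θ hτ hT₁
  obtain ⟨v₂, e₂, i₂, -⟩ := axis h0 h2 hr hV₂ θ hτ hT₂
  have b₁ := (axis_bounds hV₁ θ hz v₁ i₁).2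
  have b₂ := (axis_bounds hV₂ θ hz v₂ i₂).2
  rw [e₁, e₂] at hF
  have p2 : Continuous (fun x => pe τ θ x ^ 2) := (AxisB_pe_cont τ θ).pow 2
  have hsub : ∫ x, (V₁ x - V₂ x) * pe τ θ x ^ 2 =
      (∫ x, V₁ x * pe τ θ x ^ 2) - ∫ x, V₂ x * pe τ θ x ^ 2 := by
    rw [← integral_sub (AxisB_int hV₁ p2) (AxisB_int hV₂ p2)]
    congr 1
    funext x
    ring
  set J₁ := ∫ x, ((V₁ x * pe τ θ x : ℝ) : ℂ) * v₁ x with hJ₁
  set J₂ := ∫ x, ((V₂ x * pe τ θ x : ℝ) : ℂ) * v₂ x with hJ₂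
  set A₁ := ∫ x, V₁ x * pe τ θ x ^ 2 with hA₁
  set A₂ := ∫ x, V₂ x * pe τ θ x ^ 2 with hA₂
  have h3 : ((A₁ - A₂ : ℝ) : ℂ) = J₂ - J₁ := by
    push_cast
    linear_combination hF
  have h4 : |A₁ - A₂| ≤ ‖J₂‖ + ‖J₁‖ := by
    rw [← Real.norm_eq_abs, ← Complex.norm_real, h3]
    exact norm_sub_le _ _
  rw [hsub]
  calc |(zt s τ).im| * |A₁ - A₂| ≤ |(zt s τ).im| * (‖J₂‖ + ‖J₁‖) :=
        mul_le_mul_of_nonneg_left h4 (abs_nonneg _)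
    _ = |(zt s τ).im| * ‖J₁‖ + |(zt s τ).im| * ‖J₂‖ := by ring
    _ ≤ _ := add_le_add b₁ b₂

end FracScat

end
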