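import Pool.Agent.Lib.MP_6e2ba5_an.Stmt

/-! # The class `BStar`

`BStar_of_bound`: `‖w x‖ ≤ C/(1+‖x‖)` gives `∫_{|x|<R} |w|² ≤ 4π C² R` (polar coordinates, or the
shells `2^i ≤ |x| < 2^(i+1)`). -/

set_option autoImplicit false

open MeasureTheory Filter Topology Set
open scoped FourierTransform SchwartzMap InnerProductSpace ENNReal ContDiff

noncomputable section

namespace FracScat

private theorem bstar_sq_add (a b : ℂ) : ‖a + b‖ ^ 2 ≤ 2 * ‖a‖ ^ 2 + 2 * ‖b‖ ^ 2 := by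
  have h1 := norm_add_le a b
  have h2 : ‖a + b‖ ^ 2 ≤ (‖a‖ + ‖b‖) ^ 2 := pow_le_pow_left₀ (norm_nonneg _) h1 2
  nlinarith [sq_nonneg (‖a‖ - ‖b‖)]

theorem BStar.add {v w : E3 → ℂ} (hv : BStar v) (hw : BStar w) : BStar (fun x => v x + w x) := by
  obtain ⟨mv, C, hC⟩ := hv
  obtain ⟨mw, D, hD⟩ := hw
  refine ⟨mv.add mw, 2 * C + 2 * D, fun R hR => ?_⟩
  obtain ⟨iv, bv⟩ := hC R hR
  obtain ⟨iw, bw⟩ := hD R hR
  have hint : IntegrableOn (fun x => 2 * ‖v x‖ ^ 2 + 2 * ‖w x‖ ^ 2) (Metric.ball (0 : E3) R) :=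
    (iv.const_mul 2).add (iw.const_mul 2)
  have hi : IntegrableOn (fun x => ‖v x + w x‖ ^ 2) (Metric.ball (0 : E3) R) := by
    refine Integrable.mono' hint ((mv.add mw).restrict.norm.pow 2) ?_
    refine Eventually.of_forall fun x => ?_
    rw [Real.norm_of_nonneg (by positivity)]
    exact bstar_sq_add _ _
  refine ⟨hi, ?_⟩
  calc ∫ x in Metric.ball (0 : E3) R, ‖v x + w x‖ ^ 2
      ≤ ∫ x in Metric.ball (0 : E3) R, (2 * ‖v x‖ ^ 2 + 2 * ‖w x‖ ^ 2) :=
        integral_mono hi hint fun x => bstar_sq_add _ _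
    _ = 2 * (∫ x in Metric.ball (0 : E3) R, ‖v x‖ ^ 2) +
        2 * ∫ x in Metric.ball (0 : E3) R, ‖w x‖ ^ 2 := by
        rw [integral_add (iv.const_mul 2) (iw.const_mul 2), integral_const_mul, integral_const_mul]
    _ ≤ (2 * C + 2 * D) * R := by linarith

theorem BStar.const_mul {v : E3 → ℂ} (c : ℂ) (hv : BStar v) : BStar (fun x => c * v x) := by
  obtain ⟨mv, C, hC⟩ := hv
  have he : (fun x => ‖c * v x‖ ^ 2) = fun x => ‖c‖ ^ 2 * ‖v x‖ ^ 2 := by
    funext x
    rw [norm_mul, mul_pow]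
  refine ⟨mv.const_mul c, ‖c‖ ^ 2 * C, fun R hR => ?_⟩
  obtain ⟨iv, bv⟩ := hC R hR
  rw [he]
  refine ⟨iv.const_mul _, ?_⟩
  rw [integral_const_mul, mul_assoc]
  exact mul_le_mul_of_nonneg_left bv (by positivity)

theorem BStar_of_bound {w : E3 → ℂ} (hw : Continuous w) {C : ℝ}
    (hC : ∀ x, ‖w x‖ ≤ C / (1 + ‖x‖)) : BStar w := by
  have hC0 : 0 ≤ C := by
    have := (norm_nonneg _).trans (hC 0)
    rw [norm_zero, add_zero, div_one] at this
    exact this
  refine ⟨hw.aestronglyMeasurable, 3 * (volume.real (Metric.ball (0 : E3) 1) * C ^ 2),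
    fun R hR => ?_⟩
  have hR0 : 0 < R := by linarith
  have hcont : Continuous fun x => ‖w x‖ ^ 2 := hw.norm.pow 2
  have hi : IntegrableOn (fun x => ‖w x‖ ^ 2) (Metric.ball (0 : E3) R) :=
    (hcont.continuousOn.integrableOn_compact (isCompact_closedBall (0 : E3) R)).mono_set
      Metric.ball_subset_closedBall
  refine ⟨hi, ?_⟩
  set f : ℝ → ℝ := fun r => if r < R then C ^ 2 / (1 + r) ^ 2 else 0 with hf
  have hcont2 : Continuous fun x : E3 => C ^ 2 / (1 + ‖x‖) ^ 2 := by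
    refine continuous_const.div ((continuous_const.add continuous_norm).pow 2) fun x => ?_
    have := norm_nonneg x
    positivity
  have hi2 : IntegrableOn (fun x : E3 => C ^ 2 / (1 + ‖x‖) ^ 2) (Metric.ball (0 : E3) R) :=
    (hcont2.continuousOn.integrableOn_compact (isCompact_closedBall (0 : E3) R)).mono_set
      Metric.ball_subset_closedBall
  have h1 : ∫ x in Metric.ball (0 : E3) R, ‖w x‖ ^ 2 ≤
      ∫ x in Metric.ball (0 : E3) R, C ^ 2 / (1 + ‖x‖) ^ 2 := by
    refine integral_mono hi hi2 fun x => ?_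
    show ‖w x‖ ^ 2 ≤ C ^ 2 / (1 + ‖x‖) ^ 2
    rw [← div_pow]
    exact pow_le_pow_left₀ (norm_nonneg _) (hC x) 2
  have h2 : ∫ x in Metric.ball (0 : E3) R, C ^ 2 / (1 + ‖x‖) ^ 2 = ∫ x : E3, f ‖x‖ := by
    rw [← integral_indicator Metric.isOpen_ball.measurableSet]
    congr 1
    funext x
    simp only [hf]
    by_cases hx : ‖x‖ < R
    · rw [Set.indicator_of_mem (by rwa [mem_ball_zero_iff]), if_pos hx]
    · rw [Set.indicator_of_notMem (by rwa [mem_ball_zero_iff]), if_neg hx]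
  have h3 := integral_fun_norm_addHaar (volume : Measure E3) f
  have hdim : Module.finrank ℝ E3 = 3 := by simp
  rw [hdim] at h3
  have h4 : ∫ y in Ioi (0 : ℝ), y ^ (3 - 1) • f y ≤ C ^ 2 * R := by
    have h5 : IntegrableOn (fun y : ℝ => (Set.Ioo (0 : ℝ) R).indicator (fun _ => C ^ 2) y)
        (Ioi (0 : ℝ)) := by
      refine IntegrableOn.integrable_indicator (s := Set.Ioo (0 : ℝ) R) ?_ measurableSet_Ioo
      refine integrableOn_const ?_
      exact ((Measure.restrict_apply_le _ _).trans_lt (by simp)).ne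
    have h6 : ∫ y in Ioi (0 : ℝ), y ^ (3 - 1) • f y ≤
        ∫ y in Ioi (0 : ℝ), (Set.Ioo (0 : ℝ) R).indicator (fun _ => C ^ 2) y := by
      refine integral_mono_of_nonneg ?_ h5 ?_
      · refine (ae_restrict_iff' measurableSet_Ioi).2 (Eventually.of_forall fun y hy => ?_)
        have hy0 : (0 : ℝ) < y := hy
        simp only [hf, smul_eq_mul, Pi.zero_apply]
        split_ifs
        · positivity
        · simp
      · refine (ae_restrict_iff' measurableSet_Ioi).2 (Eventually.of_forall fun y hy => ?_)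
        have hy0 : (0 : ℝ) < y := hy
        simp only [hf, smul_eq_mul]
        by_cases hyR : y < R
        · rw [if_pos hyR, Set.indicator_of_mem (show y ∈ Set.Ioo (0 : ℝ) R from ⟨hy0, hyR⟩),
            mul_div_assoc', div_le_iff₀ (by positivity)]
          have h8 : y ^ 2 ≤ (1 + y) ^ 2 := pow_le_pow_left₀ hy0.le (by linarith) 2
          have h9 := mul_le_mul_of_nonneg_right h8 (sq_nonneg C)
          show y ^ 2 * C ^ 2 ≤ C ^ 2 * (1 + y) ^ 2
          linarith
        · rw [if_neg hyR, mul_zero]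
          exact Set.indicator_nonneg (fun _ _ => sq_nonneg C) _
    refine h6.trans (le_of_eq ?_)
    rw [integral_indicator measurableSet_Ioo, Measure.restrict_restrict measurableSet_Ioo,
      Set.inter_eq_left.2 (fun y hy => hy.1), setIntegral_const]
    simp [hR0.le]
    ring
  rw [h2, h3] at h1
  refine h1.trans ?_
  rw [nsmul_eq_mul, smul_eq_mul]
  have h7 : (0 : ℝ) ≤ volume.real (Metric.ball (0 : E3) 1) := measureReal_nonneg
  calc ((3 : ℕ) : ℝ) * (volume.real (Metric.ball (0 : E3) 1) * ∫ y in Ioi (0 : ℝ), y ^ (3 - 1) • f y)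
      ≤ ((3 : ℕ) : ℝ) * (volume.real (Metric.ball (0 : E3) 1) * (C ^ 2 * R)) := by gcongr
    _ = 3 * (volume.real (Metric.ball (0 : E3) 1) * C ^ 2) * R := by push_cast; ring

theorem BStar_of_memLp {w : E3 → ℂ} (hw : MemLp w 2 volume) : BStar w := by
  have hi : Integrable (fun x => ‖w x‖ ^ 2) volume := (memLp_two_iff_integrable_sq_norm hw.1).1 hw
  refine ⟨hw.1, ∫ x, ‖w x‖ ^ 2, fun R hR => ⟨hi.integrableOn, ?_⟩⟩
  have h1 : ∫ x in Metric.ball (0 : E3) R, ‖w x‖ ^ 2 ≤ ∫ x, ‖w x‖ ^ 2 :=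
    setIntegral_le_integral hi (Eventually.of_forall fun x => by positivity)
  have h2 : 0 ≤ ∫ x, ‖w x‖ ^ 2 := integral_nonneg fun x => by positivity
  nlinarith

end FracScat

end
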