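import Mathlib

/-! # Uniqueness from boundary values on an interval

Let `g` be continuous on `{Re ≥ 0, Im ≥ 0, |k| ≥ K}`, holomorphic in the interior and zero on the
real interval `(a,b)`, `a ≥ K > 0`. Choose a closed square with centre `c`, lower side in `(a,b)`
and the rest in the open region. The product of the four functions
`g (c + u ζ)`, `u = 1, i, -1, -i`, vanishes on the boundary of the square, hence on the square by the
maximum principle, and so `g` vanishes near `c`. Then `g = 0` on the interior region by the identity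
theorem (it is the image of a strip rectangle under `exp`, hence preconnected) and on the closed
region by continuity. -/

set_option autoImplicit false

open MeasureTheory Filter Topology Set

noncomputable section

namespace FracScat

private def RC (K : ℝ) : Set ℂ := {k | 0 ≤ k.re ∧ 0 ≤ k.im ∧ K ≤ ‖k‖}

private def RO (K : ℝ) : Set ℂ := {k | 0 < k.re ∧ 0 < k.im ∧ K < ‖k‖}

private theorem RO_open (K : ℝ) : IsOpen (RO K) := by
  have h1 : IsOpen {k : ℂ | 0 < k.re} := isOpen_lt continuous_const Complex.continuous_re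
  have h2 : IsOpen {k : ℂ | 0 < k.im} := isOpen_lt continuous_const Complex.continuous_im
  have h3 : IsOpen {k : ℂ | K < ‖k‖} := isOpen_lt continuous_const continuous_norm
  exact h1.inter (h2.inter h3)

private theorem RO_preconnected {K : ℝ} (hK : 0 < K) : IsPreconnected (RO K) := by
  have h1 : RO K = Complex.exp '' ((Ioi (Real.log K)) ×ℂ (Ioo 0 (Real.pi / 2))) := by
    ext k
    constructor
    · rintro ⟨hr, hi, hn⟩
      have hk : k ≠ 0 := by
        rintro rfl
        simp at hr
      refine ⟨Complex.log k, ?_, Complex.exp_log hk⟩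
      rw [Complex.mem_reProdIm]
      constructor
      · rw [Complex.log_re]
        exact Real.log_lt_log hK hn
      · rw [Complex.log_im]
        constructor
        · have h0 : 0 ≤ Complex.arg k := Complex.arg_nonneg_iff.2 hi.le
          refine lt_of_le_of_ne h0 fun h => ?_
          have := (Complex.arg_eq_zero_iff.1 h.symm).2
          linarith
        · exact Complex.arg_lt_pi_div_two_iff.2 (Or.inl hr)
    · rintro ⟨z, hz, rfl⟩
      rw [Complex.mem_reProdIm] at hz
      obtain ⟨hz1, hz2, hz3⟩ := hz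
      refine ⟨?_, ?_, ?_⟩
      · rw [Complex.exp_re]
        exact mul_pos (Real.exp_pos _)
          (Real.cos_pos_of_mem_Ioo ⟨by linarith [Real.pi_pos], hz3⟩)
      · rw [Complex.exp_im]
        exact mul_pos (Real.exp_pos _)
          (Real.sin_pos_of_pos_of_lt_pi hz2 (by linarith [Real.pi_pos]))
      · rw [Complex.norm_exp]
        calc K = Real.exp (Real.log K) := (Real.exp_log hK).symm
          _ < Real.exp z.re := Real.exp_lt_exp.2 hz1
  rw [h1]
  refine IsPreconnected.image ?_ _ Complex.continuous_exp.continuousOn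
  exact (((convex_Ioi (𝕜 := ℝ) (Real.log K)).linear_preimage Complex.reLm).inter
    ((convex_Ioo (𝕜 := ℝ) 0 (Real.pi / 2)).linear_preimage Complex.imLm)).isPreconnected

private theorem mem_RC {K x h : ℝ} (hx : K < x - h) (hK : 0 < K) {η : ℂ} (h1 : |η.re| ≤ h)
    (h2 : |η.im| ≤ h) : ((x : ℂ) + (h : ℂ) * Complex.I) + η ∈ RC K := by
  have hre : (((x : ℂ) + (h : ℂ) * Complex.I) + η).re = x + η.re := by simp
  have him : (((x : ℂ) + (h : ℂ) * Complex.I) + η).im = h + η.im := by simp
  have h1' := abs_le.1 h1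
  have h2' := abs_le.1 h2
  refine ⟨?_, ?_, ?_⟩
  · rw [hre]; linarith
  · rw [him]; linarith
  · refine le_trans ?_ (Complex.re_le_norm _)
    rw [hre]; linarith

private theorem mem_RO {K x h : ℝ} (hx : K < x - h) (hK : 0 < K) {η : ℂ} (h1 : |η.re| < h)
    (h2 : |η.im| < h) : ((x : ℂ) + (h : ℂ) * Complex.I) + η ∈ RO K := by
  have hre : (((x : ℂ) + (h : ℂ) * Complex.I) + η).re = x + η.re := by simp
  have him : (((x : ℂ) + (h : ℂ) * Complex.I) + η).im = h + η.im := by simp
  have h1' := abs_lt.1 h1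
  have h2' := abs_lt.1 h2
  refine ⟨?_, ?_, ?_⟩
  · rw [hre]; linarith
  · rw [him]; linarith
  · refine lt_of_lt_of_le ?_ (Complex.re_le_norm _)
    rw [hre]; linarith

/-- The admissible rotations. -/
private def Rot (u : ℂ) : Prop := u = 1 ∨ u = Complex.I ∨ u = -1 ∨ u = -Complex.I

private theorem Rot.bd {u : ℂ} (hu : Rot u) {h : ℝ} {ζ : ℂ} (h1 : |ζ.re| ≤ h) (h2 : |ζ.im| ≤ h) :
    |(u * ζ).re| ≤ h ∧ |(u * ζ).im| ≤ h := by
  rcases hu with rfl | rfl | rfl | rfl <;> simp [h1, h2]

private theorem Rot.bd' {u : ℂ} (hu : Rot u) {h : ℝ} {ζ : ℂ} (h1 : |ζ.re| < h) (h2 : |ζ.im| < h) :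
    |(u * ζ).re| < h ∧ |(u * ζ).im| < h := by
  rcases hu with rfl | rfl | rfl | rfl <;> simp [h1, h2]

private theorem Rot.ne {u : ℂ} (hu : Rot u) : u ≠ 0 := by
  rcases hu with rfl | rfl | rfl | rfl <;> simp

theorem bdry_unique {K : ℝ} (hK : 0 < K) {g : ℂ → ℂ}
    (hc : ContinuousOn g {k | 0 ≤ k.re ∧ 0 ≤ k.im ∧ K ≤ ‖k‖})
    (hd : DifferentiableOn ℂ g {k | 0 < k.re ∧ 0 < k.im ∧ K < ‖k‖})
    {a b : ℝ} (ha : K ≤ a) (hab : a < b) (h0 : ∀ x ∈ Ioo a b, g (x : ℂ) = 0) :
    ∀ k : ℂ, 0 ≤ k.re → 0 ≤ k.im → K ≤ ‖k‖ → g k = 0 := by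
  change ContinuousOn g (RC K) at hc
  change DifferentiableOn ℂ g (RO K) at hd
  set x : ℝ := (a + b) / 2 with hx
  set h : ℝ := (b - a) / 4 with hh
  have hpos : 0 < h := by rw [hh]; linarith
  have hxa : a < x - h := by rw [hx, hh]; linarith
  have hxb : x + h < b := by rw [hx, hh]; linarith
  have hxK : K < x - h := lt_of_le_of_lt ha hxa
  set c : ℂ := (x : ℂ) + (h : ℂ) * Complex.I with hcdef
  set U : Set ℂ := (Ioo (-h) h) ×ℂ (Ioo (-h) h) with hU
  have hne : (-h) ≠ h := by linarith
  have hclo : closure U = (Icc (-h) h) ×ℂ (Icc (-h) h) := by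
    rw [hU, Complex.closure_reProdIm, closure_Ioo hne]
  have hUo : IsOpen U := isOpen_Ioo.reProdIm isOpen_Ioo
  have memU : ∀ ζ : ℂ, ζ ∈ U ↔ |ζ.re| < h ∧ |ζ.im| < h := by
    intro ζ
    rw [hU, Complex.mem_reProdIm, abs_lt, abs_lt]
    rfl
  have memC : ∀ ζ : ℂ, ζ ∈ closure U ↔ |ζ.re| ≤ h ∧ |ζ.im| ≤ h := by
    intro ζ
    rw [hclo, Complex.mem_reProdIm, abs_le, abs_le]
    rfl
  -- the factors
  have fac : ∀ u : ℂ, Rot u → DiffContOnCl ℂ (fun ζ => g (c + u * ζ)) U := by
    intro u hu
    constructor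
    · refine hd.comp ((differentiable_id.const_mul u).const_add c).differentiableOn ?_
      intro ζ hζ
      obtain ⟨h1, h2⟩ := (memU ζ).1 hζ
      obtain ⟨h3, h4⟩ := hu.bd' h1 h2
      exact mem_RO hxK hK h3 h4
    · refine hc.comp (continuous_const.add (continuous_const.mul continuous_id)).continuousOn ?_
      intro ζ hζ
      obtain ⟨h1, h2⟩ := (memC ζ).1 hζ
      obtain ⟨h3, h4⟩ := hu.bd h1 h2
      exact mem_RC hxK hK h3 h4
  have r1 : Rot 1 := Or.inl rfl
  have r2 : Rot Complex.I := Or.inr (Or.inl rfl)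
  have r3 : Rot (-1) := Or.inr (Or.inr (Or.inl rfl))
  have r4 : Rot (-Complex.I) := Or.inr (Or.inr (Or.inr rfl))
  set p : ℂ → ℂ := fun ζ => g (c + 1 * ζ) * g (c + Complex.I * ζ) * g (c + (-1) * ζ) *
    g (c + (-Complex.I) * ζ) with hp
  have hpd : DiffContOnCl ℂ p U := by
    have f1 := fac 1 r1
    have f2 := fac _ r2
    have f3 := fac _ r3
    have f4 := fac _ r4
    exact ⟨((f1.1.mul f2.1).mul f3.1).mul f4.1, ((f1.2.mul f2.2).mul f3.2).mul f4.2⟩
  have zero_low : ∀ η : ℂ, |η.re| ≤ h → η.im = -h → g (c + η) = 0 := by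
    intro η h1 h2
    have h1' := abs_le.1 h1
    have : c + η = ((x + η.re : ℝ) : ℂ) := by
      apply Complex.ext
      · simp [hcdef]
      · simp [hcdef, h2]
    rw [this]
    exact h0 _ ⟨by linarith, by linarith⟩
  have hfr : ∀ ζ ∈ frontier U, ‖p ζ‖ ≤ 0 := by
    intro ζ hζ
    rw [hUo.frontier_eq] at hζ
    obtain ⟨hζ1, hζ2⟩ := hζ
    obtain ⟨h1, h2⟩ := (memC ζ).1 hζ1
    have h3 : |ζ.re| = h ∨ |ζ.im| = h := by
      by_contra hcon
      push Not at hcon
      exact hζ2 ((memU ζ).2 ⟨lt_of_le_of_ne h1 hcon.1, lt_of_le_of_ne h2 hcon.2⟩)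
    have key : p ζ = 0 := by
      rcases h3 with h3 | h3
      · rcases (abs_eq hpos.le).1 h3 with h4 | h4
        · have : g (c + (-Complex.I) * ζ) = 0 := zero_low _ (by simpa using h2) (by simp [h4])
          simp only [hp, this, mul_zero]
        · have : g (c + Complex.I * ζ) = 0 := zero_low _ (by simpa using h2) (by simp [h4])
          simp only [hp, this, mul_zero, zero_mul]
      · rcases (abs_eq hpos.le).1 h3 with h4 | h4
        · have : g (c + (-1) * ζ) = 0 := zero_low _ (by simpa using h1) (by simp [h4])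
          simp only [hp, this, mul_zero, zero_mul]
        · have : g (c + 1 * ζ) = 0 := zero_low _ (by simpa using h1) (by simp [h4])
          simp only [hp, this, zero_mul]
    rw [key, norm_zero]
  have hbdd : Bornology.IsBounded U :=
    (Metric.isBounded_Ioo _ _).reProdIm (Metric.isBounded_Ioo _ _)
  have hp0 : ∀ ζ ∈ U, p ζ = 0 := fun ζ hζ =>
    norm_le_zero_iff.1
      (Complex.norm_le_of_forall_mem_frontier_norm_le hbdd hpd hfr (subset_closure hζ))
  -- `g` vanishes near `c`
  have hcO : c ∈ RO K := by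
    have := mem_RO (η := 0) hxK hK (by simpa using hpos) (by simpa using hpos)
    simpa [hcdef] using this
  have hAn : AnalyticOnNhd ℂ g (RO K) := hd.analyticOnNhd (RO_open K)
  have hgc : ∀ᶠ z in 𝓝 c, g z = 0 := by
    rcases (hAn c hcO).eventually_eq_zero_or_eventually_ne_zero with h | hnz
    · exact h
    · exfalso
      have tend : ∀ u : ℂ, Rot u → ∀ᶠ ζ in 𝓝[≠] (0 : ℂ), g (c + u * ζ) ≠ 0 := by
        intro u hu
        have ht : Tendsto (fun ζ : ℂ => c + u * ζ) (𝓝[≠] 0) (𝓝[≠] c) := by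
          refine tendsto_nhdsWithin_iff.2 ⟨?_, ?_⟩
          · have : Tendsto (fun ζ : ℂ => c + u * ζ) (𝓝 0) (𝓝 (c + u * 0)) :=
              (continuous_const.add (continuous_const.mul continuous_id)).tendsto 0
            rw [mul_zero, add_zero] at this
            exact this.mono_left nhdsWithin_le_nhds
          · filter_upwards [self_mem_nhdsWithin] with ζ hζ
            simp only [mem_compl_iff, mem_singleton_iff] at hζ ⊢
            intro heq
            have : u * ζ = 0 := by
              have := congrArg (fun w => w - c) heq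
              simpa using this
            rcases mul_eq_zero.1 this with h | h
            · exact hu.ne h
            · exact hζ h
        exact ht.eventually hnz
      have hU0 : ∀ᶠ ζ in 𝓝[≠] (0 : ℂ), ζ ∈ U := by
        refine nhdsWithin_le_nhds (hUo.mem_nhds ?_)
        rw [memU]
        simpa using hpos
      have hall := (tend 1 r1).and ((tend _ r2).and ((tend _ r3).and ((tend _ r4).and hU0)))
      obtain ⟨ζ, e1, e2, e3, e4, e5⟩ := hall.exists
      have := hp0 ζ e5
      simp only [hp] at this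
      exact (mul_ne_zero (mul_ne_zero (mul_ne_zero e1 e2) e3) e4) this
  have hzero : EqOn g 0 (RO K) :=
    hAn.eqOn_zero_of_preconnected_of_eventuallyEq_zero (RO_preconnected hK) hcO hgc
  -- closure
  intro k k1 k2 k3
  have hkC : k ∈ RC K := ⟨k1, k2, k3⟩
  have hmem : ∀ t : ℝ, 0 < t → k + (t : ℂ) * (1 + Complex.I) ∈ RO K := by
    intro t ht
    have hre : (k + (t : ℂ) * (1 + Complex.I)).re = k.re + t := by simp
    have him : (k + (t : ℂ) * (1 + Complex.I)).im = k.im + t := by simp
    refine ⟨by rw [hre]; linarith, by rw [him]; linarith, ?_⟩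
    refine lt_of_le_of_lt k3 ?_
    have e1 := Complex.sq_norm k
    have e2 := Complex.sq_norm (k + (t : ℂ) * (1 + Complex.I))
    rw [Complex.normSq_apply] at e1 e2
    rw [hre, him] at e2
    refine lt_of_pow_lt_pow_left₀ 2 (norm_nonneg _) ?_
    rw [e1, e2]
    nlinarith
  have ht1 : Tendsto (fun t : ℝ => k + (t : ℂ) * (1 + Complex.I)) (𝓝[>] 0) (𝓝[RC K] k) := by
    refine tendsto_nhdsWithin_iff.2 ⟨?_, ?_⟩
    · have : Tendsto (fun t : ℝ => k + (t : ℂ) * (1 + Complex.I)) (𝓝 0)
          (𝓝 (k + ((0 : ℝ) : ℂ) * (1 + Complex.I))) :=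
        (continuous_const.add (Complex.continuous_ofReal.mul continuous_const)).tendsto 0
      rw [Complex.ofReal_zero, zero_mul, add_zero] at this
      exact this.mono_left nhdsWithin_le_nhds
    · filter_upwards [self_mem_nhdsWithin] with t ht
      obtain ⟨q1, q2, q3⟩ := hmem t ht
      exact ⟨q1.le, q2.le, q3.le⟩
  have ht2 : Tendsto (fun t : ℝ => g (k + (t : ℂ) * (1 + Complex.I))) (𝓝[>] 0) (𝓝 (g k)) :=
    (hc k hkC).tendsto.comp ht1
  have ht3 : Tendsto (fun t : ℝ => g (k + (t : ℂ) * (1 + Complex.I))) (𝓝[>] 0) (𝓝 0) := by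
    refine tendsto_const_nhds.congr' ?_
    filter_upwards [self_mem_nhdsWithin] with t ht
    exact (hzero (hmem t ht)).symm
  exact tendsto_nhds_unique ht2 ht3

end FracScat

end
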