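import Pool.Agent.Lib.MP_6e2ba5_an.FTfacts

/-! # The convolution theorem

`cv q f` is in `L² ∩ L¹` with Fourier transform `𝓕 q * 𝓕 f`
(`Real.fourier_mul_convolution_eq`); that it is in `L²`: Young, i.e. Cauchy-Schwarz with the
measure `|q|`, `|cv q f x|² ≤ ‖q‖₁ ∫ |f y|² |q (x-y)| dy`; then use `FT_coe_of_integrable` and
injectivity of `FT`. -/

set_option autoImplicit false

open MeasureTheory Filter Topology Set
open scoped FourierTransform SchwartzMap InnerProductSpace ENNReal ContDiff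

noncomputable section

namespace FracScat

theorem BM_fourier {q : E3 → ℂ} (hq : Integrable q) : BM (𝓕 q) := by
  have hc : Continuous (𝓕 q) :=
    VectorFourier.fourierIntegral_continuous Real.continuous_fourierChar
      (by exact continuous_inner) hq
  refine ⟨hc.aestronglyMeasurable, ∫ v, ‖q v‖, Eventually.of_forall fun ξ => ?_⟩
  exact VectorFourier.norm_fourierIntegral_le_integral_norm _ _ _ q ξ

private lemma Conv_eq (q f : E3 → ℂ) :
    cv q f = MeasureTheory.convolution f q (ContinuousLinearMap.mul ℂ ℂ) volume := by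
  funext x
  rfl

private lemma Conv_int {q f : E3 → ℂ} (hq : Integrable q) (hf : Integrable f) :
    Integrable (cv q f) := by
  rw [Conv_eq]
  exact hf.integrable_convolution (ContinuousLinearMap.mul ℂ ℂ) hq

private lemma Conv_fourier {q f : E3 → ℂ} (hq : Integrable q) (hf : Integrable f) (ξ : E3) :
    𝓕 (cv q f) ξ = 𝓕 f ξ * 𝓕 q ξ := by
  rw [Conv_eq]
  exact Real.fourier_mul_convolution_eq hf hq ξ

private lemma Conv_point (q q' f : E3 → ℂ) (hq' : StronglyMeasurable q') (hf : StronglyMeasurable f)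
    (hqq : q =ᵐ[volume] q') (x : E3) :
    ‖cv q f x‖ₑ ^ (2 : ℝ) ≤ (∫⁻ y, ‖q' y‖ₑ) * ∫⁻ y, ‖f y‖ₑ ^ (2 : ℝ) * ‖q' (x - y)‖ₑ := by
  have h0 : cv q f x = ∫ y, f y * q' (x - y) := by
    unfold cv
    apply integral_congr_ae
    have hqm : Measure.QuasiMeasurePreserving (fun y : E3 => x - y) volume volume :=
      quasiMeasurePreserving_sub_left volume x
    filter_upwards [hqm.ae_eq_comp hqq] with y hy
    simp only [Function.comp_apply] at hy
    rw [hy]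
  have hm : Measurable fun y : E3 => q' (x - y) := hq'.measurable.comp (measurable_const.sub measurable_id)
  have h1 : ‖cv q f x‖ₑ ≤ ∫⁻ y, ‖f y‖ₑ * ‖q' (x - y)‖ₑ := by
    rw [h0]
    refine (enorm_integral_le_lintegral_enorm _).trans (le_of_eq ?_)
    simp only [enorm_mul]
  have h2 : ∫⁻ y, ‖f y‖ₑ * ‖q' (x - y)‖ₑ ≤
      (∫⁻ y, ‖f y‖ₑ ^ (2 : ℝ) * ‖q' (x - y)‖ₑ) ^ (1 / (2 : ℝ)) * (∫⁻ y, ‖q' y‖ₑ) ^ (1 / (2 : ℝ)) := by
    have h3 := ENNReal.lintegral_mul_le_Lp_mul_Lq (volume : Measure E3) Real.HolderConjugate.two_two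
      (f := fun y => ‖f y‖ₑ * ‖q' (x - y)‖ₑ ^ (1 / (2 : ℝ))) (g := fun y => ‖q' (x - y)‖ₑ ^ (1 / (2 : ℝ)))
      ((hf.measurable.enorm.mul (hm.enorm.pow_const _)).aemeasurable)
      ((hm.enorm.pow_const _).aemeasurable)
    have e1 : ∀ y, ((fun y => ‖f y‖ₑ * ‖q' (x - y)‖ₑ ^ (1 / (2 : ℝ))) *
        fun y => ‖q' (x - y)‖ₑ ^ (1 / (2 : ℝ))) y = ‖f y‖ₑ * ‖q' (x - y)‖ₑ := by
      intro y
      rw [Pi.mul_apply, mul_assoc, ← ENNReal.rpow_add_of_nonneg _ _ (by norm_num) (by norm_num)]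
      norm_num
    have e2 : ∀ y, (‖f y‖ₑ * ‖q' (x - y)‖ₑ ^ (1 / (2 : ℝ))) ^ (2 : ℝ) = ‖f y‖ₑ ^ (2 : ℝ) * ‖q' (x - y)‖ₑ := by
      intro y
      rw [ENNReal.mul_rpow_of_nonneg _ _ (by norm_num), ← ENNReal.rpow_mul]
      norm_num
    have e3 : ∀ y, (‖q' (x - y)‖ₑ ^ (1 / (2 : ℝ))) ^ (2 : ℝ) = ‖q' (x - y)‖ₑ := by
      intro y
      rw [← ENNReal.rpow_mul]
      norm_num
    simp only [e1, e2, e3] at h3
    rw [lintegral_sub_left_eq_self (fun y => ‖q' y‖ₑ) x] at h3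
    exact h3
  calc ‖cv q f x‖ₑ ^ (2 : ℝ) ≤ ((∫⁻ y, ‖f y‖ₑ ^ (2 : ℝ) * ‖q' (x - y)‖ₑ) ^ (1 / (2 : ℝ)) *
        (∫⁻ y, ‖q' y‖ₑ) ^ (1 / (2 : ℝ))) ^ (2 : ℝ) :=
        ENNReal.rpow_le_rpow (h1.trans h2) (by norm_num)
    _ = _ := by
        rw [ENNReal.mul_rpow_of_nonneg _ _ (by norm_num), ← ENNReal.rpow_mul, ← ENNReal.rpow_mul]
        norm_num
        rw [mul_comm]

private lemma Conv_memLp {q : E3 → ℂ} (hq : Integrable q) (f : HS) (hf : Integrable (f : E3 → ℂ)) :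
    MemLp (cv q f) 2 volume := by
  refine ⟨(Conv_int hq hf).1, ?_⟩
  rw [eLpNorm_lt_top_iff_lintegral_rpow_enorm_lt_top (by norm_num) (by norm_num)]
  have hfs : StronglyMeasurable (f : E3 → ℂ) := Lp.stronglyMeasurable f
  set q' := hq.1.mk q with hq'
  have hqs : StronglyMeasurable q' := hq.1.stronglyMeasurable_mk
  have hqq : q =ᵐ[volume] q' := hq.1.ae_eq_mk
  have hA : ∫⁻ y, ‖q' y‖ₑ < ⊤ := (hq.congr hqq).2
  have hB : ∫⁻ y, ‖(f : E3 → ℂ) y‖ₑ ^ (2 : ℝ) < ⊤ := by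
    have := (Lp.memLp f).2
    rw [eLpNorm_lt_top_iff_lintegral_rpow_enorm_lt_top (by norm_num) (by norm_num)] at this
    simpa using this
  have h1 : ∫⁻ x, ‖cv q f x‖ₑ ^ (2 : ℝ) ≤
      (∫⁻ y, ‖q' y‖ₑ) * ((∫⁻ y, ‖(f : E3 → ℂ) y‖ₑ ^ (2 : ℝ)) * ∫⁻ y, ‖q' y‖ₑ) := by
    refine (lintegral_mono fun x => Conv_point q q' f hqs hfs hqq x).trans ?_
    rw [lintegral_const_mul' _ _ hA.ne]
    refine mul_le_mul_right (le_of_eq ?_) _
    rw [lintegral_lintegral_swap]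
    · have e1 : ∀ y : E3, ∫⁻ x, ‖(f : E3 → ℂ) y‖ₑ ^ (2 : ℝ) * ‖q' (x - y)‖ₑ =
          ‖(f : E3 → ℂ) y‖ₑ ^ (2 : ℝ) * ∫⁻ y, ‖q' y‖ₑ := by
        intro y
        rw [lintegral_const_mul' _ _ (by simp), lintegral_sub_right_eq_self (fun y => ‖q' y‖ₑ) y]
      simp only [e1]
      rw [lintegral_mul_const' _ _ hA.ne]
    · have k1 : Measurable fun p : E3 × E3 => ‖(f : E3 → ℂ) p.2‖ₑ ^ (2 : ℝ) * ‖q' (p.1 - p.2)‖ₑ :=
        ((hfs.measurable.comp measurable_snd).enorm.pow_const _).mul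
          (hqs.measurable.comp (measurable_fst.sub measurable_snd)).enorm
      exact k1.aemeasurable
  have h2 : ((2 : ℝ≥0∞).toReal) = 2 := by norm_num
  rw [h2]
  exact h1.trans_lt (ENNReal.mul_lt_top hA (ENNReal.mul_lt_top hB hA))

theorem multL_conv {q : E3 → ℂ} (hq : Integrable q) (f : HS) (hf : Integrable (f : E3 → ℂ)) :
    (multL (𝓕 q) f : E3 → ℂ) =ᵐ[volume] cv q f := by
  have hM := Conv_memLp hq f hf
  set G : HS := hM.toLp (cv q f) with hG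
  have hGe : (G : E3 → ℂ) =ᵐ[volume] cv q f := hM.coeFn_toLp
  have hGi : Integrable (G : E3 → ℂ) := (Conv_int hq hf).congr hGe.symm
  have h1 := FT_coe_of_integrable G hGi
  have h2 : 𝓕 (G : E3 → ℂ) = 𝓕 (cv q f) := by
    funext ξ
    rw [Real.fourier_eq, Real.fourier_eq]
    apply integral_congr_ae
    filter_upwards [hGe] with v hv
    rw [hv]
  have h3 : FT G = FT (multL (𝓕 q) f) := by
    apply Lp.ext
    filter_upwards [h1, FT_multL_coe (BM_fourier hq) f, FT_coe_of_integrable f hf] with ξ a b c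
    rw [a, b, c, h2, Conv_fourier hq hf, mul_comm]
  have h4 : G = multL (𝓕 q) f := FT.injective h3
  rw [← h4]
  exact hGe

end FracScat

end
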