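import Pool.Agent.Lib.MP_6e2ba5_an.ConvexB

/-! # Equality at exposed points

`D.indicator q₁ - D.indicator q₂ = D.indicator (q₁ - q₂)`, and squares of indicators are indicators
of squares. Divide `hm` by `∫_D exp(-2τ θ·x) > 0`; by `laplace_conc` for `q₁ - q₂`, `q₁²`, `q₂²`:
`|Im z| |q₁(x₀) - q₂(x₀) + o(1)| ≤ q₁(x₀)² + q₂(x₀)² + o(1)`, and `|Im z| = τ^(2s) |sin πs| → ∞`
(`zt_im`, `sin_pi_ne`), so `q₁(x₀) = q₂(x₀)`. -/

set_option autoImplicit false

open MeasureTheory Filter Topology Set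
open scoped FourierTransform SchwartzMap InnerProductSpace ENNReal ContDiff

noncomputable section

namespace FracScat

private theorem cvx_pe_cont (τ : ℝ) (θ : E3) : Continuous fun x => pe τ θ x ^ 2 := by
  unfold pe
  fun_prop

private theorem cvx_Z_pos {D : Set E3} (hD : IsCompact D) (hi : (interior D).Nonempty) (τ : ℝ)
    (θ : E3) : 0 < ∫ x in D, pe τ θ x ^ 2 := by
  have hint : IntegrableOn (fun x => pe τ θ x ^ 2) D :=
    (cvx_pe_cont τ θ).continuousOn.integrableOn_compact hD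
  have hpos : ∀ x, 0 < pe τ θ x ^ 2 := fun x => by
    unfold pe
    positivity
  rw [integral_pos_iff_support_of_nonneg (fun x => (hpos x).le) hint]
  have hs : Function.support (fun x => pe τ θ x ^ 2) = univ := by
    ext x
    simp only [Function.mem_support, mem_univ, iff_true]
    exact (hpos x).ne'
  rw [hs, Measure.restrict_apply_univ]
  exact Measure.measure_pos_of_nonempty_interior _ hi

theorem exposed_eq {s : ℝ} (h0 : 1 / 2 < s) (h2 : s < 2) (h1 : s ≠ 1) {D : Set E3}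
    (hD : IsCompact D) (hc : Convex ℝ D) (hi : (interior D).Nonempty) {q₁ q₂ : E3 → ℝ}
    (hq₁ : ContinuousOn q₁ D) (hq₂ : ContinuousOn q₂ D) {θ x₀ : E3} (hx₀ : x₀ ∈ D)
    (hθ : ∀ x ∈ D, x ≠ x₀ → ⟪θ, x₀⟫_ℝ < ⟪θ, x⟫_ℝ) {K : ℝ}
    (hm : ∀ τ : ℝ, K ≤ τ →
      |(zt s τ).im| * |∫ x, (D.indicator q₁ x - D.indicator q₂ x) * pe τ θ x ^ 2| ≤
        (∫ x, D.indicator q₁ x ^ 2 * pe τ θ x ^ 2) + ∫ x, D.indicator q₂ x ^ 2 * pe τ θ x ^ 2) :
    q₁ x₀ = q₂ x₀ := by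
  have hmeas : MeasurableSet D := hD.isClosed.measurableSet
  have e1 : ∀ τ : ℝ, ∫ x, (D.indicator q₁ x - D.indicator q₂ x) * pe τ θ x ^ 2 =
      ∫ x in D, (q₁ x - q₂ x) * pe τ θ x ^ 2 := by
    intro τ
    rw [← integral_indicator hmeas]
    congr 1
    funext x
    by_cases hx : x ∈ D
    · simp only [indicator_of_mem hx]
    · simp only [indicator_of_notMem hx, sub_zero, zero_mul]
  have e2 : ∀ (q : E3 → ℝ) (τ : ℝ), ∫ x, D.indicator q x ^ 2 * pe τ θ x ^ 2 =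
      ∫ x in D, q x ^ 2 * pe τ θ x ^ 2 := by
    intro q τ
    rw [← integral_indicator hmeas]
    congr 1
    funext x
    by_cases hx : x ∈ D
    · simp only [indicator_of_mem hx]
    · simp only [indicator_of_notMem hx]
      ring
  have t1 := laplace_conc hD hc hi hx₀ hθ (g := fun x => q₁ x - q₂ x) (hq₁.sub hq₂)
  have t2 := laplace_conc hD hc hi hx₀ hθ (g := fun x => q₁ x ^ 2) (hq₁.pow 2)
  have t3 := laplace_conc hD hc hi hx₀ hθ (g := fun x => q₂ x ^ 2) (hq₂.pow 2)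
  have hsin : 0 < |Real.sin (Real.pi * s)| := abs_pos.2 (sin_pi_ne (by linarith) h2 h1)
  have him : Tendsto (fun τ : ℝ => |(zt s τ).im|) atTop atTop := by
    have h3 : Tendsto (fun τ : ℝ => τ ^ (2 * s) * |Real.sin (Real.pi * s)|) atTop atTop :=
      (tendsto_rpow_atTop (by linarith)).atTop_mul_const hsin
    refine h3.congr' ?_
    filter_upwards [eventually_gt_atTop 0] with τ hτ
    rw [zt_im hτ, abs_mul, abs_of_nonneg (Real.rpow_nonneg hτ.le _)]
  have t4 : Tendsto (fun τ : ℝ => ((∫ x in D, q₁ x ^ 2 * pe τ θ x ^ 2) / (∫ x in D, pe τ θ x ^ 2) +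
      (∫ x in D, q₂ x ^ 2 * pe τ θ x ^ 2) / ∫ x in D, pe τ θ x ^ 2) * (|(zt s τ).im|)⁻¹) atTop
      (𝓝 0) := by
    have := (t2.add t3).mul him.inv_tendsto_atTop
    rw [mul_zero] at this
    exact this
  have t5 := t1.abs
  have hle : |q₁ x₀ - q₂ x₀| ≤ 0 := by
    refine le_of_tendsto_of_tendsto t5 t4 ?_
    filter_upwards [eventually_ge_atTop K, him.eventually_gt_atTop 0] with τ hτ hpos
    have h5 := hm τ hτ
    rw [e1, e2, e2] at h5
    have hZ := cvx_Z_pos hD hi τ θ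
    rw [abs_div, abs_of_pos hZ, ← add_div, div_le_iff₀ hZ]
    have h6 : ((∫ x in D, q₁ x ^ 2 * pe τ θ x ^ 2) + ∫ x in D, q₂ x ^ 2 * pe τ θ x ^ 2) /
        (∫ x in D, pe τ θ x ^ 2) * (|(zt s τ).im|)⁻¹ * (∫ x in D, pe τ θ x ^ 2) =
        ((∫ x in D, q₁ x ^ 2 * pe τ θ x ^ 2) + ∫ x in D, q₂ x ^ 2 * pe τ θ x ^ 2) /
          |(zt s τ).im| := by
      field_simp
    rw [h6, le_div_iff₀ hpos]
    linarith
  have h7 := abs_nonpos_iff.1 hle
  linarith

end FracScat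

end
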