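import Pool.Agent.Lib.MP_6e2ba5_an.Hull

/-! # Indicator potentials

`essSupp_indicator`: `D` compact convex with nonempty interior is the closure of its interior
(`Convex.closure_interior_eq_closure_of_nonempty_interior`); `q` continuous on `D` with
`{q ≠ 0} ∩ D` dense in `D`: every ball around a point of `D` contains a point `y ∈ D` with
`q y ≠ 0`, `q ≠ 0` on `D` near `y`, and near `y` there is an open subset of `D` (positive volume).
Points outside `D` have a ball on which `D.indicator q = 0`. -/

set_option autoImplicit false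

open MeasureTheory Filter Topology Set
open scoped FourierTransform SchwartzMap InnerProductSpace ENNReal ContDiff

noncomputable section

namespace FracScat

theorem essSupp_indicator {D : Set E3} (hD : IsCompact D) (hc : Convex ℝ D)
    (hi : (interior D).Nonempty) {q : E3 → ℝ} (hq : ContinuousOn q D)
    (hd : D ⊆ closure (D ∩ {x | q x ≠ 0})) : essSupp (D.indicator q) = D := by
  apply Set.Subset.antisymm
  · intro x hx
    by_contra hxD
    have h1 : Dᶜ ∈ 𝓝 x := hD.isClosed.isOpen_compl.mem_nhds hxD
    obtain ⟨ε, hε, h2⟩ := Metric.mem_nhds_iff.1 h1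
    have h3 := hx ε hε
    have h4 : Metric.ball x ε ∩ {y | D.indicator q y ≠ 0} = ∅ := by
      rw [Set.eq_empty_iff_forall_notMem]
      rintro y ⟨hy1, hy2⟩
      exact hy2 (Set.indicator_of_notMem (h2 hy1) q)
    rw [h4, measure_empty] at h3
    exact lt_irrefl _ h3
  · intro x hx ε hε
    obtain ⟨y, ⟨hyD, hyq⟩, hyx⟩ := Metric.mem_closure_iff.1 (hd hx) ε hε
    have h1 : {z | q z ≠ 0} ∈ 𝓝[D] y :=
      (hq y hyD).preimage_mem_nhdsWithin (isOpen_ne.mem_nhds hyq)
    obtain ⟨δ, hδ, h2⟩ := Metric.mem_nhdsWithin_iff.1 h1
    have hyc : y ∈ closure (interior D) := by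
      rw [hc.closure_interior_eq_closure_of_nonempty_interior hi]
      exact subset_closure hyD
    have hpos : 0 < min δ (ε - dist x y) := lt_min hδ (by linarith)
    obtain ⟨z, hzD, hzy⟩ := Metric.mem_closure_iff.1 hyc _ hpos
    have hU : IsOpen (interior D ∩ Metric.ball y (min δ (ε - dist x y))) :=
      isOpen_interior.inter Metric.isOpen_ball
    have hUne : (interior D ∩ Metric.ball y (min δ (ε - dist x y))).Nonempty :=
      ⟨z, hzD, by rw [Metric.mem_ball, dist_comm]; exact hzy⟩
    refine lt_of_lt_of_le (hU.measure_pos volume hUne) (measure_mono ?_)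
    rintro w ⟨hw1, hw2⟩
    rw [Metric.mem_ball] at hw2
    have hw3 := lt_min_iff.1 hw2
    refine ⟨?_, ?_⟩
    · rw [Metric.mem_ball]
      calc dist w x ≤ dist w y + dist y x := dist_triangle _ _ _
        _ < (ε - dist x y) + dist y x := by linarith [hw3.2]
        _ = ε := by rw [dist_comm y x]; ring
    · have hwD := interior_subset hw1
      show D.indicator q w ≠ 0
      rw [Set.indicator_of_mem hwD]
      exact h2 ⟨Metric.mem_ball.2 hw3.1, hwD⟩

theorem isPotential_indicator {D : Set E3} (hD : IsCompact D) {q : E3 → ℝ}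
    (hq : ContinuousOn q D) : IsPotential (D.indicator q) := by
  classical
  refine ⟨?_, ?_, ?_⟩
  · have h1 := ContinuousOn.measurable_piecewise (g := fun _ => (0 : ℝ)) hq continuousOn_const
      hD.measurableSet
    have h2 : D.indicator q = D.piecewise q (fun _ => 0) := by
      rw [← Set.piecewise_eq_indicator]
      rfl
    rw [h2]
    exact h1
  · obtain ⟨C, hC⟩ := hD.exists_bound_of_continuousOn hq
    refine ⟨max C 0, fun x => ?_⟩
    by_cases hx : x ∈ D
    · rw [Set.indicator_of_mem hx]
      exact (hC x hx).trans (le_max_left _ _)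
    · rw [Set.indicator_of_notMem hx, abs_zero]
      exact le_max_right _ _
  · obtain ⟨r, hr⟩ := hD.isBounded.subset_closedBall 0
    refine ⟨r, fun x hx => Set.indicator_of_notMem (fun h => ?_) q⟩
    have := hr h
    rw [Metric.mem_closedBall, dist_zero_right] at this
    linarith

end FracScat

end
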