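import Pool.Agent.Lib.MP_6e2ba5_an.AxisZ

/-! # Concentration of exponential moments at an exposed point

`⟪θ, x⟫ > ⟪θ, x₀⟫` for all other `x ∈ D`. Away from a neighbourhood `N` of `x₀` one has
`θ·x ≥ θ·x₀ + 2δ` on `D` by compactness, while the part of `D` where `θ·x ≤ θ·x₀ + δ` has positive
volume (near `x₀ ∈ D = closure (interior D)` there are interior points), so the mass of `D \ N` is
`O(exp(-2τδ))` relative to the mass of `D`. -/

set_option autoImplicit false

open MeasureTheory Filter Topology Set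
open scoped FourierTransform SchwartzMap InnerProductSpace ENNReal ContDiff

noncomputable section

namespace FracScat

private theorem cvb_cont (τ : ℝ) (θ : E3) : Continuous fun x => pe τ θ x ^ 2 := by
  unfold pe
  fun_prop

private theorem cvb_eq (τ : ℝ) (θ x : E3) : pe τ θ x ^ 2 = Real.exp (-(2 * τ * ⟪θ, x⟫_ℝ)) := by
  unfold pe
  rw [← Real.exp_nat_mul]
  congr 1
  push_cast
  ring

theorem laplace_conc {D : Set E3} (hD : IsCompact D) (hc : Convex ℝ D)
    (hi : (interior D).Nonempty) {θ x₀ : E3} (hx₀ : x₀ ∈ D)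
    (hθ : ∀ x ∈ D, x ≠ x₀ → ⟪θ, x₀⟫_ℝ < ⟪θ, x⟫_ℝ) {g : E3 → ℝ} (hg : ContinuousOn g D) :
    Tendsto (fun τ : ℝ => (∫ x in D, g x * pe τ θ x ^ 2) / ∫ x in D, pe τ θ x ^ 2) atTop
      (𝓝 (g x₀)) := by
  have hmeas : MeasurableSet D := hD.isClosed.measurableSet
  have hZi : ∀ τ, IntegrableOn (fun x => pe τ θ x ^ 2) D := fun τ =>
    (cvb_cont τ θ).continuousOn.integrableOn_compact hD
  set c : ℝ := ⟪θ, x₀⟫_ℝ with hcdef
  rw [Metric.tendsto_atTop]
  intro ε hε
  -- neighbourhood of `x₀`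
  obtain ⟨r, hr, hN⟩ := Metric.continuousOn_iff.1 hg x₀ hx₀ (ε / 2) (by positivity)
  obtain ⟨δ, hδ, hδ'⟩ : ∃ δ > 0, ∀ x ∈ D, r ≤ dist x x₀ → c + 2 * δ ≤ ⟪θ, x⟫_ℝ := by
    have hK : IsCompact (D ∩ (Metric.ball x₀ r)ᶜ) := hD.inter_right Metric.isOpen_ball.isClosed_compl
    rcases (D ∩ (Metric.ball x₀ r)ᶜ).eq_empty_or_nonempty with h | h
    · refine ⟨1, one_pos, fun x hx hxr => ?_⟩
      exfalso
      have : x ∈ D ∩ (Metric.ball x₀ r)ᶜ := ⟨hx, by
        rw [mem_compl_iff, Metric.mem_ball, not_lt]; exact hxr⟩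
      rw [h] at this
      exact this
    · obtain ⟨y, hy, hy2⟩ := hK.exists_isMinOn h
        (f := fun x => ⟪θ, x⟫_ℝ) (by fun_prop : Continuous fun x : E3 => ⟪θ, x⟫_ℝ).continuousOn
      have hyne : y ≠ x₀ := by
        rintro rfl
        have := hy.2
        rw [mem_compl_iff, Metric.mem_ball, dist_self] at this
        exact this hr
      have hlt := hθ y hy.1 hyne
      refine ⟨(⟪θ, y⟫_ℝ - c) / 2, by linarith, fun x hx hxr => ?_⟩
      have h3 : ⟪θ, y⟫_ℝ ≤ ⟪θ, x⟫_ℝ := hy2 ⟨hx, by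
        rw [mem_compl_iff, Metric.mem_ball, not_lt]; exact hxr⟩
      linarith
  obtain ⟨M, hM0, hM⟩ : ∃ M : ℝ, 0 ≤ M ∧ ∀ x ∈ D, |g x - g x₀| ≤ M := by
    obtain ⟨C, hC⟩ := hD.exists_bound_of_continuousOn
      (hg.sub (continuousOn_const : ContinuousOn (fun _ : E3 => g x₀) D))
    refine ⟨max C 0, le_max_right _ _, fun x hx => ?_⟩
    exact (hC x hx).trans (le_max_left _ _)
  set U : Set E3 := interior D ∩ {x | ⟪θ, x⟫_ℝ < c + δ} with hU
  have hUo : IsOpen U := isOpen_interior.inter (isOpen_lt (by fun_prop) continuous_const)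
  have hUne : U.Nonempty := by
    have h1 : x₀ ∈ closure (interior D) := by
      rw [hc.closure_interior_eq_closure_of_nonempty_interior hi]
      exact subset_closure hx₀
    have h2 : {x : E3 | ⟪θ, x⟫_ℝ < c + δ} ∈ 𝓝 x₀ :=
      (isOpen_lt (by fun_prop) continuous_const).mem_nhds (by
        show ⟪θ, x₀⟫_ℝ < c + δ
        linarith)
    obtain ⟨y, hy1, hy2⟩ := mem_closure_iff_nhds.1 h1 _ h2
    exact ⟨y, hy2, hy1⟩
  have hUD : U ⊆ D := fun x hx => interior_subset hx.1
  have hDfin : volume D < ⊤ := hD.measure_lt_top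
  have hUfin : volume U < ⊤ := (measure_mono hUD).trans_lt hDfin
  have hvU : 0 < volume.real U := ENNReal.toReal_pos (hUo.measure_pos volume hUne).ne' hUfin.ne
  have hvD : 0 ≤ volume.real D := measureReal_nonneg
  -- lower bound for the total mass
  have hZ : ∀ τ : ℝ, 0 ≤ τ → volume.real U * Real.exp (-(2 * τ * (c + δ))) ≤ ∫ x in D, pe τ θ x ^ 2 := by
    intro τ hτ
    have h1 : ∫ x in U, pe τ θ x ^ 2 ≤ ∫ x in D, pe τ θ x ^ 2 :=
      setIntegral_mono_set (hZi τ) (Eventually.of_forall fun x => by positivity)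
        (LE.le.eventuallyLE hUD)
    have h2 : volume.real U * Real.exp (-(2 * τ * (c + δ))) ≤ ∫ x in U, pe τ θ x ^ 2 := by
      have h3 : ∫ _ in U, Real.exp (-(2 * τ * (c + δ))) = volume.real U * Real.exp (-(2 * τ * (c + δ))) := by
        rw [setIntegral_const, smul_eq_mul]
      rw [← h3]
      refine setIntegral_mono_on (integrableOn_const hUfin.ne) ((hZi τ).mono_set hUD) hUo.measurableSet ?_
      intro x hx
      rw [cvb_eq]
      refine Real.exp_le_exp.2 ?_
      have h4 : ⟪θ, x⟫_ℝ < c + δ := hx.2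
      have h5 := mul_le_mul_of_nonneg_left h4.le (by linarith : 0 ≤ 2 * τ)
      linarith
    exact h2.trans h1
  -- the limit of the error
  have hlim : Tendsto (fun τ : ℝ => M * volume.real D / volume.real U * Real.exp (-(2 * τ * δ))) atTop (𝓝 0) := by
    have h1 : Tendsto (fun τ : ℝ => 2 * τ * δ) atTop atTop := by
      have : (fun τ : ℝ => 2 * τ * δ) = fun τ => (2 * δ) * τ := by
        funext τ
        ring
      rw [this]
      exact tendsto_id.const_mul_atTop (by positivity)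
    have h2 := (Real.tendsto_exp_neg_atTop_nhds_zero.comp h1).const_mul (M * volume.real D / volume.real U)
    rw [mul_zero] at h2
    exact h2
  have hev := (hlim.eventually (gt_mem_nhds (by positivity : (0 : ℝ) < ε / 2))).and (eventually_ge_atTop 0)
  obtain ⟨T, hT⟩ := Filter.eventually_atTop.1 hev
  refine ⟨T, fun τ hτ => ?_⟩
  obtain ⟨hT1, hτ0⟩ := hT τ hτ
  have hZτ := hZ τ hτ0
  set Z : ℝ := ∫ x in D, pe τ θ x ^ 2 with hZdef
  have hZpos : 0 < Z := lt_of_lt_of_le (mul_pos hvU (Real.exp_pos _)) hZτ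
  have hgi : IntegrableOn (fun x => g x * pe τ θ x ^ 2) D :=
    (hg.mul (cvb_cont τ θ).continuousOn).integrableOn_compact hD
  have hdi : IntegrableOn (fun x => (g x - g x₀) * pe τ θ x ^ 2) D :=
    ((hg.sub continuousOn_const).mul (cvb_cont τ θ).continuousOn).integrableOn_compact hD
  have e1 : (∫ x in D, g x * pe τ θ x ^ 2) - g x₀ * Z = ∫ x in D, (g x - g x₀) * pe τ θ x ^ 2 := by
    rw [hZdef, ← integral_const_mul, ← integral_sub hgi ((hZi τ).const_mul _)]
    congr 1
    funext x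
    ring
  have e2 : |∫ x in D, (g x - g x₀) * pe τ θ x ^ 2| ≤
      ε / 2 * Z + M * Real.exp (-(2 * τ * (c + 2 * δ))) * volume.real D := by
    have h1 : |∫ x in D, (g x - g x₀) * pe τ θ x ^ 2| ≤ ∫ x in D, |(g x - g x₀) * pe τ θ x ^ 2| :=
      abs_integral_le_integral_abs
    have hci : IntegrableOn (fun _ : E3 => M * Real.exp (-(2 * τ * (c + 2 * δ)))) D :=
      integrableOn_const hDfin.ne
    have h2 : ∫ x in D, |(g x - g x₀) * pe τ θ x ^ 2| ≤
        ∫ x in D, (ε / 2 * pe τ θ x ^ 2 + M * Real.exp (-(2 * τ * (c + 2 * δ)))) := by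
      refine setIntegral_mono_on hdi.abs (((hZi τ).const_mul _).add hci) hmeas ?_
      intro x hx
      rw [abs_mul, abs_of_nonneg (by positivity : 0 ≤ pe τ θ x ^ 2)]
      rcases lt_or_ge (dist x x₀) r with h | h
      · have h3 := hN x hx h
        rw [Real.dist_eq] at h3
        have h4 := mul_le_mul_of_nonneg_right h3.le (by positivity : 0 ≤ pe τ θ x ^ 2)
        have h5 : 0 ≤ M * Real.exp (-(2 * τ * (c + 2 * δ))) := by positivity
        linarith
      · have h3 := hδ' x hx h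
        have h4 : pe τ θ x ^ 2 ≤ Real.exp (-(2 * τ * (c + 2 * δ))) := by
          rw [cvb_eq]
          refine Real.exp_le_exp.2 ?_
          have h5 := mul_le_mul_of_nonneg_left h3 (by linarith : 0 ≤ 2 * τ)
          linarith
        have h5 : |g x - g x₀| * pe τ θ x ^ 2 ≤ M * Real.exp (-(2 * τ * (c + 2 * δ))) :=
          mul_le_mul (hM x hx) h4 (by positivity) hM0
        have h6 : 0 ≤ ε / 2 * pe τ θ x ^ 2 := by positivity
        linarith
    refine (h1.trans h2).trans (le_of_eq ?_)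
    rw [integral_add ((hZi τ).const_mul _) hci, integral_const_mul, setIntegral_const, smul_eq_mul]
    ring
  rw [Real.dist_eq]
  have e3 : (∫ x in D, g x * pe τ θ x ^ 2) / Z - g x₀ = (∫ x in D, (g x - g x₀) * pe τ θ x ^ 2) / Z := by
    rw [← e1]
    field_simp
  rw [e3, abs_div, abs_of_pos hZpos, div_lt_iff₀ hZpos]
  have e4 : M * Real.exp (-(2 * τ * (c + 2 * δ))) * volume.real D ≤
      M * volume.real D / volume.real U * Real.exp (-(2 * τ * δ)) * Z := by
    have h1 : M * Real.exp (-(2 * τ * (c + 2 * δ))) * volume.real D =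
        M * volume.real D / volume.real U * Real.exp (-(2 * τ * δ)) *
          (volume.real U * Real.exp (-(2 * τ * (c + δ)))) := by
      have h2 : Real.exp (-(2 * τ * (c + 2 * δ))) = Real.exp (-(2 * τ * δ)) * Real.exp (-(2 * τ * (c + δ))) := by
        rw [← Real.exp_add]
        congr 1
        ring
      rw [h2]
      field_simp
    rw [h1]
    exact mul_le_mul_of_nonneg_left hZτ (by positivity)
  have e5 : M * volume.real D / volume.real U * Real.exp (-(2 * τ * δ)) * Z < ε / 2 * Z :=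
    mul_lt_mul_of_pos_right hT1 hZpos
  linarith

end FracScat

end
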