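import Pool.Agent.Lib.MP_6e2ba5_an.GsBound

/-! # Norm and continuity of the cut off resolvents

Consequences of `gs_BM`, `gs_bound`, `gs_cont`, `norm_multL_le`, `norm_mulL_indB`, `multL_sub`. -/

set_option autoImplicit false

open MeasureTheory Filter Topology Set
open scoped FourierTransform SchwartzMap InnerProductSpace ENNReal

noncomputable section

namespace FracScat

private theorem KopA_sandwich (r : ℝ) (T : HS →L[ℂ] HS) :
    ‖mulL (indB r) ∘L T ∘L mulL (indB r)‖ ≤ ‖T‖ := by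
  have h1 := norm_mulL_indB r
  calc ‖mulL (indB r) ∘L T ∘L mulL (indB r)‖
      ≤ ‖mulL (indB r)‖ * ‖T ∘L mulL (indB r)‖ := ContinuousLinearMap.opNorm_comp_le _ _
    _ ≤ 1 * (‖T‖ * 1) := by
        refine mul_le_mul h1 ?_ (norm_nonneg _) zero_le_one
        refine (ContinuousLinearMap.opNorm_comp_le _ _).trans ?_
        exact mul_le_mul_of_nonneg_left h1 (norm_nonneg _)
    _ = ‖T‖ := by ring

theorem Kop_norm {s : ℝ} (h0 : 0 < s) (h2 : s < 2) {r : ℝ} (hr : 0 ≤ r) :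
    ∃ C : ℝ, 0 ≤ C ∧ ∀ k ∈ Quad, 1 ≤ ‖k‖ → ‖Kop s r k‖ ≤ C * ‖k‖ ^ (1 - 2 * s) := by
  have hR : 0 ≤ 2 * r := by positivity
  obtain ⟨C, hC0, hC⟩ := gs_bound h0 h2 hR
  refine ⟨C, hC0, fun k hk hk1 => (KopA_sandwich r _).trans ?_⟩
  exact norm_multL_le (gs_BM h0 h2 hR hk) (by positivity) (hC k hk hk1)

theorem Kop_cont {s : ℝ} (h0 : 0 < s) (h2 : s < 2) {r : ℝ} (hr : 0 ≤ r) :
    ContinuousOn (Kop s r) Quad := by
  have hR : 0 ≤ 2 * r := by positivity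
  rw [Metric.continuousOn_iff]
  intro k₀ hk₀ ε hε
  obtain ⟨δ, hδ, H⟩ := gs_cont h0 h2 hR hk₀ (ε := ε / 2) (by positivity)
  refine ⟨δ, hδ, fun k hk hkk => ?_⟩
  rw [dist_eq_norm] at hkk ⊢
  have h1 : Kop s r k - Kop s r k₀ = mulL (indB r) ∘L
      (multL (fun ξ => gs s (2 * r) k ξ - gs s (2 * r) k₀ ξ)) ∘L mulL (indB r) := by
    rw [multL_sub (gs_BM h0 h2 hR hk) (gs_BM h0 h2 hR hk₀)]
    unfold Kop
    rw [ContinuousLinearMap.sub_comp, ContinuousLinearMap.comp_sub]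
  rw [h1]
  refine ((KopA_sandwich r _).trans (norm_multL_le ((gs_BM h0 h2 hR hk).sub
    (gs_BM h0 h2 hR hk₀)) (by positivity) (H k hk hkk))).trans_lt (by linarith)

end FracScat

end
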