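import Pool.Agent.Lib.MP_6e2ba5_an.KopInt

/-! # The cut off resolvent is analytic in the open first quadrant

Put `z = k^(2s)` (analytic in `k` on the open quadrant, derivative `2s k^(2s-1)`), and
`b = a^(2s) ≥ 0`. For `z₀ ∉ [0,∞)`, `d = dist(z₀,[0,∞)) > 0` and `|z - z₀| ≤ d/2`:
`|1/(b-z) - 1/(b-z₀) - (z-z₀)/(b-z₀)²| = |z-z₀|²/(|b-z| |b-z₀|²) ≤ 2 |z-z₀|²/d³` for every `b ≥ 0`,
so `z ↦ multL (1/(a^(2s) - z))` has a complex derivative in the operator norm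
(`norm_multL_le`, `multL_sub`, `multL_const_mul`), and `k ↦ multL (rsE s k)` is the composition.
Then `Kop_interior`. -/

set_option autoImplicit false

open MeasureTheory Filter Topology Set
open scoped FourierTransform SchwartzMap InnerProductSpace ENNReal

noncomputable section

namespace FracScat

/-- The resolvent symbol as a function of the spectral parameter. -/
private def kdS (s : ℝ) (z : ℂ) (ξ : E3) : ℂ :=
  1 / ((((2 * Real.pi * ‖ξ‖) ^ (2 * s) : ℝ) : ℂ) - z)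

private theorem kd_meas (s : ℝ) (z : ℂ) : Measurable (kdS s z) := by
  unfold kdS
  have h : Measurable fun ξ : E3 => (2 * Real.pi * ‖ξ‖) ^ (2 * s) :=
    (measurable_norm.const_mul _).pow_const _
  exact ((Complex.measurable_ofReal.comp h).sub_const z).const_div 1

private theorem kd_lower {z₀ : ℂ} {d : ℝ} (hd : ∀ b : ℝ, 0 ≤ b → d ≤ ‖(b : ℂ) - z₀‖) {z : ℂ}
    (hz : ‖z - z₀‖ ≤ d / 2) (b : ℝ) (hb : 0 ≤ b) : d / 2 ≤ ‖(b : ℂ) - z‖ := by
  have h1 : (b : ℂ) - z₀ = ((b : ℂ) - z) + (z - z₀) := by ring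
  have h2 := norm_add_le ((b : ℂ) - z) (z - z₀)
  rw [← h1] at h2
  have := hd b hb
  linarith

private theorem kd_BM (s : ℝ) {z : ℂ} {c : ℝ} (hc : 0 < c) (h : ∀ b : ℝ, 0 ≤ b → c ≤ ‖(b : ℂ) - z‖) :
    BM (kdS s z) := by
  refine ⟨(kd_meas s z).aestronglyMeasurable, 1 / c, Eventually.of_forall fun ξ => ?_⟩
  unfold kdS
  rw [norm_div, norm_one]
  exact one_div_le_one_div_of_le hc (h _ (Real.rpow_nonneg (by positivity) _))

private theorem kd_quot {b z z₀ : ℂ} (h1 : b - z ≠ 0) (h2 : b - z₀ ≠ 0) :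
    1 / (b - z) - 1 / (b - z₀) - (z - z₀) * (1 / (b - z₀) * (1 / (b - z₀))) =
      (z - z₀) ^ 2 / ((b - z) * (b - z₀) ^ 2) := by
  field_simp
  ring

private theorem kd_hasDeriv (s : ℝ) {z₀ : ℂ} {d : ℝ} (hd0 : 0 < d)
    (hd : ∀ b : ℝ, 0 ≤ b → d ≤ ‖(b : ℂ) - z₀‖) :
    HasDerivAt (fun z => multL (kdS s z)) (multL (fun ξ => kdS s z₀ ξ * kdS s z₀ ξ)) z₀ := by
  rw [hasDerivAt_iff_isLittleO]
  refine Asymptotics.IsBigO.trans_isLittleO ?_ (Asymptotics.isLittleO_pow_sub_sub z₀ one_lt_two)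
  refine Asymptotics.IsBigO.of_bound (2 / d ^ 3) ?_
  have hball : ∀ᶠ z in 𝓝 z₀, ‖z - z₀‖ < d / 2 := by
    have := Metric.ball_mem_nhds z₀ (half_pos hd0)
    filter_upwards [this] with z hz
    rwa [Metric.mem_ball, dist_eq_norm] at hz
  filter_upwards [hball] with z hz
  have hlow := kd_lower hd hz.le
  have hB : BM (kdS s z) := kd_BM s (half_pos hd0) hlow
  have hB0 : BM (kdS s z₀) := kd_BM s hd0 hd
  have hBB : BM (fun ξ => kdS s z₀ ξ * kdS s z₀ ξ) := hB0.mul hB0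
  rw [← multL_sub hB hB0, ← multL_const_mul (z - z₀) hBB, ← multL_sub (hB.sub hB0) (hBB.const_mul _)]
  rw [Real.norm_eq_abs, abs_of_nonneg (by positivity)]
  refine norm_multL_le ((hB.sub hB0).sub (hBB.const_mul _)) (by positivity)
    (Eventually.of_forall fun ξ => ?_)
  have hb0 : 0 ≤ (2 * Real.pi * ‖ξ‖) ^ (2 * s) := Real.rpow_nonneg (by positivity) _
  have n1 := hlow _ hb0
  have n2 := hd _ hb0
  unfold kdS
  generalize (2 * Real.pi * ‖ξ‖) ^ (2 * s) = b at *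
  have p1 : 0 < ‖(b : ℂ) - z‖ := lt_of_lt_of_le (half_pos hd0) n1
  have p2 : 0 < ‖(b : ℂ) - z₀‖ := lt_of_lt_of_le hd0 n2
  rw [kd_quot (norm_pos_iff.1 p1) (norm_pos_iff.1 p2), norm_div, norm_pow, norm_mul, norm_pow]
  rw [div_mul_eq_mul_div, div_le_div_iff₀ (by positivity) (by positivity)]
  have n3 : d ^ 2 ≤ ‖(b : ℂ) - z₀‖ ^ 2 := pow_le_pow_left₀ hd0.le n2 2
  have n4 : d / 2 * d ^ 2 ≤ ‖(b : ℂ) - z‖ * ‖(b : ℂ) - z₀‖ ^ 2 :=
    mul_le_mul n1 n3 (by positivity) p1.le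
  have n5 : 0 ≤ ‖z - z₀‖ ^ 2 := by positivity
  nlinarith

private theorem kd_dist {s : ℝ} (h0 : 0 < s) (h2 : s < 2) {k : ℂ} (hk : k ∈ Quad) (hk' : 0 < k.im) :
    ∃ d : ℝ, 0 < d ∧ ∀ b : ℝ, 0 ≤ b → d ≤ ‖(b : ℂ) - k ^ ((2 * s : ℝ) : ℂ)‖ := by
  set z₀ : ℂ := k ^ ((2 * s : ℝ) : ℂ) with hz₀
  set S : Set ℂ := (fun x : ℝ => (x : ℂ)) '' Ici 0 with hS
  have hcl : IsClosed S := Complex.isometry_ofReal.isClosedEmbedding.isClosedMap (Ici 0) isClosed_Ici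
  have hne : S.Nonempty := ⟨0, 0, by simp, by simp⟩
  have hnot : z₀ ∉ S := by
    rintro ⟨b, hb, he⟩
    have hb0 : 0 ≤ b := hb
    have h1 := rs_denom_ne h0 h2 hk hk' (a := b ^ (1 / (2 * s))) (Real.rpow_nonneg hb0 _)
    apply h1
    rw [← Real.rpow_mul hb0, one_div_mul_cancel (by positivity), Real.rpow_one, ← hz₀]
    exact sub_eq_zero.2 he
  have hpos : 0 < Metric.infDist z₀ S := (hcl.notMem_iff_infDist_pos hne).1 hnot
  refine ⟨_, hpos, fun b hb => ?_⟩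
  have h1 := Metric.infDist_le_dist_of_mem (x := z₀) (show (b : ℂ) ∈ S from ⟨b, hb, rfl⟩)
  rwa [dist_comm, dist_eq_norm] at h1

private theorem kd_OQ {k : ℂ} (hk : k ∈ OQ) : k ∈ Quad ∧ 0 < k.im :=
  ⟨⟨hk.1.le, hk.2.le, fun h => by rw [h] at hk; exact lt_irrefl _ hk.1⟩, hk.2⟩

theorem multL_rsE_diff {s : ℝ} (h0 : 0 < s) (h2 : s < 2) :
    DifferentiableOn ℂ (fun k => multL (rsE s k)) OQ := by
  intro k hk
  obtain ⟨hq, him⟩ := kd_OQ hk
  obtain ⟨d, hd0, hd⟩ := kd_dist h0 h2 hq him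
  have h3 := (kd_hasDeriv s hd0 hd).differentiableAt
  have h4 : DifferentiableAt ℂ (fun k : ℂ => k ^ ((2 * s : ℝ) : ℂ)) k :=
    differentiableAt_id.cpow_const (Or.inl hk.1)
  have h5 : (fun k => multL (rsE s k)) = (fun z => multL (kdS s z)) ∘
      fun k : ℂ => k ^ ((2 * s : ℝ) : ℂ) := rfl
  rw [h5]
  exact (DifferentiableAt.comp k h3 h4).differentiableWithinAt

theorem Kop_diff {s : ℝ} (h0 : 0 < s) (h2 : s < 2) {r : ℝ} (hr : 0 ≤ r) :
    DifferentiableOn ℂ (Kop s r) OQ := by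
  have h3 : DifferentiableOn ℂ
      (fun k => mulL (indB r) ∘L multL (rsE s k) ∘L mulL (indB r)) OQ :=
    (differentiableOn_const _).clm_comp ((multL_rsE_diff h0 h2).clm_comp (differentiableOn_const _))
  exact h3.congr fun k hk => Kop_interior h0 h2 hr (kd_OQ hk).1 (kd_OQ hk).2

end FracScat

end
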