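import Pool.Agent.Lib.MP_6e2ba5_an.Ops

/-! # The Lippmann-Schwinger equation on the ball: definitions

`ev` is the plane wave cut off to the ball, `Tk = Kop ∘ V`, `uk = (1 - Tk)⁻¹ ev` and
`Ffun = ∫ ev V uk` is the back-scattering amplitude, for `k` in the closed first quadrant. -/

set_option autoImplicit false

open MeasureTheory Filter Topology Set
open scoped FourierTransform SchwartzMap InnerProductSpace ENNReal

noncomputable section

namespace FracScat

/-- The potential as a complex function. -/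
def Vc (V : E3 → ℝ) (x : E3) : ℂ := (V x : ℂ)

private theorem Ueq_pw_cont (θ : E3) (k : ℂ) : Continuous (fun x : E3 => planeWave k θ x) := by
  unfold planeWave
  fun_prop

theorem ev_memLp (r : ℝ) (θ : E3) (k : ℂ) :
    MemLp (fun x => indB r x * planeWave k θ x) 2 (volume : Measure E3) := by
  have hc := Ueq_pw_cont θ k
  have h1 : MemLp (fun x : E3 => planeWave k θ x) 2 (volume.restrict (Metric.closedBall (0 : E3) r)) := by
    obtain ⟨C, hC⟩ := (isCompact_closedBall (0 : E3) r).exists_bound_of_continuousOn hc.continuousOn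
    have : IsFiniteMeasure (volume.restrict (Metric.closedBall (0 : E3) r)) :=
      ⟨by rw [Measure.restrict_apply_univ]; exact measure_closedBall_lt_top⟩
    refine MemLp.of_bound hc.aestronglyMeasurable C ?_
    rw [ae_restrict_iff' Metric.isClosed_closedBall.measurableSet]
    exact Filter.Eventually.of_forall fun x hx => hC x hx
  have hind : (fun x : E3 => indB r x * planeWave k θ x) =
      (Metric.ball (0 : E3) r).indicator (fun x => planeWave k θ x) := by
    funext x
    unfold indB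
    by_cases hx : ‖x‖ < r
    · rw [if_pos hx, one_mul, Set.indicator_of_mem (mem_ball_zero_iff.2 hx)]
    · rw [if_neg hx, zero_mul, Set.indicator_of_notMem (fun h => hx (mem_ball_zero_iff.1 h))]
  rw [hind, memLp_indicator_iff_restrict Metric.isOpen_ball.measurableSet]
  exact h1.mono_measure (Measure.restrict_mono Metric.ball_subset_closedBall le_rfl)

/-- The cut off plane wave as an element of `L²`. -/
def ev (r : ℝ) (θ : E3) (k : ℂ) : HS := (ev_memLp r θ k).toLp _

theorem ev_coe (r : ℝ) (θ : E3) (k : ℂ) :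
    (ev r θ k : E3 → ℂ) =ᵐ[volume] fun x => indB r x * planeWave k θ x :=
  (ev_memLp r θ k).coeFn_toLp

/-- `1_B R(k) 1_B V`. -/
def Tk (s r : ℝ) (V : E3 → ℝ) (k : ℂ) : HS →L[ℂ] HS := Kop s r k ∘L mulL (Vc V)

/-- The total field on the ball. -/
def uk (s r : ℝ) (V : E3 → ℝ) (θ : E3) (k : ℂ) : HS :=
  (Ring.inverse (1 - Tk s r V k)) (ev r θ k)

/-- `∫ e V u`. -/
def Ffun (s r : ℝ) (V : E3 → ℝ) (θ : E3) (k : ℂ) : ℂ :=
  ∫ x, (ev r θ k : E3 → ℂ) x * (mulL (Vc V) (uk s r V θ k) : E3 → ℂ) x

/-- `V` is a potential which vanishes outside the ball of radius `r`. -/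
structure PotIn (r : ℝ) (V : E3 → ℝ) : Prop where
  measurable : Measurable V
  bounded : ∃ M : ℝ, ∀ x, |V x| ≤ M
  vanish : ∀ x, r ≤ ‖x‖ → V x = 0

theorem PotIn.BM {r : ℝ} {V : E3 → ℝ} (h : PotIn r V) : BM (Vc V) := by
  obtain ⟨M, hM⟩ := h.bounded
  refine ⟨(Complex.measurable_ofReal.comp h.measurable).aestronglyMeasurable, M,
    Filter.Eventually.of_forall fun x => ?_⟩
  unfold Vc
  rw [Complex.norm_real]
  exact hM x

theorem exists_PotIn {V₁ V₂ : E3 → ℝ} (h₁ : IsPotential V₁) (h₂ : IsPotential V₂) :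
    ∃ r : ℝ, 0 < r ∧ PotIn r V₁ ∧ PotIn r V₂ := by
  obtain ⟨r₁, hr₁⟩ := h₁.compact_support
  obtain ⟨r₂, hr₂⟩ := h₂.compact_support
  refine ⟨max (max r₁ r₂) 0 + 1, ?_, ⟨h₁.measurable, h₁.bounded, fun x hx => ?_⟩,
    ⟨h₂.measurable, h₂.bounded, fun x hx => ?_⟩⟩
  · have := le_max_right (max r₁ r₂) 0
    linarith
  · apply hr₁
    have h3 : r₁ ≤ max (max r₁ r₂) 0 := (le_max_left _ _).trans (le_max_left _ _)
    linarith
  · apply hr₂
    have h3 : r₂ ≤ max (max r₁ r₂) 0 := (le_max_right _ _).trans (le_max_left _ _)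
    linarith

end FracScat

end
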