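import Pool.Agent.Lib.MP_6e2ba5_an.KopA
import Pool.Agent.Lib.MP_6e2ba5_an.KopDiff
import Pool.Agent.Lib.MP_6e2ba5_an.Ueq

/-! # The Lippmann-Schwinger equation on the ball: solution, continuity, analyticity

`exists_K`: `‖Tk‖ ≤ ‖Kop‖ ‖V‖∞ ≤ C ‖k‖^(1-2s) M → 0` since `2 s > 1`.
`uk_eq`: `‖Tk‖ ≤ 1/2 < 1`, so `1 - Tk` is a unit (`isUnit_one_sub_of_norm_lt_one`), and
`Ring.inverse` is its inverse.
`ev` is analytic in `k` as an `L²`-valued function: `e^{i k θ·x}` on a bounded set; e.g. show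
`HasDerivAt (ev r θ) (..) k` from `|e^w - 1 - w| ≤ |w|² e^{|w|}`.
`Ffun` is a bilinear continuous expression in `ev` and `mulL (Vc V) (Ring.inverse (1-Tk) ev)`;
`Ring.inverse` is continuous and differentiable at units
(`NormedRing.inverse_continuousAt`, `differentiableAt_inverse`); the bilinear pairing is
`∫ f g = ⟪star f, g⟫`, bounded by `norm_integral_mul_le`
(`LinearMap.mkContinuous₂` or `IsBoundedBilinearMap`). -/

set_option autoImplicit false

open MeasureTheory Filter Topology Set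
open scoped FourierTransform SchwartzMap InnerProductSpace ENNReal

noncomputable section

namespace FracScat

/-- The wave numbers used below. -/
def Reg (K : ℝ) : Set ℂ := {k | 0 ≤ k.re ∧ 0 ≤ k.im ∧ K ≤ ‖k‖}

/-- The interior of `Reg K`. -/
def RegO (K : ℝ) : Set ℂ := {k | 0 < k.re ∧ 0 < k.im ∧ K < ‖k‖}

private lemma UeqA_quad {K : ℝ} (hK : 1 ≤ K) {k : ℂ} (hk : k ∈ Reg K) : k ∈ Quad ∧ 1 ≤ ‖k‖ := by
  obtain ⟨h1, h2, h3⟩ := hk
  refine ⟨⟨h1, h2, ?_⟩, hK.trans h3⟩
  intro h0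
  rw [h0, norm_zero] at h3
  linarith

theorem exists_K {s : ℝ} (h0 : 1 / 2 < s) (h2 : s < 2) {r : ℝ} (hr : 0 < r) {V : E3 → ℝ}
    (hV : PotIn r V) : ∃ K : ℝ, 1 ≤ K ∧ ∀ k ∈ Reg K, ‖Tk s r V k‖ ≤ 1 / 2 := by
  obtain ⟨C, hC, hKop⟩ := Kop_norm (s := s) (by linarith) h2 hr.le
  set M : ℝ := ‖mulL (Vc V)‖ with hM
  have hM0 : 0 ≤ M := norm_nonneg _
  have ht : Tendsto (fun K : ℝ => C * K ^ (-(2 * s - 1)) * M) atTop (𝓝 (C * 0 * M)) :=
    ((tendsto_rpow_neg_atTop (by linarith)).const_mul C).mul_const M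
  rw [mul_zero, zero_mul] at ht
  obtain ⟨K, hK1, hK2⟩ := ((ht.eventually_le_const (by norm_num : (0 : ℝ) < 1 / 2)).and
    (eventually_ge_atTop (1 : ℝ))).exists
  refine ⟨K, hK2, ?_⟩
  intro k hk
  obtain ⟨hq, hk1⟩ := UeqA_quad hK2 hk
  have hkK : K ≤ ‖k‖ := hk.2.2
  have e1 : ‖Tk s r V k‖ ≤ ‖Kop s r k‖ * M := ContinuousLinearMap.opNorm_comp_le _ _
  have e2 : ‖k‖ ^ (1 - 2 * s) ≤ K ^ (-(2 * s - 1)) := by
    rw [neg_sub]
    exact Real.rpow_le_rpow_of_nonpos (by linarith) hkK (by linarith)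
  calc ‖Tk s r V k‖ ≤ ‖Kop s r k‖ * M := e1
    _ ≤ (C * ‖k‖ ^ (1 - 2 * s)) * M := mul_le_mul_of_nonneg_right (hKop k hq hk1) hM0
    _ ≤ (C * K ^ (-(2 * s - 1))) * M :=
        mul_le_mul_of_nonneg_right (mul_le_mul_of_nonneg_left e2 hC) hM0
    _ ≤ 1 / 2 := hK1

private lemma UeqA_unit {s r : ℝ} {V : E3 → ℝ} {k : ℂ} (hT : ‖Tk s r V k‖ ≤ 1 / 2) :
    IsUnit (1 - Tk s r V k) :=
  isUnit_one_sub_of_norm_lt_one (lt_of_le_of_lt hT (by norm_num))

theorem uk_eq {s r : ℝ} {V : E3 → ℝ} {θ : E3} {k : ℂ} (hT : ‖Tk s r V k‖ ≤ 1 / 2) :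
    uk s r V θ k = ev r θ k + Kop s r k (mulL (Vc V) (uk s r V θ k)) := by
  have h1 := Ring.mul_inverse_cancel _ (UeqA_unit hT)
  have h2 : (1 - Tk s r V k) (uk s r V θ k) = ev r θ k := by
    have h3 := congrArg (fun A : HS →L[ℂ] HS => A (ev r θ k)) h1
    exact h3
  have h4 : uk s r V θ k - Kop s r k (mulL (Vc V) (uk s r V θ k)) = ev r θ k := h2
  rw [← h4]
  abel

private lemma UeqA_inner {r : ℝ} (θ : E3) {x : E3} (hx : ‖x‖ < r) : |⟪θ, x⟫_ℝ| ≤ ‖θ‖ * |r| := by
  refine (abs_real_inner_le_norm θ x).trans ?_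
  exact mul_le_mul_of_nonneg_left (hx.le.trans (le_abs_self r)) (norm_nonneg _)

private lemma UeqA_pw (k : ℂ) (θ x : E3) : ‖planeWave k θ x‖ ≤ Real.exp (‖k‖ * |⟪θ, x⟫_ℝ|) := by
  unfold planeWave
  rw [Complex.norm_exp]
  apply Real.exp_le_exp.2
  refine (Complex.re_le_norm _).trans ?_
  rw [norm_mul, norm_mul, Complex.norm_I, one_mul, Complex.norm_real, Real.norm_eq_abs]

theorem ev_diff (r : ℝ) (θ : E3) : Differentiable ℂ (ev r θ) := by
  intro k
  set ρ : ℝ := ‖θ‖ * |r| with hρ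
  have hρ0 : 0 ≤ ρ := by positivity
  set m : E3 → ℂ := fun x => indB r x * (planeWave k θ x * (Complex.I * ((⟪θ, x⟫_ℝ : ℝ) : ℂ))) with hm
  have hBM : BM m := by
    refine ⟨(indB_BM r).1.mul ?_, Real.exp (‖k‖ * ρ) * ρ, Eventually.of_forall fun x => ?_⟩
    · apply Continuous.aestronglyMeasurable
      unfold planeWave
      fun_prop
    · simp only [hm]
      unfold indB
      split_ifs with hx
      · rw [one_mul, norm_mul, norm_mul, Complex.norm_I, one_mul, Complex.norm_real, Real.norm_eq_abs]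
        have h1 := UeqA_inner θ hx
        refine mul_le_mul ((UeqA_pw k θ x).trans (Real.exp_le_exp.2 ?_)) h1 (abs_nonneg _)
          (Real.exp_pos _).le
        exact mul_le_mul_of_nonneg_left h1 (norm_nonneg _)
      · rw [zero_mul, norm_zero]
        positivity
  have hD : HasDerivAt (ev r θ) (mulL m (ev r θ 0)) k := by
    rw [hasDerivAt_iff_isLittleO_nhds_zero]
    have hO : (fun h : ℂ => ev r θ (k + h) - ev r θ k - h • mulL m (ev r θ 0)) =O[𝓝 0]
        fun h : ℂ => h ^ 2 := by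
      refine Asymptotics.IsBigO.of_bound (Real.exp (‖k‖ * ρ) * ρ ^ 2 * ‖ev r θ 0‖) ?_
      have ht : Tendsto (fun h : ℂ => ‖h‖ * ρ) (𝓝 0) (𝓝 (‖(0 : ℂ)‖ * ρ)) :=
        (continuous_norm.mul continuous_const).tendsto 0
      rw [norm_zero, zero_mul] at ht
      filter_upwards [ht.eventually_le_const (by norm_num : (0 : ℝ) < 1)] with h hh
      have hle : ‖ev r θ (k + h) - ev r θ k - h • mulL m (ev r θ 0)‖ ≤
          (Real.exp (‖k‖ * ρ) * (‖h‖ * ρ) ^ 2) * ‖ev r θ 0‖ := by
        refine Lp.norm_le_mul_norm_of_ae_le_mul ?_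
        filter_upwards [Lp.coeFn_sub (ev r θ (k + h) - ev r θ k) (h • mulL m (ev r θ 0)),
          Lp.coeFn_sub (ev r θ (k + h)) (ev r θ k), Lp.coeFn_smul h (mulL m (ev r θ 0)),
          mulL_coe hBM (ev r θ 0), ev_coe r θ (k + h), ev_coe r θ k, ev_coe r θ 0] with x a1 a2 a3 a4 a5 a6 a7
        rw [a1, Pi.sub_apply, a2, Pi.sub_apply, a3, Pi.smul_apply, a4, a5, a6, a7, smul_eq_mul]
        simp only [hm]
        unfold indB
        split_ifs with hx
        · have h1 := UeqA_inner θ hx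
          have e0 : planeWave 0 θ x = 1 := by
            unfold planeWave
            simp
          have e1 : planeWave (k + h) θ x =
              planeWave k θ x * Complex.exp (Complex.I * h * ((⟪θ, x⟫_ℝ : ℝ) : ℂ)) := by
            unfold planeWave
            rw [← Complex.exp_add]
            congr 1
            ring
          rw [e0, e1]
          have e2 : (1 : ℂ) * (planeWave k θ x * Complex.exp (Complex.I * h * ((⟪θ, x⟫_ℝ : ℝ) : ℂ))) -
              1 * planeWave k θ x -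
              h * (1 * (planeWave k θ x * (Complex.I * ((⟪θ, x⟫_ℝ : ℝ) : ℂ))) * (1 * 1)) =
              planeWave k θ x * (Complex.exp (Complex.I * h * ((⟪θ, x⟫_ℝ : ℝ) : ℂ)) - 1 -
                Complex.I * h * ((⟪θ, x⟫_ℝ : ℝ) : ℂ)) := by
            ring
          rw [e2, norm_mul]
          have e3 : ‖Complex.I * h * ((⟪θ, x⟫_ℝ : ℝ) : ℂ)‖ ≤ ‖h‖ * ρ := by
            rw [norm_mul, norm_mul, Complex.norm_I, one_mul, Complex.norm_real, Real.norm_eq_abs]
            exact mul_le_mul_of_nonneg_left h1 (norm_nonneg _)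
          have e4 := Complex.norm_exp_sub_one_sub_id_le (e3.trans hh)
          have e5 : ‖(1 : ℂ) * 1‖ = 1 := by simp
          rw [e5, mul_one]
          refine mul_le_mul ((UeqA_pw k θ x).trans (Real.exp_le_exp.2 ?_))
            (e4.trans (pow_le_pow_left₀ (norm_nonneg _) e3 2)) (norm_nonneg _) (Real.exp_pos _).le
          exact mul_le_mul_of_nonneg_left h1 (norm_nonneg _)
        · simp
      refine hle.trans (le_of_eq ?_)
      rw [norm_pow]
      ring
    exact hO.trans_isLittleO (Asymptotics.isLittleO_pow_id one_lt_two)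
  exact hD.differentiableAt

/-- The bilinear pairing. -/
private def UeqA_B : HS →L[ℂ] HS →L[ℂ] ℂ :=
  LinearMap.mkContinuous₂
    (LinearMap.mk₂ ℂ (fun f g : HS => ∫ x, (f : E3 → ℂ) x * (g : E3 → ℂ) x)
      (fun f f' g => by
        rw [← integral_add (integrable_mul f g) (integrable_mul f' g)]
        apply integral_congr_ae
        filter_upwards [Lp.coeFn_add f f'] with x hx
        rw [hx, Pi.add_apply]
        ring)
      (fun c f g => by
        rw [smul_eq_mul, ← integral_const_mul]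
        apply integral_congr_ae
        filter_upwards [Lp.coeFn_smul c f] with x hx
        rw [hx, Pi.smul_apply, smul_eq_mul]
        ring)
      (fun f g g' => by
        rw [← integral_add (integrable_mul f g) (integrable_mul f g')]
        apply integral_congr_ae
        filter_upwards [Lp.coeFn_add g g'] with x hx
        rw [hx, Pi.add_apply]
        ring)
      (fun c f g => by
        rw [smul_eq_mul, ← integral_const_mul]
        apply integral_congr_ae
        filter_upwards [Lp.coeFn_smul c g] with x hx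
        rw [hx, Pi.smul_apply, smul_eq_mul]
        ring))
    1 (fun f g => by
      rw [one_mul]
      exact norm_integral_mul_le f g)

private lemma UeqA_F (s r : ℝ) (V : E3 → ℝ) (θ : E3) (k : ℂ) : Ffun s r V θ k =
    UeqA_B (ev r θ k) (mulL (Vc V) (Ring.inverse (1 - Kop s r k ∘L mulL (Vc V)) (ev r θ k))) := rfl

theorem Ffun_cont {s : ℝ} (h0 : 1 / 2 < s) (h2 : s < 2) {r : ℝ} (hr : 0 < r) {V : E3 → ℝ}
    (hV : PotIn r V) (θ : E3) {K : ℝ} (hK : 1 ≤ K) (hT : ∀ k ∈ Reg K, ‖Tk s r V k‖ ≤ 1 / 2) :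
    ContinuousOn (Ffun s r V θ) (Reg K) := by
  have hev : ContinuousOn (ev r θ) (Reg K) := (ev_diff r θ).continuous.continuousOn
  have hKop : ContinuousOn (Kop s r) (Reg K) :=
    (Kop_cont (s := s) (by linarith) h2 hr.le).mono fun k hk => (UeqA_quad hK hk).1
  have hinv : ContinuousOn (fun k => Ring.inverse (1 - Kop s r k ∘L mulL (Vc V))) (Reg K) := by
    intro k hk
    obtain ⟨u, hu⟩ := UeqA_unit (hT k hk)
    have h1 : ContinuousWithinAt (fun k => 1 - Kop s r k ∘L mulL (Vc V)) (Reg K) k :=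
      continuousWithinAt_const.sub ((hKop k hk).clm_comp continuousWithinAt_const)
    have h3 := NormedRing.inverse_continuousAt u
    rw [hu] at h3
    exact ContinuousAt.comp_continuousWithinAt (g := Ring.inverse) h3 h1
  have h4 : ContinuousOn (fun k => UeqA_B (ev r θ k) (mulL (Vc V)
      (Ring.inverse (1 - Kop s r k ∘L mulL (Vc V)) (ev r θ k)))) (Reg K) := by
    refine ContinuousOn.clm_apply (UeqA_B.continuous.comp_continuousOn hev) ?_
    exact (mulL (Vc V)).continuous.comp_continuousOn (hinv.clm_apply hev)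
  exact h4

theorem Ffun_diff {s : ℝ} (h0 : 1 / 2 < s) (h2 : s < 2) {r : ℝ} (hr : 0 < r) {V : E3 → ℝ}
    (hV : PotIn r V) (θ : E3) {K : ℝ} (hK : 1 ≤ K) (hT : ∀ k ∈ Reg K, ‖Tk s r V k‖ ≤ 1 / 2) :
    DifferentiableOn ℂ (Ffun s r V θ) (RegO K) := by
  have hsub : RegO K ⊆ Reg K := fun k hk => ⟨hk.1.le, hk.2.1.le, hk.2.2.le⟩
  have hev : DifferentiableOn ℂ (ev r θ) (RegO K) := (ev_diff r θ).differentiableOn
  have hKop : DifferentiableOn ℂ (Kop s r) (RegO K) :=
    (Kop_diff (s := s) (by linarith) h2 hr.le).mono fun k hk => ⟨hk.1, hk.2.1⟩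
  have hinv : DifferentiableOn ℂ (fun k => Ring.inverse (1 - Kop s r k ∘L mulL (Vc V))) (RegO K) := by
    intro k hk
    have h1 : DifferentiableWithinAt ℂ (fun k => 1 - Kop s r k ∘L mulL (Vc V)) (RegO K) k :=
      (differentiableWithinAt_const _).sub ((hKop k hk).clm_comp (differentiableWithinAt_const _))
    exact h1.inverse (UeqA_unit (hT k (hsub hk)))
  have h4 : DifferentiableOn ℂ (fun k => UeqA_B (ev r θ k) (mulL (Vc V)
      (Ring.inverse (1 - Kop s r k ∘L mulL (Vc V)) (ev r θ k)))) (RegO K) := by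
    refine DifferentiableOn.clm_apply (UeqA_B.differentiable.comp_differentiableOn hev) ?_
    exact (mulL (Vc V)).differentiable.comp_differentiableOn (hinv.clm_apply hev)
  exact h4

end FracScat

end
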