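import Pool.Agent.Lib.MP_6e2ba5_an.FracPair

/-! # Test functions multiplied by a real exponential

`ψ = g exp(τ θ·x)`, `g` smooth with compact support in `{a ≤ -θ·x}`: there
`exp(τ θ·x) ≤ exp(-aτ)`. `Δ² ψ = (L_τ² g) exp(τ θ·x)`, `L_τ g = Δ g + 2τ ∂_θ g + τ² |θ|² g`,
so `‖Δ² ψ‖₂ ≤ C (1+τ)^4 exp(-aτ)`. On the Fourier side `a^(2s) ≤ 1 + a⁴` (`a = 2π|ξ|`,
`0 < s < 2`) and `|a⁴ FT ψ| = |FT (Δ² ψ)|`, so `‖(-Δ)^s ψ‖₂ ≤ ‖ψ‖₂ + ‖Δ² ψ‖₂`
(`FT_fracLap`; `∫ v w ≤ ‖v‖ ‖w‖`). -/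

set_option autoImplicit false

open MeasureTheory Filter Topology Set
open scoped FourierTransform SchwartzMap InnerProductSpace ENNReal ContDiff

noncomputable section

namespace FracScat

open scoped LineDeriv

private lemma norm_toH_le {ψ : E3 → ℂ} (hψ : MemLp ψ 2 volume) {S : E3 → ℝ}
    (hS : MemLp S 2 volume) {c : ℝ} (hc : 0 ≤ c) (h : ∀ x, ‖ψ x‖ ≤ c * ‖S x‖) :
    ‖toH ψ‖ ≤ c * (eLpNorm S 2 volume).toReal := by
  classical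
  have h1 : toH ψ = hψ.toLp ψ := by simp [toH, hψ]
  rw [h1, Lp.norm_toLp]
  have h2 := eLpNorm_le_mul_eLpNorm_of_ae_le_mul (μ := (volume : Measure E3))
    (Eventually.of_forall h) 2
  calc (eLpNorm ψ 2 volume).toReal ≤ (ENNReal.ofReal c * eLpNorm S 2 volume).toReal :=
        ENNReal.toReal_mono (ENNReal.mul_ne_top ENNReal.ofReal_ne_top hS.eLpNorm_ne_top) h2
    _ = c * (eLpNorm S 2 volume).toReal := by
        rw [ENNReal.toReal_mul, ENNReal.toReal_ofReal hc]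

private lemma norm_le_add_of_ae (f g h : HS) (hle : ∀ᵐ x ∂(volume : Measure E3),
    ‖f x‖ ≤ ‖g x‖ + ‖h x‖) : ‖f‖ ≤ ‖g‖ + ‖h‖ := by
  rw [Lp.norm_def, Lp.norm_def, Lp.norm_def, ← ENNReal.toReal_add (Lp.eLpNorm_ne_top g)
    (Lp.eLpNorm_ne_top h)]
  apply ENNReal.toReal_mono (ENNReal.add_ne_top.mpr ⟨Lp.eLpNorm_ne_top g, Lp.eLpNorm_ne_top h⟩)
  have h1 : eLpNorm f 2 (volume : Measure E3) ≤
      eLpNorm ((fun x => ‖g x‖) + (fun x => ‖h x‖)) 2 volume := by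
    apply eLpNorm_mono_ae
    filter_upwards [hle] with x hx
    rw [Pi.add_apply, Real.norm_of_nonneg (add_nonneg (norm_nonneg _) (norm_nonneg _))]
    exact hx
  refine h1.trans ?_
  refine (eLpNorm_add_le (Lp.aestronglyMeasurable g).norm (Lp.aestronglyMeasurable h).norm
    (by norm_num)).trans ?_
  rw [eLpNorm_norm, eLpNorm_norm]

private lemma fourier_lap (f : 𝓢(E3, ℂ)) (ξ : E3) :
    𝓕 ((Laplacian.laplacian f : 𝓢(E3, ℂ)) : E3 → ℂ) ξ =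
      (-((2 * Real.pi * ‖ξ‖) ^ 2 : ℝ) : ℂ) * 𝓕 (f : E3 → ℂ) ξ := by
  rw [← SchwartzMap.fourier_coe, ← SchwartzMap.fourier_coe]
  rw [SchwartzMap.laplacian_eq_fourierMultiplierCLM]
  have hsm : (𝓕 (-(2 * Real.pi) ^ 2 • SchwartzMap.fourierMultiplierCLM ℂ (‖·‖ ^ 2) f : 𝓢(E3, ℂ)))
      = -(2 * Real.pi) ^ 2 • 𝓕 (SchwartzMap.fourierMultiplierCLM ℂ (‖·‖ ^ 2) f : 𝓢(E3, ℂ)) := by
    rw [FourierTransform.fourier_smul]
  rw [hsm, SchwartzMap.fourierMultiplierCLM_apply, FourierTransform.fourier_fourierInv_eq,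
    _root_.smul_apply]
  have ht : (fun x : E3 => ‖x‖ ^ 2).HasTemperateGrowth := by fun_prop
  have e : (SchwartzMap.smulLeftCLM ℂ (‖·‖ ^ 2 : E3 → ℝ) (𝓕 f)) ξ = (‖ξ‖ ^ 2) • (𝓕 f) ξ :=
    SchwartzMap.smulLeftCLM_apply_apply ht (𝓕 f) ξ
  rw [e, smul_smul, Complex.real_smul]
  congr 1
  push_cast
  ring

/-- `‖(-Δ)^s ψ‖₂ ≤ ‖ψ‖₂ + ‖Δ² ψ‖₂`. -/
theorem norm_fracLap_le {s : ℝ} (h0 : 1 / 2 < s) (h2 : s < 2) (ψ : 𝓢(E3, ℂ)) :
    ‖toH (fracLap s ψ)‖ ≤ ‖toH (ψ : E3 → ℂ)‖ +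
      ‖toH ((Laplacian.laplacian (Laplacian.laplacian ψ) : 𝓢(E3, ℂ)) : E3 → ℂ)‖ := by
  rw [← FT.norm_map (toH (fracLap s ψ)), ← FT.norm_map (toH (ψ : E3 → ℂ)),
    ← FT.norm_map (toH ((Laplacian.laplacian (Laplacian.laplacian ψ) : 𝓢(E3, ℂ)) : E3 → ℂ))]
  apply norm_le_add_of_ae
  filter_upwards [FT_fracLap h0 h2 ψ, FT_schwartz ψ,
    FT_schwartz (Laplacian.laplacian (Laplacian.laplacian ψ) : 𝓢(E3, ℂ))] with ξ e1 e2 e3
  rw [e1, e2, e3, fourier_lap, fourier_lap]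
  set a : ℝ := 2 * Real.pi * ‖ξ‖ with ha
  have ha0 : 0 ≤ a := by positivity
  set F : ℂ := 𝓕 (ψ : E3 → ℂ) ξ with hF
  have e4 : ((-((a ^ 2 : ℝ)) : ℂ)) * ((-((a ^ 2 : ℝ)) : ℂ) * F) = ((a ^ 4 : ℝ) : ℂ) * F := by
    push_cast
    ring
  rw [e4, norm_mul, norm_mul, Complex.norm_real, Complex.norm_real,
    Real.norm_of_nonneg (Real.rpow_nonneg ha0 _), Real.norm_of_nonneg (pow_nonneg ha0 4)]
  have key : a ^ (2 * s) ≤ 1 + a ^ 4 := by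
    rcases le_or_gt a 1 with h | h
    · have := Real.rpow_le_one ha0 h (by linarith : (0 : ℝ) ≤ 2 * s)
      have h4 := pow_nonneg ha0 4
      linarith
    · have h4 : 2 * s ≤ ((4 : ℕ) : ℝ) := by
        push_cast
        linarith
      have := Real.rpow_le_rpow_of_exponent_le h.le h4
      rw [Real.rpow_natCast] at this
      linarith
  have := mul_le_mul_of_nonneg_right key (norm_nonneg F)
  linarith

private def PE (θ : E3) (K : Set E3) (n : ℕ) (Ψ : ℝ → 𝓢(E3, ℂ)) : Prop :=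
  ∃ G : ℕ → 𝓢(E3, ℂ), (∀ j, tsupport (G j : E3 → ℂ) ⊆ K) ∧
    ∀ (τ : ℝ) (x : E3), Ψ τ x = (∑ j ∈ Finset.range (n + 1), (τ : ℂ) ^ j * G j x) *
      ((Real.exp (τ * ⟪θ, x⟫_ℝ) : ℝ) : ℂ)

private lemma tsup_add {f g : 𝓢(E3, ℂ)} {K : Set E3} (hf : tsupport (f : E3 → ℂ) ⊆ K)
    (hg : tsupport (g : E3 → ℂ) ⊆ K) : tsupport ((f + g : 𝓢(E3, ℂ)) : E3 → ℂ) ⊆ K := by
  have h1 : tsupport ((f + g : 𝓢(E3, ℂ)) : E3 → ℂ) ⊆
      tsupport (f : E3 → ℂ) ∪ tsupport (g : E3 → ℂ) := by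
    unfold tsupport
    rw [← closure_union]
    apply closure_mono
    intro x hx
    by_contra hcon
    simp only [mem_union, Function.mem_support, not_or, not_not] at hcon
    exact hx (by rw [_root_.add_apply, hcon.1, hcon.2, add_zero])
  exact h1.trans (union_subset hf hg)

private lemma tsup_smul {f : 𝓢(E3, ℂ)} {K : Set E3} (hf : tsupport (f : E3 → ℂ) ⊆ K) (c : ℂ) :
    tsupport ((c • f : 𝓢(E3, ℂ)) : E3 → ℂ) ⊆ K := by
  refine Subset.trans ?_ hf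
  apply closure_mono
  intro x hx
  by_contra hcon
  simp only [Function.mem_support, not_not] at hcon
  exact hx (by rw [_root_.smul_apply, hcon, smul_zero])

private lemma tsup_zero {K : Set E3} : tsupport ((0 : 𝓢(E3, ℂ)) : E3 → ℂ) ⊆ K := by
  have : ((0 : 𝓢(E3, ℂ)) : E3 → ℂ) = 0 := by ext x; simp
  rw [this]
  simp [tsupport]

private lemma PE.add {θ : E3} {K : Set E3} {n : ℕ} {Ψ Φ : ℝ → 𝓢(E3, ℂ)} (h : PE θ K n Ψ)
    (h' : PE θ K n Φ) : PE θ K n (fun τ => Ψ τ + Φ τ) := by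
  obtain ⟨G, hG, hΨ⟩ := h
  obtain ⟨G', hG', hΦ⟩ := h'
  refine ⟨fun j => G j + G' j, fun j => tsup_add (hG j) (hG' j), fun τ x => ?_⟩
  rw [_root_.add_apply, hΨ, hΦ, ← add_mul, ← Finset.sum_add_distrib]
  congr 1
  apply Finset.sum_congr rfl
  intro j _
  rw [_root_.add_apply]
  ring

private lemma hasLine_exp (θ m x : E3) (τ : ℝ) :
    HasDerivAt (fun t : ℝ => ((Real.exp (τ * ⟪θ, x + t • m⟫_ℝ) : ℝ) : ℂ))
      (((Real.exp (τ * ⟪θ, x⟫_ℝ) : ℝ) : ℂ) * ((τ : ℂ) * ((⟪θ, m⟫_ℝ : ℝ) : ℂ))) 0 := by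
  have h1 : HasDerivAt (fun t : ℝ => τ * ⟪θ, x + t • m⟫_ℝ) (τ * ⟪θ, m⟫_ℝ) 0 := by
    have : (fun t : ℝ => τ * ⟪θ, x + t • m⟫_ℝ) =
        fun t : ℝ => τ * ⟪θ, x⟫_ℝ + t * (τ * ⟪θ, m⟫_ℝ) := by
      ext t
      rw [inner_add_right, inner_smul_right]
      ring
    rw [this]
    simpa using ((hasDerivAt_id (0 : ℝ)).mul_const (τ * ⟪θ, m⟫_ℝ)).const_add (τ * ⟪θ, x⟫_ℝ)
  have h2 := h1.exp.ofReal_comp
  refine h2.congr_deriv ?_
  rw [zero_smul, add_zero]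
  push_cast
  ring

private lemma PE.ld {θ : E3} {K : Set E3} {n : ℕ} {Ψ : ℝ → 𝓢(E3, ℂ)} (h : PE θ K n Ψ)
    (m : E3) : PE θ K (n + 1) (fun τ => ∂_{m} (Ψ τ)) := by
  obtain ⟨G, hG, hΨ⟩ := h
  let A : ℕ → 𝓢(E3, ℂ) := fun j => if j ≤ n then ∂_{m} (G j) else 0
  let B : ℕ → 𝓢(E3, ℂ) := fun j => match j with
    | 0 => 0
    | j + 1 => ((⟪θ, m⟫_ℝ : ℝ) : ℂ) • G j
  refine ⟨fun j => A j + B j, fun j => tsup_add ?_ ?_, fun τ x => ?_⟩
  · by_cases hj : j ≤ n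
    · simp only [A, if_pos hj]
      exact (SchwartzMap.tsupport_lineDerivOp_subset m (G j)).trans (hG j)
    · simp only [A, if_neg hj]
      exact tsup_zero
  · cases j with
    | zero => exact tsup_zero
    | succ j => exact tsup_smul (hG j) _
  · have hGd : ∀ j, HasDerivAt (fun t : ℝ => G j (x + t • m)) ((∂_{m} (G j) : 𝓢(E3, ℂ)) x) 0 := by
      intro j
      have := ((G j).hasFDerivAt x).hasLineDerivAt m
      exact this
    have hsum : HasDerivAt (fun t : ℝ => ∑ j ∈ Finset.range (n + 1), (τ : ℂ) ^ j *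
        G j (x + t • m)) (∑ j ∈ Finset.range (n + 1), (τ : ℂ) ^ j *
          (∂_{m} (G j) : 𝓢(E3, ℂ)) x) 0 :=
      HasDerivAt.fun_sum fun j _ => (hGd j).const_mul ((τ : ℂ) ^ j)
    have hprod := hsum.mul (hasLine_exp θ m x τ)
    have hΨd : HasDerivAt (fun t : ℝ => Ψ τ (x + t • m)) ((∂_{m} (Ψ τ) : 𝓢(E3, ℂ)) x) 0 :=
      ((Ψ τ).hasFDerivAt x).hasLineDerivAt m
    have hfun : (fun t : ℝ => Ψ τ (x + t • m)) =
        (fun t : ℝ => ∑ j ∈ Finset.range (n + 1), (τ : ℂ) ^ j * G j (x + t • m)) *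
          (fun t : ℝ => ((Real.exp (τ * ⟪θ, x + t • m⟫_ℝ) : ℝ) : ℂ)) := by
      ext t
      rw [Pi.mul_apply, hΨ]
    rw [hfun] at hΨd
    have huniq := hΨd.unique hprod
    rw [huniq]
    simp only [zero_smul, add_zero]
    have hA : ∑ j ∈ Finset.range (n + 1 + 1), (τ : ℂ) ^ j * A j x =
        ∑ j ∈ Finset.range (n + 1), (τ : ℂ) ^ j * (∂_{m} (G j) : 𝓢(E3, ℂ)) x := by
      rw [Finset.sum_range_succ]
      have : A (n + 1) = 0 := by simp [A]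
      rw [this, _root_.zero_apply, mul_zero, add_zero]
      apply Finset.sum_congr rfl
      intro j hj
      have : j ≤ n := Nat.lt_succ_iff.mp (Finset.mem_range.mp hj)
      simp only [A, if_pos this]
    have hB : ∑ j ∈ Finset.range (n + 1 + 1), (τ : ℂ) ^ j * B j x =
        ((τ : ℂ) * ((⟪θ, m⟫_ℝ : ℝ) : ℂ)) * ∑ j ∈ Finset.range (n + 1), (τ : ℂ) ^ j * G j x := by
      rw [Finset.sum_range_succ', Finset.mul_sum]
      have : B 0 = 0 := rfl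
      rw [this, _root_.zero_apply, mul_zero, add_zero]
      apply Finset.sum_congr rfl
      intro j _
      have : B (j + 1) x = ((⟪θ, m⟫_ℝ : ℝ) : ℂ) * G j x := rfl
      rw [this]
      ring
    have hAB : ∑ j ∈ Finset.range (n + 1 + 1), (τ : ℂ) ^ j * (A j + B j) x =
        ∑ j ∈ Finset.range (n + 1 + 1), (τ : ℂ) ^ j * A j x +
        ∑ j ∈ Finset.range (n + 1 + 1), (τ : ℂ) ^ j * B j x := by
      rw [← Finset.sum_add_distrib]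
      apply Finset.sum_congr rfl
      intro j _
      rw [_root_.add_apply]
      ring
    rw [hAB, hA, hB]
    ring

private lemma PE.sum {θ : E3} {K : Set E3} {n : ℕ} {ι : Type*} (s : Finset ι)
    {Ψ : ι → ℝ → 𝓢(E3, ℂ)} (h : ∀ i ∈ s, PE θ K n (Ψ i)) :
    PE θ K n (fun τ => ∑ i ∈ s, Ψ i τ) := by
  classical
  induction s using Finset.induction_on with
  | empty =>
    refine ⟨fun _ => 0, fun _ => tsup_zero, fun τ x => ?_⟩
    simp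
  | insert i s hi ih =>
    have h1 := h i (Finset.mem_insert_self i s)
    have h2 := ih fun j hj => h j (Finset.mem_insert_of_mem hj)
    have h3 := h1.add h2
    simpa [Finset.sum_insert hi] using h3

private lemma PE.lap {θ : E3} {K : Set E3} {n : ℕ} {Ψ : ℝ → 𝓢(E3, ℂ)} (h : PE θ K n Ψ) :
    PE θ K (n + 2) (fun τ => (Laplacian.laplacian (Ψ τ) : 𝓢(E3, ℂ))) := by
  have : (fun τ => (Laplacian.laplacian (Ψ τ) : 𝓢(E3, ℂ))) =
      fun τ => ∑ i, ∂_{(stdOrthonormalBasis ℝ E3) i} (∂_{(stdOrthonormalBasis ℝ E3) i} (Ψ τ)) := by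
    ext1 τ
    rw [SchwartzMap.laplacian_eq_sum (stdOrthonormalBasis ℝ E3)]
  rw [this]
  exact PE.sum _ fun i _ => (h.ld _).ld _

private lemma PE.bound {θ : E3} {a : ℝ} {n : ℕ} {Ψ : ℝ → 𝓢(E3, ℂ)}
    (h : PE θ {x | a ≤ -⟪θ, x⟫_ℝ} n Ψ) :
    ∃ C : ℝ, 0 ≤ C ∧ ∀ τ : ℝ, 0 ≤ τ →
      ‖toH (Ψ τ : E3 → ℂ)‖ ≤ C * (1 + τ) ^ n * Real.exp (-(a * τ)) := by
  obtain ⟨G, hG, hΨ⟩ := h
  have hS : MemLp (fun x => ∑ j ∈ Finset.range (n + 1), ‖G j x‖) 2 (volume : Measure E3) :=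
    memLp_finsetSum _ fun j _ => ((G j).memLp 2 volume).norm
  refine ⟨(eLpNorm (fun x => ∑ j ∈ Finset.range (n + 1), ‖G j x‖) 2
    (volume : Measure E3)).toReal, ENNReal.toReal_nonneg, fun τ hτ => ?_⟩
  have h1τ : (1 : ℝ) ≤ 1 + τ := by linarith
  have := norm_toH_le ((Ψ τ).memLp 2 volume) hS
    (c := (1 + τ) ^ n * Real.exp (-(a * τ))) (by positivity) ?_
  · refine this.trans (le_of_eq ?_)
    ring
  · intro x
    rw [hΨ, norm_mul, Complex.norm_real, Real.norm_of_nonneg (Real.exp_pos _).le,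
      Real.norm_of_nonneg (Finset.sum_nonneg fun j _ => norm_nonneg _)]
    by_cases hx : ∀ j, G j x = 0
    · have : ∑ j ∈ Finset.range (n + 1), (τ : ℂ) ^ j * G j x = 0 :=
        Finset.sum_eq_zero fun j _ => by rw [hx j, mul_zero]
      rw [this, norm_zero, zero_mul]
      exact mul_nonneg (by positivity) (Finset.sum_nonneg fun j _ => norm_nonneg _)
    · push Not at hx
      obtain ⟨j, hj⟩ := hx
      have hxK : a ≤ -⟪θ, x⟫_ℝ := hG j (subset_tsupport _ hj)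
      have he : Real.exp (τ * ⟪θ, x⟫_ℝ) ≤ Real.exp (-(a * τ)) := by
        apply Real.exp_le_exp.mpr
        nlinarith
      have hs : ‖∑ j ∈ Finset.range (n + 1), (τ : ℂ) ^ j * G j x‖ ≤
          (1 + τ) ^ n * ∑ j ∈ Finset.range (n + 1), ‖G j x‖ := by
        refine (norm_sum_le _ _).trans ?_
        rw [Finset.mul_sum]
        apply Finset.sum_le_sum
        intro j hj
        rw [norm_mul, norm_pow, Complex.norm_real, Real.norm_of_nonneg hτ]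
        apply mul_le_mul_of_nonneg_right _ (norm_nonneg _)
        calc τ ^ j ≤ (1 + τ) ^ j := pow_le_pow_left₀ hτ (by linarith) j
          _ ≤ (1 + τ) ^ n := pow_le_pow_right₀ h1τ (Nat.lt_succ_iff.mp (Finset.mem_range.mp hj))
      calc _ ≤ ((1 + τ) ^ n * ∑ j ∈ Finset.range (n + 1), ‖G j x‖) * Real.exp (-(a * τ)) :=
            mul_le_mul hs he (Real.exp_pos _).le
              (mul_nonneg (by positivity) (Finset.sum_nonneg fun j _ => norm_nonneg _))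
        _ = _ := by ring

private lemma norm_integral_toH (v : HS) {ψ : E3 → ℂ} (hψ : MemLp ψ 2 volume) :
    ‖∫ x, v x * ψ x‖ ≤ ‖v‖ * ‖toH ψ‖ := by
  have : ∫ x, v x * ψ x = ∫ x, v x * (toH ψ : E3 → ℂ) x := by
    apply integral_congr_ae
    filter_upwards [toH_coe hψ] with x hx
    rw [hx]
  rw [this]
  exact norm_integral_mul_le v (toH ψ)

theorem test_bound {s : ℝ} (h0 : 1 / 2 < s) (h2 : s < 2) (θ : E3) {g : E3 → ℂ}
    (hg : ContDiff ℝ ∞ g) (hgc : HasCompactSupport g) {a : ℝ}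
    (ha : ∀ x, g x ≠ 0 → a ≤ -⟪θ, x⟫_ℝ) :
    ∃ C : ℝ, 0 ≤ C ∧ ∀ τ : ℝ, 0 ≤ τ → ∃ ψ : 𝓢(E3, ℂ),
      (∀ x, ψ x = g x * ((Real.exp (τ * ⟪θ, x⟫_ℝ) : ℝ) : ℂ)) ∧
      ∀ v : HS, ‖∫ x, v x * ψ x‖ ≤ C * Real.exp (-(a * τ)) * ‖v‖ ∧
        ‖∫ x, v x * fracLap s ψ x‖ ≤ C * (1 + τ) ^ 4 * Real.exp (-(a * τ)) * ‖v‖ := by
  have hsmooth : ∀ τ : ℝ, ContDiff ℝ ∞
      (fun x : E3 => g x * ((Real.exp (τ * ⟪θ, x⟫_ℝ) : ℝ) : ℂ)) := by
    intro τ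
    apply hg.mul
    have h1 : ContDiff ℝ ∞ (fun x : E3 => Real.exp (τ * ⟪θ, x⟫_ℝ)) := by
      apply Real.contDiff_exp.comp
      exact contDiff_const.mul (contDiff_const.inner ℝ contDiff_id)
    exact Complex.ofRealCLM.contDiff.comp h1
  have hcs : ∀ τ : ℝ, HasCompactSupport
      (fun x : E3 => g x * ((Real.exp (τ * ⟪θ, x⟫_ℝ) : ℝ) : ℂ)) := fun τ => hgc.mul_right
  let Ψ : ℝ → 𝓢(E3, ℂ) := fun τ => (hcs τ).toSchwartzMap (hsmooth τ)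
  have hΨx : ∀ τ x, Ψ τ x = g x * ((Real.exp (τ * ⟪θ, x⟫_ℝ) : ℝ) : ℂ) := fun τ x => rfl
  let G0 : 𝓢(E3, ℂ) := hgc.toSchwartzMap hg
  have hclosed : IsClosed {x : E3 | a ≤ -⟪θ, x⟫_ℝ} :=
    isClosed_le continuous_const (by fun_prop)
  have hG0 : tsupport (G0 : E3 → ℂ) ⊆ {x : E3 | a ≤ -⟪θ, x⟫_ℝ} :=
    closure_minimal (fun x hx => ha x hx) hclosed
  have hPE : PE θ {x : E3 | a ≤ -⟪θ, x⟫_ℝ} 0 Ψ := by
    refine ⟨fun _ => G0, fun _ => hG0, fun τ x => ?_⟩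
    rw [hΨx]
    simp [G0]
  obtain ⟨C0, hC0, hb0⟩ := hPE.bound
  obtain ⟨C4, hC4, hb4⟩ := hPE.lap.lap.bound
  refine ⟨C0 + C4, add_nonneg hC0 hC4, fun τ hτ => ⟨Ψ τ, hΨx τ, fun v => ⟨?_, ?_⟩⟩⟩
  · have h1 := norm_integral_toH v ((Ψ τ).memLp 2 volume)
    have h3 := hb0 τ hτ
    rw [pow_zero, mul_one] at h3
    calc _ ≤ ‖v‖ * ‖toH (Ψ τ : E3 → ℂ)‖ := h1
      _ ≤ ‖v‖ * (C0 * Real.exp (-(a * τ))) := mul_le_mul_of_nonneg_left h3 (norm_nonneg _)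
      _ ≤ ‖v‖ * ((C0 + C4) * Real.exp (-(a * τ))) := by
          apply mul_le_mul_of_nonneg_left _ (norm_nonneg _)
          apply mul_le_mul_of_nonneg_right _ (Real.exp_pos _).le
          linarith
      _ = _ := by ring
  · have h1 := norm_integral_toH v (fracLap_WL h0 h2 (Ψ τ)).memLp
    have h3 := hb0 τ hτ
    rw [pow_zero, mul_one] at h3
    have h4 := hb4 τ hτ
    have h5 := norm_fracLap_le h0 h2 (Ψ τ)
    have h6 : (1 : ℝ) ≤ (1 + τ) ^ 4 := one_le_pow₀ (by linarith)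
    have h7 : C0 * Real.exp (-(a * τ)) ≤ C0 * (1 + τ) ^ 4 * Real.exp (-(a * τ)) := by
      apply mul_le_mul_of_nonneg_right _ (Real.exp_pos _).le
      exact le_mul_of_one_le_right hC0 h6
    calc _ ≤ ‖v‖ * ‖toH (fracLap s (Ψ τ))‖ := h1
      _ ≤ ‖v‖ * (C0 * (1 + τ) ^ 4 * Real.exp (-(a * τ)) +
          C4 * (1 + τ) ^ 4 * Real.exp (-(a * τ))) := by
          apply mul_le_mul_of_nonneg_left _ (norm_nonneg _)
          exact h5.trans (add_le_add (h3.trans h7) h4)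
      _ = _ := by ring

end FracScat

end
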