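import Pool.Agent.Lib.MP_6e2ba5_an.AxisB
import Pool.Agent.Lib.MP_6e2ba5_an.TestBd

/-! # The supporting half-spaces

Assume `Ffun V₁ = Ffun V₂` at `k = iτ` for all `τ ≥ K` and `V₂ = 0` a.e. on `{c < -θ·x}`.
Take `v₁, v₂` from `axis`. Imaginary parts: `Im z ‖v₁‖² = Im z ‖v₂‖²` (the first terms of `Ffun`
are real), so `‖v₁‖ = ‖v₂‖`, and `|Im z| ‖v₂‖ ≤ ‖V₂ p‖ ≤ C exp(cτ)` (`axis_bounds`).
Let `g` be smooth with compact support in `{c < -θ·x}`; by compactness the support is in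
`{a ≤ -θ·x}` with `a > c`. With `ψ` from `test_bound`:
`∫ V₁ g = ∫ (V₁ p) ψ = ∫ v₁ (-Δ)^s ψ - z ∫ v₁ ψ - ∫ v₁ V₁ ψ`
(for the last term use `mulL (Vc V₁) v₁` in place of `v`), so
`|∫ V₁ g| ≤ C (1+τ)^4 (1+τ^(2s)) exp((c-a)τ) → 0`. Hence `∫ V₁ g = 0` for all such `g` and
`V₁ = 0` a.e. on the open set `{c < -θ·x}`
(`IsOpen.ae_eq_zero_of_integral_contDiff_smul_eq_zero`). -/

set_option autoImplicit false

open MeasureTheory Filter Topology Set
open scoped FourierTransform SchwartzMap InnerProductSpace ENNReal ContDiff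

noncomputable section

namespace FracScat

/-- `pe τ θ x ^ 2 = exp(2τ (-θ·x))`. -/
private theorem pe_sq (τ : ℝ) (θ x : E3) : pe τ θ x ^ 2 = Real.exp (2 * τ * (-⟪θ, x⟫_ℝ)) := by
  rw [pe, ← Real.exp_nat_mul]
  congr 1
  push_cast
  ring

/-- The exponential bound of `nrm2`. -/
private theorem nrm2_le {r : ℝ} {V : E3 → ℝ} (hV : PotIn r V) (θ : E3) {c : ℝ}
    (hc : ∀ᵐ x ∂(volume : Measure E3), c < -⟪θ, x⟫_ℝ → V x = 0) :
    ∃ C : ℝ, 0 ≤ C ∧ ∀ τ : ℝ, 0 ≤ τ → Real.sqrt (nrm2 V τ θ) ≤ C * Real.exp (c * τ) := by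
  obtain ⟨M, hM⟩ := hV.bounded
  have hM0 : 0 ≤ M := (abs_nonneg _).trans (hM 0)
  set W : ℝ := (volume (Metric.ball (0 : E3) r)).toReal with hW
  refine ⟨M * Real.sqrt W, by positivity, fun τ hτ => ?_⟩
  have key : nrm2 V τ θ ≤ (M * Real.sqrt W * Real.exp (c * τ)) ^ 2 := by
    have h1 : nrm2 V τ θ ≤ ∫ x : E3, (Metric.ball (0 : E3) r).indicator
        (fun _ => M ^ 2 * Real.exp (2 * (c * τ))) x := by
      unfold nrm2
      refine integral_mono_of_nonneg (Eventually.of_forall fun x => by positivity) ?_ ?_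
      · rw [integrable_indicator_iff Metric.isOpen_ball.measurableSet]
        exact integrableOn_const (measure_ball_lt_top.ne)
      · filter_upwards [hc] with x hx
        by_cases hxr : x ∈ Metric.ball (0 : E3) r
        · rw [indicator_of_mem hxr]
          by_cases hxc : c < -⟪θ, x⟫_ℝ
          · have e0 : V x ^ 2 * pe τ θ x ^ 2 = 0 := by
              rw [hx hxc]
              ring
            rw [e0]
            positivity
          · have hxc := not_lt.mp hxc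
            rw [pe_sq]
            refine mul_le_mul ?_ ?_ (Real.exp_pos _).le (by positivity)
            · rw [← sq_abs]
              exact pow_le_pow_left₀ (abs_nonneg _) (hM x) 2
            · apply Real.exp_le_exp.mpr
              nlinarith
        · rw [indicator_of_notMem hxr]
          have : V x = 0 := hV.vanish x (by simpa [Metric.mem_ball, dist_zero_right] using hxr)
          rw [this]
          simp
    refine h1.trans (le_of_eq ?_)
    rw [integral_indicator Metric.isOpen_ball.measurableSet, setIntegral_const, smul_eq_mul,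
      mul_pow, mul_pow, Real.sq_sqrt ENNReal.toReal_nonneg, ← Real.exp_nat_mul]
    simp only [Measure.real]
    push_cast
    ring
  calc Real.sqrt (nrm2 V τ θ) ≤ Real.sqrt ((M * Real.sqrt W * Real.exp (c * τ)) ^ 2) :=
        Real.sqrt_le_sqrt key
    _ = M * Real.sqrt W * Real.exp (c * τ) := Real.sqrt_sq (by positivity)

theorem half_space {s : ℝ} (h0 : 1 / 2 < s) (h2 : s < 2) (h1 : s ≠ 1) {r : ℝ} (hr : 0 < r)
    {V₁ V₂ : E3 → ℝ} (hV₁ : PotIn r V₁) (hV₂ : PotIn r V₂) (θ : E3) {K : ℝ} (hK : 1 ≤ K)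
    (hT₁ : ∀ k ∈ Reg K, ‖Tk s r V₁ k‖ ≤ 1 / 2) (hT₂ : ∀ k ∈ Reg K, ‖Tk s r V₂ k‖ ≤ 1 / 2)
    (hF : ∀ τ : ℝ, K ≤ τ → Ffun s r V₁ θ (Complex.I * τ) = Ffun s r V₂ θ (Complex.I * τ))
    {c : ℝ} (hc : ∀ᵐ x ∂(volume : Measure E3), c < -⟪θ, x⟫_ℝ → V₂ x = 0) :
    ∀ᵐ x ∂(volume : Measure E3), c < -⟪θ, x⟫_ℝ → V₁ x = 0 := by
  have hopen : IsOpen {x : E3 | c < -⟪θ, x⟫_ℝ} :=
    isOpen_lt continuous_const (by fun_prop)
  obtain ⟨M, hM⟩ := hV₁.bounded
  have hM0 : 0 ≤ M := (abs_nonneg _).trans (hM 0)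
  obtain ⟨C₂, hC₂0, hC₂⟩ := nrm2_le hV₂ θ hc
  set σ : ℝ := |Real.sin (Real.pi * s)| with hσ
  have hσ0 : 0 < σ := abs_pos.mpr (sin_pi_ne (by linarith) h2 h1)
  -- the imaginary part of `z`
  have hz : ∀ τ : ℝ, 1 ≤ τ → σ ≤ |(zt s τ).im| := by
    intro τ hτ
    rw [zt_im (by linarith), abs_mul]
    have : 1 ≤ |τ ^ (2 * s)| := by
      rw [abs_of_nonneg (Real.rpow_nonneg (by linarith) _)]
      exact Real.one_le_rpow hτ (by linarith)
    nlinarith [abs_nonneg (Real.sin (Real.pi * s))]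
  -- the bound of `v₁`
  have hv : ∀ τ : ℝ, K ≤ τ → ∃ v : HS, ‖v‖ ≤ C₂ / σ * Real.exp (c * τ) ∧
      ∀ ψ : 𝓢(E3, ℂ), ∫ x, ((V₁ x * pe τ θ x : ℝ) : ℂ) * ψ x =
        (∫ x, v x * fracLap s ψ x) - zt s τ * (∫ x, v x * ψ x) -
          ∫ x, v x * ((V₁ x : ℂ) * ψ x) := by
    intro τ hτ
    have hτ0 : 0 < τ := by linarith
    have hmem : Complex.I * (τ : ℂ) ∈ Reg K := by
      refine ⟨by simp, by simpa using hτ0.le, ?_⟩
      rw [norm_mul, Complex.norm_I, one_mul, Complex.norm_real, Real.norm_of_nonneg hτ0.le]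
      exact hτ
    obtain ⟨v₁, hv₁a, hv₁b, hv₁c⟩ := axis h0 h2 hr hV₁ θ hτ0 (hT₁ _ hmem)
    obtain ⟨v₂, hv₂a, hv₂b, -⟩ := axis h0 h2 hr hV₂ θ hτ0 (hT₂ _ hmem)
    have hzpos : 0 < |(zt s τ).im| := hσ0.trans_le (hz τ (by linarith))
    have hzne : (zt s τ).im ≠ 0 := abs_pos.mp hzpos
    have him : (zt s τ).im * ‖v₁‖ ^ 2 = (zt s τ).im * ‖v₂‖ ^ 2 := by
      have e := congrArg Complex.im (hF τ hτ)
      rw [hv₁a, hv₂a, Complex.add_im, Complex.add_im, Complex.ofReal_im, Complex.ofReal_im,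
        hv₁b, hv₂b] at e
      simpa using e
    have hnorm : ‖v₁‖ = ‖v₂‖ := by
      have := mul_left_cancel₀ hzne him
      exact (pow_left_inj₀ (norm_nonneg _) (norm_nonneg _) two_ne_zero).mp this
    refine ⟨v₁, ?_, hv₁c⟩
    have hb := (axis_bounds hV₂ θ hzne v₂ hv₂b).1
    have hb2 : |(zt s τ).im| * ‖v₂‖ ≤ C₂ * Real.exp (c * τ) := hb.trans (hC₂ τ hτ0.le)
    have hb3 : σ * ‖v₂‖ ≤ C₂ * Real.exp (c * τ) :=
      (mul_le_mul_of_nonneg_right (hz τ (by linarith)) (norm_nonneg _)).trans hb2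
    rw [hnorm, div_mul_eq_mul_div, le_div_iff₀ hσ0]
    linarith
  have hVloc : LocallyIntegrable (fun x => V₁ x) (volume : Measure E3) := by
    refine LocallyIntegrable.mono (g := V₁) (f := fun _ : E3 => M) (locallyIntegrable_const M)
      hV₁.measurable.aestronglyMeasurable ?_
    exact Eventually.of_forall fun x => by
      rw [Real.norm_eq_abs, Real.norm_of_nonneg hM0]
      exact hM x
  have main := hopen.ae_eq_zero_of_integral_contDiff_smul_eq_zero (μ := volume)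
    (f := fun x => V₁ x) (hVloc.locallyIntegrableOn _) ?_
  · filter_upwards [main] with x hx hx2
    exact hx hx2
  intro g hg hgc hgs
  -- a strictly larger level
  obtain ⟨a, hca, ha⟩ : ∃ a : ℝ, c < a ∧ ∀ x, g x ≠ 0 → a ≤ -⟪θ, x⟫_ℝ := by
    by_cases hne : (tsupport g).Nonempty
    · obtain ⟨y, hy, hmin⟩ := hgc.isCompact.exists_isMinOn hne
        (f := fun x : E3 => -⟪θ, x⟫_ℝ) (by fun_prop)
      exact ⟨-⟪θ, y⟫_ℝ, hgs hy, fun x hx => hmin (subset_tsupport g hx)⟩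
    · exact ⟨c + 1, by linarith, fun x hx => absurd ⟨x, subset_tsupport g hx⟩ hne⟩
  obtain ⟨C, hC0, hC⟩ := test_bound h0 h2 θ (g := fun x => (g x : ℂ))
    (Complex.ofRealCLM.contDiff.comp hg)
    (hgc.comp_left (g := fun t : ℝ => (t : ℂ)) Complex.ofReal_zero) (a := a)
    (fun x hx => ha x (by simpa using hx))
  -- the estimate
  have hest : ∀ τ : ℝ, K ≤ τ → |∫ x, g x • V₁ x| ≤
      C * (2 + M) * (C₂ / σ) * ((1 + τ) ^ 4 * Real.exp (-((a - c) * τ))) := by
    intro τ hτ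
    have hτ0 : 0 < τ := by linarith
    obtain ⟨v, hvn, hvp⟩ := hv τ hτ
    obtain ⟨ψ, hψ, hψb⟩ := hC τ hτ0.le
    have e1 : ((∫ x, g x • V₁ x : ℝ) : ℂ) = ∫ x, ((V₁ x * pe τ θ x : ℝ) : ℂ) * ψ x := by
      rw [← integral_complex_ofReal]
      refine integral_congr_ae (Eventually.of_forall fun x => ?_)
      simp only [hψ x, pe]
      rw [smul_eq_mul]
      have : Real.exp (-(τ * ⟪θ, x⟫_ℝ)) * Real.exp (τ * ⟪θ, x⟫_ℝ) = 1 := by
        rw [← Real.exp_add]
        simp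
      have h' : ((Real.exp (-(τ * ⟪θ, x⟫_ℝ)) : ℝ) : ℂ) * ((Real.exp (τ * ⟪θ, x⟫_ℝ) : ℝ) : ℂ) = 1 := by
        rw [← Complex.ofReal_mul, this, Complex.ofReal_one]
      rw [Complex.ofReal_mul, Complex.ofReal_mul]
      linear_combination (-(g x : ℂ) * (V₁ x : ℂ)) * h'
    have e2 : ‖∫ x, v x * ψ x‖ ≤ C * Real.exp (-(a * τ)) * ‖v‖ := (hψb v).1
    have e3 : ‖∫ x, v x * fracLap s ψ x‖ ≤ C * (1 + τ) ^ 4 * Real.exp (-(a * τ)) * ‖v‖ := (hψb v).2
    have e4 : ‖∫ x, v x * ((V₁ x : ℂ) * ψ x)‖ ≤ C * Real.exp (-(a * τ)) * (M * ‖v‖) := by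
      have hh : ∫ x, v x * ((V₁ x : ℂ) * ψ x) = ∫ x, (mulL (Vc V₁) v : E3 → ℂ) x * ψ x := by
        refine integral_congr_ae ?_
        filter_upwards [mulL_coe hV₁.BM v] with x hx
        rw [hx, Vc]
        ring
      rw [hh]
      refine (hψb _).1.trans ?_
      refine mul_le_mul_of_nonneg_left ?_ (by positivity)
      refine ((mulL (Vc V₁)).le_opNorm v).trans ?_
      refine mul_le_mul_of_nonneg_right ?_ (norm_nonneg _)
      refine norm_mulL_le hV₁.BM hM0 (Eventually.of_forall fun x => ?_)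
      rw [Vc, Complex.norm_real, Real.norm_eq_abs]
      exact hM x
    have e5 : ‖zt s τ‖ ≤ (1 + τ) ^ 4 := by
      rw [zt_norm hτ0]
      calc τ ^ (2 * s) ≤ (1 + τ) ^ (2 * s) :=
            Real.rpow_le_rpow hτ0.le (by linarith) (by linarith)
        _ ≤ (1 + τ) ^ (4 : ℝ) := Real.rpow_le_rpow_of_exponent_le (by linarith) (by linarith)
        _ = (1 + τ) ^ 4 := by
            rw [← Real.rpow_natCast]
            norm_num
    have hP : 1 ≤ (1 + τ) ^ 4 := one_le_pow₀ (by linarith)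
    have hE : 0 < Real.exp (-(a * τ)) := Real.exp_pos _
    have e6 : |∫ x, g x • V₁ x| ≤ C * (2 + M) * ((1 + τ) ^ 4 * Real.exp (-(a * τ))) * ‖v‖ := by
      have e7 : |∫ x, g x • V₁ x| = ‖((∫ x, g x • V₁ x : ℝ) : ℂ)‖ := by
        rw [Complex.norm_real, Real.norm_eq_abs]
      rw [e7, e1, hvp ψ]
      calc ‖(∫ x, v x * fracLap s ψ x) - zt s τ * (∫ x, v x * ψ x) -
            ∫ x, v x * ((V₁ x : ℂ) * ψ x)‖
          ≤ ‖∫ x, v x * fracLap s ψ x‖ + ‖zt s τ‖ * ‖∫ x, v x * ψ x‖ +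
            ‖∫ x, v x * ((V₁ x : ℂ) * ψ x)‖ := by
              refine (norm_sub_le _ _).trans (add_le_add_left ?_ _)
              refine (norm_sub_le _ _).trans (add_le_add_right ?_ _)
              rw [norm_mul]
        _ ≤ C * (1 + τ) ^ 4 * Real.exp (-(a * τ)) * ‖v‖ +
            (1 + τ) ^ 4 * (C * Real.exp (-(a * τ)) * ‖v‖) +
            C * Real.exp (-(a * τ)) * (M * ‖v‖) := by
              have := mul_le_mul e5 e2 (norm_nonneg _) (by positivity)
              linarith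
        _ ≤ C * (2 + M) * ((1 + τ) ^ 4 * Real.exp (-(a * τ))) * ‖v‖ := by
              have : C * Real.exp (-(a * τ)) * (M * ‖v‖) ≤
                  (1 + τ) ^ 4 * (C * Real.exp (-(a * τ)) * (M * ‖v‖)) :=
                le_mul_of_one_le_left (by positivity) hP
              nlinarith
    refine e6.trans ?_
    have hexp : Real.exp (-(a * τ)) * Real.exp (c * τ) = Real.exp (-((a - c) * τ)) := by
      rw [← Real.exp_add]
      congr 1
      ring
    calc C * (2 + M) * ((1 + τ) ^ 4 * Real.exp (-(a * τ))) * ‖v‖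
        ≤ C * (2 + M) * ((1 + τ) ^ 4 * Real.exp (-(a * τ))) * (C₂ / σ * Real.exp (c * τ)) :=
          mul_le_mul_of_nonneg_left hvn (by positivity)
      _ = C * (2 + M) * (C₂ / σ) * ((1 + τ) ^ 4 * Real.exp (-((a - c) * τ))) := by
          rw [← hexp]
          ring
  -- the limit
  have hlim : Tendsto (fun τ : ℝ => C * (2 + M) * (C₂ / σ) *
      ((1 + τ) ^ 4 * Real.exp (-((a - c) * τ)))) atTop (𝓝 0) := by
    have h4 : Tendsto (fun τ : ℝ => (1 + τ) ^ 4 * Real.exp (-((a - c) * τ))) atTop (𝓝 0) := by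
      have hb : 0 < a - c := sub_pos.mpr hca
      have h5 : Tendsto (fun x : ℝ => x ^ (4 : ℝ) * Real.exp (-(a - c) * x)) atTop (𝓝 0) :=
        tendsto_rpow_mul_exp_neg_mul_atTop_nhds_zero 4 (a - c) hb
      have h6 : Tendsto (fun τ : ℝ => 1 + τ) atTop atTop := tendsto_atTop_add_const_left _ _ tendsto_id
      have h7 := (h5.comp h6).const_mul (Real.exp (a - c))
      rw [mul_zero] at h7
      refine h7.congr' ?_
      filter_upwards [eventually_ge_atTop (0 : ℝ)] with τ hτ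
      simp only [Function.comp_apply]
      have : Real.exp (-(a - c) * (1 + τ)) = Real.exp (-((a - c) * τ)) * Real.exp (-(a - c)) := by
        rw [← Real.exp_add]
        congr 1
        ring
      rw [this]
      have h8 : Real.exp (a - c) * Real.exp (-(a - c)) = 1 := by
        rw [← Real.exp_add]
        simp
      have h9 : (1 + τ) ^ (4 : ℝ) = (1 + τ) ^ 4 := by
        rw [← Real.rpow_natCast]
        norm_num
      rw [h9]
      linear_combination ((1 + τ) ^ 4 * Real.exp (-((a - c) * τ))) * h8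
    simpa using h4.const_mul (C * (2 + M) * (C₂ / σ))
  have hzero : |∫ x, g x • V₁ x| ≤ 0 :=
    ge_of_tendsto hlim (by
      filter_upwards [eventually_ge_atTop K] with τ hτ
      exact hest τ hτ)
  exact abs_eq_zero.mp (le_antisymm hzero (abs_nonneg _))

end FracScat

end
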