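import Pool.Agent.Lib.MP_6e2ba5_an.Unique
import Pool.Agent.Lib.MP_6e2ba5_an.HalfSpace
import Pool.Agent.Lib.MP_6e2ba5_an.Bdry

/-! # Main theorems

`data_Ffun`: `SameBackScattering` at `k` gives solutions `u₁, u₂` with equal amplitudes; by
`exists_scattering` and `scattering_unique` these amplitudes are `Ffun V₁` and `Ffun V₂` (the
amplitude only depends on the a.e. class of `u`).
`data_axis`: `bdry_unique` for `g = Ffun V₁ - Ffun V₂` (`Ffun_cont`, `Ffun_diff`; `Reg K`, `RegO K`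
are the sets of `bdry_unique`), evaluated at `iτ`.
`main_halfspace`: `K = max K₁ K₂` from `exists_K` and `exists_PotIn`, then `half_space` in both
directions. `main_moments`: `real_part`. -/

set_option autoImplicit false

open MeasureTheory Filter Topology Set
open scoped FourierTransform SchwartzMap InnerProductSpace ENNReal

noncomputable section

namespace FracScat

private theorem Main_amp {k : ℝ} {V : E3 → ℝ} {u u' : E3 → ℂ} (h : u =ᵐ[volume] u') (ω : E3) :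
    amplitude k V u ω = amplitude k V u' ω := by
  unfold amplitude
  refine integral_congr_ae ?_
  filter_upwards [h] with x hx
  rw [hx]

private theorem Main_one {s : ℝ} (h0 : 1 / 2 < s) (h2 : s < 2) {r : ℝ} (hr : 0 < r)
    {V : E3 → ℝ} (hV : PotIn r V) {θ : E3} (hθ : ‖θ‖ = 1) {k : ℝ} (hk : 0 < k)
    (hT : ‖Tk s r V k‖ ≤ 1 / 2) {u : E3 → ℂ} (hu : IsScattering s k V θ u) :
    amplitude k V u (-θ) = Ffun s r V θ k := by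
  obtain ⟨u', hu', ha⟩ := exists_scattering h0 h2 hr hV hθ hk hT
  rw [← ha]
  exact Main_amp (scattering_unique h0 h2 hr hV hk hT hu hu') _

theorem data_Ffun {s : ℝ} (h0 : 1 / 2 < s) (h2 : s < 2) {r : ℝ} (hr : 0 < r)
    {V₁ V₂ : E3 → ℝ} (hV₁ : PotIn r V₁) (hV₂ : PotIn r V₂) {θ : E3} (hθ : ‖θ‖ = 1) {k : ℝ}
    (hk : 0 < k) (hT₁ : ‖Tk s r V₁ k‖ ≤ 1 / 2) (hT₂ : ‖Tk s r V₂ k‖ ≤ 1 / 2)
    (hd : SameBackScattering s k V₁ V₂ θ) : Ffun s r V₁ θ k = Ffun s r V₂ θ k := by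
  obtain ⟨u₁, u₂, hu₁, hu₂, he⟩ := hd
  rw [← Main_one h0 h2 hr hV₁ hθ hk hT₁ hu₁, ← Main_one h0 h2 hr hV₂ hθ hk hT₂ hu₂]
  exact he

private theorem Main_real_mem {K x : ℝ} (hK : 1 ≤ K) (hx : K ≤ x) : (x : ℂ) ∈ Reg K := by
  refine ⟨?_, ?_, ?_⟩
  · rw [Complex.ofReal_re]
    linarith
  · rw [Complex.ofReal_im]
  · rw [Complex.norm_real, Real.norm_of_nonneg (by linarith)]
    exact hx

private theorem Main_axis_mem {K τ : ℝ} (hK : 1 ≤ K) (hτ : K ≤ τ) :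
    Complex.I * (τ : ℂ) ∈ Reg K := by
  refine ⟨by simp, ?_, ?_⟩
  · simp only [Complex.mul_im, Complex.I_re, Complex.I_im, Complex.ofReal_re, Complex.ofReal_im]
    linarith
  · rw [norm_mul, Complex.norm_I, one_mul, Complex.norm_real, Real.norm_of_nonneg (by linarith)]
    exact hτ

theorem data_axis {s : ℝ} (h0 : 1 / 2 < s) (h2 : s < 2) {r : ℝ} (hr : 0 < r)
    {V₁ V₂ : E3 → ℝ} (hV₁ : PotIn r V₁) (hV₂ : PotIn r V₂) {θ : E3} (hθ : ‖θ‖ = 1) {K : ℝ}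
    (hK : 1 ≤ K) (hT₁ : ∀ k ∈ Reg K, ‖Tk s r V₁ k‖ ≤ 1 / 2)
    (hT₂ : ∀ k ∈ Reg K, ‖Tk s r V₂ k‖ ≤ 1 / 2) {a b : ℝ} (ha : K ≤ a) (hab : a < b)
    (hd : ∀ k ∈ Ioo a b, SameBackScattering s k V₁ V₂ θ) (τ : ℝ) (hτ : K ≤ τ) :
    Ffun s r V₁ θ (Complex.I * τ) = Ffun s r V₂ θ (Complex.I * τ) := by
  have hc : ContinuousOn (fun k => Ffun s r V₁ θ k - Ffun s r V₂ θ k)
      {k : ℂ | 0 ≤ k.re ∧ 0 ≤ k.im ∧ K ≤ ‖k‖} :=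
    (Ffun_cont h0 h2 hr hV₁ θ hK hT₁).sub (Ffun_cont h0 h2 hr hV₂ θ hK hT₂)
  have hdi : DifferentiableOn ℂ (fun k => Ffun s r V₁ θ k - Ffun s r V₂ θ k)
      {k : ℂ | 0 < k.re ∧ 0 < k.im ∧ K < ‖k‖} :=
    (Ffun_diff h0 h2 hr hV₁ θ hK hT₁).sub (Ffun_diff h0 h2 hr hV₂ θ hK hT₂)
  have hz : ∀ x ∈ Ioo a b, Ffun s r V₁ θ (x : ℂ) - Ffun s r V₂ θ (x : ℂ) = 0 := by
    intro x hx
    have hKx : K ≤ x := ha.trans hx.1.le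
    rw [sub_eq_zero]
    exact data_Ffun h0 h2 hr hV₁ hV₂ hθ (by linarith) (hT₁ _ (Main_real_mem hK hKx))
      (hT₂ _ (Main_real_mem hK hKx)) (hd x hx)
  have hm := Main_axis_mem hK hτ
  have := bdry_unique (by linarith) hc hdi ha hab hz (Complex.I * τ) hm.1 hm.2.1 hm.2.2
  exact sub_eq_zero.1 this

/-- The common constants. -/
private theorem Main_const {s : ℝ} (h0 : 1 / 2 < s) (h2 : s < 2) {V₁ V₂ : E3 → ℝ}
    (hV₁ : IsPotential V₁) (hV₂ : IsPotential V₂) :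
    ∃ r : ℝ, 0 < r ∧ PotIn r V₁ ∧ PotIn r V₂ ∧ ∃ K : ℝ, 1 ≤ K ∧
      (∀ k ∈ Reg K, ‖Tk s r V₁ k‖ ≤ 1 / 2) ∧ (∀ k ∈ Reg K, ‖Tk s r V₂ k‖ ≤ 1 / 2) := by
  obtain ⟨r, hr, hP₁, hP₂⟩ := exists_PotIn hV₁ hV₂
  obtain ⟨K₁, hK₁, hT₁⟩ := exists_K h0 h2 hr hP₁
  obtain ⟨K₂, _, hT₂⟩ := exists_K h0 h2 hr hP₂
  refine ⟨r, hr, hP₁, hP₂, max K₁ K₂, hK₁.trans (le_max_left _ _), ?_, ?_⟩
  · intro k hk
    exact hT₁ k ⟨hk.1, hk.2.1, (le_max_left _ _).trans hk.2.2⟩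
  · intro k hk
    exact hT₂ k ⟨hk.1, hk.2.1, (le_max_right _ _).trans hk.2.2⟩

/-- One direction and one frequency band determine the supporting half-space. -/
theorem main_halfspace {s : ℝ} (h0 : 1 / 2 < s) (h2 : s < 2) (h1 : s ≠ 1) {V₁ V₂ : E3 → ℝ}
    (hV₁ : IsPotential V₁) (hV₂ : IsPotential V₂) :
    ∃ K : ℝ, 0 < K ∧ ∀ θ : E3, ‖θ‖ = 1 → ∀ a b : ℝ, K ≤ a → a < b →
      (∀ k ∈ Ioo a b, SameBackScattering s k V₁ V₂ θ) →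
      ∀ c : ℝ, (∀ᵐ x ∂(volume : Measure E3), c < -⟪θ, x⟫_ℝ → V₁ x = 0) ↔
        (∀ᵐ x ∂(volume : Measure E3), c < -⟪θ, x⟫_ℝ → V₂ x = 0) := by
  obtain ⟨r, hr, hP₁, hP₂, K, hK, hT₁, hT₂⟩ := Main_const h0 h2 hV₁ hV₂
  refine ⟨K, by linarith, fun θ hθ a b ha hab hd c => ?_⟩
  have hF : ∀ τ : ℝ, K ≤ τ → Ffun s r V₁ θ (Complex.I * τ) = Ffun s r V₂ θ (Complex.I * τ) :=
    fun τ hτ => data_axis h0 h2 hr hP₁ hP₂ hθ hK hT₁ hT₂ ha hab hd τ hτ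
  exact ⟨fun h => half_space h0 h2 h1 hr hP₂ hP₁ θ hK hT₂ hT₁ (fun τ hτ => (hF τ hτ).symm) h,
    fun h => half_space h0 h2 h1 hr hP₁ hP₂ θ hK hT₁ hT₂ hF h⟩

/-- The real parts. -/
theorem main_moments {s : ℝ} (h0 : 1 / 2 < s) (h2 : s < 2) (h1 : s ≠ 1) {V₁ V₂ : E3 → ℝ}
    (hV₁ : IsPotential V₁) (hV₂ : IsPotential V₂) :
    ∃ K : ℝ, 0 < K ∧ ∀ θ : E3, ‖θ‖ = 1 → ∀ a b : ℝ, K ≤ a → a < b →
      (∀ k ∈ Ioo a b, SameBackScattering s k V₁ V₂ θ) →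
      ∀ τ : ℝ, K ≤ τ → |(zt s τ).im| * |∫ x, (V₁ x - V₂ x) * pe τ θ x ^ 2| ≤
        (∫ x, V₁ x ^ 2 * pe τ θ x ^ 2) + ∫ x, V₂ x ^ 2 * pe τ θ x ^ 2 := by
  obtain ⟨r, hr, hP₁, hP₂, K, hK, hT₁, hT₂⟩ := Main_const h0 h2 hV₁ hV₂
  refine ⟨K, by linarith, fun θ hθ a b ha hab hd τ hτ => ?_⟩
  have hm := Main_axis_mem hK hτ
  exact real_part h0 h2 h1 hr hP₁ hP₂ θ (by linarith) (hT₁ _ hm) (hT₂ _ hm)
    (data_axis h0 h2 hr hP₁ hP₂ hθ hK hT₁ hT₂ ha hab hd τ hτ)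

end FracScat

end
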