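import Pool.Agent.Lib.MP_6e2ba5_an.Convex
import Pool.Agent.Lib.MP_6e2ba5_an.ConvexA
import Pool.Agent.Lib.MP_6e2ba5_an.Main

/-! # The two results -/

set_option autoImplicit false

open MeasureTheory Filter Topology Set
open scoped InnerProductSpace

noncomputable section

namespace FracScat

theorem final_hull {s : ℝ} (h0 : 1 / 2 < s) (h2 : s < 2) (h1 : s ≠ 1) {V₁ V₂ : E3 → ℝ}
    (hV₁ : IsPotential V₁) (hV₂ : IsPotential V₂) :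
    ∃ K : ℝ, 0 < K ∧ ∀ a b : ℝ, K ≤ a → a < b →
      (∀ θ : E3, ‖θ‖ = 1 → (∀ k ∈ Ioo a b, SameBackScattering s k V₁ V₂ θ) →
        ∀ c : ℝ, (∀ᵐ x ∂(volume : Measure E3), c < -⟪θ, x⟫_ℝ → V₁ x = 0) ↔
          (∀ᵐ x ∂(volume : Measure E3), c < -⟪θ, x⟫_ℝ → V₂ x = 0)) ∧
      ((∀ θ : E3, ‖θ‖ = 1 → ∀ k ∈ Ioo a b, SameBackScattering s k V₁ V₂ θ) →
        closure (convexHull ℝ (essSupp V₁)) = closure (convexHull ℝ (essSupp V₂))) := by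
  obtain ⟨K, hK, h⟩ := main_halfspace h0 h2 h1 hV₁ hV₂
  refine ⟨K, hK, fun a b ha hab => ⟨fun θ hθ hd => h θ hθ a b ha hab hd, fun hd => ?_⟩⟩
  exact hull_eq fun θ hθ c => h θ hθ a b ha hab (hd θ hθ) c

theorem final_convex {s : ℝ} (h0 : 1 / 2 < s) (h2 : s < 2) (h1 : s ≠ 1) {D₁ D₂ : Set E3}
    (hD₁ : IsCompact D₁) (hc₁ : Convex ℝ D₁) (hi₁ : (interior D₁).Nonempty)
    (hD₂ : IsCompact D₂) (hc₂ : Convex ℝ D₂) (hi₂ : (interior D₂).Nonempty)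
    {q₁ q₂ : E3 → ℝ} (hq₁ : ContinuousOn q₁ D₁) (hq₂ : ContinuousOn q₂ D₂)
    (hd₁ : D₁ ⊆ closure (D₁ ∩ {x | q₁ x ≠ 0})) (hd₂ : D₂ ⊆ closure (D₂ ∩ {x | q₂ x ≠ 0})) :
    ∃ K : ℝ, 0 < K ∧ ∀ a b : ℝ, K ≤ a → a < b →
      (∀ θ : E3, ‖θ‖ = 1 → ∀ k ∈ Ioo a b,
        SameBackScattering s k (D₁.indicator q₁) (D₂.indicator q₂) θ) →
      D₁ = D₂ ∧ (∀ x ∈ D₁.exposedPoints ℝ, q₁ x = q₂ x) ∧
        (∀ c₁ c₂ : ℝ, (∀ x ∈ D₁, q₁ x = c₁) → (∀ x ∈ D₂, q₂ x = c₂) → c₁ = c₂) := by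
  have hV₁ := isPotential_indicator hD₁ hq₁
  have hV₂ := isPotential_indicator hD₂ hq₂
  obtain ⟨K₁, hK₁, hh⟩ := final_hull h0 h2 h1 hV₁ hV₂
  obtain ⟨K₂, hK₂, hm⟩ := main_moments h0 h2 h1 hV₁ hV₂
  refine ⟨max K₁ K₂, lt_max_of_lt_left hK₁, fun a b ha hab hd => ?_⟩
  have ha₁ : K₁ ≤ a := (le_max_left _ _).trans ha
  have ha₂ : K₂ ≤ a := (le_max_right _ _).trans ha
  have hDD : D₁ = D₂ := by
    have h3 := (hh a b ha₁ hab).2 hd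
    rw [essSupp_indicator hD₁ hc₁ hi₁ hq₁ hd₁, essSupp_indicator hD₂ hc₂ hi₂ hq₂ hd₂,
      hc₁.convexHull_eq, hc₂.convexHull_eq, hD₁.isClosed.closure_eq, hD₂.isClosed.closure_eq] at h3
    exact h3
  subst hDD
  have hexp : ∀ x ∈ D₁.exposedPoints ℝ, q₁ x = q₂ x := by
    intro x hx
    obtain ⟨hxD, l, hl⟩ := hx
    set w : E3 := (InnerProductSpace.toDual ℝ E3).symm l with hw
    have hwl : ∀ y : E3, ⟪w, y⟫_ℝ = l y := fun y => InnerProductSpace.toDual_symm_apply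
    have hw0 : w ≠ 0 := by
      intro h
      have hl0 : ∀ y : E3, l y = 0 := by
        intro y
        rw [← hwl, h, inner_zero_left]
      have hsub : D₁ ⊆ {x} := by
        intro y hy
        exact (hl y hy).2 (by rw [hl0, hl0])
      have h4 : interior D₁ ⊆ interior {x} := interior_mono hsub
      rw [interior_singleton] at h4
      obtain ⟨z, hz⟩ := hi₁
      exact h4 hz
    have hwn : 0 < ‖w‖ := norm_pos_iff.2 hw0
    refine exposed_eq h0 h2 h1 hD₁ hc₁ hi₁ hq₁ hq₂ (θ := -(‖w‖⁻¹ • w)) hxD ?_ (K := K₂) ?_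
    · intro y hy hyx
      rw [inner_neg_left, inner_neg_left, real_inner_smul_left, real_inner_smul_left, hwl, hwl]
      have h5 : l y < l x := by
        by_contra h
        exact hyx ((hl y hy).2 (not_lt.1 h))
      have h6 : 0 < ‖w‖⁻¹ := inv_pos.2 hwn
      have := mul_lt_mul_of_pos_left h5 h6
      linarith
    · have hn : ‖-(‖w‖⁻¹ • w)‖ = 1 := by
        rw [norm_neg, norm_smul, norm_inv, norm_norm, inv_mul_cancel₀ hwn.ne']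
      exact hm _ hn a b ha₂ hab (hd _ hn)
  refine ⟨rfl, hexp, ?_⟩
  intro c₁ c₂ e₁ e₂
  have hne : D₁.Nonempty := hi₁.mono interior_subset
  obtain ⟨x₀, hx₀, hmax⟩ := hD₁.exists_isMaxOn hne (continuous_norm.continuousOn)
  have hx : x₀ ∈ D₁.exposedPoints ℝ := by
    refine ⟨hx₀, innerSL ℝ x₀, fun y hy => ?_⟩
    have hy1 : ‖y‖ ≤ ‖x₀‖ := hmax hy
    simp only [innerSL_apply_apply]
    have h7 : ⟪x₀, y⟫_ℝ ≤ ‖x₀‖ * ‖y‖ := real_inner_le_norm _ _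
    have h8 : ⟪x₀, x₀⟫_ℝ = ‖x₀‖ ^ 2 := real_inner_self_eq_norm_sq _
    have h9 := norm_nonneg x₀
    have h10 := norm_nonneg y
    refine ⟨by nlinarith, fun h => ?_⟩
    have h11 := norm_sub_sq_real y x₀
    rw [real_inner_comm] at h11
    have h12 : ‖y - x₀‖ ^ 2 ≤ 0 := by nlinarith
    have h13 : ‖y - x₀‖ = 0 := by
      have := sq_nonneg ‖y - x₀‖
      exact pow_eq_zero_iff (two_ne_zero) |>.1 (le_antisymm h12 this)
    exact sub_eq_zero.1 (norm_eq_zero.1 h13)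
  rw [← e₁ x₀ hx₀, ← e₂ x₀ hx₀]
  exact hexp x₀ hx

end FracScat

end
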