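import Pool.Agent.Lib.MP_6e2ba5_an.PhysA

/-! # The outgoing field: the weak formula for `D^s`

Let `g = c D^s_j φ - d ∂_j φ`, `FT g = i 2πξ_j (c a^(s-1) - d) 𝓕 φ`, where
`(c a^(s-1) - d)/(a²-k²) = ht - a^(s-1) hs` (`a > 0`, `a ≠ k`), so `pair_eq` applies with
`J = C (|a ht| + a^s |hs|) |FT f(ξ)| |𝓕 φ(-ξ)|`. Note `(FT g)(-ξ) = -i 2πξ_j (c a^(s-1)-d) 𝓕 φ(-ξ)`.
Then `∫ wf φ = -d ∫ cv (Pk k) f ∂_j φ + ∫ (multL qg f) φ` (`cv_weak`) and
`-∫ vf D^s_j φ = -c ∫ cv (Pk k) f D^s_j φ - ∫ (multL qs f) D^s_j φ`; the difference is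
`∫ cv (Pk k) f g + ∫ (multL qg f) φ + ∫ (multL qs f) D^s_j φ = 0` because
`(c a^(s-1) - d) mk = ht + d Yh - (hs + c Yh) a^(s-1)`. -/

set_option autoImplicit false

open MeasureTheory Filter Topology Set
open scoped FourierTransform SchwartzMap InnerProductSpace ENNReal

noncomputable section

namespace FracScat

private theorem pc_neg_mp : MeasurePreserving (fun x : E3 => -x) volume volume :=
  Measure.measurePreserving_neg volume

private theorem pc_ae_neg {P : E3 → Prop} (h : ∀ᵐ x ∂(volume : Measure E3), P x) :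
    ∀ᵐ x ∂(volume : Measure E3), P (-x) :=
  pc_neg_mp.quasiMeasurePreserving.ae h

private theorem pc_int_neg (f g : HS) : Integrable (fun ξ => f ξ * g (-ξ)) := by
  have h := MemLp.integrable_mul (p := 2) (q := 2) (Lp.memLp f)
    ((Lp.memLp g).comp_measurePreserving pc_neg_mp)
  exact h

private theorem pc_sphere {k : ℝ} : ∀ᵐ ξ ∂(volume : Measure E3), 2 * Real.pi * ‖ξ‖ ≠ k := by
  have h1 : (volume : Measure E3) (Metric.sphere (0 : E3) (k / (2 * Real.pi))) = 0 :=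
    Measure.addHaar_sphere _ _ _
  rw [ae_iff]
  refine measure_mono_null ?_ h1
  intro ξ hξ
  simp only [mem_ofPred_eq, not_not] at hξ
  rw [mem_sphere_zero_iff_norm, ← hξ]
  field_simp

/-- The pairing of a multiplier with an `L²` function. -/
private theorem pc_pair {q : E3 → ℂ} (hq : BM q) (f : HS) {ψ ψh : E3 → ℂ}
    (hψ : MemLp ψ 2 volume) (hh : (FT (toH ψ) : E3 → ℂ) =ᵐ[volume] ψh) :
    (∫ x, (multL q f : E3 → ℂ) x * ψ x = ∫ ξ, (FT f : E3 → ℂ) ξ * (q ξ * ψh (-ξ))) ∧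
    Integrable (fun ξ => (FT f : E3 → ℂ) ξ * (q ξ * ψh (-ξ))) := by
  have h1 : ∫ x, (multL q f : E3 → ℂ) x * ψ x =
      ∫ x, (multL q f : E3 → ℂ) x * (toH ψ : E3 → ℂ) x := by
    apply integral_congr_ae
    filter_upwards [toH_coe hψ] with x hx
    rw [hx]
  have h2 : (fun ξ => (FT (multL q f) : E3 → ℂ) ξ * (FT (toH ψ) : E3 → ℂ) (-ξ)) =ᵐ[volume]
      fun ξ => (FT f : E3 → ℂ) ξ * (q ξ * ψh (-ξ)) := by
    filter_upwards [FT_multL_coe hq f, pc_ae_neg hh] with ξ a b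
    rw [a, b]
    ring
  constructor
  · rw [h1, parseval]
    exact integral_congr_ae h2
  · exact (pc_int_neg (FT (multL q f)) (FT (toH ψ))).congr h2

private theorem pc_symb {s k : ℝ} {a : ℝ} (hk : 0 < k) (ha0 : 0 ≤ a) (ha : a ≠ k) :
    (ck s k * ((a ^ (s - 1) : ℝ) : ℂ) - (dk s k : ℂ)) =
      ((a : ℂ) ^ 2 - (k : ℂ) ^ 2) * (ht s k a - ((a ^ (s - 1) : ℝ) : ℂ) * hs s k a) := by
  have hne : ((a : ℂ) ^ 2 - (k : ℂ) ^ 2) ≠ 0 := by
    intro h
    apply ha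
    have h1 : a ^ 2 - k ^ 2 = 0 := by exact_mod_cast h
    have h2 : (a - k) * (a + k) = 0 := by linarith [h1]
    rcases mul_eq_zero.1 h2 with h3 | h3
    · linarith
    · linarith
  unfold ht hs
  field_simp
  ring

private theorem pc_K {s : ℝ} (h0 : 1 / 2 < s) (h2 : s < 2) (φ : 𝓢(E3, ℂ)) {C₁ C₂ : ℝ}
    (hC₁ : 0 ≤ C₁) (hC₂ : 0 ≤ C₂) :
    MemLp (fun ξ : E3 => (C₁ + C₂ * (2 * Real.pi * ‖ξ‖) ^ s) * ‖𝓕 (φ : E3 → ℂ) ξ‖) 2 volume := by
  have m1 : MemLp (𝓕 (φ : E3 → ℂ)) 2 volume :=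
    MemLp.ae_eq (FT_schwartz φ) (Lp.memLp (FT (toH (φ : E3 → ℂ))))
  have m2 : MemLp (fun ξ : E3 => (((2 * Real.pi * ‖ξ‖) ^ (2 * s) : ℝ) : ℂ) *
      𝓕 (φ : E3 → ℂ) ξ) 2 volume :=
    MemLp.ae_eq (FT_fracLap h0 h2 φ) (Lp.memLp (FT (toH (fracLap s φ))))
  have m3 := (m1.norm.const_mul (C₁ + C₂)).add (m2.norm.const_mul C₂)
  refine MemLp.mono' m3 ?_ ?_
  · refine AEStronglyMeasurable.mul ?_ m1.norm.1
    refine Measurable.aestronglyMeasurable ?_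
    fun_prop
  · refine Eventually.of_forall fun ξ => ?_
    have ha : 0 ≤ 2 * Real.pi * ‖ξ‖ := by positivity
    simp only [Pi.add_apply, norm_mul, norm_norm, Complex.norm_real]
    set a : ℝ := 2 * Real.pi * ‖ξ‖ with hadef
    have h3 : a ^ s ≤ 1 + a ^ (2 * s) := by
      rcases le_or_gt a 1 with h | h
      · have := Real.rpow_le_one ha h (by linarith : 0 ≤ s)
        have := Real.rpow_nonneg ha (2 * s)
        linarith
      · have := Real.rpow_le_rpow_of_exponent_le h.le (by linarith : s ≤ 2 * s)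
        linarith
    have h4 : 0 ≤ a ^ s := Real.rpow_nonneg ha s
    have h5 : 0 ≤ a ^ (2 * s) := Real.rpow_nonneg ha _
    rw [Real.norm_of_nonneg (by positivity : 0 ≤ C₁ + C₂ * a ^ s), Real.norm_of_nonneg h5]
    have h6 := norm_nonneg (𝓕 (φ : E3 → ℂ) ξ)
    have h7 : C₂ * a ^ s ≤ C₂ * (1 + a ^ (2 * s)) := mul_le_mul_of_nonneg_left h3 hC₂
    nlinarith

private theorem pc_alg (F x c d A h t P Y φ : ℂ) (h4 : (c * A - d) * P = t - A * h) :
    F * (Complex.I * (-x) * (c * A - d) * φ) * (P - Y) =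
      -(F * (Complex.I * x * (t + d * Y) * φ) + F * ((h + c * Y) * (Complex.I * (-x) * A * φ))) := by
  linear_combination (-F * Complex.I * x * φ) * h4

theorem wf_eq {s : ℝ} (h0 : 1 / 2 < s) (h2 : s < 2) {k : ℝ} (hk : 0 < k) {r : ℝ} (hr : 0 < r)
    {f : HS} (hf : mulL (indB r) f = f) (j : Fin 3) (φ : 𝓢(E3, ℂ)) :
    ∫ x, wf s k j f x * φ x = -∫ x, vf s k f x * fracGrad s j φ x := by
  have hs0 : 0 < s := by linarith
  have wD := fracGrad_WL h0 h2 j φ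
  have wP := dphi_WL j φ
  have wφ := schwartz_WL φ
  have b1 : BStar (cv (Pk k) f) := by
    obtain ⟨C, hC, hb⟩ := Pk_bound ‖(k : ℂ)‖
    obtain ⟨cont, C', -, hb'⟩ := cv_bound (Pk_continuous k)
      (hb k (by simp) le_rfl) hr hf
    exact BStar_of_bound cont hb'
  have b2 : BStar (cv (dPk k j) f) := by
    obtain ⟨C, hC, hb⟩ := dPk_bound hk
    obtain ⟨cont, C', -, hb'⟩ := cv_bound (dPk_continuous k j) (hb j) hr hf
    exact BStar_of_bound cont hb'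
  have b3 : BStar (multL (qs s k) f : E3 → ℂ) := BStar_of_memLp (Lp.memLp _)
  have b4 : BStar (multL (qg s j k) f : E3 → ℂ) := BStar_of_memLp (Lp.memLp _)
  set c : ℂ := ck s k with hc
  set d : ℂ := (dk s k : ℂ) with hd
  have e1 : ∫ x, wf s k j f x * φ x = d * (∫ x, cv (dPk k j) f x * φ x) +
      ∫ x, (multL (qg s j k) f : E3 → ℂ) x * φ x := by
    rw [← integral_const_mul, ← integral_add ((BStar_mul_WL b2 wφ).const_mul d)
      (BStar_mul_WL b4 wφ)]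
    congr 1
    funext x
    unfold wf
    ring
  have e2 : ∫ x, vf s k f x * fracGrad s j φ x = c * (∫ x, cv (Pk k) f x * fracGrad s j φ x) +
      ∫ x, (multL (qs s k) f : E3 → ℂ) x * fracGrad s j φ x := by
    rw [← integral_const_mul, ← integral_add ((BStar_mul_WL b1 wD).const_mul c)
      (BStar_mul_WL b3 wD)]
    congr 1
    funext x
    unfold vf
    ring
  set g : HS := c • toH (fracGrad s j φ) - d • toH (dphi j φ) with hg
  have hgx : (g : E3 → ℂ) =ᵐ[volume] fun x => c * fracGrad s j φ x - d * dphi j φ x := by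
    filter_upwards [Lp.coeFn_sub (c • toH (fracGrad s j φ)) (d • toH (dphi j φ)),
      Lp.coeFn_smul c (toH (fracGrad s j φ)), Lp.coeFn_smul d (toH (dphi j φ)),
      toH_coe wD.memLp, toH_coe wP.memLp] with x h3 h4 h5 h6 h7
    rw [h3, Pi.sub_apply, h4, h5, Pi.smul_apply, Pi.smul_apply, h6, h7, smul_eq_mul, smul_eq_mul]
  have hgF : (FT g : E3 → ℂ) =ᵐ[volume] fun ξ => Complex.I * ((2 * Real.pi * ξ j : ℝ) : ℂ) *
      (c * (((2 * Real.pi * ‖ξ‖) ^ (s - 1) : ℝ) : ℂ) - d) * 𝓕 (φ : E3 → ℂ) ξ := by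
    have h3 : FT g = c • FT (toH (fracGrad s j φ)) - d • FT (toH (dphi j φ)) := by
      rw [hg, map_sub, map_smul, map_smul]
    rw [h3]
    filter_upwards [Lp.coeFn_sub (c • FT (toH (fracGrad s j φ))) (d • FT (toH (dphi j φ))),
      Lp.coeFn_smul c (FT (toH (fracGrad s j φ))), Lp.coeFn_smul d (FT (toH (dphi j φ))),
      FT_fracGrad h0 h2 j φ, FT_dphi j φ] with x h3 h4 h5 h6 h7
    rw [h3, Pi.sub_apply, h4, h5, Pi.smul_apply, Pi.smul_apply, h6, h7, smul_eq_mul, smul_eq_mul]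
    ring
  have hgi : Integrable (g : E3 → ℂ) :=
    ((wD.integrable.const_mul c).sub (wP.integrable.const_mul d)).congr hgx.symm
  have e3 : ∫ x, cv (Pk k) f x * g x = c * (∫ x, cv (Pk k) f x * fracGrad s j φ x) -
      d * ∫ x, cv (Pk k) f x * dphi j φ x := by
    rw [← integral_const_mul, ← integral_const_mul, ← integral_sub
      ((BStar_mul_WL b1 wD).const_mul c) ((BStar_mul_WL b1 wP).const_mul d)]
    apply integral_congr_ae
    filter_upwards [hgx] with x hx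
    rw [hx]
    ring
  obtain ⟨C₁, hC₁, hb₁⟩ := ht_bound h0 h2 hk
  obtain ⟨C₂, hC₂, hb₂⟩ := hs_bound hs0 h2
  have hkq : (k : ℂ) ∈ Quad := ⟨by simpa using hk.le, by simp, by exact_mod_cast hk.ne'⟩
  set C₃ : ℝ := C₂ * ‖(k : ℂ)‖ ^ (-(2 * s)) with hC₃
  have hC₃0 : 0 ≤ C₃ := by positivity
  have hJ : Integrable (fun ξ : E3 => ‖(FT f : E3 → ℂ) ξ‖ *
      ((C₁ + C₃ * (2 * Real.pi * ‖-ξ‖) ^ s) * ‖𝓕 (φ : E3 → ℂ) (-ξ)‖)) :=
    MemLp.integrable_mul (p := 2) (q := 2) (Lp.memLp (FT f)).norm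
      ((pc_K h0 h2 φ hC₁ hC₃0).comp_measurePreserving pc_neg_mp)
  have hdom : ∀ᵐ ξ ∂(volume : Measure E3), ‖(FT f : E3 → ℂ) ξ * (FT g : E3 → ℂ) (-ξ)‖ ≤
      |(2 * Real.pi * ‖ξ‖) ^ 2 - k ^ 2| * (‖(FT f : E3 → ℂ) ξ‖ *
      ((C₁ + C₃ * (2 * Real.pi * ‖-ξ‖) ^ s) * ‖𝓕 (φ : E3 → ℂ) (-ξ)‖)) := by
    filter_upwards [pc_ae_neg hgF, pc_sphere (k := k)] with ξ hξ hξ2
    rw [hξ, norm_neg]
    set a : ℝ := 2 * Real.pi * ‖ξ‖ with ha
    have ha0 : 0 ≤ a := by positivity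
    rw [pc_symb hk ha0 hξ2]
    have hak : (a : ℂ) ≠ k := by
      intro h
      exact hξ2 (by exact_mod_cast h)
    have h3 : ‖Complex.I * ((2 * Real.pi * (-ξ) j : ℝ) : ℂ)‖ ≤ a := by
      rw [norm_mul, Complex.norm_I, one_mul, Complex.norm_real, norm_mul, norm_mul,
        Real.norm_of_nonneg (by norm_num : (0 : ℝ) ≤ 2), Real.norm_of_nonneg Real.pi_pos.le, ha,
        ← norm_neg ξ]
      exact mul_le_mul_of_nonneg_left (PiLp.norm_apply_le (-ξ) j) (by positivity)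
    have h4 : a * ‖ht s k a - ((a ^ (s - 1) : ℝ) : ℂ) * hs s k a‖ ≤ C₁ + C₃ * a ^ s := by
      have h5 := hb₁ a ha0 hξ2
      rw [norm_mul, Complex.norm_real, Real.norm_of_nonneg ha0] at h5
      have h6 := hb₂ k hkq a ha0 hak
      have h7 : a * a ^ (s - 1) ≤ a ^ s := by
        rcases ha0.eq_or_lt with h | h
        · rw [← h, zero_mul]
          exact Real.rpow_nonneg le_rfl _
        · have h8 : a ^ s = a ^ (1 + (s - 1)) := by congr 1; ring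
          rw [h8, Real.rpow_add h, Real.rpow_one]
      have h9 : 0 ≤ a ^ (s - 1) := Real.rpow_nonneg ha0 _
      calc a * ‖ht s k a - ((a ^ (s - 1) : ℝ) : ℂ) * hs s k a‖
          ≤ a * (‖ht s k a‖ + a ^ (s - 1) * ‖hs s k a‖) := by
            refine mul_le_mul_of_nonneg_left ((norm_sub_le _ _).trans ?_) ha0
            rw [norm_mul, Complex.norm_real, Real.norm_of_nonneg h9]
        _ = a * ‖ht s k a‖ + (a * a ^ (s - 1)) * ‖hs s k a‖ := by ring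
        _ ≤ C₁ + a ^ s * C₃ := by
            refine add_le_add h5 ?_
            exact mul_le_mul h7 h6 (norm_nonneg _) (Real.rpow_nonneg ha0 _)
        _ = C₁ + C₃ * a ^ s := by ring
    have h5 : ‖((a : ℂ) ^ 2 - (k : ℂ) ^ 2)‖ = |a ^ 2 - k ^ 2| := by
      have : ((a : ℂ) ^ 2 - (k : ℂ) ^ 2) = ((a ^ 2 - k ^ 2 : ℝ) : ℂ) := by push_cast; ring
      rw [this, Complex.norm_real, Real.norm_eq_abs]
    rw [norm_mul, norm_mul, norm_mul, norm_mul (_ ^ 2 - _), h5]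
    set T := ‖ht s k a - ((a ^ (s - 1) : ℝ) : ℂ) * hs s k a‖ with hT
    set U := ‖Complex.I * ((2 * Real.pi * (-ξ) j : ℝ) : ℂ)‖ with hU
    set W := ‖𝓕 (φ : E3 → ℂ) (-ξ)‖ with hW
    set Z := ‖(FT f : E3 → ℂ) ξ‖ with hZ
    have hW0 : 0 ≤ W := norm_nonneg _
    have hZ0 : 0 ≤ Z := norm_nonneg _
    have hT0 : 0 ≤ T := norm_nonneg _
    have hab : 0 ≤ |a ^ 2 - k ^ 2| := abs_nonneg _
    have h6 : U * T ≤ C₁ + C₃ * a ^ s := (mul_le_mul_of_nonneg_right h3 hT0).trans h4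
    calc Z * (U * (|a ^ 2 - k ^ 2| * T) * W) = (|a ^ 2 - k ^ 2| * Z * W) * (U * T) := by ring
      _ ≤ (|a ^ 2 - k ^ 2| * Z * W) * (C₁ + C₃ * a ^ s) :=
          mul_le_mul_of_nonneg_left h6 (by positivity)
      _ = |a ^ 2 - k ^ 2| * (Z * ((C₁ + C₃ * a ^ s) * W)) := by ring
  have e4 := pair_eq hk hr hf g hgi hJ hdom
  obtain ⟨e5, i5⟩ := pc_pair (qg_BM h0 h2 j hk) f wφ.memLp (FT_schwartz φ)
  obtain ⟨e6, i6⟩ := pc_pair (qs_BM h0 h2 hk) f wD.memLp (FT_fracGrad h0 h2 j φ)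
  have e7 : ∫ ξ, (FT f : E3 → ℂ) ξ * (FT g : E3 → ℂ) (-ξ) * mk k (2 * Real.pi * ‖ξ‖) =
      -((∫ ξ, (FT f : E3 → ℂ) ξ * (qg s j k ξ * 𝓕 (φ : E3 → ℂ) (-ξ))) +
        ∫ ξ, (FT f : E3 → ℂ) ξ * (qs s k ξ * (Complex.I * ((2 * Real.pi * (-ξ) j : ℝ) : ℂ) *
        (((2 * Real.pi * ‖-ξ‖) ^ (s - 1) : ℝ) : ℂ) * 𝓕 (φ : E3 → ℂ) (-ξ)))) := by
    rw [← integral_add i5 i6, ← integral_neg]
    apply integral_congr_ae
    filter_upwards [pc_ae_neg hgF, pc_sphere (k := k)] with ξ hξ hξ2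
    rw [hξ, norm_neg]
    set a : ℝ := 2 * Real.pi * ‖ξ‖ with ha
    have ha0 : 0 ≤ a := by positivity
    have h3 := pc_symb (s := s) hk ha0 hξ2
    have hne : ((a : ℂ) ^ 2 - (k : ℂ) ^ 2) ≠ 0 := by
      intro h
      apply hξ2
      have h1 : a ^ 2 - k ^ 2 = 0 := by exact_mod_cast h
      have h2 : (a - k) * (a + k) = 0 := by linarith [h1]
      rcases mul_eq_zero.1 h2 with h3 | h3
      · linarith
      · linarith
    have h4 : (c * ((a ^ (s - 1) : ℝ) : ℂ) - d) * (1 / ((a : ℂ) ^ 2 - (k : ℂ) ^ 2)) =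
        ht s k a - ((a ^ (s - 1) : ℝ) : ℂ) * hs s k a := by
      rw [h3]
      field_simp
    have h5 : ((2 * Real.pi * (-ξ) j : ℝ) : ℂ) = -((2 * Real.pi * ξ j : ℝ) : ℂ) := by
      have : (-ξ) j = - ξ j := rfl
      rw [this]
      push_cast
      ring
    rw [h5]
    exact pc_alg _ _ _ _ _ _ _ _ _ _ h4
  rw [e1, e2, cv_weak hk hr hf j φ, e5, e6]
  rw [e3, e7] at e4
  linear_combination e4

end FracScat

end
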