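import Pool.Agent.Lib.MP_6e2ba5_an.WL2b

/-! # The plane wave solves the free equation

`G(ξ) = a^(2s) 𝓕 φ(ξ)` is continuous and integrable, and `fracLap s φ = 𝓕⁻ G` is integrable
(`fracLap_WL`, `WL.integrable`), so `𝓕 (fracLap s φ) = G` everywhere
(`MeasureTheory.Integrable.fourier_fourierInv_eq` or the continuous version); at
`ξ₀ = -kθ/(2π)`: `∫ exp(ikθ·x) fracLap s φ x dx = G(ξ₀) = k^(2s) 𝓕 φ(ξ₀)
= k^(2s) ∫ exp(ikθ·x) φ(x) dx`. -/

set_option autoImplicit false

open MeasureTheory Filter Topology Set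
open scoped FourierTransform SchwartzMap InnerProductSpace ENNReal

noncomputable section

namespace FracScat

private theorem pl_ft (F : E3 → ℂ) (k : ℝ) (θ : E3) :
    𝓕 F ((-(k / (2 * Real.pi))) • θ) = ∫ x, planeWave k θ x * F x := by
  rw [Real.fourier_eq']
  refine integral_congr_ae (Eventually.of_forall fun x => ?_)
  simp only [smul_eq_mul, planeWave, inner_smul_right]
  rw [real_inner_comm]
  congr 2
  have hp : (Real.pi : ℂ) ≠ 0 := by exact_mod_cast Real.pi_pos.ne'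
  push_cast
  field_simp

private theorem pl_pow {s : ℝ} (h0 : 1 / 2 < s) (h2 : s < 2) {x : ℝ} (hx : 0 ≤ x) :
    x ^ (2 * s) ≤ 1 + x ^ 4 := by
  by_cases h : x ≤ 1
  · have h1 : x ^ (2 * s) ≤ 1 := Real.rpow_le_one hx h (by linarith)
    have h3 : 0 ≤ x ^ 4 := by positivity
    linarith
  · have h1 : x ^ (2 * s) ≤ x ^ (4 : ℝ) :=
      Real.rpow_le_rpow_of_exponent_le (le_of_lt (not_le.1 h)) (by linarith)
    rw [show (4 : ℝ) = ((4 : ℕ) : ℝ) from by norm_num, Real.rpow_natCast] at h1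
    linarith

theorem plane_eq {s : ℝ} (h0 : 1 / 2 < s) (h2 : s < 2) {k : ℝ} (hk : 0 < k) {θ : E3}
    (hθ : ‖θ‖ = 1) (φ : 𝓢(E3, ℂ)) :
    Integrable (fun x => planeWave k θ x * fracLap s φ x) ∧
      ∫ x, planeWave k θ x * fracLap s φ x =
        ((k ^ (2 * s) : ℝ) : ℂ) * ∫ x, planeWave k θ x * φ x := by
  have hF : Integrable (fracLap s φ) := (fracLap_WL h0 h2 φ).integrable
  have hpw : ∀ x, ‖planeWave k θ x‖ = 1 := fun x => by
    unfold planeWave
    have : Complex.I * (k : ℂ) * ((⟪θ, x⟫_ℝ : ℝ) : ℂ) = ((k * ⟪θ, x⟫_ℝ : ℝ) : ℂ) * Complex.I := by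
      push_cast
      ring
    rw [this, Complex.norm_exp_ofReal_mul_I]
  have hpc : Continuous (planeWave k θ) := by
    unfold planeWave
    fun_prop
  constructor
  · refine hF.mono (hpc.aestronglyMeasurable.mul hF.1) (Eventually.of_forall fun x => ?_)
    rw [norm_mul, hpw, one_mul]
  · obtain ⟨G, hG⟩ : ∃ G : E3 → ℂ, G = fun ξ : E3 =>
      (((2 * Real.pi * ‖ξ‖) ^ (2 * s) : ℝ) : ℂ) * 𝓕 (φ : E3 → ℂ) ξ := ⟨_, rfl⟩
    have hGF : 𝓕⁻ G = fracLap s φ := by rw [hG]; rfl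
    have hφc : Continuous (𝓕 (φ : E3 → ℂ)) := (𝓕 φ).continuous
    have hGc : Continuous G := by
      rw [hG]
      refine Continuous.mul ?_ hφc
      refine Complex.continuous_ofReal.comp ?_
      refine Continuous.rpow_const (by fun_prop) (fun x => Or.inr (by linarith))
    have hGi : Integrable G := by
      have i1 : Integrable (fun ξ : E3 => ‖ξ‖ ^ 4 * ‖(𝓕 φ) ξ‖) := (𝓕 φ).integrable_pow_mul volume 4
      have i2 : Integrable (fun ξ : E3 => ‖(𝓕 φ) ξ‖) := (𝓕 φ).integrable.norm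
      refine (i2.add (i1.const_mul ((2 * Real.pi) ^ 4))).mono hGc.aestronglyMeasurable
        (Eventually.of_forall fun ξ => ?_)
      rw [hG]
      simp only [Pi.add_apply]
      have hx : 0 ≤ 2 * Real.pi * ‖ξ‖ := by positivity
      rw [norm_mul, Complex.norm_real, Real.norm_of_nonneg (Real.rpow_nonneg hx _),
        Real.norm_of_nonneg (by positivity)]
      have h3 := mul_le_mul_of_nonneg_right (pl_pow h0 h2 hx) (norm_nonneg ((𝓕 φ) ξ))
      calc (2 * Real.pi * ‖ξ‖) ^ (2 * s) * ‖(𝓕 φ) ξ‖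
          ≤ (1 + (2 * Real.pi * ‖ξ‖) ^ 4) * ‖(𝓕 φ) ξ‖ := h3
        _ = _ := by ring
    have hFi : Integrable (𝓕 G) := by
      have h3 : 𝓕 G = fun x => fracLap s φ (-x) := by
        ext x
        rw [← hGF, Real.fourierInv_eq_fourier_neg, neg_neg]
      rw [h3]
      exact hF.comp_neg
    have h4 : 𝓕 (fracLap s φ) ((-(k / (2 * Real.pi))) • θ) = G ((-(k / (2 * Real.pi))) • θ) := by
      rw [← hGF]
      exact hGi.fourier_fourierInv_eq hFi hGc.continuousAt
    rw [pl_ft] at h4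
    rw [h4, hG]
    simp only
    rw [pl_ft]
    congr 2
    rw [norm_smul, hθ, mul_one, norm_neg, Real.norm_of_nonneg (by positivity)]
    congr 1
    have := Real.pi_pos
    field_simp

end FracScat

end
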