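import Pool.Agent.Lib.MP_6e2ba5_an.Mul

/-! # The Fourier transform on `L²(ℝ³)`: pointwise formulas, Parseval

`FT_coe_of_integrable`: both sides define the same tempered distribution: for a Schwartz
function `φ` one has `∫ (FT f) φ = ∫ f 𝓕φ` (from `Lp.fourier_toTemperedDistribution_eq`, or by
density of Schwartz functions and continuity in `f`, or directly from `inner_fourier_eq` with a
Schwartz function) and `∫ (𝓕 f) φ = ∫ f 𝓕φ` for integrable `f`
(`VectorFourier.integral_fourierIntegral_smul_eq_flip`); both functions are locally integrable, so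
they agree a.e. (test with Schwartz, or compactly supported smooth, functions).
`FTsymm_coe_of_integrable` in the same way or by reflection.
`parseval`: true for Schwartz `f, g` (`SchwartzMap.integral_fourier_smul_eq` and
`𝓕 𝓕 g (x) = g (-x)`), both sides are continuous bilinear on `L² × L²`, density; or directly from
`Lp.inner_fourier_eq` applied to `conj f` and `g`. -/

set_option autoImplicit false

open MeasureTheory Filter Topology Set
open scoped FourierTransform SchwartzMap InnerProductSpace ENNReal ContDiff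

noncomputable section

namespace FracScat

/-- The convolution `∫ f(y) q(x-y) dy`. -/
def cv (q f : E3 → ℂ) (x : E3) : ℂ := ∫ y, f y * q (x - y)

theorem integrable_mul (f g : HS) : Integrable (fun x => f x * g x) :=
  MemLp.integrable_mul (p := 2) (q := 2) (Lp.memLp f) (Lp.memLp g)

private theorem integral_mul_eq_inner (f g : HS) :
    ∫ x, f x * g x = (inner ℂ (star f) g : ℂ) := by
  rw [L2.inner_def]
  apply integral_congr_ae
  filter_upwards [Lp.coeFn_star f] with x hx
  rw [hx]
  simp [mul_comm]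

private theorem norm_star_le (f : HS) : ‖star f‖ ≤ ‖f‖ := by
  apply Lp.norm_le_norm_of_ae_le
  filter_upwards [Lp.coeFn_star f] with x hx
  rw [hx]
  simp

theorem norm_integral_mul_le (f g : HS) : ‖∫ x, f x * g x‖ ≤ ‖f‖ * ‖g‖ := by
  rw [integral_mul_eq_inner]
  refine (norm_inner_le_norm _ _).trans ?_
  exact mul_le_mul_of_nonneg_right (norm_star_le f) (norm_nonneg _)

private theorem FT_eq (f : HS) : FT f = 𝓕 f := rfl

private theorem FTsymm_eq (f : HS) : FT.symm f = 𝓕⁻ f := rfl

private theorem FT_schwartz (f : HS) (φ : 𝓢(E3, ℂ)) :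
    ∫ x, φ x • (FT f : E3 → ℂ) x = ∫ x, (𝓕 φ) x • f x := by
  have h := congrArg (fun T : 𝓢'(E3, ℂ) => T φ) (Lp.fourier_toTemperedDistribution_eq f)
  simp only [TemperedDistribution.fourier_apply, Lp.toTemperedDistribution_apply] at h
  rw [FT_eq, ← h]

private theorem FTsymm_schwartz (f : HS) (φ : 𝓢(E3, ℂ)) :
    ∫ x, φ x • (FT.symm f : E3 → ℂ) x = ∫ x, (𝓕⁻ φ) x • f x := by
  have h := congrArg (fun T : 𝓢'(E3, ℂ) => T φ) (Lp.fourierInv_toTemperedDistribution_eq f)
  simp only [TemperedDistribution.fourierInv_apply, Lp.toTemperedDistribution_apply] at h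
  rw [FTsymm_eq, ← h]

private theorem ae_of_schwartz {u v : E3 → ℂ} (hu : LocallyIntegrable u) (hv : LocallyIntegrable v)
    (h : ∀ φ : 𝓢(E3, ℂ), ∫ x, φ x • u x = ∫ x, φ x • v x) : u =ᵐ[volume] v := by
  apply ae_eq_of_integral_contDiff_smul_eq hu hv
  intro g g_smooth g_cpt
  have hg₁ : HasCompactSupport (Complex.ofRealCLM ∘ g) := g_cpt.comp_left rfl
  have hg₂ : ContDiff ℝ ∞ (Complex.ofRealCLM ∘ g) := by fun_prop
  have := h (hg₁.toSchwartzMap hg₂)
  simpa using this

private theorem flip_schwartz (f : E3 → ℂ) (hf : Integrable f) (φ : 𝓢(E3, ℂ)) :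
    ∫ x, φ x • (𝓕 f : E3 → ℂ) x = ∫ x, (𝓕 φ) x • f x := by
  have h := VectorFourier.integral_fourierIntegral_smul_eq_flip (L := innerₗ E3)
      Real.continuous_fourierChar continuous_inner (φ.integrable (μ := volume)) hf
  rw [flip_innerₗ] at h
  exact h.symm

theorem FT_coe_of_integrable (f : HS) (hf : Integrable (f : E3 → ℂ)) :
    (FT f : E3 → ℂ) =ᵐ[volume] 𝓕 (f : E3 → ℂ) := by
  have hcont : Continuous (𝓕 (f : E3 → ℂ)) :=
    VectorFourier.fourierIntegral_continuous Real.continuous_fourierChar continuous_inner hf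
  apply ae_of_schwartz ((Lp.memLp (FT f)).locallyIntegrable (by norm_num))
    hcont.locallyIntegrable
  intro φ
  rw [FT_schwartz, flip_schwartz _ hf]

theorem FTsymm_coe_of_integrable (g : HS) (hg : Integrable (g : E3 → ℂ)) :
    (FT.symm g : E3 → ℂ) =ᵐ[volume] 𝓕⁻ (g : E3 → ℂ) := by
  have hcont : Continuous (𝓕 (g : E3 → ℂ)) :=
    VectorFourier.fourierIntegral_continuous Real.continuous_fourierChar continuous_inner hg
  have hneg : (𝓕⁻ (g : E3 → ℂ)) = fun x => 𝓕 (g : E3 → ℂ) (-x) := by
    funext x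
    exact Real.fourierInv_eq_fourier_neg _ x
  have hcont' : Continuous (𝓕⁻ (g : E3 → ℂ)) := by
    rw [hneg]; exact hcont.comp continuous_neg
  apply ae_of_schwartz ((Lp.memLp (FT.symm g)).locallyIntegrable (by norm_num))
    hcont'.locallyIntegrable
  intro φ
  rw [FTsymm_schwartz]
  have h := VectorFourier.integral_fourierIntegral_smul_eq_flip (L := innerₗ E3)
      Real.continuous_fourierChar continuous_inner (φ.integrable (μ := volume)).comp_neg hg
  rw [flip_innerₗ] at h
  have h1 : ∀ x, (𝓕⁻ φ) x = (𝓕 (fun y => φ (-y)) : E3 → ℂ) x := by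
    intro x
    rw [SchwartzMap.fourierInv_coe, Real.fourierInv_eq_fourier_comp_neg]
  simp_rw [h1, hneg]
  refine Eq.trans h ?_
  rw [← integral_neg_eq_self]
  simp only [neg_neg]
  rfl

private theorem continuous_integral_mul (h : HS) : Continuous fun g : HS => ∫ x, h x * g x := by
  simp_rw [integral_mul_eq_inner]
  fun_prop

theorem parseval (f g : HS) :
    ∫ x, f x * g x = ∫ ξ, (FT f : E3 → ℂ) ξ * (FT g : E3 → ℂ) (-ξ) := by
  have hmp : MeasurePreserving (fun x : E3 => -x) volume volume := Measure.measurePreserving_neg volume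
  set F : HS := Lp.compMeasurePreserving (fun x : E3 => -x) hmp (FT f) with hF
  have hFc : (F : E3 → ℂ) =ᵐ[volume] fun x => (FT f : E3 → ℂ) (-x) :=
    Lp.coeFn_compMeasurePreserving (FT f) hmp
  have key : ∀ g : HS, ∫ ξ, (FT f : E3 → ℂ) ξ * (FT g : E3 → ℂ) (-ξ) =
      ∫ ξ, F ξ * (FT g : E3 → ℂ) ξ := by
    intro g
    have h1 : ∫ ξ, (FT f : E3 → ℂ) ξ * (FT g : E3 → ℂ) (-ξ) =
        ∫ ξ, (FT f : E3 → ℂ) (-ξ) * (FT g : E3 → ℂ) ξ := by
      rw [← integral_neg_eq_self]
      simp
    rw [h1]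
    apply integral_congr_ae
    filter_upwards [hFc] with x hx
    rw [hx]
  rw [key]
  refine DenseRange.induction_on (p := fun g : HS => ∫ x, f x * g x =
      ∫ ξ, F ξ * (FT g : E3 → ℂ) ξ)
    (SchwartzMap.denseRange_toLpCLM (p := 2) (μ := (volume : Measure E3)) (F := ℂ)
      ENNReal.ofNat_ne_top) g ?_ ?_
  · apply isClosed_eq
    · exact continuous_integral_mul f
    · exact (continuous_integral_mul F).comp FT.continuous
  · intro φ
    have e1 : ∫ x, f x * (φ.toLp 2 (volume : Measure E3)) x = ∫ x, φ x • f x := by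
      apply integral_congr_ae
      filter_upwards [φ.coeFn_toLp 2 (volume : Measure E3)] with x hx
      rw [hx, smul_eq_mul, mul_comm]
    have e2 : ∫ ξ, F ξ * (FT (φ.toLp 2 (volume : Measure E3)) : E3 → ℂ) ξ =
        ∫ ξ, (𝓕⁻ φ) ξ • (FT f : E3 → ℂ) ξ := by
      rw [FT_eq, SchwartzMap.toLp_fourier_eq]
      have e3 : ∫ ξ, F ξ * (((𝓕 φ).toLp 2 (volume : Measure E3)) : E3 → ℂ) ξ =
          ∫ ξ, (FT f : E3 → ℂ) (-ξ) * (𝓕 φ) ξ := by
        apply integral_congr_ae
        filter_upwards [(𝓕 φ).coeFn_toLp 2 (volume : Measure E3), hFc] with x hx hx2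
        rw [hx, hx2]
      rw [e3, ← integral_neg_eq_self]
      congr 1
      funext ξ
      rw [neg_neg, SchwartzMap.fourierInv_coe, Real.fourierInv_eq_fourier_neg,
        SchwartzMap.fourier_coe, smul_eq_mul, mul_comm]
    change ∫ x, f x * (φ.toLp 2 (volume : Measure E3)) x =
      ∫ ξ, F ξ * (FT (φ.toLp 2 (volume : Measure E3)) : E3 → ℂ) ξ
    rw [e1, e2, ← FTsymm_schwartz, LinearIsometryEquiv.symm_apply_apply]

end FracScat

end
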