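import Pool.Agent.Lib.MP_6e2ba5_an.PhiA

/-! # The outgoing kernel is a fundamental solution

For `κ = k + iε`: `∫ Phi κ (-Δ - κ²) u = ∫ 𝓕(Phi κ)(ξ) (a² - κ²) 𝓕 u(-ξ) dξ = ∫ 𝓕 u = u(0)`
(`Phi_ft`, `Phi_integrable`, `VectorFourier.integral_fourierIntegral_smul_eq_flip`); `ε → 0+` by
dominated convergence (`|Phi κ x| ≤ 1/(4π|x|)`, times a Schwartz function is integrable). -/

set_option autoImplicit false

open MeasureTheory Filter Topology Set
open scoped FourierTransform SchwartzMap InnerProductSpace ENNReal ContDiff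

noncomputable section

namespace FracScat

private theorem Green_ft_lap0 (u : 𝓢(E3, ℂ)) (ξ : E3) :
    (𝓕 (Laplacian.laplacian u : 𝓢(E3, ℂ)) : 𝓢(E3, ℂ)) ξ =
      -((((2 * Real.pi * ‖ξ‖ : ℝ) : ℂ)) ^ 2) * (𝓕 u : 𝓢(E3, ℂ)) ξ := by
  have hg : (fun x : E3 => ‖x‖ ^ 2).HasTemperateGrowth := by fun_prop
  rw [SchwartzMap.laplacian_eq_fourierMultiplierCLM, SchwartzMap.fourierMultiplierCLM_apply,
    FourierTransform.fourier_smul, FourierTransform.fourier_fourierInv_eq]
  simp [SchwartzMap.smulLeftCLM_apply_apply hg]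
  ring

private theorem Green_ft_lap (u : 𝓢(E3, ℂ)) (ξ : E3) :
    (𝓕⁻ (Laplacian.laplacian u : 𝓢(E3, ℂ)) : 𝓢(E3, ℂ)) ξ =
      -((((2 * Real.pi * ‖ξ‖ : ℝ) : ℂ)) ^ 2) * (𝓕⁻ u : 𝓢(E3, ℂ)) ξ := by
  have h1 : ∀ v : 𝓢(E3, ℂ), (𝓕⁻ v : 𝓢(E3, ℂ)) ξ = (𝓕 v : 𝓢(E3, ℂ)) (-ξ) := by
    intro v
    rw [SchwartzMap.fourierInv_coe, SchwartzMap.fourier_coe, Real.fourierInv_eq_fourier_neg]
  rw [h1, h1, Green_ft_lap0, norm_neg]

private theorem Green_im {k : ℂ} (hk : 0 < k.im) (a : ℝ) : ((a : ℂ)) ^ 2 - k ^ 2 ≠ 0 := by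
  intro h
  have h1 : ((a : ℂ) - k) * ((a : ℂ) + k) = 0 := by linear_combination h
  rcases mul_eq_zero.1 h1 with h2 | h2
  · have := congrArg Complex.im h2
    simp at this
    linarith
  · have := congrArg Complex.im h2
    simp at this
    linarith

private theorem Green_complex {k : ℂ} (hk : 0 < k.im) (u : 𝓢(E3, ℂ)) :
    ∫ x, Phi k x * ((Laplacian.laplacian u : 𝓢(E3, ℂ)) x + k ^ 2 * u x) = -u 0 := by
  set h : 𝓢(E3, ℂ) := Laplacian.laplacian u + k ^ 2 • u with hh
  have h1 : ∀ x, (Laplacian.laplacian u : 𝓢(E3, ℂ)) x + k ^ 2 * u x = h x := by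
    intro x
    simp [hh]
  simp_rw [h1]
  have h2 : (𝓕 (𝓕⁻ h : 𝓢(E3, ℂ)) : 𝓢(E3, ℂ)) = h := FourierTransform.fourier_fourierInv_eq h
  have h3 : ∫ ξ, 𝓕 (Phi k) ξ * (𝓕⁻ h : 𝓢(E3, ℂ)) ξ = ∫ x, Phi k x * h x := by
    have := VectorFourier.integral_fourierIntegral_smul_eq_flip (L := innerₗ E3)
      (μ := (volume : Measure E3)) (ν := (volume : Measure E3))
      Real.continuous_fourierChar continuous_inner (Phi_integrable hk) (𝓕⁻ h : 𝓢(E3, ℂ)).integrable
    simp only [smul_eq_mul, flip_innerₗ] at this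
    have h4 : ∀ x, VectorFourier.fourierIntegral Real.fourierChar volume (innerₗ E3)
        ((𝓕⁻ h : 𝓢(E3, ℂ)) : E3 → ℂ) x = h x := by
      intro x
      conv_rhs => rw [← h2]
      rfl
    simp_rw [h4] at this
    exact this
  rw [← h3]
  have h5 : ∫ ξ, 𝓕 (Phi k) ξ * (𝓕⁻ h : 𝓢(E3, ℂ)) ξ = ∫ ξ, -((𝓕⁻ u : 𝓢(E3, ℂ)) ξ) := by
    refine integral_congr_ae ?_
    have h6 : ∀ᵐ ξ ∂(volume : Measure E3), ξ ≠ 0 := by
      rw [ae_iff]
      simp
    filter_upwards [h6] with ξ hξ
    rw [Phi_ft hk hξ, hh, FourierTransform.fourierInv_add, FourierTransform.fourierInv_smul,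
      _root_.add_apply, Green_ft_lap, _root_.smul_apply, smul_eq_mul]
    have h7 := Green_im hk (2 * Real.pi * ‖ξ‖)
    field_simp
    ring
  rw [h5, integral_neg]
  have h8 : (𝓕 (𝓕⁻ u : 𝓢(E3, ℂ)) : 𝓢(E3, ℂ)) = u := FourierTransform.fourier_fourierInv_eq u
  have h9 : (𝓕 (𝓕⁻ u : 𝓢(E3, ℂ)) : 𝓢(E3, ℂ)) 0 = ∫ ξ, (𝓕⁻ u : 𝓢(E3, ℂ)) ξ := by
    rw [SchwartzMap.fourier_coe, Real.fourier_eq]
    simp
  rw [← h9, h8]

private theorem Green_bound (x : E3) : 1 / (4 * Real.pi * ‖x‖) ≤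
    Real.exp 1 * ‖Phi Complex.I x‖ + 1 := by
  have hpi := Real.pi_gt_three
  rcases eq_or_ne x 0 with rfl | hx
  · simp [Phi]
  have h0 : 0 < ‖x‖ := norm_pos_iff.2 hx
  rcases le_total ‖x‖ 1 with h1 | h1
  · have h2 : ‖Phi Complex.I x‖ = Real.exp (-‖x‖) / (4 * Real.pi * ‖x‖) := by
      unfold Phi
      rw [norm_div, Complex.norm_exp]
      congr 1
      · congr 1
        simp
      · simp [abs_of_pos Real.pi_pos]
    rw [h2]
    have h3 : 1 ≤ Real.exp 1 * Real.exp (-‖x‖) := by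
      rw [← Real.exp_add]
      exact Real.one_le_exp (by linarith)
    have h4 : 1 / (4 * Real.pi * ‖x‖) ≤
        Real.exp 1 * Real.exp (-‖x‖) / (4 * Real.pi * ‖x‖) :=
      div_le_div_of_nonneg_right h3 (by positivity)
    rw [mul_div_assoc] at h4
    linarith
  · have h2 : 1 / (4 * Real.pi * ‖x‖) ≤ 1 := by
      rw [div_le_one (by positivity)]
      nlinarith
    have h3 : 0 ≤ Real.exp 1 * ‖Phi Complex.I x‖ := by positivity
    linarith

theorem green_rep {k : ℝ} (hk : 0 < k) (u : 𝓢(E3, ℂ)) :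
    u 0 = -∫ x, Phi k x * ((Laplacian.laplacian u : 𝓢(E3, ℂ)) x + (k : ℂ) ^ 2 * u x) := by
  set L : 𝓢(E3, ℂ) := Laplacian.laplacian u with hL
  set G : E3 → ℝ := fun x => ‖L x‖ + (k + 1) ^ 2 * ‖u x‖ with hG
  have hGi : Integrable G := L.integrable.norm.add (u.integrable.norm.const_mul _)
  have hGc : Continuous G := by
    exact (L.continuous.norm).add (continuous_const.mul u.continuous.norm)
  obtain ⟨C, hC⟩ : ∃ C : ℝ, ∀ x, G x ≤ C := by
    obtain ⟨C1, h1⟩ := L.decay 0 0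
    obtain ⟨C2, h2⟩ := u.decay 0 0
    refine ⟨C1 + (k + 1) ^ 2 * C2, fun x => ?_⟩
    have h3 : ‖L x‖ ≤ C1 := by simpa using h1.2 x
    have h4 : ‖u x‖ ≤ C2 := by simpa using h2.2 x
    have h5 : (k + 1) ^ 2 * ‖u x‖ ≤ (k + 1) ^ 2 * C2 :=
      mul_le_mul_of_nonneg_left h4 (by positivity)
    exact add_le_add h3 h5
  have hPI : Integrable (Phi Complex.I) := Phi_integrable (by simp)
  have hb : Integrable (fun x => (Real.exp 1 * ‖Phi Complex.I x‖ + 1) * G x) := by
    have h1 : Integrable (fun x => Real.exp 1 * ‖Phi Complex.I x‖ * G x) := by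
      refine Integrable.mono' (hPI.norm.const_mul (Real.exp 1 * C)) ?_ ?_
      · exact (hPI.1.norm.const_mul _).mul hGc.aestronglyMeasurable
      · filter_upwards with x
        have hG0 : 0 ≤ G x := by positivity
        rw [Real.norm_of_nonneg (by positivity)]
        have := mul_le_mul_of_nonneg_left (hC x)
          (by positivity : 0 ≤ Real.exp 1 * ‖Phi Complex.I x‖)
        linarith
    refine (h1.add hGi).congr (Eventually.of_forall fun x => ?_)
    simp only [Pi.add_apply]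
    ring
  have hlim : Tendsto (fun ε : ℝ => ∫ x, Phi ((k : ℂ) + ε * Complex.I) x *
      (L x + ((k : ℂ) + ε * Complex.I) ^ 2 * u x)) (𝓝[>] 0)
      (𝓝 (∫ x, Phi k x * (L x + (k : ℂ) ^ 2 * u x))) := by
    refine tendsto_integral_filter_of_dominated_convergence
      (fun x => (Real.exp 1 * ‖Phi Complex.I x‖ + 1) * G x) ?_ ?_ hb ?_
    · filter_upwards [self_mem_nhdsWithin] with ε hε
      have hε' : 0 < ((k : ℂ) + ε * Complex.I).im := by simpa using hε
      refine (Phi_integrable hε').1.mul ?_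
      exact (L.continuous.add (continuous_const.mul u.continuous)).aestronglyMeasurable
    · have h1 : ∀ᶠ ε : ℝ in 𝓝[>] 0, ε < 1 := by
        filter_upwards [Ioo_mem_nhdsGT (zero_lt_one' ℝ)] with ε hε using hε.2
      filter_upwards [self_mem_nhdsWithin, h1] with ε hε hε1
      have hε0 : 0 < ε := hε
      filter_upwards with x
      rw [norm_mul]
      refine mul_le_mul ?_ ?_ (norm_nonneg _) (by positivity)
      · refine le_trans ?_ (Green_bound x)
        unfold Phi
        rw [norm_div, Complex.norm_exp]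
        have h2 : ‖(4 * (Real.pi : ℂ) * (‖x‖ : ℂ))‖ = 4 * Real.pi * ‖x‖ := by
          simp [abs_of_pos Real.pi_pos]
        rw [h2]
        refine div_le_div_of_nonneg_right ?_ (by positivity)
        rw [Real.exp_le_one_iff]
        simp only [Complex.mul_re, Complex.I_re, Complex.I_im, Complex.add_re, Complex.ofReal_re,
          Complex.ofReal_im, Complex.add_im, Complex.mul_im]
        have : 0 ≤ ε * ‖x‖ := by positivity
        simp
        linarith
      · refine (norm_add_le _ _).trans ?_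
        rw [hG]
        simp only
        rw [norm_mul, norm_pow]
        gcongr
        refine (norm_add_le _ _).trans ?_
        rw [norm_mul]
        simp
        rw [abs_of_pos hk, abs_of_pos hε0]
        linarith
    · filter_upwards with x
      refine Tendsto.mul ?_ ?_
      · unfold Phi
        refine Tendsto.div_const ?_ _
        have hc : Continuous (fun ε : ℝ => Complex.exp (Complex.I * ((k : ℂ) + ε * Complex.I) *
          ‖x‖)) := by fun_prop
        have := hc.tendsto 0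
        simp only [Complex.ofReal_zero, zero_mul, add_zero] at this
        exact this.mono_left nhdsWithin_le_nhds
      · have hc : Continuous (fun ε : ℝ => L x + ((k : ℂ) + ε * Complex.I) ^ 2 * u x) := by
          fun_prop
        have := hc.tendsto 0
        simp only [Complex.ofReal_zero, zero_mul, add_zero] at this
        exact this.mono_left nhdsWithin_le_nhds
  have hlim2 : Tendsto (fun ε : ℝ => ∫ x, Phi ((k : ℂ) + ε * Complex.I) x *
      (L x + ((k : ℂ) + ε * Complex.I) ^ 2 * u x)) (𝓝[>] 0) (𝓝 (-u 0)) := by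
    refine Tendsto.congr' ?_ tendsto_const_nhds
    filter_upwards [self_mem_nhdsWithin] with ε hε
    have hε' : 0 < ((k : ℂ) + ε * Complex.I).im := by simpa using hε
    exact (Green_complex hε' u).symm
  rw [tendsto_nhds_unique hlim hlim2, neg_neg]

end FracScat

end
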