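import Pool.Agent.Lib.MP_6e2ba5_an.Ops

/-! # Bounds and continuity of the symbol `gs`

All statements hold for the `ξ` with `a = 2π‖ξ‖ > 0`, `a ≠ k`, `a ≠ k₀`, i.e. for almost every `ξ`
(spheres and the origin have measure zero: `MeasureTheory.Measure.addHaar_sphere`).
`‖ck s k‖ = ‖k‖^(2-2s)/s` for `0 < s` (`Complex.norm_cpow_eq_rpow_re_of_pos` is not enough here,
use `Complex.norm_cpow_of_ne_zero`: the exponent is real, so the argument does not matter).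
`gs_bound`: `‖gs‖ ≤ (‖k‖^(2-2s)/s) (2R/‖k‖) + C ‖k‖^(-2s)`, `kap_bound`, `hs_bound`.
`gs_cont`: `kap_bound`, `kap_lip`, `hs_cont` and continuity of `ck s` on `Quad`
(`Quad ⊆ slitPlane`). -/

set_option autoImplicit false

open MeasureTheory Filter Topology Set
open scoped FourierTransform SchwartzMap InnerProductSpace ENNReal

noncomputable section

namespace FracScat

/-- Almost every `ξ` has `2π‖ξ‖ > 0` and `2π‖ξ‖ ≠ k`. -/
theorem ae_good (k : ℂ) : ∀ᵐ ξ ∂(volume : Measure E3), 0 < 2 * Real.pi * ‖ξ‖ ∧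
    ((2 * Real.pi * ‖ξ‖ : ℝ) : ℂ) ≠ k := by
  have hpi := Real.pi_pos
  have h1 : volume (Metric.sphere (0 : E3) (‖k‖ / (2 * Real.pi))) = 0 :=
    Measure.addHaar_sphere volume 0 _
  have h2 : volume ({0} : Set E3) = 0 := measure_singleton 0
  have h3 : ∀ᵐ ξ ∂(volume : Measure E3), ξ ∉ Metric.sphere (0 : E3) (‖k‖ / (2 * Real.pi)) :=
    measure_eq_zero_iff_ae_notMem.1 h1
  have h4 : ∀ᵐ ξ ∂(volume : Measure E3), ξ ∉ ({0} : Set E3) :=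
    measure_eq_zero_iff_ae_notMem.1 h2
  filter_upwards [h3, h4] with ξ h5 h6
  have h7 : 0 < ‖ξ‖ := norm_pos_iff.2 h6
  refine ⟨by positivity, fun h8 => h5 ?_⟩
  rw [mem_sphere_zero_iff_norm, eq_div_iff (by positivity)]
  have h9 := congrArg norm h8
  rw [Complex.norm_real, Real.norm_of_nonneg (by positivity)] at h9
  linarith

private theorem GsBound_norm_ck {s : ℝ} (h0 : 0 < s) {k : ℂ} (hk : k ≠ 0) :
    ‖ck s k‖ = ‖k‖ ^ (2 - 2 * s) / s := by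
  unfold ck
  rw [norm_div, Complex.norm_real, Real.norm_of_nonneg h0.le, Complex.norm_cpow_of_ne_zero hk,
    Complex.ofReal_re, Complex.ofReal_im, mul_zero, Real.exp_zero, div_one]

private theorem GsBound_pt {s : ℝ} (h0 : 0 < s) {R : ℝ} (hR : 0 ≤ R) {C : ℝ}
    (hC : ∀ k ∈ Quad, ∀ a : ℝ, 0 ≤ a → (a : ℂ) ≠ k → ‖hs s k a‖ ≤ C * ‖k‖ ^ (-(2 * s)))
    {k : ℂ} (hk : k ∈ Quad) :
    ∀ᵐ ξ ∂(volume : Measure E3), ‖gs s R k ξ‖ ≤ (2 * R / s) * ‖k‖ ^ (1 - 2 * s) +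
      C * ‖k‖ ^ (-(2 * s)) := by
  filter_upwards [ae_good k] with ξ hξ
  unfold gs
  refine (norm_add_le _ _).trans (add_le_add ?_ (hC k hk _ hξ.1.le hξ.2))
  rw [norm_mul, GsBound_norm_ck h0 hk.2.2]
  have h1 := kap_bound hk.2.1 hk.2.2 hR hξ.1
  have hkpos : 0 < ‖k‖ := norm_pos_iff.2 hk.2.2
  have h2 : 0 ≤ ‖k‖ ^ (2 - 2 * s) / s := by positivity
  refine (mul_le_mul_of_nonneg_left h1 h2).trans (le_of_eq ?_)
  have h3 : ‖k‖ ^ (2 - 2 * s) = ‖k‖ ^ (1 - 2 * s) * ‖k‖ := by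
    rw [← Real.rpow_add_one hkpos.ne']
    congr 1
    ring
  rw [h3]
  field_simp

private theorem GsBound_meas (s R : ℝ) (k : ℂ) : Measurable (gs s R k) := by
  have h1 : Measurable (fun ξ : E3 => 2 * Real.pi * ‖ξ‖) := measurable_norm.const_mul _
  have h2 : Measurable (fun ξ : E3 => kap k R (2 * Real.pi * ‖ξ‖)) :=
    (kap_measurable k R).comp h1
  have h3 : Measurable (fun ξ : E3 => hs s k (2 * Real.pi * ‖ξ‖)) :=
    (hs_measurable s k).comp h1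
  exact (h2.const_mul _).add h3

theorem gs_BM {s : ℝ} (h0 : 0 < s) (h2 : s < 2) {R : ℝ} (hR : 0 ≤ R) {k : ℂ} (hk : k ∈ Quad) :
    BM (gs s R k) := by
  obtain ⟨C, _, hC⟩ := hs_bound h0 h2
  exact ⟨(GsBound_meas s R k).aestronglyMeasurable, _, GsBound_pt h0 hR hC hk⟩

theorem gs_bound {s : ℝ} (h0 : 0 < s) (h2 : s < 2) {R : ℝ} (hR : 0 ≤ R) :
    ∃ C : ℝ, 0 ≤ C ∧ ∀ k ∈ Quad, 1 ≤ ‖k‖ →
      ∀ᵐ ξ ∂(volume : Measure E3), ‖gs s R k ξ‖ ≤ C * ‖k‖ ^ (1 - 2 * s) := by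
  obtain ⟨C, hC0, hC⟩ := hs_bound h0 h2
  refine ⟨2 * R / s + C, by positivity, fun k hk hk1 => ?_⟩
  filter_upwards [GsBound_pt h0 hR hC hk] with ξ hξ
  refine hξ.trans ?_
  have h3 : ‖k‖ ^ (-(2 * s)) ≤ ‖k‖ ^ (1 - 2 * s) :=
    Real.rpow_le_rpow_of_exponent_le hk1 (by linarith)
  rw [add_mul]
  have := mul_le_mul_of_nonneg_left h3 hC0
  linarith

theorem gs_cont {s : ℝ} (h0 : 0 < s) (h2 : s < 2) {R : ℝ} (hR : 0 ≤ R) {k₀ : ℂ}
    (hk₀ : k₀ ∈ Quad) {ε : ℝ} (hε : 0 < ε) :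
    ∃ δ : ℝ, 0 < δ ∧ ∀ k ∈ Quad, ‖k - k₀‖ < δ →
      ∀ᵐ ξ ∂(volume : Measure E3), ‖gs s R k ξ - gs s R k₀ ξ‖ ≤ ε := by
  obtain ⟨δ1, hδ1, H1⟩ := hs_cont h0 h2 hk₀ (ε := ε / 3) (by positivity)
  have hslit : k₀ ∈ Complex.slitPlane := by
    rw [Complex.mem_slitPlane_iff]
    by_contra hcon
    push Not at hcon
    apply hk₀.2.2
    apply Complex.ext
    · exact le_antisymm hcon.1 hk₀.1
    · exact hcon.2
  have hcont : ContinuousAt (ck s) k₀ := by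
    have h3 : ContinuousAt (fun k : ℂ => k ^ ((2 - 2 * s : ℝ) : ℂ)) k₀ :=
      continuousAt_cpow_const hslit
    exact h3.div_const _
  -- bound for `kap k₀`
  set B : ℝ := 2 * R / ‖k₀‖ with hB
  have hkpos : 0 < ‖k₀‖ := norm_pos_iff.2 hk₀.2.2
  have hB0 : 0 ≤ B := by positivity
  obtain ⟨δ2, hδ2, H2⟩ := Metric.continuousAt_iff.1 hcont (min 1 (ε / (3 * (B + 1))))
    (by positivity)
  set D : ℝ := (‖ck s k₀‖ + 1) * R ^ 3 with hD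
  have hD0 : 0 ≤ D := by positivity
  refine ⟨min δ1 (min δ2 (ε / (3 * (D + 1)))), by positivity, fun k hk hkk => ?_⟩
  have hk1 : ‖k - k₀‖ < δ1 := hkk.trans_le (min_le_left _ _)
  have hk2 : ‖k - k₀‖ < δ2 := hkk.trans_le ((min_le_right _ _).trans (min_le_left _ _))
  have hk3 : ‖k - k₀‖ < ε / (3 * (D + 1)) :=
    hkk.trans_le ((min_le_right _ _).trans (min_le_right _ _))
  have h4 := H2 (by rwa [dist_eq_norm])
  rw [dist_eq_norm] at h4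
  have h5 : ‖ck s k - ck s k₀‖ ≤ 1 := (h4.trans_le (min_le_left _ _)).le
  have h6 : ‖ck s k - ck s k₀‖ ≤ ε / (3 * (B + 1)) := (h4.trans_le (min_le_right _ _)).le
  have h7 : ‖ck s k‖ ≤ ‖ck s k₀‖ + 1 := by
    have : ck s k = ck s k₀ + (ck s k - ck s k₀) := by ring
    rw [this]
    exact (norm_add_le _ _).trans (by linarith)
  filter_upwards [ae_good k, ae_good k₀] with ξ hξ hξ0
  have h8 := H1 k hk hk1 _ hξ.1.le hξ.2 hξ0.2
  have h9 := kap_lip (R := R) hk.2.1 hk₀.2.1 hR hξ.1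
  have h10 : ‖kap k₀ R (2 * Real.pi * ‖ξ‖)‖ ≤ B := kap_bound hk₀.2.1 hk₀.2.2 hR hξ.1
  unfold gs
  have h11 : ck s k * kap k R (2 * Real.pi * ‖ξ‖) + hs s k (2 * Real.pi * ‖ξ‖) -
      (ck s k₀ * kap k₀ R (2 * Real.pi * ‖ξ‖) + hs s k₀ (2 * Real.pi * ‖ξ‖)) =
      ck s k * (kap k R (2 * Real.pi * ‖ξ‖) - kap k₀ R (2 * Real.pi * ‖ξ‖)) +
      (ck s k - ck s k₀) * kap k₀ R (2 * Real.pi * ‖ξ‖) +
      (hs s k (2 * Real.pi * ‖ξ‖) - hs s k₀ (2 * Real.pi * ‖ξ‖)) := by ring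
  rw [h11]
  have h12 : ‖ck s k * (kap k R (2 * Real.pi * ‖ξ‖) - kap k₀ R (2 * Real.pi * ‖ξ‖))‖ ≤ ε / 3 := by
    rw [norm_mul]
    calc ‖ck s k‖ * ‖kap k R (2 * Real.pi * ‖ξ‖) - kap k₀ R (2 * Real.pi * ‖ξ‖)‖
        ≤ (‖ck s k₀‖ + 1) * (R ^ 3 * ‖k - k₀‖) :=
          mul_le_mul h7 h9 (norm_nonneg _) (by positivity)
      _ = D * ‖k - k₀‖ := by rw [hD]; ring
      _ ≤ D * (ε / (3 * (D + 1))) := mul_le_mul_of_nonneg_left hk3.le hD0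
      _ ≤ ε / 3 := by
          rw [mul_div_assoc', div_le_div_iff₀ (by positivity) (by positivity)]
          nlinarith
  have h13 : ‖(ck s k - ck s k₀) * kap k₀ R (2 * Real.pi * ‖ξ‖)‖ ≤ ε / 3 := by
    rw [norm_mul]
    calc ‖ck s k - ck s k₀‖ * ‖kap k₀ R (2 * Real.pi * ‖ξ‖)‖
        ≤ (ε / (3 * (B + 1))) * B := mul_le_mul h6 h10 (norm_nonneg _) (by positivity)
      _ ≤ ε / 3 := by
          rw [div_mul_eq_mul_div, div_le_div_iff₀ (by positivity) (by positivity)]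
          nlinarith
  refine (norm_add_le _ _).trans ?_
  have := norm_add_le (ck s k * (kap k R (2 * Real.pi * ‖ξ‖) - kap k₀ R (2 * Real.pi * ‖ξ‖)))
    ((ck s k - ck s k₀) * kap k₀ R (2 * Real.pi * ‖ξ‖))
  linarith

end FracScat

end
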