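import Pool.Agent.Lib.MP_6e2ba5_an.FTfacts

/-! # Division of smooth symbols

Let `φ` be a Schwartz function whose Fourier transform has compact support away from `0`. The
functions `b₁ = (a² - k²)/(a^(2s) - k^(2s))` and `b₂ = 2πi ξ_j (a^(s-1) - k^(s-1))/(a^(2s) - k^(2s))`,
`a = 2π‖ξ‖`, extend to smooth functions on `ξ ≠ 0`: `a ↦ a^p` is analytic on `(0,∞)`, and
`(a^p - k^p)/(a - k)` extends to the smooth function `∫_0^1 p (k + t(a-k))^(p-1) dt` (or `dslope`),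
which is positive for `p > 0`. So `b 𝓕 φ` is smooth with compact support, hence Schwartz
(`HasCompactSupport.toSchwartzMap`); let `ψ` be its inverse Fourier transform. Then
`(a^(2s) - k^(2s)) 𝓕 ψ = (a² - k²) 𝓕 φ`, i.e. `fracLap s ψ - k^(2s) ψ = -Δφ - k² φ`, and in the
second case `fracLap s ψ - k^(2s) ψ = fracGrad s j φ - k^(s-1) ∂_j φ`. -/

set_option autoImplicit false

open MeasureTheory Filter Topology Set
open scoped FourierTransform SchwartzMap InnerProductSpace ENNReal ContDiff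

noncomputable section

namespace FracScat

private lemma SD_rpow {p a : ℝ} (ha : 0 < a) : AnalyticAt ℝ (fun b : ℝ => b ^ p) a := by
  have h1 : (fun b : ℝ => b ^ p) =ᶠ[𝓝 a] fun b => Real.exp (Real.log b * p) := by
    filter_upwards [lt_mem_nhds ha] with b hb
    rw [Real.rpow_def_of_pos hb]
  rw [analyticAt_congr h1]
  exact analyticAt_rexp.comp ((analyticAt_log ha).mul analyticAt_const)

/-- The divided difference of `a ^ p`. -/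
private def SD_g (k p : ℝ) : ℝ → ℝ := dslope (fun a : ℝ => a ^ p) k

private lemma SD_g_smooth {k p a : ℝ} (hk : 0 < k) (ha : 0 < a) : ContDiffAt ℝ ∞ (SD_g k p) a := by
  by_cases h : a = k
  · subst h
    obtain ⟨q, hq⟩ := SD_rpow (p := p) hk
    have h1 : AnalyticAt ℝ (SD_g a p) a := ⟨_, hq.has_fpower_series_dslope_fslope⟩
    exact h1.contDiffAt
  · have h1 : SD_g k p =ᶠ[𝓝 a] fun b => (b - k)⁻¹ * (b ^ p - k ^ p) := by
      filter_upwards [isOpen_ne.mem_nhds h] with b hb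
      unfold SD_g
      rw [dslope_of_ne _ hb, slope_def_field]
      ring
    refine ContDiffAt.congr_of_eventuallyEq ?_ h1
    refine ContDiffAt.mul ?_ ?_
    · exact (contDiffAt_id.sub contDiffAt_const).inv (sub_ne_zero.2 h)
    · exact (SD_rpow ha).contDiffAt.sub contDiffAt_const

private lemma SD_g_eq (k p a : ℝ) : (a - k) * SD_g k p a = a ^ p - k ^ p := by
  have := sub_smul_dslope (fun a : ℝ => a ^ p) k a
  rw [smul_eq_mul] at this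
  exact this

private lemma SD_g_ne {k p a : ℝ} (hk : 0 < k) (ha : 0 < a) (hp : 0 < p) : SD_g k p a ≠ 0 := by
  intro h0
  have h1 := SD_g_eq k p a
  rw [h0, mul_zero] at h1
  have h2 : a = k := by
    have h3 : a ^ p = k ^ p := by linarith
    exact (Real.rpow_left_inj ha.le hk.le hp.ne').1 h3
  subst h2
  unfold SD_g at h0
  rw [dslope_same, (Real.hasDerivAt_rpow_const (Or.inl ha.ne')).deriv] at h0
  have := mul_pos hp (Real.rpow_pos_of_pos ha (p - 1))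
  linarith

private lemma SD_norm_smooth {ξ : E3} (hξ : ξ ≠ 0) :
    ContDiffAt ℝ ∞ (fun η : E3 => 2 * Real.pi * ‖η‖) ξ :=
  contDiffAt_const.mul (contDiffAt_norm ℝ hξ)

private lemma SD_norm_pos {ξ : E3} (hξ : ξ ≠ 0) : 0 < 2 * Real.pi * ‖ξ‖ := by
  have := norm_pos_iff.2 hξ
  positivity

private lemma SD_ofReal {f : E3 → ℝ} {ξ : E3} (hf : ContDiffAt ℝ ∞ f ξ) :
    ContDiffAt ℝ ∞ (fun η => ((f η : ℝ) : ℂ)) ξ :=
  Complex.ofRealCLM.contDiff.contDiffAt.comp ξ hf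

/-- A smooth multiple of the Fourier transform. -/
private lemma SD_mul (φ : 𝓢(E3, ℂ)) (hc : HasCompactSupport (𝓕 (φ : E3 → ℂ)))
    (hφ : (0 : E3) ∉ tsupport (𝓕 (φ : E3 → ℂ))) (m : E3 → ℂ)
    (hm : ∀ ξ : E3, ξ ≠ 0 → ContDiffAt ℝ ∞ m ξ) :
    ∃ Ψ : 𝓢(E3, ℂ), ∀ ξ, Ψ ξ = m ξ * 𝓕 (φ : E3 → ℂ) ξ := by
  have hF : ContDiff ℝ ∞ (𝓕 (φ : E3 → ℂ)) := by
    rw [← SchwartzMap.fourier_coe]
    exact (𝓕 φ).smooth ⊤
  have hcs : HasCompactSupport (fun ξ => m ξ * 𝓕 (φ : E3 → ℂ) ξ) := hc.mul_left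
  have hsm : ContDiff ℝ ∞ (fun ξ => m ξ * 𝓕 (φ : E3 → ℂ) ξ) := by
    rw [contDiff_iff_contDiffAt]
    intro ξ
    by_cases h : ξ ∈ tsupport (𝓕 (φ : E3 → ℂ))
    · have h0 : ξ ≠ 0 := by
        rintro rfl
        exact hφ h
      exact (hm ξ h0).mul hF.contDiffAt
    · have h1 : (fun ξ => m ξ * 𝓕 (φ : E3 → ℂ) ξ) =ᶠ[𝓝 ξ] fun _ => 0 := by
        filter_upwards [(isClosed_tsupport (𝓕 (φ : E3 → ℂ))).isOpen_compl.mem_nhds h] with η hη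
        rw [image_eq_zero_of_notMem_tsupport hη, mul_zero]
      exact contDiffAt_const.congr_of_eventuallyEq h1
  exact ⟨hcs.toSchwartzMap hsm, fun ξ => rfl⟩

private lemma SD_zero (φ : 𝓢(E3, ℂ)) (hφ : (0 : E3) ∉ tsupport (𝓕 (φ : E3 → ℂ))) :
    𝓕 (φ : E3 → ℂ) 0 = 0 := image_eq_zero_of_notMem_tsupport hφ

private lemma SD_fracLap (s : ℝ) (ψ H : 𝓢(E3, ℂ))
    (hH : ∀ ξ : E3, H ξ = (((2 * Real.pi * ‖ξ‖) ^ (2 * s) : ℝ) : ℂ) * (𝓕 ψ : 𝓢(E3, ℂ)) ξ) (x : E3) :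
    fracLap s ψ x = (𝓕⁻ H : 𝓢(E3, ℂ)) x := by
  have h1 : (fun ξ : E3 => (((2 * Real.pi * ‖ξ‖) ^ (2 * s) : ℝ) : ℂ) * 𝓕 (ψ : E3 → ℂ) ξ) = (H : E3 → ℂ) := by
    funext ξ
    rw [hH ξ, SchwartzMap.fourier_coe]
  unfold fracLap
  rw [h1, ← SchwartzMap.fourierInv_coe]

/-- The common part. -/
private lemma SD_main (s k : ℝ) (A Ψ : 𝓢(E3, ℂ))
    (h : ∀ ξ : E3, (𝓕 A : 𝓢(E3, ℂ)) ξ =
      ((((2 * Real.pi * ‖ξ‖) ^ (2 * s) : ℝ) : ℂ) - ((k ^ (2 * s) : ℝ) : ℂ)) * Ψ ξ) (x : E3) :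
    fracLap s (𝓕⁻ Ψ : 𝓢(E3, ℂ)) x - ((k ^ (2 * s) : ℝ) : ℂ) * (𝓕⁻ Ψ : 𝓢(E3, ℂ)) x = A x := by
  rw [SD_fracLap s (𝓕⁻ Ψ : 𝓢(E3, ℂ)) (𝓕 A + ((k ^ (2 * s) : ℝ) : ℂ) • Ψ) (by
    intro ξ
    rw [FourierTransform.fourier_fourierInv_eq, _root_.add_apply, _root_.smul_apply, h ξ,
      smul_eq_mul]
    ring)]
  rw [FourierTransform.fourierInv_add, FourierTransform.fourierInv_smul,
    FourierTransform.fourierInv_fourier_eq, _root_.add_apply, _root_.smul_apply, smul_eq_mul]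
  ring

private lemma SD_cast (A B C D E : ℝ) (h : A ^ 2 - B ^ 2 = (C - D) * E) :
    (A : ℂ) ^ 2 - (B : ℂ) ^ 2 = ((C : ℂ) - (D : ℂ)) * (E : ℂ) := by
  exact_mod_cast congrArg Complex.ofReal h

private lemma SD_cast' (A B C D E : ℝ) (h : A - B = (C - D) * E) :
    (A : ℂ) - (B : ℂ) = ((C : ℂ) - (D : ℂ)) * (E : ℂ) := by
  exact_mod_cast congrArg Complex.ofReal h

theorem div_helm {s : ℝ} (h0 : 1 / 2 < s) (h2 : s < 2) {k : ℝ} (hk : 0 < k) (φ : 𝓢(E3, ℂ))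
    (hc : HasCompactSupport (𝓕 (φ : E3 → ℂ))) (hφ : (0 : E3) ∉ tsupport (𝓕 (φ : E3 → ℂ))) :
    ∃ ψ : 𝓢(E3, ℂ), ∀ x, fracLap s ψ x - ((k ^ (2 * s) : ℝ) : ℂ) * ψ x =
      -((Laplacian.laplacian φ : 𝓢(E3, ℂ)) x) - (k : ℂ) ^ 2 * φ x := by
  obtain ⟨Ψ, hΨ⟩ := SD_mul φ hc hφ
    (fun ξ => (((2 * Real.pi * ‖ξ‖ + k) / SD_g k (2 * s) (2 * Real.pi * ‖ξ‖) : ℝ) : ℂ)) (by
      intro ξ hξ
      refine SD_ofReal (ContDiffAt.div ((SD_norm_smooth hξ).add contDiffAt_const) ?_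
        (SD_g_ne hk (SD_norm_pos hξ) (by linarith)))
      exact ContDiffAt.comp ξ (SD_g_smooth hk (SD_norm_pos hξ)) (SD_norm_smooth hξ))
  refine ⟨𝓕⁻ Ψ, fun x => ?_⟩
  have hA := SD_main s k (-(Laplacian.laplacian φ : 𝓢(E3, ℂ)) - ((k : ℂ) ^ 2) • φ) Ψ (by
    intro ξ
    have hL : (𝓕 (Laplacian.laplacian φ : 𝓢(E3, ℂ)) : 𝓢(E3, ℂ)) ξ =
        -((2 * Real.pi * ‖ξ‖ : ℝ) : ℂ) ^ 2 * (𝓕 φ : 𝓢(E3, ℂ)) ξ := by
      have h1 := SchwartzMap.laplacian_eq_fourierMultiplierCLM φ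
      rw [h1, FourierTransform.fourier_smul, SchwartzMap.fourierMultiplierCLM_apply,
        FourierTransform.fourier_fourierInv_eq, _root_.smul_apply,
        SchwartzMap.smulLeftCLM_apply_apply (by fun_prop)]
      simp
      ring
    have e1 : (𝓕 (-(Laplacian.laplacian φ : 𝓢(E3, ℂ)) - ((k : ℂ) ^ 2) • φ) : 𝓢(E3, ℂ)) ξ =
        (((2 * Real.pi * ‖ξ‖ : ℝ) : ℂ) ^ 2 - (k : ℂ) ^ 2) * (𝓕 φ : 𝓢(E3, ℂ)) ξ := by
      rw [sub_eq_add_neg, FourierTransform.fourier_add, _root_.add_apply, ← neg_smul,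
        FourierTransform.fourier_smul, _root_.smul_apply, ← neg_one_smul ℂ,
        FourierTransform.fourier_smul, _root_.smul_apply, hL]
      simp only [smul_eq_mul]
      ring
    rw [e1, hΨ ξ, ← SchwartzMap.fourier_coe]
    by_cases hξ : ξ = 0
    · have := SD_zero φ hφ
      rw [← SchwartzMap.fourier_coe] at this
      rw [hξ, this]
      simp
    · have h3 := SD_g_eq k (2 * s) (2 * Real.pi * ‖ξ‖)
      have h4 := SD_g_ne (p := 2 * s) hk (SD_norm_pos hξ) (by linarith)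
      have h5 : ((2 * Real.pi * ‖ξ‖) ^ 2 - k ^ 2 : ℝ) = ((2 * Real.pi * ‖ξ‖) ^ (2 * s) - k ^ (2 * s)) *
          ((2 * Real.pi * ‖ξ‖ + k) / SD_g k (2 * s) (2 * Real.pi * ‖ξ‖)) := by
        rw [← h3]
        field_simp
        ring
      rw [← mul_assoc, SD_cast _ _ _ _ _ h5]) x
  rw [hA, _root_.sub_apply, _root_.neg_apply, _root_.smul_apply, smul_eq_mul]

theorem div_grad {s : ℝ} (h0 : 1 / 2 < s) (h2 : s < 2) {k : ℝ} (hk : 0 < k) (j : Fin 3)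
    (φ : 𝓢(E3, ℂ)) (hc : HasCompactSupport (𝓕 (φ : E3 → ℂ)))
    (hφ : (0 : E3) ∉ tsupport (𝓕 (φ : E3 → ℂ))) :
    ∃ ψ : 𝓢(E3, ℂ), ∀ x, fracLap s ψ x - ((k ^ (2 * s) : ℝ) : ℂ) * ψ x =
      fracGrad s j φ x - ((k ^ (s - 1) : ℝ) : ℂ) *
        fderiv ℝ (φ : E3 → ℂ) x (EuclideanSpace.single j (1 : ℝ)) := by
  have hproj : ∀ ξ : E3, ContDiffAt ℝ ∞ (fun η : E3 => ((2 * Real.pi * η j : ℝ) : ℂ)) ξ := by
    intro ξ
    refine SD_ofReal (contDiffAt_const.mul ?_)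
    exact (EuclideanSpace.proj (𝕜 := ℝ) j).contDiff.contDiffAt
  obtain ⟨Ψ, hΨ⟩ := SD_mul φ hc hφ
    (fun ξ => Complex.I * ((2 * Real.pi * ξ j : ℝ) : ℂ) *
      ((SD_g k (s - 1) (2 * Real.pi * ‖ξ‖) / SD_g k (2 * s) (2 * Real.pi * ‖ξ‖) : ℝ) : ℂ)) (by
      intro ξ hξ
      refine (contDiffAt_const.mul (hproj ξ)).mul ?_
      refine SD_ofReal (ContDiffAt.div ?_ ?_ (SD_g_ne hk (SD_norm_pos hξ) (by linarith)))
      · exact ContDiffAt.comp ξ (SD_g_smooth hk (SD_norm_pos hξ)) (SD_norm_smooth hξ)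
      · exact ContDiffAt.comp ξ (SD_g_smooth hk (SD_norm_pos hξ)) (SD_norm_smooth hξ))
  obtain ⟨B, hB⟩ := SD_mul φ hc hφ
    (fun ξ => Complex.I * ((2 * Real.pi * ξ j : ℝ) : ℂ) * (((2 * Real.pi * ‖ξ‖) ^ (s - 1) : ℝ) : ℂ)) (by
      intro ξ hξ
      refine (contDiffAt_const.mul (hproj ξ)).mul (SD_ofReal ?_)
      exact ContDiffAt.comp ξ (SD_rpow (SD_norm_pos hξ)).contDiffAt (SD_norm_smooth hξ))
  refine ⟨𝓕⁻ Ψ, fun x => ?_⟩
  have hgrad : fracGrad s j φ x = (𝓕⁻ B : 𝓢(E3, ℂ)) x := by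
    have h1 : (fun ξ : E3 => Complex.I * ((2 * Real.pi * ξ j : ℝ) : ℂ) *
        (((2 * Real.pi * ‖ξ‖) ^ (s - 1) : ℝ) : ℂ) * 𝓕 (φ : E3 → ℂ) ξ) = (B : E3 → ℂ) := by
      funext ξ
      rw [hB ξ]
    unfold fracGrad
    rw [h1, ← SchwartzMap.fourierInv_coe]
  open LineDeriv in
  have hA := SD_main s k (𝓕⁻ B + (-((k ^ (s - 1) : ℝ) : ℂ)) • ∂_{EuclideanSpace.single j (1 : ℝ)} φ) Ψ (by
    intro ξ
    have hL : (𝓕 (∂_{EuclideanSpace.single j (1 : ℝ)} φ) : 𝓢(E3, ℂ)) ξ =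
        Complex.I * ((2 * Real.pi * ξ j : ℝ) : ℂ) * (𝓕 φ : 𝓢(E3, ℂ)) ξ := by
      rw [SchwartzMap.fourier_lineDerivOp_eq, _root_.smul_apply,
        SchwartzMap.smulLeftCLM_apply_apply (by fun_prop)]
      simp [EuclideanSpace.inner_single_right]
      ring
    rw [FourierTransform.fourier_add, _root_.add_apply, FourierTransform.fourier_smul,
      _root_.smul_apply, hL, FourierTransform.fourier_fourierInv_eq, hΨ ξ, hB ξ,
      ← SchwartzMap.fourier_coe, smul_eq_mul]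
    by_cases hξ : ξ = 0
    · have := SD_zero φ hφ
      rw [← SchwartzMap.fourier_coe] at this
      rw [hξ, this]
      simp
    · have h3 := SD_g_eq k (2 * s) (2 * Real.pi * ‖ξ‖)
      have h3' := SD_g_eq k (s - 1) (2 * Real.pi * ‖ξ‖)
      have h4 := SD_g_ne (p := 2 * s) hk (SD_norm_pos hξ) (by linarith)
      have h5 : ((2 * Real.pi * ‖ξ‖) ^ (s - 1) - k ^ (s - 1) : ℝ) =
          ((2 * Real.pi * ‖ξ‖) ^ (2 * s) - k ^ (2 * s)) *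
          (SD_g k (s - 1) (2 * Real.pi * ‖ξ‖) / SD_g k (2 * s) (2 * Real.pi * ‖ξ‖)) := by
        rw [← h3, ← h3']
        field_simp
      have h6 := SD_cast' _ _ _ _ _ h5
      linear_combination (Complex.I * ((2 * Real.pi * ξ j : ℝ) : ℂ) * (𝓕 φ : 𝓢(E3, ℂ)) ξ) * h6) x
  rw [hA, hgrad, _root_.add_apply, _root_.smul_apply, smul_eq_mul,
    SchwartzMap.lineDerivOp_apply_eq_fderiv]
  ring

end FracScat

end
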