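import Pool.Agent.Lib.MP_6e2ba5_an.LowFreq
import Pool.Agent.Lib.MP_6e2ba5_an.SmoothDiv

/-! # A homogeneous outgoing solution is a Helmholtz solution

`m ∈ BStar` with `∫ m ((-Δ)^s φ - k^(2s) φ) = 0` for all Schwartz `φ`, and `w j ∈ BStar` with
`∫ w j φ = -∫ m D^s_j φ`. For `φ` with Fourier transform zero near `0`: `div_helm`, `div_grad`.
In general: `low_freq` (for `D^s_j` use `∫ m D^s_j φ_n = -∫ w j φ_n → -∫ w j φ = ∫ m D^s_j φ`).
Integrability of the pairings: `BStar_mul_WL`, `fracLap_WL`, `fracGrad_WL`, `schwartz_WL`. -/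

set_option autoImplicit false

open MeasureTheory Filter Topology Set
open scoped FourierTransform SchwartzMap InnerProductSpace ENNReal

noncomputable section

namespace FracScat

open scoped LineDeriv in
private lemma int_dj {m : E3 → ℂ} (hm : BStar m) (j : Fin 3) (φ : 𝓢(E3, ℂ)) :
    Integrable (fun x => m x * fderiv ℝ (φ : E3 → ℂ) x (EuclideanSpace.single j (1 : ℝ))) :=
  BStar_mul_WL hm (schwartz_WL (∂_{EuclideanSpace.single j (1 : ℝ)} φ))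

private lemma pair_zero {s : ℝ} (h0 : 1 / 2 < s) (h2 : s < 2) {k : ℝ} {m : E3 → ℂ}
    (hm : BStar m) (he : ∀ φ : 𝓢(E3, ℂ), (∫ x, m x * fracLap s φ x) -
      ((k ^ (2 * s) : ℝ) : ℂ) * (∫ x, m x * φ x) = 0) (ψ : 𝓢(E3, ℂ)) :
    ∫ x, m x * (fracLap s ψ x - ((k ^ (2 * s) : ℝ) : ℂ) * ψ x) = 0 := by
  have h := he ψ
  rw [← integral_const_mul, ← integral_sub (BStar_mul_WL hm (fracLap_WL h0 h2 ψ))
    ((BStar_mul_WL hm (schwartz_WL ψ)).const_mul _)] at h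
  rw [← h]
  congr 1
  ext x
  ring

theorem helm_weak {s : ℝ} (h0 : 1 / 2 < s) (h2 : s < 2) {k : ℝ} (hk : 0 < k) {m : E3 → ℂ}
    (hm : BStar m) (he : ∀ φ : 𝓢(E3, ℂ), (∫ x, m x * fracLap s φ x) -
      ((k ^ (2 * s) : ℝ) : ℂ) * (∫ x, m x * φ x) = 0) (φ : 𝓢(E3, ℂ)) :
    ∫ x, m x * ((Laplacian.laplacian φ : 𝓢(E3, ℂ)) x + (k : ℂ) ^ 2 * φ x) = 0 := by
  have hsplit : ∀ φ : 𝓢(E3, ℂ),
      ∫ x, m x * ((Laplacian.laplacian φ : 𝓢(E3, ℂ)) x + (k : ℂ) ^ 2 * φ x) =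
      (∫ x, m x * (Laplacian.laplacian φ : 𝓢(E3, ℂ)) x) + (k : ℂ) ^ 2 * ∫ x, m x * φ x := by
    intro φ
    rw [← integral_const_mul, ← integral_add (BStar_mul_WL hm (schwartz_WL _))
      ((BStar_mul_WL hm (schwartz_WL φ)).const_mul _)]
    congr 1
    ext x
    ring
  obtain ⟨φn, hn, hφ, -, hlap⟩ := low_freq φ
  have hz : ∀ n, ∫ x, m x * ((Laplacian.laplacian (φn n) : 𝓢(E3, ℂ)) x +
      (k : ℂ) ^ 2 * φn n x) = 0 := by
    intro n
    obtain ⟨ψ, hψ⟩ := div_helm h0 h2 hk (φn n) (hn n).1 (hn n).2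
    have h := pair_zero h0 h2 hm he ψ
    simp only [hψ] at h
    have : (fun x => m x * ((Laplacian.laplacian (φn n) : 𝓢(E3, ℂ)) x + (k : ℂ) ^ 2 * φn n x)) =
        fun x => -(m x * (-((Laplacian.laplacian (φn n) : 𝓢(E3, ℂ)) x) -
          (k : ℂ) ^ 2 * φn n x)) := by
      ext x
      ring
    rw [this, integral_neg, h, neg_zero]
  have hlim := (hlap m hm).add ((hφ m hm).const_mul ((k : ℂ) ^ 2))
  rw [hsplit]
  refine tendsto_nhds_unique hlim ?_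
  have : (fun n => (∫ x, m x * (Laplacian.laplacian (φn n) : 𝓢(E3, ℂ)) x) +
      (k : ℂ) ^ 2 * ∫ x, m x * φn n x) = fun _ => 0 := by
    ext n
    rw [← hsplit, hz n]
  rw [this]
  exact tendsto_const_nhds

theorem grad_weak {s : ℝ} (h0 : 1 / 2 < s) (h2 : s < 2) {k : ℝ} (hk : 0 < k) {m : E3 → ℂ}
    (hm : BStar m) (he : ∀ φ : 𝓢(E3, ℂ), (∫ x, m x * fracLap s φ x) -
      ((k ^ (2 * s) : ℝ) : ℂ) * (∫ x, m x * φ x) = 0) {w : Fin 3 → E3 → ℂ}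
    (hw : ∀ j, BStar (w j))
    (hwe : ∀ (j : Fin 3) (φ : 𝓢(E3, ℂ)), ∫ x, w j x * φ x = -∫ x, m x * fracGrad s j φ x)
    (j : Fin 3) (φ : 𝓢(E3, ℂ)) :
    ∫ x, w j x * φ x = -(((k ^ (s - 1) : ℝ) : ℂ) *
      ∫ x, m x * fderiv ℝ (φ : E3 → ℂ) x (EuclideanSpace.single j (1 : ℝ))) := by
  obtain ⟨φn, hn, hφ, hd, -⟩ := low_freq φ
  have hz : ∀ n, ∫ x, w j x * φn n x = -(((k ^ (s - 1) : ℝ) : ℂ) *
      ∫ x, m x * fderiv ℝ (φn n : E3 → ℂ) x (EuclideanSpace.single j (1 : ℝ))) := by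
    intro n
    obtain ⟨ψ, hψ⟩ := div_grad h0 h2 hk j (φn n) (hn n).1 (hn n).2
    have h := pair_zero h0 h2 hm he ψ
    simp only [hψ] at h
    have e : ∫ x, m x * (fracGrad s j (φn n) x - ((k ^ (s - 1) : ℝ) : ℂ) *
        fderiv ℝ (φn n : E3 → ℂ) x (EuclideanSpace.single j (1 : ℝ))) =
        (∫ x, m x * fracGrad s j (φn n) x) - ((k ^ (s - 1) : ℝ) : ℂ) *
        ∫ x, m x * fderiv ℝ (φn n : E3 → ℂ) x (EuclideanSpace.single j (1 : ℝ)) := by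
      rw [← integral_const_mul, ← integral_sub (BStar_mul_WL hm (fracGrad_WL h0 h2 j (φn n)))
        ((int_dj hm j (φn n)).const_mul _)]
      congr 1
      ext x
      ring
    rw [e, sub_eq_zero] at h
    rw [hwe, h]
  have hlim1 := hφ (w j) (hw j)
  have hlim2 := ((hd m hm j).const_mul ((k ^ (s - 1) : ℝ) : ℂ)).neg
  refine tendsto_nhds_unique hlim1 ?_
  refine hlim2.congr fun n => ?_
  rw [hz n]

end FracScat

end
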