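import Pool.Agent.Lib.MP_6e2ba5_an.Stmt

/-! # From half-spaces to the convex hull

`halfspace_iff`: `V = 0` a.e. on the open set `U` iff `U ∩ essSupp V = ∅` (if every point of `U` has
a ball on which `V = 0` a.e., then `V = 0` a.e. on `U` by Lindeloef,
`MeasureTheory.measure_null_of_locally_null`; conversely a point of `U ∩ essSupp V` has a small ball
inside `U` where `V ≠ 0` on a set of positive measure).
`hull_eq`: a closed convex set is the intersection of the closed half-spaces that contain it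
(`geometric_hahn_banach_closed_point` or `iInter_halfSpaces_eq`), continuous functionals are
`⟪w, ·⟫` (`InnerProductSpace.toDual`), normalised to `-θ`, `‖θ‖ = 1`; the case of empty sets: if
`essSupp V₁ = ∅` then `V₁ = 0` a.e., so `V₂ = 0` a.e. on `{c < -θ·x}` for every `c`. -/

set_option autoImplicit false

open MeasureTheory Filter Topology Set
open scoped InnerProductSpace

noncomputable section

namespace FracScat

private theorem Hull_notMem {V : E3 → ℝ} {x : E3} (hx : x ∉ essSupp V) :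
    ∃ ε : ℝ, 0 < ε ∧ volume (Metric.ball x ε ∩ {y | V y ≠ 0}) = 0 := by
  unfold essSupp at hx
  rw [mem_ofPred_eq] at hx
  push Not at hx
  obtain ⟨ε, hε, h⟩ := hx
  exact ⟨ε, hε, le_antisymm h bot_le⟩

theorem isClosed_essSupp (V : E3 → ℝ) : IsClosed (essSupp V) := by
  rw [← isOpen_compl_iff, Metric.isOpen_iff]
  intro x hx
  obtain ⟨ε, hε, h⟩ := Hull_notMem hx
  refine ⟨ε / 2, by positivity, fun y hy hys => ?_⟩
  have h1 := hys (ε / 2) (by positivity)
  have h2 : Metric.ball y (ε / 2) ∩ {z | V z ≠ 0} ⊆ Metric.ball x ε ∩ {z | V z ≠ 0} := by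
    refine inter_subset_inter_left _ ?_
    refine Metric.ball_subset_ball' ?_
    have := Metric.mem_ball.1 hy
    linarith
  have h3 := measure_mono_null h2 h
  rw [h3] at h1
  exact lt_irrefl _ h1

theorem halfspace_iff (V : E3 → ℝ) {U : Set E3} (hU : IsOpen U) :
    (∀ᵐ x ∂(volume : Measure E3), x ∈ U → V x = 0) ↔ Disjoint U (essSupp V) := by
  constructor
  · intro h
    rw [Set.disjoint_left]
    intro x hxU hxs
    obtain ⟨ε, hε, hb⟩ := Metric.isOpen_iff.1 hU x hxU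
    have h1 := hxs ε hε
    have h2 : Metric.ball x ε ∩ {y | V y ≠ 0} ⊆ {y | ¬ (y ∈ U → V y = 0)} := by
      rintro y ⟨hy1, hy2⟩ hy3
      exact hy2 (hy3 (hb hy1))
    have h3 := measure_mono_null h2 (ae_iff.1 h)
    rw [h3] at h1
    exact lt_irrefl _ h1
  · intro h
    rw [ae_iff]
    refine measure_null_of_locally_null _ fun x hx => ?_
    have hxU : x ∈ U := by
      by_contra hcon
      exact hx fun h' => absurd h' hcon
    obtain ⟨ε, hε, h1⟩ := Hull_notMem (Set.disjoint_left.1 h hxU)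
    refine ⟨Metric.ball x ε ∩ {y | V y ≠ 0}, ?_, h1⟩
    rw [mem_nhdsWithin]
    refine ⟨Metric.ball x ε, Metric.isOpen_ball, Metric.mem_ball_self hε, ?_⟩
    rintro y ⟨hy1, hy2⟩
    refine ⟨hy1, fun hy3 => hy2 fun _ => hy3⟩

private theorem Hull_half {V₁ V₂ : E3 → ℝ} (h : ∀ θ : E3, ‖θ‖ = 1 → ∀ c : ℝ,
      (∀ᵐ x ∂(volume : Measure E3), c < -⟪θ, x⟫_ℝ → V₁ x = 0) ↔
        (∀ᵐ x ∂(volume : Measure E3), c < -⟪θ, x⟫_ℝ → V₂ x = 0)) (θ : E3) (hθ : ‖θ‖ = 1) (c : ℝ)
    (hd : ∀ y ∈ essSupp V₂, ¬ c < -⟪θ, y⟫_ℝ) (x : E3) (hx : x ∈ essSupp V₁) : ¬ c < -⟪θ, x⟫_ℝ := by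
  have hU : IsOpen {y : E3 | c < -⟪θ, y⟫_ℝ} :=
    isOpen_lt continuous_const (continuous_const.inner continuous_id).neg
  have h2 : ∀ᵐ y ∂(volume : Measure E3), y ∈ {y : E3 | c < -⟪θ, y⟫_ℝ} → V₂ y = 0 := by
    rw [halfspace_iff V₂ hU, Set.disjoint_left]
    intro y hy hys
    exact hd y hys hy
  have h1 : ∀ᵐ y ∂(volume : Measure E3), y ∈ {y : E3 | c < -⟪θ, y⟫_ℝ} → V₁ y = 0 :=
    (h θ hθ c).2 h2
  rw [halfspace_iff V₁ hU, Set.disjoint_left] at h1
  intro hc
  exact h1 hc hx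

private theorem Hull_sub {V₁ V₂ : E3 → ℝ} (h : ∀ θ : E3, ‖θ‖ = 1 → ∀ c : ℝ,
      (∀ᵐ x ∂(volume : Measure E3), c < -⟪θ, x⟫_ℝ → V₁ x = 0) ↔
        (∀ᵐ x ∂(volume : Measure E3), c < -⟪θ, x⟫_ℝ → V₂ x = 0)) :
    closure (convexHull ℝ (essSupp V₁)) ⊆ closure (convexHull ℝ (essSupp V₂)) := by
  have hconv : Convex ℝ (closure (convexHull ℝ (essSupp V₂))) := (convex_convexHull ℝ _).closure
  refine closure_minimal (convexHull_min ?_ hconv) isClosed_closure
  intro x hx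
  by_contra hcon
  obtain ⟨f, u, hf1, hf2⟩ := geometric_hahn_banach_closed_point hconv isClosed_closure hcon
  have hsub : ∀ y ∈ essSupp V₂, f y < u := fun y hy =>
    hf1 y (subset_closure (subset_convexHull ℝ _ hy))
  set w : E3 := (InnerProductSpace.toDual ℝ E3).symm f with hw
  have hfw : ∀ y, f y = ⟪w, y⟫_ℝ := fun y => by
    rw [hw, InnerProductSpace.toDual_symm_apply]
  by_cases hw0 : w = 0
  · have hu : u < 0 := by
      have := hf2
      rw [hfw, hw0, inner_zero_left] at this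
      exact this
    have hne : ∀ y, y ∉ essSupp V₂ := by
      intro y hy
      have := hsub y hy
      rw [hfw, hw0, inner_zero_left] at this
      linarith
    have hθ : ‖(EuclideanSpace.single (0 : Fin 3) (1 : ℝ) : E3)‖ = 1 := by simp
    refine Hull_half h _ hθ (-⟪(EuclideanSpace.single (0 : Fin 3) (1 : ℝ) : E3), x⟫_ℝ - 1)
      (fun y hy => absurd hy (hne y)) x hx ?_
    linarith
  · have hwn : 0 < ‖w‖ := norm_pos_iff.2 hw0
    have key : ∀ y : E3, -⟪-(‖w‖⁻¹ • w), y⟫_ℝ = ‖w‖⁻¹ * f y := by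
      intro y
      rw [inner_neg_left, neg_neg, real_inner_smul_left, hfw]
    have hθ : ‖-(‖w‖⁻¹ • w)‖ = 1 := by
      rw [norm_neg, norm_smul, norm_inv, norm_norm, inv_mul_cancel₀ hwn.ne']
    refine Hull_half h _ hθ (‖w‖⁻¹ * u) (fun y hy => ?_) x hx ?_
    · rw [key, not_lt]
      exact mul_le_mul_of_nonneg_left (hsub y hy).le (inv_nonneg.2 hwn.le)
    · rw [key]
      exact mul_lt_mul_of_pos_left hf2 (inv_pos.2 hwn)

theorem hull_eq {V₁ V₂ : E3 → ℝ} (h : ∀ θ : E3, ‖θ‖ = 1 → ∀ c : ℝ,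
      (∀ᵐ x ∂(volume : Measure E3), c < -⟪θ, x⟫_ℝ → V₁ x = 0) ↔
        (∀ᵐ x ∂(volume : Measure E3), c < -⟪θ, x⟫_ℝ → V₂ x = 0)) :
    closure (convexHull ℝ (essSupp V₁)) = closure (convexHull ℝ (essSupp V₂)) :=
  Subset.antisymm (Hull_sub h) (Hull_sub fun θ hθ c => (h θ hθ c).symm)

end FracScat

end
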