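import Pool.Agent.Lib.MP_6e2ba5_an.Mul

/-! # The function `H(x) = 1/(x^(2s) - 1) - (1/s)/(x² - 1)` on the closed fourth quadrant

`0 < s < 2`. For `x` in the closed fourth quadrant, `x ≠ 0`, one has `arg x ∈ [-π/2, 0]` and
`x^(2s) = 1` only for `x = 1` (because `|2 s arg x| ≤ π s < 2π`), so `H` is continuous on the
quadrant without the point `1` (at `0` too, since `x^(2s) → 0`), it tends to `0` at infinity, and
the singularity at `1` is removable: with `A(x) = (x^(2s) - 1)/(x - 1)` (`dslope`, analytic near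
`1`, `A(1) = 2s ≠ 0`) and `B(x) = x + 1` one has `H = (1/(x-1)) (1/A - 1/(s B))
= ((s B - A)/(x - 1))/(s A B)` and `s B(1) = A(1)`. So `H` agrees off `1` with a continuous
function on the quadrant which tends to `0` at infinity: it is bounded, and uniformly continuous
on bounded parts. -/

set_option autoImplicit false

open MeasureTheory Filter Topology Set
open scoped FourierTransform SchwartzMap InnerProductSpace ENNReal

noncomputable section

namespace FracScat

/-- `H(x) = 1/(x^(2s) - 1) - (1/s)/(x² - 1)`. -/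
def Hx (s : ℝ) (x : ℂ) : ℂ := 1 / (x ^ ((2 * s : ℝ) : ℂ) - 1) - (1 / (s : ℂ)) * (1 / (x ^ 2 - 1))

/-- The closed fourth quadrant. -/
def Q4 : Set ℂ := {x | 0 ≤ x.re ∧ x.im ≤ 0}

theorem cpow_ne_one {s : ℝ} (h0 : 0 < s) (h2 : s < 2) {x : ℂ} (hx : x ∈ Q4) (h1 : x ≠ 1) :
    x ^ ((2 * s : ℝ) : ℂ) ≠ 1 := by
  intro h
  by_cases hx0 : x = 0
  · subst hx0
    rw [Complex.zero_cpow] at h
    · exact zero_ne_one h
    · have : (2 * s : ℝ) ≠ 0 := by positivity
      exact_mod_cast this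
  · have hn : ‖x‖ ^ (2 * s) = 1 := by
      have := Complex.norm_cpow_real x (2 * s)
      rw [h, norm_one] at this
      exact this.symm
    have hn1 : ‖x‖ = 1 := by
      have hs : (2 * s : ℝ) ≠ 0 := by positivity
      have h3 := congrArg (fun t : ℝ => t ^ (2 * s)⁻¹) hn
      simp only [Real.one_rpow] at h3
      rwa [← Real.rpow_mul (norm_nonneg _), mul_inv_cancel₀ hs, Real.rpow_one] at h3
    rw [Complex.cpow_def_of_ne_zero hx0, Complex.exp_eq_one_iff] at h
    obtain ⟨n, hn'⟩ := h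
    have him := congrArg Complex.im hn'
    have e1 : (Complex.log x * ((2 * s : ℝ) : ℂ)).im = x.arg * (2 * s) := by
      rw [Complex.mul_im, Complex.log_im, Complex.ofReal_re, Complex.ofReal_im]
      ring
    have e2 : ((n : ℂ) * (2 * Real.pi * Complex.I)).im = n * (2 * Real.pi) := by
      simp
    rw [e1, e2] at him
    have harg : |x.arg| ≤ Real.pi / 2 := Complex.abs_arg_le_pi_div_two_iff.2 hx.1
    have hpi := Real.pi_pos
    have h3 : |(n : ℝ)| < 1 := by
      have : |(n : ℝ)| * (2 * Real.pi) = |x.arg| * (2 * s) := by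
        rw [← abs_of_pos (by positivity : (0 : ℝ) < 2 * Real.pi), ← abs_mul, ← him, abs_mul,
          abs_of_pos (by positivity : (0 : ℝ) < 2 * s)]
      by_contra hcon
      push Not at hcon
      have h4 : 2 * Real.pi ≤ |(n : ℝ)| * (2 * Real.pi) := by nlinarith
      have h5 : |x.arg| * (2 * s) < Real.pi / 2 * 4 := by
        have : |x.arg| * (2 * s) ≤ Real.pi / 2 * (2 * s) := by gcongr
        nlinarith
      linarith
    have h6 : n = 0 := by
      have : |n| < 1 := by exact_mod_cast h3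
      exact Int.abs_lt_one_iff.1 this
    rw [h6] at him
    have h7 : x.arg = 0 := by
      have : x.arg * (2 * s) = 0 := by rw [him]; simp
      rcases mul_eq_zero.1 this with h | h
      · exact h
      · exfalso; linarith
    apply h1
    have := Complex.norm_mul_exp_arg_mul_I x
    rw [hn1, h7] at this
    simpa using this.symm

private theorem cont_cpow {s : ℝ} (h0 : 0 < s) {x : ℂ} (hx : x ∈ Q4) :
    ContinuousAt (fun x : ℂ => x ^ ((2 * s : ℝ) : ℂ)) x := by
  apply Complex.continuousAt_cpow_const_of_re_pos (Or.inl hx.1)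
  rw [Complex.ofReal_re]
  positivity

private theorem diff_cpow (s : ℝ) :
    DifferentiableOn ℂ (fun x : ℂ => x ^ ((2 * s : ℝ) : ℂ)) Complex.slitPlane := by
  intro x hx
  exact (DifferentiableAt.cpow_const differentiableAt_id hx).differentiableWithinAt

private theorem slit_nhds : Complex.slitPlane ∈ 𝓝 (1 : ℂ) :=
  Complex.isOpen_slitPlane.mem_nhds Complex.one_mem_slitPlane

private def fA (s : ℝ) : ℂ → ℂ := dslope (fun x : ℂ => x ^ ((2 * s : ℝ) : ℂ)) 1

private def fC (s : ℝ) (x : ℂ) : ℂ := s * (x + 1) - fA s x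

private def fG (s : ℝ) (x : ℂ) : ℂ := dslope (fC s) 1 x / (s * fA s x * (x + 1))

private theorem fA_one (s : ℝ) : fA s 1 = 2 * s := by
  rw [fA, dslope_same]
  have h := (hasDerivAt_id (1 : ℂ)).cpow_const (c := ((2 * s : ℝ) : ℂ)) Complex.one_mem_slitPlane
  have h2 := h.deriv
  simp only [id] at h2
  rw [h2]
  simp

private theorem fA_ne {s : ℝ} {x : ℂ} (h1 : x ≠ 1) :
    fA s x = (x - 1)⁻¹ * (x ^ ((2 * s : ℝ) : ℂ) - 1) := by
  rw [fA, dslope_of_ne _ h1, slope_def_module]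
  simp

private theorem fA_ne_zero {s : ℝ} (h0 : 0 < s) (h2 : s < 2) {x : ℂ} (hx : x ∈ Q4) :
    fA s x ≠ 0 := by
  by_cases h1 : x = 1
  · rw [h1, fA_one]
    have : (2 * s : ℝ) ≠ 0 := by positivity
    exact_mod_cast this
  · rw [fA_ne h1]
    exact mul_ne_zero (inv_ne_zero (sub_ne_zero.2 h1)) (sub_ne_zero.2 (cpow_ne_one h0 h2 hx h1))

private theorem fB_ne_zero {x : ℂ} (hx : x ∈ Q4) : x + 1 ≠ 0 := by
  intro h
  have := congrArg Complex.re h
  simp only [Complex.add_re, Complex.one_re, Complex.zero_re] at this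
  have h3 := hx.1
  linarith

private theorem fA_diff (s : ℝ) : DifferentiableOn ℂ (fA s) Complex.slitPlane :=
  (Complex.differentiableOn_dslope slit_nhds).2 (diff_cpow s)

private theorem fC_diff (s : ℝ) : DifferentiableOn ℂ (fC s) Complex.slitPlane := by
  unfold fC
  apply DifferentiableOn.sub _ (fA_diff s)
  exact ((differentiable_id.add_const (1 : ℂ)).const_mul (s : ℂ)).differentiableOn

private theorem fC_one (s : ℝ) : fC s 1 = 0 := by
  rw [fC, fA_one]; ring

private theorem mem_slit {x : ℂ} (hx : x ∈ Q4) (h0 : x ≠ 0) : x ∈ Complex.slitPlane := by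
  rw [Complex.mem_slitPlane_iff]
  by_cases h : x.re = 0
  · right
    intro h'
    exact h0 (Complex.ext h h')
  · left
    exact lt_of_le_of_ne hx.1 (Ne.symm h)

private theorem fA_cont {s : ℝ} (h0 : 0 < s) {x : ℂ} (hx : x ∈ Q4) : ContinuousAt (fA s) x := by
  by_cases h1 : x = 1
  · subst h1
    exact ((fA_diff s).differentiableAt slit_nhds).continuousAt
  · rw [fA, continuousAt_dslope_of_ne h1]
    exact cont_cpow h0 hx

private theorem fG_cont {s : ℝ} (h0 : 0 < s) (h2 : s < 2) : ContinuousOn (fG s) Q4 := by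
  intro x hx
  apply ContinuousAt.continuousWithinAt
  unfold fG
  apply ContinuousAt.div
  · by_cases h1 : x = 1
    · subst h1
      have := (Complex.differentiableOn_dslope slit_nhds).2 (fC_diff s)
      exact (this.differentiableAt slit_nhds).continuousAt
    · rw [continuousAt_dslope_of_ne h1]
      unfold fC
      exact (continuousAt_const.mul (continuousAt_id.add continuousAt_const)).sub (fA_cont h0 hx)
  · exact (continuousAt_const.mul (fA_cont h0 hx)).mul (continuousAt_id.add continuousAt_const)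
  · have : (s : ℂ) ≠ 0 := by exact_mod_cast h0.ne'
    exact mul_ne_zero (mul_ne_zero this (fA_ne_zero h0 h2 hx)) (fB_ne_zero hx)

private theorem fG_eq {s : ℝ} (h0 : 0 < s) (h2 : s < 2) {x : ℂ} (hx : x ∈ Q4) (h1 : x ≠ 1) :
    Hx s x = fG s x := by
  have hs : (s : ℂ) ≠ 0 := by exact_mod_cast h0.ne'
  have hx1 : x - 1 ≠ 0 := sub_ne_zero.2 h1
  have hB := fB_ne_zero hx
  have hA : fA s x ≠ 0 := fA_ne_zero h0 h2 hx
  have e1 : x ^ ((2 * s : ℝ) : ℂ) - 1 = (x - 1) * fA s x := by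
    rw [fA_ne h1]
    field_simp
  have e2 : x ^ 2 - 1 = (x - 1) * (x + 1) := by ring
  have e3 : dslope (fC s) 1 x = (x - 1)⁻¹ * fC s x := by
    rw [dslope_of_ne _ h1, slope_def_module, fC_one]
    simp
  unfold Hx fG
  rw [e1, e2, e3, fC]
  field_simp

/-- `H` has a continuous extension to the closed quadrant. -/
theorem Hx_ext {s : ℝ} (h0 : 0 < s) (h2 : s < 2) :
    ∃ G : ℂ → ℂ, ContinuousOn G Q4 ∧ ∀ x ∈ Q4, x ≠ 1 → Hx s x = G x :=
  ⟨fG s, fG_cont h0 h2, fun _ hx h1 => fG_eq h0 h2 hx h1⟩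

theorem Hx_infty {s : ℝ} (h0 : 0 < s) (h2 : s < 2) {ε : ℝ} (hε : 0 < ε) :
    ∃ M : ℝ, ∀ x ∈ Q4, M < ‖x‖ → ‖Hx s x‖ < ε := by
  have t1 : Tendsto (fun r : ℝ => (r ^ (2 * s) - 1)⁻¹ + s⁻¹ * (r ^ 2 - 1)⁻¹) atTop (𝓝 0) := by
    have a1 : Tendsto (fun r : ℝ => r ^ (2 * s) - 1) atTop atTop :=
      tendsto_atTop_add_const_right _ (-1) (tendsto_rpow_atTop (by positivity))
    have a2 : Tendsto (fun r : ℝ => r ^ 2 - 1) atTop atTop :=
      tendsto_atTop_add_const_right _ (-1) (tendsto_pow_atTop (by norm_num))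
    have := (tendsto_inv_atTop_zero.comp a1).add
      ((tendsto_inv_atTop_zero.comp a2).const_mul s⁻¹)
    simpa using this
  have t2 : ∀ᶠ r : ℝ in atTop, (r ^ (2 * s) - 1)⁻¹ + s⁻¹ * (r ^ 2 - 1)⁻¹ < ε :=
    t1.eventually (gt_mem_nhds hε)
  have t3 : ∀ᶠ r : ℝ in atTop, 1 < r := eventually_gt_atTop 1
  obtain ⟨M, hM⟩ := eventually_atTop.1 (t2.and t3)
  refine ⟨M, fun x _ hxM => ?_⟩
  obtain ⟨h3, h4⟩ := hM ‖x‖ hxM.le
  refine lt_of_le_of_lt ?_ h3
  unfold Hx
  have p1 : 0 < ‖x‖ ^ (2 * s) - 1 := by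
    have := Real.one_lt_rpow h4 (by positivity : 0 < 2 * s)
    linarith
  have p2 : 0 < ‖x‖ ^ 2 - 1 := by nlinarith
  have q1 : ‖x‖ ^ (2 * s) - 1 ≤ ‖x ^ ((2 * s : ℝ) : ℂ) - 1‖ := by
    have := norm_sub_norm_le (x ^ ((2 * s : ℝ) : ℂ)) 1
    rw [Complex.norm_cpow_real, norm_one] at this
    exact this
  have q2 : ‖x‖ ^ 2 - 1 ≤ ‖x ^ 2 - 1‖ := by
    have := norm_sub_norm_le (x ^ 2) 1
    rw [norm_pow, norm_one] at this
    exact this
  refine (norm_sub_le _ _).trans ?_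
  rw [norm_mul, norm_div, norm_div, norm_div, norm_one, Complex.norm_real, Real.norm_of_nonneg h0.le,
    one_div, one_div, one_div]
  gcongr

theorem Hx_bound {s : ℝ} (h0 : 0 < s) (h2 : s < 2) :
    ∃ C : ℝ, 0 ≤ C ∧ ∀ x ∈ Q4, x ≠ 1 → ‖Hx s x‖ ≤ C := by
  obtain ⟨M, hM⟩ := Hx_infty h0 h2 one_pos
  obtain ⟨G, hG, hGe⟩ := Hx_ext h0 h2
  have hcl : IsClosed Q4 := by
    have : Q4 = {x : ℂ | 0 ≤ x.re} ∩ {x : ℂ | x.im ≤ 0} := rfl
    rw [this]
    exact (isClosed_le continuous_const Complex.continuous_re).inter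
      (isClosed_le Complex.continuous_im continuous_const)
  have hK : IsCompact (Q4 ∩ Metric.closedBall (0 : ℂ) M) :=
    (isCompact_closedBall _ _).inter_left hcl
  obtain ⟨C, hC⟩ := hK.exists_bound_of_continuousOn (hG.mono inter_subset_left)
  refine ⟨max C 1, le_max_of_le_right zero_le_one, fun x hx h1 => ?_⟩
  by_cases hxM : M < ‖x‖
  · exact (hM x hx hxM).le.trans (le_max_right _ _)
  · rw [hGe x hx h1]
    refine (hC x ⟨hx, ?_⟩).trans (le_max_left _ _)
    rw [mem_closedBall_zero_iff]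
    exact not_lt.1 hxM

theorem Hx_uc {s : ℝ} (h0 : 0 < s) (h2 : s < 2) (M : ℝ) {ε : ℝ} (hε : 0 < ε) :
    ∃ δ : ℝ, 0 < δ ∧ ∀ x ∈ Q4, ∀ y ∈ Q4, ‖x‖ ≤ M → ‖y‖ ≤ M → x ≠ 1 → y ≠ 1 → ‖x - y‖ < δ →
      ‖Hx s x - Hx s y‖ < ε := by
  obtain ⟨G, hG, hGe⟩ := Hx_ext h0 h2
  have hcl : IsClosed Q4 := by
    have : Q4 = {x : ℂ | 0 ≤ x.re} ∩ {x : ℂ | x.im ≤ 0} := rfl
    rw [this]
    exact (isClosed_le continuous_const Complex.continuous_re).inter
      (isClosed_le Complex.continuous_im continuous_const)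
  have hK : IsCompact (Q4 ∩ Metric.closedBall (0 : ℂ) M) :=
    (isCompact_closedBall _ _).inter_left hcl
  have hu := hK.uniformContinuousOn_of_continuous (hG.mono inter_subset_left)
  rw [Metric.uniformContinuousOn_iff] at hu
  obtain ⟨δ, hδ, h⟩ := hu ε hε
  refine ⟨δ, hδ, fun x hx y hy hxM hyM hx1 hy1 hxy => ?_⟩
  rw [hGe x hx hx1, hGe y hy hy1, ← dist_eq_norm]
  refine h x ⟨hx, mem_closedBall_zero_iff.2 hxM⟩ y ⟨hy, mem_closedBall_zero_iff.2 hyM⟩ ?_
  rw [dist_eq_norm]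
  exact hxy

end FracScat

end
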