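import Pool.Agent.Lib.MP_6e2ba5_an.Mul

/-! # The symbol of the cut off outgoing Helmholtz kernel

`kap k R a = a⁻¹ ∫_0^R exp(i k r) sin(a r) dr`, for `Im k ≥ 0`, `a > 0`.

`kap_bound`: integrate by parts, `∫ exp(ikr) sin(ar) = [exp(ikr) sin(ar)/(ik)]_0^R
- (a/(ik)) ∫ exp(ikr) cos(ar)`, and use `|exp(ikr)| ≤ 1`, `|sin(aR)| ≤ a R`.
`kap_lip`: `|exp(ikr) - exp(ik'r)| ≤ |k-k'| r` for `Im k, Im k' ≥ 0`, `r ≥ 0`
(and `|sin(ar)| ≤ a r`).
`laplace_sin`: `∫_0^∞ exp(ikr) sin(ar) dr = a/(a²-k²)` for `Im k > 0`. `laplace_r_sin`: derivative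
of the previous formula, or by parts twice. -/

set_option autoImplicit false

open MeasureTheory Filter Topology Set
open scoped FourierTransform SchwartzMap InnerProductSpace ENNReal

noncomputable section

namespace FracScat

/-- `a⁻¹ ∫_0^R exp(i k r) sin(a r) dr`. -/
def kap (k : ℂ) (R a : ℝ) : ℂ :=
  ((1 / a : ℝ) : ℂ) * ∫ r in (0 : ℝ)..R, Complex.exp (Complex.I * k * r) * (Real.sin (a * r) : ℂ)

private lemma norm_exp_Ik (k : ℂ) (r : ℝ) :
    ‖Complex.exp (Complex.I * k * r)‖ = Real.exp (-(k.im * r)) := by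
  rw [Complex.norm_exp]
  congr 1
  simp

private lemma norm_exp_Ik_le {k : ℂ} (hk : 0 ≤ k.im) {r : ℝ} (hr : 0 ≤ r) :
    ‖Complex.exp (Complex.I * k * r)‖ ≤ 1 := by
  rw [norm_exp_Ik]
  apply Real.exp_le_one_iff.mpr
  have := mul_nonneg hk hr
  linarith

private lemma abs_sin_le (a r : ℝ) (ha : 0 ≤ a) (hr : 0 ≤ r) :
    ‖(Real.sin (a * r) : ℂ)‖ ≤ a * r := by
  rw [Complex.norm_real, Real.norm_eq_abs]
  calc |Real.sin (a * r)| ≤ |a * r| := Real.abs_sin_le_abs
    _ = a * r := abs_of_nonneg (mul_nonneg ha hr)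

private lemma hasDerivAt_expIk (k : ℂ) (r : ℝ) :
    HasDerivAt (fun r : ℝ => Complex.exp (Complex.I * k * r))
      (Complex.exp (Complex.I * k * r) * (Complex.I * k)) r := by
  have h1 : HasDerivAt (fun r : ℝ => Complex.I * k * (r : ℂ)) (Complex.I * k) r := by
    simpa using (Complex.ofRealCLM.hasDerivAt (x := r)).const_mul (Complex.I * k)
  exact h1.cexp

private lemma hasDerivAt_sinC (a r : ℝ) :
    HasDerivAt (fun r : ℝ => (Real.sin (a * r) : ℂ)) ((a * Real.cos (a * r) : ℝ) : ℂ) r := by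
  have h1 : HasDerivAt (fun r : ℝ => Real.sin (a * r)) (a * Real.cos (a * r)) r := by
    have h2 : HasDerivAt (fun r : ℝ => a * r) a r := by
      simpa using (hasDerivAt_id r).const_mul a
    have := h2.sin
    rwa [mul_comm] at this
  exact h1.ofReal_comp

private lemma hasDerivAt_cosC (a r : ℝ) :
    HasDerivAt (fun r : ℝ => (Real.cos (a * r) : ℂ)) ((-(a * Real.sin (a * r)) : ℝ) : ℂ) r := by
  have h1 : HasDerivAt (fun r : ℝ => Real.cos (a * r)) (-(a * Real.sin (a * r))) r := by
    have h2 : HasDerivAt (fun r : ℝ => a * r) a r := by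
      simpa using (hasDerivAt_id r).const_mul a
    have := h2.cos
    convert this using 1
    ring
  exact h1.ofReal_comp

private lemma cont_expIk (k : ℂ) : Continuous (fun r : ℝ => Complex.exp (Complex.I * k * r)) := by
  fun_prop

theorem kap_bound {k : ℂ} (hk : 0 ≤ k.im) (hk0 : k ≠ 0) {R a : ℝ} (hR : 0 ≤ R) (ha : 0 < a) :
    ‖kap k R a‖ ≤ 2 * R / ‖k‖ := by
  have hkpos : 0 < ‖k‖ := norm_pos_iff.mpr hk0
  have hIk : Complex.I * k ≠ 0 := mul_ne_zero Complex.I_ne_zero hk0
  have hnIk : ‖Complex.I * k‖ = ‖k‖ := by simp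
  -- derivative of exp * sin
  have hder : ∀ r : ℝ, HasDerivAt
      (fun r : ℝ => Complex.exp (Complex.I * k * r) * (Real.sin (a * r) : ℂ))
      (Complex.exp (Complex.I * k * r) * (Complex.I * k) * (Real.sin (a * r) : ℂ)
        + Complex.exp (Complex.I * k * r) * ((a * Real.cos (a * r) : ℝ) : ℂ)) r :=
    fun r => (hasDerivAt_expIk k r).mul (hasDerivAt_sinC a r)
  have hc1 : Continuous (fun r : ℝ =>
      Complex.exp (Complex.I * k * r) * (Complex.I * k) * (Real.sin (a * r) : ℂ)) := by fun_prop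
  have hc2 : Continuous (fun r : ℝ =>
      Complex.exp (Complex.I * k * r) * ((a * Real.cos (a * r) : ℝ) : ℂ)) := by fun_prop
  have hF := intervalIntegral.integral_eq_sub_of_hasDerivAt (a := 0) (b := R)
    (fun r _ => hder r) ((hc1.add hc2).intervalIntegrable 0 R)
  rw [intervalIntegral.integral_add (hc1.intervalIntegrable 0 R) (hc2.intervalIntegrable 0 R)] at hF
  have e1 : (∫ r in (0 : ℝ)..R,
      Complex.exp (Complex.I * k * r) * (Complex.I * k) * (Real.sin (a * r) : ℂ)) =
      (Complex.I * k) * ∫ r in (0 : ℝ)..R,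
        Complex.exp (Complex.I * k * r) * (Real.sin (a * r) : ℂ) := by
    rw [← intervalIntegral.integral_const_mul]
    congr 1
    ext r
    ring
  rw [e1] at hF
  set J := ∫ r in (0 : ℝ)..R, Complex.exp (Complex.I * k * r) * (Real.sin (a * r) : ℂ) with hJ
  set K := ∫ r in (0 : ℝ)..R,
      Complex.exp (Complex.I * k * r) * ((a * Real.cos (a * r) : ℝ) : ℂ) with hK
  have hKb : ‖K‖ ≤ a * R := by
    have := intervalIntegral.norm_integral_le_of_norm_le_const (a := 0) (b := R) (C := a)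
      (f := fun r : ℝ => Complex.exp (Complex.I * k * r) * ((a * Real.cos (a * r) : ℝ) : ℂ)) ?_
    · rwa [sub_zero, abs_of_nonneg hR] at this
    · intro r hr
      rw [uIoc_of_le hR] at hr
      rw [norm_mul, Complex.norm_real, Real.norm_eq_abs, abs_mul, abs_of_pos ha]
      have h1 := norm_exp_Ik_le hk hr.1.le
      have h2 := Real.abs_cos_le_one (a * r)
      calc ‖Complex.exp (Complex.I * k * r)‖ * (a * |Real.cos (a * r)|)
          ≤ 1 * (a * 1) := by
            apply mul_le_mul h1 (mul_le_mul_of_nonneg_left h2 ha.le)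
              (mul_nonneg ha.le (abs_nonneg _)) zero_le_one
        _ = a := by ring
  have hFb : ‖Complex.exp (Complex.I * k * R) * (Real.sin (a * R) : ℂ)‖ ≤ a * R := by
    rw [norm_mul]
    calc _ ≤ 1 * (a * R) := mul_le_mul (norm_exp_Ik_le hk hR) (abs_sin_le a R ha.le hR)
            (norm_nonneg _) zero_le_one
      _ = a * R := one_mul _
  have hJeq : (Complex.I * k) * J =
      Complex.exp (Complex.I * k * R) * (Real.sin (a * R) : ℂ) - K := by
    rw [eq_sub_iff_add_eq, hF]
    simp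
  have hJb : ‖k‖ * ‖J‖ ≤ 2 * (a * R) := by
    rw [← hnIk, ← norm_mul, hJeq]
    calc _ ≤ ‖Complex.exp (Complex.I * k * R) * (Real.sin (a * R) : ℂ)‖ + ‖K‖ := norm_sub_le _ _
      _ ≤ a * R + a * R := add_le_add hFb hKb
      _ = 2 * (a * R) := by ring
  unfold kap
  rw [← hJ, norm_mul, Complex.norm_real, Real.norm_eq_abs, abs_of_pos (one_div_pos.mpr ha),
    le_div_iff₀ hkpos]
  calc 1 / a * ‖J‖ * ‖k‖ = 1 / a * (‖k‖ * ‖J‖) := by ring
    _ ≤ 1 / a * (2 * (a * R)) := mul_le_mul_of_nonneg_left hJb (one_div_pos.mpr ha).le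
    _ = 2 * R := by field_simp

private lemma exp_lip {k k' : ℂ} (hk : 0 ≤ k.im) (hk' : 0 ≤ k'.im) {r : ℝ} (hr : 0 ≤ r) :
    ‖Complex.exp (Complex.I * k * r) - Complex.exp (Complex.I * k' * r)‖ ≤ ‖k - k'‖ * r := by
  -- mean value on the convex set `{z | re z ≤ 0}`
  have hconv : Convex ℝ {z : ℂ | z.re ≤ 0} := by
    have : {z : ℂ | z.re ≤ 0} = Complex.reCLM ⁻¹' (Set.Iic 0) := by ext z; simp
    rw [this]
    exact (convex_Iic 0).is_linear_preimage Complex.reCLM.toLinearMap.isLinear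
  have hd : ∀ z ∈ {z : ℂ | z.re ≤ 0}, HasDerivWithinAt Complex.exp (Complex.exp z)
      {z : ℂ | z.re ≤ 0} z := fun z _ => (Complex.hasDerivAt_exp z).hasDerivWithinAt
  have hb : ∀ z ∈ {z : ℂ | z.re ≤ 0}, ‖Complex.exp z‖ ≤ 1 := by
    intro z hz
    rw [Complex.norm_exp]
    exact Real.exp_le_one_iff.mpr hz
  have h1 : (Complex.I * k * r) ∈ {z : ℂ | z.re ≤ 0} := by
    have := mul_nonneg hk hr
    simp
    linarith
  have h2 : (Complex.I * k' * r) ∈ {z : ℂ | z.re ≤ 0} := by
    have := mul_nonneg hk' hr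
    simp
    linarith
  have := hconv.norm_image_sub_le_of_norm_hasDerivWithin_le hd hb h2 h1
  refine this.trans (le_of_eq ?_)
  rw [one_mul]
  have e : Complex.I * k * r - Complex.I * k' * r = Complex.I * (k - k') * (r : ℂ) := by ring
  rw [e, norm_mul, norm_mul, Complex.norm_I, one_mul, Complex.norm_real, Real.norm_eq_abs,
    abs_of_nonneg hr]

theorem kap_lip {k k' : ℂ} (hk : 0 ≤ k.im) (hk' : 0 ≤ k'.im) {R a : ℝ} (hR : 0 ≤ R) (ha : 0 < a) :
    ‖kap k R a - kap k' R a‖ ≤ R ^ 3 * ‖k - k'‖ := by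
  have hc : ∀ k : ℂ, Continuous (fun r : ℝ =>
      Complex.exp (Complex.I * k * r) * (Real.sin (a * r) : ℂ)) := fun k => by fun_prop
  unfold kap
  rw [← mul_sub, ← intervalIntegral.integral_sub ((hc k).intervalIntegrable 0 R)
    ((hc k').intervalIntegrable 0 R)]
  have hb : ‖∫ r in (0 : ℝ)..R, (Complex.exp (Complex.I * k * r) * (Real.sin (a * r) : ℂ) -
      Complex.exp (Complex.I * k' * r) * (Real.sin (a * r) : ℂ))‖ ≤
      (‖k - k'‖ * R * (a * R)) * |R - 0| := by
    apply intervalIntegral.norm_integral_le_of_norm_le_const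
    intro r hr
    rw [uIoc_of_le hR] at hr
    rw [← sub_mul, norm_mul]
    have h1 := exp_lip hk hk' hr.1.le
    have h2 := abs_sin_le a r ha.le hr.1.le
    have h3 : ‖k - k'‖ * r ≤ ‖k - k'‖ * R := mul_le_mul_of_nonneg_left hr.2 (norm_nonneg _)
    have h4 : a * r ≤ a * R := mul_le_mul_of_nonneg_left hr.2 ha.le
    exact mul_le_mul (h1.trans h3) (h2.trans h4) (norm_nonneg _)
      (mul_nonneg (norm_nonneg _) hR)
  rw [norm_mul, Complex.norm_real, Real.norm_eq_abs, abs_of_pos (one_div_pos.mpr ha)]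
  calc _ ≤ 1 / a * ((‖k - k'‖ * R * (a * R)) * |R - 0|) :=
        mul_le_mul_of_nonneg_left hb (one_div_pos.mpr ha).le
    _ = R ^ 3 * ‖k - k'‖ := by
        rw [sub_zero, abs_of_nonneg hR]
        field_simp

theorem kap_measurable (k : ℂ) (R : ℝ) : Measurable (fun a => kap k R a) := by
  unfold kap
  apply Measurable.mul
  · exact Complex.measurable_ofReal.comp (measurable_const.div measurable_id)
  · apply Continuous.measurable
    apply intervalIntegral.continuous_parametric_intervalIntegral_of_continuous'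
    fun_prop

private lemma tendsto_exp_decay {s : ℝ} (hs : 0 < s) (n : ℕ) :
    Tendsto (fun r : ℝ => r ^ n * Real.exp (-(s * r))) atTop (𝓝 0) := by
  have := Real.tendsto_pow_mul_exp_neg_atTop_nhds_zero n
  have h2 : Tendsto (fun r : ℝ => s * r) atTop atTop := tendsto_id.const_mul_atTop hs
  have h3 := (this.comp h2).const_mul ((1 / s) ^ n)
  simp only [mul_zero] at h3
  refine h3.congr ?_
  intro r
  simp only [Function.comp]
  have : (1 / s) ^ n * (s * r) ^ n = r ^ n := by
    rw [← mul_pow]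
    congr 1
    field_simp
  rw [← mul_assoc, this]

theorem laplace_sin {k : ℂ} (hk : 0 < k.im) {a : ℝ} (ha : 0 < a) :
    IntegrableOn (fun r : ℝ => Complex.exp (Complex.I * k * r) * (Real.sin (a * r) : ℂ)) (Ioi 0) ∧
    ∫ r in Ioi (0 : ℝ), Complex.exp (Complex.I * k * r) * (Real.sin (a * r) : ℂ) =
      a / ((a : ℂ) ^ 2 - k ^ 2) := by
  have hc : Continuous (fun r : ℝ =>
      Complex.exp (Complex.I * k * r) * (Real.sin (a * r) : ℂ)) := by fun_prop
  have hint : IntegrableOn (fun r : ℝ =>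
      Complex.exp (Complex.I * k * r) * (Real.sin (a * r) : ℂ)) (Ioi 0) := by
    have hexp : IntegrableOn (fun r : ℝ => Real.exp (-k.im * r)) (Ioi 0) :=
      exp_neg_integrableOn_Ioi 0 hk
    refine Integrable.mono' hexp hc.aestronglyMeasurable ?_
    refine Eventually.of_forall fun r => ?_
    rw [norm_mul, norm_exp_Ik, Complex.norm_real, Real.norm_eq_abs]
    have h2 := Real.abs_sin_le_one (a * r)
    calc Real.exp (-(k.im * r)) * |Real.sin (a * r)| ≤ Real.exp (-(k.im * r)) * 1 :=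
          mul_le_mul_of_nonneg_left h2 (Real.exp_pos _).le
      _ = Real.exp (-k.im * r) := by rw [mul_one]; congr 1; ring
  have hne : (a : ℂ) ^ 2 - k ^ 2 ≠ 0 := by
    intro h
    have h1 : ((a : ℂ) - k) * (a + k) = 0 := by linear_combination h
    rcases mul_eq_zero.mp h1 with h2 | h2
    · have := congrArg Complex.im h2
      simp at this
      linarith
    · have := congrArg Complex.im h2
      simp at this
      linarith
  refine ⟨hint, ?_⟩
  have hder : ∀ r ∈ Ioi (0 : ℝ), HasDerivAt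
      (fun r : ℝ => Complex.exp (Complex.I * k * r) *
        (Complex.I * k * (Real.sin (a * r) : ℂ) - a * (Real.cos (a * r) : ℂ)) /
        ((a : ℂ) ^ 2 - k ^ 2))
      (Complex.exp (Complex.I * k * r) * (Real.sin (a * r) : ℂ)) r := by
    intro r _
    have h1 := ((hasDerivAt_expIk k r).mul
      (((hasDerivAt_sinC a r).const_mul (Complex.I * k)).sub
        ((hasDerivAt_cosC a r).const_mul (a : ℂ)))).div_const ((a : ℂ) ^ 2 - k ^ 2)
    refine HasDerivAt.congr_deriv h1 ?_
    simp only [Pi.sub_apply]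
    rw [div_eq_iff hne]
    push_cast
    linear_combination (Complex.exp (Complex.I * k * r) * Complex.sin (a * r) * (k ^ 2)) *
      Complex.I_sq
  have hcont : ContinuousWithinAt
      (fun r : ℝ => Complex.exp (Complex.I * k * r) *
        (Complex.I * k * (Real.sin (a * r) : ℂ) - a * (Real.cos (a * r) : ℂ)) /
        ((a : ℂ) ^ 2 - k ^ 2)) (Ici 0) 0 := by
    apply Continuous.continuousWithinAt
    fun_prop
  have hlim : Tendsto
      (fun r : ℝ => Complex.exp (Complex.I * k * r) *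
        (Complex.I * k * (Real.sin (a * r) : ℂ) - a * (Real.cos (a * r) : ℂ)) /
        ((a : ℂ) ^ 2 - k ^ 2)) atTop (𝓝 0) := by
    have h0 : Tendsto (fun r : ℝ => Real.exp (-(k.im * r)) *
        ((‖k‖ + a) / ‖(a : ℂ) ^ 2 - k ^ 2‖)) atTop (𝓝 0) := by
      have := (tendsto_exp_decay hk 0).mul_const ((‖k‖ + a) / ‖(a : ℂ) ^ 2 - k ^ 2‖)
      simpa using this
    refine squeeze_zero_norm (fun r => ?_) h0
    rw [norm_div, norm_mul, norm_exp_Ik, mul_div_assoc]
    apply mul_le_mul_of_nonneg_left _ (Real.exp_pos _).le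
    apply div_le_div_of_nonneg_right _ (norm_nonneg _)
    refine (norm_sub_le _ _).trans (add_le_add ?_ ?_)
    · rw [norm_mul, norm_mul, Complex.norm_I, one_mul, Complex.norm_real, Real.norm_eq_abs]
      have h2 := Real.abs_sin_le_one (a * r)
      nlinarith [norm_nonneg k]
    · rw [norm_mul, Complex.norm_real, Complex.norm_real, Real.norm_eq_abs, Real.norm_eq_abs,
        abs_of_pos ha]
      have h2 := Real.abs_cos_le_one (a * r)
      nlinarith
  rw [integral_Ioi_of_hasDerivAt_of_tendsto hcont hder hint hlim]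
  simp
  ring

theorem laplace_r_sin {a : ℝ} (ha : 0 < a) :
    IntegrableOn (fun r : ℝ => (r : ℂ) * Complex.exp (-r) * (Real.sin (a * r) : ℂ)) (Ioi 0) ∧
    ∫ r in Ioi (0 : ℝ), (r : ℂ) * Complex.exp (-r) * (Real.sin (a * r) : ℂ) =
      2 * a / ((a : ℂ) ^ 2 + 1) ^ 2 := by
  have hpos : (0 : ℝ) < a ^ 2 + 1 := by positivity
  -- real version
  have hG : ∀ r ∈ Ioi (0 : ℝ), HasDerivAt (fun r : ℝ =>
      r * (Real.exp (-r) * (-Real.sin (a * r) - a * Real.cos (a * r)) / (a ^ 2 + 1)) +
      Real.exp (-r) * ((a ^ 2 - 1) * Real.sin (a * r) - 2 * a * Real.cos (a * r)) /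
        (a ^ 2 + 1) ^ 2)
      (r * Real.exp (-r) * Real.sin (a * r)) r := by
    intro r _
    have hs : HasDerivAt (fun r : ℝ => Real.sin (a * r)) (a * Real.cos (a * r)) r := by
      have h2 : HasDerivAt (fun r : ℝ => a * r) a r := by
        simpa using (hasDerivAt_id r).const_mul a
      have := h2.sin
      rwa [mul_comm] at this
    have hc : HasDerivAt (fun r : ℝ => Real.cos (a * r)) (-(a * Real.sin (a * r))) r := by
      have h2 : HasDerivAt (fun r : ℝ => a * r) a r := by
        simpa using (hasDerivAt_id r).const_mul a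
      have := h2.cos
      convert this using 1
      ring
    have he : HasDerivAt (fun r : ℝ => Real.exp (-r)) (-Real.exp (-r)) r := by
      have := (hasDerivAt_id r).neg.exp
      simpa using this
    have h1 := ((hasDerivAt_id r).mul ((he.mul (hs.neg.sub (hc.const_mul a))).div_const
      (a ^ 2 + 1))).add ((he.mul ((hs.const_mul (a ^ 2 - 1)).sub
        (hc.const_mul (2 * a)))).div_const ((a ^ 2 + 1) ^ 2))
    refine HasDerivAt.congr_deriv h1 ?_
    simp only [Pi.neg_apply, Pi.sub_apply, Pi.mul_apply, id]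
    field_simp
    ring
  have hcG : Continuous (fun r : ℝ =>
      r * (Real.exp (-r) * (-Real.sin (a * r) - a * Real.cos (a * r)) / (a ^ 2 + 1)) +
      Real.exp (-r) * ((a ^ 2 - 1) * Real.sin (a * r) - 2 * a * Real.cos (a * r)) /
        (a ^ 2 + 1) ^ 2) := by fun_prop
  have hlim : Tendsto (fun r : ℝ =>
      r * (Real.exp (-r) * (-Real.sin (a * r) - a * Real.cos (a * r)) / (a ^ 2 + 1)) +
      Real.exp (-r) * ((a ^ 2 - 1) * Real.sin (a * r) - 2 * a * Real.cos (a * r)) /
        (a ^ 2 + 1) ^ 2) atTop (𝓝 0) := by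
    have t1 := tendsto_exp_decay one_pos 1
    have t0 := tendsto_exp_decay one_pos 0
    simp only [one_mul, pow_one, pow_zero] at t1 t0
    have hb : ∀ c d : ℝ, ∀ r : ℝ, ‖c * Real.sin (a * r) - d * Real.cos (a * r)‖ ≤ |c| + |d| := by
      intro c d r
      rw [Real.norm_eq_abs]
      refine (abs_sub _ _).trans (add_le_add ?_ ?_)
      · rw [abs_mul]
        exact mul_le_of_le_one_right (abs_nonneg _) (Real.abs_sin_le_one _)
      · rw [abs_mul]
        exact mul_le_of_le_one_right (abs_nonneg _) (Real.abs_cos_le_one _)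
    have h1 : Tendsto (fun r : ℝ => (r * Real.exp (-r)) *
        ((-1 * Real.sin (a * r) - a * Real.cos (a * r)) / (a ^ 2 + 1))) atTop (𝓝 0) := by
      refine squeeze_zero_norm' (a := fun r : ℝ => (r * Real.exp (-r)) *
        ((|(-1 : ℝ)| + |a|) / (a ^ 2 + 1))) ?_ (by simpa using t1.mul_const _)
      filter_upwards [eventually_ge_atTop (0 : ℝ)] with r hr
      rw [norm_mul, norm_div, Real.norm_of_nonneg (mul_nonneg hr (Real.exp_pos _).le),
        Real.norm_of_nonneg hpos.le]
      exact mul_le_mul_of_nonneg_left (div_le_div_of_nonneg_right (hb _ _ _) hpos.le)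
        (mul_nonneg hr (Real.exp_pos _).le)
    have h2 : Tendsto (fun r : ℝ => (Real.exp (-r)) *
        (((a ^ 2 - 1) * Real.sin (a * r) - (2 * a) * Real.cos (a * r)) / (a ^ 2 + 1) ^ 2))
        atTop (𝓝 0) := by
      refine squeeze_zero_norm (a := fun r : ℝ => (Real.exp (-r)) *
        ((|a ^ 2 - 1| + |2 * a|) / (a ^ 2 + 1) ^ 2)) (fun r => ?_)
        (by simpa using t0.mul_const _)
      rw [norm_mul, norm_div, Real.norm_of_nonneg (Real.exp_pos _).le,
        Real.norm_of_nonneg (pow_pos hpos 2).le]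
      exact mul_le_mul_of_nonneg_left (div_le_div_of_nonneg_right (hb _ _ _) (pow_pos hpos 2).le)
        (Real.exp_pos _).le
    have h3 := h1.add h2
    simp only [add_zero] at h3
    refine h3.congr fun r => ?_
    ring
  have hcf : Continuous (fun r : ℝ => r * Real.exp (-r) * Real.sin (a * r)) := by fun_prop
  have hintR : IntegrableOn (fun r : ℝ => r * Real.exp (-r) * Real.sin (a * r)) (Ioi 0) := by
    have hg : IntegrableOn (fun r : ℝ => Real.exp (-r) * r ^ ((2 : ℝ) - 1)) (Ioi 0) :=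
      Real.GammaIntegral_convergent (by norm_num)
    refine Integrable.mono' hg hcf.aestronglyMeasurable ?_
    refine (ae_restrict_iff' measurableSet_Ioi).mpr (Eventually.of_forall fun r hr => ?_)
    have hr0 : (0 : ℝ) < r := hr
    have : r ^ ((2 : ℝ) - 1) = r := by
      norm_num
    rw [this, norm_mul, norm_mul, Real.norm_of_nonneg hr0.le,
      Real.norm_of_nonneg (Real.exp_pos _).le, Real.norm_eq_abs]
    have h2 := Real.abs_sin_le_one (a * r)
    calc r * Real.exp (-r) * |Real.sin (a * r)| ≤ r * Real.exp (-r) * 1 :=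
          mul_le_mul_of_nonneg_left h2 (mul_nonneg hr0.le (Real.exp_pos _).le)
      _ = Real.exp (-r) * r := by ring
  have hval := integral_Ioi_of_hasDerivAt_of_tendsto hcG.continuousWithinAt hG hintR hlim
  have hfun : (fun r : ℝ => (r : ℂ) * Complex.exp (-r) * (Real.sin (a * r) : ℂ)) =
      fun r : ℝ => ((r * Real.exp (-r) * Real.sin (a * r) : ℝ) : ℂ) := by
    ext r
    push_cast
    ring
  rw [hfun]
  refine ⟨hintR.ofReal, ?_⟩
  rw [integral_complex_ofReal, hval]
  simp
  ring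

end FracScat

end
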