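import Pool.Agent.Lib.MP_6e2ba5_an.PhiA

/-! # Fourier transforms of `Yk` and `Pk`

`Yk`: `radial_ft`, `laplace_sin` with `k = i` (`exp(i·i·r) = exp(-r)`), `laplace_r_sin`.
`Pk = Phi - Yk` off the origin (`Pk_eq`), `𝓕` is additive on integrable functions. -/

set_option autoImplicit false

open MeasureTheory Filter Topology Set
open scoped FourierTransform SchwartzMap InnerProductSpace ENNReal ContDiff

noncomputable section

namespace FracScat

private theorem phb_int (m : ℕ) :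
    IntegrableOn (fun r : ℝ => (r : ℂ) ^ m * Complex.exp (-r)) (Ioi 0) := by
  have h := (Real.GammaIntegral_convergent (s := (m : ℝ) + 1) (by positivity)).ofReal (𝕜 := ℂ)
  refine IntegrableOn.congr_fun h ?_ measurableSet_Ioi
  intro r hr
  change ((Real.exp (-r) * r ^ ((m : ℝ) + 1 - 1) : ℝ) : ℂ) = (r : ℂ) ^ m * Complex.exp (-r)
  rw [add_sub_cancel_right, Real.rpow_natCast]
  push_cast
  ring

private theorem phb_hg (k : ℂ) : IntegrableOn (fun r : ℝ => (r : ℂ) ^ 2 *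
    (Complex.exp (-r) / (4 * Real.pi * r) + (k ^ 2 + 1) / (8 * Real.pi) * Complex.exp (-r)))
    (Ioi 0) := by
  have h1 := (phb_int 1).const_mul (1 / (4 * (Real.pi : ℂ)))
  have h2 := (phb_int 2).const_mul ((k ^ 2 + 1) / (8 * (Real.pi : ℂ)))
  refine IntegrableOn.congr_fun (h1.add h2) ?_ measurableSet_Ioi
  intro r hr
  have hr0 : (r : ℂ) ≠ 0 := by
    rw [Ne, Complex.ofReal_eq_zero]
    exact (mem_Ioi.1 hr).ne'
  have hpi : (Real.pi : ℂ) ≠ 0 := by
    rw [Ne, Complex.ofReal_eq_zero]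
    exact Real.pi_ne_zero
  simp only [Pi.add_apply]
  field_simp

theorem Yk_integrable (k : ℂ) : Integrable (Yk k) := by
  exact radial_integrable (phb_hg k)

theorem Yk_ft (k : ℂ) {ξ : E3} (hξ : ξ ≠ 0) : 𝓕 (Yk k) ξ = Yh k (2 * Real.pi * ‖ξ‖) := by
  have hn : 0 < ‖ξ‖ := norm_pos_iff.2 hξ
  have ha : 0 < 2 * Real.pi * ‖ξ‖ := by positivity
  have h := radial_ft (phb_hg k) ξ hξ
  have e : (fun x : E3 => Complex.exp (-(‖x‖ : ℂ)) / (4 * Real.pi * ‖x‖) +
      (k ^ 2 + 1) / (8 * Real.pi) * Complex.exp (-(‖x‖ : ℂ))) = Yk k := rfl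
  rw [e] at h
  rw [h]
  have hI : 0 < Complex.I.im := by rw [Complex.I_im]; exact one_pos
  obtain ⟨s1, s2⟩ := laplace_sin hI ha
  obtain ⟨t1, t2⟩ := laplace_r_sin ha
  have hII : ∀ r : ℝ, Complex.exp (Complex.I * Complex.I * r) = Complex.exp (-r) := by
    intro r
    rw [Complex.I_mul_I, neg_one_mul]
  simp only [hII] at s1 s2
  have hpi : (Real.pi : ℂ) ≠ 0 := by
    rw [Ne, Complex.ofReal_eq_zero]
    exact Real.pi_ne_zero
  have hsplit : ∫ r in Ioi (0 : ℝ), (Complex.exp (-r) / (4 * Real.pi * r) +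
      (k ^ 2 + 1) / (8 * Real.pi) * Complex.exp (-r)) * r *
        (Real.sin (2 * Real.pi * ‖ξ‖ * r) : ℂ) =
      (1 / (4 * (Real.pi : ℂ))) * (∫ r in Ioi (0 : ℝ), Complex.exp (-r) *
        (Real.sin (2 * Real.pi * ‖ξ‖ * r) : ℂ)) +
      ((k ^ 2 + 1) / (8 * (Real.pi : ℂ))) * (∫ r in Ioi (0 : ℝ), (r : ℂ) * Complex.exp (-r) *
        (Real.sin (2 * Real.pi * ‖ξ‖ * r) : ℂ)) := by
    rw [← integral_const_mul, ← integral_const_mul, ← integral_add (s1.const_mul _)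
      (t1.const_mul _)]
    refine setIntegral_congr_fun measurableSet_Ioi ?_
    intro r hr
    have hr0 : (r : ℂ) ≠ 0 := by
      rw [Ne, Complex.ofReal_eq_zero]
      exact (mem_Ioi.1 hr).ne'
    simp only
    field_simp
  rw [hsplit, s2, t2]
  unfold Yh
  have hnC : (‖ξ‖ : ℂ) ≠ 0 := by
    rw [Ne, Complex.ofReal_eq_zero]
    exact hn.ne'
  have hden : ((2 * Real.pi * ‖ξ‖ : ℝ) : ℂ) ^ 2 + 1 ≠ 0 := by
    have h1 : ((2 * Real.pi * ‖ξ‖ : ℝ) : ℂ) ^ 2 + 1 = (((2 * Real.pi * ‖ξ‖) ^ 2 + 1 : ℝ) : ℂ) := by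
      push_cast
      ring
    rw [h1, Ne, Complex.ofReal_eq_zero]
    positivity
  rw [Complex.I_sq, sub_neg_eq_add]
  push_cast at hden ⊢
  field_simp
  ring

private theorem phb_ae (k : ℂ) : Pk k =ᵐ[volume] fun x => Phi k x - Yk k x := by
  have h : ({0} : Set E3)ᶜ ∈ ae (volume : Measure E3) :=
    compl_mem_ae_iff.2 (measure_singleton 0)
  filter_upwards [h] with x hx
  exact Pk_eq k hx

theorem Pk_integrable {k : ℂ} (hk : 0 < k.im) : Integrable (Pk k) := by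
  exact ((Phi_integrable hk).sub (Yk_integrable k)).congr (phb_ae k).symm

theorem Pk_ft {k : ℂ} (hk : 0 < k.im) {ξ : E3} (hξ : ξ ≠ 0) :
    𝓕 (Pk k) ξ = mk k (2 * Real.pi * ‖ξ‖) := by
  unfold mk
  rw [← Phi_ft hk hξ, ← Yk_ft k hξ, Real.fourier_eq, Real.fourier_eq, Real.fourier_eq,
    ← integral_sub ((Real.fourierIntegral_convergent_iff ξ).2 (Phi_integrable hk))
      ((Real.fourierIntegral_convergent_iff ξ).2 (Yk_integrable k))]
  refine integral_congr_ae ?_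
  filter_upwards [phb_ae k] with x hx
  rw [hx, smul_sub]

end FracScat

end
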