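import Pool.Agent.Lib.MP_6e2ba5_an.GsBound
import Pool.Agent.Lib.MP_6e2ba5_an.PhiB
import Pool.Agent.Lib.MP_6e2ba5_an.Conv

/-! # For `Im k > 0` the cut off resolvent is the cut off true resolvent

`rs s k a - (ck κ + h) = ck (1/(a²-k²) - κ)`, and the multiplier with symbol `1/(a²-k²) - κ` is the
convolution with `Phi k - PhiR k (2r)`, which vanishes for `|x| < 2r`; applied to a function
supported in the ball of radius `r` the result vanishes on that ball.
(`multL_conv` with `q = Phi k - PhiR k (2r)`; the function `mulL (indB r) f` is integrable by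
`integrable_of_indB`.) -/

set_option autoImplicit false

open MeasureTheory Filter Topology Set
open scoped FourierTransform SchwartzMap InnerProductSpace ENNReal

noncomputable section

namespace FracScat

private theorem KopInt_ne {k : ℂ} (hk' : 0 < k.im) (a : ℝ) : (a : ℂ) ≠ k := by
  intro he
  rw [← he, Complex.ofReal_im] at hk'
  exact lt_irrefl _ hk'

private theorem KopInt_low {k : ℂ} (hk' : 0 < k.im) (a : ℝ) :
    ‖1 / ((a : ℂ) ^ 2 - k ^ 2)‖ ≤ 1 / k.im ^ 2 := by
  have h1 : (a : ℂ) ^ 2 - k ^ 2 = ((a : ℂ) - k) * ((a : ℂ) + k) := by ring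
  have h2 : k.im ≤ ‖(a : ℂ) - k‖ := by
    have := Complex.abs_im_le_norm ((a : ℂ) - k)
    rw [Complex.sub_im, Complex.ofReal_im, zero_sub, abs_neg, abs_of_pos hk'] at this
    exact this
  have h3 : k.im ≤ ‖(a : ℂ) + k‖ := by
    have := Complex.abs_im_le_norm ((a : ℂ) + k)
    rw [Complex.add_im, Complex.ofReal_im, zero_add, abs_of_pos hk'] at this
    exact this
  rw [norm_div, norm_one, h1, norm_mul]
  refine one_div_le_one_div_of_le (by positivity) ?_
  rw [sq]
  exact mul_le_mul h2 h3 hk'.le (norm_nonneg _)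

private theorem KopInt_rs (s : ℝ) (k : ℂ) (a : ℝ) :
    rs s k a = hs s k a + ck s k * (1 / ((a : ℂ) ^ 2 - k ^ 2)) := by
  unfold hs
  ring

private theorem KopInt_rs_meas (s : ℝ) (k : ℂ) : Measurable (fun a => rs s k a) := by
  unfold rs
  fun_prop

theorem rsE_BM {s : ℝ} (h0 : 0 < s) (h2 : s < 2) {k : ℂ} (hk : k ∈ Quad) (hk' : 0 < k.im) :
    BM (rsE s k) := by
  obtain ⟨C, hC0, hC⟩ := hs_bound h0 h2
  refine ⟨?_, C * ‖k‖ ^ (-(2 * s)) + ‖ck s k‖ * (1 / k.im ^ 2), Eventually.of_forall fun ξ => ?_⟩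
  · have h1 : Measurable (fun ξ : E3 => 2 * Real.pi * ‖ξ‖) := measurable_norm.const_mul _
    exact ((KopInt_rs_meas s k).comp h1).aestronglyMeasurable
  · unfold rsE
    rw [KopInt_rs]
    refine (norm_add_le _ _).trans (add_le_add (hC k hk _ (by positivity) (KopInt_ne hk' _)) ?_)
    rw [norm_mul]
    exact mul_le_mul_of_nonneg_left (KopInt_low hk' _) (norm_nonneg _)

/-- the kernel of the difference -/
private def KopInt_q (k : ℂ) (r : ℝ) (x : E3) : ℂ := Phi k x - PhiR k (2 * r) x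

private theorem KopInt_q_int {k : ℂ} (hk' : 0 < k.im) (r : ℝ) : Integrable (KopInt_q k r) :=
  (Phi_integrable hk').sub (PhiR_integrable k (2 * r))

private theorem KopInt_q_zero (k : ℂ) (r : ℝ) {x : E3} (hx : ‖x‖ < 2 * r) : KopInt_q k r x = 0 := by
  unfold KopInt_q PhiR
  rw [if_pos hx, sub_self]

private theorem KopInt_q_ft {k : ℂ} (hk' : 0 < k.im) {r : ℝ} (hr : 0 ≤ r) {ξ : E3} (hξ : ξ ≠ 0) :
    𝓕 (KopInt_q k r) ξ = 1 / (((2 * Real.pi * ‖ξ‖ : ℝ) : ℂ) ^ 2 - k ^ 2) -
      kap k (2 * r) (2 * Real.pi * ‖ξ‖) := by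
  rw [← Phi_ft hk' hξ, ← PhiR_ft k (by positivity) hξ, Real.fourier_eq, Real.fourier_eq,
    Real.fourier_eq, ← integral_sub ((Real.fourierIntegral_convergent_iff ξ).2 (Phi_integrable hk'))
      ((Real.fourierIntegral_convergent_iff ξ).2 (PhiR_integrable k (2 * r)))]
  refine integral_congr_ae (Eventually.of_forall fun x => ?_)
  simp only [KopInt_q, smul_sub]

private theorem KopInt_symb {s : ℝ} {k : ℂ} (hk' : 0 < k.im) {r : ℝ} (hr : 0 ≤ r) :
    rsE s k =ᵐ[volume] fun ξ => gs s (2 * r) k ξ + ck s k * 𝓕 (KopInt_q k r) ξ := by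
  have h : ({0} : Set E3)ᶜ ∈ ae (volume : Measure E3) :=
    compl_mem_ae_iff.2 (measure_singleton 0)
  filter_upwards [h] with ξ hξ
  rw [KopInt_q_ft hk' hr hξ]
  unfold rsE gs
  rw [KopInt_rs]
  ring

private theorem KopInt_kill {k : ℂ} (hk' : 0 < k.im) (r : ℝ) (f : HS) :
    mulL (indB r) (multL (𝓕 (KopInt_q k r)) (mulL (indB r) f)) = 0 := by
  set g : HS := mulL (indB r) f with hg
  have hgi : Integrable (g : E3 → ℂ) := integrable_of_indB (r := r) (indB_idem r f)
  have h1 := multL_conv (KopInt_q_int hk' r) g hgi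
  apply Lp.ext
  filter_upwards [mulL_coe (indB_BM r) (multL (𝓕 (KopInt_q k r)) g), h1,
    Lp.coeFn_zero ℂ 2 (volume : Measure E3)] with x a b c
  rw [a, b, c]
  simp only [Pi.zero_apply]
  by_cases hx : ‖x‖ < r
  · have h2 : cv (KopInt_q k r) g x = 0 := by
      unfold cv
      have h3 : (fun y : E3 => (g : E3 → ℂ) y * KopInt_q k r (x - y)) =ᵐ[volume] fun _ => (0 : ℂ) := by
        filter_upwards [mulL_coe (indB_BM r) f] with y hy
        rw [hg, hy]
        unfold indB
        by_cases hyr : ‖y‖ < r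
        · have h4 : ‖x - y‖ < 2 * r := by
            have := norm_sub_le x y
            linarith
          rw [KopInt_q_zero k r h4, mul_zero]
        · rw [if_neg hyr, zero_mul, zero_mul]
      rw [integral_congr_ae h3, integral_zero]
    rw [h2, mul_zero]
  · unfold indB
    rw [if_neg hx, zero_mul]

theorem Kop_interior {s : ℝ} (h0 : 0 < s) (h2 : s < 2) {r : ℝ} (hr : 0 ≤ r) {k : ℂ}
    (hk : k ∈ Quad) (hk' : 0 < k.im) :
    Kop s r k = mulL (indB r) ∘L multL (rsE s k) ∘L mulL (indB r) := by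
  have hgs : BM (gs s (2 * r) k) := gs_BM h0 h2 (by positivity) hk
  have hq : BM (𝓕 (KopInt_q k r)) := BM_fourier (KopInt_q_int hk' r)
  have h1 : multL (rsE s k) = multL (gs s (2 * r) k) + ck s k • multL (𝓕 (KopInt_q k r)) := by
    rw [multL_congr (KopInt_symb hk' hr), multL_add hgs (hq.const_mul _), multL_const_mul _ hq]
  rw [h1]
  unfold Kop
  ext1 f
  simp only [ContinuousLinearMap.comp_apply, _root_.add_apply, _root_.smul_apply, map_add, map_smul]
  rw [KopInt_kill hk' r f, smul_zero, add_zero]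

end FracScat

end
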