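import Pool.Agent.Lib.MP_6e2ba5_an.Wfun
import Pool.Agent.Lib.MP_6e2ba5_an.Conv

/-! # The limiting absorption principle for pairings

For `ε > 0`, `κ = k + iε`: `cv (Pk κ) f = multL (mk κ) f` a.e. (`Pk_integrable`, `Pk_ft`,
`multL_conv`, `multL_congr`), so by `parseval`
`∫ cv (Pk κ) f g = ∫ (FT f)(ξ) (FT g)(-ξ) mk κ a dξ`. As `ε → 0+` the left side converges to
`∫ cv (Pk k) f g`: `|Pk κ| ≤ C` uniformly (`Pk_bound` with `M = k+1`), `f, g ∈ L¹`, and
`Pk κ x → Pk k x` pointwise (dominated convergence twice).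
`pair_eq`: `|a² - κ²|² = (a²-k²+ε²)² + 4k²ε² ≥ c |a²-k²|²` for small `ε` (e.g. `c = 1/4` for
`ε ≤ k/2`: if `|a²-k²| ≥ 2ε²` then `|a²-k²+ε²| ≥ |a²-k²|/2`, otherwise use `4k²ε² ≥ (2ε²)²/4`),
`Yh κ a` is bounded, so the integrand is dominated by `2 J + C |(FT f)(ξ)(FT g)(-ξ)|`. -/

set_option autoImplicit false

open MeasureTheory Filter Topology Set
open scoped FourierTransform SchwartzMap InnerProductSpace ENNReal

noncomputable section

namespace FracScat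

/-- the complex wave number -/
private def PairLim_kap (k ε : ℝ) : ℂ := (k : ℂ) + Complex.I * (ε : ℂ)

private theorem PairLim_im (k ε : ℝ) : (PairLim_kap k ε).im = ε := by
  unfold PairLim_kap
  simp

private theorem PairLim_cont (k : ℝ) : Continuous (PairLim_kap k) := by
  unfold PairLim_kap
  fun_prop

private theorem PairLim_zero (k : ℝ) : PairLim_kap k 0 = k := by
  unfold PairLim_kap
  simp

private theorem PairLim_norm {k ε : ℝ} (hk : 0 < k) (hε : 0 ≤ ε) (hε1 : ε ≤ 1) :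
    ‖PairLim_kap k ε‖ ≤ k + 1 := by
  unfold PairLim_kap
  refine (norm_add_le _ _).trans ?_
  rw [norm_mul, Complex.norm_I, one_mul, Complex.norm_real, Complex.norm_real,
    Real.norm_of_nonneg hk.le, Real.norm_of_nonneg hε]
  linarith

private theorem PairLim_pk_cont (z : E3) : Continuous (fun κ : ℂ => Pk κ z) := by
  unfold Pk pk
  split_ifs <;> fun_prop

private theorem PairLim_eq {k ε : ℝ} (hε : 0 < ε) (f : HS) (hfi : Integrable (f : E3 → ℂ))
    (g : HS) :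
    ∫ ξ, (FT f : E3 → ℂ) ξ * (FT g : E3 → ℂ) (-ξ) * mk (PairLim_kap k ε) (2 * Real.pi * ‖ξ‖) =
      ∫ x, cv (Pk (PairLim_kap k ε)) f x * g x := by
  have hκ : 0 < (PairLim_kap k ε).im := by rw [PairLim_im]; exact hε
  have hint := Pk_integrable hκ
  have h1 := multL_conv hint f hfi
  have h2 := parseval (multL (𝓕 (Pk (PairLim_kap k ε))) f) g
  have h3 : ∫ x, cv (Pk (PairLim_kap k ε)) f x * g x =
      ∫ x, (multL (𝓕 (Pk (PairLim_kap k ε))) f : E3 → ℂ) x * g x := by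
    refine integral_congr_ae ?_
    filter_upwards [h1] with x hx
    rw [hx]
  rw [h3, h2]
  refine integral_congr_ae ?_
  have h4 : ∀ᵐ ξ ∂(volume : Measure E3), ξ ∉ ({0} : Set E3) :=
    measure_eq_zero_iff_ae_notMem.1 (measure_singleton 0)
  filter_upwards [FT_multL_coe (BM_fourier hint) f, h4] with ξ h5 h6
  rw [h5, Pk_ft hκ h6]
  ring

private theorem PairLim_cv {k : ℝ} (hk : 0 < k) {f : E3 → ℂ} (hf : Integrable f) :
    ∃ C : ℝ, 0 ≤ C ∧
      (∀ ε : ℝ, 0 ≤ ε → ε ≤ 1 → ∀ x, ‖cv (Pk (PairLim_kap k ε)) f x‖ ≤ (∫ y, ‖f y‖) * C) ∧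
      ∀ x, Tendsto (fun ε : ℝ => cv (Pk (PairLim_kap k ε)) f x) (𝓝[>] 0)
        (𝓝 (cv (Pk k) f x)) := by
  obtain ⟨C, hC, H⟩ := Pk_bound (k + 1)
  have hb : ∀ ε : ℝ, 0 ≤ ε → ε ≤ 1 → ∀ z, ‖Pk (PairLim_kap k ε) z‖ ≤ C := by
    intro ε h0 h1 z
    refine (H _ (by rw [PairLim_im]; exact h0) (PairLim_norm hk h0 h1) z).trans ?_
    exact div_le_self hC (by linarith [norm_nonneg z])
  refine ⟨C, hC, fun ε h0 h1 x => ?_, fun x => ?_⟩
  · unfold cv
    rw [← integral_mul_const]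
    refine norm_integral_le_of_norm_le (hf.norm.mul_const C) (Eventually.of_forall fun y => ?_)
    rw [norm_mul]
    exact mul_le_mul_of_nonneg_left (hb ε h0 h1 _) (norm_nonneg _)
  · unfold cv
    have hev : ∀ᶠ ε : ℝ in 𝓝[>] 0, 0 ≤ ε ∧ ε ≤ 1 := by
      filter_upwards [Ioc_mem_nhdsGT (zero_lt_one' ℝ)] with ε hε
      exact ⟨hε.1.le, hε.2⟩
    refine tendsto_integral_filter_of_dominated_convergence (fun y => ‖f y‖ * C) ?_ ?_
      (hf.norm.mul_const C) ?_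
    · refine Eventually.of_forall fun ε => ?_
      refine hf.aestronglyMeasurable.mul ?_
      exact ((Pk_continuous (PairLim_kap k ε)).comp
        (continuous_const.sub continuous_id)).aestronglyMeasurable
    · filter_upwards [hev] with ε hε
      refine Eventually.of_forall fun y => ?_
      rw [norm_mul]
      exact mul_le_mul_of_nonneg_left (hb ε hε.1 hε.2 _) (norm_nonneg _)
    · refine Eventually.of_forall fun y => ?_
      have h1 : Continuous (fun ε : ℝ => f y * Pk (PairLim_kap k ε) (x - y)) :=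
        continuous_const.mul ((PairLim_pk_cont (x - y)).comp (PairLim_cont k))
      have h2 := (h1.tendsto 0).mono_left (nhdsWithin_le_nhds (s := Ioi (0 : ℝ)))
      rwa [PairLim_zero] at h2

theorem pair_lim {k : ℝ} (hk : 0 < k) {r : ℝ} (hr : 0 < r) {f : HS} (hf : mulL (indB r) f = f)
    (g : HS) (hg : Integrable (g : E3 → ℂ)) :
    Tendsto (fun ε : ℝ => ∫ ξ, (FT f : E3 → ℂ) ξ * (FT g : E3 → ℂ) (-ξ) *
      mk (k + Complex.I * ε) (2 * Real.pi * ‖ξ‖)) (𝓝[>] 0) (𝓝 (∫ x, cv (Pk k) f x * g x)) := by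
  have _ := hr
  have hfi := integrable_of_indB hf
  obtain ⟨C, hC, hb, hl⟩ := PairLim_cv hk hfi
  have hev : ∀ᶠ ε : ℝ in 𝓝[>] 0, 0 < ε ∧ ε ≤ 1 := by
    filter_upwards [Ioc_mem_nhdsGT (zero_lt_one' ℝ)] with ε hε
    exact hε
  have h1 : Tendsto (fun ε : ℝ => ∫ x, cv (Pk (PairLim_kap k ε)) f x * g x) (𝓝[>] 0)
      (𝓝 (∫ x, cv (Pk k) f x * g x)) := by
    refine tendsto_integral_filter_of_dominated_convergence
      (fun x => ((∫ y, ‖f y‖) * C) * ‖g x‖) ?_ ?_ (hg.norm.const_mul _) ?_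
    · filter_upwards [hev] with ε hε
      refine AEStronglyMeasurable.mul ?_ hg.aestronglyMeasurable
      have hκ : 0 < (PairLim_kap k ε).im := by rw [PairLim_im]; exact hε.1
      exact (Lp.aestronglyMeasurable _).congr (multL_conv (Pk_integrable hκ) f hfi)
    · filter_upwards [hev] with ε hε
      refine Eventually.of_forall fun x => ?_
      rw [norm_mul]
      exact mul_le_mul_of_nonneg_right (hb ε hε.1.le hε.2 x) (norm_nonneg _)
    · exact Eventually.of_forall fun x => (hl x).mul_const _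
  refine h1.congr' ?_
  filter_upwards [hev] with ε hε
  exact (PairLim_eq hε.1 f hfi g).symm

private theorem PairLim_low {k ε a : ℝ} (hε : 0 < ε) (hε2 : ε ≤ k / 2) :
    |a ^ 2 - k ^ 2| / 2 ≤ ‖(a : ℂ) ^ 2 - (PairLim_kap k ε) ^ 2‖ := by
  have h1 : (a : ℂ) ^ 2 - (PairLim_kap k ε) ^ 2 =
      ⟨a ^ 2 - k ^ 2 + ε ^ 2, -(2 * k * ε)⟩ := by
    unfold PairLim_kap
    apply Complex.ext
    · simp [pow_two]
      ring
    · simp [pow_two]
      ring
  rw [h1, Complex.norm_eq_sqrt_sq_add_sq]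
  refine Real.le_sqrt_of_sq_le ?_
  simp only
  rw [div_pow, sq_abs]
  have hk2 : 2 * ε ≤ k := by linarith
  have h2 : (2 * ε) ^ 2 ≤ k ^ 2 := pow_le_pow_left₀ (by positivity) hk2 2
  have h3 : 16 * ε ^ 4 ≤ (-(2 * k * ε)) ^ 2 := by nlinarith [sq_nonneg ε]
  nlinarith [sq_nonneg (a ^ 2 - k ^ 2 + 4 * ε ^ 2), sq_nonneg (a ^ 2 - k ^ 2 + ε ^ 2),
    sq_nonneg (3 * (a ^ 2 - k ^ 2) + 4 * ε ^ 2)]

private theorem PairLim_Yh {k ε a : ℝ} (hk : 0 < k) (hε : 0 ≤ ε) (hε1 : ε ≤ 1) :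
    ‖Yh (PairLim_kap k ε) a‖ ≤ 1 + ((k + 1) ^ 2 + 1) := by
  unfold Yh
  have h1 : ‖(a : ℂ) ^ 2 + 1‖ = a ^ 2 + 1 := by
    have : (a : ℂ) ^ 2 + 1 = ((a ^ 2 + 1 : ℝ) : ℂ) := by push_cast; rfl
    rw [this, Complex.norm_real, Real.norm_of_nonneg (by positivity)]
  have hp : 1 ≤ a ^ 2 + 1 := by linarith [sq_nonneg a]
  refine (norm_add_le _ _).trans (add_le_add ?_ ?_)
  · rw [norm_div, norm_one, h1]
    exact div_le_one_of_le₀ hp (by positivity)
  · rw [norm_div, norm_pow, h1]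
    have h2 : ‖PairLim_kap k ε ^ 2 + 1‖ ≤ (k + 1) ^ 2 + 1 := by
      refine (norm_add_le _ _).trans ?_
      rw [norm_pow, norm_one]
      have := pow_le_pow_left₀ (norm_nonneg _) (PairLim_norm hk hε hε1) 2
      linarith
    refine (div_le_self (norm_nonneg _) (one_le_pow₀ hp)).trans h2

private theorem PairLim_meas (κ : ℂ) : Measurable (fun a : ℝ => mk κ a) := by
  unfold mk Yh
  fun_prop

private theorem PairLim_ae {k : ℝ} : ∀ᵐ ξ ∂(volume : Measure E3), 2 * Real.pi * ‖ξ‖ ≠ k := by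
  have h1 : (volume : Measure E3) (Metric.sphere (0 : E3) (k / (2 * Real.pi))) = 0 :=
    Measure.addHaar_sphere _ _ _
  rw [ae_iff]
  refine measure_mono_null ?_ h1
  intro ξ hξ
  simp only [mem_ofPred_eq, not_not] at hξ
  rw [mem_sphere_zero_iff_norm, ← hξ]
  field_simp

theorem pair_eq {k : ℝ} (hk : 0 < k) {r : ℝ} (hr : 0 < r) {f : HS} (hf : mulL (indB r) f = f)
    (g : HS) (hg : Integrable (g : E3 → ℂ)) {J : E3 → ℝ} (hJ : Integrable J)
    (hd : ∀ᵐ ξ ∂(volume : Measure E3), ‖(FT f : E3 → ℂ) ξ * (FT g : E3 → ℂ) (-ξ)‖ ≤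
      |(2 * Real.pi * ‖ξ‖) ^ 2 - k ^ 2| * J ξ) :
    ∫ x, cv (Pk k) f x * g x = ∫ ξ, (FT f : E3 → ℂ) ξ * (FT g : E3 → ℂ) (-ξ) *
      mk k (2 * Real.pi * ‖ξ‖) := by
  have hlim := pair_lim hk hr hf g hg
  refine tendsto_nhds_unique hlim ?_
  have hF : Integrable (fun ξ : E3 => (FT f : E3 → ℂ) ξ * (FT g : E3 → ℂ) (-ξ)) := by
    have h1 : MemLp (fun ξ : E3 => (FT g : E3 → ℂ) (-ξ)) 2 volume :=
      (Lp.memLp (FT g)).comp_measurePreserving (Measure.measurePreserving_neg volume)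
    exact (Lp.memLp (FT f)).integrable_mul h1
  have hm : ∀ κ : ℂ, AEStronglyMeasurable (fun ξ : E3 => (FT f : E3 → ℂ) ξ *
      (FT g : E3 → ℂ) (-ξ) * mk κ (2 * Real.pi * ‖ξ‖)) volume := by
    intro κ
    refine hF.aestronglyMeasurable.mul ?_
    exact ((PairLim_meas κ).comp (measurable_norm.const_mul _)).aestronglyMeasurable
  have hev : ∀ᶠ ε : ℝ in 𝓝[>] 0, 0 < ε ∧ ε ≤ min 1 (k / 2) := by
    have hpos : 0 < min 1 (k / 2) := by positivity
    filter_upwards [Ioc_mem_nhdsGT hpos] with ε hε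
    exact hε
  refine tendsto_integral_filter_of_dominated_convergence
    (fun ξ => 2 * ‖J ξ‖ + (1 + ((k + 1) ^ 2 + 1)) * ‖(FT f : E3 → ℂ) ξ * (FT g : E3 → ℂ) (-ξ)‖)
    ?_ ?_ ((hJ.norm.const_mul 2).add (hF.norm.const_mul _)) ?_
  · exact Eventually.of_forall fun ε => hm _
  · filter_upwards [hev] with ε hε
    filter_upwards [hd, PairLim_ae (k := k)] with ξ hξ hne
    have hε1 : ε ≤ 1 := hε.2.trans (min_le_left _ _)
    have hε2 : ε ≤ k / 2 := hε.2.trans (min_le_right _ _)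
    obtain ⟨a, ha⟩ : ∃ a, a = 2 * Real.pi * ‖ξ‖ := ⟨_, rfl⟩
    have ha0 : 0 ≤ a := by rw [ha]; positivity
    rw [← ha] at hξ hne ⊢
    obtain ⟨F, hFdef⟩ : ∃ F, F = (FT f : E3 → ℂ) ξ * (FT g : E3 → ℂ) (-ξ) := ⟨_, rfl⟩
    rw [← hFdef] at hξ ⊢
    have hD : 0 < |a ^ 2 - k ^ 2| := by
      rw [abs_pos, sub_ne_zero]
      intro h
      exact hne ((pow_left_inj₀ ha0 hk.le (by norm_num)).1 h)
    have h2 := PairLim_low (a := a) (k := k) hε.1 hε2
    have h3 := PairLim_Yh (a := a) hk hε.1.le hε1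
    have h4 : ‖1 / ((a : ℂ) ^ 2 - (PairLim_kap k ε) ^ 2)‖ ≤ 2 / |a ^ 2 - k ^ 2| := by
      rw [norm_div, norm_one]
      have h5 : 0 < |a ^ 2 - k ^ 2| / 2 := by positivity
      refine (one_div_le_one_div_of_le h5 h2).trans (le_of_eq ?_)
      field_simp
    show ‖F * mk (PairLim_kap k ε) a‖ ≤ _
    rw [norm_mul]
    have h6 : ‖mk (PairLim_kap k ε) a‖ ≤ 2 / |a ^ 2 - k ^ 2| + (1 + ((k + 1) ^ 2 + 1)) := by
      unfold mk
      exact (norm_sub_le _ _).trans (add_le_add h4 h3)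
    refine (mul_le_mul_of_nonneg_left h6 (norm_nonneg _)).trans ?_
    rw [mul_add]
    refine add_le_add ?_ (le_of_eq (mul_comm _ _))
    have h7 : ‖F‖ * (2 / |a ^ 2 - k ^ 2|) ≤ (|a ^ 2 - k ^ 2| * J ξ) * (2 / |a ^ 2 - k ^ 2|) :=
      mul_le_mul_of_nonneg_right hξ (by positivity)
    refine h7.trans ?_
    have h8 : (|a ^ 2 - k ^ 2| * J ξ) * (2 / |a ^ 2 - k ^ 2|) = 2 * J ξ := by
      field_simp
    rw [h8, Real.norm_eq_abs]
    linarith [le_abs_self (J ξ)]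
  · filter_upwards [PairLim_ae (k := k)] with ξ hne
    obtain ⟨a, ha⟩ : ∃ a, a = 2 * Real.pi * ‖ξ‖ := ⟨_, rfl⟩
    have ha0 : 0 ≤ a := by rw [ha]; positivity
    rw [← ha] at hne ⊢
    have hD : (a : ℂ) ^ 2 - (k : ℂ) ^ 2 ≠ 0 := by
      intro h
      have h2 : ((a ^ 2 : ℝ) : ℂ) = ((k ^ 2 : ℝ) : ℂ) := by
        push_cast
        exact sub_eq_zero.1 h
      exact hne ((pow_left_inj₀ ha0 hk.le (by norm_num)).1 (Complex.ofReal_injective h2))
    have hc : ContinuousAt (fun κ : ℂ => mk κ a) (k : ℂ) := by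
      unfold mk Yh
      refine ContinuousAt.sub ?_ (Continuous.continuousAt (by fun_prop))
      exact continuousAt_const.div (by fun_prop) hD
    have h3 : Tendsto (fun ε : ℝ => mk (PairLim_kap k ε) a) (𝓝 0) (𝓝 (mk k a)) := by
      have h4 : Tendsto (PairLim_kap k) (𝓝 0) (𝓝 (k : ℂ)) := by
        have := (PairLim_cont k).tendsto 0
        rwa [PairLim_zero] at this
      exact hc.tendsto.comp h4
    exact (h3.mono_left nhdsWithin_le_nhds).const_mul _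

end FracScat

end
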