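import Pool.Agent.Lib.MP_6e2ba5_an.PhysDefs
import Pool.Agent.Lib.MP_6e2ba5_an.PairLim
import Pool.Agent.Lib.MP_6e2ba5_an.KopInt
import Pool.Agent.Lib.MP_6e2ba5_an.KopA

/-! # The field equals the cut off resolvent on the ball

`gs = ck κ + hs`, `multL (κ) f = cv (PhiR k (2r)) f` and `multL (Yh) f = cv (Yk k) f` a.e.
(`PhiR_ft`, `Yk_ft`, `multL_conv`), and for `|x| < r` one has
`cv (PhiR k (2r)) f x - cv (Yk k) f x = cv (Pk k) f x` because `|x-y| < 2r` on the support of `f`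
(`Pk_eq`). -/

set_option autoImplicit false

open MeasureTheory Filter Topology Set
open scoped FourierTransform SchwartzMap InnerProductSpace ENNReal ContDiff

noncomputable section

namespace FracScat

/-- The outgoing field of the source `f`. -/
def vf (s k : ℝ) (f : HS) (x : E3) : ℂ := ck s k * cv (Pk k) f x + (multL (qs s k) f : E3 → ℂ) x

/-- The components of `D^s` of the field. -/
def wf (s k : ℝ) (j : Fin 3) (f : HS) (x : E3) : ℂ :=
  (dk s k : ℂ) * cv (dPk k j) f x + (multL (qg s j k) f : E3 → ℂ) x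

private theorem KopPhys_supp {r : ℝ} {f : HS} (hf : mulL (indB r) f = f) :
    ∀ᵐ y ∂(volume : Measure E3), r ≤ ‖y‖ → (f : E3 → ℂ) y = 0 := by
  have h2 := mulL_coe (indB_BM r) f
  rw [hf] at h2
  filter_upwards [h2] with y hy hr
  rw [hy, indB, if_neg (not_lt.2 hr), zero_mul]

private theorem KopPhys_exists {q : E3 → ℂ} (hq : Integrable q) {f : E3 → ℂ} (hf : Integrable f) :
    ∀ᵐ x ∂(volume : Measure E3), Integrable (fun y => f y * q (x - y)) := by
  have h := hf.ae_convolution_exists (ContinuousLinearMap.mul ℂ ℂ) hq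
  filter_upwards [h] with x hx
  exact hx

theorem Kop_phys {s : ℝ} (h0 : 1 / 2 < s) (h2 : s < 2) {r : ℝ} (hr : 0 < r) {k : ℝ} (hk : 0 < k)
    {f : HS} (hf : mulL (indB r) f = f) :
    ∀ᵐ x ∂(volume : Measure E3), ‖x‖ < r → (Kop s r k f : E3 → ℂ) x = vf s k f x := by
  have hfi : Integrable (f : E3 → ℂ) := integrable_of_indB hf
  have hR : (0 : ℝ) ≤ 2 * r := by positivity
  have i1 : Integrable (PhiR (k : ℂ) (2 * r)) := PhiR_integrable _ _
  have i2 : Integrable (Yk (k : ℂ)) := Yk_integrable _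
  have b0 := qs_BM h0 h2 hk
  have b1 := BM_fourier i1
  have b2 := BM_fourier i2
  have hne : ({0} : Set E3)ᶜ ∈ ae (volume : Measure E3) :=
    compl_mem_ae_iff.2 (measure_singleton 0)
  have hsym : (gs s (2 * r) k) =ᵐ[volume] fun ξ => qs s k ξ +
      ck s k * (𝓕 (PhiR (k : ℂ) (2 * r)) ξ - 𝓕 (Yk (k : ℂ)) ξ) := by
    filter_upwards [hne] with ξ hξ
    have hξ0 : ξ ≠ 0 := by simpa using hξ
    rw [PhiR_ft (k : ℂ) hR hξ0, Yk_ft (k : ℂ) hξ0]
    unfold gs qs
    ring
  have hmul : multL (gs s (2 * r) k) f = multL (qs s k) f +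
      ck s k • (multL (𝓕 (PhiR (k : ℂ) (2 * r))) f - multL (𝓕 (Yk (k : ℂ))) f) := by
    rw [multL_congr hsym, multL_add b0 ((b1.sub b2).const_mul _),
      multL_const_mul _ (b1.sub b2), multL_sub b1 b2]
    rfl
  have hK : Kop s r k f = mulL (indB r) (multL (gs s (2 * r) k) f) := by
    unfold Kop
    rw [ContinuousLinearMap.comp_apply, ContinuousLinearMap.comp_apply, hf]
  rw [hK]
  have hsupp := KopPhys_supp hf
  filter_upwards [mulL_coe (indB_BM r) (multL (gs s (2 * r) k) f),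
    multL_conv i1 f hfi, multL_conv i2 f hfi, KopPhys_exists i1 hfi, KopPhys_exists i2 hfi,
    Lp.coeFn_add (multL (qs s k) f)
      (ck s k • (multL (𝓕 (PhiR (k : ℂ) (2 * r))) f - multL (𝓕 (Yk (k : ℂ))) f)),
    Lp.coeFn_smul (ck s k) (multL (𝓕 (PhiR (k : ℂ) (2 * r))) f - multL (𝓕 (Yk (k : ℂ))) f),
    Lp.coeFn_sub (multL (𝓕 (PhiR (k : ℂ) (2 * r))) f) (multL (𝓕 (Yk (k : ℂ))) f)]
    with x a1 a2 a3 a4 a5 a6 a7 a8 hx
  have hcv : cv (PhiR (k : ℂ) (2 * r)) f x - cv (Yk (k : ℂ)) f x = cv (Pk k) f x := by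
    unfold cv
    rw [← integral_sub a4 a5]
    apply integral_congr_ae
    have hxy : ({x} : Set E3)ᶜ ∈ ae (volume : Measure E3) :=
      compl_mem_ae_iff.2 (measure_singleton x)
    filter_upwards [hsupp, hxy] with y hy hyx
    by_cases hyr : r ≤ ‖y‖
    · rw [hy hyr]
      simp only [zero_mul, sub_zero]
    · have hyx' : x - y ≠ 0 := by
        intro h
        apply hyx
        rw [mem_singleton_iff]
        exact (sub_eq_zero.1 h).symm
      have hlt : ‖x - y‖ < 2 * r := by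
        have := norm_sub_le x y
        push Not at hyr
        linarith
      rw [Pk_eq (k : ℂ) hyx', PhiR, if_pos hlt]
      ring
  rw [a1, hmul, a6, Pi.add_apply, a7, Pi.smul_apply, a8, Pi.sub_apply, a2, a3, hcv, indB,
    if_pos hx, vf, smul_eq_mul]
  ring

end FracScat

end
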