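import Pool.Agent.Lib.MP_6e2ba5_an.WL2b

/-! # A pairing estimate at low frequency

For `m ∈ BStar` and Schwartz `ρ, g`: with `ρ_n(x) = (n+1)⁻³ ρ((n+1)⁻¹ x)`,
`∫ |m(y)| |ρ_n(x-y)| dy ≤ C (1+|x|)^4 / (n+1)`: `|ρ(z)| ≤ C (1+|z|)^(-4)`, and
`∫ |m(y)| (1+|x-y|/N)^(-4) dy ≤ (1+|x|)^4 ∫ |m(y)| (1+|y|/N)^(-4) dy` for `N = n+1 ≥ 1`, where
`∫ |m(y)| (1+|y|/N)^(-4) dy ≤ C N²` (balls `|y| < 2^i N`, Cauchy-Schwarz:
`∫_{|y|<R} |m| ≤ (C R)^(1/2) (4πR³/3)^(1/2) = C' R²`). Multiply with `|g(x)|` and integrate. -/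

set_option autoImplicit false

open MeasureTheory Filter Topology Set
open scoped FourierTransform SchwartzMap InnerProductSpace ENNReal ContDiff

noncomputable section

namespace FracScat

private theorem LowA_L1 {m : E3 → ℂ} (hm : BStar m) : ∃ C : ℝ, 0 ≤ C ∧ ∀ R : ℝ, 1 ≤ R →
    ∫⁻ x in Metric.ball (0 : E3) R, ‖m x‖ₑ ≤ ENNReal.ofReal (C * R ^ 2) := by
  obtain ⟨mv, C₀, hC₀⟩ := hm
  set v : ℝ := volume.real (Metric.ball (0 : E3) 1) with hv
  have hv0 : 0 ≤ v := measureReal_nonneg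
  refine ⟨(|C₀| + v) / 2, by positivity, fun R hR => ?_⟩
  obtain ⟨iv, bv⟩ := hC₀ R hR
  have hR0 : 0 < R := by linarith
  have hvol : volume.real (Metric.ball (0 : E3) R) = R ^ 3 * v := by
    rw [hv, measureReal_def, measureReal_def, Measure.addHaar_ball volume (0 : E3) hR0.le,
      ENNReal.toReal_mul, ENNReal.toReal_ofReal (by positivity)]
    simp
  have hcst : IntegrableOn (fun _ : E3 => R⁻¹) (Metric.ball (0 : E3) R) :=
    integrableOn_const (hs := measure_ball_lt_top.ne)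
  have hint : IntegrableOn (fun x => (R * ‖m x‖ ^ 2 + R⁻¹) / 2) (Metric.ball (0 : E3) R) :=
    ((iv.const_mul R).add hcst).div_const 2
  have h1 : ∫⁻ x in Metric.ball (0 : E3) R, ‖m x‖ₑ ≤
      ∫⁻ x in Metric.ball (0 : E3) R, ENNReal.ofReal ((R * ‖m x‖ ^ 2 + R⁻¹) / 2) := by
    refine lintegral_mono fun x => ?_
    rw [← ofReal_norm]
    apply ENNReal.ofReal_le_ofReal
    have h3 : 0 ≤ R⁻¹ * (R * ‖m x‖ - 1) ^ 2 := by positivity
    have h4 : R⁻¹ * (R * ‖m x‖ - 1) ^ 2 = R * ‖m x‖ ^ 2 + R⁻¹ - 2 * ‖m x‖ := by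
      field_simp
      ring
    linarith
  refine h1.trans ?_
  rw [← ofReal_integral_eq_lintegral_ofReal hint
    (Eventually.of_forall fun x => by positivity)]
  apply ENNReal.ofReal_le_ofReal
  have h5 : ∫ x in Metric.ball (0 : E3) R, (R * ‖m x‖ ^ 2 + R⁻¹) / 2 =
      (R * (∫ x in Metric.ball (0 : E3) R, ‖m x‖ ^ 2) + R⁻¹ * (R ^ 3 * v)) / 2 := by
    rw [integral_div, integral_add (iv.const_mul R) hcst, integral_const_mul, setIntegral_const,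
      hvol, smul_eq_mul]
    ring
  rw [h5]
  have h6 : R⁻¹ * (R ^ 3 * v) = R ^ 2 * v := by
    field_simp
  have h7 : R * (∫ x in Metric.ball (0 : E3) R, ‖m x‖ ^ 2) ≤ R * (|C₀| * R) := by
    refine mul_le_mul_of_nonneg_left (bv.trans ?_) hR0.le
    exact mul_le_mul_of_nonneg_right (le_abs_self _) hR0.le
  rw [h6]
  nlinarith

private theorem LowA_w {N : ℝ} (hN : 0 < N) (x : E3) :
    ENNReal.ofReal (((1 + ‖x‖ / N) ^ 4)⁻¹) ≤
      ∑' i : ℕ, ENNReal.ofReal (16 * (1 / 16) ^ i) *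
        (Metric.ball (0 : E3) (2 ^ i * N)).indicator (fun _ => (1 : ℝ≥0∞)) x := by
  by_cases h : ‖x‖ < N
  · refine le_trans ?_ (ENNReal.le_tsum 0)
    rw [Set.indicator_of_mem (by simpa using h), mul_one]
    apply ENNReal.ofReal_le_ofReal
    have : ((1 + ‖x‖ / N) ^ 4)⁻¹ ≤ 1 := by
      apply inv_le_one_of_one_le₀
      apply one_le_pow₀
      have : 0 ≤ ‖x‖ / N := by positivity
      linarith
    linarith
  · push Not at h
    have h1 : 1 ≤ ‖x‖ / N := (one_le_div hN).2 h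
    obtain ⟨i, hi1, hi2⟩ := exists_nat_pow_near h1 (one_lt_two : (1 : ℝ) < 2)
    refine le_trans ?_ (ENNReal.le_tsum (i + 1))
    have hlt : ‖x‖ < 2 ^ (i + 1) * N := (div_lt_iff₀ hN).1 hi2
    rw [Set.indicator_of_mem (by simpa using hlt), mul_one]
    apply ENNReal.ofReal_le_ofReal
    have h2 : (16 : ℝ) * (1 / 16) ^ (i + 1) = ((2 ^ i) ^ 4)⁻¹ := by
      have h3 : ((2 : ℝ) ^ i) ^ 4 = 16 ^ i := by
        rw [← pow_mul, mul_comm i 4, pow_mul]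
        norm_num
      rw [h3, pow_succ, one_div, inv_pow]
      ring
    rw [h2]
    apply inv_anti₀ (by positivity)
    apply pow_le_pow_left₀ (by positivity)
    linarith

private theorem LowA_weight {m : E3 → ℂ} (hm : BStar m) : ∃ C : ℝ, 0 ≤ C ∧ ∀ N : ℝ, 1 ≤ N →
    ∫⁻ x, ‖m x‖ₑ * ENNReal.ofReal (((1 + ‖x‖ / N) ^ 4)⁻¹) ≤ ENNReal.ofReal (C * N ^ 2) := by
  obtain ⟨C, hC, H⟩ := LowA_L1 hm
  refine ⟨16 * C * (4 / 3), by positivity, fun N hN => ?_⟩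
  have hN0 : 0 < N := by linarith
  have hmm : AEMeasurable (fun x => ‖m x‖ₑ) volume := hm.1.enorm
  calc ∫⁻ x, ‖m x‖ₑ * ENNReal.ofReal (((1 + ‖x‖ / N) ^ 4)⁻¹)
      ≤ ∫⁻ x, ∑' i : ℕ, ENNReal.ofReal (16 * (1 / 16) ^ i) *
          (Metric.ball (0 : E3) (2 ^ i * N)).indicator (fun x => ‖m x‖ₑ) x := by
        refine lintegral_mono fun x => ?_
        refine (mul_le_mul_right (LowA_w hN0 x) _).trans ?_
        rw [← ENNReal.tsum_mul_left]
        refine le_of_eq (tsum_congr fun i => ?_)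
        by_cases hx : x ∈ Metric.ball (0 : E3) (2 ^ i * N)
        · rw [Set.indicator_of_mem hx, Set.indicator_of_mem hx]
          ring
        · rw [Set.indicator_of_notMem hx, Set.indicator_of_notMem hx]
          ring
    _ = ∑' i : ℕ, ENNReal.ofReal (16 * (1 / 16) ^ i) *
          ∫⁻ x in Metric.ball (0 : E3) (2 ^ i * N), ‖m x‖ₑ := by
        rw [lintegral_tsum fun i => ((hmm.indicator measurableSet_ball).const_mul _)]
        refine tsum_congr fun i => ?_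
        rw [lintegral_const_mul'' _ (hmm.indicator measurableSet_ball),
          lintegral_indicator measurableSet_ball]
    _ ≤ ∑' i : ℕ, ENNReal.ofReal (16 * C * N ^ 2 * (1 / 4) ^ i) := by
        refine ENNReal.tsum_le_tsum fun i => ?_
        have h1 : (1 : ℝ) ≤ 2 ^ i * N := by
          have : (1 : ℝ) ≤ 2 ^ i := one_le_pow₀ (by norm_num)
          nlinarith
        refine (mul_le_mul_right (H _ h1) _).trans (le_of_eq ?_)
        rw [← ENNReal.ofReal_mul (by positivity)]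
        congr 1
        have h2 : (1 / 16 : ℝ) ^ i * (2 ^ i) ^ 2 = (1 / 4) ^ i := by
          rw [← pow_mul, mul_comm i 2, pow_mul, ← mul_pow]
          norm_num
        calc 16 * (1 / 16 : ℝ) ^ i * (C * (2 ^ i * N) ^ 2) =
              16 * C * N ^ 2 * ((1 / 16 : ℝ) ^ i * (2 ^ i) ^ 2) := by ring
          _ = _ := by rw [h2]
    _ = ENNReal.ofReal (16 * C * (4 / 3) * N ^ 2) := by
        have hs : Summable (fun i : ℕ => 16 * C * N ^ 2 * (1 / 4 : ℝ) ^ i) :=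
          (summable_geometric_of_lt_one (by norm_num) (by norm_num)).mul_left _
        rw [← ENNReal.ofReal_tsum_of_nonneg (fun i => by positivity) hs, tsum_mul_left,
          tsum_geometric_of_lt_one (by norm_num) (by norm_num)]
        congr 1
        ring

private theorem LowA_four (t : ℝ) : (1 + t) ^ 4 ≤ 8 + 8 * t ^ 4 := by
  nlinarith [sq_nonneg (t - 1), sq_nonneg (t ^ 2 - 1), sq_nonneg (t * (t - 1)),
    sq_nonneg (t ^ 2 - t)]

private theorem LowA_decay (ρ : 𝓢(E3, ℂ)) : ∃ C : ℝ, 0 ≤ C ∧ ∀ z : E3,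
    ‖ρ z‖ ≤ C * ((1 + ‖z‖) ^ 4)⁻¹ := by
  obtain ⟨C0, hC0⟩ := ρ.decay' 0 0
  obtain ⟨C4, hC4⟩ := ρ.decay' 4 0
  refine ⟨8 * |C0| + 8 * |C4|, by positivity, fun z => ?_⟩
  have h0 := hC0 z
  have h4 := hC4 z
  rw [norm_iteratedFDeriv_zero] at h0 h4
  rw [pow_zero, one_mul] at h0
  have h0' : ‖ρ z‖ ≤ |C0| := h0.trans (le_abs_self _)
  have h4' : ‖z‖ ^ 4 * ‖ρ z‖ ≤ |C4| := h4.trans (le_abs_self _)
  rw [← div_eq_mul_inv, le_div_iff₀ (by positivity)]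
  have h5 := mul_le_mul_of_nonneg_left (LowA_four ‖z‖) (norm_nonneg (ρ z))
  nlinarith

theorem low_pair {m : E3 → ℂ} (hm : BStar m) (ρ g : 𝓢(E3, ℂ)) :
    Tendsto (fun n : ℕ => ∫ x, m x * ∫ y, (((n : ℝ) + 1)⁻¹ ^ 3 : ℝ) •
      (ρ ((((n : ℝ) + 1)⁻¹ : ℝ) • (x - y)) * g y)) atTop (𝓝 0) := by
  obtain ⟨C, hC, H⟩ := LowA_weight hm
  obtain ⟨D, hD, HD⟩ := LowA_decay ρ
  have hgi : Integrable (fun y : E3 => 8 * ‖g y‖ + 8 * (‖y‖ ^ 4 * ‖g y‖)) :=
    ((g.integrable).norm.const_mul 8).add ((g.integrable_pow_mul volume 4).const_mul 8)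
  set G : ℝ := ∫ y, (8 * ‖g y‖ + 8 * (‖y‖ ^ 4 * ‖g y‖)) with hG
  have hG0 : 0 ≤ G := integral_nonneg fun y => by positivity
  -- inner bound
  have hin : ∀ (N : ℝ), 1 ≤ N → ∀ x : E3,
      ‖∫ y, ((N⁻¹ ^ 3 : ℝ)) • (ρ ((N⁻¹ : ℝ) • (x - y)) * g y)‖ ≤
        N⁻¹ ^ 3 * D * G * ((1 + ‖x‖ / N) ^ 4)⁻¹ := by
    intro N hN x
    have hN0 : 0 < N := by linarith
    have hb : Integrable (fun y : E3 => N⁻¹ ^ 3 * D * ((1 + ‖x‖ / N) ^ 4)⁻¹ *
        (8 * ‖g y‖ + 8 * (‖y‖ ^ 4 * ‖g y‖))) := hgi.const_mul _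
    refine (norm_integral_le_of_norm_le hb (Eventually.of_forall fun y => ?_)).trans (le_of_eq ?_)
    · rw [norm_smul, norm_mul, Real.norm_of_nonneg (by positivity : (0 : ℝ) ≤ N⁻¹ ^ 3)]
      have h1 := HD ((N⁻¹ : ℝ) • (x - y))
      rw [norm_smul, Real.norm_of_nonneg (by positivity : (0 : ℝ) ≤ N⁻¹)] at h1
      have hxy : 1 + ‖x‖ / N ≤ (1 + N⁻¹ * ‖x - y‖) * (1 + ‖y‖) := by
        have e1 : ‖x‖ ≤ ‖x - y‖ + ‖y‖ := by
          have := norm_add_le (x - y) y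
          rwa [sub_add_cancel] at this
        have e2 : ‖x‖ / N ≤ N⁻¹ * ‖x - y‖ + ‖y‖ := by
          have e3 : N⁻¹ * ‖y‖ ≤ ‖y‖ := by
            have : N⁻¹ ≤ 1 := inv_le_one_of_one_le₀ hN
            have := mul_le_mul_of_nonneg_right this (norm_nonneg y)
            linarith
          rw [div_eq_inv_mul]
          have := mul_le_mul_of_nonneg_left e1 (by positivity : (0 : ℝ) ≤ N⁻¹)
          rw [mul_add] at this
          linarith
        have e4 : 0 ≤ N⁻¹ * ‖x - y‖ * ‖y‖ := by positivity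
        nlinarith
      have h2 : ((1 + N⁻¹ * ‖x - y‖) ^ 4)⁻¹ ≤ ((1 + ‖x‖ / N) ^ 4)⁻¹ * (1 + ‖y‖) ^ 4 := by
        rw [← one_div, div_le_iff₀ (by positivity), mul_assoc, ← mul_pow, inv_mul_eq_div,
          le_div_iff₀ (by positivity), one_mul, mul_comm (1 + ‖y‖)]
        exact pow_le_pow_left₀ (by positivity) hxy 4
      have h3 := LowA_four ‖y‖
      have hw : 0 ≤ ((1 + ‖x‖ / N) ^ 4)⁻¹ := by positivity
      calc N⁻¹ ^ 3 * (‖ρ ((N⁻¹ : ℝ) • (x - y))‖ * ‖g y‖)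
          ≤ N⁻¹ ^ 3 * ((D * (((1 + ‖x‖ / N) ^ 4)⁻¹ * (8 + 8 * ‖y‖ ^ 4))) * ‖g y‖) := by
            gcongr
            refine h1.trans ?_
            refine mul_le_mul_of_nonneg_left (h2.trans ?_) hD
            exact mul_le_mul_of_nonneg_left h3 hw
        _ = _ := by ring
    · rw [integral_const_mul]
      ring
  -- outer bound
  have hout : ∀ n : ℕ, ‖∫ x, m x * ∫ y, (((n : ℝ) + 1)⁻¹ ^ 3 : ℝ) •
      (ρ ((((n : ℝ) + 1)⁻¹ : ℝ) • (x - y)) * g y)‖ ≤ D * G * C * (1 / ((n : ℝ) + 1)) := by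
    intro n
    set N : ℝ := (n : ℝ) + 1 with hNd
    have hN : 1 ≤ N := by rw [hNd]; linarith [Nat.cast_nonneg (α := ℝ) n]
    have hN0 : 0 < N := by linarith
    rw [← ENNReal.ofReal_le_ofReal_iff (by positivity), ofReal_norm]
    refine (enorm_integral_le_lintegral_enorm _).trans ?_
    calc ∫⁻ x, ‖m x * ∫ y, (N⁻¹ ^ 3 : ℝ) • (ρ ((N⁻¹ : ℝ) • (x - y)) * g y)‖ₑ
        ≤ ∫⁻ x, ENNReal.ofReal (N⁻¹ ^ 3 * D * G) *
            (‖m x‖ₑ * ENNReal.ofReal (((1 + ‖x‖ / N) ^ 4)⁻¹)) := by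
          refine lintegral_mono fun x => ?_
          rw [enorm_mul]
          have h1 : ‖∫ y, (N⁻¹ ^ 3 : ℝ) • (ρ ((N⁻¹ : ℝ) • (x - y)) * g y)‖ₑ ≤
              ENNReal.ofReal (N⁻¹ ^ 3 * D * G) * ENNReal.ofReal (((1 + ‖x‖ / N) ^ 4)⁻¹) := by
            rw [← ofReal_norm, ← ENNReal.ofReal_mul (by positivity)]
            exact ENNReal.ofReal_le_ofReal (hin N hN x)
          refine (mul_le_mul_right h1 _).trans (le_of_eq ?_)
          ring
      _ = ENNReal.ofReal (N⁻¹ ^ 3 * D * G) *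
            ∫⁻ x, ‖m x‖ₑ * ENNReal.ofReal (((1 + ‖x‖ / N) ^ 4)⁻¹) := by
          rw [lintegral_const_mul' _ _ ENNReal.ofReal_ne_top]
      _ ≤ ENNReal.ofReal (N⁻¹ ^ 3 * D * G) * ENNReal.ofReal (C * N ^ 2) :=
          mul_le_mul_right (H N hN) _
      _ = ENNReal.ofReal (D * G * C * (1 / N)) := by
          rw [← ENNReal.ofReal_mul (by positivity)]
          congr 1
          field_simp
  have hlim : Tendsto (fun n : ℕ => D * G * C * (1 / ((n : ℝ) + 1))) atTop (𝓝 0) := by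
    have := (tendsto_one_div_add_atTop_nhds_zero_nat (𝕜 := ℝ)).const_mul (D * G * C)
    rwa [mul_zero] at this
  exact squeeze_zero_norm hout hlim

end FracScat

end
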