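import Pool.Agent.Lib.MP_6e2ba5_an.LowA

/-! # Approximation by Schwartz functions with Fourier transform supported away from zero

Take `χ` smooth, compactly supported, `χ = 1` near `0`, and `T c φ = 𝓕⁻¹ (χ(c ξ) 𝓕 φ)`; the
kernel of `T c` is `c⁻³ ρ(x/c)`, `ρ = 𝓕⁻¹ χ`. Put `φ_n = T (1/(n+1)) φ - T (n+1) φ`. For
`m ∈ BStar` one has `∫ m T (1/(n+1)) φ → ∫ m φ` by dominated convergence, and
`∫ m T (n+1) φ → 0` by `low_pair`. `∂_j` and `Δ` commute with `T c`. -/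

set_option autoImplicit false

open MeasureTheory Filter Topology Set
open scoped FourierTransform SchwartzMap InnerProductSpace ENNReal ContDiff

noncomputable section

namespace FracScat

/-- A bump function: one on the unit ball, zero outside the ball of radius two. -/
private def bmp : ContDiffBump (0 : E3) := ⟨1, 2, zero_lt_one, one_lt_two⟩

/-- The dilated bump function. -/
private def chi (c : ℝ) (ξ : E3) : ℂ := ((bmp (c • ξ) : ℝ) : ℂ)

private theorem chi_contDiff (c : ℝ) : ContDiff ℝ ∞ (chi c) := by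
  have h : ContDiff ℝ ∞ (fun ξ : E3 => bmp (c • ξ)) :=
    bmp.contDiff.comp (contDiff_const_smul c)
  exact Complex.ofRealCLM.contDiff.comp h

private theorem chi_one {c : ℝ} {ξ : E3} (h : ‖c • ξ‖ ≤ 1) : chi c ξ = 1 := by
  have : bmp (c • ξ) = 1 := by
    refine bmp.one_of_mem_closedBall ?_
    rw [Metric.mem_closedBall, dist_zero_right]
    exact h
  rw [chi, this, Complex.ofReal_one]

private theorem chi_zero {c : ℝ} {ξ : E3} (h : 2 ≤ ‖c • ξ‖) : chi c ξ = 0 := by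
  have : bmp (c • ξ) = 0 := by
    refine bmp.zero_of_le_dist ?_
    rw [dist_zero_right]
    exact h
  rw [chi, this, Complex.ofReal_zero]

private theorem chi_supp {c : ℝ} (hc : 0 < c) : HasCompactSupport (chi c) := by
  refine HasCompactSupport.intro (isCompact_closedBall (0 : E3) (2 / c)) fun ξ hξ => ?_
  refine chi_zero ?_
  rw [Metric.mem_closedBall, dist_zero_right, not_le, div_lt_iff₀ hc] at hξ
  rw [norm_smul, Real.norm_of_nonneg hc.le]
  linarith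

private def chiS (c : ℝ) (hc : 0 < c) : 𝓢(E3, ℂ) := (chi_supp hc).toSchwartzMap (chi_contDiff c)

private theorem chiS_apply (c : ℝ) (hc : 0 < c) (ξ : E3) : chiS c hc ξ = chi c ξ := rfl

private theorem chi_temp {c : ℝ} (hc : 0 < c) : Function.HasTemperateGrowth (chi c) :=
  (chiS c hc).hasTemperateGrowth

/-- The kernel at scale one. -/
private def rho : 𝓢(E3, ℂ) := 𝓕⁻ (chiS 1 one_pos)

private theorem integral_rho : ∫ x, rho x = 1 := by
  have h1 : 𝓕 (rho : 𝓢(E3, ℂ)) = chiS 1 one_pos := by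
    rw [rho, FourierTransform.fourier_fourierInv_eq]
  have h2 : (𝓕 (rho : E3 → ℂ)) 0 = 1 := by
    have h3 : (𝓕 (rho : 𝓢(E3, ℂ))) 0 = 1 := by
      rw [h1, chiS_apply]
      exact chi_one (by simp)
    exact h3
  rw [Real.fourier_eq'] at h2
  simpa using h2

/-- Scaling of the kernel. -/
private theorem fourierInv_chi {c : ℝ} (hc : 0 < c) (z : E3) :
    (𝓕⁻ (chiS c hc) : 𝓢(E3, ℂ)) z = ((c⁻¹ ^ 3 : ℝ) : ℂ) * rho (c⁻¹ • z) := by
  have e1 : (𝓕⁻ (chiS c hc) : 𝓢(E3, ℂ)) z =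
      ∫ v : E3, Complex.exp (((2 * Real.pi * ⟪v, z⟫_ℝ : ℝ) : ℂ) * Complex.I) • chi c v := by
    rw [SchwartzMap.fourierInv_coe, Real.fourierInv_eq']
    rfl
  have e2 : rho (c⁻¹ • z) =
      ∫ v : E3, Complex.exp (((2 * Real.pi * ⟪v, c⁻¹ • z⟫_ℝ : ℝ) : ℂ) * Complex.I) • chi 1 v := by
    rw [rho, SchwartzMap.fourierInv_coe, Real.fourierInv_eq']
    rfl
  have e3 := Measure.integral_comp_smul (volume : Measure E3)
    (fun v : E3 => Complex.exp (((2 * Real.pi * ⟪v, c⁻¹ • z⟫_ℝ : ℝ) : ℂ) * Complex.I) • chi 1 v) c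
  rw [e1, e2]
  have hdim : Module.finrank ℝ E3 = 3 := by simp
  rw [hdim] at e3
  have e4 : (fun v : E3 => Complex.exp (((2 * Real.pi * ⟪v, z⟫_ℝ : ℝ) : ℂ) * Complex.I) • chi c v) =
      fun v : E3 => Complex.exp (((2 * Real.pi * ⟪c • v, c⁻¹ • z⟫_ℝ : ℝ) : ℂ) * Complex.I) •
        chi 1 (c • v) := by
    funext v
    have h1 : ⟪c • v, c⁻¹ • z⟫_ℝ = ⟪v, z⟫_ℝ := by
      rw [inner_smul_left, inner_smul_right]
      simp only [conj_trivial]
      field_simp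
    rw [h1]
    simp [chi]
  rw [e4, e3, abs_of_nonneg (by positivity), Complex.real_smul, inv_pow]

/-- The multiplier with symbol `χ(c ξ)`. -/
private def TT (c : ℝ) (φ : 𝓢(E3, ℂ)) : 𝓢(E3, ℂ) := SchwartzMap.fourierMultiplierCLM ℂ (chi c) φ

private theorem TT_apply {c : ℝ} (hc : 0 < c) (φ : 𝓢(E3, ℂ)) (x : E3) :
    TT c φ x = ∫ t : E3, (((c⁻¹ ^ 3 : ℝ) : ℂ) * rho (c⁻¹ • t)) * φ (x - t) := by
  have e1 : TT c φ = SchwartzMap.convolution (ContinuousLinearMap.mul ℂ ℂ) (𝓕⁻ (chiS c hc)) φ := by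
    unfold TT SchwartzMap.convolution
    rw [SchwartzMap.fourierMultiplierCLM_apply]
    simp only [LinearMap.coe_mk, AddHom.coe_mk, ContinuousLinearMap.comp_apply,
      FourierTransform.fourierCLM_apply, FourierTransform.fourierInvCLM_apply,
      FourierTransform.fourier_fourierInv_eq]
    congr 1
    ext ξ
    rw [SchwartzMap.smulLeftCLM_apply_apply (chi_temp hc), SchwartzMap.pairing_apply_apply,
      chiS_apply]
    simp
  rw [e1, SchwartzMap.convolution_apply]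
  unfold MeasureTheory.convolution
  refine integral_congr_ae (Eventually.of_forall fun t => ?_)
  simp only [ContinuousLinearMap.mul_apply']
  rw [fourierInv_chi hc]

private theorem TT_apply' {c : ℝ} (hc : 0 < c) (φ : 𝓢(E3, ℂ)) (x : E3) :
    TT c φ x = ∫ y : E3, (c⁻¹ ^ 3 : ℝ) • (rho (c⁻¹ • (x - y)) * φ y) := by
  rw [TT_apply hc, ← integral_sub_left_eq_self _ _ x]
  refine integral_congr_ae (Eventually.of_forall fun t => ?_)
  simp only [sub_sub_cancel, Complex.real_smul]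
  ring

private theorem TT_apply'' {c : ℝ} (hc : 0 < c) (φ : 𝓢(E3, ℂ)) (x : E3) :
    TT c φ x = ∫ z : E3, rho z * φ (x - c • z) := by
  rw [TT_apply hc]
  have e3 := Measure.integral_comp_smul (volume : Measure E3)
    (fun t : E3 => (((c⁻¹ ^ 3 : ℝ) : ℂ) * rho (c⁻¹ • t)) * φ (x - t)) c
  have hdim : Module.finrank ℝ E3 = 3 := by simp
  rw [hdim, abs_of_nonneg (by positivity)] at e3
  have e4 : ∫ z : E3, rho z * φ (x - c • z) = (c ^ 3 : ℝ) •
      ∫ z : E3, (((c⁻¹ ^ 3 : ℝ) : ℂ) * rho (c⁻¹ • (c • z))) * φ (x - c • z) := by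
    rw [← integral_smul]
    refine integral_congr_ae (Eventually.of_forall fun z => ?_)
    simp only
    rw [inv_smul_smul₀ hc.ne', Complex.real_smul]
    push_cast
    have : (c : ℂ) ≠ 0 := Complex.ofReal_ne_zero.mpr hc.ne'
    field_simp
  rw [e4, e3, smul_smul, mul_inv_cancel₀ (by positivity), one_smul]

/-- Decay of Schwartz functions. -/
private theorem schw_decay (φ : 𝓢(E3, ℂ)) (k : ℕ) :
    ∃ C : ℝ, 0 ≤ C ∧ ∀ x, ‖φ x‖ ≤ C * ((1 + ‖x‖) ^ k)⁻¹ := by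
  refine ⟨2 ^ k * ((Finset.Iic (k, 0)).sup fun m => SchwartzMap.seminorm ℂ m.1 m.2) φ,
    by positivity, fun x => ?_⟩
  have h := SchwartzMap.one_add_le_sup_seminorm_apply (𝕜 := ℂ) (m := (k, 0)) (k := k) (n := 0)
    le_rfl le_rfl φ x
  rw [norm_iteratedFDeriv_zero] at h
  have hx : 0 < (1 + ‖x‖) ^ k := by positivity
  rw [← div_eq_mul_inv, le_div_iff₀ hx]
  calc ‖φ x‖ * (1 + ‖x‖) ^ k = (1 + ‖x‖) ^ k * ‖φ x‖ := mul_comm _ _
    _ ≤ _ := h

private theorem integrable_inv4 : Integrable (fun x : E3 => ((1 + ‖x‖) ^ 4)⁻¹) := by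
  have h := integrable_one_add_norm (E := E3) (μ := volume) (r := 4) (by simp; norm_num)
  refine h.congr (Eventually.of_forall fun x => ?_)
  simp only
  rw [Real.rpow_neg (by positivity)]
  norm_cast

private theorem WL_inv4 : WL (fun x : E3 => ((((1 + ‖x‖) ^ 4)⁻¹ : ℝ) : ℂ)) := by
  unfold WL
  have hcont : Continuous (fun x : E3 => (((1 + ‖x‖ ^ 2 : ℝ)) : ℂ) *
      ((((1 + ‖x‖) ^ 4)⁻¹ : ℝ) : ℂ)) := by
    refine Continuous.mul (by fun_prop) ?_
    refine Complex.continuous_ofReal.comp (Continuous.inv₀ (by fun_prop) fun x => ?_)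
    positivity
  rw [memLp_two_iff_integrable_sq_norm hcont.aestronglyMeasurable]
  refine integrable_inv4.mono' (by fun_prop) (Eventually.of_forall fun x => ?_)
  rw [norm_mul, Complex.norm_real, Complex.norm_real, Real.norm_of_nonneg (by positivity),
    Real.norm_of_nonneg (by positivity), Real.norm_of_nonneg (by positivity), mul_pow]
  have hx := norm_nonneg x
  have h1 : (1 + ‖x‖ ^ 2) ≤ (1 + ‖x‖) ^ 2 := by nlinarith
  have h2 : (1 + ‖x‖ ^ 2) ^ 2 ≤ (1 + ‖x‖) ^ 4 := by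
    calc (1 + ‖x‖ ^ 2) ^ 2 ≤ ((1 + ‖x‖) ^ 2) ^ 2 := pow_le_pow_left₀ (by positivity) h1 2
      _ = (1 + ‖x‖) ^ 4 := by ring
  have h3 : 0 < (1 + ‖x‖) ^ 4 := by positivity
  calc (1 + ‖x‖ ^ 2) ^ 2 * (((1 + ‖x‖) ^ 4)⁻¹) ^ 2
      ≤ (1 + ‖x‖) ^ 4 * (((1 + ‖x‖) ^ 4)⁻¹) ^ 2 :=
        mul_le_mul_of_nonneg_right h2 (by positivity)
    _ = ((1 + ‖x‖) ^ 4)⁻¹ := by
        rw [sq, ← mul_assoc, mul_inv_cancel₀ h3.ne', one_mul]

/-- The high frequency cut off converges. -/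
private theorem high_pair {m : E3 → ℂ} (hm : BStar m) (φ : 𝓢(E3, ℂ)) :
    Tendsto (fun n : ℕ => ∫ x, m x * TT (((n : ℝ) + 1)⁻¹) φ x) atTop (𝓝 (∫ x, m x * φ x)) := by
  obtain ⟨C, hC0, hC⟩ := schw_decay φ 4
  obtain ⟨D, hD0, hD⟩ := schw_decay rho 8
  have hc : ∀ n : ℕ, 0 < ((n : ℝ) + 1)⁻¹ := fun n => by positivity
  have hc1 : ∀ n : ℕ, ((n : ℝ) + 1)⁻¹ ≤ 1 := fun n => inv_le_one_of_one_le₀ (by
    have : (0 : ℝ) ≤ n := Nat.cast_nonneg n
    linarith)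
  set J : ℝ := ∫ z : E3, ((1 + ‖z‖) ^ 4)⁻¹ with hJ
  have hpt : ∀ n : ℕ, ∀ x z : E3, ‖rho z * φ (x - ((n : ℝ) + 1)⁻¹ • z)‖ ≤
      (C * D * ((1 + ‖x‖) ^ 4)⁻¹) * ((1 + ‖z‖) ^ 4)⁻¹ := by
    intro n x z
    rw [norm_mul]
    have h1 := hD z
    have h2 := hC (x - ((n : ℝ) + 1)⁻¹ • z)
    have h3 : 1 + ‖x‖ ≤ (1 + ‖x - ((n : ℝ) + 1)⁻¹ • z‖) * (1 + ‖z‖) := by
      have h4 : ‖((n : ℝ) + 1)⁻¹ • z‖ ≤ ‖z‖ := by
        rw [norm_smul, Real.norm_of_nonneg (hc n).le]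
        exact mul_le_of_le_one_left (norm_nonneg _) (hc1 n)
      have h5 : ‖x‖ ≤ ‖x - ((n : ℝ) + 1)⁻¹ • z‖ + ‖((n : ℝ) + 1)⁻¹ • z‖ := by
        have := norm_add_le (x - ((n : ℝ) + 1)⁻¹ • z) (((n : ℝ) + 1)⁻¹ • z)
        rwa [sub_add_cancel] at this
      nlinarith [norm_nonneg z, norm_nonneg (x - ((n : ℝ) + 1)⁻¹ • z)]
    have h6 : ((1 + ‖x - ((n : ℝ) + 1)⁻¹ • z‖) ^ 4)⁻¹ ≤ (1 + ‖z‖) ^ 4 * ((1 + ‖x‖) ^ 4)⁻¹ := by
      rw [← div_eq_mul_inv, le_div_iff₀ (by positivity), inv_mul_le_iff₀ (by positivity),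
        ← mul_pow]
      exact pow_le_pow_left₀ (by positivity) h3 4
    have h7 : ((1 + ‖z‖) ^ 8)⁻¹ * (1 + ‖z‖) ^ 4 = ((1 + ‖z‖) ^ 4)⁻¹ := by
      have : (1 + ‖z‖) ≠ 0 := by positivity
      field_simp
    calc ‖rho z‖ * ‖φ (x - ((n : ℝ) + 1)⁻¹ • z)‖
        ≤ (D * ((1 + ‖z‖) ^ 8)⁻¹) * (C * ((1 + ‖z‖) ^ 4 * ((1 + ‖x‖) ^ 4)⁻¹)) := by
          refine mul_le_mul h1 (h2.trans (mul_le_mul_of_nonneg_left h6 hC0)) (norm_nonneg _)
            (by positivity)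
      _ = (C * D * ((1 + ‖x‖) ^ 4)⁻¹) * (((1 + ‖z‖) ^ 8)⁻¹ * (1 + ‖z‖) ^ 4) := by ring
      _ = _ := by rw [h7]
  have hbd : ∀ n : ℕ, ∀ x : E3, ‖TT (((n : ℝ) + 1)⁻¹) φ x‖ ≤ C * D * J * ((1 + ‖x‖) ^ 4)⁻¹ := by
    intro n x
    rw [TT_apply'' (hc n)]
    refine (norm_integral_le_of_norm_le (integrable_inv4.const_mul _)
      (Eventually.of_forall (hpt n x))).trans (le_of_eq ?_)
    rw [integral_const_mul]
    ring
  have hlim : ∀ x : E3, Tendsto (fun n : ℕ => TT (((n : ℝ) + 1)⁻¹) φ x) atTop (𝓝 (φ x)) := by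
    intro x
    have h1 : (fun n : ℕ => TT (((n : ℝ) + 1)⁻¹) φ x) =
        fun n : ℕ => ∫ z : E3, rho z * φ (x - ((n : ℝ) + 1)⁻¹ • z) := by
      funext n
      exact TT_apply'' (hc n) φ x
    have h2 : φ x = ∫ z : E3, rho z * φ x := by
      rw [integral_mul_const, integral_rho, one_mul]
    rw [h1, h2]
    refine tendsto_integral_of_dominated_convergence
      (fun z => (C * D * ((1 + ‖x‖) ^ 4)⁻¹) * ((1 + ‖z‖) ^ 4)⁻¹) (fun n => ?_)
      (integrable_inv4.const_mul _) (fun n => Eventually.of_forall (hpt n x))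
      (Eventually.of_forall fun z => ?_)
    · exact (rho.continuous.mul (φ.continuous.comp (by fun_prop))).aestronglyMeasurable
    · refine Tendsto.const_mul _ ?_
      refine (φ.continuous.tendsto x).comp ?_
      have h3 : Tendsto (fun n : ℕ => ((n : ℝ) + 1)⁻¹) atTop (𝓝 0) := by
        simpa using tendsto_one_div_add_atTop_nhds_zero_nat (𝕜 := ℝ)
      have h4 := (h3.smul_const z).const_sub x
      simpa using h4
  have hint := (BStar_mul_WL hm WL_inv4).norm.const_mul (C * D * J)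
  refine tendsto_integral_of_dominated_convergence _ (fun n => ?_) hint
    (fun n => Eventually.of_forall fun x => ?_) (Eventually.of_forall fun x => ?_)
  · exact hm.1.mul (TT _ φ).continuous.aestronglyMeasurable
  · rw [norm_mul, norm_mul, Complex.norm_real, Real.norm_of_nonneg (by positivity)]
    calc ‖m x‖ * ‖TT (((n : ℝ) + 1)⁻¹) φ x‖ ≤ ‖m x‖ * (C * D * J * ((1 + ‖x‖) ^ 4)⁻¹) :=
          mul_le_mul_of_nonneg_left (hbd n x) (norm_nonneg _)
      _ = _ := by ring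
  · exact (hlim x).const_mul _

private theorem low_pair' {m : E3 → ℂ} (hm : BStar m) (φ : 𝓢(E3, ℂ)) :
    Tendsto (fun n : ℕ => ∫ x, m x * TT ((n : ℝ) + 1) φ x) atTop (𝓝 0) := by
  refine (low_pair hm rho φ).congr fun n => ?_
  refine integral_congr_ae (Eventually.of_forall fun x => ?_)
  simp only
  rw [TT_apply' (by positivity)]

/-- The approximating sequence. -/
private def PP (n : ℕ) (φ : 𝓢(E3, ℂ)) : 𝓢(E3, ℂ) := TT (((n : ℝ) + 1)⁻¹) φ - TT ((n : ℝ) + 1) φ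

private theorem PP_pair {m : E3 → ℂ} (hm : BStar m) (φ : 𝓢(E3, ℂ)) :
    Tendsto (fun n : ℕ => ∫ x, m x * PP n φ x) atTop (𝓝 (∫ x, m x * φ x)) := by
  have h := (high_pair hm φ).sub (low_pair' hm φ)
  rw [sub_zero] at h
  refine h.congr fun n => ?_
  rw [← integral_sub (BStar_mul_WL hm (schwartz_WL _)) (BStar_mul_WL hm (schwartz_WL _))]
  refine integral_congr_ae (Eventually.of_forall fun x => ?_)
  simp only [PP, _root_.sub_apply]
  ring

private theorem TT_comm {c : ℝ} (hc : 0 < c) {g : E3 → ℝ} (hg : Function.HasTemperateGrowth g)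
    (φ : 𝓢(E3, ℂ)) : TT c (SchwartzMap.fourierMultiplierCLM ℂ g φ) =
      SchwartzMap.fourierMultiplierCLM ℂ g (TT c φ) := by
  unfold TT
  have hg' : Function.HasTemperateGrowth (fun x : E3 => ((g x : ℝ) : ℂ)) := by fun_prop
  have h1 : ∀ f : 𝓢(E3, ℂ), SchwartzMap.fourierMultiplierCLM ℂ g f =
      SchwartzMap.fourierMultiplierCLM ℂ (fun x : E3 => ((g x : ℝ) : ℂ)) f := fun f =>
    (SchwartzMap.fourierMultiplierCLM_ofReal ℂ hg f).symm
  rw [h1, h1, SchwartzMap.fourierMultiplierCLM_fourierMultiplierCLM_apply (chi_temp hc) hg',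
    SchwartzMap.fourierMultiplierCLM_fourierMultiplierCLM_apply hg' (chi_temp hc), mul_comm]

private theorem TT_lineDeriv {c : ℝ} (hc : 0 < c) (e : E3) (φ : 𝓢(E3, ℂ)) :
    TT c (LineDeriv.lineDerivOp e φ) = LineDeriv.lineDerivOp e (TT c φ) := by
  rw [SchwartzMap.lineDeriv_eq_fourierMultiplierCLM, SchwartzMap.lineDeriv_eq_fourierMultiplierCLM,
    ← TT_comm hc (by fun_prop)]
  unfold TT
  rw [map_smul]

private theorem TT_laplacian {c : ℝ} (hc : 0 < c) (φ : 𝓢(E3, ℂ)) :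
    TT c (Laplacian.laplacian φ) = Laplacian.laplacian (TT c φ) := by
  rw [SchwartzMap.laplacian_eq_fourierMultiplierCLM, SchwartzMap.laplacian_eq_fourierMultiplierCLM,
    ← TT_comm hc (by fun_prop)]
  unfold TT
  rw [ContinuousLinearMap.map_smul_of_tower]

theorem low_freq (φ : 𝓢(E3, ℂ)) : ∃ φn : ℕ → 𝓢(E3, ℂ),
    (∀ n, HasCompactSupport (𝓕 (φn n : E3 → ℂ)) ∧ (0 : E3) ∉ tsupport (𝓕 (φn n : E3 → ℂ))) ∧
    (∀ m : E3 → ℂ, BStar m → Tendsto (fun n => ∫ x, m x * φn n x) atTop (𝓝 (∫ x, m x * φ x))) ∧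
    (∀ m : E3 → ℂ, BStar m → ∀ j : Fin 3, Tendsto
      (fun n => ∫ x, m x * fderiv ℝ (φn n : E3 → ℂ) x (EuclideanSpace.single j (1 : ℝ))) atTop
      (𝓝 (∫ x, m x * fderiv ℝ (φ : E3 → ℂ) x (EuclideanSpace.single j (1 : ℝ))))) ∧
    (∀ m : E3 → ℂ, BStar m → Tendsto
      (fun n => ∫ x, m x * (Laplacian.laplacian (φn n) : 𝓢(E3, ℂ)) x) atTop
      (𝓝 (∫ x, m x * (Laplacian.laplacian φ : 𝓢(E3, ℂ)) x))) := by
  have hc : ∀ n : ℕ, 0 < ((n : ℝ) + 1)⁻¹ := fun n => by positivity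
  have hd : ∀ n : ℕ, 0 < ((n : ℝ) + 1) := fun n => by positivity
  have hF : ∀ n : ℕ, (𝓕 (PP n φ : E3 → ℂ)) = fun ξ =>
      (chi (((n : ℝ) + 1)⁻¹) ξ - chi ((n : ℝ) + 1) ξ) * 𝓕 (φ : E3 → ℂ) ξ := by
    intro n
    have h1 : ∀ c : ℝ, 0 < c → 𝓕 (TT c φ) = SchwartzMap.smulLeftCLM ℂ (chi c) (𝓕 φ) := by
      intro c _
      unfold TT
      rw [SchwartzMap.fourierMultiplierCLM_apply, FourierTransform.fourier_fourierInv_eq]
    have h2 : (𝓕 (PP n φ)) = SchwartzMap.smulLeftCLM ℂ (chi (((n : ℝ) + 1)⁻¹)) (𝓕 φ) -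
        SchwartzMap.smulLeftCLM ℂ (chi ((n : ℝ) + 1)) (𝓕 φ) := by
      rw [← h1 _ (hc n), ← h1 _ (hd n), PP]
      have h5 := map_sub (FourierTransform.fourierCLM ℂ 𝓢(E3, ℂ)) (TT (((n : ℝ) + 1)⁻¹) φ)
        (TT ((n : ℝ) + 1) φ)
      simpa only [FourierTransform.fourierCLM_apply] using h5
    funext ξ
    have h3 : 𝓕 (PP n φ : E3 → ℂ) ξ = (𝓕 (PP n φ)) ξ := rfl
    rw [h3, h2, _root_.sub_apply, SchwartzMap.smulLeftCLM_apply_apply (chi_temp (hc n)),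
      SchwartzMap.smulLeftCLM_apply_apply (chi_temp (hd n)), smul_eq_mul, smul_eq_mul, ← sub_mul]
    rfl
  refine ⟨fun n => PP n φ, fun n => ⟨?_, ?_⟩, fun m hm => PP_pair hm φ, fun m hm j => ?_,
    fun m hm => ?_⟩
  · rw [hF n]
    exact HasCompactSupport.mul_right ((chi_supp (hc n)).sub (chi_supp (hd n)))
  · rw [hF n, notMem_tsupport_iff_eventuallyEq]
    filter_upwards [Metric.ball_mem_nhds (0 : E3) (hc n)] with ξ hξ
    rw [Metric.mem_ball, dist_zero_right] at hξ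
    have hn : (1 : ℝ) ≤ (n : ℝ) + 1 := by
      have : (0 : ℝ) ≤ n := Nat.cast_nonneg n
      linarith
    have h1 : chi (((n : ℝ) + 1)⁻¹) ξ = 1 := by
      refine chi_one ?_
      rw [norm_smul, Real.norm_of_nonneg (hc n).le]
      have h2 : ((n : ℝ) + 1)⁻¹ ≤ 1 := inv_le_one_of_one_le₀ hn
      nlinarith [norm_nonneg ξ, hc n]
    have h2 : chi ((n : ℝ) + 1) ξ = 1 := by
      refine chi_one ?_
      rw [norm_smul, Real.norm_of_nonneg (hd n).le]
      have := mul_lt_mul_of_pos_left hξ (hd n)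
      rw [mul_inv_cancel₀ (hd n).ne'] at this
      exact this.le
    rw [h1, h2]
    simp
  · have h := PP_pair hm (LineDeriv.lineDerivOp (EuclideanSpace.single j (1 : ℝ)) φ)
    have h1 : ∀ n : ℕ, PP n (LineDeriv.lineDerivOp (EuclideanSpace.single j (1 : ℝ)) φ) =
        LineDeriv.lineDerivOp (EuclideanSpace.single j (1 : ℝ)) (PP n φ) := by
      intro n
      unfold PP
      rw [TT_lineDeriv (hc n), TT_lineDeriv (hd n)]
      have h5 := map_sub (LineDeriv.lineDerivOpCLM ℂ 𝓢(E3, ℂ) (EuclideanSpace.single j (1 : ℝ)))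
        (TT (((n : ℝ) + 1)⁻¹) φ) (TT ((n : ℝ) + 1) φ)
      simp only [LineDeriv.lineDerivOpCLM_apply] at h5
      exact h5.symm
    simp only [h1, SchwartzMap.lineDerivOp_apply_eq_fderiv] at h
    exact h
  · have h := PP_pair hm (Laplacian.laplacian φ : 𝓢(E3, ℂ))
    have h1 : ∀ n : ℕ, PP n (Laplacian.laplacian φ : 𝓢(E3, ℂ)) =
        Laplacian.laplacian (PP n φ) := by
      intro n
      unfold PP
      rw [TT_laplacian (hc n), TT_laplacian (hd n)]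
      rw [← SchwartzMap.laplacianCLM_eq', ← SchwartzMap.laplacianCLM_eq',
        ← SchwartzMap.laplacianCLM_eq', map_sub]
    simp only [h1] at h
    exact h

end FracScat

end
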