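import Pool.Agent.Lib.MP_6e2ba5_an.Stmt

/-! # Smooth outgoing entire solutions of the Helmholtz equation are small on shells

Let `χ : ℝ → ℝ` be smooth, `χ = 1` on `(-∞,1/2]`, `χ = 0` on `[3,∞)`, `χ' ≤ 0`, `χ' ≤ -c < 0` on
`[1,2]`, and `η(x) = χ(|x|/R)`. The vector field `η Im(conj M ∇M)` has compact support and
`div Im(conj M ∇M) = Im(|∇M|² + conj M ΔM) = 0`, so
`0 = ∫ ∇η · Im(conj M ∇M) = R⁻¹ ∫ χ'(|x|/R) Im(conj M ∂_r M)`, `∂_r M = ∑ (x_j/|x|) ∂_j M`. Since
`|∂_r M - ikM|² = |∂_r M|² + k²|M|² - 2k Im(conj M ∂_r M)` and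
`|∂_r M - ikM|² ≤ ∑_j |∂_j M - ik (x_j/|x|) M|²`, this gives
`k² ∫ (-χ'(|x|/R)) |M|² ≤ ∫ (-χ'(|x|/R)) ∑_j |∂_j M - ik (x_j/|x|) M|² = o(R)`, hence
`∫_{R<|x|<2R} |M|² = o(R)` and, since `|∂_j M|² ≤ 2|∂_j M - ik (x_j/|x|) M|² + 2k²|M|²`, also
`∫_{R<|x|<2R} |∂_j M|² = o(R)`. -/

set_option autoImplicit false

open MeasureTheory Filter Topology Set
open scoped FourierTransform SchwartzMap InnerProductSpace ENNReal ContDiff

noncomputable section

namespace FracScat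

/-- Partial derivative. -/
def pd (j : Fin 3) (M : E3 → ℂ) (x : E3) : ℂ := fderiv ℝ M x (EuclideanSpace.single j (1 : ℝ))

/-! ### The cutoff -/

private def RAbump : ContDiffBump (5 / 2 : ℝ) := ⟨3 / 2, 2, by norm_num, by norm_num⟩

private def RArho (t : ℝ) : ℝ := RAbump t

private theorem RArho_cont : Continuous RArho := RAbump.continuous

private theorem RArho_nonneg (t : ℝ) : 0 ≤ RArho t := RAbump.nonneg

private theorem RArho_le (t : ℝ) : RArho t ≤ 1 := RAbump.le_one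

private theorem RArho_one {t : ℝ} (h1 : 1 ≤ t) (h2 : t ≤ 4) : RArho t = 1 := by
  refine RAbump.one_of_mem_closedBall ?_
  rw [Metric.mem_closedBall, Real.dist_eq, abs_le]
  constructor <;> simp [RAbump] <;> linarith

private theorem RArho_supp {t : ℝ} (h : RArho t ≠ 0) : 1 / 2 < t ∧ t < 9 / 2 := by
  by_contra hc
  apply h
  refine RAbump.zero_of_le_dist ?_
  rw [Real.dist_eq]
  simp only [RAbump]
  by_contra h2
  push Not at h2
  rw [abs_lt] at h2
  exact hc ⟨by linarith [h2.1], by linarith [h2.2]⟩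

private def RApsi (t : ℝ) : ℝ := ∫ s in t..(9 / 2), RArho s

private theorem RApsi_deriv (t : ℝ) : HasDerivAt RApsi (-RArho t) t :=
  intervalIntegral.integral_hasDerivAt_left (RArho_cont.intervalIntegrable _ _)
    (RArho_cont.stronglyMeasurableAtFilter _ _) RArho_cont.continuousAt

private theorem RApsi_zero {t : ℝ} (h : 9 / 2 ≤ t) : RApsi t = 0 := by
  unfold RApsi
  rw [intervalIntegral.integral_symm, neg_eq_zero]
  refine intervalIntegral.integral_zero_ae (Eventually.of_forall fun s hs => ?_)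
  by_contra h2
  have h3 := RArho_supp h2
  rw [uIoc_of_le h] at hs
  linarith [hs.1, h3.2]

private def RAeta (R : ℝ) (x : E3) : ℝ := RApsi (‖x‖ ^ 2 / R ^ 2)

private def RAetad (R : ℝ) (x : E3) : E3 →L[ℝ] ℝ :=
  (-RArho (‖x‖ ^ 2 / R ^ 2) * (2 / R ^ 2)) • innerSL ℝ x

private theorem RAeta_deriv (R : ℝ) (x : E3) : HasFDerivAt (RAeta R) (RAetad R x) x := by
  have h1 : HasFDerivAt (fun x : E3 => ‖x‖ ^ 2 / R ^ 2) ((R ^ 2)⁻¹ • (2 • innerSL ℝ x)) x := by
    have := (hasStrictFDerivAt_norm_sq x).hasFDerivAt.const_mul (R ^ 2)⁻¹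
    refine this.congr_of_eventuallyEq (Eventually.of_forall fun y => ?_)
    simp only
    ring
  have h2 := (RApsi_deriv (‖x‖ ^ 2 / R ^ 2)).comp_hasFDerivAt x h1
  have h3 : RAetad R x = (-RArho (‖x‖ ^ 2 / R ^ 2)) • ((R ^ 2)⁻¹ • (2 • innerSL ℝ x)) := by
    ext v
    simp [RAetad]
    ring
  rw [h3]
  exact h2

private theorem RAetad_cont (R : ℝ) : Continuous (RAetad R) := by
  unfold RAetad
  have h1 : Continuous (fun x : E3 => -RArho (‖x‖ ^ 2 / R ^ 2) * (2 / R ^ 2)) := by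
    have := RArho_cont
    fun_prop
  exact h1.smul (innerSL ℝ).continuous

private theorem RAeta_cont (R : ℝ) : Continuous (RAeta R) :=
  continuous_iff_continuousAt.2 fun x => (RAeta_deriv R x).continuousAt

private theorem RA_cpt {R : ℝ} (hR : 0 < R) {F : E3 → ℝ} (h : ∀ x, 9 / 2 < ‖x‖ ^ 2 / R ^ 2 → F x = 0) :
    HasCompactSupport F := by
  refine HasCompactSupport.of_support_subset_isCompact (isCompact_closedBall (0 : E3) (3 * R)) ?_
  intro x hx
  rw [Metric.mem_closedBall, dist_zero_right]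
  by_contra h2
  push Not at h2
  apply hx
  apply h
  rw [lt_div_iff₀ (by positivity)]
  nlinarith [norm_nonneg x]

/-! ### The flux -/

private theorem RA_pd_smooth {M : E3 → ℂ} (hM : ContDiff ℝ ∞ M) (j : Fin 3) :
    ContDiff ℝ ∞ (pd j M) := by
  unfold pd
  exact (contDiff_infty_iff_fderiv.1 hM).2.clm_apply contDiff_const

private def RAV (M : E3 → ℂ) (j : Fin 3) (x : E3) : ℝ :=
  (M x).re * (pd j M x).im - (M x).im * (pd j M x).re

private theorem RAV_smooth {M : E3 → ℂ} (hM : ContDiff ℝ ∞ M) (j : Fin 3) :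
    ContDiff ℝ ∞ (RAV M j) := by
  have h1 : ContDiff ℝ ∞ (fun x => (M x).re) := Complex.reCLM.contDiff.comp hM
  have h2 : ContDiff ℝ ∞ (fun x => (M x).im) := Complex.imCLM.contDiff.comp hM
  have h3 : ContDiff ℝ ∞ (fun x => (pd j M x).re) := Complex.reCLM.contDiff.comp (RA_pd_smooth hM j)
  have h4 : ContDiff ℝ ∞ (fun x => (pd j M x).im) := Complex.imCLM.contDiff.comp (RA_pd_smooth hM j)
  exact (h1.mul h4).sub (h2.mul h3)

private theorem RAV_fderiv {M : E3 → ℂ} (hM : ContDiff ℝ ∞ M) (j : Fin 3) (x : E3) :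
    fderiv ℝ (RAV M j) x (EuclideanSpace.single j (1 : ℝ)) =
      (M x).re * (pd j (pd j M) x).im - (M x).im * (pd j (pd j M) x).re := by
  have hM1 : HasFDerivAt M (fderiv ℝ M x) x := (hM.differentiable (by simp) x).hasFDerivAt
  have hP1 : HasFDerivAt (pd j M) (fderiv ℝ (pd j M) x) x :=
    ((RA_pd_smooth hM j).differentiable (by simp) x).hasFDerivAt
  have h1 : HasFDerivAt (fun x => (M x).re) (Complex.reCLM ∘L fderiv ℝ M x) x :=
    Complex.reCLM.hasFDerivAt.comp x hM1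
  have h2 : HasFDerivAt (fun x => (M x).im) (Complex.imCLM ∘L fderiv ℝ M x) x :=
    Complex.imCLM.hasFDerivAt.comp x hM1
  have h3 : HasFDerivAt (fun x => (pd j M x).re) (Complex.reCLM ∘L fderiv ℝ (pd j M) x) x :=
    Complex.reCLM.hasFDerivAt.comp x hP1
  have h4 : HasFDerivAt (fun x => (pd j M x).im) (Complex.imCLM ∘L fderiv ℝ (pd j M) x) x :=
    Complex.imCLM.hasFDerivAt.comp x hP1
  have h5 := ((h1.mul h4).sub (h2.mul h3)).fderiv
  have h6 : fderiv ℝ (RAV M j) x = _ := h5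
  rw [h6]
  have h7 : (fderiv ℝ M x) (EuclideanSpace.single j (1 : ℝ)) = pd j M x := rfl
  have h8 : (fderiv ℝ (pd j M) x) (EuclideanSpace.single j (1 : ℝ)) = pd j (pd j M) x := rfl
  simp only [_root_.sub_apply, _root_.add_apply, _root_.smul_apply,
    ContinuousLinearMap.coe_comp, Function.comp_apply, h7, h8, Complex.reCLM_apply,
    Complex.imCLM_apply, smul_eq_mul]
  ring

private theorem RAV_div {k : ℝ} {M : E3 → ℂ} (hM : ContDiff ℝ ∞ M)
    (he : ∀ x, (∑ j, pd j (pd j M) x) + (k : ℂ) ^ 2 * M x = 0) (x : E3) :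
    ∑ j, fderiv ℝ (RAV M j) x (EuclideanSpace.single j (1 : ℝ)) = 0 := by
  simp_rw [RAV_fderiv hM]
  have h1 : ∑ j, pd j (pd j M) x = -((k : ℂ) ^ 2 * M x) := by
    linear_combination he x
  have h2 : ∑ j, (pd j (pd j M) x).re = -(k ^ 2 * (M x).re) := by
    have := congrArg Complex.re h1
    rw [Complex.re_sum] at this
    rw [this]
    simp [← Complex.ofReal_pow]
  have h3 : ∑ j, (pd j (pd j M) x).im = -(k ^ 2 * (M x).im) := by
    have := congrArg Complex.im h1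
    rw [Complex.im_sum] at this
    rw [this]
    simp [← Complex.ofReal_pow]
  rw [Finset.sum_sub_distrib, ← Finset.mul_sum, ← Finset.mul_sum, h2, h3]
  ring

private def RAS (M : E3 → ℂ) (x : E3) : ℝ := ∑ j, x j * RAV M j x

private theorem RA_flux {k : ℝ} {M : E3 → ℂ} (hM : ContDiff ℝ ∞ M)
    (he : ∀ x, (∑ j, pd j (pd j M) x) + (k : ℂ) ^ 2 * M x = 0) {R : ℝ} (hR : 0 < R) :
    ∫ x, RArho (‖x‖ ^ 2 / R ^ 2) * RAS M x = 0 := by
  have hVc : ∀ j, Continuous (RAV M j) := fun j => (RAV_smooth hM j).continuous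
  have hVd : ∀ j, Continuous (fun x => fderiv ℝ (RAV M j) x (EuclideanSpace.single j (1 : ℝ))) :=
    fun j => ((RAV_smooth hM j).continuous_fderiv (by simp)).clm_apply continuous_const
  have hee : ∀ j x, RAetad R x (EuclideanSpace.single j (1 : ℝ)) =
      -RArho (‖x‖ ^ 2 / R ^ 2) * (2 / R ^ 2) * x j := by
    intro j x
    simp [RAetad, EuclideanSpace.inner_single_right]
  have hed : ∀ j, Continuous (fun x => RAetad R x (EuclideanSpace.single j (1 : ℝ))) :=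
    fun j => (RAetad_cont R).clm_apply continuous_const
  have i1 : ∀ j, Integrable (fun x => RAetad R x (EuclideanSpace.single j (1 : ℝ)) * RAV M j x) := by
    intro j
    refine ((hed j).mul (hVc j)).integrable_of_hasCompactSupport (RA_cpt hR fun x hx => ?_)
    show RAetad R x (EuclideanSpace.single j (1 : ℝ)) * RAV M j x = 0
    rw [hee]
    by_contra h
    have h2 : RArho (‖x‖ ^ 2 / R ^ 2) ≠ 0 := by
      intro h3
      apply h
      rw [h3]
      ring
    linarith [(RArho_supp h2).2]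
  have i2 : ∀ j, Integrable (fun x => RAeta R x *
      fderiv ℝ (RAV M j) x (EuclideanSpace.single j (1 : ℝ))) := by
    intro j
    refine ((RAeta_cont R).mul (hVd j)).integrable_of_hasCompactSupport (RA_cpt hR fun x hx => ?_)
    simp [RAeta, RApsi_zero hx.le]
  have i3 : ∀ j, Integrable (fun x => RAeta R x * RAV M j x) := by
    intro j
    refine ((RAeta_cont R).mul (hVc j)).integrable_of_hasCompactSupport (RA_cpt hR fun x hx => ?_)
    simp [RAeta, RApsi_zero hx.le]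
  have h1 : ∀ j, ∫ x, RAeta R x * fderiv ℝ (RAV M j) x (EuclideanSpace.single j (1 : ℝ)) =
      -∫ x, RAetad R x (EuclideanSpace.single j (1 : ℝ)) * RAV M j x := by
    intro j
    exact integral_bilinear_hasFDerivAt_right_eq_neg_left_of_integrable
      (B := ContinuousLinearMap.mul ℝ ℝ) (f := RAeta R) (f' := RAetad R) (g := RAV M j)
      (g' := fderiv ℝ (RAV M j)) (v := EuclideanSpace.single j (1 : ℝ)) (μ := volume)
      (i1 j) (i2 j) (i3 j) (fun x _ => RAeta_deriv R x)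
      (fun x _ => ((RAV_smooth hM j).differentiable (by simp) x).hasFDerivAt)
  have h2 : ∑ j, ∫ x, RAeta R x * fderiv ℝ (RAV M j) x (EuclideanSpace.single j (1 : ℝ)) = 0 := by
    rw [← integral_finsetSum _ fun j _ => i2 j]
    simp_rw [← Finset.mul_sum, RAV_div hM he, mul_zero, integral_zero]
  have h3 : ∑ j, ∫ x, RAetad R x (EuclideanSpace.single j (1 : ℝ)) * RAV M j x = 0 := by
    simp_rw [h1, Finset.sum_neg_distrib] at h2
    linarith
  rw [← integral_finsetSum _ fun j _ => i1 j] at h3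
  have h4 : ∀ x, ∑ j, RAetad R x (EuclideanSpace.single j (1 : ℝ)) * RAV M j x =
      -(2 / R ^ 2) * (RArho (‖x‖ ^ 2 / R ^ 2) * RAS M x) := by
    intro x
    simp_rw [hee, RAS, Finset.mul_sum]
    refine Finset.sum_congr rfl fun j _ => ?_
    ring
  simp_rw [h4] at h3
  rw [integral_const_mul] at h3
  have h5 : -(2 / R ^ 2) ≠ 0 := by
    have : 0 < 2 / R ^ 2 := by positivity
    linarith
  exact (mul_eq_zero.1 h3).resolve_left h5

private def RAE (k : ℝ) (M : E3 → ℂ) (x : E3) : ℝ :=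
  ∑ j, ‖pd j M x - Complex.I * k * ((x j / ‖x‖ : ℝ) : ℂ) * M x‖ ^ 2

private def RAN (k : ℝ) (M : E3 → ℂ) (x : E3) : ℝ := k ^ 2 * ‖M x‖ ^ 2 + ∑ j, ‖pd j M x‖ ^ 2

private theorem RA_expand {k : ℝ} {M : E3 → ℂ} {x : E3} (hx : x ≠ 0) :
    ‖x‖ * RAE k M x = ‖x‖ * RAN k M x - 2 * k * RAS M x := by
  have h0 : ‖x‖ ≠ 0 := norm_ne_zero_iff.2 hx
  have h1 : ∑ j, (x j) ^ 2 = ‖x‖ ^ 2 := by
    rw [EuclideanSpace.norm_sq_eq]
    simp
  have h2 : ∀ j, ‖pd j M x - Complex.I * k * ((x j / ‖x‖ : ℝ) : ℂ) * M x‖ ^ 2 =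
      ‖pd j M x‖ ^ 2 + k ^ 2 * (x j) ^ 2 / ‖x‖ ^ 2 * ‖M x‖ ^ 2 -
        2 * k / ‖x‖ * (x j * RAV M j x) := by
    intro j
    rw [← Complex.normSq_eq_norm_sq, ← Complex.normSq_eq_norm_sq, ← Complex.normSq_eq_norm_sq,
      Complex.normSq_apply, Complex.normSq_apply, Complex.normSq_apply]
    simp only [RAV, Complex.sub_re, Complex.sub_im, Complex.mul_re, Complex.mul_im, Complex.I_re,
      Complex.I_im, Complex.ofReal_re, Complex.ofReal_im]
    field_simp
    ring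
  unfold RAE RAN RAS
  simp_rw [h2]
  rw [Finset.sum_sub_distrib, Finset.sum_add_distrib, ← Finset.mul_sum]
  have h3 : ∑ j, k ^ 2 * (x j) ^ 2 / ‖x‖ ^ 2 * ‖M x‖ ^ 2 = k ^ 2 * ‖M x‖ ^ 2 := by
    have : ∀ j, k ^ 2 * (x j) ^ 2 / ‖x‖ ^ 2 * ‖M x‖ ^ 2 =
        (k ^ 2 / ‖x‖ ^ 2 * ‖M x‖ ^ 2) * (x j) ^ 2 := fun j => by ring
    simp_rw [this]
    rw [← Finset.mul_sum, h1]
    field_simp
  rw [h3]
  field_simp
  ring

private theorem RA_cont_pd {M : E3 → ℂ} (hM : ContDiff ℝ ∞ M) (j : Fin 3) : Continuous (pd j M) :=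
  (RA_pd_smooth hM j).continuous

private theorem RAN_cont {k : ℝ} {M : E3 → ℂ} (hM : ContDiff ℝ ∞ M) : Continuous (RAN k M) := by
  unfold RAN
  refine (continuous_const.mul (hM.continuous.norm.pow 2)).add ?_
  exact continuous_finsetSum _ fun j _ => (RA_cont_pd hM j).norm.pow 2

private theorem RAS_cont {M : E3 → ℂ} (hM : ContDiff ℝ ∞ M) : Continuous (RAS M) := by
  unfold RAS
  refine continuous_finsetSum _ fun j _ => ?_
  exact (by fun_prop : Continuous fun x : E3 => x j).mul (RAV_smooth hM j).continuous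

private theorem RAE_contOn {k : ℝ} {M : E3 → ℂ} (hM : ContDiff ℝ ∞ M) :
    ContinuousOn (RAE k M) {x : E3 | x ≠ 0} := by
  unfold RAE
  refine continuousOn_finsetSum _ fun j _ => ?_
  refine ContinuousOn.pow (ContinuousOn.norm ?_) 2
  refine (RA_cont_pd hM j).continuousOn.sub ?_
  refine ContinuousOn.mul ?_ hM.continuous.continuousOn
  refine continuousOn_const.mul ?_
  refine Complex.continuous_ofReal.comp_continuousOn ?_
  exact ContinuousOn.div (by fun_prop) (by fun_prop) fun x hx => norm_ne_zero_iff.2 hx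

private theorem RAE_nonneg (k : ℝ) (M : E3 → ℂ) (x : E3) : 0 ≤ RAE k M x :=
  Finset.sum_nonneg fun _ _ => by positivity

private theorem RA_key {k : ℝ} (hk : 0 < k) {M : E3 → ℂ} (hM : ContDiff ℝ ∞ M)
    (he : ∀ x, (∑ j, pd j (pd j M) x) + (k : ℂ) ^ 2 * M x = 0) {R : ℝ} (hR : 2 < R) :
    min 1 (k ^ 2) * ∫ x in {x : E3 | R < ‖x‖ ∧ ‖x‖ < 2 * R},
      (‖M x‖ ^ 2 + ∑ j, ‖pd j M x‖ ^ 2) ≤
    3 * ∫ x in {x : E3 | 1 < ‖x‖ ∧ ‖x‖ < 3 * R}, RAE k M x := by
  have hR0 : 0 < R := by linarith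
  have hρc : Continuous (fun x : E3 => RArho (‖x‖ ^ 2 / R ^ 2)) := by
    have := RArho_cont
    fun_prop
  have hρ0 : ∀ x : E3, 9 / 2 < ‖x‖ ^ 2 / R ^ 2 → RArho (‖x‖ ^ 2 / R ^ 2) = 0 := by
    intro x hx
    by_contra h
    linarith [(RArho_supp h).2]
  have hρz : RArho (‖(0 : E3)‖ ^ 2 / R ^ 2) = 0 := by
    by_contra h
    have := (RArho_supp h).1
    simp at this
    linarith
  -- the identity
  have hid : ∀ x, RArho (‖x‖ ^ 2 / R ^ 2) * (‖x‖ * RAE k M x) =
      RArho (‖x‖ ^ 2 / R ^ 2) * (‖x‖ * RAN k M x) -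
        2 * k * (RArho (‖x‖ ^ 2 / R ^ 2) * RAS M x) := by
    intro x
    rcases eq_or_ne x 0 with rfl | hx
    · rw [hρz]
      ring
    · rw [RA_expand hx]
      ring
  have iN : Integrable (fun x : E3 => RArho (‖x‖ ^ 2 / R ^ 2) * (‖x‖ * RAN k M x)) := by
    refine (hρc.mul (continuous_norm.mul (RAN_cont hM))).integrable_of_hasCompactSupport
      (RA_cpt hR0 fun x hx => ?_)
    show RArho (‖x‖ ^ 2 / R ^ 2) * (‖x‖ * RAN k M x) = 0
    rw [hρ0 x hx, zero_mul]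
  have iS : Integrable (fun x : E3 => RArho (‖x‖ ^ 2 / R ^ 2) * RAS M x) := by
    refine (hρc.mul (RAS_cont hM)).integrable_of_hasCompactSupport
      (RA_cpt hR0 fun x hx => ?_)
    show RArho (‖x‖ ^ 2 / R ^ 2) * RAS M x = 0
    rw [hρ0 x hx, zero_mul]
  have hI : ∫ x : E3, RArho (‖x‖ ^ 2 / R ^ 2) * (‖x‖ * RAE k M x) =
      ∫ x : E3, RArho (‖x‖ ^ 2 / R ^ 2) * (‖x‖ * RAN k M x) := by
    simp_rw [hid]
    rw [integral_sub iN (iS.const_mul _), integral_const_mul, RA_flux hM he hR0]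
    ring
  -- upper bound
  have hm1 : MeasurableSet {x : E3 | 1 < ‖x‖ ∧ ‖x‖ < 3 * R} := by
    exact (measurableSet_lt measurable_const measurable_norm).inter
      (measurableSet_lt measurable_norm measurable_const)
  have hm2 : MeasurableSet {x : E3 | R < ‖x‖ ∧ ‖x‖ < 2 * R} := by
    exact (measurableSet_lt measurable_const measurable_norm).inter
      (measurableSet_lt measurable_norm measurable_const)
  have iE : IntegrableOn (RAE k M) {x : E3 | 1 < ‖x‖ ∧ ‖x‖ < 3 * R} := by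
    have h1 : IsCompact (Metric.closedBall (0 : E3) (3 * R) ∩ {x | 1 ≤ ‖x‖}) :=
      (isCompact_closedBall _ _).inter_right (isClosed_le continuous_const continuous_norm)
    have h2 : IntegrableOn (RAE k M) (Metric.closedBall (0 : E3) (3 * R) ∩ {x | 1 ≤ ‖x‖}) := by
      refine ContinuousOn.integrableOn_compact h1 ((RAE_contOn hM).mono ?_)
      rintro x ⟨_, hx⟩ h0
      have : (1 : ℝ) ≤ ‖x‖ := hx
      rw [h0, norm_zero] at this
      linarith
    refine h2.mono_set ?_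
    rintro x ⟨hx1, hx2⟩
    refine ⟨?_, hx1.le⟩
    rw [Metric.mem_closedBall, dist_zero_right]
    exact hx2.le
  have hup : ∫ x : E3, RArho (‖x‖ ^ 2 / R ^ 2) * (‖x‖ * RAE k M x) ≤
      3 * R * ∫ x in {x : E3 | 1 < ‖x‖ ∧ ‖x‖ < 3 * R}, RAE k M x := by
    rw [← integral_const_mul]
    have h1 : ∫ x : E3, RArho (‖x‖ ^ 2 / R ^ 2) * (‖x‖ * RAE k M x) =
        ∫ x in {x : E3 | 1 < ‖x‖ ∧ ‖x‖ < 3 * R}, RArho (‖x‖ ^ 2 / R ^ 2) * (‖x‖ * RAE k M x) := by
      refine (setIntegral_eq_integral_of_forall_compl_eq_zero fun x hx => ?_).symm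
      by_contra h
      apply hx
      have h2 : RArho (‖x‖ ^ 2 / R ^ 2) ≠ 0 := by
        intro h3
        apply h
        rw [h3, zero_mul]
      obtain ⟨h3, h4⟩ := RArho_supp h2
      rw [lt_div_iff₀ (by positivity)] at h3
      rw [div_lt_iff₀ (by positivity)] at h4
      constructor
      · by_contra h5
        push Not at h5
        nlinarith [norm_nonneg x]
      · by_contra h5
        push Not at h5
        nlinarith [norm_nonneg x]
    rw [h1]
    refine setIntegral_mono_on ?_ (iE.const_mul _) hm1 ?_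
    · have : Integrable (fun x : E3 => RArho (‖x‖ ^ 2 / R ^ 2) * (‖x‖ * RAE k M x)) := by
        simp_rw [hid]
        exact iN.sub (iS.const_mul _)
      exact this.integrableOn
    · rintro x ⟨hx1, hx2⟩
      have h2 := RArho_le (‖x‖ ^ 2 / R ^ 2)
      have h3 := RArho_nonneg (‖x‖ ^ 2 / R ^ 2)
      have h4 : 0 ≤ ‖x‖ * RAE k M x := mul_nonneg (norm_nonneg _) (RAE_nonneg _ _ _)
      calc RArho (‖x‖ ^ 2 / R ^ 2) * (‖x‖ * RAE k M x) ≤ 1 * (‖x‖ * RAE k M x) :=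
            mul_le_mul_of_nonneg_right h2 h4
        _ ≤ 3 * R * RAE k M x := by
            rw [one_mul]
            exact mul_le_mul_of_nonneg_right hx2.le (RAE_nonneg _ _ _)
  -- lower bound
  have hcg : Continuous (fun x : E3 => ‖M x‖ ^ 2 + ∑ j, ‖pd j M x‖ ^ 2) := by
    refine (hM.continuous.norm.pow 2).add ?_
    exact continuous_finsetSum _ fun j _ => (RA_cont_pd hM j).norm.pow 2
  have iG : IntegrableOn (fun x : E3 => ‖M x‖ ^ 2 + ∑ j, ‖pd j M x‖ ^ 2)
      {x : E3 | R < ‖x‖ ∧ ‖x‖ < 2 * R} := by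
    refine (hcg.continuousOn.integrableOn_compact
      (isCompact_closedBall (0 : E3) (2 * R))).mono_set ?_
    rintro x ⟨_, hx2⟩
    rw [Metric.mem_closedBall, dist_zero_right]
    exact hx2.le
  have hlo : R * (min 1 (k ^ 2) * ∫ x in {x : E3 | R < ‖x‖ ∧ ‖x‖ < 2 * R},
      (‖M x‖ ^ 2 + ∑ j, ‖pd j M x‖ ^ 2)) ≤
      ∫ x : E3, RArho (‖x‖ ^ 2 / R ^ 2) * (‖x‖ * RAN k M x) := by
    rw [← mul_assoc, ← integral_const_mul]
    refine le_trans ?_ (setIntegral_le_integral (s := {x : E3 | R < ‖x‖ ∧ ‖x‖ < 2 * R}) iN ?_)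
    · refine setIntegral_mono_on (iG.const_mul _) iN.integrableOn hm2 ?_
      rintro x ⟨hx1, hx2⟩
      have h1 : RArho (‖x‖ ^ 2 / R ^ 2) = 1 := by
        refine RArho_one ?_ ?_
        · rw [le_div_iff₀ (by positivity)]
          nlinarith
        · rw [div_le_iff₀ (by positivity)]
          nlinarith [norm_nonneg x]
      rw [h1, one_mul]
      have h2 : min 1 (k ^ 2) * (‖M x‖ ^ 2 + ∑ j, ‖pd j M x‖ ^ 2) ≤ RAN k M x := by
        unfold RAN
        have h3 : min 1 (k ^ 2) * ‖M x‖ ^ 2 ≤ k ^ 2 * ‖M x‖ ^ 2 :=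
          mul_le_mul_of_nonneg_right (min_le_right _ _) (by positivity)
        have h4 : min 1 (k ^ 2) * ∑ j, ‖pd j M x‖ ^ 2 ≤ 1 * ∑ j, ‖pd j M x‖ ^ 2 :=
          mul_le_mul_of_nonneg_right (min_le_left _ _)
            (Finset.sum_nonneg fun _ _ => by positivity)
        rw [mul_add]
        linarith
      have h5 : 0 ≤ RAN k M x := by
        unfold RAN
        positivity
      rw [mul_assoc]
      exact mul_le_mul hx1.le h2 (by positivity) (norm_nonneg _)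
    · filter_upwards with x
      have h5 : 0 ≤ RAN k M x := by
        unfold RAN
        positivity
      exact mul_nonneg (RArho_nonneg _) (mul_nonneg (norm_nonneg _) h5)
  rw [← hI] at hlo
  have hfin := hlo.trans hup
  have : R * (min 1 (k ^ 2) * ∫ x in {x : E3 | R < ‖x‖ ∧ ‖x‖ < 2 * R},
      (‖M x‖ ^ 2 + ∑ j, ‖pd j M x‖ ^ 2)) ≤
      R * (3 * ∫ x in {x : E3 | 1 < ‖x‖ ∧ ‖x‖ < 3 * R}, RAE k M x) := by linarith
  exact le_of_mul_le_mul_left this hR0

theorem shell_small {k : ℝ} (hk : 0 < k) {M : E3 → ℂ} (hM : ContDiff ℝ ∞ M)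
    (he : ∀ x, (∑ j, pd j (pd j M) x) + (k : ℂ) ^ 2 * M x = 0)
    (hr : Tendsto (fun R : ℝ => R⁻¹ * ∫ x in {x : E3 | 1 < ‖x‖ ∧ ‖x‖ < R},
      ∑ j, ‖pd j M x - Complex.I * k * ((x j / ‖x‖ : ℝ) : ℂ) * M x‖ ^ 2) atTop (𝓝 0)) :
    Tendsto (fun R : ℝ => R⁻¹ * ∫ x in {x : E3 | R < ‖x‖ ∧ ‖x‖ < 2 * R},
      (‖M x‖ ^ 2 + ∑ j, ‖pd j M x‖ ^ 2)) atTop (𝓝 0) := by
  have h1 : Tendsto (fun R : ℝ => 3 * R) atTop atTop :=
    tendsto_id.const_mul_atTop (by norm_num)
  have h2 := (hr.comp h1).const_mul (9 / min 1 (k ^ 2))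
  rw [mul_zero] at h2
  have hmin : 0 < min 1 (k ^ 2) := lt_min one_pos (by positivity)
  refine tendsto_of_tendsto_of_tendsto_of_le_of_le' tendsto_const_nhds h2 ?_ ?_
  · filter_upwards [eventually_gt_atTop 0] with R hR
    refine mul_nonneg (by positivity) (integral_nonneg fun x => ?_)
    positivity
  · filter_upwards [eventually_gt_atTop 2] with R hR
    have h3 := RA_key hk hM he hR
    have hR0 : 0 < R := by linarith
    simp only [Function.comp_apply]
    have h4 : ∫ x in {x : E3 | R < ‖x‖ ∧ ‖x‖ < 2 * R}, (‖M x‖ ^ 2 + ∑ j, ‖pd j M x‖ ^ 2) ≤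
        3 / min 1 (k ^ 2) * ∫ x in {x : E3 | 1 < ‖x‖ ∧ ‖x‖ < 3 * R}, RAE k M x := by
      rw [div_mul_eq_mul_div, le_div_iff₀ hmin]
      linarith
    have h5 := mul_le_mul_of_nonneg_left h4 (by positivity : 0 ≤ R⁻¹)
    refine h5.trans (le_of_eq ?_)
    have h6 : ∀ J : ℝ, R⁻¹ * (3 / min 1 (k ^ 2) * J) = 9 / min 1 (k ^ 2) * ((3 * R)⁻¹ * J) := by
      intro J
      rw [mul_inv]
      ring
    exact h6 _

end FracScat

end
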