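import Pool.Agent.Lib.MP_6e2ba5_an.HelmWeak
import Pool.Agent.Lib.MP_6e2ba5_an.RellA

/-! # Mollification

`moll m φ x = ∫ m(y) φ(y - x) dy` for smooth `φ` with compact support and locally integrable `m`
(`BStar` functions are locally square integrable): it is `m ⋆ (φ reflected)`, smooth
(`HasCompactSupport.contDiff_convolution_right`), `∂_j (moll m φ) = -moll m (∂_j φ)`.
`moll_helm`: `helm_weak` for the translates of `φ` (a smooth function with compact support is a
Schwartz function, `HasCompactSupport.toSchwartzMap`), `moll_grad`: `grad_weak` in the same way. -/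

set_option autoImplicit false

open MeasureTheory Filter Topology Set
open scoped FourierTransform SchwartzMap InnerProductSpace ENNReal ContDiff

noncomputable section

namespace FracScat

/-- Mollification. -/
def moll (m φ : E3 → ℂ) (x : E3) : ℂ := ∫ y, m y * φ (y - x)

private theorem mollA_locInt {m : E3 → ℂ} (hm : BStar m) : LocallyIntegrable m volume := by
  obtain ⟨hm1, C, hC⟩ := hm
  intro x
  have hR : (1 : ℝ) ≤ ‖x‖ + 1 := by
    have := norm_nonneg x
    linarith
  refine ⟨Metric.ball 0 (‖x‖ + 1), Metric.isOpen_ball.mem_nhds (by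
    rw [mem_ball_zero_iff]
    linarith), ?_⟩
  have h1 := (hC _ hR).1
  have : IsFiniteMeasure (volume.restrict (Metric.ball (0 : E3) (‖x‖ + 1))) :=
    ⟨by rw [Measure.restrict_apply_univ]; exact measure_ball_lt_top⟩
  have h2 : MemLp m 2 (volume.restrict (Metric.ball (0 : E3) (‖x‖ + 1))) :=
    (memLp_two_iff_integrable_sq_norm hm1.restrict).2 h1
  exact h2.integrable one_le_two

private theorem mollA_eq (m φ : E3 → ℂ) : moll m φ =
    MeasureTheory.convolution m (fun z => φ (-z)) (ContinuousLinearMap.mul ℝ ℂ) volume := by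
  funext x
  unfold moll MeasureTheory.convolution
  refine integral_congr_ae (Eventually.of_forall fun y => ?_)
  simp [neg_sub]

private theorem mollA_cneg {φ : E3 → ℂ} (hc : HasCompactSupport φ) :
    HasCompactSupport fun z => φ (-z) :=
  hc.comp_homeomorph (Homeomorph.neg E3)

private theorem mollA_sneg {φ : E3 → ℂ} (hφ : ContDiff ℝ ∞ φ) : ContDiff ℝ ∞ fun z => φ (-z) :=
  hφ.comp contDiff_neg

theorem moll_smooth {m : E3 → ℂ} (hm : BStar m) {φ : E3 → ℂ} (hφ : ContDiff ℝ ∞ φ)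
    (hc : HasCompactSupport φ) : ContDiff ℝ ∞ (moll m φ) := by
  rw [mollA_eq]
  exact (mollA_cneg hc).contDiff_convolution_right _ (mollA_locInt hm) (mollA_sneg hφ)

theorem moll_pd {m : E3 → ℂ} (hm : BStar m) {φ : E3 → ℂ} (hφ : ContDiff ℝ ∞ φ)
    (hc : HasCompactSupport φ) (j : Fin 3) (x : E3) :
    pd j (moll m φ) x = -moll m (pd j φ) x := by
  have hs := mollA_sneg hφ
  have hcn := mollA_cneg hc
  have h1 := hcn.hasFDerivAt_convolution_right (ContinuousLinearMap.mul ℝ ℂ) (mollA_locInt hm)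
    (hs.of_le (by exact_mod_cast le_top)) x
  rw [← mollA_eq] at h1
  show fderiv ℝ (moll m φ) x (EuclideanSpace.single j (1 : ℝ)) = _
  rw [h1.fderiv, convolution_precompR_apply _ (mollA_locInt hm) (hcn.fderiv ℝ)
    (hs.continuous_fderiv (by simp))]
  unfold moll MeasureTheory.convolution
  rw [← integral_neg]
  refine integral_congr_ae (Eventually.of_forall fun y => ?_)
  have h2 : HasFDerivAt (fun z => φ (-z))
      ((fderiv ℝ φ (-(x - y))).comp (-(ContinuousLinearMap.id ℝ E3))) (x - y) :=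
    ((hφ.differentiable (by simp)).differentiableAt.hasFDerivAt).comp (x - y)
      (hasFDerivAt_id (x - y)).neg
  simp only [h2.fderiv]
  simp [pd, neg_sub]

private theorem mollA_pdsmooth {φ : E3 → ℂ} (hφ : ContDiff ℝ ∞ φ) (j : Fin 3) :
    ContDiff ℝ ∞ (pd j φ) :=
  (hφ.fderiv_right (by simp)).clm_apply contDiff_const

private theorem mollA_pdcompact {φ : E3 → ℂ} (hc : HasCompactSupport φ) (j : Fin 3) :
    HasCompactSupport (pd j φ) :=
  hc.fderiv_apply ℝ _

private theorem mollA_pd2 {m : E3 → ℂ} (hm : BStar m) {φ : E3 → ℂ} (hφ : ContDiff ℝ ∞ φ)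
    (hc : HasCompactSupport φ) (j : Fin 3) (x : E3) :
    pd j (pd j (moll m φ)) x = moll m (pd j (pd j φ)) x := by
  have h1 : pd j (moll m φ) = fun x => -moll m (pd j φ) x := funext fun x => moll_pd hm hφ hc j x
  have h2 : pd j (fun x => -moll m (pd j φ) x) x = -pd j (moll m (pd j φ)) x := by
    unfold pd
    rw [fderiv_fun_neg]
    rfl
  rw [h1, h2, moll_pd hm (mollA_pdsmooth hφ j) (mollA_pdcompact hc j), neg_neg]

private theorem mollA_tcompact {φ : E3 → ℂ} (hc : HasCompactSupport φ) (x : E3) :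
    HasCompactSupport fun y => φ (y - x) :=
  hc.comp_homeomorph (Homeomorph.subRight x)

private theorem mollA_tsmooth {φ : E3 → ℂ} (hφ : ContDiff ℝ ∞ φ) (x : E3) :
    ContDiff ℝ ∞ fun y => φ (y - x) :=
  hφ.comp (contDiff_id.sub contDiff_const)

private theorem mollA_tpd (φ : E3 → ℂ) (j : Fin 3) (x y : E3) :
    pd j (fun y => φ (y - x)) y = pd j φ (y - x) := by
  unfold pd
  simp only [sub_eq_add_neg]
  rw [fderiv_comp_add_right]

/-- The translate of `φ` as a Schwartz function. -/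
private def mollAS {φ : E3 → ℂ} (hφ : ContDiff ℝ ∞ φ) (hc : HasCompactSupport φ) (x : E3) :
    𝓢(E3, ℂ) :=
  (mollA_tcompact hc x).toSchwartzMap (mollA_tsmooth hφ x)

private theorem mollAS_coe {φ : E3 → ℂ} (hφ : ContDiff ℝ ∞ φ) (hc : HasCompactSupport φ) (x : E3) :
    (mollAS hφ hc x : E3 → ℂ) = fun y => φ (y - x) := rfl

open LineDeriv in
private theorem mollAS_lap {φ : E3 → ℂ} (hφ : ContDiff ℝ ∞ φ) (hc : HasCompactSupport φ)
    (x y : E3) : (Laplacian.laplacian (mollAS hφ hc x) : 𝓢(E3, ℂ)) y =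
      ∑ j, pd j (pd j φ) (y - x) := by
  rw [SchwartzMap.laplacian_eq_sum (EuclideanSpace.basisFun (Fin 3) ℝ), _root_.sum_apply]
  refine Finset.sum_congr rfl fun j _ => ?_
  rw [EuclideanSpace.basisFun_apply, SchwartzMap.lineDerivOp_apply_eq_fderiv]
  have h1 : ((∂_{(EuclideanSpace.single j (1 : ℝ) : E3)} (mollAS hφ hc x) : 𝓢(E3, ℂ)) : E3 → ℂ) =
      fun y => pd j φ (y - x) := by
    funext z
    rw [SchwartzMap.lineDerivOp_apply_eq_fderiv, mollAS_coe]
    exact mollA_tpd φ j x z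
  rw [h1]
  exact mollA_tpd (pd j φ) j x y

private theorem mollA_int {m : E3 → ℂ} (hm : BStar m) {φ : E3 → ℂ} (hφ : Continuous φ)
    (hc : HasCompactSupport φ) (x : E3) : Integrable fun y => m y * φ (y - x) := by
  have h1 := (mollA_locInt hm).integrable_smul_right_of_hasCompactSupport
    (g := fun y => φ (y - x)) (hφ.comp (continuous_id.sub continuous_const)) (mollA_tcompact hc x)
  exact h1

theorem moll_helm {s : ℝ} (h0 : 1 / 2 < s) (h2 : s < 2) {k : ℝ} (hk : 0 < k) {m : E3 → ℂ}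
    (hm : BStar m) (he : ∀ φ : 𝓢(E3, ℂ), (∫ x, m x * fracLap s φ x) -
      ((k ^ (2 * s) : ℝ) : ℂ) * (∫ x, m x * φ x) = 0) {φ : E3 → ℂ} (hφ : ContDiff ℝ ∞ φ)
    (hc : HasCompactSupport φ) (x : E3) :
    (∑ j, pd j (pd j (moll m φ)) x) + (k : ℂ) ^ 2 * moll m φ x = 0 := by
  have h3 := helm_weak h0 h2 hk hm he (mollAS hφ hc x)
  rw [Finset.sum_congr rfl fun j _ => mollA_pd2 hm hφ hc j x]
  rw [← h3]
  unfold moll
  have hi : ∀ j : Fin 3, Integrable fun y => m y * pd j (pd j φ) (y - x) := fun j =>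
    mollA_int hm (mollA_pdsmooth (mollA_pdsmooth hφ j) j).continuous
      (mollA_pdcompact (mollA_pdcompact hc j) j) x
  rw [← integral_finsetSum _ fun j _ => hi j, ← integral_const_mul, ← integral_add
    (integrable_finsetSum _ fun j _ => hi j) ((mollA_int hm hφ.continuous hc x).const_mul _)]
  refine integral_congr_ae (Eventually.of_forall fun y => ?_)
  simp only [mollAS_lap, mollAS_coe, ← Finset.mul_sum]
  ring

theorem moll_grad {s : ℝ} (h0 : 1 / 2 < s) (h2 : s < 2) {k : ℝ} (hk : 0 < k) {m : E3 → ℂ}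
    (hm : BStar m) (he : ∀ φ : 𝓢(E3, ℂ), (∫ x, m x * fracLap s φ x) -
      ((k ^ (2 * s) : ℝ) : ℂ) * (∫ x, m x * φ x) = 0) {w : Fin 3 → E3 → ℂ}
    (hw : ∀ j, BStar (w j))
    (hwe : ∀ (j : Fin 3) (φ : 𝓢(E3, ℂ)), ∫ x, w j x * φ x = -∫ x, m x * fracGrad s j φ x)
    {φ : E3 → ℂ} (hφ : ContDiff ℝ ∞ φ) (hc : HasCompactSupport φ) (j : Fin 3) (x : E3) :
    pd j (moll m φ) x = ((k ^ (1 - s) : ℝ) : ℂ) * moll (w j) φ x := by
  have h3 := grad_weak h0 h2 hk hm he hw hwe j (mollAS hφ hc x)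
  rw [moll_pd hm hφ hc]
  have h4 : moll (w j) φ x = ∫ y, w j y * mollAS hφ hc x y := rfl
  have h5 : moll m (pd j φ) x = ∫ y, m y * fderiv ℝ (mollAS hφ hc x : E3 → ℂ) y
      (EuclideanSpace.single j (1 : ℝ)) := by
    unfold moll
    refine integral_congr_ae (Eventually.of_forall fun y => ?_)
    rw [mollAS_coe]
    show m y * pd j φ (y - x) = m y * pd j (fun y => φ (y - x)) y
    rw [mollA_tpd]
  rw [h4, h3, h5, mul_neg, ← mul_assoc, ← Complex.ofReal_mul, ← Real.rpow_add hk]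
  have h6 : 1 - s + (s - 1) = 0 := by ring
  rw [h6, Real.rpow_zero, Complex.ofReal_one, one_mul]

end FracScat

end
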