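import Pool.Agent.Lib.MP_6e2ba5_an.MollA

/-! # The radiation condition for the mollified function

Purely real analysis. `k^(1-s) moll (w j) φ x - ik (x_j/|x|) moll m φ x
= k^(1-s) ∫ (w j - i k^s (y_j/|y|) m)(y) φ(y-x) dy + ik ∫ (y_j/|y| - x_j/|x|) m(y) φ(y-x) dy`.
Let `φ` vanish outside the ball of radius `ρ`. First term: `|∫ F(y) φ(y-x) dy|² ≤ ‖φ‖₂²
∫_{|y-x|<ρ} |F(y)|² dy` and Fubini: its integral over `1 < |x| < R` is at most
`C ∫_{|y|<R+ρ} |F|² ≤ C' + C ∫_{1<|y|<R+ρ} |F|² = o(R)`. Second term: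
`|y/|y| - x/|x|| ≤ 2ρ/|x|` for `|y-x| < ρ`, so the square of it is at most
`C |x|^(-2) ∫_{|y-x|<ρ} |m|²`, and `∫_{1<|x|<R} |x|^(-2) ∫_{|y-x|<ρ} |m(y)|² dy dx
≤ C + C ∫_{|y|<R+ρ} |m(y)|² (1+|y|)^(-2) dy = O(log R)` or simply `o(R)` (dyadic shells). -/

set_option autoImplicit false

open MeasureTheory Filter Topology Set
open scoped FourierTransform SchwartzMap InnerProductSpace ENNReal ContDiff

noncomputable section

namespace FracScat

/-- Cauchy-Schwarz. -/
private theorem mb_cs (μ : Measure E3) {f : E3 → ℝ≥0∞} (hf : AEMeasurable f μ) :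
    (∫⁻ y, f y ∂μ) ^ 2 ≤ μ univ * ∫⁻ y, f y ^ 2 ∂μ := by
  have h := ENNReal.lintegral_mul_le_Lp_mul_Lq μ Real.HolderConjugate.two_two hf
    (aemeasurable_const (b := (1 : ℝ≥0∞)))
  have h1 : ∫⁻ y, f y ∂μ ≤ (∫⁻ y, f y ^ 2 ∂μ) ^ (1 / 2 : ℝ) * (μ univ) ^ (1 / 2 : ℝ) := by
    simpa [Pi.mul_apply] using h
  have h2 : ∀ a : ℝ≥0∞, (a ^ (1 / 2 : ℝ)) ^ 2 = a := fun a => by
    rw [← ENNReal.rpow_natCast, ← ENNReal.rpow_mul]
    norm_num
  calc (∫⁻ y, f y ∂μ) ^ 2 ≤ ((∫⁻ y, f y ^ 2 ∂μ) ^ (1 / 2 : ℝ) * (μ univ) ^ (1 / 2 : ℝ)) ^ 2 :=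
        pow_le_pow_left' h1 2
    _ = μ univ * ∫⁻ y, f y ^ 2 ∂μ := by rw [mul_pow, h2, h2, mul_comm]

/-- Tonelli. -/
private theorem mb_fub {h : E3 → ℝ≥0∞} (hh : AEMeasurable h volume) (ρ T : ℝ) :
    ∫⁻ x in Metric.ball (0 : E3) T, ∫⁻ y in Metric.ball x ρ, h y ≤
      volume (Metric.ball (0 : E3) ρ) * ∫⁻ y in Metric.ball (0 : E3) (T + ρ), h y := by
  set D : Set (E3 × E3) := {p | dist p.2 p.1 < ρ} with hDdef
  have hD : MeasurableSet D :=
    (isOpen_lt (continuous_snd.dist continuous_fst) continuous_const).measurableSet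
  have hAE : AEMeasurable (fun p : E3 × E3 => D.indicator (fun p => h p.2) p)
      ((volume : Measure E3).prod ((volume : Measure E3).restrict (Metric.ball 0 (T + ρ)))) := by
    refine AEMeasurable.indicator ?_ hD
    exact (hh.mono_measure Measure.restrict_le_self).comp_snd
  calc ∫⁻ x in Metric.ball (0 : E3) T, ∫⁻ y in Metric.ball x ρ, h y
      = ∫⁻ x in Metric.ball (0 : E3) T, ∫⁻ y in Metric.ball (0 : E3) (T + ρ),
          D.indicator (fun p => h p.2) (x, y) := by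
        refine setLIntegral_congr_fun Metric.isOpen_ball.measurableSet fun x hx => ?_
        rw [← lintegral_indicator Metric.isOpen_ball.measurableSet,
          ← lintegral_indicator Metric.isOpen_ball.measurableSet]
        refine lintegral_congr fun y => ?_
        by_cases hy : dist y x < ρ
        · have hy2 : y ∈ Metric.ball (0 : E3) (T + ρ) := by
            rw [Metric.mem_ball] at hx ⊢
            calc dist y 0 ≤ dist y x + dist x 0 := dist_triangle _ _ _
              _ < T + ρ := by linarith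
          rw [indicator_of_mem (show y ∈ Metric.ball x ρ from hy), indicator_of_mem hy2,
            indicator_of_mem (show (x, y) ∈ D from hy)]
        · rw [indicator_of_notMem (show y ∉ Metric.ball x ρ from hy)]
          by_cases hy2 : y ∈ Metric.ball (0 : E3) (T + ρ)
          · rw [indicator_of_mem hy2, indicator_of_notMem (show (x, y) ∉ D from hy)]
          · rw [indicator_of_notMem hy2]
    _ ≤ ∫⁻ x, ∫⁻ y in Metric.ball (0 : E3) (T + ρ), D.indicator (fun p => h p.2) (x, y) :=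
        setLIntegral_le_lintegral _ _
    _ = ∫⁻ y in Metric.ball (0 : E3) (T + ρ), ∫⁻ x, D.indicator (fun p => h p.2) (x, y) :=
        lintegral_lintegral_swap hAE
    _ = ∫⁻ y in Metric.ball (0 : E3) (T + ρ), volume (Metric.ball (0 : E3) ρ) * h y := by
        refine lintegral_congr fun y => ?_
        have h1 : (fun x => D.indicator (fun p => h p.2) (x, y)) =
            (Metric.ball y ρ).indicator fun _ => h y := by
          funext x
          by_cases hy : dist y x < ρ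
          · rw [indicator_of_mem (show (x, y) ∈ D from hy),
              indicator_of_mem (show x ∈ Metric.ball y ρ by rwa [Metric.mem_ball, dist_comm])]
          · rw [indicator_of_notMem (show (x, y) ∉ D from hy),
              indicator_of_notMem (show x ∉ Metric.ball y ρ by rwa [Metric.mem_ball, dist_comm])]
        rw [h1, lintegral_indicator Metric.isOpen_ball.measurableSet, setLIntegral_const,
          mul_comm, Measure.addHaar_ball_center]
    _ = _ := lintegral_const_mul'' _ hh.restrict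


private theorem mb_meas {h : E3 → ℝ≥0∞} (hh : AEMeasurable h volume) (ρ : ℝ) :
    AEMeasurable (fun x : E3 => ∫⁻ y in Metric.ball x ρ, h y) volume := by
  set D : Set (E3 × E3) := {p | dist p.2 p.1 < ρ} with hDdef
  have hD : MeasurableSet D :=
    (isOpen_lt (continuous_snd.dist continuous_fst) continuous_const).measurableSet
  have hAE : AEMeasurable (fun p : E3 × E3 => D.indicator (fun p => h p.2) p)
      ((volume : Measure E3).prod (volume : Measure E3)) :=
    AEMeasurable.indicator hh.comp_snd hD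
  refine hAE.lintegral_prod_right'.congr (Eventually.of_forall fun x => ?_)
  simp only
  rw [← lintegral_indicator Metric.isOpen_ball.measurableSet]
  rfl

private theorem mb_int {G F m : E3 → ℂ} {ρ : ℝ} {K : ℝ≥0∞} (hK : K ≠ ⊤)
    (hF : AEStronglyMeasurable F volume) (hm : AEStronglyMeasurable m volume)
    (hG : ∀ x, 1 < ‖x‖ → ‖G x‖ₑ ^ 2 ≤ K * ((∫⁻ y in Metric.ball x ρ, ‖F y‖ₑ ^ 2) +
      ENNReal.ofReal ((‖x‖ ^ 2)⁻¹) * ∫⁻ y in Metric.ball x ρ, ‖m y‖ₑ ^ 2))
    {R : ℝ} (hR : 1 ≤ R) :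
    ∫⁻ x in {x : E3 | 1 < ‖x‖ ∧ ‖x‖ < R}, ‖G x‖ₑ ^ 2 ≤
      K * (volume (Metric.ball (0 : E3) ρ) * (∫⁻ y in Metric.ball (0 : E3) (R + ρ), ‖F y‖ₑ ^ 2) +
        volume (Metric.ball (0 : E3) ρ) *
          (∫⁻ y in Metric.ball (0 : E3) (√R + ρ), ‖m y‖ₑ ^ 2) +
        ENNReal.ofReal R⁻¹ * (volume (Metric.ball (0 : E3) ρ) *
          ∫⁻ y in Metric.ball (0 : E3) (R + ρ), ‖m y‖ₑ ^ 2)) := by
  have hR0 : 0 < R := by linarith
  have hsq : 1 ≤ √R := by rw [Real.one_le_sqrt]; exact hR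
  have mF : AEMeasurable (fun y => ‖F y‖ₑ ^ 2) volume := hF.enorm.pow_const 2
  have mm : AEMeasurable (fun y => ‖m y‖ₑ ^ 2) volume := hm.enorm.pow_const 2
  set SF : E3 → ℝ≥0∞ := fun x => ∫⁻ y in Metric.ball x ρ, ‖F y‖ₑ ^ 2 with hSF
  set Sm : E3 → ℝ≥0∞ := fun x => ∫⁻ y in Metric.ball x ρ, ‖m y‖ₑ ^ 2 with hSm
  have mSF : AEMeasurable SF volume := mb_meas mF ρ
  have mSm : AEMeasurable Sm volume := mb_meas mm ρ
  have hmeasA : MeasurableSet {x : E3 | 1 < ‖x‖ ∧ ‖x‖ < R} :=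
    (isOpen_lt continuous_const continuous_norm).measurableSet.inter
      (isOpen_lt continuous_norm continuous_const).measurableSet
  calc ∫⁻ x in {x : E3 | 1 < ‖x‖ ∧ ‖x‖ < R}, ‖G x‖ₑ ^ 2
      ≤ ∫⁻ x in {x : E3 | 1 < ‖x‖ ∧ ‖x‖ < R}, K * (SF x +
          (Metric.ball (0 : E3) (√R)).indicator Sm x + ENNReal.ofReal R⁻¹ * Sm x) := by
        refine setLIntegral_mono' hmeasA fun x hx => ?_
        refine (hG x hx.1).trans ?_
        rw [add_assoc]
        refine mul_le_mul_right (add_le_add le_rfl ?_) _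
        by_cases h : ‖x‖ < √R
        · rw [indicator_of_mem (show x ∈ Metric.ball (0 : E3) (√R) by
            rwa [mem_ball_zero_iff])]
          refine le_trans ?_ (le_add_right le_rfl)
          calc ENNReal.ofReal ((‖x‖ ^ 2)⁻¹) * Sm x ≤ ENNReal.ofReal 1 * Sm x := by
                gcongr
                refine inv_le_one_of_one_le₀ ?_
                exact one_le_pow₀ hx.1.le
            _ = Sm x := by rw [ENNReal.ofReal_one, one_mul]
        · refine le_trans ?_ (le_add_left le_rfl)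
          gcongr
          rw [not_lt] at h
          calc R = √R ^ 2 := (Real.sq_sqrt hR0.le).symm
            _ ≤ ‖x‖ ^ 2 := by gcongr
    _ ≤ ∫⁻ x in Metric.ball (0 : E3) R, K * (SF x +
          (Metric.ball (0 : E3) (√R)).indicator Sm x + ENNReal.ofReal R⁻¹ * Sm x) := by
        refine lintegral_mono_set fun x hx => ?_
        rw [mem_ball_zero_iff]
        exact hx.2
    _ = K * ((∫⁻ x in Metric.ball (0 : E3) R, SF x) +
          (∫⁻ x in Metric.ball (0 : E3) R, (Metric.ball (0 : E3) (√R)).indicator Sm x) +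
          ENNReal.ofReal R⁻¹ * ∫⁻ x in Metric.ball (0 : E3) R, Sm x) := by
        rw [lintegral_const_mul' _ _ hK, lintegral_add_right', lintegral_add_left',
          lintegral_const_mul' _ _ ENNReal.ofReal_ne_top]
        · exact mSF.restrict
        · exact (mSm.const_mul _).restrict
    _ ≤ _ := by
        gcongr
        · exact mb_fub mF ρ R
        · refine le_trans ?_ (mb_fub mm ρ (√R))
          rw [← lintegral_indicator Metric.isOpen_ball.measurableSet (μ := volume)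
            (s := Metric.ball (0 : E3) (√R))]
          exact setLIntegral_le_lintegral _ _
        · exact mb_fub mm ρ R


private theorem mb_locInt {m : E3 → ℂ} (hm : BStar m) :
    LocallyIntegrable m (volume : Measure E3) := by
  obtain ⟨hmeas, C, hC⟩ := hm
  intro x
  set R : ℝ := ‖x‖ + 1 with hR
  have hR1 : 1 ≤ R := by
    have := norm_nonneg x
    linarith
  refine ⟨Metric.ball (0 : E3) R, Metric.isOpen_ball.mem_nhds ?_, ?_⟩
  · rw [Metric.mem_ball, dist_zero_right]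
    linarith
  have hfin : IsFiniteMeasure (volume.restrict (Metric.ball (0 : E3) R)) :=
    ⟨by rw [Measure.restrict_apply_univ]; exact measure_ball_lt_top⟩
  have h2 : MemLp m 2 (volume.restrict (Metric.ball (0 : E3) R)) :=
    (memLp_two_iff_integrable_sq_norm hmeas.restrict).2 (hC R hR1).1
  exact h2.integrable one_le_two

/-- Coordinates of unit vectors. -/
private theorem mb_coord (j : Fin 3) {x y : E3} (hx : x ≠ 0) :
    |y j / ‖y‖ - x j / ‖x‖| ≤ 2 * ‖y - x‖ / ‖x‖ := by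
  have hx0 : 0 < ‖x‖ := norm_pos_iff.2 hx
  have hc : ∀ z : E3, |z j| ≤ ‖z‖ := fun z => by
    have := EuclideanSpace.norm_eq z
    have h1 := PiLp.norm_apply_le z j
    simpa using h1
  by_cases hy : y = 0
  · subst hy
    rw [norm_zero, div_zero, zero_sub, abs_neg, abs_div, abs_of_pos hx0, zero_sub, norm_neg]
    have := hc x
    gcongr
    linarith
  · have hy0 : 0 < ‖y‖ := norm_pos_iff.2 hy
    have e : y j / ‖y‖ - x j / ‖x‖ =
        ((y j / ‖y‖) * (‖x‖ - ‖y‖) + (y j - x j)) / ‖x‖ := by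
      field_simp
      ring
    rw [e, abs_div, abs_of_pos hx0]
    gcongr
    refine (abs_add_le _ _).trans ?_
    have h1 : |y j / ‖y‖ * (‖x‖ - ‖y‖)| ≤ ‖y - x‖ := by
      rw [abs_mul, abs_div, abs_of_pos hy0]
      have h2 : |y j| / ‖y‖ ≤ 1 := by rw [div_le_one hy0]; exact hc y
      have h3 : |‖x‖ - ‖y‖| ≤ ‖y - x‖ := by
        rw [norm_sub_rev]
        exact abs_norm_sub_norm_le x y
      calc |y j| / ‖y‖ * |‖x‖ - ‖y‖| ≤ 1 * ‖y - x‖ := by gcongr
        _ = ‖y - x‖ := one_mul _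
    have h4 : |y j - x j| ≤ ‖y - x‖ := by
      have := hc (y - x)
      simpa using this
    linarith

private theorem mb_measu (j : Fin 3) : Measurable (fun x : E3 => ((x j / ‖x‖ : ℝ) : ℂ)) := by
  have h1 : Continuous (fun x : E3 => x j) := by fun_prop
  exact Complex.measurable_ofReal.comp (h1.measurable.div measurable_norm)

private theorem mb_bdd {m u : E3 → ℂ} (hm : BStar m) (hu : Measurable u)
    (hu1 : ∀ x, ‖u x‖ ≤ 1) : BStar (fun x => u x * m x) := by
  obtain ⟨hmm, C, hC⟩ := hm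
  refine ⟨hu.aestronglyMeasurable.mul hmm, C, fun R hR => ?_⟩
  obtain ⟨hi, hb⟩ := hC R hR
  have hp : ∀ x, ‖u x * m x‖ ^ 2 ≤ ‖m x‖ ^ 2 := fun x => by
    rw [norm_mul]
    have := mul_le_mul_of_nonneg_right (hu1 x) (norm_nonneg (m x))
    rw [one_mul] at this
    exact pow_le_pow_left₀ (by positivity) this 2
  have hi2 : IntegrableOn (fun x => ‖u x * m x‖ ^ 2) (Metric.ball (0 : E3) R) := by
    refine Integrable.mono' hi ((hu.aestronglyMeasurable.mul hmm).restrict.norm.pow 2) ?_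
    refine Eventually.of_forall fun x => ?_
    rw [Real.norm_of_nonneg (by positivity)]
    exact hp x
  exact ⟨hi2, (integral_mono hi2 hi hp).trans hb⟩

private theorem mb_u_le (j : Fin 3) (x : E3) : ‖((x j / ‖x‖ : ℝ) : ℂ)‖ ≤ 1 := by
  rw [Complex.norm_real, Real.norm_eq_abs, abs_div, abs_norm]
  refine div_le_one_of_le₀ ?_ (norm_nonneg _)
  have h1 := PiLp.norm_apply_le x j
  simpa using h1

/-- The pointwise estimate. -/
private theorem mb_point {s k : ℝ} (hk : 0 < k) {m : E3 → ℂ} (hm : BStar m) {v : E3 → ℂ}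
    (hv : BStar v) {φ : E3 → ℂ} (hφ : Continuous φ) (hc : HasCompactSupport φ) {ρ Φ : ℝ}
    (hρ : 0 < ρ) (hφρ : ∀ z, ρ ≤ ‖z‖ → φ z = 0) (hΦ : ∀ z, ‖φ z‖ ≤ Φ) (j : Fin 3) (x : E3)
    (hx : 1 < ‖x‖) :
    ‖((k ^ (1 - s) : ℝ) : ℂ) * moll v φ x -
        Complex.I * k * ((x j / ‖x‖ : ℝ) : ℂ) * moll m φ x‖ₑ ^ 2 ≤
      ENNReal.ofReal (2 * Φ ^ 2 * ((k ^ (1 - s)) ^ 2 + (2 * k * ρ) ^ 2)) *
        volume (Metric.ball (0 : E3) ρ) *
      ((∫⁻ y in Metric.ball x ρ,
        ‖v y - Complex.I * ((k ^ s : ℝ) : ℂ) * ((y j / ‖y‖ : ℝ) : ℂ) * m y‖ₑ ^ 2) +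
      ENNReal.ofReal ((‖x‖ ^ 2)⁻¹) * ∫⁻ y in Metric.ball x ρ, ‖m y‖ₑ ^ 2) := by
  have hx0 : x ≠ 0 := by
    rintro rfl
    rw [norm_zero] at hx
    linarith
  have hxp : 0 < ‖x‖ := by linarith
  have hΦ0 : 0 ≤ Φ := (norm_nonneg _).trans (hΦ 0)
  have hφx : Continuous fun y => φ (y - x) := by fun_prop
  have hcx : HasCompactSupport fun y => φ (y - x) := by
    have := hc.comp_homeomorph (Homeomorph.subRight x)
    exact this
  have hmi : Integrable (fun y => m y * φ (y - x)) volume := by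
    have := (mb_locInt hm).integrable_smul_left_of_hasCompactSupport hφx hcx
    refine this.congr (Eventually.of_forall fun y => ?_)
    simp only [smul_eq_mul]
    ring
  have hvi : Integrable (fun y => v y * φ (y - x)) volume := by
    have := (mb_locInt hv).integrable_smul_left_of_hasCompactSupport hφx hcx
    refine this.congr (Eventually.of_forall fun y => ?_)
    simp only [smul_eq_mul]
    ring
  have hck : ((k ^ (1 - s) : ℝ) : ℂ) * ((k ^ s : ℝ) : ℂ) = (k : ℂ) := by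
    rw [← Complex.ofReal_mul, ← Real.rpow_add hk]
    norm_num
  set F : E3 → ℂ := fun y => v y - Complex.I * ((k ^ s : ℝ) : ℂ) * ((y j / ‖y‖ : ℝ) : ℂ) * m y
    with hF
  set g : E3 → ℂ := fun y => (((k ^ (1 - s) : ℝ) : ℂ) * F y +
    Complex.I * k * ((y j / ‖y‖ - x j / ‖x‖ : ℝ) : ℂ) * m y) * φ (y - x) with hg
  have hG : ((k ^ (1 - s) : ℝ) : ℂ) * moll v φ x -
      Complex.I * k * ((x j / ‖x‖ : ℝ) : ℂ) * moll m φ x = ∫ y, g y := by
    unfold moll
    rw [← integral_const_mul, ← integral_const_mul,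
      ← integral_sub (hvi.const_mul _) (hmi.const_mul _)]
    refine integral_congr_ae (Eventually.of_forall fun y => ?_)
    simp only [hg, hF]
    push_cast
    linear_combination (Complex.I * ((y j : ℂ) / (‖y‖ : ℂ)) * m y * φ (y - x)) * hck
  have hFm : AEStronglyMeasurable F volume := by
    have h1 : AEStronglyMeasurable (fun y => Complex.I * ((k ^ s : ℝ) : ℂ) *
      (((y j / ‖y‖ : ℝ) : ℂ) * m y)) volume :=
      ((mb_measu j).aestronglyMeasurable.mul hm.1).const_mul _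
    refine (hv.1.sub h1).congr (Eventually.of_forall fun y => ?_)
    simp only [hF, Pi.sub_apply]
    ring
  have hgm : AEStronglyMeasurable g volume := by
    refine AEStronglyMeasurable.mul ?_ hφx.aestronglyMeasurable
    refine (hFm.const_mul _).add ?_
    refine AEStronglyMeasurable.mul ?_ hm.1
    refine AEStronglyMeasurable.const_mul ?_ _
    have h2 := (mb_measu j).sub (measurable_const (a := ((x j / ‖x‖ : ℝ) : ℂ)))
    refine h2.aestronglyMeasurable.congr (Eventually.of_forall fun y => ?_)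
    simp only [Pi.sub_apply]
    push_cast
    ring
  have hsupp : ∫⁻ y, ‖g y‖ₑ = ∫⁻ y in Metric.ball x ρ, ‖g y‖ₑ := by
    rw [← lintegral_indicator Metric.isOpen_ball.measurableSet]
    refine lintegral_congr fun y => ?_
    by_cases hy : y ∈ Metric.ball x ρ
    · rw [indicator_of_mem hy]
    · rw [indicator_of_notMem hy]
      rw [Metric.mem_ball, not_lt, dist_eq_norm] at hy
      simp only [hg]
      rw [hφρ _ hy, mul_zero, enorm_zero]
  rw [hG]
  calc ‖∫ y, g y‖ₑ ^ 2 ≤ (∫⁻ y in Metric.ball x ρ, ‖g y‖ₑ) ^ 2 := by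
        rw [← hsupp]
        exact pow_le_pow_left' (enorm_integral_le_lintegral_enorm _) 2
    _ ≤ volume (Metric.ball (0 : E3) ρ) * ∫⁻ y in Metric.ball x ρ, ‖g y‖ₑ ^ 2 := by
        have := mb_cs (volume.restrict (Metric.ball x ρ)) hgm.restrict.enorm
        rwa [Measure.restrict_apply_univ, Measure.addHaar_ball_center] at this
    _ ≤ volume (Metric.ball (0 : E3) ρ) * ∫⁻ y in Metric.ball x ρ,
          ENNReal.ofReal (2 * Φ ^ 2 * ((k ^ (1 - s)) ^ 2 + (2 * k * ρ) ^ 2)) *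
          (‖F y‖ₑ ^ 2 + ENNReal.ofReal ((‖x‖ ^ 2)⁻¹) * ‖m y‖ₑ ^ 2) := by
        gcongr 1
        refine setLIntegral_mono' Metric.isOpen_ball.measurableSet fun y hy => ?_
        rw [Metric.mem_ball, dist_eq_norm] at hy
        have hb1 : ‖g y‖ ≤ (k ^ (1 - s) * ‖F y‖ + 2 * k * ρ / ‖x‖ * ‖m y‖) * Φ := by
          simp only [hg]
          rw [norm_mul]
          have h1 : ‖((k ^ (1 - s) : ℝ) : ℂ) * F y +
              Complex.I * k * ((y j / ‖y‖ - x j / ‖x‖ : ℝ) : ℂ) * m y‖ ≤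
              k ^ (1 - s) * ‖F y‖ + 2 * k * ρ / ‖x‖ * ‖m y‖ := by
            refine (norm_add_le _ _).trans ?_
            refine add_le_add ?_ ?_
            · rw [norm_mul, Complex.norm_real, Real.norm_of_nonneg (by positivity)]
            · rw [norm_mul, norm_mul, norm_mul, Complex.norm_I, one_mul, Complex.norm_real,
                Complex.norm_real, Real.norm_of_nonneg hk.le, Real.norm_eq_abs]
              refine mul_le_mul_of_nonneg_right ?_ (norm_nonneg _)
              have h2 := mb_coord j (x := x) (y := y) hx0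
              calc k * |y j / ‖y‖ - x j / ‖x‖| ≤ k * (2 * ‖y - x‖ / ‖x‖) := by gcongr
                _ ≤ k * (2 * ρ / ‖x‖) := by gcongr
                _ = 2 * k * ρ / ‖x‖ := by ring
          exact mul_le_mul h1 (hΦ _) (norm_nonneg _) (by positivity)
        have hb2 : ‖g y‖ ^ 2 ≤ 2 * Φ ^ 2 * ((k ^ (1 - s)) ^ 2 + (2 * k * ρ) ^ 2) *
            (‖F y‖ ^ 2 + (‖x‖ ^ 2)⁻¹ * ‖m y‖ ^ 2) := by
          refine (pow_le_pow_left₀ (norm_nonneg _) hb1 2).trans ?_
          have e1 : ((k ^ (1 - s) * ‖F y‖ + 2 * k * ρ / ‖x‖ * ‖m y‖) * Φ) ^ 2 =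
              Φ ^ 2 * (k ^ (1 - s) * ‖F y‖ + (2 * k * ρ) * (‖x‖⁻¹ * ‖m y‖)) ^ 2 := by ring
          have e2 : (‖x‖ ^ 2)⁻¹ * ‖m y‖ ^ 2 = (‖x‖⁻¹ * ‖m y‖) ^ 2 := by
            rw [mul_pow, inv_pow]
          rw [e1, e2]
          set a := k ^ (1 - s)
          set b := 2 * k * ρ
          set p := ‖F y‖
          set q := ‖x‖⁻¹ * ‖m y‖
          have hcs : (a * p + b * q) ^ 2 ≤ 2 * (a ^ 2 + b ^ 2) * (p ^ 2 + q ^ 2) := by
            nlinarith [sq_nonneg (a * q - b * p), sq_nonneg (a * p + b * q), sq_nonneg (a * p),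
              sq_nonneg (b * q), sq_nonneg (a * q), sq_nonneg (b * p)]
          calc Φ ^ 2 * (a * p + b * q) ^ 2 ≤ Φ ^ 2 * (2 * (a ^ 2 + b ^ 2) * (p ^ 2 + q ^ 2)) := by
                gcongr
            _ = 2 * Φ ^ 2 * (a ^ 2 + b ^ 2) * (p ^ 2 + q ^ 2) := by ring
        have e3 : ∀ z : ℂ, ‖z‖ₑ ^ 2 = ENNReal.ofReal (‖z‖ ^ 2) := fun z => by
          rw [ENNReal.ofReal_pow (norm_nonneg _), ofReal_norm]
        rw [e3, e3, e3, ← ENNReal.ofReal_mul (by positivity),
          ← ENNReal.ofReal_add (by positivity) (by positivity),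
          ← ENNReal.ofReal_mul (by positivity)]
        exact ENNReal.ofReal_le_ofReal hb2
    _ = _ := by
        rw [lintegral_const_mul' _ _ ENNReal.ofReal_ne_top, lintegral_add_left',
          lintegral_const_mul' _ _ ENNReal.ofReal_ne_top]
        · ring
        · exact hFm.restrict.enorm.pow_const 2


/-- The sum over the balls is small. -/
private theorem mb_small {H : E3 → ℝ} {f : E3 → ℝ} (hf : ∀ x, 0 ≤ f x)
    (hle : ∀ x, f x ≤ H x)
    (hfi : ∀ R, 1 ≤ R → IntegrableOn f (Metric.ball 0 R))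
    (hHi : ∀ R, 1 ≤ R → IntegrableOn H (Metric.ball 0 R))
    (hr : Tendsto (fun R : ℝ => R⁻¹ * ∫ x in {x : E3 | 1 < ‖x‖ ∧ ‖x‖ < R}, H x) atTop (𝓝 0))
    {ρ : ℝ} (hρ : 0 < ρ) :
    Tendsto (fun R : ℝ => R⁻¹ * ∫ x in Metric.ball (0 : E3) (R + ρ), f x) atTop (𝓝 0) := by
  set c : ℝ := ∫ x in Metric.closedBall (0 : E3) 1, f x with hc
  have h1 : Tendsto (fun R : ℝ => (R + ρ)⁻¹ *
      ∫ x in {x : E3 | 1 < ‖x‖ ∧ ‖x‖ < R + ρ}, H x) atTop (𝓝 0) :=
    hr.comp (tendsto_atTop_add_const_right _ ρ tendsto_id)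
  have h2 : Tendsto (fun R : ℝ => R⁻¹ * (R + ρ)) atTop (𝓝 1) := by
    have h3 : Tendsto (fun R : ℝ => 1 + R⁻¹ * ρ) atTop (𝓝 (1 + 0 * ρ)) :=
      tendsto_const_nhds.add (tendsto_inv_atTop_zero.mul_const ρ)
    rw [zero_mul, add_zero] at h3
    refine h3.congr' ?_
    filter_upwards [eventually_gt_atTop 0] with R hR
    field_simp
  have h4 : Tendsto (fun R : ℝ => R⁻¹ * c + (R⁻¹ * (R + ρ)) * ((R + ρ)⁻¹ *
      ∫ x in {x : E3 | 1 < ‖x‖ ∧ ‖x‖ < R + ρ}, H x)) atTop (𝓝 (0 * c + 1 * 0)) :=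
    (tendsto_inv_atTop_zero.mul_const c).add (h2.mul h1)
  rw [zero_mul, one_mul, add_zero] at h4
  refine squeeze_zero' ?_ ?_ h4
  · filter_upwards [eventually_gt_atTop 0] with R hR
    exact mul_nonneg (inv_nonneg.2 hR.le) (integral_nonneg hf)
  · filter_upwards [eventually_ge_atTop 1] with R hR
    have hR0 : 0 < R := by linarith
    have hRρ : 0 < R + ρ := by linarith
    have e : R⁻¹ * c + (R⁻¹ * (R + ρ)) * ((R + ρ)⁻¹ *
        ∫ x in {x : E3 | 1 < ‖x‖ ∧ ‖x‖ < R + ρ}, H x) =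
        R⁻¹ * (c + ∫ x in {x : E3 | 1 < ‖x‖ ∧ ‖x‖ < R + ρ}, H x) := by
      field_simp
    rw [e]
    refine mul_le_mul_of_nonneg_left ?_ (inv_nonneg.2 hR0.le)
    set A : Set E3 := {x : E3 | 1 < ‖x‖ ∧ ‖x‖ < R + ρ} with hA
    have hmA : MeasurableSet A :=
      (isOpen_lt continuous_const continuous_norm).measurableSet.inter
        (isOpen_lt continuous_norm continuous_const).measurableSet
    have hAs : A ⊆ Metric.ball (0 : E3) (R + ρ) := fun x hx => by
      rw [mem_ball_zero_iff]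
      exact hx.2
    have hcs : Metric.closedBall (0 : E3) 1 ⊆ Metric.ball (0 : E3) (R + ρ) :=
      Metric.closedBall_subset_ball (by linarith)
    have hun : Metric.ball (0 : E3) (R + ρ) = Metric.closedBall (0 : E3) 1 ∪ A := by
      refine Subset.antisymm (fun x hx => ?_) (union_subset hcs hAs)
      rw [mem_ball_zero_iff] at hx
      by_cases h : ‖x‖ ≤ 1
      · left
        rwa [mem_closedBall_zero_iff]
      · right
        exact ⟨not_le.1 h, hx⟩
    have hdis : Disjoint (Metric.closedBall (0 : E3) 1) A := by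
      rw [Set.disjoint_left]
      intro x hx hx2
      rw [mem_closedBall_zero_iff] at hx
      exact absurd hx2.1 (not_lt.2 hx)
    have hi := hfi (R + ρ) (by linarith)
    rw [hun, setIntegral_union hdis hmA (hi.mono_set hcs) (hi.mono_set hAs)]
    refine add_le_add le_rfl ?_
    exact integral_mono (hi.mono_set hAs) ((hHi (R + ρ) (by linarith)).mono_set hAs) hle

theorem moll_rad {s : ℝ} {k : ℝ} (hk : 0 < k) {m : E3 → ℂ} (hm : BStar m)
    {w : Fin 3 → E3 → ℂ} (hw : ∀ j, BStar (w j))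
    (hr : Tendsto (fun R : ℝ => R⁻¹ * ∫ x in {x : E3 | 1 < ‖x‖ ∧ ‖x‖ < R},
      ∑ j, ‖w j x - Complex.I * ((k ^ s : ℝ) : ℂ) * ((x j / ‖x‖ : ℝ) : ℂ) * m x‖ ^ 2)
      atTop (𝓝 0))
    {φ : E3 → ℂ} (hφ : ContDiff ℝ ∞ φ) (hc : HasCompactSupport φ) :
    Tendsto (fun R : ℝ => R⁻¹ * ∫ x in {x : E3 | 1 < ‖x‖ ∧ ‖x‖ < R},
      ∑ j, ‖((k ^ (1 - s) : ℝ) : ℂ) * moll (w j) φ x -
        Complex.I * k * ((x j / ‖x‖ : ℝ) : ℂ) * moll m φ x‖ ^ 2) atTop (𝓝 0) := by
  obtain ⟨Φ, hΦ⟩ := hc.exists_bound_of_continuous hφ.continuous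
  obtain ⟨r, hr0⟩ := hc.isBounded.subset_closedBall (0 : E3)
  set ρ : ℝ := |r| + 1 with hρdef
  have hρ : 0 < ρ := by positivity
  have hφρ : ∀ z, ρ ≤ ‖z‖ → φ z = 0 := fun z hz => by
    by_contra h
    have h1 := hr0 (subset_tsupport φ (Function.mem_support.2 h))
    rw [mem_closedBall_zero_iff] at h1
    have := le_abs_self r
    linarith
  set F : Fin 3 → E3 → ℂ := fun j y =>
    w j y - Complex.I * ((k ^ s : ℝ) : ℂ) * ((y j / ‖y‖ : ℝ) : ℂ) * m y with hF
  set G : Fin 3 → E3 → ℂ := fun j x => ((k ^ (1 - s) : ℝ) : ℂ) * moll (w j) φ x -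
    Complex.I * k * ((x j / ‖x‖ : ℝ) : ℂ) * moll m φ x with hG
  have hFB : ∀ j, BStar (F j) := fun j => by
    have h1 := (hw j).add
      ((mb_bdd hm (mb_measu j) (mb_u_le j)).const_mul (-(Complex.I * ((k ^ s : ℝ) : ℂ))))
    have h2 : (fun x => w j x + -(Complex.I * ((k ^ s : ℝ) : ℂ)) *
        (((x j / ‖x‖ : ℝ) : ℂ) * m x)) = F j := by
      funext x
      simp only [hF]
      ring
    rwa [h2] at h1
  have hGm : ∀ j, Measurable (G j) := fun j => by
    have h1 := (moll_smooth (hw j) hφ hc).continuous.measurable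
    have h2 := (moll_smooth hm hφ hc).continuous.measurable
    exact (h1.const_mul _).sub (((mb_measu j).const_mul _).mul h2)
  obtain ⟨hmm, C, hC⟩ := hm
  set V : ℝ := (volume (Metric.ball (0 : E3) ρ)).toReal with hV
  have hVtop : volume (Metric.ball (0 : E3) ρ) ≠ ⊤ := measure_ball_lt_top.ne
  have hV0 : 0 ≤ V := ENNReal.toReal_nonneg
  set K : ℝ := 2 * Φ ^ 2 * ((k ^ (1 - s)) ^ 2 + (2 * k * ρ) ^ 2) with hKdef
  have hK0 : 0 ≤ K := by positivity
  -- the bound
  set B : Fin 3 → ℝ → ℝ := fun j R => K * V * (V * (∫ x in Metric.ball (0 : E3) (R + ρ),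
    ‖F j x‖ ^ 2) + V * (C * (√R + ρ)) + R⁻¹ * (V * (C * (R + ρ)))) with hB
  have e3 : ∀ z : ℂ, ‖z‖ₑ ^ 2 = ENNReal.ofReal (‖z‖ ^ 2) := fun z => by
    rw [ENNReal.ofReal_pow (norm_nonneg _), ofReal_norm]
  have hle : ∀ j R, 1 ≤ R → ∫⁻ x in {x : E3 | 1 < ‖x‖ ∧ ‖x‖ < R}, ‖G j x‖ₑ ^ 2 ≤
      ENNReal.ofReal (B j R) := by
    intro j R hR
    have hR0 : 0 < R := by linarith
    have h1 := mb_int (G := G j) (F := F j) (m := m) (ρ := ρ)
      (K := ENNReal.ofReal K * volume (Metric.ball (0 : E3) ρ))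
      (ENNReal.mul_ne_top ENNReal.ofReal_ne_top hVtop) (hFB j).1 hmm
      (fun x hx => mb_point hk ⟨hmm, C, hC⟩ (hw j) hφ.continuous hc hρ hφρ hΦ j x hx) hR
    refine h1.trans ?_
    have hsq : 1 ≤ √R := by rw [Real.one_le_sqrt]; exact hR
    have hint : ∀ T, 1 ≤ T → ∫⁻ y in Metric.ball (0 : E3) T, ‖m y‖ₑ ^ 2 ≤
        ENNReal.ofReal (C * T) := fun T hT => by
      obtain ⟨a, b⟩ := hC T hT
      simp only [e3]
      rw [← ofReal_integral_eq_lintegral_ofReal a
        (Eventually.of_forall fun x => by positivity)]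
      exact ENNReal.ofReal_le_ofReal b
    have hC0 : ∀ T, 1 ≤ T → 0 ≤ C * T := fun T hT =>
      (integral_nonneg fun x => by positivity).trans (hC T hT).2
    obtain ⟨D, hD⟩ := (hFB j).2
    have hintF : ∫⁻ y in Metric.ball (0 : E3) (R + ρ), ‖F j y‖ₑ ^ 2 =
        ENNReal.ofReal (∫ y in Metric.ball (0 : E3) (R + ρ), ‖F j y‖ ^ 2) := by
      simp only [e3]
      exact (ofReal_integral_eq_lintegral_ofReal (hD (R + ρ) (by linarith)).1
        (Eventually.of_forall fun x => by positivity)).symm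
    have hI0 : 0 ≤ ∫ y in Metric.ball (0 : E3) (R + ρ), ‖F j y‖ ^ 2 :=
      integral_nonneg fun x => by positivity
    have ha := hC0 (√R + ρ) (by linarith)
    have hb := hC0 (R + ρ) (by linarith)
    rw [hintF, ← ENNReal.ofReal_toReal hVtop, ← hV]
    calc _ ≤ ENNReal.ofReal K * ENNReal.ofReal V * (ENNReal.ofReal V *
          ENNReal.ofReal (∫ y in Metric.ball (0 : E3) (R + ρ), ‖F j y‖ ^ 2) +
          ENNReal.ofReal V * ENNReal.ofReal (C * (√R + ρ)) +
          ENNReal.ofReal R⁻¹ * (ENNReal.ofReal V * ENNReal.ofReal (C * (R + ρ)))) := by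
          gcongr
          · exact hint _ (by linarith)
          · exact hint _ (by linarith)
      _ = ENNReal.ofReal (B j R) := by
          simp only [hB]
          rw [← ENNReal.ofReal_mul hK0, ← ENNReal.ofReal_mul hV0, ← ENNReal.ofReal_mul hV0,
            ← ENNReal.ofReal_mul hV0, ← ENNReal.ofReal_mul (inv_nonneg.2 hR0.le),
            ← ENNReal.ofReal_add (by positivity) (by positivity),
            ← ENNReal.ofReal_add (by positivity) (by positivity),
            ← ENNReal.ofReal_mul (by positivity)]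
  have hB0 : ∀ j R, 1 ≤ R → 0 ≤ B j R := by
    intro j R hR
    have hC0 : ∀ T, 1 ≤ T → 0 ≤ C * T := fun T hT =>
      (integral_nonneg fun x => by positivity).trans (hC T hT).2
    have hI0 : 0 ≤ ∫ y in Metric.ball (0 : E3) (R + ρ), ‖F j y‖ ^ 2 :=
      integral_nonneg fun x => by positivity
    have hsq : 1 ≤ √R := by rw [Real.one_le_sqrt]; exact hR
    have ha := hC0 (√R + ρ) (by linarith)
    have hb := hC0 (R + ρ) (by linarith)
    have hR0 : 0 < R := by linarith
    simp only [hB]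
    positivity
  have hBlim : ∀ j, Tendsto (fun R => R⁻¹ * B j R) atTop (𝓝 0) := by
    intro j
    have h1 : Tendsto (fun R : ℝ => R⁻¹ * ∫ x in Metric.ball (0 : E3) (R + ρ), ‖F j x‖ ^ 2)
        atTop (𝓝 0) := by
      refine mb_small (H := fun x => ∑ i, ‖F i x‖ ^ 2)
        (fun x => by positivity) (fun x => ?_) (fun R hR => ?_) (fun R hR => ?_) hr hρ
      · exact Finset.single_le_sum (f := fun i => ‖F i x‖ ^ 2) (fun i _ => by positivity)
          (Finset.mem_univ j)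
      · exact ((hFB j).2.choose_spec R hR).1
      · exact integrable_finsetSum _ fun i _ => ((hFB i).2.choose_spec R hR).1
    have h2 : Tendsto (fun R : ℝ => R⁻¹ * (√R + ρ)) atTop (𝓝 0) := by
      have h3 : Tendsto (fun R : ℝ => (√R)⁻¹ + R⁻¹ * ρ) atTop (𝓝 (0 + 0 * ρ)) :=
        (tendsto_inv_atTop_zero.comp Real.tendsto_sqrt_atTop).add
          (tendsto_inv_atTop_zero.mul_const ρ)
      rw [zero_mul, add_zero] at h3
      refine h3.congr' ?_
      filter_upwards [eventually_gt_atTop 0] with R hR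
      have h5 : 0 < √R := Real.sqrt_pos.2 hR
      have h6 : R⁻¹ * √R = (√R)⁻¹ := by
        rw [inv_mul_eq_div, div_eq_iff hR.ne', eq_comm, inv_mul_eq_div, div_eq_iff h5.ne']
        exact (Real.mul_self_sqrt hR.le).symm
      rw [mul_add R⁻¹ (√R) ρ, h6]
    have h3 : Tendsto (fun R : ℝ => R⁻¹ * (R⁻¹ * (R + ρ))) atTop (𝓝 0) := by
      have h4 : Tendsto (fun R : ℝ => R⁻¹ + R⁻¹ * R⁻¹ * ρ) atTop (𝓝 (0 + 0 * 0 * ρ)) :=
        tendsto_inv_atTop_zero.add
          ((tendsto_inv_atTop_zero.mul tendsto_inv_atTop_zero).mul_const ρ)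
      rw [zero_mul, zero_mul, add_zero] at h4
      refine h4.congr' ?_
      filter_upwards [eventually_gt_atTop 0] with R hR
      field_simp
    have h4 := (((h1.const_mul V).add (h2.const_mul (V * C))).add
      (h3.const_mul (V * C))).const_mul (K * V)
    rw [mul_zero, mul_zero, add_zero, add_zero, mul_zero] at h4
    refine h4.congr fun R => ?_
    simp only [hB]
    ring
  have hsum : Tendsto (fun R => ∑ j, R⁻¹ * B j R) atTop (𝓝 0) := by
    have := tendsto_finsetSum Finset.univ fun j _ => hBlim j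
    simpa using this
  refine squeeze_zero' ?_ ?_ hsum
  · filter_upwards [eventually_gt_atTop 0] with R hR
    exact mul_nonneg (inv_nonneg.2 hR.le) (integral_nonneg fun x => by positivity)
  · filter_upwards [eventually_ge_atTop 1] with R hR
    have hR0 : 0 < R := by linarith
    rw [← Finset.mul_sum]
    refine mul_le_mul_of_nonneg_left ?_ (inv_nonneg.2 hR0.le)
    refine (le_abs_self _).trans ?_
    rw [← Real.norm_eq_abs]
    refine (norm_integral_le_lintegral_norm _).trans ?_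
    refine ENNReal.toReal_le_of_le_ofReal (Finset.sum_nonneg fun j _ => hB0 j R hR) ?_
    rw [ENNReal.ofReal_sum_of_nonneg fun j _ => hB0 j R hR]
    have e4 : ∀ x : E3, ENNReal.ofReal ‖∑ j, ‖G j x‖ ^ 2‖ = ∑ j, ‖G j x‖ₑ ^ 2 := fun x => by
      rw [Real.norm_of_nonneg (by positivity), ENNReal.ofReal_sum_of_nonneg
        fun j _ => by positivity]
      exact Finset.sum_congr rfl fun j _ => (e3 _).symm
    have e5 : ∫⁻ x in {x : E3 | 1 < ‖x‖ ∧ ‖x‖ < R}, ENNReal.ofReal ‖∑ j, ‖G j x‖ ^ 2‖ =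
        ∑ j, ∫⁻ x in {x : E3 | 1 < ‖x‖ ∧ ‖x‖ < R}, ‖G j x‖ₑ ^ 2 := by
      simp only [e4]
      exact lintegral_finsetSum _ fun j _ => (hGm j).enorm.pow_const 2
    exact e5.le.trans (Finset.sum_le_sum fun j _ => hle j R hR)

end FracScat

end
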