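import Pool.Agent.Lib.MP_6e2ba5_an.RellA
import Pool.Agent.Lib.MP_6e2ba5_an.Green

/-! # A smooth outgoing entire solution of the Helmholtz equation vanishes at the origin

Let `η = χ(|x|/R)`, `χ` smooth, `χ = 1` on `(-∞,1]`, `χ = 0` on `[2,∞)`. `ηM` is smooth with compact
support, `(Δ + k²)(ηM) = 2∇η·∇M + M Δη`, so by `green_rep`
`M(0) = -∫ Phi k (2∇η·∇M + M Δη)`, where `|∇η| ≤ C/R`, `|Δη| ≤ C/R²`,
`|Phi k| ≤ 1/(4πR)` on the shell `R < |x| < 2R`; Cauchy-Schwarz with `shell_small`: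
`|M(0)| ≤ C R⁻² R^(3/2) o(R)^(1/2) + C R⁻³ R^(3/2) o(R)^(1/2) → 0`. -/

set_option autoImplicit false

open MeasureTheory Filter Topology Set
open scoped FourierTransform SchwartzMap InnerProductSpace ENNReal ContDiff

noncomputable section

namespace FracScat

/-! ### Calculus of partial derivatives -/

private theorem RB_pd_smooth {M : E3 → ℂ} (hM : ContDiff ℝ ∞ M) (j : Fin 3) :
    ContDiff ℝ ∞ (pd j M) := by
  unfold pd
  exact (contDiff_infty_iff_fderiv.1 hM).2.clm_apply contDiff_const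

private theorem RB_pd_mul {F G : E3 → ℂ} (hF : ContDiff ℝ ∞ F) (hG : ContDiff ℝ ∞ G) (j : Fin 3) :
    pd j (fun x => F x * G x) = fun x => pd j F x * G x + F x * pd j G x := by
  funext x
  have h1 : HasFDerivAt F (fderiv ℝ F x) x := (hF.differentiable (by simp) x).hasFDerivAt
  have h2 : HasFDerivAt G (fderiv ℝ G x) x := (hG.differentiable (by simp) x).hasFDerivAt
  have h3 := (h1.mul h2).fderiv
  have h4 : fderiv ℝ (fun x => F x * G x) x = _ := h3
  unfold pd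
  rw [h4]
  simp only [_root_.add_apply, _root_.smul_apply, smul_eq_mul]
  ring

private theorem RB_pd_add {F G : E3 → ℂ} (hF : ContDiff ℝ ∞ F) (hG : ContDiff ℝ ∞ G) (j : Fin 3) :
    pd j (fun x => F x + G x) = fun x => pd j F x + pd j G x := by
  funext x
  have h1 : HasFDerivAt F (fderiv ℝ F x) x := (hF.differentiable (by simp) x).hasFDerivAt
  have h2 : HasFDerivAt G (fderiv ℝ G x) x := (hG.differentiable (by simp) x).hasFDerivAt
  have h3 := (h1.add h2).fderiv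
  have h4 : fderiv ℝ (fun x => F x + G x) x = _ := h3
  unfold pd
  rw [h4]
  simp only [_root_.add_apply]

private theorem RB_pd_pd_mul {F G : E3 → ℂ} (hF : ContDiff ℝ ∞ F) (hG : ContDiff ℝ ∞ G)
    (j : Fin 3) (x : E3) : pd j (pd j (fun x => F x * G x)) x =
      pd j (pd j F) x * G x + 2 * (pd j F x * pd j G x) + F x * pd j (pd j G) x := by
  rw [RB_pd_mul hF hG, RB_pd_add ((RB_pd_smooth hF j).mul hG) (hF.mul (RB_pd_smooth hG j)),
    RB_pd_mul (RB_pd_smooth hF j) hG, RB_pd_mul hF (RB_pd_smooth hG j)]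
  ring

private theorem RB_lap (u : 𝓢(E3, ℂ)) (x : E3) :
    (Laplacian.laplacian u : 𝓢(E3, ℂ)) x = ∑ j, pd j (pd j (u : E3 → ℂ)) x := by
  rw [SchwartzMap.laplacian_eq_sum (EuclideanSpace.basisFun (Fin 3) ℝ), _root_.sum_apply]
  refine Finset.sum_congr rfl fun j _ => ?_
  rw [SchwartzMap.lineDerivOp_apply_eq_fderiv]
  unfold pd
  rw [EuclideanSpace.basisFun_apply]
  congr 2

/-! ### The cutoff -/

private def RBb : ContDiffBump (0 : E3) := ⟨1, 2, by norm_num, by norm_num⟩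

private def RBc (x : E3) : ℂ := ((RBb x : ℝ) : ℂ)

private theorem RBc_smooth : ContDiff ℝ ∞ RBc := Complex.ofRealCLM.contDiff.comp RBb.contDiff

private theorem RBc_one {x : E3} (hx : ‖x‖ ≤ 1) : RBc x = 1 := by
  unfold RBc
  rw [RBb.one_of_mem_closedBall]
  · simp
  · rw [Metric.mem_closedBall, dist_zero_right]
    exact hx

private theorem RBc_zero {x : E3} (hx : 2 ≤ ‖x‖) : RBc x = 0 := by
  unfold RBc
  rw [RBb.zero_of_le_dist]
  · simp
  · rw [dist_zero_right]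
    exact hx

private theorem RBc_cpt : HasCompactSupport RBc := by
  refine HasCompactSupport.of_support_subset_isCompact (isCompact_closedBall (0 : E3) 2) ?_
  intro x hx
  rw [Metric.mem_closedBall, dist_zero_right]
  by_contra h
  push Not at h
  exact hx (RBc_zero h.le)

private theorem RB_pd_cpt {F : E3 → ℂ} (hF : HasCompactSupport F) (j : Fin 3) :
    HasCompactSupport (pd j F) := hF.fderiv_apply ℝ (EuclideanSpace.single j (1 : ℝ))

private theorem RB_pd_locconst {F : E3 → ℂ} {x : E3} {c : ℂ} (h : ∀ᶠ y in 𝓝 x, F y = c)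
    (j : Fin 3) : ∀ᶠ y in 𝓝 x, pd j F y = 0 := by
  filter_upwards [h.eventually_nhds] with y hy
  unfold pd
  have : F =ᶠ[𝓝 y] fun _ => c := hy
  rw [this.fderiv_eq]
  simp

private theorem RB_pd_scale {F : E3 → ℂ} (hF : ContDiff ℝ ∞ F) (j : Fin 3) (r : ℝ) :
    pd j (fun x => F (r • x)) = fun x => (r : ℂ) * pd j F (r • x) := by
  funext x
  have h1 : HasFDerivAt F (fderiv ℝ F (r • x)) (r • x) :=
    (hF.differentiable (by simp) _).hasFDerivAt
  have h2 : HasFDerivAt (fun x : E3 => r • x) (r • ContinuousLinearMap.id ℝ E3) x :=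
    (hasFDerivAt_id x).const_smul r
  have h3 := (h1.comp x h2).fderiv
  have h4 : fderiv ℝ (fun x => F (r • x)) x = _ := h3
  unfold pd
  rw [h4]
  simp

private theorem RB_scale_smooth {F : E3 → ℂ} (hF : ContDiff ℝ ∞ F) (r : ℝ) :
    ContDiff ℝ ∞ (fun x => F (r • x)) := hF.comp (contDiff_const_smul r)

private theorem RB_pd_const_mul {F : E3 → ℂ} (hF : ContDiff ℝ ∞ F) (j : Fin 3) (c : ℂ) :
    pd j (fun x => c * F x) = fun x => c * pd j F x := by
  funext x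
  have h1 : HasFDerivAt F (fderiv ℝ F x) x := (hF.differentiable (by simp) _).hasFDerivAt
  have h3 := (h1.const_mul c).fderiv
  have h4 : fderiv ℝ (fun x => c * F x) x = _ := h3
  unfold pd
  rw [h4]
  simp

private theorem RB_pd_pd_scale {F : E3 → ℂ} (hF : ContDiff ℝ ∞ F) (j : Fin 3) (r : ℝ) (x : E3) :
    pd j (pd j (fun x => F (r • x))) x = (r : ℂ) ^ 2 * pd j (pd j F) (r • x) := by
  rw [RB_pd_scale hF, RB_pd_const_mul (RB_scale_smooth (RB_pd_smooth hF j) r),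
    RB_pd_scale (RB_pd_smooth hF j)]
  ring

private theorem RB_bounds : ∃ C : ℝ, 0 ≤ C ∧ ∀ (j : Fin 3) (x : E3),
    ‖pd j RBc x‖ ≤ C ∧ ‖pd j (pd j RBc) x‖ ≤ C := by
  have h1 : ∀ j : Fin 3, ∃ C : ℝ, ∀ x, ‖pd j RBc x‖ ≤ C := fun j =>
    (RB_pd_cpt RBc_cpt j).exists_bound_of_continuous (RB_pd_smooth RBc_smooth j).continuous
  have h2 : ∀ j : Fin 3, ∃ C : ℝ, ∀ x, ‖pd j (pd j RBc) x‖ ≤ C := fun j =>
    (RB_pd_cpt (RB_pd_cpt RBc_cpt j) j).exists_bound_of_continuous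
      (RB_pd_smooth (RB_pd_smooth RBc_smooth j) j).continuous
  choose C1 hC1 using h1
  choose C2 hC2 using h2
  refine ⟨∑ j, (|C1 j| + |C2 j|), by positivity, fun j x => ?_⟩
  have h3 : |C1 j| + |C2 j| ≤ ∑ j, (|C1 j| + |C2 j|) :=
    Finset.single_le_sum (f := fun j => |C1 j| + |C2 j|) (fun _ _ => by positivity)
      (Finset.mem_univ j)
  constructor
  · have := hC1 j x
    linarith [le_abs_self (C1 j), abs_nonneg (C2 j)]
  · have := hC2 j x
    linarith [le_abs_self (C2 j), abs_nonneg (C1 j)]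

private theorem RB_locconst_in {F : E3 → ℂ} {R : ℝ} (hR : 0 < R) (hF : ∀ x : E3, ‖x‖ ≤ 1 → F x = 1)
    {x : E3} (hx : ‖x‖ < R) : ∀ᶠ y in 𝓝 x, F (R⁻¹ • y) = 1 := by
  have h1 : ∀ᶠ y in 𝓝 x, ‖y‖ < R := (continuous_norm.tendsto x).eventually (gt_mem_nhds hx)
  filter_upwards [h1] with y hy
  apply hF
  rw [norm_smul, norm_inv, Real.norm_of_nonneg hR.le, inv_mul_le_iff₀ hR]
  linarith

private theorem RB_locconst_out {F : E3 → ℂ} {R : ℝ} (hR : 0 < R)
    (hF : ∀ x : E3, 2 ≤ ‖x‖ → F x = 0)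
    {x : E3} (hx : 2 * R < ‖x‖) : ∀ᶠ y in 𝓝 x, F (R⁻¹ • y) = 0 := by
  have h1 : ∀ᶠ y in 𝓝 x, 2 * R < ‖y‖ := (continuous_norm.tendsto x).eventually (lt_mem_nhds hx)
  filter_upwards [h1] with y hy
  apply hF
  rw [norm_smul, norm_inv, Real.norm_of_nonneg hR.le, le_inv_mul_iff₀ hR]
  linarith

private theorem RB_key {k : ℝ} (hk : 0 < k) {M : E3 → ℂ} (hM : ContDiff ℝ ∞ M)
    (he : ∀ x, (∑ j, pd j (pd j M) x) + (k : ℂ) ^ 2 * M x = 0) {C : ℝ} (hC0 : 0 ≤ C)
    (hC : ∀ (j : Fin 3) (x : E3), ‖pd j RBc x‖ ≤ C ∧ ‖pd j (pd j RBc) x‖ ≤ C)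
    {R : ℝ} (hR : 1 ≤ R) :
    ‖M 0‖ ≤ ∫ x in {x : E3 | R < ‖x‖ ∧ ‖x‖ < 2 * R},
      (3 * C / R ^ 2) * (‖M x‖ + ∑ j, ‖pd j M x‖) := by
  have hR0 : 0 < R := by linarith
  set η : E3 → ℂ := fun x => RBc (R⁻¹ • x) with hη
  have hηs : ContDiff ℝ ∞ η := RB_scale_smooth RBc_smooth R⁻¹
  have hus : ContDiff ℝ ∞ (fun x => η x * M x) := hηs.mul hM
  have hηo : ∀ x : E3, 2 * R < ‖x‖ → ∀ᶠ y in 𝓝 x, η y = 0 := fun x hx =>
    RB_locconst_out hR0 (fun y hy => RBc_zero hy) hx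
  have hηi : ∀ x : E3, ‖x‖ < R → ∀ᶠ y in 𝓝 x, η y = 1 := fun x hx =>
    RB_locconst_in hR0 (fun y hy => RBc_one hy) hx
  have huc : HasCompactSupport (fun x => η x * M x) := by
    refine HasCompactSupport.of_support_subset_isCompact
      (isCompact_closedBall (0 : E3) (2 * R)) ?_
    intro x hx
    rw [Metric.mem_closedBall, dist_zero_right]
    by_contra h
    push Not at h
    apply hx
    show η x * M x = 0
    rw [(hηo x h).self_of_nhds, zero_mul]
  set u : 𝓢(E3, ℂ) := huc.toSchwartzMap hus with hu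
  have hux : ∀ x, u x = η x * M x := fun x => rfl
  have huf : (u : E3 → ℂ) = fun x => η x * M x := rfl
  have h0 : u 0 = M 0 := by
    rw [hux, (hηi 0 (by simpa using hR0)).self_of_nhds, one_mul]
  have hL : ∀ x, (Laplacian.laplacian u : 𝓢(E3, ℂ)) x + (k : ℂ) ^ 2 * u x =
      ∑ j, (pd j (pd j η) x * M x + 2 * (pd j η x * pd j M x)) := by
    intro x
    rw [RB_lap, huf]
    simp_rw [RB_pd_pd_mul hηs hM]
    rw [Finset.sum_add_distrib, ← Finset.mul_sum]
    linear_combination η x * he x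
  have hg := green_rep hk u
  rw [h0] at hg
  rw [hg, norm_neg]
  have hz : ∀ x : E3, (‖x‖ < R ∨ 2 * R < ‖x‖) →
      Phi k x * ((Laplacian.laplacian u : 𝓢(E3, ℂ)) x + (k : ℂ) ^ 2 * u x) = 0 := by
    intro x hx
    obtain ⟨c, hc⟩ : ∃ c : ℂ, ∀ᶠ y in 𝓝 x, η y = c := by
      rcases hx with hx | hx
      · exact ⟨1, hηi x hx⟩
      · exact ⟨0, hηo x hx⟩
    rw [hL]
    have h1 : ∀ j, pd j η x = 0 := fun j => (RB_pd_locconst hc j).self_of_nhds
    have h2 : ∀ j, pd j (pd j η) x = 0 := fun j =>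
      (RB_pd_locconst (RB_pd_locconst hc j) j).self_of_nhds
    simp [h1, h2]
  have hae : ∀ᵐ x ∂(volume : Measure E3), ‖x‖ ≠ R ∧ ‖x‖ ≠ 2 * R := by
    have h1 : ∀ r : ℝ, ∀ᵐ x ∂(volume : Measure E3), ‖x‖ ≠ r := by
      intro r
      rw [ae_iff]
      have : {x : E3 | ¬ ‖x‖ ≠ r} = Metric.sphere 0 r := by
        ext x
        simp
      rw [this]
      exact Measure.addHaar_sphere _ _ _
    filter_upwards [h1 R, h1 (2 * R)] with x a b
    exact ⟨a, b⟩
  rw [← setIntegral_eq_integral_of_ae_compl_eq_zero (s := {x : E3 | R < ‖x‖ ∧ ‖x‖ < 2 * R})]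
  swap
  · filter_upwards [hae] with x hx hxs
    apply hz
    by_contra h
    push Not at h
    exact hxs ⟨lt_of_le_of_ne h.1 hx.1.symm, lt_of_le_of_ne h.2 hx.2⟩
  have hm2 : MeasurableSet {x : E3 | R < ‖x‖ ∧ ‖x‖ < 2 * R} := by
    exact (measurableSet_lt measurable_const measurable_norm).inter
      (measurableSet_lt measurable_norm measurable_const)
  refine norm_integral_le_of_norm_le ?_ ?_
  · have hc : Continuous (fun x : E3 => (3 * C / R ^ 2) * (‖M x‖ + ∑ j, ‖pd j M x‖)) := by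
      refine continuous_const.mul (hM.continuous.norm.add ?_)
      exact continuous_finsetSum _ fun j _ => (RB_pd_smooth hM j).continuous.norm
    refine (hc.continuousOn.integrableOn_compact
      (isCompact_closedBall (0 : E3) (2 * R))).mono_set ?_
    rintro x ⟨_, hx2⟩
    rw [Metric.mem_closedBall, dist_zero_right]
    exact hx2.le
  · filter_upwards [ae_restrict_mem hm2] with x hx
    obtain ⟨hx1, hx2⟩ := hx
    have hx0 : 0 < ‖x‖ := hR0.trans hx1
    rw [norm_mul, hL]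
    have hPhi : ‖Phi k x‖ ≤ 1 / R := by
      unfold Phi
      rw [norm_div, Complex.norm_exp]
      have h2 : ‖(4 * (Real.pi : ℂ) * (‖x‖ : ℂ))‖ = 4 * Real.pi * ‖x‖ := by
        simp [abs_of_pos Real.pi_pos]
      rw [h2]
      have h3 : (Complex.I * (k : ℂ) * (‖x‖ : ℂ)).re = 0 := by simp
      rw [h3, Real.exp_zero]
      refine one_div_le_one_div_of_le hR0 ?_
      nlinarith [Real.pi_gt_three]
    have h1 : ∀ j, ‖pd j η x‖ ≤ C / R := by
      intro j
      rw [hη, RB_pd_scale RBc_smooth]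
      simp only
      rw [norm_mul, Complex.norm_real, norm_inv, Real.norm_of_nonneg hR0.le, inv_mul_eq_div]
      exact div_le_div_of_nonneg_right (hC j _).1 hR0.le
    have h2 : ∀ j, ‖pd j (pd j η) x‖ ≤ C / R := by
      intro j
      rw [hη, RB_pd_pd_scale RBc_smooth]
      rw [norm_mul, norm_pow, Complex.norm_real, norm_inv, Real.norm_of_nonneg hR0.le]
      have h3 : R⁻¹ ^ 2 ≤ R⁻¹ := by
        rw [pow_two]
        have : R⁻¹ ≤ 1 := inv_le_one_of_one_le₀ hR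
        exact mul_le_of_le_one_left (by positivity) this
      calc R⁻¹ ^ 2 * ‖pd j (pd j RBc) (R⁻¹ • x)‖ ≤ R⁻¹ * C :=
            mul_le_mul h3 (hC j _).2 (norm_nonneg _) (by positivity)
        _ = C / R := by rw [inv_mul_eq_div]
    have h3 : ‖∑ j, (pd j (pd j η) x * M x + 2 * (pd j η x * pd j M x))‖ ≤
        3 * C / R * (‖M x‖ + ∑ j, ‖pd j M x‖) := by
      have h4 : ∀ j, ‖pd j (pd j η) x * M x + 2 * (pd j η x * pd j M x)‖ ≤
          C / R * ‖M x‖ + 2 * (C / R * ‖pd j M x‖) := by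
        intro j
        refine (norm_add_le _ _).trans ?_
        rw [norm_mul, norm_mul, norm_mul, Complex.norm_two]
        have a := mul_le_mul_of_nonneg_right (h2 j) (norm_nonneg (M x))
        have b := mul_le_mul_of_nonneg_right (h1 j) (norm_nonneg (pd j M x))
        linarith
      refine (norm_sum_le_of_le _ fun j _ => h4 j).trans ?_
      have h7 : ∑ j, (C / R * ‖M x‖ + 2 * (C / R * ‖pd j M x‖)) =
          3 * (C / R * ‖M x‖) + 2 * (C / R * ∑ j, ‖pd j M x‖) := by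
        rw [Fin.sum_univ_three, Fin.sum_univ_three]
        ring
      rw [h7]
      have h5 : 0 ≤ C / R * ∑ j, ‖pd j M x‖ := by positivity
      have h6 : 3 * C / R * (‖M x‖ + ∑ j, ‖pd j M x‖) =
          3 * (C / R * ‖M x‖) + 3 * (C / R * ∑ j, ‖pd j M x‖) := by ring
      rw [h6]
      linarith
    calc ‖Phi k x‖ * ‖∑ j, (pd j (pd j η) x * M x + 2 * (pd j η x * pd j M x))‖
        ≤ 1 / R * (3 * C / R * (‖M x‖ + ∑ j, ‖pd j M x‖)) :=
          mul_le_mul hPhi h3 (norm_nonneg _) (by positivity)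
      _ = 3 * C / R ^ 2 * (‖M x‖ + ∑ j, ‖pd j M x‖) := by
          field_simp

private theorem RB_final {k : ℝ} (hk : 0 < k) {M : E3 → ℂ} (hM : ContDiff ℝ ∞ M)
    (he : ∀ x, (∑ j, pd j (pd j M) x) + (k : ℂ) ^ 2 * M x = 0) {C : ℝ} (hC0 : 0 ≤ C)
    (hC : ∀ (j : Fin 3) (x : E3), ‖pd j RBc x‖ ≤ C ∧ ‖pd j (pd j RBc) x‖ ≤ C)
    {R : ℝ} (hR : 1 ≤ R) {δ : ℝ} (hδ : 0 < δ) :
    ‖M 0‖ ≤ 12 * C * volume.real (Metric.ball (0 : E3) 1) * δ +
      6 * C / δ * (R⁻¹ * ∫ x in {x : E3 | R < ‖x‖ ∧ ‖x‖ < 2 * R},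
        (‖M x‖ ^ 2 + ∑ j, ‖pd j M x‖ ^ 2)) := by
  have hR0 : 0 < R := by linarith
  refine (RB_key hk hM he hC0 hC hR).trans ?_
  have hm2 : MeasurableSet {x : E3 | R < ‖x‖ ∧ ‖x‖ < 2 * R} := by
    exact (measurableSet_lt measurable_const measurable_norm).inter
      (measurableSet_lt measurable_norm measurable_const)
  have hsub : {x : E3 | R < ‖x‖ ∧ ‖x‖ < 2 * R} ⊆ Metric.closedBall (0 : E3) (2 * R) := by
    rintro x ⟨_, hx2⟩
    rw [Metric.mem_closedBall, dist_zero_right]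
    exact hx2.le
  have hi : ∀ g : E3 → ℝ, Continuous g → IntegrableOn g {x : E3 | R < ‖x‖ ∧ ‖x‖ < 2 * R} :=
    fun g hg => (hg.continuousOn.integrableOn_compact
      (isCompact_closedBall (0 : E3) (2 * R))).mono_set hsub
  have hc1 : Continuous (fun x : E3 => (3 * C / R ^ 2) * (‖M x‖ + ∑ j, ‖pd j M x‖)) := by
    refine continuous_const.mul (hM.continuous.norm.add ?_)
    exact continuous_finsetSum _ fun j _ => (RB_pd_smooth hM j).continuous.norm
  have hcN : Continuous (fun x : E3 => ‖M x‖ ^ 2 + ∑ j, ‖pd j M x‖ ^ 2) := by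
    refine (hM.continuous.norm.pow 2).add ?_
    exact continuous_finsetSum _ fun j _ => (RB_pd_smooth hM j).continuous.norm.pow 2
  have h1 : ∫ x in {x : E3 | R < ‖x‖ ∧ ‖x‖ < 2 * R},
      (3 * C / R ^ 2) * (‖M x‖ + ∑ j, ‖pd j M x‖) ≤
      ∫ x in {x : E3 | R < ‖x‖ ∧ ‖x‖ < 2 * R},
        (3 * C / R ^ 2 * (δ / (2 * R)) + 6 * C / δ * R⁻¹ * (‖M x‖ ^ 2 + ∑ j, ‖pd j M x‖ ^ 2)) := by
    refine setIntegral_mono_on (hi _ hc1) (hi _ (continuous_const.add (continuous_const.mul hcN)))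
      hm2 ?_
    intro x _
    have h2 : ‖M x‖ + ∑ j, ‖pd j M x‖ ≤
        δ / (2 * R) + 2 * R / δ * (‖M x‖ ^ 2 + ∑ j, ‖pd j M x‖ ^ 2) := by
      rw [Fin.sum_univ_three, Fin.sum_univ_three]
      set a := ‖M x‖
      set b := ‖pd 0 M x‖
      set c := ‖pd 1 M x‖
      set d := ‖pd 2 M x‖
      have h3 : (a + (b + c + d)) ^ 2 ≤ 4 * (a ^ 2 + (b ^ 2 + c ^ 2 + d ^ 2)) := by
        nlinarith [sq_nonneg (a - b), sq_nonneg (a - c), sq_nonneg (a - d), sq_nonneg (b - c),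
          sq_nonneg (b - d), sq_nonneg (c - d)]
      have h4 : a + (b + c + d) ≤ δ / (2 * R) + R / (2 * δ) * (a + (b + c + d)) ^ 2 := by
        have h5 : δ / (2 * R) + R / (2 * δ) * (a + (b + c + d)) ^ 2 - (a + (b + c + d)) =
            (R * (a + (b + c + d)) - δ) ^ 2 / (2 * R * δ) := by
          field_simp
          ring
        have h6 : 0 ≤ (R * (a + (b + c + d)) - δ) ^ 2 / (2 * R * δ) := by positivity
        linarith
      have h7 : R / (2 * δ) * (a + (b + c + d)) ^ 2 ≤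
          R / (2 * δ) * (4 * (a ^ 2 + (b ^ 2 + c ^ 2 + d ^ 2))) :=
        mul_le_mul_of_nonneg_left h3 (by positivity)
      have h8 : R / (2 * δ) * (4 * (a ^ 2 + (b ^ 2 + c ^ 2 + d ^ 2))) =
          2 * R / δ * (a ^ 2 + (b ^ 2 + c ^ 2 + d ^ 2)) := by
        field_simp
        ring
      linarith
    have h3 := mul_le_mul_of_nonneg_left h2 (by positivity : 0 ≤ 3 * C / R ^ 2)
    refine h3.trans (le_of_eq ?_)
    field_simp
    ring
  refine h1.trans ?_
  have hc2 : Continuous (fun x : E3 =>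
      6 * C / δ * R⁻¹ * (‖M x‖ ^ 2 + ∑ j, ‖pd j M x‖ ^ 2)) := continuous_const.mul hcN
  rw [integral_add (hi _ continuous_const) (hi _ hc2), integral_const_mul (6 * C / δ * R⁻¹)]
  rw [setIntegral_const, smul_eq_mul]
  have hvol : volume.real {x : E3 | R < ‖x‖ ∧ ‖x‖ < 2 * R} ≤
      (2 * R) ^ 3 * volume.real (Metric.ball (0 : E3) 1) := by
    have h2 : volume.real {x : E3 | R < ‖x‖ ∧ ‖x‖ < 2 * R} ≤
        volume.real (Metric.ball (0 : E3) (2 * R)) := by
      refine measureReal_mono ?_ measure_ball_lt_top.ne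
      rintro x ⟨_, hx2⟩
      rw [Metric.mem_ball, dist_zero_right]
      exact hx2
    refine h2.trans (le_of_eq ?_)
    unfold Measure.real
    rw [Measure.addHaar_ball _ _ (by positivity : 0 ≤ 2 * R), finrank_euclideanSpace_fin,
      ENNReal.toReal_mul, ENNReal.toReal_ofReal (by positivity)]
  have h4 : volume.real {x : E3 | R < ‖x‖ ∧ ‖x‖ < 2 * R} * (3 * C / R ^ 2 * (δ / (2 * R))) ≤
      (2 * R) ^ 3 * volume.real (Metric.ball (0 : E3) 1) * (3 * C / R ^ 2 * (δ / (2 * R))) :=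
    mul_le_mul_of_nonneg_right hvol (by positivity)
  have h5 : (2 * R) ^ 3 * volume.real (Metric.ball (0 : E3) 1) *
      (3 * C / R ^ 2 * (δ / (2 * R))) = 12 * C * volume.real (Metric.ball (0 : E3) 1) * δ := by
    field_simp
    ring
  rw [h5] at h4
  rw [mul_assoc (6 * C / δ) R⁻¹]
  linarith

theorem rellich {k : ℝ} (hk : 0 < k) {M : E3 → ℂ} (hM : ContDiff ℝ ∞ M)
    (he : ∀ x, (∑ j, pd j (pd j M) x) + (k : ℂ) ^ 2 * M x = 0)
    (hr : Tendsto (fun R : ℝ => R⁻¹ * ∫ x in {x : E3 | 1 < ‖x‖ ∧ ‖x‖ < R},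
      ∑ j, ‖pd j M x - Complex.I * k * ((x j / ‖x‖ : ℝ) : ℂ) * M x‖ ^ 2) atTop (𝓝 0)) :
    M 0 = 0 := by
  obtain ⟨C, hC0, hC⟩ := RB_bounds
  have h1 := shell_small hk hM he hr
  have h2 : ∀ δ : ℝ, 0 < δ → ‖M 0‖ ≤ 12 * C * volume.real (Metric.ball (0 : E3) 1) * δ := by
    intro δ hδ
    have h3 := (h1.const_mul (6 * C / δ)).const_add
      (12 * C * volume.real (Metric.ball (0 : E3) 1) * δ)
    rw [mul_zero, add_zero] at h3
    refine ge_of_tendsto h3 ?_
    filter_upwards [eventually_ge_atTop 1] with R hR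
    exact RB_final hk hM he hC0 hC hR hδ
  have h3 : ‖M 0‖ ≤ 0 := by
    have h4 : Tendsto (fun δ : ℝ => 12 * C * volume.real (Metric.ball (0 : E3) 1) * δ)
        (𝓝[>] 0) (𝓝 0) := by
      have : Continuous (fun δ : ℝ => 12 * C * volume.real (Metric.ball (0 : E3) 1) * δ) := by
        fun_prop
      have h5 := this.tendsto 0
      simp only [mul_zero] at h5
      exact h5.mono_left nhdsWithin_le_nhds
    refine ge_of_tendsto h4 ?_
    filter_upwards [self_mem_nhdsWithin] with δ hδ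
    exact h2 δ hδ
  exact norm_le_zero_iff.1 h3

end FracScat

end
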