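import Pool.Agent.Lib.MP_6e2ba5_an.MollB
import Pool.Agent.Lib.MP_6e2ba5_an.Rellich

/-! # An outgoing homogeneous solution vanishes

For every smooth `φ` with compact support, `M = moll m φ` satisfies the hypotheses of `rellich`
(`moll_smooth`, `moll_helm`, `moll_grad`, `moll_rad`), so `∫ m φ = M 0 = 0`; then `m = 0` a.e.
(`ae_eq_zero_of_integral_contDiff_smul_eq_zero`). -/

set_option autoImplicit false

open MeasureTheory Filter Topology Set
open scoped FourierTransform SchwartzMap InnerProductSpace ENNReal ContDiff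

noncomputable section

namespace FracScat

/-- A function of class `BStar` is locally integrable. -/
private theorem locInt_of_BStar {m : E3 → ℂ} (hm : BStar m) :
    LocallyIntegrable m (volume : Measure E3) := by
  obtain ⟨hmeas, C, hC⟩ := hm
  intro x
  set R : ℝ := ‖x‖ + 1 with hR
  have hR1 : 1 ≤ R := by
    have := norm_nonneg x
    linarith
  refine ⟨Metric.ball (0 : E3) R, Metric.isOpen_ball.mem_nhds ?_, ?_⟩
  · rw [Metric.mem_ball, dist_zero_right]
    linarith
  have hfin : IsFiniteMeasure (volume.restrict (Metric.ball (0 : E3) R)) :=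
    ⟨by rw [Measure.restrict_apply_univ]; exact measure_ball_lt_top⟩
  have h2 : MemLp m 2 (volume.restrict (Metric.ball (0 : E3) R)) :=
    (memLp_two_iff_integrable_sq_norm hmeas.restrict).2 (hC R hR1).1
  exact h2.integrable one_le_two

theorem outgoing_zero {s : ℝ} (h0 : 1 / 2 < s) (h2 : s < 2) {k : ℝ} (hk : 0 < k) {m : E3 → ℂ}
    (hm : BStar m) (he : ∀ φ : 𝓢(E3, ℂ), (∫ x, m x * fracLap s φ x) -
      ((k ^ (2 * s) : ℝ) : ℂ) * (∫ x, m x * φ x) = 0) {w : Fin 3 → E3 → ℂ}
    (hw : ∀ j, BStar (w j))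
    (hwe : ∀ (j : Fin 3) (φ : 𝓢(E3, ℂ)), ∫ x, w j x * φ x = -∫ x, m x * fracGrad s j φ x)
    (hr : Tendsto (fun R : ℝ => R⁻¹ * ∫ x in {x : E3 | 1 < ‖x‖ ∧ ‖x‖ < R},
      ∑ j, ‖w j x - Complex.I * ((k ^ s : ℝ) : ℂ) * ((x j / ‖x‖ : ℝ) : ℂ) * m x‖ ^ 2)
      atTop (𝓝 0)) :
    m =ᵐ[volume] 0 := by
  refine ae_eq_zero_of_integral_contDiff_smul_eq_zero (locInt_of_BStar hm) fun g hg hgc => ?_
  set φ : E3 → ℂ := fun x => (g x : ℂ) with hφdef
  have hφ : ContDiff ℝ ∞ φ := Complex.ofRealCLM.contDiff.comp hg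
  have hc : HasCompactSupport φ := hgc.comp_left (g := fun t : ℝ => (t : ℂ)) Complex.ofReal_zero
  have hrad := moll_rad (s := s) hk hm hw hr hφ hc
  have hrad2 : Tendsto (fun R : ℝ => R⁻¹ * ∫ x in {x : E3 | 1 < ‖x‖ ∧ ‖x‖ < R},
      ∑ j, ‖pd j (moll m φ) x - Complex.I * k * ((x j / ‖x‖ : ℝ) : ℂ) * moll m φ x‖ ^ 2)
      atTop (𝓝 0) := by
    refine hrad.congr fun R => ?_
    congr 1
    refine integral_congr_ae (Eventually.of_forall fun x => ?_)
    simp only
    refine Finset.sum_congr rfl fun j _ => ?_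
    rw [moll_grad h0 h2 hk hm he hw hwe hφ hc j x]
  have h := rellich hk (moll_smooth hm hφ hc) (moll_helm h0 h2 hk hm he hφ hc) hrad2
  have h' : ∫ y, m y * φ y = 0 := by
    simpa [moll] using h
  rw [← h']
  refine integral_congr_ae (Eventually.of_forall fun x => ?_)
  simp only [hφdef, Complex.real_smul]
  ring

end FracScat

end
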