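import Pool.Agent.Lib.MP_6e2ba5_an.Stmt

/-! # Multiplication operators and Fourier multipliers on `L²(ℝ³)` -/

set_option autoImplicit false

open MeasureTheory Filter Topology
open scoped FourierTransform SchwartzMap InnerProductSpace ENNReal

noncomputable section

namespace FracScat

/-- `L²(ℝ³; ℂ)`. -/
abbrev HS := Lp ℂ 2 (volume : Measure E3)

/-- Essentially bounded measurable symbols. -/
def BM (m : E3 → ℂ) : Prop :=
  AEStronglyMeasurable m volume ∧ ∃ C : ℝ, ∀ᵐ ξ ∂(volume : Measure E3), ‖m ξ‖ ≤ C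

theorem BM.memLp_mul {m : E3 → ℂ} (h : BM m) (f : HS) :
    MemLp (fun x => m x * f x) 2 volume := by
  obtain ⟨hm, C, hC⟩ := h
  have hf := Lp.memLp f
  refine MemLp.of_le_mul (c := C) hf (hm.mul hf.1) ?_
  filter_upwards [hC] with x hx
  rw [norm_mul]
  exact mul_le_mul_of_nonneg_right hx (norm_nonneg _)

open Classical in
/-- Multiplication by `m` on `L²`. -/
def mulL (m : E3 → ℂ) : HS →L[ℂ] HS :=
  if h : BM m then
    LinearMap.mkContinuous
      { toFun := fun f => (h.memLp_mul f).toLp _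
        map_add' := fun f g => by
          rw [← MemLp.toLp_add]
          apply MemLp.toLp_congr
          filter_upwards [Lp.coeFn_add f g] with x hx
          simp only [hx, Pi.add_apply]
          ring
        map_smul' := fun c f => by
          rw [RingHom.id_apply, ← MemLp.toLp_const_smul]
          apply MemLp.toLp_congr
          filter_upwards [Lp.coeFn_smul c f] with x hx
          simp only [hx, Pi.smul_apply, smul_eq_mul]
          ring }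
      (max h.2.choose 0)
      (fun f => by
        show ‖(h.memLp_mul f).toLp _‖ ≤ _
        refine Lp.norm_le_mul_norm_of_ae_le_mul ?_
        filter_upwards [(h.memLp_mul f).coeFn_toLp, h.2.choose_spec] with x hx hx2
        rw [hx, norm_mul]
        exact mul_le_mul_of_nonneg_right (hx2.trans (le_max_left _ _)) (norm_nonneg _))
  else 0

theorem mulL_coe {m : E3 → ℂ} (h : BM m) (f : HS) :
    (mulL m f : E3 → ℂ) =ᵐ[volume] fun x => m x * f x := by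
  have : mulL m f = (h.memLp_mul f).toLp _ := by
    simp only [mulL, dif_pos h]
    rfl
  rw [this]
  exact (h.memLp_mul f).coeFn_toLp

theorem norm_mulL_le {m : E3 → ℂ} (h : BM m) {C : ℝ} (hC : 0 ≤ C)
    (hm : ∀ᵐ x ∂(volume : Measure E3), ‖m x‖ ≤ C) : ‖mulL m‖ ≤ C := by
  refine ContinuousLinearMap.opNorm_le_bound _ hC fun f => ?_
  refine Lp.norm_le_mul_norm_of_ae_le_mul ?_
  filter_upwards [mulL_coe h f, hm] with x hx hx2
  rw [hx, norm_mul]
  exact mul_le_mul_of_nonneg_right hx2 (norm_nonneg _)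

theorem BM.add {m₁ m₂ : E3 → ℂ} (h₁ : BM m₁) (h₂ : BM m₂) : BM (fun x => m₁ x + m₂ x) := by
  obtain ⟨a₁, C₁, c₁⟩ := h₁
  obtain ⟨a₂, C₂, c₂⟩ := h₂
  refine ⟨a₁.add a₂, C₁ + C₂, ?_⟩
  filter_upwards [c₁, c₂] with x h h'
  exact (norm_add_le _ _).trans (add_le_add h h')

theorem BM.neg {m₁ : E3 → ℂ} (h₁ : BM m₁) : BM (fun x => -m₁ x) := by
  obtain ⟨a₁, C₁, c₁⟩ := h₁
  refine ⟨a₁.neg, C₁, ?_⟩
  filter_upwards [c₁] with x h
  simpa using h

theorem BM.sub {m₁ m₂ : E3 → ℂ} (h₁ : BM m₁) (h₂ : BM m₂) : BM (fun x => m₁ x - m₂ x) := by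
  simpa [sub_eq_add_neg] using h₁.add h₂.neg

theorem BM.mul {m₁ m₂ : E3 → ℂ} (h₁ : BM m₁) (h₂ : BM m₂) : BM (fun x => m₁ x * m₂ x) := by
  obtain ⟨a₁, C₁, c₁⟩ := h₁
  obtain ⟨a₂, C₂, c₂⟩ := h₂
  refine ⟨a₁.mul a₂, C₁ * C₂, ?_⟩
  filter_upwards [c₁, c₂] with x h h'
  rw [norm_mul]
  exact mul_le_mul h h' (norm_nonneg _) ((norm_nonneg _).trans h)

theorem BM.const_mul {m₁ : E3 → ℂ} (c : ℂ) (h₁ : BM m₁) : BM (fun x => c * m₁ x) :=
  BM.mul ⟨aestronglyMeasurable_const, ‖c‖, Eventually.of_forall fun _ => le_rfl⟩ h₁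

theorem BM.congr {m₁ m₂ : E3 → ℂ} (h₁ : BM m₁) (h : m₁ =ᵐ[volume] m₂) : BM m₂ := by
  obtain ⟨a₁, C₁, c₁⟩ := h₁
  refine ⟨a₁.congr h, C₁, ?_⟩
  filter_upwards [c₁, h] with x hx hx2
  rwa [← hx2]

theorem mulL_congr {m₁ m₂ : E3 → ℂ} (h : m₁ =ᵐ[volume] m₂) : mulL m₁ = mulL m₂ := by
  by_cases h₁ : BM m₁
  · have h₂ := h₁.congr h
    ext1 f
    apply Lp.ext
    filter_upwards [mulL_coe h₁ f, mulL_coe h₂ f, h] with x a b c
    rw [a, b, c]
  · have h₂ : ¬ BM m₂ := fun h₂ => h₁ (h₂.congr h.symm)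
    simp [mulL, h₁, h₂]

theorem mulL_add {m₁ m₂ : E3 → ℂ} (h₁ : BM m₁) (h₂ : BM m₂) :
    mulL (fun x => m₁ x + m₂ x) = mulL m₁ + mulL m₂ := by
  ext1 f
  apply Lp.ext
  filter_upwards [mulL_coe h₁ f, mulL_coe h₂ f, mulL_coe (h₁.add h₂) f,
    Lp.coeFn_add (mulL m₁ f) (mulL m₂ f)] with x a b c d
  rw [_root_.add_apply, d, Pi.add_apply, a, b, c]
  ring

theorem mulL_sub {m₁ m₂ : E3 → ℂ} (h₁ : BM m₁) (h₂ : BM m₂) :
    mulL (fun x => m₁ x - m₂ x) = mulL m₁ - mulL m₂ := by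
  ext1 f
  apply Lp.ext
  filter_upwards [mulL_coe h₁ f, mulL_coe h₂ f, mulL_coe (h₁.sub h₂) f,
    Lp.coeFn_sub (mulL m₁ f) (mulL m₂ f)] with x a b c d
  rw [_root_.sub_apply, d, Pi.sub_apply, a, b, c]
  ring

theorem mulL_const_mul {m₁ : E3 → ℂ} (c : ℂ) (h₁ : BM m₁) :
    mulL (fun x => c * m₁ x) = c • mulL m₁ := by
  ext1 f
  apply Lp.ext
  filter_upwards [mulL_coe h₁ f, mulL_coe (h₁.const_mul c) f,
    Lp.coeFn_smul c (mulL m₁ f)] with x a b d
  rw [_root_.smul_apply, d, Pi.smul_apply, a, b, smul_eq_mul]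
  ring

theorem mulL_mulL {m₁ m₂ : E3 → ℂ} (h₁ : BM m₁) (h₂ : BM m₂) (f : HS) :
    mulL m₁ (mulL m₂ f) = mulL (fun x => m₁ x * m₂ x) f := by
  apply Lp.ext
  filter_upwards [mulL_coe h₁ (mulL m₂ f), mulL_coe h₂ f, mulL_coe (h₁.mul h₂) f] with x a b c
  rw [a, b, c]
  ring

/-- The Fourier transform on `L²`. -/
def FT : HS ≃ₗᵢ[ℂ] HS := Lp.fourierTransformₗᵢ E3 ℂ

/-- The Fourier multiplier with symbol `m`. -/
def multL (m : E3 → ℂ) : HS →L[ℂ] HS :=
  (FT.symm.toContinuousLinearEquiv : HS →L[ℂ] HS) ∘L mulL m ∘L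
    (FT.toContinuousLinearEquiv : HS →L[ℂ] HS)

theorem multL_apply (m : E3 → ℂ) (f : HS) : multL m f = FT.symm (mulL m (FT f)) := rfl

theorem FT_multL (m : E3 → ℂ) (f : HS) : FT (multL m f) = mulL m (FT f) := by
  rw [multL_apply, LinearIsometryEquiv.apply_symm_apply]

theorem FT_multL_coe {m : E3 → ℂ} (h : BM m) (f : HS) :
    (FT (multL m f) : E3 → ℂ) =ᵐ[volume] fun ξ => m ξ * (FT f : E3 → ℂ) ξ := by
  rw [FT_multL]
  exact mulL_coe h (FT f)

theorem norm_multL_le {m : E3 → ℂ} (h : BM m) {C : ℝ} (hC : 0 ≤ C)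
    (hm : ∀ᵐ x ∂(volume : Measure E3), ‖m x‖ ≤ C) : ‖multL m‖ ≤ C := by
  refine ContinuousLinearMap.opNorm_le_bound _ hC fun f => ?_
  rw [multL_apply, LinearIsometryEquiv.norm_map]
  refine ((mulL m).le_opNorm _).trans ?_
  rw [LinearIsometryEquiv.norm_map]
  exact mul_le_mul_of_nonneg_right (norm_mulL_le h hC hm) (norm_nonneg _)

theorem multL_congr {m₁ m₂ : E3 → ℂ} (h : m₁ =ᵐ[volume] m₂) : multL m₁ = multL m₂ := by
  ext1 f
  rw [multL_apply, multL_apply, mulL_congr h]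

theorem multL_add {m₁ m₂ : E3 → ℂ} (h₁ : BM m₁) (h₂ : BM m₂) :
    multL (fun x => m₁ x + m₂ x) = multL m₁ + multL m₂ := by
  ext1 f
  rw [_root_.add_apply, multL_apply, multL_apply, multL_apply, mulL_add h₁ h₂,
    _root_.add_apply, map_add]

theorem multL_sub {m₁ m₂ : E3 → ℂ} (h₁ : BM m₁) (h₂ : BM m₂) :
    multL (fun x => m₁ x - m₂ x) = multL m₁ - multL m₂ := by
  ext1 f
  rw [_root_.sub_apply, multL_apply, multL_apply, multL_apply, mulL_sub h₁ h₂,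
    _root_.sub_apply, map_sub]

theorem multL_const_mul {m₁ : E3 → ℂ} (c : ℂ) (h₁ : BM m₁) :
    multL (fun x => c * m₁ x) = c • multL m₁ := by
  ext1 f
  rw [_root_.smul_apply, multL_apply, multL_apply, mulL_const_mul c h₁,
    _root_.smul_apply, map_smul]

theorem multL_multL {m₁ m₂ : E3 → ℂ} (h₁ : BM m₁) (h₂ : BM m₂) (f : HS) :
    multL m₁ (multL m₂ f) = multL (fun x => m₁ x * m₂ x) f := by
  rw [multL_apply, FT_multL, mulL_mulL h₁ h₂, multL_apply]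

end FracScat

end
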