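import Pool.Agent.Lib.MP_6e2ba5_an.Symb

/-! # The cut off resolvents

`Kop s r k` is the cut off outgoing resolvent `1_B ((-Δ)^s - k^(2s))⁻¹ 1_B`, `B = ball 0 r`, for
`k` in the closed first quadrant; its symbol is `gs s (2r) k`. -/

set_option autoImplicit false

open MeasureTheory Filter Topology Set
open scoped FourierTransform SchwartzMap InnerProductSpace ENNReal

noncomputable section

namespace FracScat

/-- Indicator function of the ball of radius `r`. -/
def indB (r : ℝ) (x : E3) : ℂ := if ‖x‖ < r then 1 else 0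

/-- The symbol `c κ + h`. -/
def gs (s R : ℝ) (k : ℂ) (ξ : E3) : ℂ :=
  ck s k * kap k R (2 * Real.pi * ‖ξ‖) + hs s k (2 * Real.pi * ‖ξ‖)

/-- The resolvent symbol on `ℝ³`. -/
def rsE (s : ℝ) (k : ℂ) (ξ : E3) : ℂ := rs s k (2 * Real.pi * ‖ξ‖)

/-- The cut off outgoing resolvent. -/
def Kop (s r : ℝ) (k : ℂ) : HS →L[ℂ] HS := mulL (indB r) ∘L multL (gs s (2 * r) k) ∘L mulL (indB r)

/-- The open first quadrant. -/
def OQ : Set ℂ := {k | 0 < k.re ∧ 0 < k.im}

private theorem Ops_norm_indB (r : ℝ) (x : E3) : ‖indB r x‖ ≤ 1 := by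
  unfold indB
  split_ifs <;> simp

theorem indB_BM (r : ℝ) : BM (indB r) := by
  refine ⟨?_, 1, Eventually.of_forall (Ops_norm_indB r)⟩
  refine Measurable.aestronglyMeasurable ?_
  exact Measurable.ite (measurableSet_lt measurable_norm measurable_const) measurable_const measurable_const

theorem norm_mulL_indB (r : ℝ) : ‖mulL (indB r)‖ ≤ 1 :=
  norm_mulL_le (indB_BM r) zero_le_one (Eventually.of_forall (Ops_norm_indB r))

theorem indB_idem (r : ℝ) (f : HS) : mulL (indB r) (mulL (indB r) f) = mulL (indB r) f := by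
  rw [mulL_mulL (indB_BM r) (indB_BM r)]
  have h : (fun x : E3 => indB r x * indB r x) = indB r := by
    funext x
    unfold indB
    split_ifs <;> simp
  rw [h]

theorem integrable_of_indB {r : ℝ} {f : HS} (hf : mulL (indB r) f = f) :
    Integrable (f : E3 → ℂ) := by
  have h1 : (f : E3 → ℂ) =ᵐ[volume] (Metric.ball (0 : E3) r).indicator (f : E3 → ℂ) := by
    have h2 := mulL_coe (indB_BM r) f
    rw [hf] at h2
    filter_upwards [h2] with x hx
    rw [hx]
    unfold indB
    by_cases hx2 : ‖x‖ < r
    · rw [if_pos hx2, one_mul, indicator_of_mem (by simpa using hx2)]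
    · rw [if_neg hx2, zero_mul, indicator_of_notMem (by simpa using hx2)]
  refine Integrable.congr ?_ h1.symm
  rw [integrable_indicator_iff measurableSet_ball]
  have h3 : IsFiniteMeasure (volume.restrict (Metric.ball (0 : E3) r)) :=
    ⟨by rw [Measure.restrict_apply_univ]; exact measure_ball_lt_top⟩
  exact ((Lp.memLp f).restrict (Metric.ball (0 : E3) r)).integrable one_le_two

end FracScat

end
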