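import Pool.Agent.Lib.MP_6e2ba5_an.Mul

/-! # The kernels: definitions

* `Phi k x = exp(ik|x|)/(4π|x|)`;
* `PhiR k R = Phi k` on `|x| < R`, `0` outside;
* `Yk k x = exp(-|x|)/(4π|x|) + (k²+1) exp(-|x|)/(8π)`, symbol `Yh k a = 1/(a²+1) + (k²+1)/(a²+1)²`;
* `Pk k x = (exp(ik|x|) - exp(-|x|))/(4π|x|) - (k²+1) exp(-|x|)/(8π)`, with the limit value at
  `x = 0`; it equals `Phi k x - Yk k x` for `x ≠ 0`; symbol `mk k a = 1/(a²-k²) - Yh k a`. -/

set_option autoImplicit false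

open MeasureTheory Filter Topology Set
open scoped FourierTransform SchwartzMap InnerProductSpace ENNReal ContDiff

noncomputable section

namespace FracScat

/-- The outgoing Helmholtz kernel. -/
def Phi (k : ℂ) (x : E3) : ℂ := Complex.exp (Complex.I * k * ‖x‖) / (4 * Real.pi * ‖x‖)

/-- The cut off outgoing Helmholtz kernel. -/
def PhiR (k : ℂ) (R : ℝ) (x : E3) : ℂ := if ‖x‖ < R then Phi k x else 0

/-- The correction. -/
def Yk (k : ℂ) (x : E3) : ℂ :=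
  Complex.exp (-‖x‖) / (4 * Real.pi * ‖x‖) + (k ^ 2 + 1) / (8 * Real.pi) * Complex.exp (-‖x‖)

/-- The symbol of `Yk`. -/
def Yh (k : ℂ) (a : ℝ) : ℂ := 1 / ((a : ℂ) ^ 2 + 1) + (k ^ 2 + 1) / ((a : ℂ) ^ 2 + 1) ^ 2

/-- The profile of the regularised outgoing kernel. -/
def pk (k : ℂ) (r : ℝ) : ℂ :=
  if r = 0 then (Complex.I * k + 1) / (4 * Real.pi) - (k ^ 2 + 1) / (8 * Real.pi)
  else (Complex.exp (Complex.I * k * r) - Complex.exp (-r)) / (4 * Real.pi * r) -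
    (k ^ 2 + 1) / (8 * Real.pi) * Complex.exp (-r)

/-- The regularised outgoing kernel. -/
def Pk (k : ℂ) (x : E3) : ℂ := pk k ‖x‖

/-- The symbol of `Pk`. -/
def mk (k : ℂ) (a : ℝ) : ℂ := 1 / ((a : ℂ) ^ 2 - k ^ 2) - Yh k a

theorem Pk_eq (k : ℂ) {x : E3} (hx : x ≠ 0) : Pk k x = Phi k x - Yk k x := by
  have h : ‖x‖ ≠ 0 := norm_ne_zero_iff.mpr hx
  simp only [Pk, pk, Phi, Yk, if_neg h]
  ring

end FracScat

end
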