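import Pool.Agent.Lib.MP_6e2ba5_an.Radial
import Pool.Agent.Lib.MP_6e2ba5_an.Kap
import Pool.Agent.Lib.MP_6e2ba5_an.PhiDefs

/-! # Fourier transforms of the Helmholtz kernels

All from `radial_integrable`, `radial_ft` with `a = 2π‖ξ‖`, so that
`𝓕 (g ‖·‖) ξ = (4π/a) ∫_0^∞ g(r) r sin(a r) dr`:
`Phi`, `Im k > 0`: `(1/a) ∫_0^∞ exp(ikr) sin(ar) dr = 1/(a²-k²)` (`laplace_sin`);
`PhiR`: the symbol is `kap k R a` by definition, for every `k`. -/

set_option autoImplicit false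

open MeasureTheory Filter Topology Set
open scoped FourierTransform SchwartzMap InnerProductSpace ENNReal ContDiff

noncomputable section

namespace FracScat

/-- The radial profile of `Phi k`. -/
private def phiAg (k : ℂ) (r : ℝ) : ℂ := Complex.exp (Complex.I * k * r) / (4 * Real.pi * r)

private theorem phiA_sq (k : ℂ) (r : ℝ) :
    (r : ℂ) ^ 2 * phiAg k r = (1 / (4 * Real.pi) : ℂ) * ((r : ℂ) * Complex.exp (Complex.I * k * r)) := by
  unfold phiAg
  have hpi : (Real.pi : ℂ) ≠ 0 := Complex.ofReal_ne_zero.2 Real.pi_ne_zero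
  by_cases hr : (r : ℂ) = 0
  · rw [hr]
    simp
  · field_simp

private theorem phiA_one (k : ℂ) {r : ℝ} (hr : r ≠ 0) :
    phiAg k r * r = (1 / (4 * Real.pi) : ℂ) * Complex.exp (Complex.I * k * r) := by
  unfold phiAg
  have hpi : (Real.pi : ℂ) ≠ 0 := Complex.ofReal_ne_zero.2 Real.pi_ne_zero
  have hr' : (r : ℂ) ≠ 0 := Complex.ofReal_ne_zero.2 hr
  field_simp

private theorem phiA_norm (k : ℂ) (r : ℝ) : ‖Complex.exp (Complex.I * k * r)‖ = Real.exp (-(k.im * r)) := by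
  rw [Complex.norm_exp]
  congr 1
  simp [Complex.mul_re, Complex.mul_im]

private theorem phiA_intOn {k : ℂ} (hk : 0 < k.im) :
    IntegrableOn (fun r : ℝ => (r : ℂ) ^ 2 * phiAg k r) (Ioi 0) := by
  have h1 : IntegrableOn (fun x : ℝ => x ^ (1 : ℝ) * Real.exp (-k.im * x ^ (1 : ℝ))) (Ioi 0) :=
    integrableOn_rpow_mul_exp_neg_mul_rpow (by norm_num) one_pos hk
  have h2 : IntegrableOn (fun r : ℝ => (r : ℂ) * Complex.exp (Complex.I * k * r)) (Ioi 0) := by
    refine Integrable.mono' h1 ?_ ?_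
    · have : Continuous fun r : ℝ => (r : ℂ) * Complex.exp (Complex.I * k * r) := by fun_prop
      exact this.aestronglyMeasurable
    · refine (ae_restrict_iff' measurableSet_Ioi).2 (Filter.Eventually.of_forall fun r hr => ?_)
      have hr0 : (0 : ℝ) < r := hr
      rw [norm_mul, phiA_norm, Complex.norm_real, Real.norm_eq_abs, abs_of_pos hr0, Real.rpow_one,
        neg_mul]
  have h3 : (fun r : ℝ => (r : ℂ) ^ 2 * phiAg k r) =
      fun r : ℝ => (1 / (4 * Real.pi) : ℂ) * ((r : ℂ) * Complex.exp (Complex.I * k * r)) :=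
    funext fun r => phiA_sq k r
  rw [h3]
  exact h2.const_mul _

private theorem phiA_eq (k : ℂ) : Phi k = fun x : E3 => phiAg k ‖x‖ := rfl

private theorem phiAR_eq (k : ℂ) (R : ℝ) :
    PhiR k R = fun x : E3 => (Iio R).indicator (phiAg k) ‖x‖ := by
  funext x
  unfold PhiR
  rw [indicator_apply]
  rfl

private theorem phiAR_intOn (k : ℂ) (R : ℝ) :
    IntegrableOn (fun r : ℝ => (r : ℂ) ^ 2 * (Iio R).indicator (phiAg k) r) (Ioi 0) := by
  have h1 : (fun r : ℝ => (r : ℂ) ^ 2 * (Iio R).indicator (phiAg k) r) =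
      (Iio R).indicator fun r : ℝ =>
        (1 / (4 * Real.pi) : ℂ) * ((r : ℂ) * Complex.exp (Complex.I * k * r)) := by
    funext r
    by_cases hr : r ∈ Iio R
    · rw [indicator_of_mem hr, indicator_of_mem hr, phiA_sq]
    · rw [indicator_of_notMem hr, indicator_of_notMem hr, mul_zero]
  rw [h1, IntegrableOn, integrable_indicator_iff measurableSet_Iio, IntegrableOn,
    Measure.restrict_restrict measurableSet_Iio]
  have h2 : Continuous fun r : ℝ =>
      (1 / (4 * Real.pi) : ℂ) * ((r : ℂ) * Complex.exp (Complex.I * k * r)) := by fun_prop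
  have h3 : IntegrableOn (fun r : ℝ =>
      (1 / (4 * Real.pi) : ℂ) * ((r : ℂ) * Complex.exp (Complex.I * k * r))) (Icc 0 R) :=
    h2.continuousOn.integrableOn_compact isCompact_Icc
  exact h3.mono_set fun r hr => ⟨le_of_lt hr.2, le_of_lt hr.1⟩

theorem Phi_integrable {k : ℂ} (hk : 0 < k.im) : Integrable (Phi k) := by
  rw [phiA_eq]
  exact radial_integrable (phiA_intOn hk)

private theorem phiA_const {ξ : E3} (hξ : ξ ≠ 0) :
    ((2 / ‖ξ‖ : ℝ) : ℂ) * (1 / (4 * Real.pi) : ℂ) = ((1 / (2 * Real.pi * ‖ξ‖) : ℝ) : ℂ) := by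
  have hpi : (Real.pi : ℂ) ≠ 0 := Complex.ofReal_ne_zero.2 Real.pi_ne_zero
  have hx : ((‖ξ‖ : ℝ) : ℂ) ≠ 0 := Complex.ofReal_ne_zero.2 (norm_ne_zero_iff.2 hξ)
  push_cast
  field_simp
  norm_num

theorem Phi_ft {k : ℂ} (hk : 0 < k.im) {ξ : E3} (hξ : ξ ≠ 0) :
    𝓕 (Phi k) ξ = 1 / (((2 * Real.pi * ‖ξ‖ : ℝ) : ℂ) ^ 2 - k ^ 2) := by
  have hx : 0 < ‖ξ‖ := norm_pos_iff.2 hξ
  have ha : 0 < 2 * Real.pi * ‖ξ‖ := by positivity
  rw [phiA_eq, radial_ft (phiA_intOn hk) ξ hξ]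
  have h1 : ∫ r in Ioi (0 : ℝ), phiAg k r * r * (Real.sin (2 * Real.pi * ‖ξ‖ * r) : ℂ) =
      (1 / (4 * Real.pi) : ℂ) * ∫ r in Ioi (0 : ℝ),
        Complex.exp (Complex.I * k * r) * (Real.sin (2 * Real.pi * ‖ξ‖ * r) : ℂ) := by
    rw [← integral_const_mul]
    refine setIntegral_congr_fun measurableSet_Ioi fun r hr => ?_
    have hr0 : r ≠ 0 := ne_of_gt hr
    simp only [phiA_one k hr0, mul_assoc]
  rw [h1, (laplace_sin hk ha).2, ← mul_assoc, phiA_const hξ]
  have ha' : ((2 * Real.pi * ‖ξ‖ : ℝ) : ℂ) ≠ 0 := Complex.ofReal_ne_zero.2 ha.ne'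
  generalize hA : (2 * Real.pi * ‖ξ‖ : ℝ) = A at *
  push_cast
  rw [← mul_div_assoc, one_div_mul_cancel ha']

theorem PhiR_integrable (k : ℂ) (R : ℝ) : Integrable (PhiR k R) := by
  rw [phiAR_eq]
  exact radial_integrable (phiAR_intOn k R)

theorem PhiR_ft (k : ℂ) {R : ℝ} (hR : 0 ≤ R) {ξ : E3} (hξ : ξ ≠ 0) :
    𝓕 (PhiR k R) ξ = kap k R (2 * Real.pi * ‖ξ‖) := by
  rw [phiAR_eq, radial_ft (phiAR_intOn k R) ξ hξ]
  have h1 : ∫ r in Ioi (0 : ℝ), (Iio R).indicator (phiAg k) r * r *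
        (Real.sin (2 * Real.pi * ‖ξ‖ * r) : ℂ) =
      (1 / (4 * Real.pi) : ℂ) * ∫ r in (0 : ℝ)..R,
        Complex.exp (Complex.I * k * r) * (Real.sin (2 * Real.pi * ‖ξ‖ * r) : ℂ) := by
    have e1 : (fun r : ℝ => (Iio R).indicator (phiAg k) r * r *
        (Real.sin (2 * Real.pi * ‖ξ‖ * r) : ℂ)) =
        (Iio R).indicator fun r : ℝ => phiAg k r * r * (Real.sin (2 * Real.pi * ‖ξ‖ * r) : ℂ) := by
      funext r
      by_cases hr : r ∈ Iio R
      · rw [indicator_of_mem hr, indicator_of_mem hr]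
      · rw [indicator_of_notMem hr, indicator_of_notMem hr, zero_mul, zero_mul]
    rw [e1, setIntegral_indicator measurableSet_Iio, Ioi_inter_Iio, ← integral_Ioc_eq_integral_Ioo,
      ← intervalIntegral.integral_of_le hR, ← intervalIntegral.integral_const_mul]
    rw [intervalIntegral.integral_of_le hR, intervalIntegral.integral_of_le hR]
    refine setIntegral_congr_fun measurableSet_Ioc fun r hr => ?_
    have hr0 : r ≠ 0 := ne_of_gt hr.1
    simp only [phiA_one k hr0, mul_assoc]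
  rw [h1, ← mul_assoc, phiA_const hξ]
  rfl

end FracScat

end
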