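import Pool.Agent.Lib.MP_6e2ba5_an.KopPhys
import Pool.Agent.Lib.MP_6e2ba5_an.BStarApi

/-! # The outgoing field: class `BStar` and radiation condition

`vf_BStar`, `wf_BStar`: `cv_bound` (`Pk_continuous`, `Pk_bound`, `dPk_continuous`, `dPk_bound`),
`BStar_of_bound`, `BStar_of_memLp`, `BStar.add`, `BStar.const_mul`.
`vf_rad`: `c k^s = d k` , so `wf j - i k^s (x_j/|x|) vf = d [cv (dPk k j) f - ik (x_j/|x|)
cv (Pk k) f] + [multL (qg) f - i k^s (x_j/|x|) multL (qs) f]`; the first bracket is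
`O((1+|x|)^(-2))` (`cv_rad`), which is square integrable on `ℝ³`, the second is in `L²`. So the
integral over `1 < |x| < R` stays bounded and `R⁻¹` times it tends to `0`. -/

set_option autoImplicit false

open MeasureTheory Filter Topology Set
open scoped FourierTransform SchwartzMap InnerProductSpace ENNReal ContDiff

noncomputable section

namespace FracScat

private theorem physA_Pk (k : ℝ) : ∃ C : ℝ, ∀ x : E3, ‖Pk k x‖ ≤ C / (1 + ‖x‖) := by
  obtain ⟨C, -, hC⟩ := Pk_bound ‖(k : ℂ)‖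
  exact ⟨C, fun x => hC k (by simp) le_rfl x⟩

theorem vf_BStar {s : ℝ} {k : ℝ} {r : ℝ} (hr : 0 < r) {f : HS}
    (hf : mulL (indB r) f = f) : BStar (vf s k f) := by
  obtain ⟨C, hC⟩ := physA_Pk k
  obtain ⟨h1, C', -, h2⟩ := cv_bound (Pk_continuous k) hC hr hf
  exact ((BStar_of_bound h1 h2).const_mul (ck s k)).add (BStar_of_memLp (Lp.memLp (multL (qs s k) f)))

theorem wf_BStar {s : ℝ} {k : ℝ} (hk : 0 < k) {r : ℝ} (hr : 0 < r) {f : HS}
    (hf : mulL (indB r) f = f) (j : Fin 3) : BStar (wf s k j f) := by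
  obtain ⟨C, -, hC⟩ := dPk_bound hk
  obtain ⟨h1, C', -, h2⟩ := cv_bound (dPk_continuous k j) (hC j) hr hf
  exact ((BStar_of_bound h1 h2).const_mul (dk s k : ℂ)).add
    (BStar_of_memLp (Lp.memLp (multL (qg s j k) f)))

private theorem physA_sq (a b : ℂ) : ‖a + b‖ ^ 2 ≤ 2 * ‖a‖ ^ 2 + 2 * ‖b‖ ^ 2 := by
  have h1 := norm_add_le a b
  have h2 : ‖a + b‖ ^ 2 ≤ (‖a‖ + ‖b‖) ^ 2 := pow_le_pow_left₀ (norm_nonneg _) h1 2
  nlinarith [sq_nonneg (‖a‖ - ‖b‖)]

private theorem physA_const {s : ℝ} {k : ℝ} (hk : 0 < k) :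
    ((k ^ s : ℝ) : ℂ) * ck s k = (dk s k : ℂ) * k := by
  rw [ck_real hk]
  unfold dk
  rw [← Complex.ofReal_mul, ← Complex.ofReal_mul]
  congr 1
  have e1 : k ^ s * k ^ (2 - 2 * s) = k ^ (1 - s) * k := by
    rw [← Real.rpow_add hk, ← Real.rpow_add_one hk.ne']
    congr 1
    ring
  rw [← mul_div_assoc, e1]
  ring

private theorem physA_dir (j : Fin 3) (x : E3) : ‖((x j / ‖x‖ : ℝ) : ℂ)‖ ≤ 1 := by
  rw [Complex.norm_real, Real.norm_eq_abs, abs_div, abs_norm]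
  refine div_le_one_of_le₀ ?_ (norm_nonneg _)
  have := PiLp.norm_apply_le x j
  rwa [Real.norm_eq_abs] at this

private theorem physA_int4 : Integrable (fun x : E3 => ((1 + ‖x‖) ^ 2)⁻¹ ^ 2) := by
  have h1 : Integrable (fun x : E3 => (1 + ‖x‖) ^ (-(4 : ℝ))) := by
    refine integrable_one_add_norm ?_
    have : Module.finrank ℝ E3 = 3 := by simp
    rw [this]
    norm_num
  refine h1.congr (Eventually.of_forall fun x => ?_)
  have hp : 0 ≤ 1 + ‖x‖ := by positivity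
  show (1 + ‖x‖) ^ (-(4 : ℝ)) = ((1 + ‖x‖) ^ 2)⁻¹ ^ 2
  rw [Real.rpow_neg hp, inv_pow, ← pow_mul]
  congr 1
  rw [show (4 : ℝ) = ((4 : ℕ) : ℝ) by norm_num, Real.rpow_natCast]

private theorem physA_L2 (g : HS) : Integrable (fun x => ‖(g : E3 → ℂ) x‖ ^ 2) volume :=
  (memLp_two_iff_integrable_sq_norm (Lp.memLp g).1).1 (Lp.memLp g)

theorem vf_rad {s : ℝ} (h0 : 0 < s) {k : ℝ} (hk : 0 < k) {r : ℝ} (hr : 0 < r) {f : HS}
    (hf : mulL (indB r) f = f) :
    Tendsto (fun R : ℝ => R⁻¹ * ∫ x in {x : E3 | 1 < ‖x‖ ∧ ‖x‖ < R},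
      ∑ j, ‖wf s k j f x - Complex.I * ((k ^ s : ℝ) : ℂ) * ((x j / ‖x‖ : ℝ) : ℂ) *
        vf s k f x‖ ^ 2) atTop (𝓝 0) := by
  obtain ⟨C, hC0, hC⟩ := cv_rad hk hr hf
  set H : Fin 3 → E3 → ℝ := fun j x => 2 * ((|dk s k| * C) ^ 2 * ((1 + ‖x‖) ^ 2)⁻¹ ^ 2) +
    2 * (2 * ‖(multL (qg s j k) f : E3 → ℂ) x‖ ^ 2 +
      2 * ((k ^ s) ^ 2 * ‖(multL (qs s k) f : E3 → ℂ) x‖ ^ 2)) with hH
  have hHi : ∀ j, Integrable (H j) := fun j =>
    ((physA_int4.const_mul _).const_mul 2).add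
      ((((physA_L2 _).const_mul 2).add (((physA_L2 _).const_mul _).const_mul 2)).const_mul 2)
  have hbound : ∀ (j : Fin 3) (x : E3), ‖wf s k j f x -
      Complex.I * ((k ^ s : ℝ) : ℂ) * ((x j / ‖x‖ : ℝ) : ℂ) * vf s k f x‖ ^ 2 ≤ H j x := by
    intro j x
    have e1 : wf s k j f x - Complex.I * ((k ^ s : ℝ) : ℂ) * ((x j / ‖x‖ : ℝ) : ℂ) * vf s k f x =
        (dk s k : ℂ) * (cv (dPk k j) f x -
          Complex.I * k * ((x j / ‖x‖ : ℝ) : ℂ) * cv (Pk k) f x) +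
        ((multL (qg s j k) f : E3 → ℂ) x +
          -(Complex.I * ((k ^ s : ℝ) : ℂ) * ((x j / ‖x‖ : ℝ) : ℂ) *
            (multL (qs s k) f : E3 → ℂ) x)) := by
      unfold wf vf
      linear_combination (-(Complex.I * ((x j / ‖x‖ : ℝ) : ℂ) * cv (Pk k) f x)) * physA_const hk
    have hpos : 0 < (1 + ‖x‖) ^ 2 := by positivity
    rw [e1]
    refine (physA_sq _ _).trans ?_
    refine add_le_add (mul_le_mul_of_nonneg_left ?_ (by norm_num))
      (mul_le_mul_of_nonneg_left ?_ (by norm_num))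
    · rw [← mul_pow]
      refine pow_le_pow_left₀ (norm_nonneg _) ?_ 2
      rw [norm_mul, Complex.norm_real, Real.norm_eq_abs, mul_assoc |dk s k|]
      refine mul_le_mul_of_nonneg_left ?_ (abs_nonneg _)
      have := hC j x
      rwa [div_eq_mul_inv] at this
    · refine (physA_sq _ _).trans ?_
      refine add_le_add (le_refl _) (mul_le_mul_of_nonneg_left ?_ (by norm_num))
      rw [← mul_pow]
      refine pow_le_pow_left₀ (norm_nonneg _) ?_ 2
      have hks : 0 ≤ k ^ s := Real.rpow_nonneg hk.le s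
      rw [norm_neg, norm_mul, norm_mul, norm_mul, Complex.norm_I, one_mul, Complex.norm_real (k ^ s),
        Real.norm_eq_abs, abs_of_nonneg hks]
      refine mul_le_mul_of_nonneg_right ?_ (norm_nonneg _)
      exact mul_le_of_le_one_right hks (physA_dir j x)
  set K : ℝ := ∫ x, ∑ j, H j x with hK
  have hHs : Integrable (fun x => ∑ j, H j x) := integrable_finsetSum _ fun j _ => hHi j
  have hH0 : ∀ x : E3, (0 : ℝ) ≤ ∑ j : Fin 3, H j x := fun x => Finset.sum_nonneg fun j _ =>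
    le_trans (sq_nonneg _) (hbound j x)
  have hle : ∀ R : ℝ, ∫ x in {x : E3 | 1 < ‖x‖ ∧ ‖x‖ < R},
      ∑ j, ‖wf s k j f x - Complex.I * ((k ^ s : ℝ) : ℂ) * ((x j / ‖x‖ : ℝ) : ℂ) *
        vf s k f x‖ ^ 2 ≤ K := by
    intro R
    refine le_trans (integral_mono_of_nonneg (Eventually.of_forall fun x => ?_) hHs.integrableOn
      (Eventually.of_forall fun x => ?_)) (setIntegral_le_integral hHs (Eventually.of_forall hH0))
    · exact Finset.sum_nonneg fun j _ => sq_nonneg _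
    · exact Finset.sum_le_sum fun j _ => hbound j x
  have hge : ∀ R : ℝ, 0 ≤ ∫ x in {x : E3 | 1 < ‖x‖ ∧ ‖x‖ < R},
      ∑ j, ‖wf s k j f x - Complex.I * ((k ^ s : ℝ) : ℂ) * ((x j / ‖x‖ : ℝ) : ℂ) *
        vf s k f x‖ ^ 2 := fun R =>
    integral_nonneg fun x => Finset.sum_nonneg fun j _ => sq_nonneg _
  have hlim : Tendsto (fun R : ℝ => R⁻¹ * K) atTop (𝓝 0) := by
    have := tendsto_inv_atTop_zero (𝕜 := ℝ)
    simpa using this.mul_const K
  refine tendsto_of_tendsto_of_tendsto_of_le_of_le' tendsto_const_nhds hlim ?_ ?_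
  · filter_upwards [eventually_gt_atTop (0 : ℝ)] with R hR
    exact mul_nonneg (inv_nonneg.2 hR.le) (hge R)
  · filter_upwards [eventually_gt_atTop (0 : ℝ)] with R hR
    exact mul_le_mul_of_nonneg_left (hle R) (inv_nonneg.2 hR.le)

end FracScat

end
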