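import Pool.Agent.Lib.MP_6e2ba5_an.PhysA

/-! # The outgoing field: the weak equation

Let `g = (-Δ)^s φ - k^(2s) φ`, `FT g = (a^(2s) - k^(2s)) 𝓕 φ`. For `a ≠ k`
`(a^(2s)-k^(2s)) (c/(a²-k²) + hs) = 1`, hence `|a^(2s)-k^(2s)| ≤ |a²-k²| (1 + |hs| |a^(2s)-k^(2s)|)/c`,
so `pair_eq` applies with `J = C (1+a^(2s)) |FT f(ξ)| |𝓕 φ(-ξ)|` (integrable: product of two `L²`
functions): `c ∫ cv (Pk k) f g = ∫ FT f(ξ) (a^(2s)-k^(2s)) 𝓕 φ(-ξ) c mk`. And
`∫ (multL qs f) g = ∫ qs FT f(ξ) (a^(2s)-k^(2s)) 𝓕 φ(-ξ)` (`parseval`). Since `c mk + qs =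
c/(a²-k²) + hs`, the sum is `∫ FT f(ξ) 𝓕 φ(-ξ) = ∫ f φ` (`parseval`, `FT_schwartz`).
All integrals converge: `vf_BStar`, `BStar_mul_WL`, `fracLap_WL`, `schwartz_WL`. -/

set_option autoImplicit false

open MeasureTheory Filter Topology Set
open scoped FourierTransform SchwartzMap InnerProductSpace ENNReal ContDiff

noncomputable section

namespace FracScat

private theorem PhysB_neg {f g : E3 → ℂ} (h : f =ᵐ[volume] g) :
    (fun ξ : E3 => f (-ξ)) =ᵐ[volume] fun ξ => g (-ξ) :=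
  (Measure.measurePreserving_neg (volume : Measure E3)).quasiMeasurePreserving.ae_eq_comp h

private theorem PhysB_int (F P : HS) :
    Integrable (fun ξ : E3 => (F : E3 → ℂ) ξ * (P : E3 → ℂ) (-ξ)) := by
  have h1 : MemLp (fun ξ : E3 => (P : E3 → ℂ) (-ξ)) 2 volume :=
    (Lp.memLp P).comp_measurePreserving (Measure.measurePreserving_neg (volume : Measure E3))
  exact (Lp.memLp F).integrable_mul h1

/-- The algebra of the symbols away from the sphere. -/
private theorem PhysB_symb {s : ℝ} (h0 : 1 / 2 < s) {k : ℝ} (hk : 0 < k) {a : ℝ}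
    (ha : 0 ≤ a) (hak : a ≠ k) :
    (((a ^ (2 * s) : ℝ) : ℂ) - ((k ^ (2 * s) : ℝ) : ℂ)) * rs s k a = 1 := by
  have h1 : a ^ (2 * s) ≠ k ^ (2 * s) := by
    intro h
    exact hak ((Real.rpow_left_inj ha hk.le (by linarith)).1 h)
  rw [rs_real hk]
  have h2 : a ^ (2 * s) - k ^ (2 * s) ≠ 0 := sub_ne_zero.2 h1
  rw [← Complex.ofReal_sub, ← Complex.ofReal_mul, mul_one_div, div_self h2, Complex.ofReal_one]

theorem vf_eq {s : ℝ} (h0 : 1 / 2 < s) (h2 : s < 2) {k : ℝ} (hk : 0 < k) {r : ℝ} (hr : 0 < r)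
    {f : HS} (hf : mulL (indB r) f = f) (φ : 𝓢(E3, ℂ)) :
    (∫ x, vf s k f x * fracLap s φ x) - ((k ^ (2 * s) : ℝ) : ℂ) * (∫ x, vf s k f x * φ x) =
      ∫ x, f x * φ x := by
  have hs0 : 0 < s := by linarith
  set K : ℂ := ((k ^ (2 * s) : ℝ) : ℂ) with hK
  set G : HS := toH (fracLap s φ) with hG
  set P : HS := toH (φ : E3 → ℂ) with hP
  have hGW := fracLap_WL h0 h2 φ
  have hPW := schwartz_WL φ
  have hGe : (G : E3 → ℂ) =ᵐ[volume] fracLap s φ := toH_coe hGW.memLp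
  have hPe : (P : E3 → ℂ) =ᵐ[volume] φ := toH_coe hPW.memLp
  have hvB : BStar (vf s k f) := vf_BStar hr hf
  have hi1 : Integrable (fun x => vf s k f x * fracLap s φ x) := BStar_mul_WL hvB hGW
  have hi2 : Integrable (fun x => vf s k f x * φ x) := BStar_mul_WL hvB hPW
  -- the test function
  set g : HS := G - K • P with hg
  have hge : (g : E3 → ℂ) =ᵐ[volume] fun x => fracLap s φ x - K * φ x := by
    filter_upwards [Lp.coeFn_sub G (K • P), Lp.coeFn_smul K P, hGe, hPe] with x e1 e2 e3 e4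
    rw [hg, e1, Pi.sub_apply, e2, Pi.smul_apply, e3, e4, smul_eq_mul]
  have hgI : Integrable (g : E3 → ℂ) :=
    (hGW.integrable.sub (hPW.integrable.const_mul K)).congr hge.symm
  have hFg : (FT g : E3 → ℂ) =ᵐ[volume]
      fun ξ => (((2 * Real.pi * ‖ξ‖) ^ (2 * s) : ℝ) : ℂ) * 𝓕 (φ : E3 → ℂ) ξ -
        K * 𝓕 (φ : E3 → ℂ) ξ := by
    have e0 : FT g = FT G - K • FT P := by rw [hg, map_sub, map_smul]
    filter_upwards [Lp.coeFn_sub (FT G) (K • FT P), Lp.coeFn_smul K (FT P), FT_fracLap h0 h2 φ,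
      FT_schwartz φ] with ξ e1 e2 e3 e4
    rw [e0, e1, Pi.sub_apply, e2, Pi.smul_apply, e3, e4, smul_eq_mul]
  have hFgn := PhysB_neg hFg
  have hFGn := PhysB_neg (FT_fracLap h0 h2 φ)
  have hFPn := PhysB_neg (FT_schwartz φ)
  -- step 1: the left side as one integral
  have s1 : (∫ x, vf s k f x * fracLap s φ x) - K * (∫ x, vf s k f x * φ x) =
      ∫ x, vf s k f x * g x := by
    rw [← integral_const_mul, ← integral_sub hi1 (hi2.const_mul K)]
    apply integral_congr_ae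
    filter_upwards [hge] with x hx
    rw [hx]
    ring
  have hi3 : Integrable (fun x => vf s k f x * g x) := by
    refine (hi1.sub (hi2.const_mul K)).congr ?_
    filter_upwards [hge] with x hx
    simp only [Pi.sub_apply]
    rw [hx]
    ring
  have hi4 : Integrable (fun x => (multL (qs s k) f : E3 → ℂ) x * g x) := integrable_mul _ _
  have hc0 : ck s k ≠ 0 := by
    rw [ck_real hk]
    have : 0 < k ^ (2 - 2 * s) / s := div_pos (Real.rpow_pos_of_pos hk _) hs0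
    exact_mod_cast this.ne'
  have s2 : ∫ x, vf s k f x * g x = ck s k * (∫ x, cv (Pk k) f x * g x) +
      ∫ x, (multL (qs s k) f : E3 → ℂ) x * g x := by
    have e1 : (fun x => ck s k * (cv (Pk k) f x * g x)) =
        fun x => vf s k f x * g x - (multL (qs s k) f : E3 → ℂ) x * g x := by
      funext x
      unfold vf
      ring
    rw [← integral_const_mul, e1, integral_sub hi3 hi4]
    ring
  -- the pairing with the kernel
  obtain ⟨C, hC, hb⟩ := hs_bound hs0 h2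
  have hkq : (k : ℂ) ∈ Quad := ⟨by simpa using hk.le, by simp, by exact_mod_cast hk.ne'⟩
  set Ch : ℝ := C * ‖(k : ℂ)‖ ^ (-(2 * s)) with hCh
  have hCh0 : 0 ≤ Ch := by positivity
  set cr : ℝ := k ^ (2 - 2 * s) / s with hcr
  have hcr0 : 0 < cr := div_pos (Real.rpow_pos_of_pos hk _) hs0
  have hckr : ck s k = (cr : ℂ) := ck_real hk
  have hks : 0 ≤ k ^ (2 * s) := Real.rpow_nonneg hk.le _
  have hA := PhysB_int (FT f) (FT P)
  have hB := PhysB_int (FT f) (FT G)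
  have s3 := pair_eq hk hr hf g hgI
    (J := fun ξ => cr⁻¹ * ((1 + Ch * k ^ (2 * s)) * ‖(FT f : E3 → ℂ) ξ * (FT P : E3 → ℂ) (-ξ)‖ +
      Ch * ‖(FT f : E3 → ℂ) ξ * (FT G : E3 → ℂ) (-ξ)‖))
    (((hA.norm.const_mul _).add (hB.norm.const_mul _)).const_mul _) (by
      filter_upwards [ae_good (k : ℂ), hFgn, hFGn, hFPn] with ξ hξ e1 e2 e3
      obtain ⟨ha, hak⟩ := hξ
      rw [e1, e2, e3, norm_neg]
      set a : ℝ := 2 * Real.pi * ‖ξ‖ with hadef
      have hak' : a ≠ k := fun h => hak (by exact_mod_cast h)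
      set Fv : ℂ := (FT f : E3 → ℂ) ξ
      set v : ℂ := 𝓕 (φ : E3 → ℂ) (-ξ)
      have hid := PhysB_symb h0 hk ha.le hak'
      have hhs := hb k hkq a ha.le hak
      have has : 0 ≤ a ^ (2 * s) := Real.rpow_nonneg ha.le _
      set w : ℝ := a ^ (2 * s) - k ^ (2 * s) with hw
      have hwc : (((a ^ (2 * s) : ℝ) : ℂ) - ((k ^ (2 * s) : ℝ) : ℂ)) = (w : ℂ) := by
        rw [hw]; push_cast; ring
      rw [hwc] at hid
      have hd0 : (a : ℂ) ^ 2 - (k : ℂ) ^ 2 ≠ 0 := by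
        have : a ^ 2 - k ^ 2 ≠ 0 := by
          have h5 : (a - k) * (a + k) ≠ 0 :=
            mul_ne_zero (sub_ne_zero.2 hak') (by positivity)
          intro h6
          apply h5
          linear_combination h6
        exact_mod_cast this
      have hid2 : (cr : ℂ) * w = ((a : ℂ) ^ 2 - (k : ℂ) ^ 2) * (1 - w * hs s k a) := by
        have h5 : rs s k a = hs s k a + cr * (1 / ((a : ℂ) ^ 2 - (k : ℂ) ^ 2)) := by
          unfold hs
          rw [hckr]
          ring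
        have h6 : (cr : ℂ) * w = ((a : ℂ) ^ 2 - (k : ℂ) ^ 2) *
            (w * (cr * (1 / ((a : ℂ) ^ 2 - (k : ℂ) ^ 2)))) := by
          field_simp
        rw [h6]
        congr 1
        linear_combination hid - (w : ℂ) * h5
      have hid3 : cr * |w| ≤ |a ^ 2 - k ^ 2| * (1 + |w| * Ch) := by
        have h5 := congrArg norm hid2
        rw [norm_mul, norm_mul, Complex.norm_real, Complex.norm_real,
          Real.norm_of_nonneg hcr0.le, Real.norm_eq_abs] at h5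
        rw [h5]
        have h6 : ‖(a : ℂ) ^ 2 - (k : ℂ) ^ 2‖ = |a ^ 2 - k ^ 2| := by
          rw [← Real.norm_eq_abs, ← Complex.norm_real]
          push_cast
          rfl
        rw [h6]
        refine mul_le_mul_of_nonneg_left ?_ (abs_nonneg _)
        refine (norm_sub_le _ _).trans ?_
        rw [norm_one, norm_mul, Complex.norm_real, Real.norm_eq_abs]
        gcongr
      have hwa : |w| ≤ a ^ (2 * s) + k ^ (2 * s) := by
        rw [abs_le]
        constructor <;> linarith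
      have hn1 : ‖Fv * ((((a ^ (2 * s) : ℝ)) : ℂ) * v - K * v)‖ = |w| * ‖Fv * v‖ := by
        rw [← sub_mul, hK, hwc, mul_left_comm, norm_mul, Complex.norm_real, Real.norm_eq_abs]
      have hn2 : ‖Fv * ((((a ^ (2 * s) : ℝ)) : ℂ) * v)‖ = a ^ (2 * s) * ‖Fv * v‖ := by
        rw [mul_left_comm, norm_mul, Complex.norm_real, Real.norm_of_nonneg has]
      rw [hn1, hn2]
      have hn3 : |w| ≤ |a ^ 2 - k ^ 2| * (cr⁻¹ * ((1 + Ch * k ^ (2 * s)) + Ch * a ^ (2 * s))) := by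
        have h7 : |w| ≤ cr⁻¹ * (|a ^ 2 - k ^ 2| * (1 + |w| * Ch)) := by
          rw [inv_mul_eq_div, le_div_iff₀ hcr0, mul_comm]
          exact hid3
        refine h7.trans ?_
        rw [mul_left_comm]
        refine mul_le_mul_of_nonneg_left ?_ (abs_nonneg _)
        refine mul_le_mul_of_nonneg_left ?_ (by positivity)
        nlinarith [mul_le_mul_of_nonneg_right hwa hCh0]
      calc |w| * ‖Fv * v‖ ≤ (|a ^ 2 - k ^ 2| *
            (cr⁻¹ * ((1 + Ch * k ^ (2 * s)) + Ch * a ^ (2 * s)))) * ‖Fv * v‖ :=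
            mul_le_mul_of_nonneg_right hn3 (norm_nonneg _)
        _ = _ := by ring)
  -- the second pairing
  have s4 : ∫ x, (multL (qs s k) f : E3 → ℂ) x * g x =
      ∫ ξ, qs s k ξ * (FT f : E3 → ℂ) ξ * (FT g : E3 → ℂ) (-ξ) := by
    rw [parseval]
    apply integral_congr_ae
    filter_upwards [FT_multL_coe (qs_BM h0 h2 hk) f] with ξ e1
    rw [e1]
  have hi5 : Integrable (fun ξ => qs s k ξ * (FT f : E3 → ℂ) ξ * (FT g : E3 → ℂ) (-ξ)) := by
    refine (PhysB_int (FT (multL (qs s k) f)) (FT g)).congr ?_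
    filter_upwards [FT_multL_coe (qs_BM h0 h2 hk) f] with ξ e1
    rw [e1]
  -- the pointwise identity
  have hpt : ∀ᵐ ξ ∂(volume : Measure E3),
      ck s k * ((FT f : E3 → ℂ) ξ * (FT g : E3 → ℂ) (-ξ) * mk k (2 * Real.pi * ‖ξ‖)) =
        (FT f : E3 → ℂ) ξ * (FT P : E3 → ℂ) (-ξ) -
          qs s k ξ * (FT f : E3 → ℂ) ξ * (FT g : E3 → ℂ) (-ξ) := by
    filter_upwards [ae_good (k : ℂ), hFgn, hFPn] with ξ hξ e1 e3
    obtain ⟨ha, hak⟩ := hξ
    rw [e1, e3, norm_neg]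
    unfold qs mk
    set a : ℝ := 2 * Real.pi * ‖ξ‖ with hadef
    have hak' : a ≠ k := fun h => hak (by exact_mod_cast h)
    have hid := PhysB_symb h0 hk ha.le hak'
    have h5 : rs s k a = hs s k a + ck s k * (1 / ((a : ℂ) ^ 2 - (k : ℂ) ^ 2)) := by
      unfold hs
      ring
    rw [h5] at hid
    rw [hK]
    linear_combination ((FT f : E3 → ℂ) ξ * 𝓕 (φ : E3 → ℂ) (-ξ)) * hid
  have s5 : ck s k * (∫ ξ, (FT f : E3 → ℂ) ξ * (FT g : E3 → ℂ) (-ξ) * mk k (2 * Real.pi * ‖ξ‖)) =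
      (∫ ξ, (FT f : E3 → ℂ) ξ * (FT P : E3 → ℂ) (-ξ)) -
        ∫ ξ, qs s k ξ * (FT f : E3 → ℂ) ξ * (FT g : E3 → ℂ) (-ξ) := by
    rw [← integral_const_mul, integral_congr_ae hpt, integral_sub hA hi5]
  rw [s1, s2, s3, s5, s4, sub_add_cancel, ← parseval]
  apply integral_congr_ae
  filter_upwards [hPe] with x hx
  rw [hx]

end FracScat

end
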