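import Pool.Agent.Lib.MP_6e2ba5_an.Hx
import Pool.Agent.Lib.MP_6e2ba5_an.Kap

/-! # Symbols

`rs s k a = 1/(a^(2s) - k^(2s))`, `hs s k a = rs s k a - c/(a² - k²)` with `c = k^(2-2s)/s`.

For `k` in the closed first quadrant, `k ≠ 0`, and `a ≥ 0`: `x = a/k` lies in `Q4`, and
`hs s k a = k^(-2s) Hx s (a/k)` (`a^(2s)/k^(2s) = (a/k)^(2s)`: `Complex.mul_cpow_ofReal_nonneg`,
`Complex.inv_cpow`), which gives `hs_bound` and `hs_cont` from `Hx_bound`, `Hx_infty`, `Hx_uc`: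
in `hs_cont` write `k = k₀ + small`, bound the difference by
`|k^(-2s) - k₀^(-2s)| |Hx(a/k)| + |k₀^(-2s)| |Hx(a/k) - Hx(a/k₀)|`; if `a ≤ M` large the two points
are close (`|a/k - a/k₀| = a |k-k₀|/(|k||k₀|)`), if `a > M` both values are small. -/

set_option autoImplicit false

open MeasureTheory Filter Topology Set
open scoped FourierTransform SchwartzMap InnerProductSpace ENNReal

noncomputable section

namespace FracScat

/-- The closed first quadrant without the origin. -/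
def Quad : Set ℂ := {k | 0 ≤ k.re ∧ 0 ≤ k.im ∧ k ≠ 0}

/-- The symbol of the resolvent `((-Δ)^s - k^(2s))⁻¹` as a function of `a = 2π|ξ|`. -/
def rs (s : ℝ) (k : ℂ) (a : ℝ) : ℂ := 1 / (((a ^ (2 * s) : ℝ) : ℂ) - k ^ ((2 * s : ℝ) : ℂ))

/-- `k^(2-2s)/s`. -/
def ck (s : ℝ) (k : ℂ) : ℂ := k ^ ((2 - 2 * s : ℝ) : ℂ) / s

/-- `1/(a^(2s) - k^(2s)) - (k^(2-2s)/s)/(a² - k²)`. -/
def hs (s : ℝ) (k : ℂ) (a : ℝ) : ℂ := rs s k a - ck s k * (1 / ((a : ℂ) ^ 2 - k ^ 2))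

private theorem Symb_arg {k : ℂ} (hk : k ∈ Quad) : k.arg ≠ Real.pi := by
  obtain ⟨h1, h2, h3⟩ := hk
  intro h
  rw [Complex.arg_eq_pi_iff] at h
  linarith [h.1]

private theorem Symb_slit {k : ℂ} (hk : k ∈ Quad) : k ∈ Complex.slitPlane := by
  obtain ⟨h1, h2, h3⟩ := hk
  rw [Complex.mem_slitPlane_iff]
  by_contra hcon
  push Not at hcon
  apply h3
  apply Complex.ext
  · simp only [Complex.zero_re]
    linarith [hcon.1]
  · simp only [Complex.zero_im]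
    exact hcon.2

private theorem Symb_mem {k : ℂ} (hk : k ∈ Quad) {a : ℝ} (ha : 0 ≤ a) : (a : ℂ) / k ∈ Q4 := by
  obtain ⟨h1, h2, h3⟩ := hk
  have hn : 0 < Complex.normSq k := Complex.normSq_pos.2 h3
  unfold Q4
  rw [Set.mem_ofPred_eq, Complex.div_re, Complex.div_im]
  simp only [Complex.ofReal_re, Complex.ofReal_im, zero_mul, zero_div, add_zero, zero_sub]
  constructor
  · positivity
  · rw [neg_nonpos]
    positivity

/-- `(a/k)^w = a^w k^(-w)`. -/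
private theorem Symb_pow {w : ℝ} (hw : 0 < w) {k : ℂ} (hk : k ∈ Quad) {a : ℝ} (ha : 0 ≤ a) :
    ((a : ℂ) / k) ^ ((w : ℝ) : ℂ) = ((a ^ w : ℝ) : ℂ) * k ^ ((-w : ℝ) : ℂ) := by
  have hk0 : k ≠ 0 := hk.2.2
  have hwc : ((w : ℝ) : ℂ) ≠ 0 := by exact_mod_cast hw.ne'
  rcases ha.eq_or_lt with h0 | h0
  · rw [← h0, Real.zero_rpow hw.ne']
    simp [Complex.zero_cpow hwc]
  · have ha0 : (a : ℂ) ≠ 0 := by exact_mod_cast h0.ne'
    have hki : k⁻¹ ≠ 0 := inv_ne_zero hk0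
    rw [div_eq_mul_inv, Complex.cpow_def_of_ne_zero (mul_ne_zero ha0 hki),
      Complex.log_ofReal_mul h0 hki, Complex.log_inv _ (Symb_arg hk),
      Complex.cpow_def_of_ne_zero hk0, Real.rpow_def_of_pos h0, Complex.ofReal_exp,
      ← Complex.exp_add]
    congr 1
    push_cast
    ring

theorem hs_eq_Hx {s : ℝ} (h0 : 0 < s) (h2 : s < 2) {k : ℂ} (hk : k ∈ Quad) {a : ℝ} (ha : 0 ≤ a) :
    hs s k a = k ^ ((-(2 * s) : ℝ) : ℂ) * Hx s (a / k) := by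
  have hk0 : k ≠ 0 := hk.2.2
  unfold hs rs ck Hx
  rw [Symb_pow (w := 2 * s) (by linarith) hk ha]
  set A : ℂ := ((a ^ (2 * s) : ℝ) : ℂ) with hA
  set w : ℂ := ((2 * s : ℝ) : ℂ) with hw
  have hneg : ((-(2 * s) : ℝ) : ℂ) = -w := by
    rw [hw]
    push_cast
    ring
  rw [hneg]
  set P : ℂ := k ^ (-w) with hP
  have hP0 : P ≠ 0 := by
    rw [hP, Complex.cpow_def_of_ne_zero hk0]
    exact Complex.exp_ne_zero _
  have hinv : P * k ^ w = 1 := by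
    rw [hP, ← Complex.cpow_add _ _ hk0, neg_add_cancel, Complex.cpow_zero]
  have hK : k ^ w = P⁻¹ := eq_inv_of_mul_eq_one_right hinv
  have hK2 : k ^ ((2 - 2 * s : ℝ) : ℂ) = k ^ 2 * P := by
    have h3 : ((2 - 2 * s : ℝ) : ℂ) = 2 + -w := by
      rw [hw]
      push_cast
      ring
    rw [h3, Complex.cpow_add _ _ hk0, Complex.cpow_ofNat]
  rw [hK, hK2]
  have e1 : (1 : ℂ) / (A - P⁻¹) = P * (1 / (A * P - 1)) := by
    have h3 : A * P - 1 = P * (A - P⁻¹) := by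
      rw [mul_sub, mul_inv_cancel₀ hP0]
      ring
    rw [h3, mul_one_div, div_mul_eq_div_div, div_self hP0]
  have e2 : (1 : ℂ) / (((a : ℂ) / k) ^ 2 - 1) = k ^ 2 * (1 / ((a : ℂ) ^ 2 - k ^ 2)) := by
    have h3 : ((a : ℂ) / k) ^ 2 - 1 = ((a : ℂ) ^ 2 - k ^ 2) / k ^ 2 := by
      rw [div_pow, sub_div, div_self (pow_ne_zero 2 hk0)]
    rw [h3, one_div_div, mul_one_div]
  rw [e1, e2]
  ring

private theorem Symb_ne {k : ℂ} (hk : k ∈ Quad) {a : ℝ} (hak : (a : ℂ) ≠ k) : (a : ℂ) / k ≠ 1 := by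
  intro h
  rw [div_eq_one_iff_eq hk.2.2] at h
  exact hak h

theorem hs_bound {s : ℝ} (h0 : 0 < s) (h2 : s < 2) :
    ∃ C : ℝ, 0 ≤ C ∧ ∀ k ∈ Quad, ∀ a : ℝ, 0 ≤ a → (a : ℂ) ≠ k →
      ‖hs s k a‖ ≤ C * ‖k‖ ^ (-(2 * s)) := by
  obtain ⟨C, hC, h⟩ := Hx_bound h0 h2
  refine ⟨C, hC, fun k hk a ha hak => ?_⟩
  rw [hs_eq_Hx h0 h2 hk ha, norm_mul, Complex.norm_cpow_real, mul_comm]
  exact mul_le_mul_of_nonneg_right (h _ (Symb_mem hk ha) (Symb_ne hk hak)) (by positivity)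

theorem hs_cont {s : ℝ} (h0 : 0 < s) (h2 : s < 2) {k₀ : ℂ} (hk₀ : k₀ ∈ Quad) {ε : ℝ}
    (hε : 0 < ε) :
    ∃ δ : ℝ, 0 < δ ∧ ∀ k ∈ Quad, ‖k - k₀‖ < δ → ∀ a : ℝ, 0 ≤ a → (a : ℂ) ≠ k → (a : ℂ) ≠ k₀ →
      ‖hs s k a - hs s k₀ a‖ ≤ ε := by
  obtain ⟨C, hC, hCb⟩ := Hx_bound h0 h2
  have hr : 0 < ‖k₀‖ := norm_pos_iff.2 hk₀.2.2
  set r : ℝ := ‖k₀‖ with hrdef
  set p₀ : ℝ := ‖k₀ ^ ((-(2 * s) : ℝ) : ℂ)‖ with hp₀
  have hp0 : 0 ≤ p₀ := norm_nonneg _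
  set η : ℝ := ε / (2 * (p₀ + 1)) with hη
  have hη0 : 0 < η := by positivity
  obtain ⟨M₀, hM₀⟩ := Hx_infty h0 h2 (ε := η / 2) (by positivity)
  set M₁ : ℝ := 2 * (max M₀ 0 + 1) with hM₁
  have hM₁0 : 0 < M₁ := by
    have := le_max_right M₀ 0
    rw [hM₁]
    linarith
  have hM₁M : M₀ < M₁ / 2 := by
    have := le_max_left M₀ 0
    rw [hM₁]
    linarith
  obtain ⟨δ₂, hδ₂, hδ₂'⟩ := Hx_uc h0 h2 (2 * M₁) hη0
  -- continuity of the power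
  have hcont : ContinuousAt (fun k : ℂ => k ^ ((-(2 * s) : ℝ) : ℂ)) k₀ :=
    continuousAt_cpow_const (Symb_slit hk₀)
  obtain ⟨δ₁, hδ₁, hδ₁'⟩ := (Metric.continuousAt_iff.1 hcont) (ε / (2 * (C + 1))) (by positivity)
  refine ⟨min (min δ₁ (r / 4)) (δ₂ * r / (2 * M₁)), by positivity, ?_⟩
  intro k hk hkk a ha hak hak₀
  have hk1 : ‖k - k₀‖ < δ₁ := lt_of_lt_of_le hkk ((min_le_left _ _).trans (min_le_left _ _))
  have hk2 : ‖k - k₀‖ < r / 4 := lt_of_lt_of_le hkk ((min_le_left _ _).trans (min_le_right _ _))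
  have hk3 : ‖k - k₀‖ < δ₂ * r / (2 * M₁) := lt_of_lt_of_le hkk (min_le_right _ _)
  have hkn1 : ‖k‖ ≤ 2 * r := by
    have := norm_add_le (k - k₀) k₀
    rw [sub_add_cancel] at this
    linarith
  have hkn2 : r / 2 ≤ ‖k‖ := by
    have := norm_sub_norm_le k₀ k
    rw [norm_sub_rev] at this
    linarith
  have hkpos : 0 < ‖k‖ := by linarith
  have hH : ‖Hx s (a / k) - Hx s (a / k₀)‖ ≤ η := by
    have hna : ‖(a : ℂ) / k‖ = a / ‖k‖ := by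
      rw [norm_div, Complex.norm_real, Real.norm_of_nonneg ha]
    have hna₀ : ‖(a : ℂ) / k₀‖ = a / r := by
      rw [norm_div, Complex.norm_real, Real.norm_of_nonneg ha]
    rcases lt_or_ge M₁ (a / r) with hbig | hsm
    · have h3 : M₀ < ‖(a : ℂ) / k₀‖ := by
        rw [hna₀]
        linarith
      have h4 : M₀ < ‖(a : ℂ) / k‖ := by
        rw [hna]
        have h5 : a / (2 * r) ≤ a / ‖k‖ := div_le_div_of_nonneg_left ha hkpos hkn1
        have h6 : a / (2 * r) = (a / r) / 2 := by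
          field_simp
        linarith
      have h7 := hM₀ _ (Symb_mem hk ha) h4
      have h8 := hM₀ _ (Symb_mem hk₀ ha) h3
      refine (norm_sub_le _ _).trans ?_
      linarith
    · refine (hδ₂' _ (Symb_mem hk ha) _ (Symb_mem hk₀ ha) ?_ ?_ (Symb_ne hk hak)
        (Symb_ne hk₀ hak₀) ?_).le
      · rw [hna]
        have h5 : a / ‖k‖ ≤ a / (r / 2) := div_le_div_of_nonneg_left ha (by positivity) hkn2
        have h6 : a / (r / 2) = 2 * (a / r) := by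
          field_simp
        linarith
      · rw [hna₀]
        linarith
      · have h5 : (a : ℂ) / k - (a : ℂ) / k₀ = (a : ℂ) * (k₀ - k) / (k * k₀) := by
          have := hk.2.2
          have := hk₀.2.2
          field_simp
        rw [h5, norm_div, norm_mul, norm_mul, Complex.norm_real, Real.norm_of_nonneg ha,
          norm_sub_rev, ← hrdef]
        have h6 : a * ‖k - k₀‖ / (‖k‖ * r) = (a / r) * (‖k - k₀‖ / ‖k‖) := by
          field_simp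
        rw [h6]
        have h7 : ‖k - k₀‖ / ‖k‖ ≤ ‖k - k₀‖ / (r / 2) :=
          div_le_div_of_nonneg_left (norm_nonneg _) (by positivity) hkn2
        have h8 : ‖k - k₀‖ / (r / 2) < δ₂ / M₁ := by
          rw [div_lt_div_iff₀ (by positivity) hM₁0]
          rw [lt_div_iff₀ (by positivity)] at hk3
          linarith
        have h9 : 0 ≤ a / r := by positivity
        calc (a / r) * (‖k - k₀‖ / ‖k‖) ≤ M₁ * (‖k - k₀‖ / ‖k‖) :=
              mul_le_mul_of_nonneg_right hsm (by positivity)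
          _ < M₁ * (δ₂ / M₁) := mul_lt_mul_of_pos_left (lt_of_le_of_lt h7 h8) hM₁0
          _ = δ₂ := by field_simp
  have hpw : ‖k ^ ((-(2 * s) : ℝ) : ℂ) - k₀ ^ ((-(2 * s) : ℝ) : ℂ)‖ ≤ ε / (2 * (C + 1)) := by
    have := hδ₁' (x := k) (by rw [dist_eq_norm]; exact hk1)
    rw [dist_eq_norm] at this
    exact this.le
  have hb := hCb _ (Symb_mem hk ha) (Symb_ne hk hak)
  rw [hs_eq_Hx h0 h2 hk ha, hs_eq_Hx h0 h2 hk₀ ha]
  have hsplit : k ^ ((-(2 * s) : ℝ) : ℂ) * Hx s (a / k) -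
      k₀ ^ ((-(2 * s) : ℝ) : ℂ) * Hx s (a / k₀) =
      (k ^ ((-(2 * s) : ℝ) : ℂ) - k₀ ^ ((-(2 * s) : ℝ) : ℂ)) * Hx s (a / k) +
        k₀ ^ ((-(2 * s) : ℝ) : ℂ) * (Hx s (a / k) - Hx s (a / k₀)) := by ring
  rw [hsplit]
  refine (norm_add_le _ _).trans ?_
  rw [norm_mul, norm_mul, ← hp₀]
  have e1 : ‖k ^ ((-(2 * s) : ℝ) : ℂ) - k₀ ^ ((-(2 * s) : ℝ) : ℂ)‖ * ‖Hx s (a / k)‖ ≤ ε / 2 := by
    calc ‖k ^ ((-(2 * s) : ℝ) : ℂ) - k₀ ^ ((-(2 * s) : ℝ) : ℂ)‖ * ‖Hx s (a / k)‖ ≤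
        ε / (2 * (C + 1)) * C := mul_le_mul hpw hb (norm_nonneg _) (by positivity)
      _ ≤ ε / 2 := by
        rw [div_mul_eq_mul_div, div_le_div_iff₀ (by positivity) (by norm_num)]
        nlinarith
  have e2 : p₀ * ‖Hx s (a / k) - Hx s (a / k₀)‖ ≤ ε / 2 := by
    calc p₀ * ‖Hx s (a / k) - Hx s (a / k₀)‖ ≤ p₀ * η := mul_le_mul_of_nonneg_left hH hp0
      _ ≤ ε / 2 := by
        rw [hη, mul_div_assoc', div_le_div_iff₀ (by positivity) (by norm_num)]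
        nlinarith
  linarith

theorem hs_measurable (s : ℝ) (k : ℂ) : Measurable (fun a => hs s k a) := by
  unfold hs rs ck
  fun_prop

/-- The resolvent symbol has no pole for `Im k > 0`. -/
theorem rs_denom_ne {s : ℝ} (h0 : 0 < s) (h2 : s < 2) {k : ℂ} (hk : k ∈ Quad) (hk' : 0 < k.im)
    {a : ℝ} (ha : 0 ≤ a) : ((a ^ (2 * s) : ℝ) : ℂ) - k ^ ((2 * s : ℝ) : ℂ) ≠ 0 := by
  intro h
  have hk0 : k ≠ 0 := hk.2.2
  have hne : (a : ℂ) ≠ k := by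
    intro he
    rw [← he, Complex.ofReal_im] at hk'
    exact lt_irrefl _ hk'
  apply cpow_ne_one h0 h2 (Symb_mem hk ha) (Symb_ne hk hne)
  rw [Symb_pow (w := 2 * s) (by linarith) hk ha, sub_eq_zero.1 h, Complex.ofReal_neg,
    ← Complex.cpow_add _ _ hk0, add_neg_cancel, Complex.cpow_zero]

end FracScat

end
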