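import Pool.Agent.Lib.MP_6e2ba5_an.PhiB
import Pool.Agent.Lib.MP_6e2ba5_an.Symb

/-! # The outgoing field of a source: definitions and symbols

For real `k > 0` and a source `f`: the field is `vf = c cv (Pk k) f + multL (qs s k) f` with
`c = k^(2-2s)/s`, `qs = hs + c Yh`; the vector field `D^s vf` is
`wf j = d cv (dPk k j) f + multL (qg s j k) f` with `d = k^(1-s)/s`,
`qg = i (2πξ_j) (ht + d Yh)`, `ht = a^(s-1)/(a^(2s)-k^(2s)) - d/(a²-k²)`.
`ht_bound`: `a ht` is bounded: `ht = [c a^(s-1) - d]/(a²-k²) + a^(s-1) hs` for `a ≠ k`, `a > 0`;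
near `a = k` the bracket `d ((k/a)^(1-s) - 1)` is `O(|a-k|)` (mean value theorem), away from `k`
and for large or small `a` estimate directly (`a^s/(1+a^(2s))` is bounded, `hs` is bounded by
`hs_bound`; for large `a` use the definition of `ht`).
`qg_BM`: `|2πξ_j| ≤ a`, and `a Yh` is bounded. -/

set_option autoImplicit false

open MeasureTheory Filter Topology Set
open scoped FourierTransform SchwartzMap InnerProductSpace ENNReal ContDiff

noncomputable section

namespace FracScat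

/-- `k^(1-s)/s`. -/
def dk (s k : ℝ) : ℝ := k ^ (1 - s) / s

/-- `a^(s-1)/(a^(2s) - k^(2s)) - d/(a² - k²)`. -/
def ht (s k a : ℝ) : ℂ :=
  ((a ^ (s - 1) : ℝ) : ℂ) * rs s k a - (dk s k : ℂ) * (1 / ((a : ℂ) ^ 2 - (k : ℂ) ^ 2))

/-- Symbol of the square integrable part of the field. -/
def qs (s k : ℝ) (ξ : E3) : ℂ :=
  hs s k (2 * Real.pi * ‖ξ‖) + ck s k * Yh k (2 * Real.pi * ‖ξ‖)

/-- Symbol of the square integrable part of `D^s` of the field. -/
def qg (s : ℝ) (j : Fin 3) (k : ℝ) (ξ : E3) : ℂ :=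
  Complex.I * ((2 * Real.pi * ξ j : ℝ) : ℂ) *
    (ht s k (2 * Real.pi * ‖ξ‖) + (dk s k : ℂ) * Yh k (2 * Real.pi * ‖ξ‖))

theorem rs_real {s k : ℝ} (hk : 0 < k) (a : ℝ) :
    rs s k a = ((1 / (a ^ (2 * s) - k ^ (2 * s)) : ℝ) : ℂ) := by
  unfold rs
  rw [← Complex.ofReal_cpow hk.le]
  push_cast
  rfl

theorem ck_real {s k : ℝ} (hk : 0 < k) : ck s k = ((k ^ (2 - 2 * s) / s : ℝ) : ℂ) := by
  unfold ck
  rw [← Complex.ofReal_cpow hk.le]
  push_cast
  rfl

private theorem PhysDefs_sinh_pos {x : ℝ} (hx : 0 < x) : |1 / Real.sinh x - 1 / x| ≤ 1 := by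
  have hs : 0 < Real.sinh x := Real.sinh_pos_iff.2 hx
  have h1 : x ≤ Real.sinh x := Real.self_le_sinh_iff.2 hx.le
  have h2 : 1 / Real.sinh x ≤ 1 / x := one_div_le_one_div_of_le hx h1
  have h3 : Real.sinh x - x ≤ x * Real.sinh x := by
    rcases le_or_gt 1 x with h | h
    · nlinarith
    · have e1 : 1 - x ≤ Real.exp (-x) := by linarith [Real.add_one_le_exp (-x)]
      have e2 : 0 < 1 - x := by linarith
      have e3 : Real.exp x * (1 - x) ≤ 1 := by
        calc Real.exp x * (1 - x) ≤ Real.exp x * Real.exp (-x) :=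
              mul_le_mul_of_nonneg_left e1 (Real.exp_pos x).le
          _ = 1 := by rw [← Real.exp_add, add_neg_cancel, Real.exp_zero]
      have e4 : Real.sinh x = (Real.exp x - Real.exp (-x)) / 2 := Real.sinh_eq x
      have e5 : Real.sinh x * (1 - x) ≤ x := by
        rw [e4]
        have e6 : (1 - x) * (1 - x) ≤ Real.exp (-x) * (1 - x) := mul_le_mul_of_nonneg_right e1 e2.le
        nlinarith [sq_nonneg x]
      linarith
  have h4 : 1 / x - 1 / Real.sinh x ≤ 1 := by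
    rw [div_sub_div _ _ hx.ne' hs.ne', div_le_one (mul_pos hx hs)]
    linarith
  rw [abs_le]
  constructor <;> linarith

private theorem PhysDefs_sinh {x : ℝ} (hx : x ≠ 0) : |1 / Real.sinh x - 1 / x| ≤ 1 := by
  rcases lt_or_gt_of_ne hx with h | h
  · have h1 := PhysDefs_sinh_pos (neg_pos.2 h)
    rw [Real.sinh_neg] at h1
    have h2 : 1 / -Real.sinh x - 1 / -x = -(1 / Real.sinh x - 1 / x) := by
      rw [one_div_neg_eq_neg_one_div, one_div_neg_eq_neg_one_div]
      ring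
    rw [h2, abs_neg] at h1
    exact h1
  · exact PhysDefs_sinh_pos h

private theorem PhysDefs_main {s : ℝ} (h0 : 0 < s) {k : ℝ} (hk : 0 < k) {t : ℝ} (ht : t ≠ 0) :
    |(k * Real.exp t) ^ s / ((k * Real.exp t) ^ (2 * s) - k ^ (2 * s)) -
      k ^ (1 - s) / s * ((k * Real.exp t) / ((k * Real.exp t) ^ 2 - k ^ 2))| ≤
      k ^ (-s) / 2 * (1 + 1 / s) := by
  have hks : 0 < k ^ s := Real.rpow_pos_of_pos hk s
  have e1 : (k * Real.exp t) ^ s = k ^ s * Real.exp (s * t) := by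
    rw [Real.mul_rpow hk.le (Real.exp_pos t).le, ← Real.exp_mul, mul_comm t s]
  have e2 : (k * Real.exp t) ^ (2 * s) = (k ^ s) ^ 2 * Real.exp (s * t) ^ 2 := by
    rw [Real.mul_rpow hk.le (Real.exp_pos t).le, ← Real.exp_mul, ← Real.rpow_natCast (k ^ s) 2,
      ← Real.rpow_mul hk.le, ← Real.exp_nat_mul]
    congr 1
    · congr 1
      push_cast
      ring
    · congr 1
      push_cast
      ring
  have e3 : k ^ (2 * s) = (k ^ s) ^ 2 := by
    rw [← Real.rpow_natCast (k ^ s) 2, ← Real.rpow_mul hk.le]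
    congr 1
    push_cast
    ring
  have e4 : k ^ (-s) = (k ^ s)⁻¹ := Real.rpow_neg hk.le s
  have e5 : k ^ (1 - s) = k * (k ^ s)⁻¹ := by
    rw [Real.rpow_sub hk, Real.rpow_one, div_eq_mul_inv]
  have hst : s * t ≠ 0 := mul_ne_zero h0.ne' ht
  have hS1 : Real.sinh (s * t) ≠ 0 := by
    rw [Ne, Real.sinh_eq_zero]
    exact hst
  have hS2 : Real.sinh t ≠ 0 := by
    rw [Ne, Real.sinh_eq_zero]
    exact ht
  have f1 : Real.exp (s * t) ^ 2 - 1 = 2 * Real.exp (s * t) * Real.sinh (s * t) := by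
    rw [Real.sinh_eq, Real.exp_neg]
    field_simp
  have f2 : Real.exp t ^ 2 - 1 = 2 * Real.exp t * Real.sinh t := by
    rw [Real.sinh_eq, Real.exp_neg]
    field_simp
  have g1 : (k * Real.exp t) ^ s / ((k * Real.exp t) ^ (2 * s) - k ^ (2 * s)) =
      (k ^ s)⁻¹ / 2 * (1 / Real.sinh (s * t)) := by
    rw [e1, e2, e3, show (k ^ s) ^ 2 * Real.exp (s * t) ^ 2 - (k ^ s) ^ 2 =
      (k ^ s) ^ 2 * (Real.exp (s * t) ^ 2 - 1) by ring, f1]
    have := (Real.exp_pos (s * t)).ne'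
    field_simp
  have g2 : (k * Real.exp t) / ((k * Real.exp t) ^ 2 - k ^ 2) = k⁻¹ / 2 * (1 / Real.sinh t) := by
    rw [show (k * Real.exp t) ^ 2 - k ^ 2 = k ^ 2 * (Real.exp t ^ 2 - 1) by ring, f2]
    have := (Real.exp_pos t).ne'
    field_simp
  have g3 : (k * Real.exp t) ^ s / ((k * Real.exp t) ^ (2 * s) - k ^ (2 * s)) -
      k ^ (1 - s) / s * ((k * Real.exp t) / ((k * Real.exp t) ^ 2 - k ^ 2)) =
      (k ^ s)⁻¹ / 2 * ((1 / Real.sinh (s * t) - 1 / (s * t)) - 1 / s * (1 / Real.sinh t - 1 / t)) := by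
    rw [g1, g2, e5]
    field_simp
    ring
  rw [g3, e4, abs_mul, abs_of_pos (by positivity : 0 < (k ^ s)⁻¹ / 2)]
  refine mul_le_mul_of_nonneg_left ?_ (by positivity)
  have b1 := PhysDefs_sinh hst
  have b2 := PhysDefs_sinh ht
  refine (abs_sub _ _).trans (add_le_add b1 ?_)
  rw [abs_mul, abs_of_pos (by positivity : 0 < 1 / s)]
  exact mul_le_of_le_one_right (by positivity) b2

theorem ht_bound {s : ℝ} (h0 : 1 / 2 < s) (h2 : s < 2) {k : ℝ} (hk : 0 < k) :
    ∃ C : ℝ, 0 ≤ C ∧ ∀ a : ℝ, 0 ≤ a → a ≠ k → ‖(a : ℂ) * ht s k a‖ ≤ C := by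
  have hs0 : 0 < s := by linarith
  have hks : 0 < k ^ (-s) := Real.rpow_pos_of_pos hk _
  refine ⟨k ^ (-s) / 2 * (1 + 1 / s), by positivity, ?_⟩
  intro a ha hak
  rcases eq_or_lt_of_le ha with h | h
  · rw [← h]
    simp only [Complex.ofReal_zero, zero_mul, norm_zero]
    positivity
  · have hne : Real.log (a / k) ≠ 0 := by
      intro hlog
      have h1 := Real.eq_one_of_pos_of_log_eq_zero (div_pos h hk) hlog
      rw [div_eq_one_iff_eq hk.ne'] at h1
      exact hak h1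
    have hexp : k * Real.exp (Real.log (a / k)) = a := by
      rw [Real.exp_log (div_pos h hk), mul_div_cancel₀ _ hk.ne']
    have hm := PhysDefs_main hs0 hk hne
    rw [hexp] at hm
    have h3 : (a : ℂ) * ht s k a = ((a ^ s / (a ^ (2 * s) - k ^ (2 * s)) -
        k ^ (1 - s) / s * (a / (a ^ 2 - k ^ 2)) : ℝ) : ℂ) := by
      unfold ht dk
      rw [rs_real hk, show a ^ (s - 1) = a ^ s / a from Real.rpow_sub_one h.ne' s]
      push_cast
      have hac : (a : ℂ) ≠ 0 := by exact_mod_cast h.ne'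
      rw [mul_sub]
      congr 1
      · rw [div_mul_div_comm, mul_one, ← mul_div_assoc, mul_div_mul_left _ _ hac]
      · ring
    rw [h3, Complex.norm_real, Real.norm_eq_abs]
    exact hm

private theorem PhysDefs_sphere {k : ℝ} : ∀ᵐ ξ ∂(volume : Measure E3), 2 * Real.pi * ‖ξ‖ ≠ k := by
  have h1 : (volume : Measure E3) (Metric.sphere (0 : E3) (k / (2 * Real.pi))) = 0 :=
    Measure.addHaar_sphere _ _ _
  rw [ae_iff]
  refine measure_mono_null ?_ h1
  intro ξ hξ
  simp only [mem_setOf_eq, not_not] at hξ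
  rw [mem_sphere_zero_iff_norm, ← hξ]
  field_simp

private theorem PhysDefs_Yh_bound (k : ℝ) (a : ℝ) : ‖Yh k a‖ ≤ 1 + (k ^ 2 + 1) ∧
    (0 ≤ a → a * ‖Yh k a‖ ≤ 1 + (k ^ 2 + 1)) := by
  have h1 : Yh k a = ((1 / (a ^ 2 + 1) + (k ^ 2 + 1) / (a ^ 2 + 1) ^ 2 : ℝ) : ℂ) := by
    unfold Yh
    push_cast
    rfl
  have hp : 0 < a ^ 2 + 1 := by positivity
  have hn : 0 ≤ 1 / (a ^ 2 + 1) + (k ^ 2 + 1) / (a ^ 2 + 1) ^ 2 := by positivity
  rw [h1, Complex.norm_real, Real.norm_of_nonneg hn]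
  have hge : 1 ≤ (a ^ 2 + 1) ^ 2 := by nlinarith [sq_nonneg a, sq_nonneg (a ^ 2)]
  constructor
  · refine add_le_add ?_ ?_
    · rw [div_le_one hp]
      nlinarith [sq_nonneg a]
    · exact div_le_self (by positivity) hge
  · intro ha
    rw [mul_add]
    refine add_le_add ?_ ?_
    · rw [mul_one_div, div_le_one hp]
      nlinarith [sq_nonneg (a - 1)]
    · rw [mul_div_assoc', div_le_iff₀ (by positivity), mul_comm]
      refine mul_le_mul_of_nonneg_left ?_ (by positivity)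
      nlinarith [sq_nonneg (a - 1), sq_nonneg a, sq_nonneg (a ^ 2)]

private theorem PhysDefs_Yh_meas (k : ℂ) : Measurable (fun a : ℝ => Yh k a) := by
  unfold Yh
  fun_prop

theorem qs_BM {s : ℝ} (h0 : 1 / 2 < s) (h2 : s < 2) {k : ℝ} (hk : 0 < k) : BM (qs s k) := by
  have hs0 : 0 < s := by linarith
  have hn : Measurable (fun ξ : E3 => 2 * Real.pi * ‖ξ‖) := measurable_const.mul measurable_norm
  obtain ⟨C, hC, hb⟩ := hs_bound hs0 h2
  have hkq : (k : ℂ) ∈ Quad := ⟨by simpa using hk.le, by simp, by exact_mod_cast hk.ne'⟩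
  refine ⟨?_, C * ‖(k : ℂ)‖ ^ (-(2 * s)) + ‖ck s k‖ * (1 + (k ^ 2 + 1)), ?_⟩
  · refine Measurable.aestronglyMeasurable ?_
    exact ((hs_measurable s k).comp hn).add (((PhysDefs_Yh_meas k).comp hn).const_mul _)
  · filter_upwards [PhysDefs_sphere (k := k)] with ξ hξ
    unfold qs
    refine (norm_add_le _ _).trans (add_le_add ?_ ?_)
    · refine hb k hkq _ (by positivity) ?_
      intro h
      exact hξ (by exact_mod_cast h)
    · rw [norm_mul]
      exact mul_le_mul_of_nonneg_left (PhysDefs_Yh_bound k _).1 (norm_nonneg _)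

theorem qg_BM {s : ℝ} (h0 : 1 / 2 < s) (h2 : s < 2) (j : Fin 3) {k : ℝ} (hk : 0 < k) :
    BM (qg s j k) := by
  have hs0 : 0 < s := by linarith
  have hn : Measurable (fun ξ : E3 => 2 * Real.pi * ‖ξ‖) := measurable_const.mul measurable_norm
  obtain ⟨C, hC, hb⟩ := ht_bound h0 h2 hk
  refine ⟨?_, C + ‖(dk s k : ℂ)‖ * (1 + (k ^ 2 + 1)), ?_⟩
  · refine Measurable.aestronglyMeasurable ?_
    have hht : Measurable (fun a : ℝ => ht s k a) := by
      unfold ht rs
      fun_prop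
    have hxi : Measurable (fun ξ : E3 => ((2 * Real.pi * ξ j : ℝ) : ℂ)) := by fun_prop
    exact (hxi.const_mul _).mul ((hht.comp hn).add (((PhysDefs_Yh_meas k).comp hn).const_mul _))
  · filter_upwards [PhysDefs_sphere (k := k)] with ξ hξ
    unfold qg
    set a : ℝ := 2 * Real.pi * ‖ξ‖ with ha
    have ha0 : 0 ≤ a := by positivity
    have h1 : ‖Complex.I * ((2 * Real.pi * ξ j : ℝ) : ℂ)‖ ≤ a := by
      rw [norm_mul, Complex.norm_I, one_mul, Complex.norm_real, norm_mul, norm_mul,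
        Real.norm_of_nonneg (by norm_num : (0 : ℝ) ≤ 2), Real.norm_of_nonneg Real.pi_pos.le, ha]
      exact mul_le_mul_of_nonneg_left (PiLp.norm_apply_le ξ j) (by positivity)
    rw [norm_mul]
    refine (mul_le_mul_of_nonneg_right h1 (norm_nonneg _)).trans ?_
    refine (mul_le_mul_of_nonneg_left (norm_add_le _ _) ha0).trans ?_
    rw [mul_add]
    refine add_le_add ?_ ?_
    · have := hb a ha0 hξ
      rwa [norm_mul, Complex.norm_real, Real.norm_of_nonneg ha0] at this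
    · rw [norm_mul, mul_left_comm]
      exact mul_le_mul_of_nonneg_left ((PhysDefs_Yh_bound k a).2 ha0) (norm_nonneg _)

end FracScat

end
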