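import Pool.Agent.Lib.MP_6e2ba5_an.PhiB

/-! # Calculus of the regularised outgoing kernel

`pk k r = ((ik+1)/4π) ∫_0^1 exp((ikt - (1-t)) r) dt - (k²+1) exp(-r)/(8π)` for every `r ≥ 0`, so
`pk` extends to a smooth function of `r ∈ ℝ` with derivative `dpk`, `dpk k 0 = 0`, and
`|dpk k r| ≤ C r` for `0 ≤ r ≤ 1`. Hence `Pk k x = pk k ‖x‖` is differentiable everywhere with
partial derivatives `dPk k j`, which are continuous.
For `Im k ≥ 0`, `|k| ≤ M`: `|pk k r| ≤ C(M)/(1+r)`. For real `k > 0` and `r ≥ 1`: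
`dpk - ik pk = -exp(ikr)/(4π r²) + O(exp(-r))`. -/

set_option autoImplicit false

open MeasureTheory Filter Topology Set
open scoped FourierTransform SchwartzMap InnerProductSpace ENNReal

noncomputable section

namespace FracScat

/-- The derivative of `pk k`. -/
def dpk (k : ℂ) (r : ℝ) : ℂ :=
  if r = 0 then 0
  else (Complex.I * k * Complex.exp (Complex.I * k * r) + Complex.exp (-r)) / (4 * Real.pi * r) -
    (Complex.exp (Complex.I * k * r) - Complex.exp (-r)) / (4 * Real.pi * r ^ 2) +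
    (k ^ 2 + 1) / (8 * Real.pi) * Complex.exp (-r)

/-- The partial derivatives of `Pk k`. -/
def dPk (k : ℂ) (j : Fin 3) (x : E3) : ℂ := dpk k ‖x‖ * ((x j / ‖x‖ : ℝ) : ℂ)


private def FF (k : ℂ) (z : ℂ) : ℂ := Complex.exp (Complex.I * k * z) - Complex.exp (-z)

private theorem FF_hasDerivAt (k z : ℂ) : HasDerivAt (FF k)
    (Complex.I * k * Complex.exp (Complex.I * k * z) + Complex.exp (-z)) z := by
  have h1 : HasDerivAt (fun z : ℂ => Complex.exp (Complex.I * k * z))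
      (Complex.exp (Complex.I * k * z) * (Complex.I * k * 1)) z :=
    ((hasDerivAt_id z).const_mul (Complex.I * k)).cexp
  have h2 : HasDerivAt (fun z : ℂ => Complex.exp (-z)) (Complex.exp (-z) * (-1)) z :=
    ((hasDerivAt_id z).neg).cexp
  have h3 := h1.sub h2
  exact h3.congr_deriv (by ring)

private theorem FF_diff (k : ℂ) : Differentiable ℂ (FF k) :=
  fun z => (FF_hasDerivAt k z).differentiableAt

private theorem FF_zero (k : ℂ) : FF k 0 = 0 := by simp [FF]

private theorem FF_deriv_hasDerivAt (k z : ℂ) : HasDerivAt (deriv (FF k))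
    ((Complex.I * k) ^ 2 * Complex.exp (Complex.I * k * z) - Complex.exp (-z)) z := by
  have h0 : deriv (FF k) = fun z => Complex.I * k * Complex.exp (Complex.I * k * z) +
      Complex.exp (-z) := by
    funext z
    exact (FF_hasDerivAt k z).deriv
  rw [h0]
  have h1 : HasDerivAt (fun z : ℂ => Complex.exp (Complex.I * k * z))
      (Complex.exp (Complex.I * k * z) * (Complex.I * k * 1)) z :=
    ((hasDerivAt_id z).const_mul (Complex.I * k)).cexp
  have h2 : HasDerivAt (fun z : ℂ => Complex.exp (-z)) (Complex.exp (-z) * (-1)) z :=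
    ((hasDerivAt_id z).neg).cexp
  have h3 := (h1.const_mul (Complex.I * k)).add h2
  exact h3.congr_deriv (by ring)

private def GG (k : ℂ) : ℂ → ℂ := dslope (FF k) 0

private theorem GG_diff (k : ℂ) : Differentiable ℂ (GG k) := by
  have h := (Complex.differentiableOn_dslope (f := FF k) (c := 0) (s := Set.univ)
    Filter.univ_mem).2 (FF_diff k).differentiableOn
  exact differentiableOn_univ.1 h

private theorem GG_deriv_diff (k : ℂ) : Differentiable ℂ (deriv (GG k)) :=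
  differentiableOn_univ.1 ((GG_diff k).differentiableOn.deriv isOpen_univ)

private theorem FF_eq (k z : ℂ) : FF k z = z * GG k z := by
  have h := sub_smul_dslope (FF k) 0 z
  rw [FF_zero, sub_zero, sub_zero, smul_eq_mul] at h
  exact h.symm

private theorem GG_zero (k : ℂ) : GG k 0 = Complex.I * k + 1 := by
  rw [GG, dslope_same, (FF_hasDerivAt k 0).deriv]
  simp

private theorem GG_deriv_eq (k z : ℂ) : z * deriv (GG k) z = deriv (FF k) z - GG k z := by
  have h1 : HasDerivAt (FF k) (1 * GG k z + z * deriv (GG k) z) z := by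
    have h := (hasDerivAt_id z).mul (GG_diff k z).hasDerivAt
    have h' : FF k = fun z => id z * GG k z := by
      funext z
      exact FF_eq k z
    rw [h']
    exact h
  rw [h1.deriv]
  ring

private theorem GG_deriv_zero (k : ℂ) : deriv (GG k) 0 = -(k ^ 2 + 1) / 2 := by
  have h1 : HasDerivAt (fun z => z * deriv (GG k) z)
      (1 * deriv (GG k) 0 + 0 * deriv (deriv (GG k)) 0) 0 :=
    (hasDerivAt_id (0 : ℂ)).mul (GG_deriv_diff k 0).hasDerivAt
  have h2 : HasDerivAt (fun z => z * deriv (GG k) z)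
      (((Complex.I * k) ^ 2 * Complex.exp (Complex.I * k * 0) - Complex.exp (-0)) -
        deriv (GG k) 0) 0 := by
    have h' : (fun z => z * deriv (GG k) z) = fun z => deriv (FF k) z - GG k z := by
      funext z
      exact GG_deriv_eq k z
    rw [h']
    exact (FF_deriv_hasDerivAt k 0).sub (GG_diff k 0).hasDerivAt
  have h3 := h1.unique h2
  simp only [mul_zero, Complex.exp_zero, neg_zero, one_mul, zero_mul, add_zero, mul_one,
    mul_pow, Complex.I_sq] at h3
  linear_combination (1 / 2 : ℂ) * h3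

private theorem pk_eq (k : ℂ) (r : ℝ) : pk k r =
    GG k r / (4 * Real.pi) - (k ^ 2 + 1) / (8 * Real.pi) * Complex.exp (-r) := by
  rcases eq_or_ne r 0 with h | h
  · subst h
    simp [pk, GG_zero]
  · have hr : (r : ℂ) ≠ 0 := by exact_mod_cast h
    have hp : (Real.pi : ℂ) ≠ 0 := by exact_mod_cast Real.pi_ne_zero
    have e := FF_eq k r
    rw [FF] at e
    rw [pk, if_neg h, e]
    congr 1
    field_simp

private theorem dpk_eq (k : ℂ) (r : ℝ) : dpk k r =
    deriv (GG k) r / (4 * Real.pi) + (k ^ 2 + 1) / (8 * Real.pi) * Complex.exp (-r) := by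
  have hp : (Real.pi : ℂ) ≠ 0 := by exact_mod_cast Real.pi_ne_zero
  rcases eq_or_ne r 0 with h | h
  · subst h
    rw [dpk, if_pos rfl, Complex.ofReal_zero, GG_deriv_zero, neg_zero, Complex.exp_zero]
    field_simp
    ring
  · have hr : (r : ℂ) ≠ 0 := by exact_mod_cast h
    have e := FF_eq k r
    have e2 := GG_deriv_eq k r
    rw [(FF_hasDerivAt k r).deriv] at e2
    rw [FF] at e
    have e3 : deriv (GG k) r = (Complex.I * k * Complex.exp (Complex.I * k * r) +
        Complex.exp (-r)) / r - (Complex.exp (Complex.I * k * r) - Complex.exp (-r)) / r ^ 2 := by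
      rw [e]
      field_simp
      linear_combination e2
    rw [dpk, if_neg h, e3]
    field_simp

private theorem pk_hasDerivAt (k : ℂ) (r : ℝ) : HasDerivAt (pk k) (dpk k r) r := by
  have h1 : HasDerivAt (fun y : ℝ => GG k y) (deriv (GG k) r) r :=
    ((GG_diff k r).hasDerivAt).comp_ofReal
  have h2 : HasDerivAt (fun y : ℝ => Complex.exp (-(y : ℂ))) (-Complex.exp (-(r : ℂ))) r := by
    have h2' : HasDerivAt (fun z : ℂ => Complex.exp (-z)) (Complex.exp (-(r : ℂ)) * (-1)) (r : ℂ) :=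
      ((hasDerivAt_id (r : ℂ)).neg).cexp
    have := h2'.comp_ofReal
    convert this using 1
    ring
  have h3 := (h1.div_const (4 * Real.pi : ℂ)).sub
    (h2.const_mul ((k ^ 2 + 1) / (8 * Real.pi)))
  have h4 : pk k = fun y : ℝ => GG k y / (4 * Real.pi) - (k ^ 2 + 1) / (8 * Real.pi) *
      Complex.exp (-(y : ℂ)) := by
    funext y
    exact pk_eq k y
  rw [h4, dpk_eq]
  exact h3.congr_deriv (by ring)

private theorem pk_cont (k : ℂ) : Continuous (pk k) :=
  continuous_iff_continuousAt.2 fun r => (pk_hasDerivAt k r).continuousAt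

private theorem dpk_cont (k : ℂ) : Continuous (dpk k) := by
  have h4 : dpk k = fun y : ℝ => deriv (GG k) y / (4 * Real.pi) + (k ^ 2 + 1) / (8 * Real.pi) *
      Complex.exp (-(y : ℂ)) := by
    funext y
    exact dpk_eq k y
  rw [h4]
  have h1 : Continuous (deriv (GG k)) := (GG_deriv_diff k).continuous
  have h2 : Continuous (fun y : ℝ => deriv (GG k) y) := h1.comp Complex.continuous_ofReal
  fun_prop

private theorem dpk_zero (k : ℂ) : dpk k 0 = 0 := by simp [dpk]

private theorem coord_le (x : E3) (j : Fin 3) : ‖((x j / ‖x‖ : ℝ) : ℂ)‖ ≤ 1 := by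
  rw [Complex.norm_real, norm_div, norm_norm]
  exact div_le_one_of_le₀ (PiLp.norm_apply_le x j) (norm_nonneg _)

private theorem norm_fd {x : E3} (hx : x ≠ 0) : HasFDerivAt (fun y : E3 => ‖y‖)
    ((1 / ‖x‖) • innerSL ℝ x) x := by
  have h1 := (hasStrictFDerivAt_norm_sq x).hasFDerivAt
  have hn : ‖x‖ ≠ 0 := norm_ne_zero_iff.2 hx
  have h2 := h1.sqrt (pow_ne_zero 2 hn)
  have h3 : (fun y : E3 => √(‖y‖ ^ 2)) = fun y : E3 => ‖y‖ := by
    funext y
    exact Real.sqrt_sq (norm_nonneg y)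
  rw [h3, Real.sqrt_sq (norm_nonneg x)] at h2
  refine h2.congr_fderiv ?_
  ext y
  simp only [_root_.smul_apply, smul_eq_mul, nsmul_eq_mul]
  field_simp
  norm_num

theorem Pk_hasFDerivAt (k : ℂ) (x : E3) : ∃ D : E3 →L[ℝ] ℂ, HasFDerivAt (Pk k) D x ∧
    ∀ j, D (EuclideanSpace.single j (1 : ℝ)) = dPk k j x := by
  rcases eq_or_ne x 0 with h | h
  · subst h
    refine ⟨0, ?_, ?_⟩
    · rw [hasFDerivAt_iff_isLittleO_nhds_zero]
      have h0 := hasDerivAt_iff_isLittleO_nhds_zero.1 (pk_hasDerivAt k 0)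
      have ht : Tendsto (fun x : E3 => ‖x‖) (𝓝 0) (𝓝 0) := by
        simpa using (continuous_norm (E := E3)).tendsto 0
      have h1 := (h0.comp_tendsto ht).norm_right
      simp only [Function.comp_def, norm_norm, zero_add, dpk_zero, smul_zero, sub_zero] at h1
      have h2 := h1.of_norm_right
      simpa [Pk] using h2
    · intro j
      simp [dPk, dpk]
  · refine ⟨_, ((pk_hasDerivAt k ‖x‖).hasFDerivAt).comp x (norm_fd h), ?_⟩
    intro j
    simp only [ContinuousLinearMap.comp_apply, _root_.smul_apply, innerSL_apply_apply,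
      EuclideanSpace.inner_single_right, ContinuousLinearMap.toSpanSingleton_apply, dPk]
    simp
    rw [div_eq_mul_inv]
    ring

theorem Pk_continuous (k : ℂ) : Continuous (Pk k) := (pk_cont k).comp continuous_norm

theorem dPk_continuous (k : ℂ) (j : Fin 3) : Continuous (dPk k j) := by
  rw [continuous_iff_continuousAt]
  intro x
  rcases eq_or_ne x 0 with h | h
  · subst h
    have h1 : dPk k j 0 = 0 := by simp [dPk]
    rw [ContinuousAt, h1]
    have h2 : Tendsto (fun x : E3 => ‖dpk k ‖x‖‖) (𝓝 0) (𝓝 0) := by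
      have h3 : Continuous (fun x : E3 => ‖dpk k ‖x‖‖) := ((dpk_cont k).comp continuous_norm).norm
      have h4 := h3.tendsto 0
      simpa [dpk_zero] using h4
    refine squeeze_zero_norm (fun x => ?_) h2
    rw [dPk, norm_mul]
    exact mul_le_of_le_one_right (norm_nonneg _) (coord_le x j)
  · unfold dPk
    have h2 : ContinuousAt (fun x : E3 => dpk k ‖x‖) x :=
      ((dpk_cont k).comp continuous_norm).continuousAt
    have h3 : ContinuousAt (fun x : E3 => x j / ‖x‖) x := by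
      refine ContinuousAt.div ?_ continuous_norm.continuousAt (norm_ne_zero_iff.2 h)
      fun_prop
    exact h2.mul (Complex.continuous_ofReal.continuousAt.comp h3)

private theorem exp_neg_norm (r : ℝ) : ‖Complex.exp (-(r : ℂ))‖ = Real.exp (-r) := by
  rw [Complex.norm_exp]; simp

private theorem exp_ik_norm {k : ℂ} (hk : 0 ≤ k.im) {r : ℝ} (hr : 0 ≤ r) :
    ‖Complex.exp (Complex.I * k * r)‖ ≤ 1 := by
  rw [Complex.norm_exp]
  have : (Complex.I * k * r).re = -(k.im * r) := by simp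
  rw [this]
  exact Real.exp_le_one_iff.2 (by nlinarith [mul_nonneg hk hr])

private theorem exp_neg_le1 {r : ℝ} (hr : 0 ≤ r) : Real.exp (-r) ≤ 1 / (1 + r) := by
  rw [Real.exp_neg, ← one_div]
  have := Real.add_one_le_exp r
  exact one_div_le_one_div_of_le (by linarith) (by linarith)

private theorem exp_neg_le2 {r : ℝ} (hr : 0 ≤ r) : Real.exp (-r) ≤ 2 / (1 + r) ^ 2 := by
  have h := Real.quadratic_le_exp_of_nonneg hr
  rw [Real.exp_neg, ← one_div, div_le_div_iff₀ (Real.exp_pos r) (by positivity)]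
  nlinarith

private theorem FF_norm {k : ℂ} (hk : 0 ≤ k.im) {M : ℝ} (hM : ‖k‖ ≤ M) {r : ℝ} (hr : 0 ≤ r) :
    ‖FF k r‖ ≤ (M + 1) * r := by
  have h := (convex_Icc (0 : ℝ) r).norm_image_sub_le_of_norm_hasDerivWithin_le
    (f := fun y : ℝ => FF k y)
    (f' := fun y : ℝ => Complex.I * k * Complex.exp (Complex.I * k * y) + Complex.exp (-(y : ℂ)))
    (C := M + 1) (x := 0) (y := r)
    (fun y _ => (FF_hasDerivAt k y).comp_ofReal.hasDerivWithinAt) (fun y hy => ?_)
    ⟨le_refl _, hr⟩ ⟨hr, le_refl _⟩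
  · simp only [Complex.ofReal_zero, FF_zero, sub_zero, Real.norm_eq_abs, abs_of_nonneg hr] at h
    exact h
  · have h1 := exp_ik_norm hk hy.1
    have h2 : ‖Complex.exp (-(y : ℂ))‖ ≤ 1 := by
      rw [exp_neg_norm]
      exact Real.exp_le_one_iff.2 (by linarith [hy.1])
    calc ‖Complex.I * k * Complex.exp (Complex.I * k * y) + Complex.exp (-(y : ℂ))‖
        ≤ ‖Complex.I * k * Complex.exp (Complex.I * k * y)‖ + ‖Complex.exp (-(y : ℂ))‖ :=
          norm_add_le _ _
      _ ≤ M + 1 := by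
          rw [norm_mul, norm_mul, Complex.norm_I, one_mul]
          have : ‖k‖ * ‖Complex.exp (Complex.I * k * y)‖ ≤ M * 1 :=
            mul_le_mul hM h1 (norm_nonneg _) ((norm_nonneg _).trans hM)
          linarith

private theorem GG_norm {k : ℂ} (hk : 0 ≤ k.im) {M : ℝ} (hM : ‖k‖ ≤ M) {r : ℝ} (hr : 0 ≤ r) :
    ‖GG k r‖ ≤ (M + 3) / (1 + r) := by
  have hM0 : 0 ≤ M := (norm_nonneg _).trans hM
  have h1 : ‖GG k r‖ ≤ M + 1 := by
    rcases hr.eq_or_lt with h | h
    · subst h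
      rw [Complex.ofReal_zero, GG_zero]
      calc ‖Complex.I * k + 1‖ ≤ ‖Complex.I * k‖ + ‖(1 : ℂ)‖ := norm_add_le _ _
        _ ≤ M + 1 := by rw [norm_mul, Complex.norm_I, one_mul, norm_one]; linarith
    · have h2 := FF_norm hk hM hr
      rw [FF_eq, norm_mul, Complex.norm_real, Real.norm_eq_abs, abs_of_pos h] at h2
      exact le_of_mul_le_mul_left (by linarith) h
  have h2 : r * ‖GG k r‖ ≤ 2 := by
    have e := congrArg norm (FF_eq k r)
    rw [norm_mul, Complex.norm_real, Real.norm_eq_abs, abs_of_nonneg hr] at e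
    rw [← e, FF]
    have h3 := exp_ik_norm hk hr
    have h4 : ‖Complex.exp (-(r : ℂ))‖ ≤ 1 := by
      rw [exp_neg_norm]
      exact Real.exp_le_one_iff.2 (by linarith)
    calc _ ≤ ‖Complex.exp (Complex.I * k * r)‖ + ‖Complex.exp (-(r : ℂ))‖ := norm_sub_le _ _
      _ ≤ 2 := by linarith
  rw [le_div_iff₀ (by linarith)]
  nlinarith

/-- A bound uniform in `k`. -/
theorem Pk_bound (M : ℝ) : ∃ C : ℝ, 0 ≤ C ∧ ∀ k : ℂ, 0 ≤ k.im → ‖k‖ ≤ M → ∀ x : E3,
    ‖Pk k x‖ ≤ C / (1 + ‖x‖) := by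
  refine ⟨(|M| + 3) / (4 * Real.pi) + (M ^ 2 + 1) / (8 * Real.pi), by positivity, ?_⟩
  intro k hk hM x
  have hM0 : 0 ≤ M := (norm_nonneg _).trans hM
  rw [abs_of_nonneg hM0, Pk, pk_eq]
  have hr := norm_nonneg x
  set r := ‖x‖
  have hp : ‖(Real.pi : ℂ)‖ = Real.pi := by
    rw [Complex.norm_real, Real.norm_eq_abs, abs_of_pos Real.pi_pos]
  have h1 := GG_norm hk hM hr
  have h2 : ‖Complex.exp (-(r : ℂ))‖ ≤ 1 / (1 + r) := by
    rw [exp_neg_norm]; exact exp_neg_le1 hr
  have h3 : ‖k ^ 2 + 1‖ ≤ M ^ 2 + 1 := by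
    calc ‖k ^ 2 + 1‖ ≤ ‖k ^ 2‖ + ‖(1 : ℂ)‖ := norm_add_le _ _
      _ ≤ M ^ 2 + 1 := by
        rw [norm_pow, norm_one]
        have := pow_le_pow_left₀ (norm_nonneg k) hM 2
        linarith
  calc _ ≤ ‖GG k r / (4 * Real.pi)‖ + ‖(k ^ 2 + 1) / (8 * Real.pi) * Complex.exp (-(r : ℂ))‖ :=
        norm_sub_le _ _
    _ ≤ ((M + 3) / (1 + r)) / (4 * Real.pi) + (M ^ 2 + 1) / (8 * Real.pi) * (1 / (1 + r)) := by
        rw [norm_div, norm_mul ((k ^ 2 + 1) / (8 * Real.pi) : ℂ), norm_div (k ^ 2 + 1 : ℂ),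
          norm_mul (4 : ℂ), norm_mul (8 : ℂ), hp]
        have e4 : ‖(4 : ℂ)‖ = 4 := by simp
        have e8 : ‖(8 : ℂ)‖ = 8 := by simp
        rw [e4, e8]
        have hpi := Real.pi_pos
        gcongr
    _ = _ := by ring

private theorem radial_bound {f : ℝ → ℂ} (hf : Continuous f) {C : ℝ} {n : ℕ}
    (hC : ∀ r : ℝ, 1 ≤ r → ‖f r‖ ≤ C / (1 + r) ^ n) :
    ∃ C' : ℝ, 0 ≤ C' ∧ ∀ r : ℝ, 0 ≤ r → ‖f r‖ ≤ C' / (1 + r) ^ n := by
  obtain ⟨B, hB⟩ := (isCompact_Icc (a := (0 : ℝ)) (b := 1)).exists_bound_of_continuousOn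
    hf.continuousOn
  have hB0 : 0 ≤ B := (norm_nonneg _).trans (hB 0 ⟨le_refl _, zero_le_one⟩)
  refine ⟨max C (B * 2 ^ n), le_max_of_le_right (by positivity), ?_⟩
  intro r hr
  have hpos : 0 < (1 + r) ^ n := by positivity
  rw [le_div_iff₀ hpos]
  rcases le_total r 1 with h | h
  · refine le_trans ?_ (le_max_right _ _)
    exact mul_le_mul (hB r ⟨hr, h⟩) (pow_le_pow_left₀ (by linarith) (by linarith) n)
      (by positivity) hB0
  · refine le_trans ?_ (le_max_left _ _)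
    exact (le_div_iff₀ hpos).1 (hC r h)

private theorem nd1 (A : ℂ) {r : ℝ} (hr : 1 ≤ r) : ‖A / (4 * Real.pi * r)‖ ≤ ‖A‖ * (1 / r) := by
  have h0 : 0 < r := by linarith
  have hpi := Real.pi_gt_three
  have e : ‖(4 * Real.pi * r : ℂ)‖ = 4 * Real.pi * r := by
    rw [norm_mul, norm_mul, Complex.norm_real, Complex.norm_real, Real.norm_eq_abs,
      Real.norm_eq_abs, abs_of_pos h0, abs_of_pos Real.pi_pos]
    simp
  rw [norm_div, e, div_eq_mul_one_div]
  refine mul_le_mul_of_nonneg_left (one_div_le_one_div_of_le h0 ?_) (norm_nonneg _)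
  nlinarith

private theorem nd2 (A : ℂ) {r : ℝ} (hr : 1 ≤ r) :
    ‖A / (4 * Real.pi * r ^ 2)‖ ≤ ‖A‖ * (1 / r ^ 2) := by
  have h0 : 0 < r := by linarith
  have hpi := Real.pi_gt_three
  have e : ‖(4 * Real.pi * r ^ 2 : ℂ)‖ = 4 * Real.pi * r ^ 2 := by
    rw [norm_mul, norm_mul, norm_pow, Complex.norm_real, Complex.norm_real, Real.norm_eq_abs,
      Real.norm_eq_abs, abs_of_pos h0, abs_of_pos Real.pi_pos]
    simp
  rw [norm_div, e, div_eq_mul_one_div]
  have h2 : 0 < r ^ 2 := by positivity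
  refine mul_le_mul_of_nonneg_left (one_div_le_one_div_of_le h2 ?_) (norm_nonneg _)
  nlinarith

private theorem nd3 (A B : ℂ) : ‖A / (8 * Real.pi) * B‖ ≤ ‖A‖ * ‖B‖ := by
  have hpi := Real.pi_gt_three
  have e : ‖(8 * Real.pi : ℂ)‖ = 8 * Real.pi := by
    rw [norm_mul, Complex.norm_real, Real.norm_eq_abs, abs_of_pos Real.pi_pos]
    simp
  rw [norm_mul, norm_div, e]
  refine mul_le_mul_of_nonneg_right (div_le_self (norm_nonneg _) ?_) (norm_nonneg _)
  linarith

private theorem nk2 (k : ℝ) : ‖(k : ℂ) ^ 2 + 1‖ ≤ k ^ 2 + 1 := by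
  refine (norm_add_le _ _).trans ?_
  rw [norm_pow, norm_one, Complex.norm_real, Real.norm_eq_abs, sq_abs]

private theorem inv1 {r : ℝ} (hr : 1 ≤ r) : 1 / r ≤ 2 / (1 + r) := by
  rw [div_le_div_iff₀ (by linarith) (by linarith)]
  linarith

private theorem inv2 {r : ℝ} (hr : 1 ≤ r) : 1 / r ^ 2 ≤ 4 / (1 + r) ^ 2 := by
  rw [div_le_div_iff₀ (by positivity) (by positivity)]
  nlinarith

private theorem inv3 {r : ℝ} (hr : 1 ≤ r) : 1 / r ^ 2 ≤ 1 / r := by
  have h0 : 0 < r := by linarith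
  exact one_div_le_one_div_of_le h0 (by nlinarith)

private theorem dpk_far {k : ℝ} (hk : 0 < k) {r : ℝ} (hr : 1 ≤ r) :
    ‖dpk k r‖ ≤ (2 * (k + 1) + 4 + (k ^ 2 + 1)) / (1 + r) ^ 1 := by
  have h0 : 0 < r := by linarith
  have hk' : (0 : ℝ) ≤ (k : ℂ).im := by simp
  have h1 := exp_ik_norm hk' h0.le
  have h2 : ‖Complex.exp (-(r : ℂ))‖ ≤ 1 := by
    rw [exp_neg_norm]
    exact Real.exp_le_one_iff.2 (by linarith)
  have h3 : ‖Complex.exp (-(r : ℂ))‖ ≤ 1 / (1 + r) := by
    rw [exp_neg_norm]; exact exp_neg_le1 h0.le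
  have h4 := nk2 k
  have hA : ‖Complex.I * k * Complex.exp (Complex.I * k * r) + Complex.exp (-(r : ℂ))‖ ≤
      k + 1 := by
    refine (norm_add_le _ _).trans ?_
    rw [norm_mul, norm_mul, Complex.norm_I, one_mul, Complex.norm_real, Real.norm_eq_abs,
      abs_of_pos hk]
    nlinarith [norm_nonneg (Complex.exp (Complex.I * k * r))]
  have hB : ‖Complex.exp (Complex.I * k * r) - Complex.exp (-(r : ℂ))‖ ≤ 2 := by
    refine (norm_sub_le _ _).trans ?_
    linarith
  have i1 := inv1 hr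
  have i3 := inv3 hr
  have hp : 0 < 1 + r := by linarith
  rw [dpk, if_neg h0.ne', pow_one]
  calc _ ≤ ‖(Complex.I * k * Complex.exp (Complex.I * k * r) + Complex.exp (-(r : ℂ))) /
        (4 * Real.pi * r)‖ + ‖(Complex.exp (Complex.I * k * r) - Complex.exp (-(r : ℂ))) /
        (4 * Real.pi * r ^ 2)‖ + ‖((k : ℂ) ^ 2 + 1) / (8 * Real.pi) * Complex.exp (-(r : ℂ))‖ :=
        (norm_add_le _ _).trans (add_le_add_left (norm_sub_le _ _) _)
    _ ≤ (k + 1) * (2 / (1 + r)) + 2 * (2 / (1 + r)) + (k ^ 2 + 1) * (1 / (1 + r)) := by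
        refine add_le_add (add_le_add ?_ ?_) ?_
        · exact (nd1 _ hr).trans (mul_le_mul hA i1 (by positivity) (by linarith))
        · exact (nd2 _ hr).trans (mul_le_mul hB (i3.trans i1) (by positivity) (by norm_num))
        · exact (nd3 _ _).trans (mul_le_mul h4 h3 (norm_nonneg _) (by positivity))
    _ = _ := by field_simp; ring

private theorem rad_far {k : ℝ} (hk : 0 < k) {r : ℝ} (hr : 1 ≤ r) :
    ‖dpk k r - Complex.I * k * pk k r‖ ≤
      (2 * (k + 1) + 8 + 2 * ((k + 1) * (k ^ 2 + 1))) / (1 + r) ^ 2 := by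
  have h0 : 0 < r := by linarith
  have hrc : (r : ℂ) ≠ 0 := by exact_mod_cast h0.ne'
  have hpc : (Real.pi : ℂ) ≠ 0 := by exact_mod_cast Real.pi_ne_zero
  have hk' : (0 : ℝ) ≤ (k : ℂ).im := by simp
  have h1 := exp_ik_norm hk' h0.le
  have h2 : ‖Complex.exp (-(r : ℂ))‖ ≤ 1 := by
    rw [exp_neg_norm]
    exact Real.exp_le_one_iff.2 (by linarith)
  have h3 : ‖Complex.exp (-(r : ℂ))‖ ≤ 2 / (1 + r) ^ 2 := by
    rw [exp_neg_norm]; exact exp_neg_le2 h0.le
  have h4 := nk2 k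
  have hI : ‖1 + Complex.I * (k : ℂ)‖ ≤ k + 1 := by
    refine (norm_add_le _ _).trans ?_
    rw [norm_mul, norm_one, Complex.norm_I, one_mul, Complex.norm_real, Real.norm_eq_abs,
      abs_of_pos hk]
    linarith
  have hB : ‖Complex.exp (Complex.I * k * r) - Complex.exp (-(r : ℂ))‖ ≤ 2 := by
    refine (norm_sub_le _ _).trans ?_
    linarith
  have i2 := inv2 hr
  have i1 : 1 / r ≤ 1 := by rw [div_le_one h0]; exact hr
  have e : dpk k r - Complex.I * k * pk k r =
      ((1 + Complex.I * k) * Complex.exp (-(r : ℂ))) / (4 * Real.pi * r) -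
      (Complex.exp (Complex.I * k * r) - Complex.exp (-(r : ℂ))) / (4 * Real.pi * r ^ 2) +
      ((k : ℂ) ^ 2 + 1) / (8 * Real.pi) * ((1 + Complex.I * k) * Complex.exp (-(r : ℂ))) := by
    rw [dpk, pk, if_neg h0.ne', if_neg h0.ne']
    field_simp
    ring
  have hC : ‖(1 + Complex.I * k) * Complex.exp (-(r : ℂ))‖ ≤ (k + 1) * (2 / (1 + r) ^ 2) := by
    rw [norm_mul]
    exact mul_le_mul hI h3 (norm_nonneg _) (by linarith)
  have hq : 0 ≤ (k + 1) * (2 / (1 + r) ^ 2) := by positivity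
  rw [e]
  calc _ ≤ ‖((1 + Complex.I * k) * Complex.exp (-(r : ℂ))) / (4 * Real.pi * r)‖ +
        ‖(Complex.exp (Complex.I * k * r) - Complex.exp (-(r : ℂ))) / (4 * Real.pi * r ^ 2)‖ +
        ‖((k : ℂ) ^ 2 + 1) / (8 * Real.pi) * ((1 + Complex.I * k) * Complex.exp (-(r : ℂ)))‖ :=
        (norm_add_le _ _).trans (add_le_add_left (norm_sub_le _ _) _)
    _ ≤ (k + 1) * (2 / (1 + r) ^ 2) * 1 + 2 * (4 / (1 + r) ^ 2) +
        (k ^ 2 + 1) * ((k + 1) * (2 / (1 + r) ^ 2)) := by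
        refine add_le_add (add_le_add ?_ ?_) ?_
        · exact (nd1 _ hr).trans (mul_le_mul hC i1 (by positivity) hq)
        · exact (nd2 _ hr).trans (mul_le_mul hB i2 (by positivity) (by norm_num))
        · exact (nd3 _ _).trans (mul_le_mul h4 hC (norm_nonneg _) (by positivity))
    _ = _ := by field_simp; ring

theorem dPk_bound {k : ℝ} (hk : 0 < k) : ∃ C : ℝ, 0 ≤ C ∧ ∀ (j : Fin 3) (x : E3),
    ‖dPk k j x‖ ≤ C / (1 + ‖x‖) := by
  obtain ⟨C, hC0, hC⟩ := radial_bound (f := dpk k) (dpk_cont k) (n := 1)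
    (C := 2 * (k + 1) + 4 + (k ^ 2 + 1)) (fun r hr => dpk_far hk hr)
  refine ⟨C, hC0, fun j x => ?_⟩
  have h := hC ‖x‖ (norm_nonneg x)
  rw [pow_one] at h
  rw [dPk, norm_mul]
  exact (mul_le_of_le_one_right (norm_nonneg _) (coord_le x j)).trans h

theorem Pk_rad {k : ℝ} (hk : 0 < k) : ∃ C : ℝ, 0 ≤ C ∧ ∀ (j : Fin 3) (x : E3),
    ‖dPk k j x - Complex.I * k * ((x j / ‖x‖ : ℝ) : ℂ) * Pk k x‖ ≤ C / (1 + ‖x‖) ^ 2 := by
  obtain ⟨C, hC0, hC⟩ := radial_bound (f := fun r => dpk k r - Complex.I * k * pk k r)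
    (by have h1 := dpk_cont k; have h2 := pk_cont k; fun_prop) (n := 2)
    (C := 2 * (k + 1) + 8 + 2 * ((k + 1) * (k ^ 2 + 1))) (fun r hr => rad_far hk hr)
  refine ⟨C, hC0, fun j x => ?_⟩
  have h := hC ‖x‖ (norm_nonneg x)
  have e : dPk k j x - Complex.I * k * ((x j / ‖x‖ : ℝ) : ℂ) * Pk k x =
      (dpk k ‖x‖ - Complex.I * k * pk k ‖x‖) * ((x j / ‖x‖ : ℝ) : ℂ) := by
    rw [dPk, Pk]; ring
  rw [e, norm_mul]
  exact (mul_le_of_le_one_right (norm_nonneg _) (coord_le x j)).trans h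

end FracScat

end
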