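import Pool.Agent.Lib.MP_6e2ba5_an.Mul

/-! # Derivatives of `(4π²|ξ|² + ε²)^p`

With `A = 4π²‖ξ‖² + ε²`: `D A^p = p A^(p-1) 8π² ⟪ξ,·⟫`, `‖ξ‖ ≤ A^(1/2)`, so `‖D A^p‖ ≤ C A^(p-1/2)`;
`D² A^p = p(p-1) A^(p-2) (8π²)² ⟪ξ,·⟫⟪ξ,·⟫ + 8π² p A^(p-1) ⟪·,·⟫`, so `‖D² A^p‖ ≤ C A^(p-1)`, where
`C` does not depend on `ε`. Temperate growth: `A^p` is `(ε² + x)^p ∘ (4π²‖·‖²)`; see
`Function.HasTemperateGrowth` and the lemma for `(1 + ‖x‖²)^p` in Mathlib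
(`Function.hasTemperateGrowth_one_add_norm_sq_rpow`, scale: `A = ε² (1 + ‖(2π/ε) ξ‖²)`). -/

set_option autoImplicit false

open MeasureTheory Filter Topology Set
open scoped FourierTransform SchwartzMap InnerProductSpace ENNReal ContDiff

noncomputable section

namespace FracScat

/-- `4π²‖ξ‖² + ε²`. -/
def AA (ε : ℝ) (ξ : E3) : ℝ := (2 * Real.pi * ‖ξ‖) ^ 2 + ε ^ 2

private theorem PowA_pos {ε : ℝ} (hε : 0 < ε) (ξ : E3) : 0 < AA ε ξ := by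
  unfold AA
  positivity

private theorem PowA_norm_le {ε : ℝ} (_hε : 0 < ε) (ξ : E3) : ‖ξ‖ ≤ AA ε ξ ^ (1 / 2 : ℝ) := by
  rw [← Real.sqrt_eq_rpow]
  apply Real.le_sqrt_of_sq_le
  unfold AA
  have h1 := Real.pi_gt_three
  have h2 := sq_nonneg ‖ξ‖
  have h3 : (1 : ℝ) ≤ (2 * Real.pi) ^ 2 := by nlinarith
  rw [mul_pow]
  nlinarith [sq_nonneg ε]

theorem AA_pow_growth (p : ℝ) {ε : ℝ} (hε : 0 < ε) :
    Function.HasTemperateGrowth (fun ξ : E3 => AA ε ξ ^ p) := by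
  have h1 : (fun ξ : E3 => AA ε ξ ^ p) = fun ξ : E3 =>
      (ε ^ 2) ^ p * (fun x : E3 => (1 + ‖x‖ ^ 2) ^ p)
        (((2 * Real.pi / ε) • ContinuousLinearMap.id ℝ E3 : E3 →L[ℝ] E3) ξ) := by
    funext ξ
    have h2 : AA ε ξ = ε ^ 2 * (1 + ‖(2 * Real.pi / ε) • ξ‖ ^ 2) := by
      unfold AA
      rw [norm_smul, Real.norm_of_nonneg (by positivity)]
      field_simp
      ring
    rw [h2, Real.mul_rpow (by positivity) (by positivity)]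
    rfl
  rw [h1]
  have h3 : Function.HasTemperateGrowth (fun x : E3 => (1 + ‖x‖ ^ 2) ^ p) := by fun_prop
  have h4 := h3.comp
    ((2 * Real.pi / ε) • ContinuousLinearMap.id ℝ E3 : E3 →L[ℝ] E3).hasTemperateGrowth
  exact (Function.HasTemperateGrowth.const ((ε ^ 2) ^ p)).mul h4

private theorem PowA_hasFDerivAt_AA (ε : ℝ) (ξ : E3) :
    HasFDerivAt (fun ξ : E3 => AA ε ξ) ((8 * Real.pi ^ 2) • (innerSL ℝ ξ : E3 →L[ℝ] ℝ)) ξ := by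
  have h1 : HasFDerivAt (fun ξ : E3 => ‖ξ‖ ^ 2) (2 • (innerSL ℝ ξ : E3 →L[ℝ] ℝ)) ξ :=
    (hasStrictFDerivAt_norm_sq ξ).hasFDerivAt
  have h2 := (h1.const_mul ((2 * Real.pi) ^ 2)).add_const (ε ^ 2)
  have h3 : (fun ξ : E3 => AA ε ξ) = fun ξ : E3 => (2 * Real.pi) ^ 2 * ‖ξ‖ ^ 2 + ε ^ 2 := by
    funext x
    unfold AA
    ring
  rw [h3]
  refine h2.congr_fderiv ?_
  ext v
  simp only [smul_apply, smul_eq_mul, nsmul_eq_mul]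
  push_cast
  ring

private theorem PowA_hasFDerivAt (p : ℝ) {ε : ℝ} (hε : 0 < ε) (ξ : E3) :
    HasFDerivAt (fun ξ : E3 => AA ε ξ ^ p)
      ((p * AA ε ξ ^ (p - 1) * (8 * Real.pi ^ 2)) • (innerSL ℝ ξ : E3 →L[ℝ] ℝ)) ξ := by
  have h := (PowA_hasFDerivAt_AA ε ξ).rpow_const (p := p) (Or.inl (PowA_pos hε ξ).ne')
  refine h.congr_fderiv ?_
  rw [smul_smul]

private theorem PowA_norm_inner (ξ : E3) : ‖(innerSL ℝ ξ : E3 →L[ℝ] ℝ)‖ = ‖ξ‖ :=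
  innerSL_apply_norm ℝ ξ

private theorem PowA_fderiv_bound (p : ℝ) {ε : ℝ} (hε : 0 < ε) (ξ : E3) :
    ‖fderiv ℝ (fun ξ : E3 => AA ε ξ ^ p) ξ‖ ≤
      |p| * (8 * Real.pi ^ 2) * AA ε ξ ^ (p - 1 / 2) := by
  rw [(PowA_hasFDerivAt p hε ξ).fderiv, norm_smul, PowA_norm_inner, Real.norm_eq_abs, abs_mul,
    abs_mul, abs_of_pos (Real.rpow_pos_of_pos (PowA_pos hε ξ) _),
    abs_of_pos (show (0 : ℝ) < 8 * Real.pi ^ 2 by positivity)]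
  have h1 := PowA_norm_le hε ξ
  have h2 : AA ε ξ ^ (p - 1 / 2) = AA ε ξ ^ (p - 1) * AA ε ξ ^ (1 / 2 : ℝ) := by
    rw [← Real.rpow_add (PowA_pos hε ξ)]
    congr 1
    ring
  rw [h2]
  have h3 : 0 ≤ |p| * AA ε ξ ^ (p - 1) * (8 * Real.pi ^ 2) := by
    have := Real.rpow_pos_of_pos (PowA_pos hε ξ) (p - 1)
    positivity
  calc |p| * AA ε ξ ^ (p - 1) * (8 * Real.pi ^ 2) * ‖ξ‖
      ≤ |p| * AA ε ξ ^ (p - 1) * (8 * Real.pi ^ 2) * AA ε ξ ^ (1 / 2 : ℝ) :=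
        mul_le_mul_of_nonneg_left h1 h3
    _ = _ := by ring

theorem AA_pow_fderiv (p : ℝ) : ∃ C : ℝ, 0 ≤ C ∧ ∀ ε : ℝ, 0 < ε → ∀ ξ : E3,
    ‖fderiv ℝ (fun ξ : E3 => AA ε ξ ^ p) ξ‖ ≤ C * AA ε ξ ^ (p - 1 / 2) :=
  ⟨|p| * (8 * Real.pi ^ 2), by positivity, fun _ hε ξ => PowA_fderiv_bound p hε ξ⟩

private theorem PowA_aux {G : Type*} [NormedAddCommGroup G] [NormedSpace ℝ G] (c : ℝ) (B X : G)
    (b x : ℝ) (hB : |c| * ‖B‖ ≤ b) (hX : ‖X‖ ≤ x) : ‖c • B + X‖ ≤ b + x := by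
  refine (norm_add_le _ _).trans (add_le_add ?_ hX)
  rw [norm_smul, Real.norm_eq_abs]
  exact hB

theorem AA_pow_hess (p : ℝ) : ∃ C : ℝ, 0 ≤ C ∧ ∀ ε : ℝ, 0 < ε → ∀ ξ : E3,
    ‖iteratedFDeriv ℝ 2 (fun ξ : E3 => AA ε ξ ^ p) ξ‖ ≤ C * AA ε ξ ^ (p - 1) := by
  obtain ⟨B, hB, hB1⟩ : ∃ B : E3 →L[ℝ] E3 →L[ℝ] ℝ,
      (∀ x, B x = (innerSL ℝ x : E3 →L[ℝ] ℝ)) ∧ ‖B‖ ≤ 1 :=
    ⟨innerSL ℝ, fun x => rfl, norm_innerSL_le ℝ⟩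
  obtain ⟨q, hq, hq0⟩ : ∃ q : ℝ, q = 8 * Real.pi ^ 2 ∧ 0 < q := ⟨_, rfl, by positivity⟩
  refine ⟨|p| * q + |p| * (|p - 1| * q) * q, by positivity, fun ε hε ξ => ?_⟩
  have h1 : fderiv ℝ (fun ξ : E3 => AA ε ξ ^ p) = fun ξ : E3 =>
      (p * AA ε ξ ^ (p - 1) * q) • B ξ := by
    funext x
    rw [hB, hq]
    exact (PowA_hasFDerivAt p hε x).fderiv
  have h0 : ‖iteratedFDeriv ℝ 2 (fun ξ : E3 => AA ε ξ ^ p) ξ‖ =
      ‖fderiv ℝ (fderiv ℝ (fun ξ : E3 => AA ε ξ ^ p)) ξ‖ := by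
    rw [← norm_iteratedFDeriv_one, norm_iteratedFDeriv_fderiv]
  rw [h0, h1]
  have h2 : HasFDerivAt (fun ξ : E3 => p * AA ε ξ ^ (p - 1) * q)
      (q • (p • ((( p - 1) * AA ε ξ ^ (p - 1 - 1) * q) • B ξ))) ξ := by
    have := ((PowA_hasFDerivAt (p - 1) hε ξ).const_mul p).mul_const q
    rw [← hq, ← hB] at this
    exact this
  have h3 : HasFDerivAt (fun ξ : E3 => B ξ) B ξ := B.hasFDerivAt
  have hBn : ‖B ξ‖ = ‖ξ‖ := by rw [hB]; exact PowA_norm_inner ξ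
  rw [(h2.fun_smul h3).fderiv]
  have hA := PowA_pos hε ξ
  have hA1 := Real.rpow_pos_of_pos hA (p - 1)
  have hA2 := Real.rpow_pos_of_pos hA (p - 1 - 1)
  have h4 : |p * AA ε ξ ^ (p - 1) * q| * ‖B‖ ≤ |p| * q * AA ε ξ ^ (p - 1) := by
    rw [abs_mul, abs_mul, abs_of_pos hA1, abs_of_pos hq0]
    have h6 : 0 ≤ |p| * AA ε ξ ^ (p - 1) * q := by positivity
    calc |p| * AA ε ξ ^ (p - 1) * q * ‖B‖
        ≤ |p| * AA ε ξ ^ (p - 1) * q * 1 := mul_le_mul_of_nonneg_left hB1 h6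
      _ = _ := by ring
  have h7 : ‖(q • (p • ((( p - 1) * AA ε ξ ^ (p - 1 - 1) * q) • B ξ))).smulRight (B ξ)‖ ≤
      |p| * (|p - 1| * q) * q * AA ε ξ ^ (p - 1) := by
    rw [ContinuousLinearMap.norm_smulRight_apply, norm_smul, norm_smul, norm_smul,
      hBn, Real.norm_eq_abs, Real.norm_eq_abs, Real.norm_eq_abs, abs_of_pos hq0, abs_mul, abs_mul,
      abs_of_pos hA2, abs_of_pos hq0]
    have h8 := PowA_norm_le hε ξ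
    have h9 : ‖ξ‖ * ‖ξ‖ ≤ AA ε ξ := by
      have h10 : AA ε ξ ^ (1 / 2 : ℝ) * AA ε ξ ^ (1 / 2 : ℝ) = AA ε ξ := by
        rw [← Real.rpow_add hA]
        norm_num
      rw [← h10]
      exact mul_le_mul h8 h8 (norm_nonneg _) ((norm_nonneg _).trans h8)
    have h11 : AA ε ξ ^ (p - 1) = AA ε ξ ^ (p - 1 - 1) * AA ε ξ := by
      rw [← Real.rpow_add_one hA.ne']
      congr 1
      ring
    rw [h11]
    have h13 : 0 ≤ |p| * (|p - 1| * q) * q * AA ε ξ ^ (p - 1 - 1) := by positivity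
    calc _ = |p| * (|p - 1| * q) * q * AA ε ξ ^ (p - 1 - 1) * (‖ξ‖ * ‖ξ‖) := by ring
      _ ≤ |p| * (|p - 1| * q) * q * AA ε ξ ^ (p - 1 - 1) * AA ε ξ :=
          mul_le_mul_of_nonneg_left h9 h13
      _ = _ := by ring
  rw [add_mul]
  exact PowA_aux (G := E3 →L[ℝ] E3 →L[ℝ] ℝ) _ _ _ _ _ h4 h7

end FracScat

end
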