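import Pool.Agent.Lib.MP_6e2ba5_an.Mul

/-! # The Fourier transform of a radial function on `ℝ³`

Proof. Integrability: `MeasureTheory.integrable_fun_norm_addHaar` (dimension 3). The formula: both
sides do not change when `ξ` is replaced by a rotated vector (a linear isometry equivalence preserves
the volume and the norm), so let `ξ = ρ e₃`, `ρ = ‖ξ‖ > 0`. In the coordinates
`x = (y, t)`, `y ∈ ℝ²`, polar coordinates for `y` and the substitution `r = √(|y|² + t²)` give
`∫ g(|x|) exp(-2πi ρ t) dx = ∫_t exp(-2πi ρ t) 2π ∫_{r > |t|} g(r) r dr dt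
= 2π ∫_{r>0} g(r) r ∫_{-r}^{r} exp(-2πi ρ t) dt dr = ∫_{r>0} g(r) r (2/ρ) sin(2πρ r) dr`. -/

set_option autoImplicit false

open MeasureTheory Filter Topology Set
open scoped FourierTransform SchwartzMap InnerProductSpace ENNReal

noncomputable section

namespace FracScat

private theorem rad_norm (t : ℝ) (y : Fin 2 → ℝ) :
    ‖(WithLp.toLp 2 ((MeasurableEquiv.piFinSuccAbove (fun _ : Fin 3 => ℝ) 0).symm (t, y)) : E3)‖ =
      √(t ^ 2 + ‖(WithLp.toLp 2 y : EuclideanSpace ℝ (Fin 2))‖ ^ 2) := by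
  rw [EuclideanSpace.norm_eq, EuclideanSpace.norm_sq_eq]
  congr 1
  rw [Fin.sum_univ_succ]
  simp [MeasurableEquiv.piFinSuccAbove, Fin.insertNthEquiv]

private theorem rad_slice (G : ℝ → ℝ → ℂ) (hG : Integrable (fun x : E3 => G (x 0) ‖x‖)) :
    ∫ x : E3, G (x 0) ‖x‖ =
      ∫ t : ℝ, ∫ w : EuclideanSpace ℝ (Fin 2), G t (√(t ^ 2 + ‖w‖ ^ 2)) := by
  have mp1 := PiLp.volume_preserving_toLp (Fin 3)
  have mp2 := (volume_preserving_piFinSuccAbove (fun _ : Fin 3 => ℝ) 0).symm
  have mp3 := PiLp.volume_preserving_toLp (Fin 2)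
  have me1 := (MeasurableEquiv.toLp 2 (Fin 3 → ℝ)).measurableEmbedding
  have me2 := (MeasurableEquiv.piFinSuccAbove (fun _ : Fin 3 => ℝ) 0).symm.measurableEmbedding
  have me3 := (MeasurableEquiv.toLp 2 (Fin 2 → ℝ)).measurableEmbedding
  have e1 := mp1.integral_comp me1 (fun x : E3 => G (x 0) ‖x‖)
  have i1 := (mp1.integrable_comp_emb me1).2 hG
  have e2 := mp2.integral_comp me2 (fun y : Fin 3 → ℝ => G ((WithLp.toLp 2 y : E3) 0) ‖(WithLp.toLp 2 y : E3)‖)
  have i2 := (mp2.integrable_comp_emb me2).2 i1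
  have i3 : Integrable (fun x : ℝ × (Fin 2 → ℝ) =>
      G ((WithLp.toLp 2 ((MeasurableEquiv.piFinSuccAbove (fun _ : Fin 3 => ℝ) 0).symm x) : E3) 0)
        ‖(WithLp.toLp 2 ((MeasurableEquiv.piFinSuccAbove (fun _ : Fin 3 => ℝ) 0).symm x) : E3)‖)
      (volume.prod volume) := i2
  rw [← e1]
  refine e2.symm.trans ?_
  rw [Measure.volume_eq_prod, integral_prod _ i3]
  refine integral_congr_ae (Eventually.of_forall fun t => ?_)
  have e3 := mp3.integral_comp me3 (fun w => G t (√(t ^ 2 + ‖w‖ ^ 2)))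
  simp only [rad_norm]
  rw [← e3]
  rfl

private theorem rad_plane (h : ℝ → ℂ) :
    ∫ w : EuclideanSpace ℝ (Fin 2), h (‖w‖ ^ 2) = (Real.pi : ℂ) * ∫ u in Ioi (0 : ℝ), h u := by
  have e1 := integral_fun_norm_addHaar (volume : Measure (EuclideanSpace ℝ (Fin 2)))
    (fun r => h (r ^ 2))
  have e2 : (volume : Measure (EuclideanSpace ℝ (Fin 2))).real (Metric.ball 0 1) = Real.pi := by
    simp [Measure.real, Real.pi_pos.le]
  have e3 := integral_comp_rpow_Ioi_of_pos (g := h) (p := 2) (by norm_num)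
  rw [e1, e2, finrank_euclideanSpace_fin, ← e3, nsmul_eq_mul, Complex.real_smul]
  have e4 : ∀ x : ℝ, (x ^ (2 : ℝ)) = x ^ 2 := fun x => by
    rw [show (2 : ℝ) = ((2 : ℕ) : ℝ) from by norm_num, Real.rpow_natCast]
  have e5 : ∫ x in Ioi (0 : ℝ), (2 * x ^ ((2 : ℝ) - 1)) • h (x ^ (2 : ℝ)) =
      2 * ∫ y in Ioi (0 : ℝ), y ^ (2 - 1) • h (y ^ 2) := by
    rw [← integral_const_mul]
    refine integral_congr_ae (Eventually.of_forall fun x => ?_)
    simp only [e4]
    rw [show (2 : ℝ) - 1 = 1 from by norm_num, Real.rpow_one, pow_one, Complex.real_smul,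
      Complex.real_smul]
    push_cast
    ring
  rw [e5]
  push_cast
  ring

private theorem rad_shift (G : ℝ → ℂ) (e : ℂ) (t : ℝ) :
    e * ∫ u in Ioi (0 : ℝ), G (t ^ 2 + u) =
      ∫ u in Ioi (0 : ℝ), if t ^ 2 < u then e * G u else 0 := by
  rw [← integral_indicator measurableSet_Ioi, ← integral_indicator measurableSet_Ioi,
    ← integral_const_mul,
    ← integral_add_left_eq_self (fun u => (Ioi (0 : ℝ)).indicator
      (fun u => if t ^ 2 < u then e * G u else 0) u) (t ^ 2)]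
  refine integral_congr_ae (Eventually.of_forall fun u => ?_)
  by_cases hu : 0 < u
  · have h1 : 0 < t ^ 2 + u := by positivity
    simp [indicator, hu, h1]
  · simp only [indicator, mem_Ioi, if_neg hu, mul_zero]
    by_cases h1 : 0 < t ^ 2 + u
    · rw [if_pos h1, if_neg (by linarith)]
    · rw [if_neg h1]

private theorem rad_sin {ρ : ℝ} (hρ : 0 < ρ) (a : ℝ) :
    ∫ t in (-a)..a, Complex.exp (((-(2 * Real.pi * ρ) : ℝ) : ℂ) * Complex.I * t) =
      ((Real.sin (2 * Real.pi * ρ * a) / (Real.pi * ρ) : ℝ) : ℂ) := by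
  have hc : ((-(2 * Real.pi * ρ) : ℝ) : ℂ) * Complex.I ≠ 0 := by
    refine mul_ne_zero ?_ Complex.I_ne_zero
    have : (-(2 * Real.pi * ρ) : ℝ) ≠ 0 := by
      have := Real.pi_pos
      have : 0 < 2 * Real.pi * ρ := by positivity
      linarith
    exact_mod_cast this
  rw [integral_exp_mul_complex hc]
  have hp : (Real.pi : ℂ) ≠ 0 := by exact_mod_cast Real.pi_pos.ne'
  have hr : (ρ : ℂ) ≠ 0 := by exact_mod_cast hρ.ne'
  push_cast
  rw [Complex.sin]
  have hI := Complex.I_sq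
  have e1 : -(2 * (Real.pi : ℂ) * ρ) * Complex.I * a = -(2 * Real.pi * ρ * a) * Complex.I := by ring
  have e2 : -(2 * (Real.pi : ℂ) * ρ) * Complex.I * (-a) = (2 * Real.pi * ρ * a) * Complex.I := by
    ring
  rw [e1, e2]
  field_simp
  ring_nf
  rw [hI]
  ring

private theorem rad_fub {G : ℝ → ℂ} (hG : IntegrableOn (fun u : ℝ => (√u : ℂ) * G u) (Ioi 0))
    {ρ : ℝ} (hρ : 0 < ρ) :
    ∫ t : ℝ, ∫ u in Ioi (0 : ℝ), (if t ^ 2 < u then
      Complex.exp (((-(2 * Real.pi * ρ) : ℝ) : ℂ) * Complex.I * t) * G u else 0) =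
    ∫ u in Ioi (0 : ℝ), ((Real.sin (2 * Real.pi * ρ * √u) / (Real.pi * ρ) : ℝ) : ℂ) * G u := by
  set e : ℝ → ℂ := fun t => Complex.exp (((-(2 * Real.pi * ρ) : ℝ) : ℂ) * Complex.I * t) with he
  have hne : ∀ t, ‖e t‖ = 1 := fun t => by
    have : ((-(2 * Real.pi * ρ) : ℝ) : ℂ) * Complex.I * t =
        ((-(2 * Real.pi * ρ) * t : ℝ) : ℂ) * Complex.I := by push_cast; ring
    rw [he]
    simp only
    rw [this, Complex.norm_exp_ofReal_mul_I]
  have hec : Continuous e := by
    rw [he]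
    fun_prop
  have hset : ∀ u : ℝ, 0 < u → {t : ℝ | t ^ 2 < u} = Ioo (-√u) (√u) := by
    intro u hu
    ext t
    rw [mem_ofPred_eq, mem_Ioo, ← abs_lt]
    rw [Real.lt_sqrt (abs_nonneg t), sq_abs]
  have hint : Integrable (Function.uncurry fun t u : ℝ => if t ^ 2 < u then e t * G u else 0)
      (volume.prod (volume.restrict (Ioi (0 : ℝ)))) := by
    have hm : AEStronglyMeasurable
        (Function.uncurry fun t u : ℝ => if t ^ 2 < u then e t * G u else 0)
        (volume.prod (volume.restrict (Ioi (0 : ℝ)))) := by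
      have h1 : Measurable (fun p : ℝ × ℝ => if p.1 ^ 2 < p.2 then e p.1 / (√p.2 : ℂ) else 0) := by
        refine Measurable.ite (measurableSet_lt (by fun_prop) (by fun_prop)) ?_ measurable_const
        refine (hec.measurable.comp measurable_fst).div ?_
        fun_prop
      have h2 : AEStronglyMeasurable (fun p : ℝ × ℝ => (√p.2 : ℂ) * G p.2)
          (volume.prod (volume.restrict (Ioi (0 : ℝ)))) := hG.1.comp_snd
      refine (h1.aestronglyMeasurable.mul h2).congr ?_
      refine Eventually.of_forall fun p => ?_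
      simp only [Function.uncurry, Pi.mul_apply]
      by_cases hp : p.1 ^ 2 < p.2
      · rw [if_pos hp, if_pos hp]
        have h3 : 0 < √p.2 := Real.sqrt_pos.2 (lt_of_le_of_lt (sq_nonneg _) hp)
        have h4 : ((√p.2 : ℝ) : ℂ) ≠ 0 := by exact_mod_cast h3.ne'
        field_simp
      · rw [if_neg hp, if_neg hp, zero_mul]
    rw [integrable_prod_iff' hm]
    constructor
    · filter_upwards [ae_restrict_mem measurableSet_Ioi] with u hu
      have h1 : (fun t : ℝ => Function.uncurry (fun t u : ℝ => if t ^ 2 < u then e t * G u else 0)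
          (t, u)) = (Ioo (-√u) (√u)).indicator (fun t => e t * G u) := by
        rw [← hset u hu]
        ext t
        simp [Function.uncurry, indicator]
      rw [h1, integrable_indicator_iff measurableSet_Ioo]
      refine (Continuous.integrableOn_Icc (by fun_prop)).mono_set Ioo_subset_Icc_self
    · have h1 : ∀ u ∈ Ioi (0 : ℝ), ∫ t : ℝ, ‖Function.uncurry
          (fun t u : ℝ => if t ^ 2 < u then e t * G u else 0) (t, u)‖ = 2 * ‖(√u : ℂ) * G u‖ := by
        intro u hu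
        have h2 : (fun t : ℝ => ‖Function.uncurry
            (fun t u : ℝ => if t ^ 2 < u then e t * G u else 0) (t, u)‖) =
            (Ioo (-√u) (√u)).indicator (fun t => ‖G u‖) := by
          rw [← hset u hu]
          ext t
          simp only [Function.uncurry, indicator, mem_ofPred_eq]
          by_cases ht : t ^ 2 < u
          · rw [if_pos ht, if_pos ht, norm_mul, hne, one_mul]
          · rw [if_neg ht, if_neg ht, norm_zero]
        rw [h2, integral_indicator measurableSet_Ioo, setIntegral_const, Measure.real,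
          Real.volume_Ioo, norm_mul, Complex.norm_real, Real.norm_of_nonneg (Real.sqrt_nonneg u),
          ENNReal.toReal_ofReal (by linarith [Real.sqrt_nonneg u]), smul_eq_mul]
        ring
      have h3 : IntegrableOn (fun u : ℝ => 2 * ‖(√u : ℂ) * G u‖) (Ioi 0) := hG.norm.const_mul 2
      exact h3.congr_fun (fun u hu => (h1 u hu).symm) measurableSet_Ioi
  rw [integral_integral_swap hint]
  refine setIntegral_congr_fun measurableSet_Ioi fun u hu => ?_
  have hu0 : 0 < √u := Real.sqrt_pos.2 hu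
  have h1 : (fun t : ℝ => if t ^ 2 < u then e t * G u else 0) =
      (Ioo (-√u) (√u)).indicator (fun t => e t * G u) := by
    rw [← hset u hu]
    ext t
    simp [indicator]
  rw [h1, integral_indicator measurableSet_Ioo, integral_mul_const, ← rad_sin hρ (√u),
    intervalIntegral.integral_of_le (by linarith), integral_Ioc_eq_integral_Ioo]

theorem radial_integrable {g : ℝ → ℂ}
    (hg : IntegrableOn (fun r : ℝ => (r : ℂ) ^ 2 * g r) (Ioi 0)) :
    Integrable (fun x : E3 => g ‖x‖) := by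
  rw [integrable_fun_norm_addHaar (volume : Measure E3) (f := g)]
  rw [finrank_euclideanSpace_fin]
  refine hg.congr (Eventually.of_forall fun r => ?_)
  simp [Complex.real_smul]

theorem radial_ft {g : ℝ → ℂ} (hg : IntegrableOn (fun r : ℝ => (r : ℂ) ^ 2 * g r) (Ioi 0))
    (ξ : E3) (hξ : ξ ≠ 0) :
    𝓕 (fun x : E3 => g ‖x‖) ξ =
      ((2 / ‖ξ‖ : ℝ) : ℂ) * ∫ r in Ioi (0 : ℝ), g r * r * (Real.sin (2 * Real.pi * ‖ξ‖ * r) : ℂ) := by
  have hρ : 0 < ‖ξ‖ := norm_pos_iff.2 hξ
  obtain ⟨ρ, hρe⟩ : ∃ ρ : ℝ, ρ = ‖ξ‖ := ⟨_, rfl⟩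
  rw [← hρe] at hρ
  obtain ⟨η, hη⟩ : ∃ η : E3, η = EuclideanSpace.single 0 ρ := ⟨_, rfl⟩
  have hηn : ‖ξ‖ = ‖η‖ := by
    rw [hη, PiLp.norm_single, Real.norm_of_nonneg hρ.le, hρe]
  have hA : (ℝ ∙ (ξ - η))ᗮ.reflection ξ = η := Submodule.reflection_sub hηn
  have h1 : 𝓕 (fun x : E3 => g ‖x‖) ξ = 𝓕 (fun x : E3 => g ‖x‖) η := by
    have h := Real.fourier_comp_linearIsometry ((ℝ ∙ (ξ - η))ᗮ.reflection)
      (fun x : E3 => g ‖x‖) ξ
    rw [hA] at h
    rw [← h]
    have h0 : (fun x : E3 => g ‖x‖) ∘ ((ℝ ∙ (ξ - η))ᗮ.reflection) = fun x : E3 => g ‖x‖ := by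
      ext x
      simp only [Function.comp_apply, LinearIsometryEquiv.norm_map]
    rw [h0]
  rw [h1, Real.fourier_eq', ← hρe]
  obtain ⟨e, he⟩ : ∃ e : ℝ → ℂ, e = fun t : ℝ =>
    Complex.exp (((-(2 * Real.pi * ρ) : ℝ) : ℂ) * Complex.I * t) := ⟨_, rfl⟩
  have hne : ∀ t, ‖e t‖ = 1 := fun t => by
    have : ((-(2 * Real.pi * ρ) : ℝ) : ℂ) * Complex.I * t =
        ((-(2 * Real.pi * ρ) * t : ℝ) : ℂ) * Complex.I := by push_cast; ring
    rw [he]
    simp only
    rw [this, Complex.norm_exp_ofReal_mul_I]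
  have hec : Continuous e := by
    rw [he]
    fun_prop
  have h2 : ∀ v : E3, Complex.exp (((-2 * Real.pi * ⟪v, η⟫_ℝ : ℝ) : ℂ) * Complex.I) • g ‖v‖ =
      e (v 0) * g ‖v‖ := by
    intro v
    rw [he, hη, EuclideanSpace.inner_single_right, smul_eq_mul]
    simp only [conj_trivial]
    congr 2
    push_cast
    ring
  simp only [h2]
  have hi : Integrable (fun x : E3 => e (x 0) * g ‖x‖) := by
    have h3 := radial_integrable hg
    refine h3.mono ?_ (Eventually.of_forall fun x => ?_)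
    · refine AEStronglyMeasurable.mul ?_ h3.1
      have : Continuous fun x : E3 => e (x 0) := hec.comp (by fun_prop)
      exact this.aestronglyMeasurable
    · rw [norm_mul, hne, one_mul]
  rw [rad_slice (fun t r => e t * g r) hi]
  have h4 : ∀ t : ℝ, ∫ w : EuclideanSpace ℝ (Fin 2), e t * g (√(t ^ 2 + ‖w‖ ^ 2)) =
      (Real.pi : ℂ) * ∫ u in Ioi (0 : ℝ), if t ^ 2 < u then e t * g (√u) else 0 := by
    intro t
    rw [integral_const_mul, rad_plane (fun u => g (√(t ^ 2 + u))),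
      ← rad_shift (fun u => g (√u)) (e t) t]
    ring
  simp only [h4]
  have e4 : ∀ x : ℝ, (x ^ (2 : ℝ)) = x ^ 2 := fun x => by
    rw [show (2 : ℝ) = ((2 : ℕ) : ℝ) from by norm_num, Real.rpow_natCast]
  have e5 : ∀ x : ℝ, (x ^ ((2 : ℝ) - 1)) = x := fun x => by
    rw [show (2 : ℝ) - 1 = 1 from by norm_num, Real.rpow_one]
  have hG : IntegrableOn (fun u : ℝ => (√u : ℂ) * g (√u)) (Ioi 0) := by
    rw [← integrableOn_Ioi_comp_rpow_iff' _ (p := 2) (by norm_num)]
    refine hg.congr_fun (fun r hr => ?_) measurableSet_Ioi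
    simp only [e4, e5]
    rw [Real.sqrt_sq (le_of_lt hr), Complex.real_smul]
    ring
  have h5 := rad_fub hG hρ
  rw [he, integral_const_mul, h5, ← integral_comp_rpow_Ioi_of_pos (p := 2) (by norm_num),
    ← integral_const_mul, ← integral_const_mul]
  refine setIntegral_congr_fun measurableSet_Ioi fun r hr => ?_
  simp only [e4, e5]
  rw [Real.sqrt_sq (le_of_lt hr), Complex.real_smul]
  have hp : (Real.pi : ℂ) ≠ 0 := by exact_mod_cast Real.pi_pos.ne'
  have hr : (ρ : ℂ) ≠ 0 := by exact_mod_cast hρ.ne'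
  push_cast
  field_simp

end FracScat

end
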