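import Mathlib

/-!
# Scattering by the fractional Schroedinger operator in dimension three: definitions

The Fourier transform is `𝓕 φ ξ = ∫ exp(-2πi ξ·x) φ x dx`, so that `(-Δ)^s` is the multiplier
`(2π|ξ|)^(2s)` and `D^s = ∇(-Δ)^((s-1)/2)` is the multiplier `i (2πξ) (2π|ξ|)^(s-1)`.
-/

set_option autoImplicit false

open MeasureTheory Filter Topology
open scoped FourierTransform SchwartzMap InnerProductSpace

noncomputable section

namespace FracScat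

/-- Three-dimensional Euclidean space. -/
abbrev E3 := EuclideanSpace ℝ (Fin 3)

/-- `(-Δ)^s φ` for a Schwartz function `φ`. -/
def fracLap (s : ℝ) (φ : 𝓢(E3, ℂ)) : E3 → ℂ :=
  𝓕⁻ (fun ξ : E3 => (((2 * Real.pi * ‖ξ‖) ^ (2 * s) : ℝ) : ℂ) * 𝓕 (φ : E3 → ℂ) ξ)

/-- The `j`-th component of `D^s φ = ∇(-Δ)^((s-1)/2) φ` for a Schwartz function `φ`. -/
def fracGrad (s : ℝ) (j : Fin 3) (φ : 𝓢(E3, ℂ)) : E3 → ℂ :=
  𝓕⁻ (fun ξ : E3 => Complex.I * ((2 * Real.pi * ξ j : ℝ) : ℂ) *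
    (((2 * Real.pi * ‖ξ‖) ^ (s - 1) : ℝ) : ℂ) * 𝓕 (φ : E3 → ℂ) ξ)

/-- The plane wave `exp(i k θ·x)`. -/
def planeWave (k : ℂ) (θ x : E3) : ℂ := Complex.exp (Complex.I * k * (⟪θ, x⟫_ℝ : ℝ))

/-- `v` is locally square integrable and `∫_{|x|<R} |v|² ≤ C R` for all `R ≥ 1`. -/
def BStar (v : E3 → ℂ) : Prop :=
  AEStronglyMeasurable v volume ∧ ∃ C : ℝ, ∀ R : ℝ, 1 ≤ R →
    IntegrableOn (fun x => ‖v x‖ ^ 2) (Metric.ball 0 R) ∧
      ∫ x in Metric.ball (0 : E3) R, ‖v x‖ ^ 2 ≤ C * R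

/-- A real bounded measurable potential which vanishes outside a ball. -/
structure IsPotential (V : E3 → ℝ) : Prop where
  measurable : Measurable V
  bounded : ∃ M : ℝ, ∀ x, |V x| ≤ M
  compact_support : ∃ r : ℝ, ∀ x, r < ‖x‖ → V x = 0

/-- `u = exp(i k θ·x) + v` is an outgoing solution of `((-Δ)^s - k^(2s) - V) u = 0`:
the scattered wave `v` is in the class `BStar`, the equation holds in the sense of distributions,
and `D^s v`, computed in the sense of distributions, is a vector-valued function `w` with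
`R⁻¹ ∫_{1<|x|<R} |w - i k^s (x/|x|) v|² → 0` as `R → ∞`. -/
structure IsScattering (s k : ℝ) (V : E3 → ℝ) (θ : E3) (u : E3 → ℂ) : Prop where
  bstar : BStar (fun x => u x - planeWave k θ x)
  equation : ∀ φ : 𝓢(E3, ℂ), Integrable (fun x => u x * fracLap s φ x) ∧
    ∫ x, u x * fracLap s φ x = ∫ x, (((k ^ (2 * s) : ℝ) : ℂ) + (V x : ℂ)) * u x * φ x
  radiation : ∃ w : Fin 3 → E3 → ℂ, (∀ j, BStar (w j)) ∧
    (∀ (j : Fin 3) (φ : 𝓢(E3, ℂ)),
      Integrable (fun x => (u x - planeWave k θ x) * fracGrad s j φ x) ∧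
      ∫ x, w j x * φ x = -∫ x, (u x - planeWave k θ x) * fracGrad s j φ x) ∧
    Tendsto (fun R : ℝ => R⁻¹ * ∫ x in {x : E3 | 1 < ‖x‖ ∧ ‖x‖ < R},
      ∑ j, ‖w j x - Complex.I * ((k ^ s : ℝ) : ℂ) * ((x j / ‖x‖ : ℝ) : ℂ) *
        (u x - planeWave k θ x)‖ ^ 2) atTop (𝓝 0)

/-- The scattering amplitude `∫ exp(-i k ω·y) V(y) u(y) dy` in the direction `ω`. -/
def amplitude (k : ℝ) (V : E3 → ℝ) (u : E3 → ℂ) (ω : E3) : ℂ :=
  ∫ y, Complex.exp (-(Complex.I * k * (⟪ω, y⟫_ℝ : ℝ))) * (V y : ℂ) * u y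

/-- At the wave number `k` and for the incident direction `θ` there are outgoing solutions for
`V₁` and `V₂` with the same back-scattering amplitude `u^∞(k, -θ, θ)`. -/
def SameBackScattering (s k : ℝ) (V₁ V₂ : E3 → ℝ) (θ : E3) : Prop :=
  ∃ u₁ u₂ : E3 → ℂ, IsScattering s k V₁ θ u₁ ∧ IsScattering s k V₂ θ u₂ ∧
    amplitude k V₁ u₁ (-θ) = amplitude k V₂ u₂ (-θ)

/-- The essential support of `V`. -/
def essSupp (V : E3 → ℝ) : Set E3 :=
  {x | ∀ ε : ℝ, 0 < ε → 0 < volume (Metric.ball x ε ∩ {y | V y ≠ 0})}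

end FracScat

end
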