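import Pool.Agent.Lib.MP_6e2ba5_an.WLgen
import Pool.Agent.Lib.MP_6e2ba5_an.PowA

/-! # `(1+|x|²) (-Δ)^s φ ∈ L²`

`weighted_mult` with `m ε = A^s`, `A = AA ε ξ` (complex valued), `m0 = (2π‖ξ‖)^(2s)`:
`‖D m‖ ≤ C A^(s-1/2)` is bounded by a polynomial (`s > 1/2`), `‖D² m‖ ≤ C A^(s-1)`, and for `s < 1`
`A^(s-1) ≤ (2π‖ξ‖)^(2s-2)`, `β = 2 - 2s < 1` (for `s ≥ 1` take `β = 0`). -/

set_option autoImplicit false

open MeasureTheory Filter Topology Set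
open scoped FourierTransform SchwartzMap InnerProductSpace ENNReal ContDiff

noncomputable section

namespace FracScat

private theorem wl_AA_le {ε : ℝ} (hε : ε ∈ Ioc (0 : ℝ) 1) (ξ : E3) :
    AA ε ξ ≤ (4 * Real.pi ^ 2 + 1) * (1 + ‖ξ‖) ^ 2 := by
  unfold AA
  have h1 : ε ^ 2 ≤ 1 := by nlinarith [hε.1, hε.2]
  have h2 := norm_nonneg ξ
  have h3 : 0 ≤ Real.pi ^ 2 := sq_nonneg _
  nlinarith [mul_nonneg h3 h2]

private theorem wl_AA_pos {ε : ℝ} (hε : 0 < ε) (ξ : E3) : 0 < AA ε ξ := by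
  unfold AA
  positivity

private theorem wl_pow {ε : ℝ} (hε : ε ∈ Ioc (0 : ℝ) 1) (ξ : E3) {p : ℝ} (hp : 0 ≤ p) (hp2 : p ≤ 2) :
    AA ε ξ ^ p ≤ (4 * Real.pi ^ 2 + 1) ^ 2 * (1 + ‖ξ‖) ^ 4 := by
  have h1 : 1 ≤ (4 * Real.pi ^ 2 + 1) * (1 + ‖ξ‖) ^ 2 := by
    have h2 : 1 ≤ (1 + ‖ξ‖) ^ 2 := one_le_pow₀ (by linarith [norm_nonneg ξ])
    nlinarith [sq_nonneg Real.pi]
  calc AA ε ξ ^ p ≤ ((4 * Real.pi ^ 2 + 1) * (1 + ‖ξ‖) ^ 2) ^ p :=
        Real.rpow_le_rpow (wl_AA_pos hε.1 ξ).le (wl_AA_le hε ξ) hp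
    _ ≤ ((4 * Real.pi ^ 2 + 1) * (1 + ‖ξ‖) ^ 2) ^ (2 : ℝ) := Real.rpow_le_rpow_of_exponent_le h1 hp2
    _ = _ := by
        rw [show (2 : ℝ) = ((2 : ℕ) : ℝ) by norm_num, Real.rpow_natCast]
        ring

theorem fracLap_WL {s : ℝ} (h0 : 1 / 2 < s) (h2 : s < 2) (φ : 𝓢(E3, ℂ)) : WL (fracLap s φ) := by
  obtain ⟨C1, hC1, hf⟩ := AA_pow_fderiv s
  obtain ⟨C2, hC2, hh⟩ := AA_pow_hess s
  set K : ℝ := (4 * Real.pi ^ 2 + 1) ^ 2 with hK
  have hK1 : 1 ≤ K := one_le_pow₀ (by nlinarith [sq_nonneg Real.pi])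
  have hgr : ∀ ε : ℝ, 0 < ε → Function.HasTemperateGrowth (fun ξ : E3 => AA ε ξ ^ s) :=
    fun ε hε => AA_pow_growth s hε
  have hsm : ∀ ε : ℝ, 0 < ε → ContDiff ℝ ∞ (fun ξ : E3 => AA ε ξ ^ s) := fun ε hε => (hgr ε hε).1
  -- the constant
  set C : ℝ := K + C1 * K + C2 * K + C2 with hC
  have hCn : 0 ≤ C := by positivity
  have hnn : ∀ ξ : E3, 1 ≤ (1 + ‖ξ‖) ^ 4 := fun ξ => one_le_pow₀ (by linarith [norm_nonneg ξ])
  set β : ℝ := if s < 1 then 2 - 2 * s else 0 with hβ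
  have hβ2 : β < 3 / 2 := by
    rw [hβ]
    split_ifs <;> linarith
  refine weighted_mult φ (m := fun ε ξ => ((AA ε ξ ^ s : ℝ) : ℂ)) (N := 4) (C := C) (β := β) ?_ ?_ hβ2
    ?_ ?_ ?_
  · intro ε hε
    exact (Complex.ofRealCLM.hasTemperateGrowth).comp (hgr ε hε.1)
  · intro ξ hξ
    have hn : 0 < ‖ξ‖ := norm_pos_iff.2 hξ
    have hb : 0 < 2 * Real.pi * ‖ξ‖ := by positivity
    have h1 : Tendsto (fun ε : ℝ => AA ε ξ) (𝓝[>] 0) (𝓝 ((2 * Real.pi * ‖ξ‖) ^ 2)) := by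
      have hcont : Continuous (fun ε : ℝ => AA ε ξ) := by
        unfold AA
        fun_prop
      have h3 := (hcont.tendsto 0).mono_left (nhdsWithin_le_nhds (s := Ioi (0 : ℝ)))
      have h4 : AA 0 ξ = (2 * Real.pi * ‖ξ‖) ^ 2 := by
        unfold AA
        ring
      rwa [h4] at h3
    have h3 := h1.rpow_const (p := s) (Or.inl (by positivity))
    have h4 : ((2 * Real.pi * ‖ξ‖) ^ 2) ^ s = (2 * Real.pi * ‖ξ‖) ^ (2 * s) := by
      rw [← Real.rpow_natCast, ← Real.rpow_mul hb.le]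
      norm_num
    rw [h4] at h3
    exact (Complex.continuous_ofReal.tendsto _).comp h3
  · intro ε hε ξ
    rw [Complex.norm_real, Real.norm_eq_abs, abs_of_nonneg (Real.rpow_nonneg (wl_AA_pos hε.1 ξ).le _)]
    have h3 := wl_pow hε ξ (p := s) (by linarith) h2.le
    refine h3.trans ?_
    refine mul_le_mul_of_nonneg_right ?_ (by positivity)
    rw [hC]
    have := mul_nonneg hC1 (zero_le_one.trans hK1)
    have := mul_nonneg hC2 (zero_le_one.trans hK1)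
    linarith
  · intro ε hε ξ hξ
    have hd : DifferentiableAt ℝ (fun ξ : E3 => AA ε ξ ^ s) ξ :=
      ((hsm ε hε.1).differentiable (by norm_num)) ξ
    have h3 : fderiv ℝ (fun ξ : E3 => ((AA ε ξ ^ s : ℝ) : ℂ)) ξ =
        Complex.ofRealCLM.comp (fderiv ℝ (fun ξ : E3 => AA ε ξ ^ s) ξ) :=
      (Complex.ofRealCLM.hasFDerivAt.comp ξ hd.hasFDerivAt).fderiv
    have h4 : ‖fderiv ℝ (fun ξ : E3 => ((AA ε ξ ^ s : ℝ) : ℂ)) ξ‖ ≤
        ‖fderiv ℝ (fun ξ : E3 => AA ε ξ ^ s) ξ‖ := by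
      rw [h3]
      refine (ContinuousLinearMap.opNorm_comp_le _ _).trans ?_
      rw [Complex.ofRealCLM_norm, one_mul]
    have h5 := hf ε hε.1 ξ
    have h6 := wl_pow hε ξ (p := s - 1 / 2) (by linarith) (by linarith)
    have h7 : C1 * AA ε ξ ^ (s - 1 / 2) ≤ C1 * (K * (1 + ‖ξ‖) ^ 4) := mul_le_mul_of_nonneg_left h6 hC1
    have h8 : C1 * (K * (1 + ‖ξ‖) ^ 4) ≤ C * (1 + ‖ξ‖) ^ 4 := by
      rw [← mul_assoc]
      refine mul_le_mul_of_nonneg_right ?_ (by positivity)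
      rw [hC]
      have := mul_nonneg hC2 (zero_le_one.trans hK1)
      linarith
    have h9 : 0 ≤ ‖ξ‖ ^ (-(1 / 2 : ℝ)) := Real.rpow_nonneg (norm_nonneg _) _
    have h10 : 0 ≤ C * (1 + ‖ξ‖) ^ 4 := mul_nonneg hCn (by positivity)
    nlinarith [mul_nonneg h10 h9]
  · intro ε hε ξ hξ
    have hn : 0 < ‖ξ‖ := norm_pos_iff.2 hξ
    have h4 : ‖iteratedFDeriv ℝ 2 (fun ξ : E3 => ((AA ε ξ ^ s : ℝ) : ℂ)) ξ‖ =
        ‖iteratedFDeriv ℝ 2 (fun ξ : E3 => AA ε ξ ^ s) ξ‖ := by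
      have := Complex.ofRealLI.norm_iteratedFDeriv_comp_left (i := 2) (n := ((2 : ℕ) : WithTop ℕ∞))
        (x := ξ) (contDiff_infty.1 (hsm ε hε.1) 2).contDiffAt le_rfl
      exact this
    rw [h4]
    refine (hh ε hε.1 ξ).trans ?_
    have h9 : 0 ≤ ‖ξ‖ ^ (-β) := Real.rpow_nonneg (norm_nonneg _) _
    have hP : 1 ≤ (1 + ‖ξ‖) ^ 4 := hnn ξ
    by_cases hs : s < 1
    · have hβ3 : β = 2 - 2 * s := by rw [hβ, if_pos hs]
      have h5 : AA ε ξ ^ (s - 1) ≤ ‖ξ‖ ^ (-β) := by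
        have h6 : ‖ξ‖ ^ 2 ≤ AA ε ξ := by
          unfold AA
          have hpi : (1 : ℝ) ≤ 2 * Real.pi := by linarith [Real.pi_gt_three]
          have : ‖ξ‖ ≤ 2 * Real.pi * ‖ξ‖ := by nlinarith
          nlinarith [sq_nonneg ε, mul_self_le_mul_self hn.le this]
        calc AA ε ξ ^ (s - 1) ≤ (‖ξ‖ ^ 2) ^ (s - 1) :=
              Real.rpow_le_rpow_of_nonpos (by positivity) h6 (by linarith)
          _ = ‖ξ‖ ^ (-β) := by
              rw [← Real.rpow_natCast, ← Real.rpow_mul hn.le, hβ3]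
              congr 1
              push_cast
              ring
      have h7 : C2 * AA ε ξ ^ (s - 1) ≤ C2 * ‖ξ‖ ^ (-β) := mul_le_mul_of_nonneg_left h5 hC2
      have h8 : C2 ≤ C * (1 + ‖ξ‖) ^ 4 := by
        have h10 : C2 ≤ C := by
          rw [hC]
          have := mul_nonneg hC2 (zero_le_one.trans hK1)
          have := mul_nonneg hC1 (zero_le_one.trans hK1)
          linarith
        nlinarith
      nlinarith [mul_le_mul_of_nonneg_right h8 h9, mul_nonneg hCn (zero_le_one.trans hP)]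
    · have h5 := wl_pow hε ξ (p := s - 1) (by linarith) (by linarith)
      have h7 : C2 * AA ε ξ ^ (s - 1) ≤ C2 * (K * (1 + ‖ξ‖) ^ 4) := mul_le_mul_of_nonneg_left h5 hC2
      have h8 : C2 * (K * (1 + ‖ξ‖) ^ 4) ≤ C * (1 + ‖ξ‖) ^ 4 := by
        rw [← mul_assoc]
        refine mul_le_mul_of_nonneg_right ?_ (by positivity)
        rw [hC]
        have := mul_nonneg hC1 (zero_le_one.trans hK1)
        linarith
      have h10 : 0 ≤ C * (1 + ‖ξ‖) ^ 4 := mul_nonneg hCn (by positivity)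
      nlinarith [mul_nonneg h10 h9]

end FracScat

end
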