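import Pool.Agent.Lib.MP_6e2ba5_an.WLgen
import Pool.Agent.Lib.MP_6e2ba5_an.PowA

/-! # `(1+|x|²) D^s φ ∈ L²`

`weighted_mult` with `m ε = i (2π ξ_j) A^((s-1)/2)`, `A = AA ε ξ`, `m0 = i (2π ξ_j) (2π‖ξ‖)^(s-1)`.
Leibniz: `‖D m‖ ≤ C A^((s-1)/2)` (use `|2π ξ_j| ≤ A^(1/2)`), `‖D² m‖ ≤ C A^((s-2)/2)`. For `s < 1`
`A^((s-1)/2) ≤ (2π‖ξ‖)^(s-1)` and `s - 1 > -1/2`; `A^((s-2)/2) ≤ (2π‖ξ‖)^(s-2)`,
`β = 2 - s < 3/2`. -/

set_option autoImplicit false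

open MeasureTheory Filter Topology Set
open scoped FourierTransform SchwartzMap InnerProductSpace ENNReal ContDiff

noncomputable section

namespace FracScat

/-- The linear function `2π ξ_j`. -/
private def WL2g_L (j : Fin 3) : E3 →L[ℝ] ℝ := (2 * Real.pi) • (EuclideanSpace.proj j : E3 →L[ℝ] ℝ)

private theorem WL2g_L_apply (j : Fin 3) (ξ : E3) : WL2g_L j ξ = 2 * Real.pi * ξ j := by
  unfold WL2g_L
  simp

private theorem WL2g_L_abs (j : Fin 3) (ξ : E3) : |WL2g_L j ξ| ≤ 2 * Real.pi * ‖ξ‖ := by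
  rw [WL2g_L_apply, abs_mul, abs_of_pos (by positivity : (0 : ℝ) < 2 * Real.pi)]
  have h : |ξ j| ≤ ‖ξ‖ := PiLp.norm_apply_le ξ j
  exact mul_le_mul_of_nonneg_left h (by positivity)

private theorem WL2g_L_norm (j : Fin 3) : ‖WL2g_L j‖ ≤ 2 * Real.pi := by
  refine ContinuousLinearMap.opNorm_le_bound _ (by positivity) fun ξ => ?_
  rw [Real.norm_eq_abs]
  exact WL2g_L_abs j ξ

/-- The isometry `x ↦ i x`. -/
private def WL2g_J : ℝ →ₗᵢ[ℝ] ℂ where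
  toFun x := Complex.I * x
  map_add' x y := by
    push_cast
    ring
  map_smul' c x := by
    simp only [smul_eq_mul, RingHom.id_apply, Complex.real_smul]
    push_cast
    ring
  norm_map' x := by
    simp

private theorem WL2g_J_apply (x : ℝ) : WL2g_J x = Complex.I * x := rfl

private theorem WL2g_A_pos {ε : ℝ} (hε : 0 < ε) (ξ : E3) : 0 < AA ε ξ := by
  unfold AA
  positivity

private theorem WL2g_A_ge (ε : ℝ) (ξ : E3) : (2 * Real.pi * ‖ξ‖) ^ 2 ≤ AA ε ξ := by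
  unfold AA
  nlinarith [sq_nonneg ε]

private theorem WL2g_lin_le {ε : ℝ} (ξ : E3) :
    2 * Real.pi * ‖ξ‖ ≤ AA ε ξ ^ (1 / 2 : ℝ) := by
  rw [← Real.sqrt_eq_rpow]
  exact Real.le_sqrt_of_sq_le (WL2g_A_ge ε ξ)

private theorem WL2g_A_le {ε : ℝ} (hε : ε ∈ Ioc (0 : ℝ) 1) (ξ : E3) :
    1 + AA ε ξ ≤ 41 * (1 + ‖ξ‖) ^ 2 := by
  unfold AA
  have h1 : ε ^ 2 ≤ 1 := by
    have := hε.1
    have := hε.2
    nlinarith
  have h2 : Real.pi ^ 2 ≤ 10 := by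
    have := Real.pi_lt_d2
    have := Real.pi_pos
    nlinarith
  have h3 : (2 * Real.pi * ‖ξ‖) ^ 2 ≤ 40 * ‖ξ‖ ^ 2 := by
    have h4 := mul_le_mul_of_nonneg_right h2 (sq_nonneg ‖ξ‖)
    nlinarith
  have h5 := norm_nonneg ξ
  nlinarith

private theorem WL2g_pow_le {x q : ℝ} (hx : 0 < x) (hq : 0 ≤ q) (hq1 : q ≤ 1) : x ^ q ≤ 1 + x := by
  rcases le_total x 1 with h | h
  · have := Real.rpow_le_one hx.le h hq
    linarith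
  · have h1 := Real.rpow_le_rpow_of_exponent_le h hq1
    rw [Real.rpow_one] at h1
    linarith

private theorem WL2g_neg {ε q : ℝ} (hq : q ≤ 0) {ξ : E3} (hξ : ξ ≠ 0) :
    AA ε ξ ^ q ≤ ‖ξ‖ ^ (2 * q) := by
  have hn : 0 < ‖ξ‖ := norm_pos_iff.2 hξ
  have h1 : 0 < 2 * Real.pi * ‖ξ‖ := by positivity
  have h2 : AA ε ξ ^ q ≤ ((2 * Real.pi * ‖ξ‖) ^ 2) ^ q :=
    Real.rpow_le_rpow_of_nonpos (by positivity) (WL2g_A_ge ε ξ) hq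
  have h3 : ((2 * Real.pi * ‖ξ‖) ^ 2) ^ q = (2 * Real.pi * ‖ξ‖) ^ (2 * q) := by
    rw [← Real.rpow_natCast, ← Real.rpow_mul h1.le]
    norm_num
  have h4 : ‖ξ‖ ≤ 2 * Real.pi * ‖ξ‖ := by
    have := Real.pi_gt_three
    nlinarith
  have h5 : (2 * Real.pi * ‖ξ‖) ^ (2 * q) ≤ ‖ξ‖ ^ (2 * q) :=
    Real.rpow_le_rpow_of_nonpos hn h4 (by linarith)
  rw [h3] at h2
  exact h2.trans h5

private theorem WL2g_iter (p : ℝ) (j : Fin 3) {ε : ℝ} (hε : 0 < ε) (ξ : E3) (i : ℕ) :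
    ‖iteratedFDeriv ℝ i (fun ξ : E3 => Complex.I * ((WL2g_L j ξ * AA ε ξ ^ p : ℝ) : ℂ)) ξ‖ =
      ‖iteratedFDeriv ℝ i (fun ξ : E3 => WL2g_L j ξ * AA ε ξ ^ p) ξ‖ := by
  have hc : ContDiff ℝ ∞ (fun ξ : E3 => WL2g_L j ξ * AA ε ξ ^ p) :=
    (WL2g_L j).contDiff.mul (AA_pow_growth p hε).1
  have h := WL2g_J.norm_iteratedFDeriv_comp_left (x := ξ) hc.contDiffAt
    (i := i) (by exact_mod_cast le_top)
  exact h

private theorem WL2g_L_two (j : Fin 3) (ξ : E3) : ‖iteratedFDeriv ℝ 2 (WL2g_L j) ξ‖ = 0 := by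
  rw [← norm_iteratedFDeriv_fderiv]
  have h : fderiv ℝ (WL2g_L j) = fun _ => WL2g_L j := by
    funext x
    exact (WL2g_L j).fderiv
  rw [h, iteratedFDeriv_const_of_ne one_ne_zero]
  simp

private theorem WL2g_L_one (j : Fin 3) (ξ : E3) :
    ‖iteratedFDeriv ℝ 1 (WL2g_L j) ξ‖ ≤ 2 * Real.pi := by
  rw [norm_iteratedFDeriv_one, (WL2g_L j).fderiv]
  exact WL2g_L_norm j

private theorem WL2g_D1 (p : ℝ) (j : Fin 3) {C₁ : ℝ}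
    (hC₁ : ∀ ε : ℝ, 0 < ε → ∀ ξ : E3,
      ‖fderiv ℝ (fun ξ : E3 => AA ε ξ ^ p) ξ‖ ≤ C₁ * AA ε ξ ^ (p - 1 / 2))
    {ε : ℝ} (hε : 0 < ε) (ξ : E3) :
    ‖fderiv ℝ (fun ξ : E3 => Complex.I * ((WL2g_L j ξ * AA ε ξ ^ p : ℝ) : ℂ)) ξ‖ ≤
      (2 * Real.pi + C₁) * AA ε ξ ^ p := by
  rw [← norm_iteratedFDeriv_one, WL2g_iter p j hε]
  have hA := WL2g_A_pos hε ξ
  have h1 := norm_iteratedFDeriv_mul_le (n := 1) (N := ((⊤ : ℕ∞) : WithTop ℕ∞)) (WL2g_L j).contDiff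
    (AA_pow_growth p hε).1 ξ (by exact_mod_cast le_top)
  refine h1.trans ?_
  rw [Finset.sum_range_succ, Finset.sum_range_one]
  have q0 : ‖iteratedFDeriv ℝ 0 (WL2g_L j) ξ‖ = |WL2g_L j ξ| := by
    rw [norm_iteratedFDeriv_zero, Real.norm_eq_abs]
  have q1 : ‖iteratedFDeriv ℝ (1 - 0) (fun ξ : E3 => AA ε ξ ^ p) ξ‖ =
      ‖fderiv ℝ (fun ξ : E3 => AA ε ξ ^ p) ξ‖ := norm_iteratedFDeriv_one _
  have q2 : ‖iteratedFDeriv ℝ (1 - 1) (fun ξ : E3 => AA ε ξ ^ p) ξ‖ = AA ε ξ ^ p := by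
    have : ‖iteratedFDeriv ℝ (1 - 1) (fun ξ : E3 => AA ε ξ ^ p) ξ‖ = ‖AA ε ξ ^ p‖ :=
      norm_iteratedFDeriv_zero
    rw [this, Real.norm_eq_abs, abs_of_nonneg (Real.rpow_nonneg hA.le p)]
  rw [q0, q1, q2, Nat.choose_zero_right, Nat.choose_self, Nat.cast_one, one_mul, one_mul]
  have e1 : |WL2g_L j ξ| ≤ AA ε ξ ^ (1 / 2 : ℝ) := (WL2g_L_abs j ξ).trans (WL2g_lin_le ξ)
  have e2 := hC₁ ε hε ξ
  have e3 : |WL2g_L j ξ| * ‖fderiv ℝ (fun ξ : E3 => AA ε ξ ^ p) ξ‖ ≤ C₁ * AA ε ξ ^ p := by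
    calc |WL2g_L j ξ| * ‖fderiv ℝ (fun ξ : E3 => AA ε ξ ^ p) ξ‖ ≤
        AA ε ξ ^ (1 / 2 : ℝ) * (C₁ * AA ε ξ ^ (p - 1 / 2)) :=
          mul_le_mul e1 e2 (norm_nonneg _) (by positivity)
      _ = C₁ * (AA ε ξ ^ (1 / 2 : ℝ) * AA ε ξ ^ (p - 1 / 2)) := by ring
      _ = C₁ * AA ε ξ ^ p := by
          rw [← Real.rpow_add hA]
          congr 2
          ring
  have e4 : ‖iteratedFDeriv ℝ 1 (WL2g_L j) ξ‖ * AA ε ξ ^ p ≤ 2 * Real.pi * AA ε ξ ^ p :=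
    mul_le_mul_of_nonneg_right (WL2g_L_one j ξ) (Real.rpow_nonneg hA.le p)
  calc _ ≤ C₁ * AA ε ξ ^ p + 2 * Real.pi * AA ε ξ ^ p := add_le_add e3 e4
    _ = _ := by ring

private theorem WL2g_D2 (p : ℝ) (j : Fin 3) {C₁ C₂ : ℝ}
    (hC₁ : ∀ ε : ℝ, 0 < ε → ∀ ξ : E3,
      ‖fderiv ℝ (fun ξ : E3 => AA ε ξ ^ p) ξ‖ ≤ C₁ * AA ε ξ ^ (p - 1 / 2))
    (hC₂ : ∀ ε : ℝ, 0 < ε → ∀ ξ : E3,
      ‖iteratedFDeriv ℝ 2 (fun ξ : E3 => AA ε ξ ^ p) ξ‖ ≤ C₂ * AA ε ξ ^ (p - 1))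
    {ε : ℝ} (hε : 0 < ε) (ξ : E3) :
    ‖iteratedFDeriv ℝ 2 (fun ξ : E3 => Complex.I * ((WL2g_L j ξ * AA ε ξ ^ p : ℝ) : ℂ)) ξ‖ ≤
      (C₂ + 4 * Real.pi * C₁) * AA ε ξ ^ (p - 1 / 2) := by
  rw [WL2g_iter p j hε]
  have hA := WL2g_A_pos hε ξ
  have h1 := norm_iteratedFDeriv_mul_le (n := 2) (N := ((⊤ : ℕ∞) : WithTop ℕ∞)) (WL2g_L j).contDiff
    (AA_pow_growth p hε).1 ξ (WithTop.coe_le_coe.2 (le_top : ((2 : ℕ) : ℕ∞) ≤ ⊤))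
  refine h1.trans ?_
  rw [Finset.sum_range_succ, Finset.sum_range_succ, Finset.sum_range_one, WL2g_L_two]
  have q0 : ‖iteratedFDeriv ℝ 0 (WL2g_L j) ξ‖ = |WL2g_L j ξ| := by
    rw [norm_iteratedFDeriv_zero, Real.norm_eq_abs]
  have q1 : ‖iteratedFDeriv ℝ (2 - 1) (fun ξ : E3 => AA ε ξ ^ p) ξ‖ =
      ‖fderiv ℝ (fun ξ : E3 => AA ε ξ ^ p) ξ‖ := norm_iteratedFDeriv_one _
  have q2 : ‖iteratedFDeriv ℝ (2 - 0) (fun ξ : E3 => AA ε ξ ^ p) ξ‖ =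
      ‖iteratedFDeriv ℝ 2 (fun ξ : E3 => AA ε ξ ^ p) ξ‖ := rfl
  rw [q0, q1, q2, Nat.choose_zero_right, Nat.choose_one_right, Nat.cast_one, one_mul, mul_zero,
    zero_mul, add_zero, Nat.cast_ofNat]
  have e1 : |WL2g_L j ξ| ≤ AA ε ξ ^ (1 / 2 : ℝ) := (WL2g_L_abs j ξ).trans (WL2g_lin_le ξ)
  have e3 : |WL2g_L j ξ| * ‖iteratedFDeriv ℝ 2 (fun ξ : E3 => AA ε ξ ^ p) ξ‖ ≤
      C₂ * AA ε ξ ^ (p - 1 / 2) := by
    calc |WL2g_L j ξ| * ‖iteratedFDeriv ℝ 2 (fun ξ : E3 => AA ε ξ ^ p) ξ‖ ≤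
        AA ε ξ ^ (1 / 2 : ℝ) * (C₂ * AA ε ξ ^ (p - 1)) :=
          mul_le_mul e1 (hC₂ ε hε ξ) (norm_nonneg _) (by positivity)
      _ = C₂ * (AA ε ξ ^ (1 / 2 : ℝ) * AA ε ξ ^ (p - 1)) := by ring
      _ = C₂ * AA ε ξ ^ (p - 1 / 2) := by
          rw [← Real.rpow_add hA]
          congr 2
          ring
  have e4 : 2 * ‖iteratedFDeriv ℝ 1 (WL2g_L j) ξ‖ * ‖fderiv ℝ (fun ξ : E3 => AA ε ξ ^ p) ξ‖ ≤
      4 * Real.pi * C₁ * AA ε ξ ^ (p - 1 / 2) := by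
    calc 2 * ‖iteratedFDeriv ℝ 1 (WL2g_L j) ξ‖ * ‖fderiv ℝ (fun ξ : E3 => AA ε ξ ^ p) ξ‖ ≤
        2 * (2 * Real.pi) * (C₁ * AA ε ξ ^ (p - 1 / 2)) := by
          refine mul_le_mul ?_ (hC₁ ε hε ξ) (norm_nonneg _) (by positivity)
          have := WL2g_L_one j ξ
          linarith
      _ = _ := by ring
  calc _ ≤ C₂ * AA ε ξ ^ (p - 1 / 2) + 4 * Real.pi * C₁ * AA ε ξ ^ (p - 1 / 2) :=
        add_le_add e3 e4
    _ = _ := by ring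

theorem fracGrad_WL {s : ℝ} (h0 : 1 / 2 < s) (h2 : s < 2) (j : Fin 3) (φ : 𝓢(E3, ℂ)) :
    WL (fracGrad s j φ) := by
  obtain ⟨C₁, hC₁0, hC₁⟩ := AA_pow_fderiv ((s - 1) / 2)
  obtain ⟨C₂, hC₂0, hC₂⟩ := AA_pow_hess ((s - 1) / 2)
  have hpi := Real.pi_pos
  set K : ℝ := 1 + (2 * Real.pi + C₁) + (C₂ + 4 * Real.pi * C₁) with hK
  have hK1 : 1 ≤ K := by
    rw [hK]
    have : 0 ≤ 4 * Real.pi * C₁ := by positivity
    linarith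
  have hKa : 2 * Real.pi + C₁ ≤ K := by
    rw [hK]
    have : 0 ≤ 4 * Real.pi * C₁ := by positivity
    linarith
  have hKb : C₂ + 4 * Real.pi * C₁ ≤ K := by
    rw [hK]
    linarith
  unfold fracGrad
  refine weighted_mult φ
    (m := fun ε ξ => Complex.I * ((WL2g_L j ξ * AA ε ξ ^ ((s - 1) / 2) : ℝ) : ℂ))
    (m0 := fun ξ => Complex.I * ((2 * Real.pi * ξ j : ℝ) : ℂ) *
      (((2 * Real.pi * ‖ξ‖) ^ (s - 1) : ℝ) : ℂ)) (N := 2) (C := K * 41) (β := 2 - s)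
    ?_ ?_ (by linarith) ?_ ?_ ?_
  · intro ε hε
    exact (Function.HasTemperateGrowth.const Complex.I).mul
      (Function.Complex.hasTemperateGrowth_ofReal.comp
        ((WL2g_L j).hasTemperateGrowth.mul (AA_pow_growth ((s - 1) / 2) hε.1)))
  · intro ξ hξ
    have hn : 0 < ‖ξ‖ := norm_pos_iff.2 hξ
    have hb : (0 : ℝ) < 2 * Real.pi * ‖ξ‖ := by positivity
    have h1 : Tendsto (fun ε : ℝ => AA ε ξ) (𝓝[>] 0) (𝓝 ((2 * Real.pi * ‖ξ‖) ^ 2)) := by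
      have hc : Continuous (fun ε : ℝ => AA ε ξ) := by
        unfold AA
        fun_prop
      have h := (hc.tendsto 0).mono_left (nhdsWithin_le_nhds (s := Ioi (0 : ℝ)))
      have h00 : AA 0 ξ = (2 * Real.pi * ‖ξ‖) ^ 2 := by
        unfold AA
        ring
      rwa [h00] at h
    have h3 : ((2 * Real.pi * ‖ξ‖) ^ 2) ^ ((s - 1) / 2) = (2 * Real.pi * ‖ξ‖) ^ (s - 1) := by
      rw [← Real.rpow_natCast, ← Real.rpow_mul hb.le]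
      congr 1
      push_cast
      ring
    have h4 : Tendsto (fun ε : ℝ => AA ε ξ ^ ((s - 1) / 2)) (𝓝[>] 0)
        (𝓝 ((2 * Real.pi * ‖ξ‖) ^ (s - 1))) := by
      rw [← h3]
      exact h1.rpow_const (Or.inl (by positivity))
    have h5 : Tendsto (fun ε : ℝ => WL2g_L j ξ * AA ε ξ ^ ((s - 1) / 2)) (𝓝[>] 0)
        (𝓝 (2 * Real.pi * ξ j * (2 * Real.pi * ‖ξ‖) ^ (s - 1))) := by
      rw [← WL2g_L_apply]
      exact h4.const_mul _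
    have h6 := ((Complex.continuous_ofReal.tendsto _).comp h5).const_mul Complex.I
    refine h6.congr' (Filter.Eventually.of_forall fun ε => rfl) |>.trans (le_of_eq ?_)
    congr 1
    push_cast
    ring
  · intro ε hε ξ
    have hA := WL2g_A_pos hε.1 ξ
    rw [norm_mul, Complex.norm_I, one_mul, Complex.norm_real, norm_mul, Real.norm_eq_abs,
      Real.norm_eq_abs, abs_of_nonneg (Real.rpow_nonneg hA.le _)]
    have e1 : |WL2g_L j ξ| ≤ AA ε ξ ^ (1 / 2 : ℝ) := (WL2g_L_abs j ξ).trans (WL2g_lin_le ξ)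
    calc |WL2g_L j ξ| * AA ε ξ ^ ((s - 1) / 2) ≤
        AA ε ξ ^ (1 / 2 : ℝ) * AA ε ξ ^ ((s - 1) / 2) :=
          mul_le_mul_of_nonneg_right e1 (Real.rpow_nonneg hA.le _)
      _ = AA ε ξ ^ (s / 2) := by
          rw [← Real.rpow_add hA]
          congr 1
          ring
      _ ≤ 1 + AA ε ξ := WL2g_pow_le hA (by linarith) (by linarith)
      _ ≤ 41 * (1 + ‖ξ‖) ^ 2 := WL2g_A_le hε ξ
      _ ≤ K * 41 * (1 + ‖ξ‖) ^ 2 := mul_le_mul_of_nonneg_right (by linarith) (by positivity)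
  · intro ε hε ξ hξ
    have hn : 0 < ‖ξ‖ := norm_pos_iff.2 hξ
    have hA := WL2g_A_pos hε.1 ξ
    have hB := WL2g_A_le hε ξ
    have hsq : (0 : ℝ) < ‖ξ‖ ^ (-(1 / 2 : ℝ)) := Real.rpow_pos_of_pos hn _
    have hone : (1 : ℝ) ≤ 41 * (1 + ‖ξ‖) ^ 2 := by
      nlinarith
    have key : AA ε ξ ^ ((s - 1) / 2) ≤ 41 * (1 + ‖ξ‖) ^ 2 * (1 + ‖ξ‖ ^ (-(1 / 2 : ℝ))) := by
      rcases le_or_gt 0 ((s - 1) / 2) with hp | hp
      · have h3 := WL2g_pow_le hA hp (by linarith)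
        have h4 : 0 ≤ 41 * (1 + ‖ξ‖) ^ 2 * ‖ξ‖ ^ (-(1 / 2 : ℝ)) := by positivity
        linarith
      · have h3 := WL2g_neg (ε := ε) hp.le hξ
        have h4 : ‖ξ‖ ^ (2 * ((s - 1) / 2)) ≤ 1 + ‖ξ‖ ^ (-(1 / 2 : ℝ)) := by
          rcases le_total 1 ‖ξ‖ with h5 | h5
          · have := Real.rpow_le_one_of_one_le_of_nonpos h5 (by linarith : 2 * ((s - 1) / 2) ≤ 0)
            linarith
          · have := Real.rpow_le_rpow_of_exponent_ge hn h5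
              (by linarith : -(1 / 2 : ℝ) ≤ 2 * ((s - 1) / 2))
            linarith
        have h6 : (0 : ℝ) ≤ 1 + ‖ξ‖ ^ (-(1 / 2 : ℝ)) := by positivity
        calc AA ε ξ ^ ((s - 1) / 2) ≤ 1 * (1 + ‖ξ‖ ^ (-(1 / 2 : ℝ))) := by
              rw [one_mul]
              exact h3.trans h4
          _ ≤ _ := mul_le_mul_of_nonneg_right hone h6
    refine (WL2g_D1 _ j hC₁ hε.1 ξ).trans ?_
    calc (2 * Real.pi + C₁) * AA ε ξ ^ ((s - 1) / 2) ≤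
        K * (41 * (1 + ‖ξ‖) ^ 2 * (1 + ‖ξ‖ ^ (-(1 / 2 : ℝ)))) :=
          mul_le_mul hKa key (Real.rpow_nonneg hA.le _) (by linarith)
      _ = _ := by ring
  · intro ε hε ξ hξ
    have hn : 0 < ‖ξ‖ := norm_pos_iff.2 hξ
    have hA := WL2g_A_pos hε.1 ξ
    have hsq : (0 : ℝ) < ‖ξ‖ ^ (-(2 - s)) := Real.rpow_pos_of_pos hn _
    have hone : (1 : ℝ) ≤ 41 * (1 + ‖ξ‖) ^ 2 := by
      nlinarith
    have key : AA ε ξ ^ ((s - 1) / 2 - 1 / 2) ≤ ‖ξ‖ ^ (-(2 - s)) := by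
      have h3 := WL2g_neg (ε := ε) (q := (s - 1) / 2 - 1 / 2) (by linarith) hξ
      have h4 : 2 * ((s - 1) / 2 - 1 / 2) = -(2 - s) := by ring
      rwa [h4] at h3
    refine (WL2g_D2 _ j hC₁ hC₂ hε.1 ξ).trans ?_
    have h5 : ‖ξ‖ ^ (-(2 - s)) ≤ 41 * (1 + ‖ξ‖) ^ 2 * (1 + ‖ξ‖ ^ (-(2 - s))) := by
      have h6 : (0 : ℝ) ≤ 1 + ‖ξ‖ ^ (-(2 - s)) := by positivity
      have h7 := mul_le_mul_of_nonneg_right hone h6
      linarith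
    calc (C₂ + 4 * Real.pi * C₁) * AA ε ξ ^ ((s - 1) / 2 - 1 / 2) ≤
        K * (41 * (1 + ‖ξ‖) ^ 2 * (1 + ‖ξ‖ ^ (-(2 - s)))) :=
          mul_le_mul hKb (key.trans h5) (Real.rpow_nonneg hA.le _) (by linarith)
      _ = _ := by ring

end FracScat

end
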