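import Pool.Agent.Lib.MP_6e2ba5_an.WL2
import Pool.Agent.Lib.MP_6e2ba5_an.WL2g
import Pool.Agent.Lib.MP_6e2ba5_an.BStarApi

/-! # Elementary consequences of the weighted bound

`WL.integrable`: Cauchy-Schwarz with `(1+|x|²)⁻¹ ∈ L²(ℝ³)`. `BStar_weight`: shells
`2^j ≤ |x| < 2^(j+1)`: `∫_shell |v|² (1+|x|²)^(-2) ≤ C 2^(j+1) 16^(-j)`, summable; or the layer
formula `(1+|x|²)^(-2) = ∫_{|x|}^∞ 4R(1+R²)^(-3) dR` and Fubini. `BStar_mul_WL`: product of the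
two `L²` functions `(1+|x|²)⁻¹ v` and `(1+|x|²) ψ`. -/

set_option autoImplicit false

open MeasureTheory Filter Topology Set
open scoped FourierTransform SchwartzMap InnerProductSpace ENNReal ContDiff

noncomputable section

namespace FracScat

private theorem WL2b_contI : Continuous (fun x : E3 => (((1 + ‖x‖ ^ 2 : ℝ)⁻¹ : ℝ) : ℂ)) := by
  refine Complex.continuous_ofReal.comp (Continuous.inv₀ (by fun_prop) fun x => ?_)
  positivity

private theorem WL2b_cancel (x : E3) (z : ℂ) :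
    (((1 + ‖x‖ ^ 2 : ℝ)⁻¹ : ℝ) : ℂ) * ((((1 + ‖x‖ ^ 2 : ℝ)) : ℂ) * z) = z := by
  have h : (0 : ℝ) < 1 + ‖x‖ ^ 2 := by positivity
  have h1 : (((1 + ‖x‖ ^ 2 : ℝ)) : ℂ) ≠ 0 := by exact_mod_cast h.ne'
  rw [Complex.ofReal_inv, ← mul_assoc, inv_mul_cancel₀ h1, one_mul]

private theorem WL2b_mem : MemLp (fun x : E3 => (((1 + ‖x‖ ^ 2 : ℝ)⁻¹ : ℝ) : ℂ)) 2 volume := by
  rw [memLp_two_iff_integrable_sq_norm WL2b_contI.aestronglyMeasurable]
  have hdim : Module.finrank ℝ E3 = 3 := by simp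
  have h := integrable_rpow_neg_one_add_norm_sq (E := E3) (μ := volume) (r := 4)
    (by rw [hdim]; norm_num)
  refine h.congr (Eventually.of_forall fun x => ?_)
  have h0 : (0 : ℝ) < 1 + ‖x‖ ^ 2 := by positivity
  show (1 + ‖x‖ ^ 2) ^ (-(4 : ℝ) / 2) = ‖(((1 + ‖x‖ ^ 2 : ℝ)⁻¹ : ℝ) : ℂ)‖ ^ 2
  rw [Complex.norm_real, Real.norm_of_nonneg (by positivity),
    show (-(4 : ℝ) / 2) = -((2 : ℕ) : ℝ) by norm_num, Real.rpow_neg h0.le, Real.rpow_natCast, inv_pow]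

theorem WL.memLp {ψ : E3 → ℂ} (h : WL ψ) : MemLp ψ 2 volume := by
  have h1 : ψ = fun x => (((1 + ‖x‖ ^ 2 : ℝ)⁻¹ : ℝ) : ℂ) * ((((1 + ‖x‖ ^ 2 : ℝ)) : ℂ) * ψ x) := by
    funext x
    rw [WL2b_cancel]
  have hm : AEStronglyMeasurable ψ volume := by
    rw [h1]
    exact WL2b_contI.aestronglyMeasurable.mul h.1
  refine MemLp.mono h hm (Eventually.of_forall fun x => ?_)
  rw [norm_mul, Complex.norm_real, Real.norm_of_nonneg (by positivity)]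
  have : 0 ≤ ‖x‖ ^ 2 * ‖ψ x‖ := by positivity
  linarith

theorem WL.integrable {ψ : E3 → ℂ} (h : WL ψ) : Integrable ψ := by
  have h1 : Integrable (fun x => (((1 + ‖x‖ ^ 2 : ℝ)⁻¹ : ℝ) : ℂ) * ((((1 + ‖x‖ ^ 2 : ℝ)) : ℂ) * ψ x)) :=
    MemLp.integrable_mul WL2b_mem h
  refine h1.congr (Eventually.of_forall fun x => ?_)
  exact WL2b_cancel x (ψ x)

theorem schwartz_WL (φ : 𝓢(E3, ℂ)) : WL (φ : E3 → ℂ) := by
  set C : ℝ := 2 ^ 4 * (Finset.Iic ((4, 0) : ℕ × ℕ)).sup (fun m => SchwartzMap.seminorm ℝ m.1 m.2) φ with hC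
  have hb : ∀ x, (1 + ‖x‖) ^ 4 * ‖φ x‖ ≤ C := by
    intro x
    have h := SchwartzMap.one_add_le_sup_seminorm_apply (𝕜 := ℝ) (m := (4, 0)) (k := 4) (n := 0) le_rfl le_rfl φ x
    simpa using h
  have hC0 : 0 ≤ C := le_trans (by positivity) (hb 0)
  have hm : AEStronglyMeasurable (fun x : E3 => (((1 + ‖x‖ ^ 2 : ℝ)) : ℂ) * φ x) volume := by
    refine Continuous.aestronglyMeasurable (Continuous.mul ?_ φ.continuous)
    exact Complex.continuous_ofReal.comp (by fun_prop)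
  refine MemLp.mono (WL2b_mem.const_mul (C : ℂ)) hm (Eventually.of_forall fun x => ?_)
  have h0 : (0 : ℝ) < 1 + ‖x‖ ^ 2 := by positivity
  rw [norm_mul, norm_mul, Complex.norm_real, Complex.norm_real, Complex.norm_real, Real.norm_of_nonneg h0.le,
    Real.norm_of_nonneg hC0, Real.norm_of_nonneg (by positivity), ← div_eq_mul_inv, le_div_iff₀ h0]
  have h1 : (1 + ‖x‖ ^ 2) * (1 + ‖x‖ ^ 2) ≤ (1 + ‖x‖) ^ 4 := by
    have hx := norm_nonneg x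
    nlinarith [mul_nonneg hx hx, mul_nonneg (mul_nonneg hx hx) hx, mul_nonneg (mul_nonneg (mul_nonneg hx hx) hx) hx]
  calc (1 + ‖x‖ ^ 2) * ‖φ x‖ * (1 + ‖x‖ ^ 2) = (1 + ‖x‖ ^ 2) * (1 + ‖x‖ ^ 2) * ‖φ x‖ := by ring
    _ ≤ (1 + ‖x‖) ^ 4 * ‖φ x‖ := mul_le_mul_of_nonneg_right h1 (norm_nonneg _)
    _ ≤ C := hb x

theorem BStar_weight {v : E3 → ℂ} (hv : BStar v) :
    MemLp (fun x => (((1 + ‖x‖ ^ 2 : ℝ)⁻¹ : ℝ) : ℂ) * v x) 2 volume := by
  obtain ⟨hm, C, hC⟩ := hv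
  have hC0 : 0 ≤ C := by
    obtain ⟨-, h⟩ := hC 1 le_rfl
    have h2 : 0 ≤ ∫ x in Metric.ball (0 : E3) 1, ‖v x‖ ^ 2 := integral_nonneg fun x => by positivity
    linarith
  have hm' : AEStronglyMeasurable (fun x => (((1 + ‖x‖ ^ 2 : ℝ)⁻¹ : ℝ) : ℂ) * v x) volume :=
    WL2b_contI.aestronglyMeasurable.mul hm
  rw [memLp_two_iff_integrable_sq_norm hm']
  refine ⟨(hm'.norm.pow 2), ?_⟩
  rw [hasFiniteIntegral_iff_ofReal (Eventually.of_forall fun x => by positivity)]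
  -- the dominating sum
  set F : ℕ → E3 → ℝ≥0∞ := fun j => (Metric.ball (0 : E3) (2 ^ j)).indicator
    (fun x => ENNReal.ofReal (16 * (1 / 16) ^ j) * ENNReal.ofReal (‖v x‖ ^ 2)) with hF
  have hpt : ∀ x : E3, ENNReal.ofReal (‖(((1 + ‖x‖ ^ 2 : ℝ)⁻¹ : ℝ) : ℂ) * v x‖ ^ 2) ≤ ∑' j, F j x := by
    intro x
    have h0 : (0 : ℝ) < 1 + ‖x‖ ^ 2 := by positivity
    obtain ⟨j, hj, hj2⟩ : ∃ j : ℕ, ‖x‖ < 2 ^ j ∧ ((1 + ‖x‖ ^ 2)⁻¹) ^ 2 ≤ 16 * (1 / 16) ^ j := by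
      rcases lt_or_ge ‖x‖ 1 with hx | hx
      · refine ⟨0, by simpa using hx, ?_⟩
        have h1 : (1 + ‖x‖ ^ 2)⁻¹ ≤ 1 := inv_le_one_of_one_le₀ (by nlinarith [sq_nonneg ‖x‖])
        have h2 : ((1 + ‖x‖ ^ 2)⁻¹) ^ 2 ≤ 1 := pow_le_one₀ (by positivity) h1
        simp only [pow_zero, mul_one]
        linarith
      · obtain ⟨i, hi, hi2⟩ := exists_nat_pow_near hx (one_lt_two : (1 : ℝ) < 2)
        refine ⟨i + 1, hi2, ?_⟩
        have h1 : (2 ^ i) ^ 2 ≤ 1 + ‖x‖ ^ 2 := by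
          have := pow_le_pow_left₀ (by positivity) hi 2
          linarith
        have h2 : (1 + ‖x‖ ^ 2)⁻¹ ≤ ((2 ^ i) ^ 2)⁻¹ := inv_anti₀ (by positivity) h1
        have h3 : ((1 + ‖x‖ ^ 2)⁻¹) ^ 2 ≤ (((2 ^ i) ^ 2)⁻¹) ^ 2 := pow_le_pow_left₀ (by positivity) h2 2
        refine h3.trans (le_of_eq ?_)
        have h4 : (((2 ^ i) ^ 2)⁻¹ : ℝ) ^ 2 = (1 / 16) ^ i := by
          rw [inv_pow, ← pow_mul, ← pow_mul, show i * (2 * 2) = 4 * i by ring, pow_mul, ← inv_pow]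
          norm_num
        rw [h4, pow_succ]
        ring
    refine le_trans ?_ (ENNReal.le_tsum j)
    show _ ≤ (Metric.ball (0 : E3) (2 ^ j)).indicator
      (fun x => ENNReal.ofReal (16 * (1 / 16) ^ j) * ENNReal.ofReal (‖v x‖ ^ 2)) x
    rw [indicator_of_mem (by rwa [mem_ball_zero_iff]), ← ENNReal.ofReal_mul (by positivity)]
    refine ENNReal.ofReal_le_ofReal ?_
    rw [norm_mul, mul_pow, Complex.norm_real, Real.norm_of_nonneg (by positivity)]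
    exact mul_le_mul_of_nonneg_right hj2 (by positivity)
  refine lt_of_le_of_lt (lintegral_mono hpt) ?_
  rw [lintegral_tsum]
  · have hterm : ∀ j, ∫⁻ x, F j x ≤ ENNReal.ofReal (16 * C * (1 / 8) ^ j) := by
      intro j
      have hR : (1 : ℝ) ≤ 2 ^ j := one_le_pow₀ (by norm_num)
      obtain ⟨hi, hb⟩ := hC (2 ^ j) hR
      have e1 : ∫⁻ x, F j x = ENNReal.ofReal (16 * (1 / 16) ^ j) *
          ∫⁻ x in Metric.ball (0 : E3) (2 ^ j), ENNReal.ofReal (‖v x‖ ^ 2) := by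
        rw [← lintegral_const_mul' _ _ ENNReal.ofReal_ne_top, ← lintegral_indicator Metric.isOpen_ball.measurableSet]
      rw [e1, ← ofReal_integral_eq_lintegral_ofReal hi (Eventually.of_forall fun x => by positivity),
        ← ENNReal.ofReal_mul (by positivity)]
      refine ENNReal.ofReal_le_ofReal ?_
      calc 16 * (1 / 16) ^ j * ∫ x in Metric.ball (0 : E3) (2 ^ j), ‖v x‖ ^ 2
          ≤ 16 * (1 / 16) ^ j * (C * 2 ^ j) := mul_le_mul_of_nonneg_left hb (by positivity)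
        _ = 16 * C * ((1 / 16) ^ j * 2 ^ j) := by ring
        _ = 16 * C * (1 / 8) ^ j := by
            rw [← mul_pow]
            norm_num
    refine lt_of_le_of_lt (ENNReal.tsum_le_tsum hterm) ?_
    refine Summable.tsum_ofReal_lt_top (Summable.mul_left _ ?_)
    exact summable_geometric_of_lt_one (by norm_num) (by norm_num)
  · intro j
    refine AEMeasurable.indicator ?_ Metric.isOpen_ball.measurableSet
    exact ((hm.norm.pow 2).aemeasurable.ennreal_ofReal).const_mul _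

theorem BStar_mul_WL {v ψ : E3 → ℂ} (hv : BStar v) (hψ : WL ψ) :
    Integrable (fun x => v x * ψ x) := by
  have h1 : Integrable (fun x => ((((1 + ‖x‖ ^ 2 : ℝ)⁻¹ : ℝ) : ℂ) * v x) *
      ((((1 + ‖x‖ ^ 2 : ℝ)) : ℂ) * ψ x)) :=
    MemLp.integrable_mul (BStar_weight hv) hψ
  refine h1.congr (Eventually.of_forall fun x => ?_)
  show ((((1 + ‖x‖ ^ 2 : ℝ)⁻¹ : ℝ) : ℂ) * v x) * ((((1 + ‖x‖ ^ 2 : ℝ)) : ℂ) * ψ x) = v x * ψ x
  rw [mul_right_comm, WL2b_cancel, mul_comm]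

end FracScat

end
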