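import Pool.Agent.Lib.MP_6e2ba5_an.FTfacts

/-! # A weighted `L²` bound for Fourier multipliers of Schwartz functions

Let `m ε` (`0 < ε ≤ 1`) be smooth functions of temperate growth with `m ε → m0` pointwise off the
origin, with the bounds below, uniform in `ε`. Then `G ε = m ε 𝓕 φ` and `ψ ε = 𝓕⁻¹ (G ε)` are
Schwartz functions and `-4π²‖x‖² ψ ε = 𝓕⁻¹ (Δ G ε)`
(`SchwartzMap.laplacian_eq_fourierMultiplierCLM` read on the other side, or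
`Real.fourierIntegral_...` derivative formulas). `‖Δ G ε‖₂ ≤ C'` uniformly: `|Δ G ε| ≤
3 (|D² m| |𝓕φ| + 2 |D m| |D 𝓕φ| + |m| |D² 𝓕φ|)`, `𝓕 φ` is Schwartz and `‖ξ‖^(-β)`, `‖ξ‖^(-1/2)` are
square integrable near `0` since `2β < 3`. By Plancherel `‖‖x‖² ψ ε‖₂ ≤ C''`; `ψ ε → 𝓕⁻ (m0 𝓕 φ)`
pointwise (dominated convergence) and Fatou (`MeasureTheory.lintegral_liminf_le`) gives
`‖x‖² 𝓕⁻ (m0 𝓕 φ) ∈ L²`; in the same way `𝓕⁻ (m0 𝓕 φ) ∈ L²`. -/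

set_option autoImplicit false

open MeasureTheory Filter Topology Set
open scoped FourierTransform SchwartzMap InnerProductSpace ENNReal ContDiff

noncomputable section

namespace FracScat

/-- `(1+|x|²) ψ ∈ L²`. -/
def WL (ψ : E3 → ℂ) : Prop := MemLp (fun x => (((1 + ‖x‖ ^ 2 : ℝ)) : ℂ) * ψ x) 2 volume

/-- The dominating function. -/
private def wlB (γ : ℝ) (r : ℝ) : ℝ := ((1 + r) ^ 4)⁻¹ * (1 + r ^ (-γ))

private lemma wlB_memLp {γ : ℝ} (h0 : 0 ≤ γ) (hγ : γ < 3 / 2) :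
    MemLp (fun ξ : E3 => wlB γ ‖ξ‖) 2 volume := by
  have hmeas : Measurable (wlB γ) := by
    unfold wlB
    fun_prop
  have hmeas' : Measurable (fun ξ : E3 => wlB γ ‖ξ‖) := hmeas.comp measurable_norm
  rw [memLp_two_iff_integrable_sq hmeas'.aestronglyMeasurable]
  have h := integrable_fun_norm_addHaar (volume : Measure E3) (f := fun r => wlB γ r ^ 2)
  rw [h]
  have hdim : Module.finrank ℝ E3 = 3 := by simp
  rw [hdim]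
  rw [← Ioc_union_Ioi_eq_Ioi (zero_le_one' ℝ)]
  have hm2 : Measurable (fun y : ℝ => y ^ (3 - 1) • wlB γ y ^ 2) := by
    fun_prop
  apply IntegrableOn.union
  · have hi : IntegrableOn (fun y : ℝ => 4 * y ^ (2 - 2 * γ)) (Ioc 0 1) := by
      apply Integrable.const_mul
      have := (intervalIntegral.intervalIntegrable_rpow' (a := 0) (b := 1)
        (r := 2 - 2 * γ) (by linarith))
      rwa [intervalIntegrable_iff_integrableOn_Ioc_of_le zero_le_one] at this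
    refine Integrable.mono' hi hm2.aestronglyMeasurable ?_
    refine (ae_restrict_iff' measurableSet_Ioc).mpr (Eventually.of_forall fun y hy => ?_)
    have hy0 : 0 < y := hy.1
    have hy1 : y ≤ 1 := hy.2
    have hp : (1 : ℝ) ≤ y ^ (-γ) := by
      apply Real.one_le_rpow_of_pos_of_le_one_of_nonpos hy0 hy1
      linarith
    have h1 : ((1 + y) ^ 4)⁻¹ ≤ 1 := by
      apply inv_le_one_of_one_le₀
      exact one_le_pow₀ (by linarith)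
    have h1' : 0 ≤ ((1 + y) ^ 4)⁻¹ := by positivity
    have h2 : wlB γ y ≤ 2 * y ^ (-γ) := by
      unfold wlB
      nlinarith
    have h3 : 0 ≤ wlB γ y := by
      unfold wlB
      positivity
    rw [Real.norm_of_nonneg (by positivity), smul_eq_mul]
    have h4 : y ^ (2 - 2 * γ) = y ^ 2 * (y ^ (-γ) * y ^ (-γ)) := by
      rw [← Real.rpow_add hy0, ← Real.rpow_natCast, ← Real.rpow_add hy0]
      congr 1
      push_cast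
      ring
    rw [h4]
    have h5 : wlB γ y ^ 2 ≤ (2 * y ^ (-γ)) ^ 2 := pow_le_pow_left₀ h3 h2 2
    have h6 : 0 ≤ y ^ 2 := by positivity
    calc y ^ (3 - 1) * wlB γ y ^ 2 ≤ y ^ 2 * (2 * y ^ (-γ)) ^ 2 :=
          mul_le_mul_of_nonneg_left h5 h6
      _ = 4 * (y ^ 2 * (y ^ (-γ) * y ^ (-γ))) := by ring
  · have hi : IntegrableOn (fun y : ℝ => 4 * y ^ (-6 : ℝ)) (Ioi 1) := by
      apply Integrable.const_mul
      exact integrableOn_Ioi_rpow_of_lt (by norm_num) zero_lt_one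
    refine Integrable.mono' hi hm2.aestronglyMeasurable ?_
    refine (ae_restrict_iff' measurableSet_Ioi).mpr (Eventually.of_forall fun y hy => ?_)
    have hy1 : 1 < y := hy
    have hy0 : 0 < y := by linarith
    have hp : y ^ (-γ) ≤ 1 := by
      apply Real.rpow_le_one_of_one_le_of_nonpos hy1.le
      linarith
    have hp' : 0 ≤ y ^ (-γ) := by positivity
    have h1 : ((1 + y) ^ 4)⁻¹ ≤ (y ^ 4)⁻¹ := by
      apply inv_anti₀ (by positivity)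
      exact pow_le_pow_left₀ hy0.le (by linarith) 4
    have h1' : 0 ≤ ((1 + y) ^ 4)⁻¹ := by positivity
    have h2 : wlB γ y ≤ (y ^ 4)⁻¹ * 2 := by
      unfold wlB
      apply mul_le_mul h1 (by linarith) (by positivity) (by positivity)
    have h3 : 0 ≤ wlB γ y := by
      unfold wlB
      positivity
    rw [Real.norm_of_nonneg (by positivity), smul_eq_mul]
    have h5 : wlB γ y ^ 2 ≤ ((y ^ 4)⁻¹ * 2) ^ 2 := pow_le_pow_left₀ h3 h2 2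
    have h6 : 0 ≤ y ^ 2 := by positivity
    have h4 : y ^ (-6 : ℝ) = (y ^ 6)⁻¹ := by
      rw [Real.rpow_neg hy0.le]
      congr 1
      exact_mod_cast Real.rpow_natCast y 6
    rw [h4]
    calc y ^ (3 - 1) * wlB γ y ^ 2 ≤ y ^ 2 * ((y ^ 4)⁻¹ * 2) ^ 2 :=
          mul_le_mul_of_nonneg_left h5 h6
      _ = 4 * (y ^ 6)⁻¹ := by
          field_simp
          ring

open Laplacian in
private lemma wlgen_lap (G : 𝓢(E3, ℂ)) (x : E3) :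
    (𝓕⁻ (Δ G) : 𝓢(E3, ℂ)) x =
      -(((4 * Real.pi ^ 2 * ‖x‖ ^ 2 : ℝ) : ℂ) * (𝓕⁻ G : 𝓢(E3, ℂ)) x) := by
  have hn : (fun x : E3 => ‖x‖ ^ 2).HasTemperateGrowth := by fun_prop
  have h1 : (𝓕 (Δ G) : 𝓢(E3, ℂ)) =
      -(2 * Real.pi) ^ 2 • SchwartzMap.smulLeftCLM ℂ (fun x : E3 => ‖x‖ ^ 2) (𝓕 G) := by
    rw [SchwartzMap.laplacian_eq_fourierMultiplierCLM, FourierTransform.fourier_smul,
      SchwartzMap.fourierMultiplierCLM_apply, FourierTransform.fourier_fourierInv_eq]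
  have h2 : (𝓕⁻ (Δ G) : 𝓢(E3, ℂ)) x = (𝓕 (Δ G) : 𝓢(E3, ℂ)) (-x) := by
    rw [SchwartzMap.fourierInv_coe, SchwartzMap.fourier_coe, Real.fourierInv_eq_fourier_neg]
  have h3 : (𝓕⁻ G : 𝓢(E3, ℂ)) x = (𝓕 G : 𝓢(E3, ℂ)) (-x) := by
    rw [SchwartzMap.fourierInv_coe, SchwartzMap.fourier_coe, Real.fourierInv_eq_fourier_neg]
  rw [h2, h3, h1]
  simp only [_root_.smul_apply, SchwartzMap.smulLeftCLM_apply_apply hn, norm_neg,
    Complex.real_smul]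
  push_cast
  ring

open Laplacian in
private lemma wlgen_lap_le (G : 𝓢(E3, ℂ)) (ξ : E3) :
    ‖(Δ G : 𝓢(E3, ℂ)) ξ‖ ≤ 3 * ‖iteratedFDeriv ℝ 2 G ξ‖ := by
  rw [SchwartzMap.laplacian_apply,
    InnerProductSpace.laplacian_eq_iteratedFDeriv_orthonormalBasis G
      (EuclideanSpace.basisFun (Fin 3) ℝ)]
  refine (norm_sum_le _ _).trans ?_
  have : ∀ i ∈ (Finset.univ : Finset (Fin 3)),
      ‖iteratedFDeriv ℝ 2 G ξ ![(EuclideanSpace.basisFun (Fin 3) ℝ) i,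
        (EuclideanSpace.basisFun (Fin 3) ℝ) i]‖ ≤ ‖iteratedFDeriv ℝ 2 G ξ‖ := by
    intro i _
    refine (ContinuousMultilinearMap.le_opNorm _ _).trans ?_
    simp
  refine (Finset.sum_le_sum this).trans ?_
  simp

private lemma wlgen_schw (f : 𝓢(E3, ℂ)) (k : ℕ) : ∃ S : ℝ, 0 ≤ S ∧ ∀ j ≤ 2, ∀ ξ : E3,
    ‖iteratedFDeriv ℝ j f ξ‖ ≤ S * ((1 + ‖ξ‖) ^ k)⁻¹ := by
  refine ⟨2 ^ k * (Finset.Iic (k, 2)).sup (fun m => SchwartzMap.seminorm ℝ m.1 m.2) f,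
    by positivity, fun j hj ξ => ?_⟩
  have h := SchwartzMap.one_add_le_sup_seminorm_apply (𝕜 := ℝ) (m := (k, 2)) (k := k) (n := j)
    le_rfl hj f ξ
  rw [← div_eq_mul_inv, le_div_iff₀ (by positivity), mul_comm]
  exact h

open Laplacian in
private lemma wlgen_bound (f : 𝓢(E3, ℂ)) (N : ℕ) {C β : ℝ} : ∃ K : ℝ, 0 ≤ K ∧
    ∀ (μ : E3 → ℂ), Function.HasTemperateGrowth μ → (∀ ξ, ‖μ ξ‖ ≤ C * (1 + ‖ξ‖) ^ N) →
    (∀ ξ, ξ ≠ 0 → ‖fderiv ℝ μ ξ‖ ≤ C * (1 + ‖ξ‖) ^ N * (1 + ‖ξ‖ ^ (-(1 / 2 : ℝ)))) →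
    (∀ ξ, ξ ≠ 0 → ‖iteratedFDeriv ℝ 2 μ ξ‖ ≤ C * (1 + ‖ξ‖) ^ N * (1 + ‖ξ‖ ^ (-β))) →
    ∀ ξ, ξ ≠ 0 → ‖μ ξ * f ξ‖ + ‖(Δ (SchwartzMap.smulLeftCLM ℂ μ f) : 𝓢(E3, ℂ)) ξ‖ ≤
      K * wlB (max β (1 / 2)) ‖ξ‖ := by
  obtain ⟨M, hM⟩ := exists_nat_ge (-β)
  obtain ⟨S, hS0, hS⟩ := wlgen_schw f (N + M + 4)
  refine ⟨22 * (|C| * S), by positivity, fun μ hμ h0 h1 h2 ξ hξ => ?_⟩
  have hC : 0 ≤ C := by
    have := (norm_nonneg _).trans (h0 0)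
    simpa using this
  rw [abs_of_nonneg hC]
  have hr : 0 < ‖ξ‖ := norm_pos_iff.mpr hξ
  set r := ‖ξ‖ with hrdef
  set γ := max β (1 / 2) with hγdef
  have hγ1 : β ≤ γ := le_max_left _ _
  have hγ2 : 1 / 2 ≤ γ := le_max_right _ _
  set p := r ^ (-γ) with hpdef
  have hp : 0 ≤ p := by positivity
  have ha : 1 ≤ 1 + r := by linarith
  have haM : 1 ≤ (1 + r) ^ M := one_le_pow₀ ha
  have e1 : r ^ (-(1 / 2 : ℝ)) ≤ 1 + p := by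
    rcases le_or_gt r 1 with h | h
    · have : r ^ (-(1 / 2 : ℝ)) ≤ r ^ (-γ) :=
        Real.rpow_le_rpow_of_exponent_ge hr h (by linarith)
      linarith
    · have : r ^ (-(1 / 2 : ℝ)) ≤ 1 := Real.rpow_le_one_of_one_le_of_nonpos h.le (by norm_num)
      linarith
  have e2 : r ^ (-β) ≤ (1 + r) ^ M * (1 + p) := by
    rcases le_or_gt r 1 with h | h
    · have : r ^ (-β) ≤ r ^ (-γ) :=
        Real.rpow_le_rpow_of_exponent_ge hr h (by linarith)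
      nlinarith
    · have h3 : r ^ (-β) ≤ r ^ (M : ℝ) := Real.rpow_le_rpow_of_exponent_le h.le hM
      rw [Real.rpow_natCast] at h3
      have h4 : r ^ M ≤ (1 + r) ^ M := pow_le_pow_left₀ hr.le (by linarith) M
      nlinarith
  have hd0 := hS 0 (by norm_num) ξ
  have hd1 := hS 1 (by norm_num) ξ
  have hd2 := hS 2 (by norm_num) ξ
  rw [norm_iteratedFDeriv_zero] at hd0
  rw [← hrdef] at hd0 hd1 hd2
  set A := (1 + r) ^ N with hA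
  set B := (1 + r) ^ M with hB
  set D := ((1 + r) ^ 4)⁻¹ with hD
  have hA0 : 0 < A := by positivity
  have hB0 : 0 < B := by positivity
  have hD0 : 0 < D := by positivity
  have hk : ((1 + r) ^ (N + M + 4))⁻¹ = A⁻¹ * B⁻¹ * D := by
    rw [pow_add, pow_add, mul_inv, mul_inv]
  rw [hk] at hd0 hd1 hd2
  have hG : ‖iteratedFDeriv ℝ 2 (SchwartzMap.smulLeftCLM ℂ μ f) ξ‖ ≤
      ‖μ ξ‖ * ‖iteratedFDeriv ℝ 2 f ξ‖ + 2 * ‖fderiv ℝ μ ξ‖ * ‖iteratedFDeriv ℝ 1 f ξ‖ +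
        ‖iteratedFDeriv ℝ 2 μ ξ‖ * ‖f ξ‖ := by
    have hcoe : (SchwartzMap.smulLeftCLM ℂ μ f : E3 → ℂ) = fun y => μ y * f y := by
      ext y
      rw [SchwartzMap.smulLeftCLM_apply_apply hμ, smul_eq_mul]
    rw [hcoe]
    have h := norm_iteratedFDeriv_mul_le (𝕜 := ℝ) (N := 2) (f := μ) (g := (f : E3 → ℂ))
      (contDiff_infty.mp hμ.1 2) (f.smooth 2) ξ (n := 2) le_rfl
    refine h.trans (le_of_eq ?_)
    simp [Finset.sum_range_succ, norm_iteratedFDeriv_one]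
  have hlap := wlgen_lap_le (SchwartzMap.smulLeftCLM ℂ μ f) ξ
  have hm0 := h0 ξ
  have hm1 := h1 ξ hξ
  have hm2 := h2 ξ hξ
  rw [← hrdef] at hm0 hm1 hm2
  have t0 : ‖μ ξ‖ * ‖f ξ‖ ≤ (C * A) * (S * (A⁻¹ * B⁻¹ * D)) :=
    mul_le_mul hm0 hd0 (norm_nonneg _) (by positivity)
  have t1 : ‖μ ξ‖ * ‖iteratedFDeriv ℝ 2 f ξ‖ ≤ (C * A) * (S * (A⁻¹ * B⁻¹ * D)) :=
    mul_le_mul hm0 hd2 (norm_nonneg _) (by positivity)
  have t2 : ‖fderiv ℝ μ ξ‖ * ‖iteratedFDeriv ℝ 1 f ξ‖ ≤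
      (C * A * (1 + r ^ (-(1 / 2 : ℝ)))) * (S * (A⁻¹ * B⁻¹ * D)) :=
    mul_le_mul hm1 hd1 (norm_nonneg _) (by positivity)
  have t3 : ‖iteratedFDeriv ℝ 2 μ ξ‖ * ‖f ξ‖ ≤
      (C * A * (1 + r ^ (-β))) * (S * (A⁻¹ * B⁻¹ * D)) :=
    mul_le_mul hm2 hd0 (norm_nonneg _) (by positivity)
  have hBi : B⁻¹ ≤ 1 := inv_le_one_of_one_le₀ haM
  have hBi0 : 0 < B⁻¹ := by positivity
  set X := C * S * D with hX
  have hX0 : 0 ≤ X := by positivity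
  have s0 : (C * A) * (S * (A⁻¹ * B⁻¹ * D)) ≤ X * (1 + p) := by
    have : (C * A) * (S * (A⁻¹ * B⁻¹ * D)) = X * B⁻¹ := by
      rw [hX]
      field_simp
    rw [this]
    apply mul_le_mul_of_nonneg_left _ hX0
    linarith
  have s2 : (C * A * (1 + r ^ (-(1 / 2 : ℝ)))) * (S * (A⁻¹ * B⁻¹ * D)) ≤ X * (2 * (1 + p)) := by
    have : (C * A * (1 + r ^ (-(1 / 2 : ℝ)))) * (S * (A⁻¹ * B⁻¹ * D)) =
        X * ((1 + r ^ (-(1 / 2 : ℝ))) * B⁻¹) := by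
      rw [hX]
      field_simp
    rw [this]
    apply mul_le_mul_of_nonneg_left _ hX0
    have h5 : 0 ≤ 1 + r ^ (-(1 / 2 : ℝ)) := by positivity
    nlinarith
  have s3 : (C * A * (1 + r ^ (-β))) * (S * (A⁻¹ * B⁻¹ * D)) ≤ X * (2 * (1 + p)) := by
    have : (C * A * (1 + r ^ (-β))) * (S * (A⁻¹ * B⁻¹ * D)) =
        X * (B⁻¹ + r ^ (-β) * B⁻¹) := by
      rw [hX]
      field_simp
    rw [this]
    apply mul_le_mul_of_nonneg_left _ hX0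
    have h6 : r ^ (-β) * B⁻¹ ≤ 1 + p := by
      rw [← div_eq_mul_inv, div_le_iff₀ hB0]
      linarith
    linarith
  have hfin : wlB γ r = D * (1 + p) := rfl
  rw [norm_mul, hfin]
  have : 22 * (C * S) * (D * (1 + p)) = 22 * (X * (1 + p)) := by
    rw [hX]
    ring
  rw [this]
  have hXp : 0 ≤ X * (1 + p) := by positivity
  linarith

private lemma wlgen_lim (f : 𝓢(E3, ℂ)) {m : ℝ → E3 → ℂ} {m0 : E3 → ℂ}
    (hg : ∀ ε ∈ Ioc (0 : ℝ) 1, Function.HasTemperateGrowth (m ε))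
    (hl : ∀ ξ : E3, ξ ≠ 0 → Tendsto (fun ε => m ε ξ) (𝓝[>] 0) (𝓝 (m0 ξ)))
    {N : ℕ} {C : ℝ} (h0 : ∀ ε ∈ Ioc (0 : ℝ) 1, ∀ ξ, ‖m ε ξ‖ ≤ C * (1 + ‖ξ‖) ^ N) (x : E3) :
    Tendsto (fun ε => (𝓕⁻ (SchwartzMap.smulLeftCLM ℂ (m ε) f) : 𝓢(E3, ℂ)) x) (𝓝[>] 0)
      (𝓝 (𝓕⁻ (fun ξ : E3 => m0 ξ * f ξ) x)) := by
  have hev : ∀ᶠ ε in 𝓝[>] (0 : ℝ), ε ∈ Ioc (0 : ℝ) 1 := Ioc_mem_nhdsGT zero_lt_one
  rw [Real.fourierInv_eq]
  have hfun : ∀ ε, (𝓕⁻ (SchwartzMap.smulLeftCLM ℂ (m ε) f) : 𝓢(E3, ℂ)) x =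
      ∫ v, Real.fourierChar ⟪v, x⟫_ℝ • (SchwartzMap.smulLeftCLM ℂ (m ε) f) v := by
    intro ε
    rw [SchwartzMap.fourierInv_coe, Real.fourierInv_eq]
  simp_rw [hfun]
  obtain ⟨S, hS0, hS⟩ := wlgen_schw f (N + 4)
  have hC : 0 ≤ C := by
    have := (norm_nonneg _).trans (h0 1 ⟨zero_lt_one, le_rfl⟩ 0)
    simpa using this
  refine tendsto_integral_filter_of_dominated_convergence
    (fun ξ : E3 => C * S * (1 + ‖ξ‖) ^ (-(4 : ℝ))) ?_ ?_ ?_ ?_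
  · refine Eventually.of_forall fun ε => ?_
    have hc : Continuous fun v : E3 => Real.fourierChar ⟪v, x⟫_ℝ •
        (SchwartzMap.smulLeftCLM ℂ (m ε) f) v := by
      have h1 : Continuous fun v : E3 => Real.fourierChar ⟪v, x⟫_ℝ :=
        Real.continuous_fourierChar.comp (by fun_prop)
      exact h1.smul (SchwartzMap.smulLeftCLM ℂ (m ε) f).continuous
    exact hc.aestronglyMeasurable
  · filter_upwards [hev] with ε hε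
    refine Eventually.of_forall fun ξ => ?_
    rw [Circle.norm_smul, SchwartzMap.smulLeftCLM_apply_apply (hg ε hε), smul_eq_mul, norm_mul]
    have hd := hS 0 (by norm_num) ξ
    rw [norm_iteratedFDeriv_zero] at hd
    have hb := h0 ε hε ξ
    have h4 : (1 + ‖ξ‖) ^ (-(4 : ℝ)) = ((1 + ‖ξ‖) ^ 4)⁻¹ := by
      rw [Real.rpow_neg (by positivity)]
      congr 1
      exact_mod_cast Real.rpow_natCast (1 + ‖ξ‖) 4
    rw [h4]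
    refine (mul_le_mul hb hd (norm_nonneg _) (by positivity)).trans (le_of_eq ?_)
    rw [pow_add]
    field_simp
  · apply Integrable.const_mul
    apply integrable_one_add_norm
    simp
    norm_num
  · have hae : ∀ᵐ ξ : E3 ∂volume, ξ ≠ 0 := by
      rw [ae_iff]
      simp
    filter_upwards [hae] with ξ hξ
    have h1 : Tendsto (fun ε => m ε ξ * f ξ) (𝓝[>] 0) (𝓝 (m0 ξ * f ξ)) :=
      (hl ξ hξ).mul tendsto_const_nhds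
    have h2 : Tendsto (fun ε => Real.fourierChar ⟪ξ, x⟫_ℝ • (m ε ξ * f ξ)) (𝓝[>] 0)
        (𝓝 (Real.fourierChar ⟪ξ, x⟫_ℝ • (m0 ξ * f ξ))) := h1.const_smul _
    refine h2.congr' ?_
    filter_upwards [hev] with ε hε
    rw [SchwartzMap.smulLeftCLM_apply_apply (hg ε hε), smul_eq_mul]

private lemma wlgen_plancherel (H : 𝓢(E3, ℂ)) :
    eLpNorm (𝓕⁻ H : 𝓢(E3, ℂ)) 2 volume = eLpNorm H 2 volume := by
  have h := SchwartzMap.norm_fourier_toL2_eq (𝓕⁻ H : 𝓢(E3, ℂ))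
  rw [FourierTransform.fourier_fourierInv_eq, SchwartzMap.norm_toLp, SchwartzMap.norm_toLp] at h
  have hfin1 : eLpNorm H 2 volume ≠ ⊤ := (H.memLp 2 volume).2.ne
  have hfin2 : eLpNorm (𝓕⁻ H : 𝓢(E3, ℂ)) 2 volume ≠ ⊤ :=
    ((𝓕⁻ H : 𝓢(E3, ℂ)).memLp 2 volume).2.ne
  exact ((ENNReal.toReal_eq_toReal_iff' hfin1 hfin2).mp h).symm

open Laplacian in
theorem weighted_mult (φ : 𝓢(E3, ℂ)) {m : ℝ → E3 → ℂ} {m0 : E3 → ℂ}
    (hg : ∀ ε ∈ Ioc (0 : ℝ) 1, Function.HasTemperateGrowth (m ε))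
    (hl : ∀ ξ : E3, ξ ≠ 0 → Tendsto (fun ε => m ε ξ) (𝓝[>] 0) (𝓝 (m0 ξ)))
    {N : ℕ} {C β : ℝ} (hβ : β < 3 / 2)
    (h0 : ∀ ε ∈ Ioc (0 : ℝ) 1, ∀ ξ, ‖m ε ξ‖ ≤ C * (1 + ‖ξ‖) ^ N)
    (h1 : ∀ ε ∈ Ioc (0 : ℝ) 1, ∀ ξ, ξ ≠ 0 →
      ‖fderiv ℝ (m ε) ξ‖ ≤ C * (1 + ‖ξ‖) ^ N * (1 + ‖ξ‖ ^ (-(1 / 2 : ℝ))))
    (h2 : ∀ ε ∈ Ioc (0 : ℝ) 1, ∀ ξ, ξ ≠ 0 →
      ‖iteratedFDeriv ℝ 2 (m ε) ξ‖ ≤ C * (1 + ‖ξ‖) ^ N * (1 + ‖ξ‖ ^ (-β))) :
    WL (𝓕⁻ (fun ξ : E3 => m0 ξ * 𝓕 (φ : E3 → ℂ) ξ)) := by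
  set γ := max β (1 / 2) with hγ
  have hγ0 : 0 ≤ γ := (by norm_num : (0 : ℝ) ≤ 1 / 2).trans (le_max_right _ _)
  have hγ1 : γ < 3 / 2 := max_lt hβ (by norm_num)
  set f : 𝓢(E3, ℂ) := 𝓕 φ with hf
  obtain ⟨K, hK0, hK⟩ := wlgen_bound f N (C := C) (β := β)
  have hB := (wlB_memLp hγ0 hγ1).const_mul K
  set G : ℝ → 𝓢(E3, ℂ) := fun ε => SchwartzMap.smulLeftCLM ℂ (m ε) f with hG
  set ψ : ℝ → 𝓢(E3, ℂ) := fun ε => 𝓕⁻ (G ε) with hψ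
  have hev : ∀ᶠ ε in 𝓝[>] (0 : ℝ), ε ∈ Ioc (0 : ℝ) 1 := Ioc_mem_nhdsGT zero_lt_one
  have hlim : ∀ x : E3, Tendsto (fun ε => (((1 + ‖x‖ ^ 2 : ℝ)) : ℂ) * ψ ε x) (𝓝[>] 0)
      (𝓝 ((((1 + ‖x‖ ^ 2 : ℝ)) : ℂ) * 𝓕⁻ (fun ξ : E3 => m0 ξ * 𝓕 (φ : E3 → ℂ) ξ) x)) := by
    intro x
    exact (wlgen_lim f hg hl h0 x).const_mul _
  have hmeas : ∀ ε, AEStronglyMeasurable (fun x : E3 => (((1 + ‖x‖ ^ 2 : ℝ)) : ℂ) * ψ ε x)
      volume := by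
    intro ε
    have hc : Continuous (fun x : E3 => (((1 + ‖x‖ ^ 2 : ℝ)) : ℂ) * ψ ε x) := by
      have h1 : Continuous (fun x : E3 => (((1 + ‖x‖ ^ 2 : ℝ)) : ℂ)) := by fun_prop
      exact h1.mul (ψ ε).continuous
    exact hc.aestronglyMeasurable
  have hbd : ∀ᶠ ε in 𝓝[>] (0 : ℝ),
      eLpNorm (fun x : E3 => (((1 + ‖x‖ ^ 2 : ℝ)) : ℂ) * ψ ε x) 2 volume ≤
        eLpNorm (fun ξ : E3 => K * wlB γ ‖ξ‖) 2 volume := by
    filter_upwards [hev] with ε hε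
    set H : 𝓢(E3, ℂ) := G ε + (-(4 * Real.pi ^ 2)⁻¹ : ℝ) • Δ (G ε) with hH
    have hpi : (4 * Real.pi ^ 2 : ℝ) ≠ 0 := by positivity
    have e1 : (fun x : E3 => (((1 + ‖x‖ ^ 2 : ℝ)) : ℂ) * ψ ε x) = (𝓕⁻ H : 𝓢(E3, ℂ)) := by
      ext x
      have e2 : (𝓕⁻ H : 𝓢(E3, ℂ)) = 𝓕⁻ (G ε) + (-(4 * Real.pi ^ 2)⁻¹ : ℝ) • 𝓕⁻ (Δ (G ε)) := by
        rw [hH, FourierTransform.fourierInv_add, FourierTransform.fourierInv_smul]
      rw [e2, _root_.add_apply, _root_.smul_apply, wlgen_lap, Complex.real_smul]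
      have hpi' : (4 * (Real.pi : ℂ) ^ 2) ≠ 0 := by exact_mod_cast hpi
      have hψx : ψ ε x = (𝓕⁻ (G ε) : 𝓢(E3, ℂ)) x := rfl
      rw [hψx]
      push_cast
      field_simp
    rw [e1, wlgen_plancherel]
    apply eLpNorm_mono_ae_real
    have hae : ∀ᵐ ξ : E3 ∂volume, ξ ≠ 0 := by
      rw [ae_iff]
      simp
    filter_upwards [hae] with ξ hξ
    have hb := hK (m ε) (hg ε hε) (h0 ε hε) (h1 ε hε) (h2 ε hε) ξ hξ
    have hGξ : G ε ξ = m ε ξ * f ξ := by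
      rw [hG]
      simp only
      rw [SchwartzMap.smulLeftCLM_apply_apply (hg ε hε), smul_eq_mul]
    rw [hH, _root_.add_apply, _root_.smul_apply, hGξ]
    refine (norm_add_le _ _).trans (le_trans ?_ hb)
    gcongr
    rw [norm_smul, norm_neg, Real.norm_of_nonneg (by positivity)]
    have hpi1 : (4 * Real.pi ^ 2)⁻¹ ≤ 1 := by
      apply inv_le_one_of_one_le₀
      nlinarith [Real.pi_gt_three]
    calc (4 * Real.pi ^ 2)⁻¹ * ‖(Δ (G ε) : 𝓢(E3, ℂ)) ξ‖ ≤ 1 * ‖(Δ (G ε) : 𝓢(E3, ℂ)) ξ‖ :=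
          mul_le_mul_of_nonneg_right hpi1 (norm_nonneg _)
      _ = _ := one_mul _
  refine ⟨aestronglyMeasurable_of_tendsto_ae (𝓝[>] (0 : ℝ)) hmeas
    (Eventually.of_forall hlim), ?_⟩
  exact (Lp.eLpNorm_le_of_ae_tendsto hbd hmeas (Eventually.of_forall hlim)).trans_lt hB.2

end FracScat

end
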