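import Pool.Agent.Lib.MP_6e2ba5_an.PkCalc
import Pool.Agent.Lib.MP_6e2ba5_an.FracPair
import Pool.Agent.Lib.MP_6e2ba5_an.Ops

/-! # The regularised outgoing field of a source supported in the ball

`f ∈ L²` supported in the ball of radius `r`, so `f ∈ L¹`; `w = cv (Pk k) f`,
`∂_j w = cv (dPk k j) f`. For `|y| < r` one has `1/(1+|x-y|) ≤ (1+r)/(1+|x|)`, which gives the
bounds; continuity by dominated convergence. `cv_rad`: write `dPk(x-y) - ik (x_j/|x|) Pk(x-y)
= [dPk(x-y) - ik ((x-y)_j/|x-y|) Pk(x-y)] + ik ((x-y)_j/|x-y| - x_j/|x|) Pk(x-y)`, where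
`|(x-y)/|x-y| - x/|x|| ≤ 2|y|/|x|` (and is at most `2`). `cv_weak`: for every `y`,
`∫ dPk k j (x-y) φ(x) dx = -∫ Pk k (x-y) ∂_j φ(x) dx`
(`integral_mul_fderiv_eq_neg_fderiv_mul_of_integrable` or the line derivative version; bounded
times Schwartz is integrable), and Fubini. -/

set_option autoImplicit false

open MeasureTheory Filter Topology Set
open scoped FourierTransform SchwartzMap InnerProductSpace ENNReal

noncomputable section

namespace FracScat

/-- a source supported in the ball vanishes outside -/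
private theorem Wfun_supp {r : ℝ} {f : HS} (hf : mulL (indB r) f = f) :
    ∀ᵐ y ∂(volume : Measure E3), f y ≠ 0 → ‖y‖ < r := by
  have h1 := mulL_coe (indB_BM r) f
  rw [hf] at h1
  filter_upwards [h1] with y hy hne
  by_contra hcon
  apply hne
  rw [hy]
  unfold indB
  rw [if_neg hcon, zero_mul]

private theorem Wfun_shift {r : ℝ} (hr : 0 < r) {x y : E3} (hy : ‖y‖ < r) :
    1 / (1 + ‖x - y‖) ≤ (1 + r) / (1 + ‖x‖) := by
  have h1 : ‖x‖ ≤ ‖x - y‖ + ‖y‖ := by
    have := norm_add_le (x - y) y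
    rwa [sub_add_cancel] at this
  have h2 := norm_nonneg (x - y)
  have h3 := norm_nonneg x
  rw [div_le_div_iff₀ (by linarith) (by linarith)]
  nlinarith

private theorem Wfun_const {q : E3 → ℂ} {C : ℝ} (hC : ∀ x, ‖q x‖ ≤ C / (1 + ‖x‖)) :
    0 ≤ C ∧ ∀ x, ‖q x‖ ≤ C := by
  have h0 : 0 ≤ C := by
    have h1 := (norm_nonneg _).trans (hC 0)
    rw [norm_zero, add_zero, div_one] at h1
    exact h1
  refine ⟨h0, fun x => (hC x).trans ?_⟩
  exact div_le_self h0 (by linarith [norm_nonneg x])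

private theorem Wfun_int {q : E3 → ℂ} (hq : Continuous q) {C : ℝ} (hC : ∀ x, ‖q x‖ ≤ C)
    {g : E3 → ℂ} (hg : Integrable g) (x : E3) : Integrable (fun y => g y * q (x - y)) := by
  refine hg.mul_bdd (c := C) ?_ (Eventually.of_forall fun y => hC _)
  exact (hq.comp (continuous_const.sub continuous_id)).aestronglyMeasurable

/-- the basic estimate for the convolution with a kernel which may depend on `x` -/
private theorem Wfun_est {r : ℝ} {f : HS} (hf : mulL (indB r) f = f)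
    (Q : E3 → ℂ) (B : ℝ) (hB : ∀ y : E3, ‖y‖ < r → ‖Q y‖ ≤ B) :
    ‖∫ y, f y * Q y‖ ≤ (∫ y, ‖f y‖) * B := by
  have hfi := integrable_of_indB hf
  rw [← integral_mul_const]
  refine norm_integral_le_of_norm_le (hfi.norm.mul_const B) ?_
  filter_upwards [Wfun_supp hf] with y hy
  rw [norm_mul]
  by_cases h : f y = 0
  · rw [h, norm_zero, zero_mul, zero_mul]
  · exact mul_le_mul_of_nonneg_left (hB y (hy h)) (norm_nonneg _)

theorem cv_bound {q : E3 → ℂ} (hq : Continuous q) {C : ℝ} (hC : ∀ x, ‖q x‖ ≤ C / (1 + ‖x‖))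
    {r : ℝ} (hr : 0 < r) {f : HS} (hf : mulL (indB r) f = f) :
    Continuous (cv q f) ∧ ∃ C' : ℝ, 0 ≤ C' ∧ ∀ x, ‖cv q f x‖ ≤ C' / (1 + ‖x‖) := by
  have hfi := integrable_of_indB hf
  obtain ⟨hC0, hCb⟩ := Wfun_const hC
  constructor
  · unfold cv
    refine continuous_of_dominated (bound := fun y => ‖f y‖ * C) ?_ ?_ (hfi.norm.mul_const C) ?_
    · intro x
      exact (Wfun_int hq hCb hfi x).aestronglyMeasurable
    · intro x
      refine Eventually.of_forall fun y => ?_
      rw [norm_mul]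
      exact mul_le_mul_of_nonneg_left (hCb _) (norm_nonneg _)
    · refine Eventually.of_forall fun y => ?_
      exact continuous_const.mul (hq.comp (continuous_id.sub continuous_const))
  · have hI : 0 ≤ ∫ y, ‖f y‖ := integral_nonneg fun y => norm_nonneg _
    refine ⟨(∫ y, ‖f y‖) * (C * (1 + r)), by positivity, fun x => ?_⟩
    have h1 := Wfun_est hf (fun y => q (x - y)) (C * (1 + r) / (1 + ‖x‖)) (fun y hy => by
      refine (hC _).trans ?_
      have h2 := mul_le_mul_of_nonneg_left (Wfun_shift hr (x := x) hy) hC0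
      calc C / (1 + ‖x - y‖) = C * (1 / (1 + ‖x - y‖)) := by ring
        _ ≤ C * ((1 + r) / (1 + ‖x‖)) := h2
        _ = C * (1 + r) / (1 + ‖x‖) := by ring)
    unfold cv
    refine h1.trans (le_of_eq ?_)
    ring

private theorem Wfun_coord (x : E3) (j : Fin 3) : |x j| ≤ ‖x‖ := by
  have := PiLp.norm_apply_le x j
  rwa [Real.norm_eq_abs] at this

private theorem Wfun_dir2 (x y : E3) (j : Fin 3) :
    |(x - y) j / ‖x - y‖ - x j / ‖x‖| ≤ 2 := by
  have h1 : ∀ z : E3, |z j / ‖z‖| ≤ 1 := by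
    intro z
    rw [abs_div, abs_norm]
    exact div_le_one_of_le₀ (Wfun_coord z j) (norm_nonneg z)
  have := abs_sub ((x - y) j / ‖x - y‖) (x j / ‖x‖)
  linarith [h1 (x - y), h1 x]

private theorem Wfun_dir (x y : E3) (j : Fin 3) :
    |(x - y) j / ‖x - y‖ - x j / ‖x‖| * ‖x‖ ≤ 2 * ‖y‖ := by
  by_cases hx : x = 0
  · rw [hx, norm_zero, mul_zero]
    positivity
  · have hxp : 0 < ‖x‖ := norm_pos_iff.2 hx
    by_cases hu : x - y = 0
    · have h1 : x = y := sub_eq_zero.1 hu
      have h2 := mul_le_mul_of_nonneg_right (Wfun_dir2 x y j) hxp.le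
      refine h2.trans (le_of_eq ?_)
      rw [h1]
    · have hup : 0 < ‖x - y‖ := norm_pos_iff.2 hu
      have h3 : (x - y) j / ‖x - y‖ - x j / ‖x‖ =
          ((x - y) j * (‖x‖ - ‖x - y‖) / ‖x - y‖ - y j) / ‖x‖ := by
        have h4 : (x - y) j = x j - y j := rfl
        field_simp
        rw [h4]
        ring
      rw [h3, abs_div, abs_norm, div_mul_cancel₀ _ hxp.ne']
      refine (abs_sub _ _).trans ?_
      have h5 : |(x - y) j * (‖x‖ - ‖x - y‖) / ‖x - y‖| ≤ ‖y‖ := by
        rw [abs_div, abs_norm, div_le_iff₀ hup, abs_mul, mul_comm ‖y‖]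
        refine mul_le_mul (Wfun_coord _ j) ?_ (abs_nonneg _) hup.le
        have := abs_norm_sub_norm_le x (x - y)
        rwa [sub_sub_cancel] at this
      linarith [Wfun_coord y j]

theorem cv_rad {k : ℝ} (hk : 0 < k) {r : ℝ} (hr : 0 < r) {f : HS} (hf : mulL (indB r) f = f) :
    ∃ C : ℝ, 0 ≤ C ∧ ∀ (j : Fin 3) (x : E3),
      ‖cv (dPk k j) f x - Complex.I * k * ((x j / ‖x‖ : ℝ) : ℂ) * cv (Pk k) f x‖ ≤
        C / (1 + ‖x‖) ^ 2 := by
  have hfi := integrable_of_indB hf
  obtain ⟨C1, hC1, H1⟩ := Pk_rad hk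
  obtain ⟨C2, hC2, H2⟩ := Pk_bound k
  obtain ⟨C3, hC3, H3⟩ := dPk_bound hk
  have H2' : ∀ x : E3, ‖Pk k x‖ ≤ C2 / (1 + ‖x‖) :=
    H2 k (by simp) (by rw [Complex.norm_real, Real.norm_of_nonneg hk.le])
  have hP := (Wfun_const H2').2
  have hD : ∀ j x, ‖dPk k j x‖ ≤ C3 := fun j => (Wfun_const (H3 j)).2
  have hI : 0 ≤ ∫ y, ‖f y‖ := integral_nonneg fun y => norm_nonneg _
  obtain ⟨B, hBdef⟩ : ∃ B, B = C1 * (1 + r) ^ 2 + k * (4 * (1 + r)) * (C2 * (1 + r)) := ⟨_, rfl⟩
  have hB0 : 0 ≤ B := by rw [hBdef]; positivity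
  refine ⟨(∫ y, ‖f y‖) * B, by positivity, fun j x => ?_⟩
  have h1 : cv (dPk k j) f x - Complex.I * k * ((x j / ‖x‖ : ℝ) : ℂ) * cv (Pk k) f x =
      ∫ y, f y * (dPk k j (x - y) - Complex.I * k * ((x j / ‖x‖ : ℝ) : ℂ) * Pk k (x - y)) := by
    unfold cv
    rw [← integral_const_mul, ← integral_sub (Wfun_int (dPk_continuous k j) (hD j) hfi x)
      ((Wfun_int (Pk_continuous k) hP hfi x).const_mul _)]
    congr 1
    funext y
    ring
  rw [h1]
  have hx0 := norm_nonneg x
  have h2 := Wfun_est hf (fun y => dPk k j (x - y) -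
    Complex.I * k * ((x j / ‖x‖ : ℝ) : ℂ) * Pk k (x - y)) (B / (1 + ‖x‖) ^ 2) (fun y hy => by
      have hsh := Wfun_shift hr (x := x) hy
      have hu0 := norm_nonneg (x - y)
      have e1 : dPk k j (x - y) - Complex.I * k * ((x j / ‖x‖ : ℝ) : ℂ) * Pk k (x - y) =
          (dPk k j (x - y) -
            Complex.I * k * (((x - y) j / ‖x - y‖ : ℝ) : ℂ) * Pk k (x - y)) +
          Complex.I * k * (((x - y) j / ‖x - y‖ - x j / ‖x‖ : ℝ) : ℂ) * Pk k (x - y) := by
        push_cast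
        ring
      show ‖dPk k j (x - y) - Complex.I * k * ((x j / ‖x‖ : ℝ) : ℂ) * Pk k (x - y)‖ ≤ _
      rw [e1]
      refine (norm_add_le _ _).trans ?_
      have a1 : ‖dPk k j (x - y) -
          Complex.I * k * (((x - y) j / ‖x - y‖ : ℝ) : ℂ) * Pk k (x - y)‖ ≤
          C1 * (1 + r) ^ 2 / (1 + ‖x‖) ^ 2 := by
        refine (H1 j (x - y)).trans ?_
        have b1 : (1 / (1 + ‖x - y‖)) ^ 2 ≤ ((1 + r) / (1 + ‖x‖)) ^ 2 :=
          pow_le_pow_left₀ (by positivity) hsh 2
        have b2 := mul_le_mul_of_nonneg_left b1 hC1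
        calc C1 / (1 + ‖x - y‖) ^ 2 = C1 * (1 / (1 + ‖x - y‖)) ^ 2 := by
              rw [div_pow, one_pow]; ring
          _ ≤ C1 * ((1 + r) / (1 + ‖x‖)) ^ 2 := b2
          _ = C1 * (1 + r) ^ 2 / (1 + ‖x‖) ^ 2 := by rw [div_pow]; ring
      have a2 : |(x - y) j / ‖x - y‖ - x j / ‖x‖| ≤ 4 * (1 + r) / (1 + ‖x‖) := by
        rw [le_div_iff₀ (by linarith)]
        have c1 := Wfun_dir2 x y j
        have c2 := Wfun_dir x y j
        have c3 := abs_nonneg ((x - y) j / ‖x - y‖ - x j / ‖x‖)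
        nlinarith
      have a3 : ‖Complex.I * k * (((x - y) j / ‖x - y‖ - x j / ‖x‖ : ℝ) : ℂ) * Pk k (x - y)‖ ≤
          k * (4 * (1 + r)) * (C2 * (1 + r)) / (1 + ‖x‖) ^ 2 := by
        rw [norm_mul, norm_mul, norm_mul, Complex.norm_I, one_mul, Complex.norm_real,
          Real.norm_of_nonneg hk.le, Complex.norm_real, Real.norm_eq_abs]
        have b3 : ‖Pk k (x - y)‖ ≤ C2 * (1 + r) / (1 + ‖x‖) := by
          refine (H2' (x - y)).trans ?_
          have b2 := mul_le_mul_of_nonneg_left hsh hC2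
          calc C2 / (1 + ‖x - y‖) = C2 * (1 / (1 + ‖x - y‖)) := by ring
            _ ≤ C2 * ((1 + r) / (1 + ‖x‖)) := b2
            _ = C2 * (1 + r) / (1 + ‖x‖) := by ring
        calc k * |(x - y) j / ‖x - y‖ - x j / ‖x‖| * ‖Pk k (x - y)‖
            ≤ k * (4 * (1 + r) / (1 + ‖x‖)) * (C2 * (1 + r) / (1 + ‖x‖)) :=
              mul_le_mul (mul_le_mul_of_nonneg_left a2 hk.le) b3 (norm_nonneg _)
                (by positivity)
          _ = k * (4 * (1 + r)) * (C2 * (1 + r)) / (1 + ‖x‖) ^ 2 := by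
              field_simp
      calc _ ≤ C1 * (1 + r) ^ 2 / (1 + ‖x‖) ^ 2 +
            k * (4 * (1 + r)) * (C2 * (1 + r)) / (1 + ‖x‖) ^ 2 := add_le_add a1 a3
        _ = B / (1 + ‖x‖) ^ 2 := by rw [hBdef]; ring)
  refine h2.trans (le_of_eq ?_)
  ring

private theorem Wfun_fubini {q : E3 → ℂ} (hq : Continuous q) {C : ℝ} (hC : ∀ x, ‖q x‖ ≤ C)
    {g : E3 → ℂ} (hg : Integrable g) {φ : E3 → ℂ} (hφ : Integrable φ) :
    ∫ x, cv q g x * φ x = ∫ y, g y * ∫ x, q (x - y) * φ x := by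
  have h1 : Integrable (fun p : E3 × E3 => g p.2 * q (p.1 - p.2) * φ p.1)
      ((volume : Measure E3).prod volume) := by
    have h2 : Integrable (fun p : E3 × E3 => φ p.1 * g p.2)
        ((volume : Measure E3).prod volume) := hφ.mul_prod hg
    have h3 : Integrable (fun p : E3 × E3 => φ p.1 * g p.2 * q (p.1 - p.2))
        ((volume : Measure E3).prod volume) := by
      refine h2.mul_bdd (c := C) ?_ (Eventually.of_forall fun p => hC _)
      exact (hq.comp (continuous_fst.sub continuous_snd)).aestronglyMeasurable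
    refine h3.congr (Eventually.of_forall fun p => ?_)
    show φ p.1 * g p.2 * q (p.1 - p.2) = g p.2 * q (p.1 - p.2) * φ p.1
    ring
  calc ∫ x, cv q g x * φ x = ∫ x, ∫ y, g y * q (x - y) * φ x := by
        unfold cv
        refine integral_congr_ae (Eventually.of_forall fun x => ?_)
        exact (integral_mul_const (φ x) (fun y => g y * q (x - y))).symm
    _ = ∫ y, ∫ x, g y * q (x - y) * φ x := integral_integral_swap h1
    _ = ∫ y, g y * ∫ x, q (x - y) * φ x := by
        refine integral_congr_ae (Eventually.of_forall fun y => ?_)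
        show ∫ x, g y * q (x - y) * φ x = g y * ∫ x, q (x - y) * φ x
        rw [← integral_const_mul]
        refine integral_congr_ae (Eventually.of_forall fun x => ?_)
        show g y * q (x - y) * φ x = g y * (q (x - y) * φ x)
        ring

theorem cv_weak {k : ℝ} (hk : 0 < k) {r : ℝ} (hr : 0 < r) {f : HS} (hf : mulL (indB r) f = f)
    (j : Fin 3) (φ : 𝓢(E3, ℂ)) :
    ∫ x, cv (dPk k j) f x * φ x = -∫ x, cv (Pk k) f x * dphi j φ x := by
  have _ := hr
  have hfi := integrable_of_indB hf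
  obtain ⟨C2, hC2, H2⟩ := Pk_bound k
  obtain ⟨C3, hC3, H3⟩ := dPk_bound hk
  have H2' : ∀ x : E3, ‖Pk k x‖ ≤ C2 / (1 + ‖x‖) :=
    H2 k (by simp) (by rw [Complex.norm_real, Real.norm_of_nonneg hk.le])
  have hP := (Wfun_const H2').2
  have hD : ∀ x, ‖dPk k j x‖ ≤ C3 := (Wfun_const (H3 j)).2
  have hφ : Integrable (φ : E3 → ℂ) := φ.integrable
  have hdφ : Integrable (dphi j φ) := by
    have h1 := (LineDeriv.lineDerivOp (EuclideanSpace.single j (1 : ℝ)) φ : 𝓢(E3, ℂ)).integrable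
      (μ := (volume : Measure E3))
    refine h1.congr (Eventually.of_forall fun x => ?_)
    exact SchwartzMap.lineDerivOp_apply_eq_fderiv _ φ x
  rw [Wfun_fubini (dPk_continuous k j) hD hfi hφ, Wfun_fubini (Pk_continuous k) hP hfi hdφ,
    ← integral_neg]
  refine integral_congr_ae (Eventually.of_forall fun y => ?_)
  show (f y * ∫ x, dPk k j (x - y) * φ x) = -(f y * ∫ x, Pk k (x - y) * dphi j φ x)
  have hder : ∀ x : E3, ∃ D : E3 →L[ℝ] ℂ, HasFDerivAt (fun x => Pk k (x - y)) D x ∧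
      D (EuclideanSpace.single j (1 : ℝ)) = dPk k j (x - y) := by
    intro x
    obtain ⟨D, hD1, hD2⟩ := Pk_hasFDerivAt k (x - y)
    refine ⟨D, ?_, hD2 j⟩
    have h1 : HasFDerivAt (fun x : E3 => x - y) (ContinuousLinearMap.id ℝ E3) x :=
      (hasFDerivAt_id x).sub_const y
    have h2 := hD1.comp x h1
    rwa [ContinuousLinearMap.comp_id] at h2
  have hfd : ∀ x : E3, fderiv ℝ (fun x => Pk k (x - y)) x (EuclideanSpace.single j (1 : ℝ)) =
      dPk k j (x - y) := by
    intro x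
    obtain ⟨D, h1, h2⟩ := hder x
    rw [h1.fderiv, h2]
  have hP' : Continuous (fun x : E3 => Pk k (x - y)) :=
    (Pk_continuous k).comp (continuous_id.sub continuous_const)
  have hD' : Continuous (fun x : E3 => dPk k j (x - y)) :=
    (dPk_continuous k j).comp (continuous_id.sub continuous_const)
  have hparts := integral_mul_fderiv_eq_neg_fderiv_mul_of_integrable (μ := (volume : Measure E3))
    (f := fun x => Pk k (x - y)) (g := (φ : E3 → ℂ)) (v := EuclideanSpace.single j (1 : ℝ))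
    (by
      simp only [hfd]
      exact hφ.bdd_mul (c := C3) hD'.aestronglyMeasurable (Eventually.of_forall fun x => hD _))
    (by
      exact hdφ.bdd_mul (c := C2) hP'.aestronglyMeasurable (Eventually.of_forall fun x => hP _))
    (by
      exact hφ.bdd_mul (c := C2) hP'.aestronglyMeasurable (Eventually.of_forall fun x => hP _))
    (fun x _ => (hder x).choose_spec.1.differentiableAt)
    (fun x _ => φ.differentiableAt)
  have h3 : ∫ x, Pk k (x - y) * dphi j φ x = -∫ x, dPk k j (x - y) * φ x := by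
    have h4 := hparts
    simp only [hfd] at h4
    exact h4
  rw [h3]
  ring

end FracScat

end
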